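import Pool.Agent.Lib.MP_7d3fda_nt.Q3.Basic
import Pool.Agent.Lib.MP_7d3fda_nt.R4.YDefs

open Finset Filter
open scoped Classical NumberTheorySymbols

noncomputable section

namespace Pool.Agent.Lib.MP_7d3fda_nt.Q3

namespace AdaptAux

/-- the four known primes of an element of the pool -/
def Kn (W₀ : ℕ) (v : Fin 4 → ℕ) (P : Fin 4 → ℤ → ℤ → Prop) (γ : O) (g : Fin 4 → ℕ) : Prop :=
  Function.Injective g ∧ ∀ i, (g i).Prime ∧ g i ≡ v i [MOD W₀] ∧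
    ∃ x y' : ℤ, (g i : ℤ) = x ^ 2 + 3 * y' ^ 2 ∧ P i x y' ∧ (⟨x, y'⟩ : O) ∣ γ

theorem good {d : Dat} {W₀ u : ℕ} {v : Fin 4 → ℕ} {P : Fin 4 → ℤ → ℤ → Prop} {P0 : ℕ → Finset O}
    {g : O → Fin 4 → ℕ} (hg : ∀ y, ∀ γ ∈ P0 y, Kn W₀ v P γ (g γ)) {ξ : R4.Rule} {c : Fin 6 → ℤ}
    {G σ a s : ℤ} (hσ : σ * σ = 1) (hc : ∀ j, d.c j = σ * c j) (hG : (d.e : ℤ) = σ * G)
    (h : GoodQ d W₀ u P0 (fun γ => ξ (g γ)) a s) : R4.Good5 c G W₀ u v P ξ a (σ * s) := by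
  obtain ⟨p, n, q, y, γ, h1, h2, h3, h4, h5, h6, h7, h8, h9, h10⟩ := h
  obtain ⟨k1, k2⟩ := hg y γ h1
  have e1 : G * (σ * s) = d.e * s := by rw [hG]; ring
  refine ⟨p, g γ, n, q, ⟨mul_ne_zero (fun h0 => by simp [h0] at hσ) h5, fun j =>
    ⟨(h6 j).1, (h6 j).2.1, by rw [(h6 j).2.2, hc]; ring⟩, fun i => ?_, k1, h4, h7, h8,
    by rw [e1, h9]⟩, h10⟩
  obtain ⟨m1, m2, x, y', m3, m4, m5⟩ := k2 i
  have n1 : (⟨x, y'⟩ : O).norm = g γ i := by rw [norm_eq, m3]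
  refine ⟨m1, m2, ?_, x, y', m3, m4, ?_⟩
  · obtain ⟨t, ht⟩ := m5
    have : (g γ i : ℤ) ∣ γ.norm := ⟨t.norm, by rw [← n1, ← Zsqrtd.norm_mul, ← ht]⟩
    exact Int.natCast_dvd_natCast.1 (this.trans h3)
  · obtain ⟨t, ht⟩ := m5.trans h2
    have r1 := congrArg Zsqrtd.re ht
    have r2 := congrArg Zsqrtd.im ht
    simp only [mul_re', mul_im'] at r1 r2
    exact ⟨t.im, by rw [e1, r1, r2, m3]; ring⟩

end AdaptAux

open AdaptAux in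
theorem many5_of (hMany : StMany) (hPool : StPool) : R4.Many5 := by
  intro c G W₀ u v P h ξ
  obtain ⟨c0, C0, h0, P0, hP0, hK⟩ := hPool W₀ v P h.hW h.h3 h.hv h.hP
  have hg : ∀ γ : O, ∃ g : Fin 4 → ℕ, (∃ g', Kn W₀ v P γ g') → Kn W₀ v P γ g := fun γ => by
    by_cases e : ∃ g', Kn W₀ v P γ g'
    · exact ⟨e.choose, fun _ => e.choose_spec⟩
    · exact ⟨fun _ => 0, fun e' => absurd e' e⟩
  choose g hg using hg
  have hσ : G.sign * G.sign = 1 := by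
    rcases lt_or_gt_of_ne h.hG with e | e
    · simp [Int.sign_eq_neg_one_of_neg e]
    · simp [Int.sign_eq_one_of_pos e]
  have hσ0 : G.sign ≠ 0 := fun h0 => by simp [h0] at hσ
  have hσ1 : |(G.sign : ℝ)| = 1 := by
    have : (G.sign : ℝ) * G.sign = 1 := by exact_mod_cast hσ
    exact abs_eq_abs.2 (mul_self_eq_one_iff.1 this) |>.trans abs_one
  obtain ⟨K, κ, hκ, T₀, hT⟩ := hMany ⟨G.natAbs, fun j => G.sign * c j, c0, C0,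
    Int.natAbs_pos.2 h.hG, fun i j e => h.hc (mul_left_cancel₀ hσ0 e), h0⟩ W₀ u h.hW h.hu P0 hP0
    fun γ => ξ (g γ)
  refine ⟨K, κ, hκ, T₀, fun T hT₀ => ?_⟩
  obtain ⟨Z, hZ, hc⟩ := hT T hT₀
  refine ⟨Z.image fun z => (z.1, G.sign * z.2), fun z hz => ?_, ?_⟩
  · obtain ⟨z', hz', rfl⟩ := mem_image.1 hz
    obtain ⟨k1, k2, k3⟩ := hZ z' hz'
    refine ⟨good (fun y γ hγ => hg γ (hK y γ hγ)) hσ (fun _ => rfl)
      (Int.sign_mul_self_eq_natAbs G).symm k1, k2, ?_⟩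
    rw [Int.cast_mul, abs_mul, hσ1, one_mul]
    exact k3
  · rwa [card_image_of_injective]
    intro z z' e
    obtain ⟨e1, e2⟩ := Prod.mk.inj e
    exact Prod.ext e1 (mul_left_cancel₀ hσ0 e2)

end Pool.Agent.Lib.MP_7d3fda_nt.Q3
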