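import Pool.Agent.Lib.MP_7d3fda_nt.Q3.Dns
import Pool.Agent.Lib.MP_4b8564_nt.GT.BoxLF
import Pool.Agent.Lib.MP_4b8564_nt.Sg.Expand

open Finset Filter
open scoped Classical

noncomputable section

namespace Pool.Agent.Lib.MP_7d3fda_nt.Q3

open Pool.Agent.Lib.MP_4b8564_nt Pool.Agent.Lib.MP_4b8564_nt.GT

namespace AffAux

open BoxLFAux LocalAux

variable {I : Type} [Fintype I]

/-- the local weight -/
def wr (r : ℝ) (T : Finset I) : ℝ := if T = ∅ then 1 else 4 ^ T.card * r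

omit [Fintype I] in
theorem wr_nonneg {r : ℝ} (hr : 0 ≤ r) (T : Finset I) : 0 ≤ wr r T := by
  unfold wr; split_ifs <;> positivity

theorem sum_wr {r : ℝ} (hr : 0 ≤ r) : ∑ T : Finset I, wr r T ≤ 1 + 5 ^ Fintype.card I * r := by
  have h1 : ∑ T : Finset I, (4 : ℝ) ^ T.card = 5 ^ Fintype.card I := by
    have := prod_add (fun _ : I => (4 : ℝ)) (fun _ => 1) univ
    simp only [prod_const, one_pow, mul_one, powerset_univ, card_univ] at this
    rw [← this]; norm_num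
  calc ∑ T : Finset I, wr r T
      ≤ ∑ T : Finset I, ((if T = ∅ then 1 else 0) + 4 ^ T.card * r) := by
        refine sum_le_sum fun T _ => ?_
        unfold wr
        split_ifs
        · exact le_add_of_nonneg_right (by positivity)
        · simp
    _ = _ := by
        rw [sum_add_distrib, ← sum_mul, h1, sum_ite_eq']
        simp only [mem_univ, if_true]

theorem sum_prod_wr (ρ : ℕ → ℝ) (hρ : ∀ p, 0 ≤ ρ p) (P : Finset ℕ) (A : Finset (I → Finset ℕ))
    (hA : ∀ u ∈ A, ∀ s, u s ⊆ P) :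
    ∑ u ∈ A, ∏ p ∈ P, wr (ρ p) (pl u p) ≤ ∏ p ∈ P, (1 + 5 ^ Fintype.card I * ρ p) := by
  let φ : (I → Finset ℕ) → (P → Finset I) := fun u p => pl u p
  have inj : Set.InjOn φ A := by
    intro u hu u' hu' h
    funext s
    ext p
    by_cases hp : p ∈ P
    · have h1 := Finset.ext_iff.1 (congrFun h ⟨p, hp⟩) s
      simpa [φ, pl] using h1
    · exact ⟨fun h1 => absurd (hA u hu s h1) hp, fun h1 => absurd (hA u' hu' s h1) hp⟩
  calc ∑ u ∈ A, ∏ p ∈ P, wr (ρ p) (pl u p) = ∑ t ∈ A.image φ, ∏ p : P, wr (ρ p) (t p) := by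
        rw [sum_image inj]
        exact sum_congr rfl fun u _ => (prod_coe_sort P fun p => wr (ρ p) (pl u p)).symm
    _ ≤ ∑ t : P → Finset I, ∏ p : P, wr (ρ p) (t p) :=
        sum_le_sum_of_subset_of_nonneg (subset_univ _) fun t _ _ =>
          prod_nonneg fun p _ => wr_nonneg (hρ _) _
    _ = ∏ p : P, ∑ T : Finset I, wr (ρ p) T := by
        rw [prod_univ_sum, Fintype.piFinset_univ]
    _ ≤ ∏ p : P, (1 + 5 ^ Fintype.card I * ρ p) :=
        prod_le_prod (fun p _ => sum_nonneg fun T _ => wr_nonneg (hρ _) _) fun p _ => sum_wr (hρ _)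
    _ = _ := prod_coe_sort P fun p => 1 + 5 ^ Fintype.card I * ρ p

theorem core {V : Type} [Fintype V] [DecidableEq V] (P : Finset ℕ)
    (hP : ∀ p ∈ P, p.Prime ∧ 5 ≤ p) (G : ℕ → I → (V → ℤ) → ℝ)
    (hG1 : ∀ p ∈ P, ∀ s h, |G p s h| ≤ 1) (hGp : ∀ p ∈ P, ∀ s, Per p (G p s))
    (ρ : ℕ → ℝ) (hρ : ∀ p, 0 ≤ ρ p)
    (hGm : ∀ p ∈ P, ∀ T : Finset I, T.Nonempty → |bav p fun h => ∏ s ∈ T, G p s h| ≤ ρ p)
    (Y L : ℕ) (hY : 1 ≤ Y) (hL : 0 < L)
    (e : I → Finset ℕ → ℝ) (he0 : ∀ s, e s ∅ = 1) (he : ∀ s U, |e s U| ≤ 4 ^ U.card) :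
    |bav L (fun h : V → ℤ => ∏ s, ∑ U ∈ Sg.fam P Y, e s U * ∏ p ∈ U, G p s h) - 1| ≤
      (∏ p ∈ P, (1 + 5 ^ Fintype.card I * ρ p) - 1) +
        2 * Fintype.card V * (Y : ℝ) ^ (3 * Fintype.card I) / L := by
  set A := Fintype.piFinset fun _ : I => Sg.fam P Y with hA
  have hmem : ∀ u ∈ A, ∀ s, u s ⊆ P ∧ ∏ p ∈ u s, p ≤ Y := fun u hu s =>
    mem_fam.1 (Fintype.mem_piFinset.1 hu s)
  let E : (I → Finset ℕ) → ℝ := fun u => ∏ s, e s (u s)
  let Φ : (I → Finset ℕ) → (V → ℤ) → ℝ := fun u h =>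
    ∏ p ∈ univ.biUnion u, ∏ s ∈ pl u p, G p s h
  let M : (I → Finset ℕ) → ℝ := fun u =>
    ∏ p ∈ univ.biUnion u, bav p fun h => ∏ s ∈ pl u p, G p s h
  have hQ : ∀ u ∈ A, univ.biUnion u ⊆ P := fun u hu p hp => by
    obtain ⟨s, -, hs⟩ := mem_biUnion.1 hp
    exact (hmem u hu s).1 hs
  have e1 : bav L (fun h : V → ℤ => ∏ s, ∑ U ∈ Sg.fam P Y, e s U * ∏ p ∈ U, G p s h) =
      ∑ u ∈ A, E u * bav L (Φ u) := by
    simp only [bav, ← av_const_mul, ← av_sum]
    refine av_congr fun h => ?_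
    rw [prod_univ_sum]
    refine sum_congr rfl fun u _ => ?_
    rw [prod_mul_distrib, swap u fun s p => G p s _]
  have hYn : ∀ u ∈ A, ∏ s, ∏ p ∈ u s, p ≤ Y ^ Fintype.card I := fun u hu =>
    (prod_le_prod' fun s _ => (hmem u hu s).2).trans (by rw [prod_const, card_univ])
  have hE4 : ∀ u, |E u| ≤ ∏ s, ∏ _p ∈ u s, (4 : ℝ) := fun u => by
    simp only [E, abs_prod, prod_const]
    exact prod_le_prod (fun s _ => abs_nonneg _) fun s _ => he _ _
  have hE : ∀ u ∈ A, |E u| ≤ (Y : ℝ) ^ Fintype.card I := fun u hu => by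
    have h6 : ∏ s, ∏ p ∈ u s, (p : ℝ) ≤ (Y : ℝ) ^ Fintype.card I := by
      have h7 := (Nat.cast_le (α := ℝ)).2 (hYn u hu)
      simpa only [Nat.cast_prod, Nat.cast_pow] using h7
    refine (hE4 u).trans (le_trans ?_ h6)
    refine prod_le_prod (fun s _ => by positivity) fun s _ =>
      prod_le_prod (fun p _ => by norm_num) fun p hp => ?_
    have : (5 : ℝ) ≤ p := by exact_mod_cast (hP p ((hmem u hu s).1 hp)).2
    linarith
  have hF : ∀ u ∈ A, ∀ p ∈ univ.biUnion u, Per p fun h => ∏ s ∈ pl u p, G p s h :=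
    fun u hu p hp x y hxy => prod_congr rfl fun s _ => hGp p (hQ u hu hp) s x y hxy
  have herr : ∀ u ∈ A, |bav L (Φ u) - M u| ≤
      2 * Fintype.card V * (Y : ℝ) ^ Fintype.card I / L := fun u hu => by
    have hpr : ∀ p ∈ univ.biUnion u, p.Prime := fun p hp => (hP p (hQ u hu hp)).1
    have h1 := bav_per (∏ p ∈ univ.biUnion u, p) L (prod_pos fun p hp => (hpr p hp).pos) hL (Φ u)
      (fun x y hxy => prod_congr rfl fun p hp => hF u hu p hp x y fun v =>
        (Int.natCast_dvd_natCast.2 (dvd_prod_of_mem (fun p => p) hp)).trans (hxy v))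
      (fun x => by
        simp only [Φ, abs_prod]
        exact prod_le_one (fun p _ => prod_nonneg fun s _ => abs_nonneg _) fun p hp =>
          prod_le_one (fun s _ => abs_nonneg _) fun s _ => hG1 p (hQ u hu hp) s x)
    have h2 := bav_crt (univ.biUnion u) hpr (fun p h => ∏ s ∈ pl u p, G p s h) (hF u hu)
    have h3 : ((∏ p ∈ univ.biUnion u, p : ℕ) : ℝ) ≤ (Y : ℝ) ^ Fintype.card I := by
      exact_mod_cast (prod_union_le u).trans (hYn u hu)
    rw [show M u = _ from h2.symm]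
    refine h1.trans ?_
    gcongr
  have hmain : ∀ u ∈ A, |E u * M u| ≤ ∏ p ∈ P, wr (ρ p) (pl u p) := fun u hu => by
    rw [← prod_subset (hQ u hu) fun p _ hp => by
      have : pl u p = ∅ := by
        refine filter_eq_empty_iff.2 fun s _ hs => hp (mem_biUnion.2 ⟨s, mem_univ s, hs⟩)
      simp [wr, this]]
    rw [abs_mul]
    refine (mul_le_mul_of_nonneg_right (hE4 u) (abs_nonneg _)).trans ?_
    rw [swap u fun _ _ => (4 : ℝ)]
    simp only [M, abs_prod, ← prod_mul_distrib, prod_const]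
    refine prod_le_prod (fun p _ => by positivity) fun p hp => ?_
    rw [wr, if_neg (pl_nonempty hp).ne_empty]
    exact mul_le_mul_of_nonneg_left (hGm p (hQ u hu hp) _ (pl_nonempty hp)) (by positivity)
  have h0 : (fun _ => ∅) ∈ A :=
    Fintype.mem_piFinset.2 fun s => mem_fam.2 ⟨empty_subset _, by simpa using hY⟩
  have hb : (univ.biUnion fun _ : I => (∅ : Finset ℕ)) = ∅ := by ext p; simp
  have h1 : |∑ u ∈ A, E u * M u - 1| ≤ ∏ p ∈ P, (1 + 5 ^ Fintype.card I * ρ p) - 1 := by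
    have h2 := sum_prod_wr ρ hρ P A fun u hu s => (hmem u hu s).1
    rw [← add_sum_erase A _ h0] at h2 ⊢
    have h3 : E (fun _ => ∅) * M (fun _ => ∅) = 1 := by simp only [E, M, he0, hb]; simp
    have h4 : ∏ p ∈ P, wr (ρ p) (pl (fun _ : I => (∅ : Finset ℕ)) p) = 1 :=
      prod_eq_one fun p _ => by simp [wr, pl]
    rw [h4] at h2
    rw [h3, add_sub_cancel_left]
    have h5 := (abs_sum_le_sum_abs _ _).trans (sum_le_sum (s := A.erase fun _ => ∅)
      fun u hu => hmain u (mem_of_mem_erase hu))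
    linarith
  have hc : (A.card : ℝ) ≤ (Y : ℝ) ^ Fintype.card I := by
    rw [hA, Fintype.card_piFinset, prod_const, card_univ]
    exact_mod_cast Nat.pow_le_pow_left (card_fam P (fun p hp => (hP p hp).1) Y) _
  have h2 : |∑ u ∈ A, E u * (bav L (Φ u) - M u)| ≤
      2 * Fintype.card V * (Y : ℝ) ^ (3 * Fintype.card I) / L := by
    refine (abs_sum_le_sum_abs _ _).trans ((sum_le_card_nsmul A _ ((Y : ℝ) ^ Fintype.card I *
      (2 * Fintype.card V * (Y : ℝ) ^ Fintype.card I / L)) fun u hu => ?_).trans ?_)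
    · rw [abs_mul]
      exact mul_le_mul (hE u hu) (herr u hu) (abs_nonneg _) (by positivity)
    · rw [nsmul_eq_mul]
      refine (mul_le_mul_of_nonneg_right hc (by positivity)).trans (le_of_eq ?_)
      ring
  have e2 : ∑ u ∈ A, E u * bav L (Φ u) - 1 =
      (∑ u ∈ A, E u * M u - 1) + ∑ u ∈ A, E u * (bav L (Φ u) - M u) := by
    simp only [mul_sub, sum_sub_distrib]; ring
  rw [e1, e2]
  exact (abs_add_le _ _).trans (add_le_add h1 h2)

section Local

variable {V : Type} [Fintype V] [DecidableEq V] {p : ℕ}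

theorem upd (a : V → ℤ) (c : ℤ) (h : V → Fin p) (v : V) (t : Fin p) :
    c + ∑ v', a v' * ((Function.update h v t v' : ℕ) : ℤ) =
      a v * ((t : ℕ) : ℤ) + (c + ∑ v' ∈ univ.erase v, a v' * ((h v' : ℕ) : ℤ)) := by
  have h1 := form_update a 1 0 c h v t
  simpa only [one_mul, add_zero] using h1

/-- the mean of a function of the event -/
theorem one (hp : p.Prime) (a : V → ℤ) (c : ℤ) {v : V} (hv : ¬(p : ℤ) ∣ a v) (A C : ℝ) :
    av (fun h : V → Fin p => if (p : ℤ) ∣ c + ∑ v', a v' * ((h v' : ℕ) : ℤ) then A else C) =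
      (A - C) / p + C := by
  have : Nonempty (Fin p) := ⟨⟨0, hp.pos⟩⟩
  rw [av_update v]
  simp only [upd, av_ite p hp _ _ hv, av_const]

/-- two independent events -/
theorem two (hp : p.Prime) (a a' : V → ℤ) (c c' : ℤ) {u v : V} (hu : ¬(p : ℤ) ∣ a u)
    (hm : ¬(p : ℤ) ∣ a u * a' v - a v * a' u) :
    av (fun h : V → Fin p => (if (p : ℤ) ∣ c + ∑ v', a v' * ((h v' : ℕ) : ℤ) then (1 : ℝ) else 0) *
      if (p : ℤ) ∣ c' + ∑ v', a' v' * ((h v' : ℕ) : ℤ) then 1 else 0) ≤ 1 / (p : ℝ) ^ 2 := by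
  have : Nonempty (Fin p) := ⟨⟨0, hp.pos⟩⟩
  let b : V → ℤ := fun x => a u * a' x - a x * a' u
  have hb : ∀ h : V → Fin p, a u * c' - c * a' u + ∑ v', b v' * ((h v' : ℕ) : ℤ) =
      a u * (c' + ∑ v', a' v' * ((h v' : ℕ) : ℤ)) -
        (c + ∑ v', a v' * ((h v' : ℕ) : ℤ)) * a' u := fun h => by
    have h1 : ∑ v', b v' * ((h v' : ℕ) : ℤ) = a u * ∑ v', a' v' * ((h v' : ℕ) : ℤ) -
        (∑ v', a v' * ((h v' : ℕ) : ℤ)) * a' u := by
      rw [mul_sum, sum_mul, ← sum_sub_distrib]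
      exact sum_congr rfl fun x _ => by simp only [b]; ring
    rw [h1]; ring
  refine (av_mono (g := fun h : V → Fin p =>
    (if (p : ℤ) ∣ c + ∑ v', a v' * ((h v' : ℕ) : ℤ) then (1 : ℝ) else 0) *
      if (p : ℤ) ∣ a u * c' - c * a' u + ∑ v', b v' * ((h v' : ℕ) : ℤ) then 1 else 0)
    fun h => ?_).trans (le_of_eq ?_)
  · by_cases h1 : (p : ℤ) ∣ c + ∑ v', a v' * ((h v' : ℕ) : ℤ)
    · by_cases h2 : (p : ℤ) ∣ c' + ∑ v', a' v' * ((h v' : ℕ) : ℤ)
      · rw [if_pos h1, if_pos h2, if_pos (by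
          rw [hb]; exact dvd_sub (h2.mul_left _) (h1.mul_right _))]
      · rw [if_pos h1, if_neg h2]
        split_ifs <;> norm_num
    · rw [if_neg h1, zero_mul, zero_mul]
  · have e1 : av (fun h : V → Fin p =>
        (if (p : ℤ) ∣ c + ∑ v', a v' * ((h v' : ℕ) : ℤ) then (1 : ℝ) else 0) *
          if (p : ℤ) ∣ a u * c' - c * a' u + ∑ v', b v' * ((h v' : ℕ) : ℤ) then 1 else 0) =
        av fun h : V → Fin p => 1 / (p : ℝ) *
          if (p : ℤ) ∣ a u * c' - c * a' u + ∑ v', b v' * ((h v' : ℕ) : ℤ) then 1 else 0 := by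
      rw [av_update u]
      refine av_congr fun h => ?_
      have e2 : ∀ t : Fin p,
          a u * c' - c * a' u + ∑ v', b v' * ((Function.update h u t v' : ℕ) : ℤ) =
            a u * c' - c * a' u + ∑ v', b v' * ((h v' : ℕ) : ℤ) := fun t => by
        have h1 := upd b (a u * c' - c * a' u) h u (h u)
        rw [Function.update_eq_self] at h1
        rw [h1, upd, show b u = 0 by simp only [b]; ring]
        simp
      simp only [e2]
      simp only [upd, av_mul_const, av_ite p hp _ _ hu, sub_zero, add_zero]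
    rw [e1, av_const_mul, one hp b _ (v := v) hm]
    ring

theorem pair (hp : p.Prime) (a a' : V → ℤ) (c c' : ℤ) {x x' u v : V} (hx : ¬(p : ℤ) ∣ a x)
    (hx' : ¬(p : ℤ) ∣ a' x') (hm : ¬(p : ℤ) ∣ a u * a' v - a v * a' u) :
    av (fun h : V → Fin p => |gz p (c + ∑ v', a v' * ((h v' : ℕ) : ℤ))| *
      |gz p (c' + ∑ v', a' v' * ((h v' : ℕ) : ℤ))|) ≤ 9 / (p : ℝ) ^ 2 := by
  have : Nonempty (Fin p) := ⟨⟨0, hp.pos⟩⟩
  have h2 : (2 : ℝ) ≤ p := by exact_mod_cast hp.two_le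
  have h3 : av (fun h : V → Fin p =>
      (if (p : ℤ) ∣ c + ∑ v', a v' * ((h v' : ℕ) : ℤ) then (1 : ℝ) else 0) *
        if (p : ℤ) ∣ c' + ∑ v', a' v' * ((h v' : ℕ) : ℤ) then 1 else 0) ≤ 1 / (p : ℝ) ^ 2 := by
    by_cases hu : (p : ℤ) ∣ a u
    · refine two hp a a' c c' (u := v) (v := u) (fun hv => hm ?_) fun h => hm ?_
      · exact dvd_sub (hu.mul_right _) (hv.mul_right _)
      · rw [← dvd_neg, neg_sub]; exact h
    · exact two hp a a' c c' hu hm
  have h4 : ∀ m : ℤ, |gz p m| ≤ 2 / (p : ℝ) + if (p : ℤ) ∣ m then 1 else 0 := fun m => by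
    rw [LocalAux.abs_gz hp]
    split_ifs
    · exact le_add_of_nonneg_left (by positivity)
    · rw [add_zero, div_le_div_iff₀ (by linarith) (by linarith)]
      linarith
  refine (av_mono fun h => mul_le_mul (h4 _) (h4 _) (abs_nonneg _)
    ((abs_nonneg _).trans (h4 _))).trans ?_
  simp only [add_mul, mul_add, av_add, av_const, av_const_mul, av_mul_const, one hp a c hx,
    one hp a' c' hx', sub_zero, add_zero]
  refine (add_le_add le_rfl (add_le_add le_rfl h3)).trans (le_of_eq ?_)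
  ring

end Local

theorem bet_eq (P : Finset ℕ) (hP : ∀ p ∈ P, p.Prime) (R : ℕ) (hR : 1 ≤ R) :
    ∃ e : Finset ℕ → ℝ, e ∅ = 1 ∧ (∀ U, |e U| ≤ 4 ^ U.card) ∧ ∀ (Q : Finset ℕ) (m : ℕ → ℤ),
      P ⊆ Q → (bet P R fun p => (p : ℤ) ∣ m p) =
        ∑ U ∈ Sg.fam Q (R ^ 2), e U * ∏ p ∈ U, if p ∈ P then gz p (m p) else 0 := by
  obtain ⟨e, h0, h1, h2⟩ := Sg.expand P (fun p hp => (hP p hp).two_le) R hR
  refine ⟨e, h0, h1, fun Q m hQ => ?_⟩
  have h3 : ∀ p ∈ P, p ∣ ∏ q ∈ P.filter (fun q : ℕ => (q : ℤ) ∣ m q), q ↔ (p : ℤ) ∣ m p := by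
    intro p hp
    refine ⟨fun h => ?_, fun h => dvd_prod_of_mem (fun q => q) (mem_filter.2 ⟨hp, h⟩)⟩
    obtain ⟨q, hq, h4⟩ := ((hP p hp).prime.dvd_finsetProd_iff _).1 h
    obtain ⟨h5, h6⟩ := mem_filter.1 hq
    rwa [(Nat.prime_dvd_prime_iff_eq (hP p hp) (hP q h5)).1 h4]
  have h4 : ∀ p ∈ P, Sg.gp p (∏ q ∈ P.filter (fun q : ℕ => (q : ℤ) ∣ m q), q) = gz p (m p) := by
    intro p hp
    unfold Sg.gp gz
    by_cases h : (p : ℤ) ∣ m p
    · rw [if_pos h, if_pos ((h3 p hp).2 h)]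
    · rw [if_neg h, if_neg fun h' => h ((h3 p hp).1 h')]
  have h5 : (bet P R fun p => (p : ℤ) ∣ m p) =
      Sg.beta P R (∏ q ∈ P.filter (fun q : ℕ => (q : ℤ) ∣ m q), q) ^ 2 / Sg.GG P R := by
    unfold bet Sg.beta Sg.gS
    congr 2
    refine sum_congr rfl fun U hU => prod_congr rfl fun p hp => ?_
    rw [h4 p ((mem_fam.1 hU).1 hp)]
    unfold gz
    by_cases h : (p : ℤ) ∣ m p
    · rw [if_pos h, if_pos h]
    · rw [if_neg h, if_neg h]
  rw [h5, h2]
  refine Eq.trans (sum_congr rfl fun U hU => ?_) (sum_subset (fun U hU => ?_) fun U hU hU' => ?_)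
  · unfold Sg.gS
    congr 1
    refine prod_congr rfl fun p hp => ?_
    rw [h4 p ((mem_fam.1 hU).1 hp), if_pos ((mem_fam.1 hU).1 hp)]
  · exact mem_fam.2 ⟨(mem_fam.1 hU).1.trans hQ, (mem_fam.1 hU).2⟩
  · have h6 : ¬U ⊆ P := fun h => hU' (mem_fam.2 ⟨h, (mem_fam.1 hU).2⟩)
    obtain ⟨p, hp, h7⟩ := not_subset.1 h6
    rw [prod_eq_zero hp (if_neg h7), mul_zero]

end AffAux

open AffAux in
theorem stAff : StAff := by
  intro n
  refine ⟨9 * 5 ^ n, by positivity, ?_⟩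
  intro I V _ _ _ _ hn w R L P a k Δ hw hR hL hP h1 h2
  have hPP : ∀ p ∈ Sg.PP w R, p.Prime ∧ 5 ≤ p := fun p hp => by
    obtain ⟨h3, h4⟩ := mem_filter.1 hp
    exact ⟨h4, by have := (mem_Ioc.1 h3).1; omega⟩
  choose e he0 he hb using fun s => bet_eq (P s) (fun p hp => (hPP p (hP s hp)).1) R hR
  have key := core (I := I) (V := V) (Sg.PP w R) hPP
    (fun p s h => if p ∈ P s then gz p (k p s + ∑ v, a p s v * h v) else 0)
    (fun p hp s h => by
      split_ifs
      · exact LocalAux.abs_gz_le (hPP p hp).1 _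
      · simp)
    (fun p _ s x y hxy => by
      refine if_congr Iff.rfl (BoxLFAux.gz_congr p ?_) rfl
      have : k p s + ∑ v, a p s v * x v - (k p s + ∑ v, a p s v * y v) =
          ∑ v, a p s v * (x v - y v) := by
        simp only [mul_sub, sum_sub_distrib]; ring
      rw [this]
      exact dvd_sum fun v _ => (hxy v).mul_left _)
    (fun p => if (p : ℤ) ∣ Δ then 2 / (p : ℝ) else 9 / (p : ℝ) ^ 2)
    (fun p => by split_ifs <;> positivity)
    (fun p hp T hT => by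
      have hpr := (hPP p hp).1
      have : Nonempty (Fin p) := ⟨⟨0, hpr.pos⟩⟩
      have hρ : 0 ≤ if (p : ℤ) ∣ Δ then 2 / (p : ℝ) else 9 / (p : ℝ) ^ 2 := by
        split_ifs <;> positivity
      by_cases hall : ∀ s ∈ T, p ∈ P s
      swap
      · push Not at hall
        obtain ⟨s, hs, h3⟩ := hall
        unfold bav
        rw [av_congr fun h => prod_eq_zero hs (if_neg h3), av_zero, abs_zero]
        exact hρ
      unfold bav
      rw [av_congr fun h => prod_congr rfl fun s hs => if_pos (hall s hs)]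
      rcases (Nat.succ_le_of_lt (card_pos.2 hT)).eq_or_lt with h3 | h3
      · obtain ⟨s, rfl⟩ := card_eq_one.1 h3.symm
        obtain ⟨v, hv⟩ := h1 s p (hall s (mem_singleton_self s))
        simp only [prod_singleton]
        rw [av_update v]
        simp only [upd, LocalAux.av_gz p hpr _ _ hv, av_zero, abs_zero]
        exact hρ
      · obtain ⟨s, hs, s', hs', hne⟩ := one_lt_card.1 h3
        obtain ⟨v, hv⟩ := h1 s p (hall s hs)
        obtain ⟨v', hv'⟩ := h1 s' p (hall s' hs')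
        refine (abs_av_le _).trans ?_
        have h4 : ∀ f : I → ℝ, (∀ t, |f t| ≤ 1) → |∏ t ∈ T, f t| ≤ |f s| * |f s'| := fun f hf => by
          rw [← mul_prod_erase T f hs,
            ← mul_prod_erase (T.erase s) f (mem_erase.2 ⟨hne.symm, hs'⟩), abs_mul, abs_mul,
            abs_prod]
          refine mul_le_mul_of_nonneg_left (mul_le_of_le_one_right (abs_nonneg _) ?_)
            (abs_nonneg _)
          exact prod_le_one (fun t _ => abs_nonneg _) fun t _ => hf t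
        refine (av_mono fun h => h4 _ fun t => LocalAux.abs_gz_le hpr _).trans ?_
        split_ifs with hΔ
        · refine (av_mono fun h => mul_le_of_le_one_right (abs_nonneg _)
            (LocalAux.abs_gz_le hpr _)).trans (le_of_eq ?_)
          rw [av_update v]
          simp only [upd, LocalAux.av_abs_gz p hpr _ _ hv, av_const]
        · obtain ⟨u, u', hu⟩ := h2 s s' hne p (hall s hs) (hall s' hs') hΔ
          exact pair hpr _ _ _ _ hv hv' hu)
    (R ^ 2) L (Nat.one_le_pow _ _ hR) hL e he0 he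
  refine le_of_eq_of_le (congrArg (fun F => |bav L F - 1|) (funext fun x => ?_))
    (key.trans (add_le_add ?_ ?_))
  · exact prod_congr rfl fun s _ => hb s _ (fun p => k p s + ∑ v, a p s v * x v) (hP s)
  · unfold etaP
    rw [prod_filter, ← prod_mul_distrib]
    refine sub_le_sub_right (prod_le_prod (fun p _ => ?_) fun p _ => ?_) 1
    · split_ifs <;> positivity
    · have h5 : (5 : ℝ) ^ Fintype.card I ≤ 5 ^ n := pow_le_pow_right₀ (by norm_num) hn
      have h6 : (0 : ℝ) ≤ 5 ^ n := by positivity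
      split_ifs
      · have h7 : (0 : ℝ) ≤ 1 / p := by positivity
        refine le_trans ?_ (le_mul_of_one_le_left (by positivity)
          (le_add_of_nonneg_right (by positivity)))
        have h8 := mul_le_mul_of_nonneg_right h5 h7
        have h9 := mul_nonneg h6 h7
        rw [show (5 : ℝ) ^ Fintype.card I * (2 / p) = 2 * (5 ^ Fintype.card I * (1 / p)) by ring,
          show (9 : ℝ) * 5 ^ n / p = 9 * (5 ^ n * (1 / p)) by ring]
        linarith
      · rw [mul_one, show (9 : ℝ) * 5 ^ n / (p : ℝ) ^ 2 = 5 ^ n * (9 / (p : ℝ) ^ 2) by ring]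
        exact add_le_add le_rfl (mul_le_mul_of_nonneg_right h5 (by positivity))
  · have h5 : (1 : ℝ) ≤ R := by exact_mod_cast hR
    have h6 : ((R ^ 2 : ℕ) : ℝ) ^ (3 * Fintype.card I) ≤ (R : ℝ) ^ (6 * n) := by
      rw [Nat.cast_pow, ← pow_mul]
      exact pow_le_pow_right₀ h5 (by omega)
    gcongr

end Pool.Agent.Lib.MP_7d3fda_nt.Q3
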