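import Pool.Agent.Lib.MP_7d3fda_nt.Q3.Dns

open Finset Filter
open scoped Classical NumberTheorySymbols

noncomputable section

namespace Pool.Agent.Lib.MP_7d3fda_nt.Q3

open Pool.Agent.Lib.MP_4b8564_nt Pool.Agent.Lib.MP_4b8564_nt.GT
open Pool.Agent.Lib.MP_0a3467_an.Cv (Low)
open Pool.Agent.Lib.MP_0a3467_an

/-! Upper bounds for weighted sums over the free factors. -/

namespace AvgAux

/-- a residue class in an interval -/
theorem cover1 {F : ℕ} (hF : 0 < F) (u₀ : ℤ) (X : ℕ) : ∃ u : ℤ, (F : ℤ) ∣ u - u₀ ∧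
    ∀ x : ℤ, (F : ℤ) ∣ x - u₀ → |x| ≤ X → ∃ h : ℕ, h < 2 * X / F + 1 ∧ x = u + F * h := by
  have hF' : (0 : ℤ) < F := by exact_mod_cast hF
  have h1 := Int.emod_nonneg (u₀ + X) hF'.ne'
  have h2 := Int.emod_lt_of_pos (u₀ + X) hF'
  have h3 : (F : ℤ) ∣ -X + (u₀ + X) % F - u₀ :=
    ⟨-((u₀ + X) / F), by have := Int.mul_ediv_add_emod (u₀ + X) F; linarith⟩
  refine ⟨-X + (u₀ + X) % F, h3, fun x hx hX => ?_⟩
  obtain ⟨t, ht⟩ : (F : ℤ) ∣ x - (-X + (u₀ + X) % F) := by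
    have := dvd_sub hx h3
    rwa [sub_sub_sub_cancel_right] at this
  obtain ⟨h4, h5⟩ := abs_le.1 hX
  have h6 : 0 ≤ t := by
    by_contra h
    have : F * t ≤ F * (-1 : ℤ) := mul_le_mul_of_nonneg_left (by omega) hF'.le
    omega
  obtain ⟨h, rfl⟩ := Int.eq_ofNat_of_zero_le h6
  refine ⟨h, Nat.lt_succ_of_le ((Nat.le_div_iff_mul_le hF).2 ?_), by linarith⟩
  have : ((h * F : ℕ) : ℤ) ≤ (2 * X : ℕ) := by push_cast; linarith
  exact_mod_cast this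

/-- a residue class in a square -/
theorem cover2 {F : ℕ} (hF : 0 < F) (a₀ : O) (X : ℕ) : ∃ a : O, (F : O) ∣ a - a₀ ∧
    ∀ z : O, (F : O) ∣ z - a₀ → |z.re| ≤ X → |z.im| ≤ X → z ∈ cbx F a (2 * X / F + 1) := by
  obtain ⟨u, hu, hu'⟩ := cover1 hF a₀.re X
  obtain ⟨v, hv, hv'⟩ := cover1 hF a₀.im X
  refine ⟨⟨u, v⟩, (natCast_dvd_iff F _).2 ⟨hu, hv⟩, fun z hz h1 h2 => ?_⟩
  obtain ⟨h3, h4⟩ := (natCast_dvd_iff F _).1 hz
  obtain ⟨i, hi, ei⟩ := hu' z.re h3 h1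
  obtain ⟨j, hj, ej⟩ := hv' z.im h4 h2
  refine mem_cbx.2 ⟨(i, j), hi, hj, ?_⟩
  ext
  · simpa [em] using ei
  · simpa [em] using ej

/-- the side of the covering box -/
theorem side {F m C G : ℕ} (hF : 0 < F) (hm : 0 < m) (hC : 0 < C) (h : F * m ≤ G) :
    G ≤ (2 * (20 * C * G / m) / F + 1) * F * m ∧
      (2 * (20 * C * G / m) / F + 1) * F * m ≤ 41 * C * G := by
  obtain ⟨X, hX⟩ : ∃ X, X = 20 * C * G / m := ⟨_, rfl⟩
  have h1 : X * m ≤ 20 * C * G := hX ▸ Nat.div_mul_le_self _ _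
  have h2 : 20 * C * G < X * m + m := hX ▸ Nat.lt_div_mul_add hm
  rw [← hX]
  have h3 : 2 * X / F * F ≤ 2 * X := Nat.div_mul_le_self _ _
  have h4 : 2 * X < 2 * X / F * F + F := Nat.lt_div_mul_add hF
  have h5 : G ≤ C * G := Nat.le_mul_of_pos_left _ hC
  have h6 : (X + 1) * m ≤ (2 * X / F + 1) * F * m :=
    Nat.mul_le_mul_right _ (by rw [add_mul, one_mul]; omega)
  have h7 : (2 * X / F + 1) * F * m ≤ (2 * X + F) * m :=
    Nat.mul_le_mul_right _ (by rw [add_mul, one_mul]; omega)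
  rw [add_mul, one_mul] at h6
  rw [add_mul (2 * X), mul_assoc 2] at h7
  rw [mul_assoc 20] at h1 h2
  rw [mul_assoc 41]
  omega

theorem abs_le_div {x : ℤ} {m K : ℕ} (hm : 0 < m) (h : x ^ 2 * (m : ℤ) ^ 2 ≤ (K : ℤ) ^ 2) :
    |x| ≤ (K / m : ℕ) := by
  have h1 : x.natAbs * m ≤ K := by
    refine (Nat.pow_le_pow_iff_left two_ne_zero).1 ?_
    have : (((x.natAbs * m) ^ 2 : ℕ) : ℤ) ≤ (K ^ 2 : ℕ) := by
      push_cast
      rwa [mul_pow, sq_abs]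
    exact_mod_cast this
  rw [← Int.natCast_natAbs]
  exact_mod_cast (Nat.le_div_iff_mul_le hm).2 h1

/-- the free cofactors of one member of the pool lie in a box of the expected size -/
theorem box (S : Sc) (hw : IsCoprime S.w0.norm (S.F : ℤ)) {γ : O} (h0 : 0 < γ.norm)
    (hc : IsCoprime γ.norm (S.F : ℤ)) (hρ : 0 < S.ρ) (hF : S.F ≤ S.ρ)
    (hn : γ.norm ≤ (S.ρ : ℤ) ^ 2) (ha : 2 ≤ S.P.a) :
    ∃ (a : O) (L : ℕ), (S.F : O) ∣ γ * a * S.w0 - S.b ∧ S.ρ ^ (7 * S.P.a) ≤ L ∧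
      (S.G : ℤ) ^ 2 ≤ (L : ℤ) ^ 2 * γ.norm * (S.F : ℤ) ^ 2 ∧
      (L : ℤ) ^ 2 * γ.norm * (S.F : ℤ) ^ 2 ≤ (100 * S.d.C * S.G : ℤ) ^ 2 ∧
      ∀ γ', S.Fr (γ * γ') → γ' ∈ cbx S.F a L := by
  obtain ⟨n, hn'⟩ := Int.eq_ofNat_of_zero_le h0.le
  have hn0 : 0 < n := by rw [hn'] at h0; exact_mod_cast h0
  have hn1 : n ≤ S.ρ ^ 2 := by rw [hn'] at hn; exact_mod_cast hn
  obtain ⟨m, hm⟩ : ∃ m, m = Nat.sqrt n := ⟨_, rfl⟩
  have m0 : 0 < m := hm ▸ Nat.sqrt_pos.2 hn0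
  have m1 : m ^ 2 ≤ n := hm ▸ Nat.sqrt_le' n
  have m2 : n ≤ 4 * m ^ 2 := by
    have := Nat.lt_succ_sqrt' n
    rw [← hm] at this
    have h2 : (m + 1) ^ 2 ≤ (2 * m) ^ 2 := Nat.pow_le_pow_left (by omega) 2
    rw [mul_pow] at h2
    exact (this.le.trans h2).trans (le_of_eq (by norm_num))
  have m3 : m ≤ S.ρ := (Nat.pow_le_pow_iff_left two_ne_zero).1 (m1.trans hn1)
  have f1 : S.F * m ≤ S.ρ ^ S.P.a :=
    (Nat.mul_le_mul hF m3).trans (by rw [← sq]; exact Nat.pow_le_pow_right hρ ha)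
  have f2 : S.F * m ≤ S.G := f1.trans (Nat.pow_le_pow_right hρ (by omega))
  have hC : 0 < S.d.C := by have := S.d.three_le_C; omega
  obtain ⟨s1, s2⟩ := side S.F_pos m0 hC f2
  have hx : IsCoprime (γ * S.w0).norm (S.F : ℤ) := by
    rw [Zsqrtd.norm_mul]; exact hc.mul_left hw
  obtain ⟨a₀, ha₀⟩ := exists_class hx (S.b : O)
  obtain ⟨a, h1, h2⟩ := cover2 S.F_pos a₀ (20 * S.d.C * S.G / m)
  obtain ⟨L, hL⟩ : ∃ L, L = 2 * (20 * S.d.C * S.G / m) / S.F + 1 := ⟨_, rfl⟩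
  rw [← hL] at s1 s2 h2
  refine ⟨a, L, ?_, ?_, ?_, ?_, fun γ' hγ => ?_⟩
  · have : γ * a * S.w0 - S.b = (a - a₀) * (γ * S.w0) + (a₀ * (γ * S.w0) - S.b) := by ring
    rw [this]
    exact dvd_add (h1.mul_right _) ha₀
  · have h3 : S.ρ ^ (7 * S.P.a) * S.ρ ^ S.P.a ≤ L * S.ρ ^ S.P.a := by
      calc S.ρ ^ (7 * S.P.a) * S.ρ ^ S.P.a = S.G := by rw [← pow_add, Sc.G]; congr 1; omega
        _ ≤ L * (S.F * m) := by rw [← mul_assoc]; exact s1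
        _ ≤ L * S.ρ ^ S.P.a := Nat.mul_le_mul_left _ f1
    exact Nat.le_of_mul_le_mul_right h3 (pow_pos hρ _)
  · have h3 : S.G ^ 2 ≤ L ^ 2 * n * S.F ^ 2 := by
      calc S.G ^ 2 ≤ (L * S.F * m) ^ 2 := Nat.pow_le_pow_left s1 2
        _ = L ^ 2 * m ^ 2 * S.F ^ 2 := by ring
        _ ≤ L ^ 2 * n * S.F ^ 2 := by gcongr
    rw [hn']
    exact_mod_cast h3
  · have h3 : L ^ 2 * n * S.F ^ 2 ≤ (100 * S.d.C * S.G) ^ 2 := by
      calc L ^ 2 * n * S.F ^ 2 ≤ L ^ 2 * (4 * m ^ 2) * S.F ^ 2 := by gcongr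
        _ = (2 * (L * S.F * m)) ^ 2 := by ring
        _ ≤ (100 * S.d.C * S.G) ^ 2 := by
          refine Nat.pow_le_pow_left ?_ 2
          rw [mul_assoc 41] at s2
          rw [mul_assoc 100]
          omega
    rw [hn']
    exact_mod_cast h3
  · obtain ⟨g1, -, -, -, g2⟩ := hγ
    rw [Zsqrtd.norm_mul, hn', norm_eq] at g2
    have g3 : (m : ℤ) ^ 2 ≤ n := by exact_mod_cast m1
    have g4 : ∀ x : ℤ, x ^ 2 ≤ γ'.re ^ 2 + 3 * γ'.im ^ 2 →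
        |x| ≤ (20 * S.d.C * S.G / m : ℕ) := fun x hx => by
      refine abs_le_div m0 ?_
      calc x ^ 2 * (m : ℤ) ^ 2 ≤ (γ'.re ^ 2 + 3 * γ'.im ^ 2) * n := by gcongr
        _ ≤ 400 * (S.d.C : ℤ) ^ 2 * (S.G : ℤ) ^ 2 := by rw [mul_comm]; exact g2
        _ = _ := by push_cast; ring
    refine h2 γ' (dvd_of_mul hx ?_) (g4 _ (by nlinarith [sq_nonneg γ'.im]))
      (g4 _ (by nlinarith [sq_nonneg γ'.re, sq_nonneg γ'.im]))
    have : (γ' - a₀) * (γ * S.w0) = (γ * γ' * S.w0 - S.b) - (a₀ * (γ * S.w0) - S.b) := by ring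
    rw [this]
    exact dvd_sub g1 ha₀

/-- summation over the pool -/
theorem total (S : Sc) (hS : 0 ≤ SS S.w S.y) (hG : 0 < S.G) (hP : ∀ γ ∈ S.P0, 0 < γ.norm)
    (Φ : O → O → ℝ) (B : O → ℝ) (hB : ∀ γ, 0 ≤ B γ)
    (h : ∀ γ ∈ S.P0, ∃ L : ℕ,
      (L : ℤ) ^ 2 * γ.norm * (S.F : ℤ) ^ 2 ≤ (100 * S.d.C * S.G : ℤ) ^ 2 ∧
      ∀ Z : Finset O, (∀ γ' ∈ Z, S.Fr (γ * γ')) → ∑ γ' ∈ Z, Φ γ γ' ≤ (L : ℝ) ^ 2 * B γ) :
    S.mu * ∑ i ∈ S.Th, Φ i.1 i.2 ≤ SS S.w S.y / 4 * S.pav B := by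
  have hσ : 0 ≤ ∑ γ ∈ S.P0, 1 / (γ.norm : ℝ) := sum_nonneg fun γ hγ => by
    have : (0 : ℝ) < γ.norm := by exact_mod_cast hP γ hγ
    positivity
  have hC : (0 : ℝ) < S.d.C := by
    have := S.d.three_le_C
    exact_mod_cast (by omega : 0 < S.d.C)
  have hG' : (0 : ℝ) < S.G := by exact_mod_cast hG
  have hμ : 0 ≤ S.mu := by unfold Sc.mu; positivity
  rw [Sc.Th, sum_filter, sum_product, Sc.pav, mul_sum, sum_div, mul_sum]
  refine sum_le_sum fun γ hγ => ?_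
  obtain ⟨L, h1, h2⟩ := h γ hγ
  have hn : (0 : ℝ) < γ.norm := by exact_mod_cast hP γ hγ
  have h3 : (L : ℝ) ^ 2 * γ.norm * (S.F : ℝ) ^ 2 ≤ (100 * S.d.C * S.G : ℝ) ^ 2 := by
    exact_mod_cast h1
  rw [← sum_filter]
  refine (mul_le_mul_of_nonneg_left (h2 _ fun γ' h' => (mem_filter.1 h').2) hμ).trans ?_
  have h4 : (S.F : ℝ) ^ 2 * (L : ℝ) ^ 2 / ((200 * S.d.C : ℝ) ^ 2 * (S.G : ℝ) ^ 2) ≤
      1 / (4 * γ.norm) := by
    rw [div_le_div_iff₀ (by positivity) (by positivity)]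
    nlinarith
  have h5 := hB γ
  calc S.mu * ((L : ℝ) ^ 2 * B γ)
      = SS S.w S.y * B γ / (∑ γ ∈ S.P0, 1 / (γ.norm : ℝ)) *
        ((S.F : ℝ) ^ 2 * (L : ℝ) ^ 2 / ((200 * S.d.C : ℝ) ^ 2 * (S.G : ℝ) ^ 2)) := by
        rw [Sc.mu, div_mul_div_comm, div_mul_eq_mul_div, mul_assoc (∑ γ ∈ S.P0, _)]
        congr 1
        ring
    _ ≤ SS S.w S.y * B γ / (∑ γ ∈ S.P0, 1 / (γ.norm : ℝ)) * (1 / (4 * γ.norm)) := by gcongr
    _ = _ := by ring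

theorem per_norm {p F : ℕ} (a : O) {x y : Fin 2 → ℤ} (h : ∀ v, (p : ℤ) ∣ x v - y v) :
    (p : ℤ) ∣ (a + (F : O) * emZ x).norm ↔ (p : ℤ) ∣ (a + (F : O) * emZ y).norm := by
  refine dvd_iff_dvd_of_dvd_sub ?_
  have : (a + (F : O) * emZ x).norm - (a + (F : O) * emZ y).norm =
      (x 0 - y 0) * (F * (2 * a.re + F * (x 0 + y 0))) +
        (x 1 - y 1) * (3 * F * (2 * a.im + F * (x 1 + y 1))) := by
    rw [norm_box, norm_box]; ring
  rw [this]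
  exact dvd_add ((h 0).mul_right _) ((h 1).mul_right _)

/-- the sieve on one box -/
theorem sieve (hBrun : StBrun) {w y k q F L : ℕ} (a : O) (Φ : (Fin 2 → ℤ) → ℝ) {M β : ℝ}
    (hF : ∀ p ∈ Sg.PP w y, ¬p ∣ F) (hr : ∀ p ∈ Sg.PP w y, 0 ≤ rN p ∧ rN p ≤ 1)
    (hk : 8 * ∑ p ∈ Sg.PP w y, rN p ≤ k) (hq : 0 < q) (hy : 1 ≤ y) (hL : 0 < L)
    (h0 : ∀ h, 0 ≤ Φ h) (hM : ∀ h, Φ h ≤ M) (hΦ : Per q Φ)
    (hβ : bav q (fun h => (if ∀ p ∈ Sg.PP w y, p ∣ q → ¬(p : ℤ) ∣ (a + (F : O) * emZ h).norm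
      then 1 else 0) * Φ h) ≤ β * ∏ p ∈ (Sg.PP w y).filter (· ∣ q), (1 - rN p)) :
    bav L (fun h => (if Rough w y (a + (F : O) * emZ h) then 1 else 0) * Φ h) ≤
      β * ∏ p ∈ Sg.PP w y, (1 - rN p) +
        M * (3 * (1 / 2) ^ k + 16 * (k + 2) * (y : ℝ) ^ (2 * k + 2) * q / L) := by
  have hm : ∀ p ∈ Sg.PP w y, p.Prime ∧ p ≤ y := fun p hp =>
    ⟨(mem_filter.1 hp).2, (mem_Ioc.1 (mem_filter.1 hp).1).2⟩
  obtain ⟨E, hE⟩ : ∃ E : ℕ → (Fin 2 → ℤ) → Prop,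
    ∀ p h, E p h ↔ (p : ℤ) ∣ (a + (F : O) * emZ h).norm := ⟨_, fun _ _ => Iff.rfl⟩
  have e1 : ∀ p ∈ (Sg.PP w y).filter fun p => ¬p ∣ q,
      bav p (fun h => if E p h then (1 : ℝ) else 0) = rN p := fun p hp => by
    rw [← bav_norm_eq (hm p (mem_filter.1 hp).1).1 (hF p (mem_filter.1 hp).1) a]
    exact congrArg _ (funext fun h => if_congr (hE p h) rfl rfl)
  have key := hBrun (Fin 2) ((Sg.PP w y).filter fun p => ¬p ∣ q) E
    (fun h => (if ∀ p ∈ Sg.PP w y, p ∣ q → ¬(p : ℤ) ∣ (a + (F : O) * emZ h).norm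
      then 1 else 0) * Φ h) q y k L M
    (fun p hp => ⟨(hm p (mem_filter.1 hp).1).1, (hm p (mem_filter.1 hp).1).2,
      (mem_filter.1 hp).2⟩) hq hy hL
    (fun p _ x x' h => if_congr ((hE p x).trans ((per_norm a h).trans (hE p x').symm)) rfl rfl)
    (fun x x' h => by
      beta_reduce
      rw [hΦ x x' h]
      refine congrArg (· * _) (if_congr ?_ rfl rfl)
      refine forall₃_congr fun p _ hp => not_congr (per_norm a fun v => ?_)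
      exact (Int.natCast_dvd_natCast.2 hp).trans (h v))
    (fun h => by
      have := h0 h
      have := hM h
      split_ifs
      · rwa [one_mul, abs_of_nonneg (h0 h)]
      · rw [zero_mul, abs_zero]; linarith)
    (by
      rw [sum_congr rfl e1]
      refine le_trans (mul_le_mul_of_nonneg_left ?_ (by norm_num)) hk
      exact sum_le_sum_of_subset_of_nonneg (filter_subset _ _) fun p hp _ => (hr p hp).1)
  rw [prod_congr rfl fun p hp => by rw [e1 p hp]] at key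
  have h1 : 0 ≤ ∏ p ∈ (Sg.PP w y).filter fun p => ¬p ∣ q, (1 - rN p) :=
    prod_nonneg fun p hp => sub_nonneg.2 (hr p (mem_filter.1 hp).1).2
  have h2 := mul_le_mul_of_nonneg_left hβ h1
  rw [mul_left_comm, mul_comm (∏ p ∈ (Sg.PP w y).filter fun p => ¬p ∣ q, _) (∏ p ∈ _, _),
    prod_filter_mul_prod_filter_not] at h2
  have h3 := (abs_le.1 key).2
  rw [Fintype.card_fin] at h3
  refine le_trans (bav_mono fun h => ?_) ((sub_le_iff_le_add'.1 h3).trans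
    (add_le_add h2 (le_of_eq (by push_cast; ring))))
  have := h0 h
  by_cases hR : Rough w y (a + (F : O) * emZ h)
  · rw [if_pos hR, if_pos fun p hp e => hR p (mem_filter.1 hp).1 ((hE p h).1 e),
      if_pos fun p hp _ => hR p hp, one_mul, one_mul]
  · rw [if_neg hR, zero_mul]
    positivity

/-- the error terms -/
theorem err {l r s y L : ℝ} {a k q : ℕ} (hl : 1 ≤ l) (ha : 340 ≤ a) (h1 : 32 * l ^ 340 ≤ r)
    (h2 : l ^ a ≤ 2 ^ k) (hy : 2 ≤ y) (h3 : y ^ k ≤ r) (hk : 1 ≤ k) (hq : (q : ℝ) ≤ r)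
    (hL : r ^ 7 ≤ L) (hs : s ≤ l ^ 40) :
    s / 4 * (3 * (1 / 2) ^ k + 16 * (k + 2) * y ^ (2 * k + 2) * q / L) ≤ 1 / l ^ 300 := by
  have l0 : 0 < l := by linarith
  have l1 : 1 ≤ l ^ 340 := one_le_pow₀ hl
  have r0 : 0 < r := by linarith
  have e1 : (1 / 2 : ℝ) ^ k ≤ 1 / l ^ 340 := by
    rw [one_div_pow]
    exact one_div_le_one_div_of_le (by positivity) ((pow_le_pow_right₀ hl ha).trans h2)
  have e2 : y ≤ r := (le_self_pow₀ (by linarith) (by omega)).trans h3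
  have e3 : (k : ℝ) + 2 ≤ 2 * r := by
    have a1 : k + 1 < 2 ^ (k + 1) := Nat.lt_two_pow_self
    have a2 : (k : ℝ) + 2 ≤ 2 ^ (k + 1) := by exact_mod_cast a1
    have a3 : (2 : ℝ) ^ k ≤ y ^ k := pow_le_pow_left₀ (by norm_num) hy k
    rw [pow_succ] at a2
    linarith
  have e4 : y ^ (2 * k + 2) ≤ r ^ 4 := by
    calc y ^ (2 * k + 2) = (y ^ k) ^ 2 * y ^ 2 := by ring
      _ ≤ r ^ 2 * r ^ 2 := by gcongr
      _ = r ^ 4 := by ring
  have e5 : 16 * ((k : ℝ) + 2) * y ^ (2 * k + 2) * q / L ≤ 1 / l ^ 340 := by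
    calc 16 * ((k : ℝ) + 2) * y ^ (2 * k + 2) * q / L ≤ 16 * (2 * r) * r ^ 4 * r / r ^ 7 := by
          gcongr
      _ = 32 / r := by field_simp; norm_num
      _ ≤ 1 / l ^ 340 := by rw [div_le_div_iff₀ r0 (by positivity)]; linarith
  calc s / 4 * (3 * (1 / 2) ^ k + 16 * (k + 2) * y ^ (2 * k + 2) * q / L)
      ≤ l ^ 40 / 4 * (3 * (1 / l ^ 340) + 1 / l ^ 340) := by
        have : 0 ≤ L := le_trans (by positivity) hL
        gcongr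
    _ = 1 / l ^ 300 := by field_simp; norm_num

end AvgAux

open AvgAux in
theorem stAvg (hBrun : StBrun) (hScale : StScale) : StAvg := by
  intro d P hP
  obtain ⟨hr, hs, -, hE⟩ := hScale
  have hE' : Ev d P _ := ⟨4, fun w hw => hE d P hP 1 w hw⟩
  have H : ∀ w : ℕ, max 4 d.e ≤ w → ∀ᶠ ρ : ℕ in atTop, (w : ℝ) ≤ Real.log ρ ∧
      ((d.e * w.factorial : ℕ) : ℝ) ≤ ρ ∧ 32 * Real.log ρ ^ 340 ≤ ρ := fun w _ =>
    (ev_log _).and ((ev_const _).and (ev_log_pow _ _))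
  refine (hE'.and (Ev.of_eventually (d := d) (P := P) _ H)).mono ?_
  rintro S rfl rfl hok ⟨⟨s1, -, s3, s4, s5, -, s7, -, -⟩, hw, t1, t2, t3⟩ Φ β hΦ hβ
  obtain ⟨ha, -, -, -⟩ := hP.big
  have hw4 : 4 ≤ S.w := le_of_max_le_left hw
  have hwe : S.d.e ≤ S.w := le_of_max_le_right hw
  have hwy : S.w ≤ S.y := by
    rw [pow_one] at s3
    exact_mod_cast t1.trans s3
  have hF : S.F ≤ S.ρ := by exact_mod_cast t2
  have hρ : 0 < S.ρ := S.F_pos.trans_le hF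
  have hk : S.P.a ≤ S.k := Nat.le_mul_of_pos_right _ (Nat.succ_pos _)
  have hyρ : S.y ≤ S.ρ := (Nat.le_self_pow (by omega) _).trans s1
  have hG : 0 < S.G := pow_pos hρ _
  have hn0 : ∀ γ ∈ S.P0, 0 < γ.norm := fun γ hγ =>
    (norm_nonneg' γ).lt_of_ne fun e => (hok.po.sqf γ hγ).ne_zero (by rw [← e]; rfl)
  have hbox : ∀ γ ∈ S.P0, _ := fun γ hγ => box S hok.hw (hn0 γ hγ) (by
    refine Int.isCoprime_iff_gcd_eq_one.2 (Nat.eq_one_iff_not_exists_prime_dvd.2 fun p hp h => ?_)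
    have a1 := hok.po.pr γ hγ p hp
      ((Int.natCast_dvd_natCast.2 h).trans (Int.gcd_dvd_left _ _))
    exact S.not_dvd_F hwe hp (by omega) (Int.natCast_dvd_natCast.1
      ((Int.natCast_dvd_natCast.2 h).trans (Int.gcd_dvd_right _ _)))) hρ hF (by
    refine (hok.po.le γ hγ).trans ?_
    have a1 : S.y ^ 16 ≤ S.ρ := (Nat.pow_le_pow_right (by omega) (by omega)).trans s1
    have a2 : S.y ^ 32 ≤ S.ρ ^ 2 := by
      rw [show 32 = 16 * 2 from rfl, pow_mul]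
      exact Nat.pow_le_pow_left a1 2
    exact_mod_cast a2) (by omega)
  have hsum : ∀ (a : O) (L : ℕ), 0 < L → ∀ Ψ : O → ℝ,
      ∑ z ∈ cbx S.F a L, Ψ z = (L : ℝ) ^ 2 * bav L fun h => Ψ (a + (S.F : O) * emZ h) :=
    fun a L hL Ψ => by
      have : (0 : ℝ) < L := by exact_mod_cast hL
      rw [← sum_cbx_bav S.F_pos, mul_div_cancel₀ _ (by positivity)]
  have hσ : 0 < ∑ γ ∈ S.P0, 1 / (γ.norm : ℝ) := S.d.h0.trans_le hok.po.low
  have hpav : 0 ≤ S.pav β := div_nonneg (sum_nonneg fun γ hγ =>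
    div_nonneg (hβ γ) (by exact_mod_cast (hn0 γ hγ).le)) hσ.le
  refine ⟨fun h => ?_, fun q M hq hqρ hM h => ?_⟩
  · refine (total S (by linarith) hG hn0 Φ β hβ fun γ hγ => ?_).trans
      (mul_le_mul_of_nonneg_right (by linarith) hpav)
    obtain ⟨a, L, b1, b2, b3, b4, b5⟩ := hbox γ hγ
    refine ⟨L, b4, fun Z hZ => ?_⟩
    refine (sum_le_sum_of_subset_of_nonneg (fun z hz => b5 z (hZ z hz))
      fun z _ _ => hΦ γ z).trans ?_
    rw [hsum a L ((pow_pos hρ _).trans_le b2)]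
    exact mul_le_mul_of_nonneg_left (h γ hγ a L b1 b2 b3) (by positivity)
  have hM0 : 0 ≤ M := (hΦ 0 0).trans (hM 0 0)
  have hm : ∀ p ∈ Sg.PP S.w S.y, p.Prime ∧ S.w < p := fun p hp =>
    ⟨(mem_filter.1 hp).2, (mem_Ioc.1 (mem_filter.1 hp).1).1⟩
  have hr1 : ∀ p ∈ Sg.PP S.w S.y, rN p < 1 := fun p hp => by
    have a1 : (2 : ℝ) < p := by exact_mod_cast (by have := (hm p hp).2; omega : 2 < p)
    exact (hr p (hm p hp).1).2.trans_lt ((div_lt_one (by linarith)).2 a1)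
  have hπ : 0 < ∏ p ∈ Sg.PP S.w S.y, (1 - rN p) := prod_pos fun p hp => sub_pos.2 (hr1 p hp)
  have hSS : SS S.w S.y * ∏ p ∈ Sg.PP S.w S.y, (1 - rN p) = 1 := by
    rw [SS, prod_inv_distrib, inv_mul_cancel₀ hπ.ne']
  have h8 : 8 * ∑ p ∈ Sg.PP S.w S.y, rN p ≤ S.k := by
    have a1 : ∑ p ∈ Sg.PP S.w S.y, rN p ≤ 2 * ∑ p ∈ Sg.PP 0 S.y, 1 / (p : ℝ) := by
      rw [mul_sum]
      refine le_trans (sum_le_sum fun p hp => ?_) (sum_le_sum_of_subset_of_nonneg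
        (filter_subset_filter _ (Ioc_subset_Ioc_left (Nat.zero_le S.w))) fun p _ _ => by positivity)
      rw [mul_one_div]
      exact (hr p (hm p hp).1).2
    have a2 : 80 * (Nat.log 2 (Nat.log 2 S.y) + 1) ≤ S.k :=
      Nat.mul_le_mul (by omega) (Nat.succ_le_succ (Nat.log_mono_right (Nat.log_mono_right hyρ)))
    have a3 : (80 : ℝ) * (Nat.log 2 (Nat.log 2 S.y) + 1 : ℕ) ≤ S.k := by exact_mod_cast a2
    have a4 := hs S.y
    linarith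
  obtain ⟨e, he⟩ : ∃ e : ℝ, e = 3 * (1 / 2) ^ S.k +
    16 * (S.k + 2) * (S.y : ℝ) ^ (2 * S.k + 2) * q / (S.ρ : ℝ) ^ 7 := ⟨_, rfl⟩
  have he0 : 0 ≤ e := by rw [he]; positivity
  have hw' : (4 : ℝ) ≤ S.w := by exact_mod_cast hw4
  have he1 : SS S.w S.y / 4 * e ≤ 1 / Real.log S.ρ ^ 300 := by
    rw [he]
    exact err (by linarith) (by omega) t3 s7 (by exact_mod_cast (by omega : 2 ≤ S.y))
      (by exact_mod_cast s1) (by omega) (by exact_mod_cast hqρ) le_rfl s5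
  refine (total S (by linarith) hG hn0 Φ
    (fun γ => β γ * ∏ p ∈ Sg.PP S.w S.y, (1 - rN p) + M * e)
    (fun γ => by have := hβ γ; positivity) fun γ hγ => ?_).trans ?_
  · obtain ⟨a, L, b1, b2, -, b4, b5⟩ := hbox γ hγ
    have hL : 0 < L := (pow_pos hρ _).trans_le b2
    refine ⟨L, b4, fun Z hZ => ?_⟩
    have c1 : ∑ z ∈ Z, Φ γ z ≤
        ∑ z ∈ cbx S.F a L, (if Rough S.w S.y z then 1 else 0) * Φ γ z := by
      refine le_trans (sum_le_sum fun z hz => ?_) (sum_le_sum_of_subset_of_nonneg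
        (fun z hz => b5 z (hZ z hz)) fun z _ _ => mul_nonneg (by positivity) (hΦ γ z))
      rw [if_pos, one_mul]
      intro p hp hd
      exact (hZ z hz).2.1 p hp (by rw [Zsqrtd.norm_mul]; exact hd.mul_left _)
    rw [hsum a L hL] at c1
    refine c1.trans (mul_le_mul_of_nonneg_left ?_ (by positivity))
    refine (sieve hBrun a (fun h => Φ γ (a + (S.F : O) * emZ h))
      (fun p hp => S.not_dvd_F hwe (hm p hp).1 (hm p hp).2)
      (fun p hp => ⟨(hr p (hm p hp).1).1, (hr1 p hp).le⟩) h8 hq (by omega) hL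
      (fun _ => hΦ _ _) (fun _ => hM _ _) (h γ hγ a b1).1 (h γ hγ a b1).2).trans ?_
    have c2 : (S.ρ : ℝ) ^ 7 ≤ L := by
      exact_mod_cast (Nat.pow_le_pow_right hρ (by omega)).trans b2
    have c3 : (0 : ℝ) < S.ρ := by exact_mod_cast hρ
    rw [he]
    gcongr
  · have c1 : S.pav (fun γ => β γ * ∏ p ∈ Sg.PP S.w S.y, (1 - rN p) + M * e) =
        S.pav β * ∏ p ∈ Sg.PP S.w S.y, (1 - rN p) + M * e := by
      rw [Sc.pav, Sc.pav, div_eq_iff hσ.ne', add_mul, mul_right_comm, div_mul_cancel₀ _ hσ.ne',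
        sum_mul, mul_sum, ← sum_add_distrib]
      exact sum_congr rfl fun γ _ => by ring
    rw [c1, mul_add]
    refine add_le_add ?_ ?_
    · calc SS S.w S.y / 4 * (S.pav β * ∏ p ∈ Sg.PP S.w S.y, (1 - rN p))
          = S.pav β / 4 * (SS S.w S.y * ∏ p ∈ Sg.PP S.w S.y, (1 - rN p)) := by ring
        _ ≤ S.pav β / 2 := by rw [hSS]; linarith
    · rw [mul_left_comm, div_eq_mul_one_div M]
      exact mul_le_mul_of_nonneg_left he1 hM0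

end Pool.Agent.Lib.MP_7d3fda_nt.Q3
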