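import Pool.Agent.Lib.MP_7d3fda_nt.Q3.Dns

open Finset Filter
open scoped Classical NumberTheorySymbols

noncomputable section

namespace Pool.Agent.Lib.MP_7d3fda_nt.Q3

open Pool.Agent.Lib.MP_4b8564_nt Pool.Agent.Lib.MP_4b8564_nt.GT
open Pool.Agent.Lib.MP_0a3467_an.Cv (Low)
open Pool.Agent.Lib.MP_0a3467_an

/-! The end of the multiplicative chain. -/

namespace BaseAux

/-- the pattern product on the class -/
def Gf (d : Dat) (b F : ℕ) (φ : ℤ → ℝ) (u : O) : ℝ :=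
  if (F : O) ∣ u - b then d.Fz b F φ u else 0

theorem gf_fin (hPack : StPack) (d : Dat) (b F N : ℕ) (hF : 0 < F) (φ : ℤ → ℝ) :
    (Function.support (Gf d b F (cutI N φ))).Finite := by
  obtain ⟨C, -, h⟩ := hPack d
  have h1 := (h b F 1 0 1 N N N N hF one_ne_zero (by simpa using isCoprime_one_left)
    (by decide)).1
  refine h1.subset fun u hu => ?_
  have h2 : (F : O) ∣ u - b := by
    by_contra h3
    exact hu (if_neg h3)
  have h3 : d.Fz b F (cutI N φ) u ≠ 0 := fun h4 => hu (by rw [Gf, if_pos h2, h4])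
  have h4 : ∀ j, (N : ℤ) ≤ d.nn b F j u ∧ d.nn b F j u < 2 * N := fun j => by
    by_contra h5
    exact (prod_ne_zero_iff.1 h3 j (mem_univ j)) (if_neg h5)
  simp only [Set.mem_ofPred_eq, mul_one]
  exact ⟨h2, (h4 0).1, by linarith [(h4 0).2], (h4 1).1, by linarith [(h4 1).2]⟩

theorem fin_comp {α β : Type} {g : β → α} (hg : Function.Injective g) (f : α → ℝ) :
    ∑ᶠ j, f (g j) = ∑ᶠ i, if i ∈ Set.range g then f i else 0 := by
  rw [← finsum_mem_range hg, finsum_mem_def]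
  exact finsum_congr fun i => by rw [Set.indicator_apply]

theorem psi_one (d : Dat) (b F N : ℕ) (V : O → ℝ) (φ : ℤ → ℝ) {Z : Finset O}
    (hZ : Function.support (Gf d b F φ) ⊆ Z) :
    d.Psi b F N V φ 1 = (∑ u ∈ Z, V u * Gf d b F φ u) / (N : ℝ) ^ 2 := by
  rw [Dat.Psi, ← finsum_eq_sum_of_support_subset (fun u => V u * Gf d b F φ u)
    ((Function.support_mul_subset_right _ _).trans hZ)]
  simp only [mul_one, Zsqrtd.norm_one, Int.cast_one, Gf, mul_ite, mul_zero]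
  ring

theorem psi_x (d : Dat) (b F N : ℕ) (φ : ℤ → ℝ) {Z : Finset O}
    (hZ : Function.support (Gf d b F φ) ⊆ Z) {x : O} (hx : x ≠ 0) :
    d.Psi b F N (fun _ => 1) φ x =
      (∑ u ∈ Z, (if x ∣ u then (x.norm : ℝ) else 0) * Gf d b F φ u) / (N : ℝ) ^ 2 := by
  have hx' : x.norm ≠ 0 := (norm_pos' hx).ne'
  have hg : Function.Injective fun γ : O => γ * x := fun γ γ' e => by
    have h1 : (γ - γ') * x = 0 := by rw [sub_mul]; exact sub_eq_zero.2 e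
    have h2 := congrArg Zsqrtd.norm h1
    rw [Zsqrtd.norm_mul, Zsqrtd.norm_zero] at h2
    by_contra h3
    exact mul_ne_zero (norm_pos' (sub_ne_zero.2 h3)).ne' hx' h2
  have h1 := fin_comp hg (Gf d b F φ)
  have h2 : ∑ᶠ i, (if i ∈ Set.range fun γ : O => γ * x then Gf d b F φ i else 0) =
      ∑ u ∈ Z, if x ∣ u then Gf d b F φ u else 0 := by
    rw [← finsum_eq_sum_of_support_subset (fun u => if x ∣ u then Gf d b F φ u else 0)]
    · exact finsum_congr fun u => if_congr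
        ⟨fun ⟨γ, e⟩ => ⟨γ, by rw [← e, mul_comm]⟩, fun ⟨γ, e⟩ => ⟨γ, by rw [e, mul_comm]⟩⟩ rfl rfl
    · intro u hu
      refine hZ fun h3 => hu ?_
      simp [h3]
  have h3 : d.Psi b F N (fun _ => 1) φ x = (x.norm : ℝ) / (N : ℝ) ^ 2 * ∑ᶠ γ, Gf d b F φ (γ * x) := by
    simp only [Dat.Psi, Gf, one_mul]
  rw [h3, h1, h2, div_mul_eq_mul_div, mul_sum]
  congr 1
  refine sum_congr rfl fun u _ => ?_
  split_ifs <;> simp

theorem cc_eq (d : Dat) (b N : ℕ) {F : ℕ} (hF : 0 < F) (φ : ℤ → ℝ) :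
    d.cc N φ = d.Psi b F N (fun _ => 1) φ 1 := by
  have hF' : (F : ℤ) ≠ 0 := by exact_mod_cast hF.ne'
  have hg : Function.Injective fun v : O => (b : O) + (F : O) * v := fun v v' e => by
    have e1 := congrArg Zsqrtd.re e
    have e2 := congrArg Zsqrtd.im e
    simp only [Zsqrtd.re_add, Zsqrtd.im_add, mul_re', mul_im', Zsqrtd.re_natCast,
      Zsqrtd.im_natCast, zero_mul, mul_zero, sub_zero, add_zero, add_right_inj, zero_add] at e1 e2
    exact Zsqrtd.ext (mul_left_cancel₀ hF' e1) (mul_left_cancel₀ hF' e2)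
  have h1 := fin_comp hg (Gf d b F φ)
  have h2 : ∀ v : O, Gf d b F φ ((b : O) + (F : O) * v) = ∏ j, φ (d.lam j v) := fun v => by
    rw [Gf, if_pos ⟨v, by ring⟩, Dat.Fz]
    exact prod_congr rfl fun j _ => by rw [d.nn_base hF]
  simp only [h2] at h1
  rw [Dat.cc, h1, Dat.Psi]
  simp only [mul_one, Zsqrtd.norm_one, Int.cast_one, one_mul]
  rw [one_div, inv_mul_eq_div]
  congr 1
  refine finsum_congr fun u => ?_
  by_cases h : (F : O) ∣ u - b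
  · obtain ⟨v, hv⟩ := h
    rw [if_pos ⟨v, by show (b : O) + (F : O) * v = u; rw [← hv]; ring⟩, Gf]
  · rw [if_neg h, Gf, if_neg h, ite_self]

/-- the weighted deviation is a structured sum at the point one -/
theorem psi_id (hPack : StPack) (d : Dat) (b N : ℕ) {F : ℕ} (hF : 0 < F) (φ : ℤ → ℝ)
    (X : Finset O) (hX : ∀ x ∈ X, x ≠ 0) (π σ : O → ℝ) :
    d.Psi b F N (fun u => ∑ x ∈ X, π x * (σ x * ((if x ∣ u then (x.norm : ℝ) else 0) - 1)))
      (cutI N φ) 1 = ∑ x ∈ X, π x * (σ x * (d.Psi b F N (fun _ => 1) (cutI N φ) x -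
        d.Psi b F N (fun _ => 1) (cutI N φ) 1)) := by
  have hZ := (gf_fin hPack d b F N hF φ).coe_toFinset.ge
  rw [psi_one d b F N _ _ hZ, psi_one d b F N _ _ hZ]
  simp only [sum_mul]
  rw [sum_comm, sum_div]
  refine sum_congr rfl fun x hx => ?_
  rw [psi_x d b F N _ hZ (hX x hx), ← sub_div, ← sum_sub_distrib, ← mul_div_assoc,
    ← mul_div_assoc, mul_sum, mul_sum]
  congr 1
  exact sum_congr rfl fun u _ => by ring

theorem cut_one {s : ℕ} {H : Type} (S : Finset H) : Cv.Cut (s := s) S (fun _ => 1) 1 := by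
  intro F hF
  refine (abs_sum_le_sum_abs _ _).trans ((sum_le_card_nsmul _ _ 1 fun h _ => ?_).trans ?_)
  · rw [one_mul]; exact Cv.lowL_abs_prod hF h
  · simp

theorem mul_dv {k : ℕ} {z : O} (h : (k : O) ∣ z) : (k : O) * dv k z = z := by
  obtain ⟨h1, h2⟩ := (natCast_dvd_iff k z).1 h
  ext
  · simp only [dv, mul_re', Zsqrtd.re_natCast, Zsqrtd.im_natCast, zero_mul, mul_zero, sub_zero]
    exact Int.mul_ediv_cancel' h1
  · simp only [dv, mul_im', Zsqrtd.re_natCast, Zsqrtd.im_natCast, zero_mul, add_zero]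
    exact Int.mul_ediv_cancel' h2

theorem dv_mul {k : ℕ} (hk : 0 < k) (x : O) : dv k ((k : O) * x) = x := by
  have hk' : (k : ℤ) ≠ 0 := by exact_mod_cast hk.ne'
  ext
  · simp only [dv, mul_re', Zsqrtd.re_natCast, Zsqrtd.im_natCast, zero_mul, mul_zero, sub_zero]
    exact Int.mul_ediv_cancel_left _ hk'
  · simp only [dv, mul_im', Zsqrtd.re_natCast, Zsqrtd.im_natCast, zero_mul, add_zero]
    exact Int.mul_ediv_cancel_left _ hk'

theorem em_split (k : ℕ) (h : ℕ × ℕ) :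
    em h = em (h.1 % k, h.2 % k) + (k : O) * em (h.1 / k, h.2 / k) := by
  ext
  · simp only [em, Zsqrtd.re_add, mul_re', Zsqrtd.re_natCast, Zsqrtd.im_natCast, zero_mul,
      mul_zero, sub_zero]
    exact_mod_cast (Nat.mod_add_div h.1 k).symm
  · simp only [em, Zsqrtd.im_add, mul_im', Zsqrtd.re_natCast, Zsqrtd.im_natCast, zero_mul,
      add_zero]
    exact_mod_cast (Nat.mod_add_div h.2 k).symm

/-- the quotients lie in a box -/
theorem quot_box {F k l : ℕ} (hk : 0 < k) (hc : k.Coprime F) (a : O) :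
    ∃ x₀ : O, ((cbx F a l).filter fun z => (k : O) ∣ z).image (dv k) ⊆ cbx F x₀ (l / k + 1) := by
  rcases ((cbx F a l).filter fun z => (k : O) ∣ z).eq_empty_or_nonempty with h0 | ⟨z₁, h0⟩
  · exact ⟨0, by rw [h0]; simp⟩
  obtain ⟨h1, h2⟩ := mem_filter.1 h0
  obtain ⟨g, -, -, rfl⟩ := mem_cbx.1 h1
  have hc' : IsCoprime (k : ℤ) (F : ℤ) := Nat.isCoprime_iff_coprime.2 hc
  have h3 : (k : O) ∣ a + (F : O) * em (g.1 % k, g.2 % k) := by
    have h4 : a + (F : O) * em (g.1 % k, g.2 % k) =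
        a + (F : O) * em g - (k : O) * ((F : O) * em (g.1 / k, g.2 / k)) := by
      rw [em_split k g]; ring
    rw [h4]
    exact dvd_sub h2 (dvd_mul_right _ _)
  obtain ⟨x₀, hx₀⟩ := h3
  refine ⟨x₀, fun x hx => ?_⟩
  obtain ⟨z, hz, rfl⟩ := mem_image.1 hx
  obtain ⟨h5, h6⟩ := mem_filter.1 hz
  obtain ⟨h, hh1, hh2, rfl⟩ := mem_cbx.1 h5
  obtain ⟨h7, h8⟩ := (natCast_dvd_iff k _).1 (dvd_sub h6 h2)
  simp only [em, Zsqrtd.re_sub, Zsqrtd.im_sub, mul_re', mul_im',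
    Zsqrtd.re_natCast, Zsqrtd.im_natCast, zero_mul, mul_zero, sub_zero, add_zero,
    add_sub_add_left_eq_sub, ← mul_sub] at h7 h8
  have e1 : g.1 % k = h.1 % k := Nat.modEq_iff_dvd.2 (hc'.dvd_of_dvd_mul_left h7)
  have e2 : g.2 % k = h.2 % k := Nat.modEq_iff_dvd.2 (hc'.dvd_of_dvd_mul_left h8)
  refine mem_cbx.2 ⟨(h.1 / k, h.2 / k), Nat.lt_succ_of_le (Nat.div_le_div_right hh1.le),
    Nat.lt_succ_of_le (Nat.div_le_div_right hh2.le), ?_⟩
  have h9 : a + (F : O) * em h = (k : O) * (x₀ + (F : O) * em (h.1 / k, h.2 / k)) := by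
    rw [mul_add, ← hx₀, e1, e2, em_split k h]; ring
  rw [h9, dv_mul hk]

theorem card_big {n ρ A : ℕ} (hn : 0 < n) (h : n ≤ ρ ^ A) (hρ : 2 ≤ ρ) :
    (n.primeFactors.filter fun p => ρ < p).card ≤ A := by
  have h1 : ρ ^ (n.primeFactors.filter fun p => ρ < p).card ≤
      ∏ p ∈ n.primeFactors.filter fun p => ρ < p, p :=
    pow_card_le_prod _ _ _ fun p hp => (mem_filter.1 hp).2.le
  have h2 : ∏ p ∈ n.primeFactors.filter fun p => ρ < p, p ∣ n :=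
    (prod_dvd_prod_of_subset _ _ _ (filter_subset _ _)).trans (Nat.prod_primeFactors_dvd n)
  exact (Nat.pow_le_pow_iff_right hρ).1 (h1.trans ((Nat.le_of_dvd hn h2).trans h))

/-- pairs of quotients with norms that are not coprime are rare -/
theorem bad_le {F L w ρ A : ℕ} {x₀ : O} {X : Finset O} (hF : 0 < F) (hX : X ⊆ cbx F x₀ L)
    (hw : 0 < w) (hρ : 2 ≤ ρ) (hL : ρ ≤ L) (hp : ∀ p : ℕ, p.Prime → w < p → ¬p ∣ F)
    (h : ∀ x ∈ X, x ≠ 0 ∧ x.norm ≤ (ρ ^ A : ℕ) ∧ ∀ p : ℕ, p.Prime → (p : ℤ) ∣ x.norm → w < p) :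
    Cv.bad X (fun _ => 1 / (L : ℝ) ^ 2) (fun x => x.norm.natAbs) ≤ 16 / w + 4 * A / ρ := by
  have hL0 : 0 < L := by omega
  have hL' : (0 : ℝ) < L := by exact_mod_cast hL0
  have hρ' : (0 : ℝ) < ρ := by exact_mod_cast (by omega : 0 < ρ)
  have hρL : (ρ : ℝ) ≤ L := by exact_mod_cast hL
  set π : ℝ := 1 / (L : ℝ) ^ 2 with hπ
  have hπ0 : 0 ≤ π := by positivity
  let I : ℕ → O → ℝ := fun p x => if (p : ℤ) ∣ x.norm then 1 else 0
  have hI : ∀ p x, 0 ≤ I p x := fun p x => by simp only [I]; split_ifs <;> norm_num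
  have hP : ∀ p : ℕ, p.Prime → w < p → ∑ x ∈ X, π * I p x ≤ 2 / p + 2 / L := fun p h1 h2 => by
    refine le_trans ?_ (bav_norm hL0 h1 (hp p h1 h2) x₀)
    rw [← sum_cbx_bav hF x₀ L (I p), ← mul_sum, hπ, one_div, inv_mul_eq_div]
    exact div_le_div_of_nonneg_right
      (sum_le_sum_of_subset_of_nonneg hX fun x _ _ => hI p x) (by positivity)
  have hm : ∑ _x ∈ X, π ≤ 1 := by
    have h1 := card_le_card hX
    rw [card_cbx hF] at h1
    have h2 : (X.card : ℝ) ≤ (L : ℝ) ^ 2 := by exact_mod_cast h1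
    rw [sum_const, nsmul_eq_mul, hπ, mul_one_div, div_le_one (by positivity)]
    exact h2
  have key : ∀ x ∈ X, ∀ x' ∈ X, (if Nat.Coprime x.norm.natAbs x'.norm.natAbs then 0 else π * π) ≤
      ∑ p ∈ Sg.PP w ρ, π * I p x * (π * I p x') +
        π * ∑ p ∈ x.norm.natAbs.primeFactors.filter fun p => ρ < p, π * I p x' := by
    intro x hx x' _
    have n1 : ∀ p, 0 ≤ π * I p x * (π * I p x') := fun p =>
      mul_nonneg (mul_nonneg hπ0 (hI _ _)) (mul_nonneg hπ0 (hI _ _))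
    have n2 : ∀ p, 0 ≤ π * I p x' := fun p => mul_nonneg hπ0 (hI _ _)
    have s1 := sum_nonneg (s := Sg.PP w ρ) fun p _ => n1 p
    have s2 := mul_nonneg hπ0 (sum_nonneg
      (s := x.norm.natAbs.primeFactors.filter fun p => ρ < p) fun p _ => n2 p)
    split_ifs with hc
    · linarith
    obtain ⟨p, h1, h2, h3⟩ := Nat.Prime.not_coprime_iff_dvd.1 hc
    have h2' : (p : ℤ) ∣ x.norm := Int.natCast_dvd.2 h2
    have h3' : (p : ℤ) ∣ x'.norm := Int.natCast_dvd.2 h3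
    rcases le_or_gt p ρ with h4 | h4
    · have h5 : p ∈ Sg.PP w ρ := mem_filter.2 ⟨mem_Ioc.2 ⟨(h x hx).2.2 p h1 h2', h4⟩, h1⟩
      have h6 := single_le_sum (f := fun p => π * I p x * (π * I p x')) (fun p _ => n1 p) h5
      simp only [I, if_pos h2', if_pos h3', mul_one] at h6
      linarith
    · have h5 : p ∈ x.norm.natAbs.primeFactors.filter fun p => ρ < p :=
        mem_filter.2 ⟨Nat.mem_primeFactors.2 ⟨h1, h2,
          Int.natAbs_ne_zero.2 (norm_pos' (h x hx).1).ne'⟩, h4⟩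
      have h6 := mul_le_mul_of_nonneg_left
        (single_le_sum (f := fun p => π * I p x') (fun p _ => n2 p) h5) hπ0
      simp only [I, if_pos h3', mul_one] at h6
      linarith
  refine (sum_le_sum fun x hx => sum_le_sum fun x' hx' => key x hx x' hx').trans ?_
  simp only [sum_add_distrib]
  refine add_le_add ?_ ?_
  · have e : ∑ x ∈ X, ∑ x' ∈ X, ∑ p ∈ Sg.PP w ρ, π * I p x * (π * I p x') =
        ∑ p ∈ Sg.PP w ρ, (∑ x ∈ X, π * I p x) ^ 2 := by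
      simp only [sq, sum_mul_sum]
      rw [sum_congr rfl fun x _ => sum_comm, sum_comm]
    rw [e]
    have h1 : ∀ p ∈ Sg.PP w ρ, (∑ x ∈ X, π * I p x) ^ 2 ≤ 16 * ((p : ℝ) ^ 2)⁻¹ := fun p hp' => by
      obtain ⟨h2, h3⟩ := mem_filter.1 hp'
      obtain ⟨h4, h5⟩ := mem_Ioc.1 h2
      have h6 : (0 : ℝ) < p := by exact_mod_cast h3.pos
      have h7 : (2 : ℝ) / L ≤ 2 / p :=
        div_le_div_of_nonneg_left (by norm_num) h6 (by exact_mod_cast h5.trans hL)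
      calc _ ≤ (4 / (p : ℝ)) ^ 2 := by
            refine pow_le_pow_left₀ (sum_nonneg fun x _ => mul_nonneg hπ0 (hI _ _)) ?_ 2
            have := hP p h3 h4
            have e4 : (4 : ℝ) / p = 2 / p + 2 / p := by ring
            linarith
        _ = _ := by ring
    refine (sum_le_sum h1).trans ?_
    rw [← mul_sum, div_eq_mul_inv]
    refine mul_le_mul_of_nonneg_left ?_ (by norm_num)
    have h2 : Sg.PP w ρ ⊆ Ioc w (w + ρ) := (filter_subset _ _).trans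
      (Ioc_subset_Ioc_right (Nat.le_add_left _ _))
    refine (sum_le_sum_of_subset_of_nonneg h2 fun p _ _ => by positivity).trans
      ((sum_Ioc_inv_sq_le_sub hw.ne' (Nat.le_add_right _ _)).trans ?_)
    exact sub_le_self _ (by positivity)
  · have h1 : ∀ x ∈ X, ∑ x' ∈ X, π * ∑ p ∈ x.norm.natAbs.primeFactors.filter fun p => ρ < p,
        π * I p x' ≤ π * (4 * A / ρ) := fun x hx => by
      rw [← mul_sum, sum_comm]
      refine mul_le_mul_of_nonneg_left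
        ((sum_le_card_nsmul _ _ (4 / (ρ : ℝ)) fun p hp' => ?_).trans ?_) hπ0
      · obtain ⟨h2, h3⟩ := mem_filter.1 hp'
        obtain ⟨h4, h5, -⟩ := Nat.mem_primeFactors.1 h2
        have h6 := hP p h4 ((h x hx).2.2 p h4 (Int.natCast_dvd.2 h5))
        have h7 : (2 : ℝ) / p ≤ 2 / ρ :=
          div_le_div_of_nonneg_left (by norm_num) hρ' (by exact_mod_cast h3.le)
        have h8 : (2 : ℝ) / L ≤ 2 / ρ := div_le_div_of_nonneg_left (by norm_num) hρ' hρL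
        have e4 : (4 : ℝ) / ρ = 2 / ρ + 2 / ρ := by ring
        linarith
      · have h2 := norm_pos' (h x hx).1
        have h3 := (h x hx).2.1
        have h4 := card_big (n := x.norm.natAbs) (A := A) (by omega) (by omega) hρ
        have h5 : ((x.norm.natAbs.primeFactors.filter fun p => ρ < p).card : ℝ) ≤ A := by
          exact_mod_cast h4
        rw [nsmul_eq_mul, ← mul_div_assoc, mul_comm]
        gcongr
    refine (sum_le_sum h1).trans ?_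
    rw [← sum_mul]
    exact mul_le_of_le_one_left (by positivity) hm

theorem expo {P : Par} {d : Dat} (h : P.Ok d) : ∃ u : ℕ, P.A / 2 ^ (P.s + 4) = u ∧ 2 ≤ u ∧
    (2 * u + 1) * 2 ^ P.s + 1 ≤ P.A ∧ 2 * u + 2 ≤ P.A := by
  obtain ⟨h1, -, -, -⟩ := h.big
  have h2 := h.hA
  have h3 : 0 < 2 ^ P.s := by positivity
  refine ⟨_, rfl, ?_⟩
  have h4 := Nat.div_mul_le_self P.A (2 ^ (P.s + 4))
  have h5 : 2 ≤ P.A / 2 ^ (P.s + 4) := by
    refine (Nat.le_div_iff_mul_le (by positivity)).2 (le_trans ?_ h2)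
    rw [pow_add, pow_add]
    nlinarith
  generalize P.A / 2 ^ (P.s + 4) = u at h4 h5
  rw [pow_add] at h4
  generalize 2 ^ P.s = t at h3 h4
  refine ⟨h5, by nlinarith, by nlinarith⟩

/-- facts on the quotients -/
theorem quot_facts {S : Sc} (hok : S.Ok) {k u : ℕ} (hρ : 0 < S.ρ)
    (hu : S.n0 + u = S.P.E * S.P.A - 8 * S.P.a) (h5 : 9 * S.W ^ 2 ≤ S.ρ)
    (hk1 : k ≡ 1 [MOD S.F]) (hk2 : S.ρ ^ S.n0 ≤ k) {x : O}
    (hx : x ∈ (S.B.filter fun z => (k : O) ∣ z).image (dv k)) :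
    x ≠ 0 ∧ x.norm ≤ (S.ρ ^ (2 * u + 1) : ℕ) ∧ IsCoprime x.norm (S.F : ℤ) := by
  obtain ⟨z, hz, rfl⟩ := mem_image.1 hx
  obtain ⟨h1, h2⟩ := mem_filter.1 hz
  have e := mul_dv h2
  generalize dv k z = x at e
  obtain ⟨h3, h4⟩ := hok.lo z h1
  have hT : 0 < S.T := Nat.mul_pos S.W_pos (by positivity)
  have hn : z.norm = (k : ℤ) ^ 2 * x.norm := by
    rw [← e, Zsqrtd.norm_mul, Zsqrtd.norm_natCast, sq]
  refine ⟨fun h0 => ?_, ?_, ?_⟩
  · rw [hn, h0, Zsqrtd.norm_zero] at h3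
    have : (0 : ℤ) < (S.T : ℤ) ^ 2 := by positivity
    linarith
  · have h6 : 9 * S.T ^ 2 ≤ (S.ρ ^ S.n0) ^ 2 * S.ρ ^ (2 * u + 1) := by
      rw [Sc.T, ← hu]
      calc _ = (S.ρ ^ S.n0) ^ 2 * S.ρ ^ (2 * u) * (9 * S.W ^ 2) := by ring
        _ ≤ (S.ρ ^ S.n0) ^ 2 * S.ρ ^ (2 * u) * S.ρ := Nat.mul_le_mul_left _ h5
        _ = _ := by ring
    have h7 : 9 * S.T ^ 2 ≤ k ^ 2 * S.ρ ^ (2 * u + 1) :=
      h6.trans (Nat.mul_le_mul_right _ (Nat.pow_le_pow_left hk2 2))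
    have h8 : 9 * (S.T : ℤ) ^ 2 ≤ (k : ℤ) ^ 2 * (S.ρ ^ (2 * u + 1) : ℕ) := by exact_mod_cast h7
    have hk : 0 < k := lt_of_lt_of_le (by positivity) hk2
    exact le_of_mul_le_mul_left (hn ▸ h4.trans h8) (by positivity)
  · obtain ⟨c, hc⟩ := Nat.modEq_iff_dvd.1 hk1
    have h6 : (S.F : O) ∣ x - S.w0 := by
      have h7 : (1 : O) - (k : O) = (S.F : O) * (c : O) := by exact_mod_cast congrArg Int.cast hc
      have h8 : x - S.w0 = z - S.w0 + (S.F : O) * ((c : O) * x) := by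
        rw [← e]; linear_combination x * h7
      rw [h8]
      exact dvd_add (S.mem_B_congr h1) (dvd_mul_right _ _)
    obtain ⟨v, hv⟩ := norm_congr h6
    have h9 : x.norm = S.w0.norm + S.F * v := by linarith
    rw [h9]
    exact hok.hw.add_mul_left_left v

/-- the statement of `StLowSum` for a given constant -/
def LSum (d : Dat) (C : ℝ) : Prop :=
  ∀ (s b F N Q D H : ℕ) (M β Vm : ℝ) (φ : ℤ → ℝ) (x : O) (V : O → ℝ),
    b < F → 0 < N → 0 < H → 1 ≤ M → 0 ≤ β → (∀ n, |φ n| ≤ 1) →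
    LowDir (fun _ : Fin (s + 1) => (Q : ℤ)) D M φ → x ≠ 0 → IsCoprime x.norm (F : ℤ) →
    3 * d.C * sz x * H ≤ D → (s + 1) * Q * (3 * d.C * sz x * H) ≤ N → sz x ≤ N →
    (∀ γ, |V γ| ≤ Vm) →
    (∀ γ, Cv.Cut (s := s + 1) (Cv.box H)
      (fun h => V (γ + ((F * Q : ℕ) : O) * ∑ r, em (h r))) β) →
    |d.Psi b F N V (cutI N φ) x| ≤
      C * (M ^ 6 * β + Vm * (((s + 1) * Q * (3 * d.C * sz x * H) + sz x : ℕ) : ℝ) / N)

theorem core (hGv : StGv) (hPack : StPack) {S : Sc} (hP : S.P.Ok S.d) (hok : S.Ok) {C M δ : ℝ}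
    (hC : 0 < C) (hM : 1 ≤ M) (hLS : LSum S.d C) (hδ0 : 0 < δ) (hδ1 : δ ≤ 1)
    (h1 : S.d.e ≤ S.w) (h2 : 4 ^ S.P.s * (16 / (S.w : ℝ) + 4 * S.P.A / S.ρ) ≤ δ ^ 2 ^ S.P.s)
    (h3 : 1 ≤ δ ^ 2 ^ S.P.s * S.ρ) (h4 : 2 * S.P.J * 2 ^ S.n0 ≤ S.ρ) (h5 : 9 * S.W ^ 2 ≤ S.ρ)
    (h6 : (S.P.s + 1) * S.Q * (3 * S.d.C) ≤ S.ρ) {φ : ℤ → ℝ} (hφ : S.Str M φ) {k : ℕ}
    (hk1 : k ≡ 1 [MOD S.F]) (hk2 : S.ρ ^ S.n0 ≤ k) (hk3 : k ≤ (2 * S.ρ) ^ S.n0) :
    S.Kk (cutI S.N φ) k ≤ 8 * C * (M ^ 6 + 2) * (C * (M ^ 6 * (10 * δ) + 4 / S.ρ)) := by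
  obtain ⟨b1, b2, b3, b4⟩ := hP.big
  obtain ⟨u, hu, u1, u2, u3⟩ := expo hP
  have hu' : S.n0 + u = S.P.E * S.P.A - 8 * S.P.a := by rw [Sc.n0, hu]; omega
  have hW := S.W_pos
  have hρ2 : 2 ≤ S.ρ := le_trans (by nlinarith only [hW]) h5
  have hρ : 0 < S.ρ := by omega
  have hρ' : (0 : ℝ) < S.ρ := by exact_mod_cast hρ
  have hk : 0 < k := lt_of_lt_of_le (by positivity) hk2
  have hJ : S.P.J ≤ S.ρ := le_trans (by nlinarith only [Nat.one_le_two_pow (n := S.n0)]) h4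
  have hl : S.ρ * k ≤ S.l := by
    refine Nat.le_of_mul_le_mul_left (le_trans ?_ (Sc.le_l hP hJ)) (by omega : 0 < 2 * S.P.J)
    calc 2 * S.P.J * (S.ρ * k) ≤ 2 * S.P.J * (S.ρ * (2 * S.ρ) ^ S.n0) := by gcongr
      _ = 2 * S.P.J * 2 ^ S.n0 * S.ρ ^ (S.n0 + 1) := by rw [mul_pow]; ring
      _ ≤ S.ρ * S.ρ ^ (S.n0 + 1) := Nat.mul_le_mul_right _ h4
      _ = S.ρ ^ (S.n0 + 2) := by ring
      _ ≤ _ := Nat.pow_le_pow_right hρ (by omega)
  have hlk : S.ρ ≤ S.l / k := (Nat.le_div_iff_mul_le hk).2 hl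
  have hcop : k.Coprime S.F := by
    have := hk1.gcd_eq
    rwa [Nat.gcd_one_left] at this
  obtain ⟨x₀, hX⟩ := quot_box (l := S.l) hk hcop S.w0
  have hq := fun x => quot_facts hok hρ hu' h5 hk1 hk2 (x := x)
  have hsum : ∀ f : O → ℝ, ∑ z ∈ S.B.filter fun z => (k : O) ∣ z, f (dv k z) =
      ∑ x ∈ (S.B.filter fun z => (k : O) ∣ z).image (dv k), f x := fun f =>
    (sum_image fun z hz z' hz' e => by
      rw [← mul_dv (mem_filter.1 hz).2, ← mul_dv (mem_filter.1 hz').2, e]).symm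
  change (S.B.filter fun z => (k : O) ∣ z).image (dv k) ⊆ _ at hX
  rw [Sc.Kk, cc_eq S.d S.b S.N S.F_pos, hsum fun x => (S.d.Psi S.b S.F S.N (fun _ => 1)
    (cutI S.N φ) x - S.d.Psi S.b S.F S.N (fun _ => 1) (cutI S.N φ) 1) ^ 2]
  generalize (S.B.filter fun z => (k : O) ∣ z).image (dv k) = X at hX hq
  have hLk : (S.l / k + 1) * k ≤ 2 * S.l := by
    have t1 := Nat.div_mul_le_self S.l k
    have t2 : k ≤ S.l := le_trans (Nat.le_mul_of_pos_left _ hρ) hl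
    rw [add_mul]
    omega
  generalize hL : S.l / k + 1 = L at hX hLk
  have hL1 : S.ρ ≤ L := by omega
  have hL' : (0 : ℝ) < L := by exact_mod_cast (by omega : 0 < L)
  -- sizes
  have hN : 0 < S.N := by unfold Sc.N; positivity
  have hR : 0 < S.R := by unfold Sc.R; positivity
  have hQ : 1 ≤ (S.P.s + 1) * S.Q := Nat.mul_pos (by omega) S.Q_pos
  have hC3 : 3 * S.d.C ≤ S.ρ := le_trans (Nat.le_mul_of_pos_left _ hQ) h6
  have hρR : S.ρ * S.R = S.ρ ^ (S.P.A + 1) := by rw [Sc.R]; ring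
  have s1 : 3 * S.d.C * S.R ≤ S.D := ((Nat.mul_le_mul_right _ hC3).trans hρR.le).trans
    (Nat.pow_le_pow_right hρ (by omega))
  have s2' : (S.P.s + 1) * S.Q * (3 * S.d.C * S.R) ≤ S.ρ * S.R := by
    rw [← mul_assoc]; exact Nat.mul_le_mul_right _ h6
  have s3 : S.ρ * S.R ≤ S.N := hρR.le.trans (Nat.pow_le_pow_right hρ (by omega))
  have s4 : S.R ≤ S.N := le_trans (Nat.le_mul_of_pos_left _ hρ) s3
  have hY : S.ρ ^ (2 * u + 1) * 2 ≤ S.R := ((Nat.mul_le_mul_left _ hρ2).trans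
    (pow_succ _ _).ge).trans (Nat.pow_le_pow_right hρ (by omega))
  have hN' : (0 : ℝ) < S.N := by exact_mod_cast hN
  set Ψ := S.d.Psi S.b S.F S.N (fun _ => 1) (cutI S.N φ) with hΨ
  have bd : ∀ x : O, x ≠ 0 → IsCoprime x.norm (S.F : ℤ) → sz x ≤ S.R → |Ψ x| ≤ C * (M ^ 6 + 2) := by
    intro x x0 x1 x2
    have t1 : 3 * S.d.C * sz x * 1 ≤ 3 * S.d.C * S.R := by rw [mul_one]; gcongr
    have t2 : (S.P.s + 1) * S.Q * (3 * S.d.C * sz x * 1) ≤ S.N :=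
      (Nat.mul_le_mul_left _ t1).trans (s2'.trans s3)
    refine (hLS S.P.s S.b S.F S.N S.Q S.D 1 M 1 1 φ x (fun _ => 1) hok.hb hN one_pos hM
      zero_le_one hφ.1 hφ.2 x0 x1 (t1.trans s1) t2 (x2.trans s4) (fun _ => by simp)
      fun _ => cut_one _).trans (mul_le_mul_of_nonneg_left ?_ hC.le)
    rw [mul_one, one_mul]
    refine add_le_add le_rfl ((div_le_iff₀ hN').2 ?_)
    exact_mod_cast (by omega : (S.P.s + 1) * S.Q * (3 * S.d.C * sz x * 1) + sz x ≤ 2 * S.N)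
  have sz1 : sz (1 : O) = 1 := rfl
  have c1 : IsCoprime (1 : O).norm (S.F : ℤ) := by simpa using isCoprime_one_left
  have hM6 : 0 < M ^ 6 + 2 := by positivity
  set Bd := 2 * C * (M ^ 6 + 2) with hBd
  have hBd0 : 0 < Bd := by positivity
  have hσ : ∀ x ∈ X, |(Ψ x - Ψ 1) / Bd| ≤ 1 := fun x hx => by
    obtain ⟨x0, x1, x2⟩ := hq x hx
    have t1 : (sz x : ℤ) ≤ S.R := by
      have t2 := sz_le_norm x
      have t3 : ((S.ρ ^ (2 * u + 1) : ℕ) : ℤ) * 2 ≤ S.R := by exact_mod_cast hY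
      linarith only [t2, t3, x1, Int.le_self_sq (sz x : ℤ)]
    rw [abs_div, abs_of_pos hBd0, div_le_one hBd0]
    linarith only [hBd, abs_sub (Ψ x) (Ψ 1), bd x x0 x2 (by exact_mod_cast t1), bd 1 one_ne_zero c1 hR]
  have hm : ∑ _x ∈ X, 1 / (L : ℝ) ^ 2 ≤ 1 := by
    have t1 := card_le_card hX
    rw [card_cbx S.F_pos] at t1
    have t2 : (X.card : ℝ) ≤ (L : ℝ) ^ 2 := by exact_mod_cast t1
    rw [sum_const, nsmul_eq_mul, mul_one_div, div_le_one (by positivity)]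
    exact t2
  have hYR : ∀ x ∈ X, x.norm ≤ (S.R : ℤ) := fun x hx =>
    (hq x hx).2.1.trans (by exact_mod_cast (by omega : S.ρ ^ (2 * u + 1) ≤ S.R))
  have hbad := bad_le (A := S.P.A) S.F_pos hX (lt_of_lt_of_le S.d.he h1) hρ2 hL1
    (fun p hp hw => S.not_dvd_F h1 hp hw) fun x hx => ⟨(hq x hx).1, hYR x hx, fun p hp hd => by
      by_contra hw
      have t1 := (hq x hx).2.2.isUnit_of_dvd' hd
        (Int.natCast_dvd_natCast.2 (S.dvd_F hp.pos (not_lt.1 hw)))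
      exact (Nat.prime_iff_prime_int.1 hp).not_isUnit t1⟩
  have hcut := fun γ => hGv S.P.s X (fun _ => 1 / (L : ℝ) ^ 2) (fun x => (Ψ x - Ψ 1) / Bd)
    (S.F * S.Q) (S.ρ ^ (2 * u + 1)) S.R δ γ (fun _ _ => by positivity) hm hσ
    (fun x hx => ⟨(hq x hx).1, (hq x hx).2.1, by
      have t1 := (hq x hx).2.2
      have t2 : IsCoprime x.norm (S.w.factorial : ℤ) :=
        t1.of_isCoprime_of_dvd_right (Int.natCast_dvd_natCast.2 (Dvd.intro_left _ rfl))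
      rw [Sc.Q]
      push_cast
      exact t1.mul_right (t1.mul_right t2)⟩) hδ0 hδ1
    ((mul_le_mul_of_nonneg_left hbad (by positivity)).trans h2) (by
      have t1 : S.ρ * (S.ρ ^ (2 * u + 1)) ^ 2 ^ S.P.s ≤ S.R := by
        rw [← pow_mul, ← pow_succ']
        exact Nat.pow_le_pow_right hρ u2
      have t2 : (S.ρ : ℝ) * ((S.ρ ^ (2 * u + 1) : ℕ) : ℝ) ^ 2 ^ S.P.s ≤ S.R := by exact_mod_cast t1
      calc _ ≤ δ ^ 2 ^ S.P.s * S.ρ * ((S.ρ ^ (2 * u + 1) : ℕ) : ℝ) ^ 2 ^ S.P.s :=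
            le_mul_of_one_le_left (by positivity) h3
        _ ≤ _ := by rw [mul_assoc]; exact mul_le_mul_of_nonneg_left t2 (by positivity))
  have hV : ∀ γ : O, |∑ x ∈ X, 1 / (L : ℝ) ^ 2 * ((Ψ x - Ψ 1) / Bd *
      ((if x ∣ γ then (x.norm : ℝ) else 0) - 1))| ≤ 2 * (S.R : ℝ) := fun γ => by
    have hR' : (1 : ℝ) ≤ S.R := by exact_mod_cast hR
    refine (abs_sum_le_sum_abs _ _).trans ((sum_le_sum
      (g := fun _ => 1 / (L : ℝ) ^ 2 * (2 * (S.R : ℝ))) fun x hx => ?_).trans ?_)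
    · rw [abs_mul, abs_mul, abs_of_nonneg (by positivity : 0 ≤ 1 / (L : ℝ) ^ 2)]
      refine mul_le_mul_of_nonneg_left ((mul_le_of_le_one_left (abs_nonneg _) (hσ x hx)).trans ?_)
        (by positivity)
      have t1 : (x.norm : ℝ) ≤ S.R := by exact_mod_cast hYR x hx
      have t2 : (0 : ℝ) ≤ x.norm := by exact_mod_cast norm_nonneg' x
      split_ifs <;> rw [abs_le] <;> constructor <;> linarith only [t1, t2, hR']
    · rw [← sum_mul]
      exact mul_le_of_le_one_left (by positivity) hm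
  have t0 : 3 * S.d.C * sz (1 : O) * S.R = 3 * S.d.C * S.R := by rw [sz1, mul_one]
  have main := hLS S.P.s S.b S.F S.N S.Q S.D S.R M (10 * δ) (2 * S.R) φ 1 _ hok.hb hN hR hM
    (by positivity) hφ.1 hφ.2 one_ne_zero c1 (t0 ▸ s1) (t0 ▸ s2'.trans s3) hN hV hcut
  rw [psi_id hPack S.d S.b S.N S.F_pos φ X (fun x hx => (hq x hx).1), t0, sz1, ← hΨ] at main
  have err : 2 * (S.R : ℝ) * (((S.P.s + 1) * S.Q * (3 * S.d.C * S.R) + 1 : ℕ) : ℝ) / S.N ≤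
      4 / S.ρ := by
    rw [div_le_div_iff₀ hN' hρ']
    have t1 : (S.P.s + 1) * S.Q * (3 * S.d.C * S.R) + 1 ≤ 2 * (S.ρ * S.R) := by
      have := Nat.mul_pos hρ hR
      omega
    have t2 : S.R * (S.ρ * S.R) * S.ρ ≤ S.N := by
      rw [hρR, Sc.R, ← pow_add, ← pow_succ]
      exact Nat.pow_le_pow_right hρ (by omega)
    have t3 : 2 * S.R * ((S.P.s + 1) * S.Q * (3 * S.d.C * S.R) + 1) * S.ρ ≤ 4 * S.N :=
      calc _ ≤ 2 * S.R * (2 * (S.ρ * S.R)) * S.ρ := by gcongr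
        _ = 4 * (S.R * (S.ρ * S.R) * S.ρ) := by ring
        _ ≤ _ := by gcongr
    exact_mod_cast t3
  have e1 : ∑ x ∈ X, 1 / (L : ℝ) ^ 2 * ((Ψ x - Ψ 1) / Bd * (Ψ x - Ψ 1)) =
      (∑ x ∈ X, (Ψ x - Ψ 1) ^ 2) / ((L : ℝ) ^ 2 * Bd) := by
    rw [sum_div]
    exact sum_congr rfl fun x _ => by field_simp
  rw [e1] at main
  have hl0 : (0 : ℝ) < S.l := by exact_mod_cast lt_of_lt_of_le (Nat.mul_pos hρ hk) hl
  have e2 : (k : ℝ) ^ 2 / (S.l : ℝ) ^ 2 ≤ 4 / (L : ℝ) ^ 2 := by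
    rw [div_le_div_iff₀ (by positivity) (by positivity)]
    have t1 : (L : ℝ) * k ≤ 2 * S.l := by exact_mod_cast hLk
    have t2 := pow_le_pow_left₀ (by positivity) t1 2
    linarith only [t2, mul_pow (L : ℝ) k 2, mul_pow (2 : ℝ) S.l 2]
  have n1 : 0 ≤ ∑ x ∈ X, (Ψ x - Ψ 1) ^ 2 := sum_nonneg fun _ _ => sq_nonneg _
  generalize ∑ x ∈ X, (Ψ x - Ψ 1) ^ 2 = Z at main n1
  calc _ ≤ 4 / (L : ℝ) ^ 2 * Z := mul_le_mul_of_nonneg_right e2 n1
    _ = 4 * Bd * (Z / ((L : ℝ) ^ 2 * Bd)) := by field_simp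
    _ ≤ 4 * Bd * (C * (M ^ 6 * (10 * δ) + 4 / S.ρ)) := by
        refine mul_le_mul_of_nonneg_left (((le_abs_self _).trans main).trans ?_) (by positivity)
        exact mul_le_mul_of_nonneg_left (add_le_add le_rfl err) hC.le
    _ = _ := by rw [hBd]; ring

end BaseAux

theorem stBase (hGv : StGv) (hLowSum : StLowSum) (hPack : StPack) (_hScale : StScale) :
    StBase := by
  intro d P hP M ε hM hε
  obtain ⟨C, hC, hLS⟩ := hLowSum d
  have hM0 : 0 < M := by linarith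
  obtain ⟨K, hK, hK0⟩ : ∃ K : ℝ, K = 8 * C * (M ^ 6 + 2) * C ∧ 0 < K := ⟨_, rfl, by positivity⟩
  obtain ⟨δ, hδ0, hδ1, hδ2⟩ : ∃ δ : ℝ, 0 < δ ∧ δ ≤ 1 ∧ δ ≤ ε / (20 * K * M ^ 6) :=
    ⟨min 1 (ε / (20 * K * M ^ 6)), lt_min one_pos (by positivity), min_le_left _ _,
      min_le_right _ _⟩
  obtain ⟨η, hη, hη0⟩ : ∃ η : ℝ, η = δ ^ 2 ^ P.s ∧ 0 < η := ⟨_, rfl, by positivity⟩
  refine (Ev.of_eventually (d := d) (P := P) (Θ := fun w ρ =>
    (4 ^ P.s * 8 * P.A / η ≤ ρ ∧ 1 / η ≤ ρ ∧ 8 * K / ε ≤ ρ) ∧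
      2 * P.J * 2 ^ (P.E * P.A - 8 * P.a - P.A / 2 ^ (P.s + 4)) ≤ ρ ∧ 9 * w.factorial ^ 2 ≤ ρ ∧
      (P.s + 1) * (d.e * w.factorial * w.factorial) * (3 * d.C) ≤ ρ)
    (max d.e ⌈4 ^ P.s * 32 / η⌉₊) fun w _ => ((ev_const _).and ((ev_const _).and
      (ev_const _))).and ((eventually_ge_atTop _).and ((eventually_ge_atTop _).and
        (eventually_ge_atTop _)))).mono ?_
  rintro S rfl rfl hok ⟨hw, ⟨r1, r2, r3⟩, r4, r5, r6⟩ φ hφ k hk1 hk2 hk3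
  have h1 : S.d.e ≤ S.w := le_of_max_le_left hw
  have hw0 : (0 : ℝ) < S.w := by exact_mod_cast lt_of_lt_of_le S.d.he h1
  have hρ : (0 : ℝ) < S.ρ := lt_of_lt_of_le (by positivity) r2
  have w1 := Nat.ceil_le.1 (le_of_max_le_right hw)
  rw [div_le_iff₀ hη0] at w1 r1 r2
  rw [div_le_iff₀ hε] at r3
  rw [le_div_iff₀ (by positivity)] at hδ2
  refine (BaseAux.core hGv hPack hP hok hC hM hLS hδ0 hδ1 h1 ?_ (by rw [← hη]; linarith) r4 r5 r6
    hφ hk1 hk2 hk3).trans ?_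
  · have t1 : 4 ^ S.P.s * (16 / (S.w : ℝ)) ≤ η / 2 := by
      rw [← mul_div_assoc, div_le_iff₀ hw0]; linarith
    have t2 : 4 ^ S.P.s * (4 * (S.P.A : ℝ) / S.ρ) ≤ η / 2 := by
      rw [← mul_div_assoc, div_le_iff₀ hρ]; linarith
    rw [← hη, mul_add]
    linarith
  · have t1 : K * (4 / (S.ρ : ℝ)) ≤ ε / 2 := by
      rw [← mul_div_assoc, div_le_iff₀ hρ]; linarith
    rw [← mul_assoc, ← hK, mul_add]
    linarith

end Pool.Agent.Lib.MP_7d3fda_nt.Q3
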