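import Pool.Agent.Lib.MP_7d3fda_nt.Q3.Basic

open Finset Filter
open scoped Classical NumberTheorySymbols

noncomputable section

namespace Pool.Agent.Lib.MP_7d3fda_nt.Q3

open Pool.Agent.Lib.MP_4b8564_nt Pool.Agent.Lib.MP_4b8564_nt.GT
open Pool.Agent.Lib.MP_0a3467_an.Cv (Low)
open Pool.Agent.Lib.MP_0a3467_an

namespace BoostAux

/-- the primitive of the truncation -/
def Ph (t : ℝ) : ℝ := clip t * t - clip t ^ 2 / 2

theorem clip_mem (t : ℝ) : 0 ≤ clip t ∧ clip t ≤ 1 :=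
  ⟨le_max_left _ _, max_le zero_le_one (min_le_left _ _)⟩

theorem clip_proj (t c : ℝ) (h0 : 0 ≤ c) (h1 : c ≤ 1) : (c - clip t) * (t - clip t) ≤ 0 := by
  unfold clip
  rcases le_total t 0 with h | h
  · rw [min_eq_right (h.trans zero_le_one), max_eq_left h]
    nlinarith
  · rcases le_total t 1 with h' | h'
    · rw [min_eq_right h', max_eq_right h]
      simp
    · rw [min_eq_left h', max_eq_right zero_le_one]
      nlinarith

theorem Ph_add (t u : ℝ) : Ph (t + u) ≤ Ph t + clip t * u + u ^ 2 / 2 := by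
  have h1 := clip_proj t (clip (t + u)) (clip_mem _).1 (clip_mem _).2
  unfold Ph
  nlinarith [sq_nonneg (clip (t + u) - clip t - u)]

theorem Ph_ge (t : ℝ) : max t 0 - 1 / 2 ≤ Ph t := by
  have h1 := clip_proj t 1 zero_le_one le_rfl
  have h2 := clip_proj t 0 le_rfl zero_le_one
  have h3 := clip_mem t
  unfold Ph
  rcases le_total t 0 with h | h
  · rw [max_eq_right h]
    nlinarith
  · rw [max_eq_left h]
    nlinarith

theorem Ph_zero : Ph 0 = 0 := by simp [Ph, clip]

variable {X : Type} [Fintype X] [Nonempty X]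

/-- the potential -/
def Pot (f S : X → ℝ) : ℝ := av fun x => Ph (S x) - f x * S x

theorem step (f S φ : X → ℝ) (hφ : ∀ x, |φ x| ≤ 1) {e : ℝ} (he : 0 < e)
    (h : e < |av fun x => (f x - clip (S x)) * φ x|) :
    ∃ c : ℝ, |c| = e ∧ Pot f (fun x => c * φ x + S x) ≤ Pot f S - e ^ 2 / 2 := by
  have key : ∀ c : ℝ, |c| = e → Pot f (fun x => c * φ x + S x) ≤
      Pot f S - c * (av fun x => (f x - clip (S x)) * φ x) + e ^ 2 / 2 := by
    intro c hc
    unfold Pot
    rw [← av_const_mul, ← av_sub, ← av_const (X := X) (e ^ 2 / 2), ← av_add]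
    refine av_mono fun x => ?_
    have h1 := Ph_add (S x) (c * φ x)
    have h2 : (c * φ x) ^ 2 ≤ e ^ 2 := by
      rw [mul_pow, ← sq_abs c, hc, ← sq_abs (φ x)]
      exact mul_le_of_le_one_right (sq_nonneg _) (pow_le_one₀ (abs_nonneg _) (hφ x))
    beta_reduce
    rw [add_comm (c * φ x)]
    nlinarith
  rcases lt_abs.1 h with h1 | h1
  · refine ⟨e, abs_of_pos he, (key e (abs_of_pos he)).trans ?_⟩
    nlinarith
  · have h2 : |-e| = e := by rw [abs_neg, abs_of_pos he]
    refine ⟨-e, h2, (key (-e) h2).trans ?_⟩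
    nlinarith

omit [Nonempty X] in
theorem pow_le {F : Set (X → ℝ)} {g : X → ℝ} {η : ℝ} {j k : ℕ}
    (h : ∀ D : Fin j → X → ℝ, (∀ i, D i ∈ F) → |av fun x => g x * ∏ i, D i x| ≤ η)
    (D : Fin k → X → ℝ) (σ : Fin k → ℝ) (hD : ∀ i, D i ∈ F) (hσ : ∀ i, |σ i| ≤ 1) :
    |av fun x => g x * (∑ i, σ i * D i x) ^ j| ≤ (k : ℝ) ^ j * η := by
  have e : (av fun x => g x * (∑ i, σ i * D i x) ^ j) =
      ∑ p ∈ Fintype.piFinset fun _ : Fin j => (univ : Finset (Fin k)),
        (∏ i, σ (p i)) * av fun x => g x * ∏ i, D (p i) x := by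
    simp only [← av_const_mul]
    rw [← av_sum]
    refine av_congr fun x => ?_
    rw [Finset.sum_pow', mul_sum]
    refine sum_congr rfl fun p _ => ?_
    rw [prod_mul_distrib]
    ring
  rw [e]
  refine (abs_sum_le_sum_abs _ _).trans ((sum_le_card_nsmul _ _ η fun p _ => ?_).trans ?_)
  · rw [abs_mul, abs_prod]
    exact (mul_le_of_le_one_left (abs_nonneg _)
      (prod_le_one (fun _ _ => abs_nonneg _) fun i _ => hσ _)).trans (h _ fun i => hD _)
  · simp

theorem low {ν f S : X → ℝ} (hf : ∀ x, 0 ≤ f x ∧ f x ≤ ν x) (q : ℝ → ℝ)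
    (hq : ∀ x, |q (S x) - max (S x) 0| ≤ 1 / 12) (h0 : |av fun x => ν x - 1| ≤ 1)
    (h1 : |av fun x => (ν x - 1) * q (S x)| ≤ 1 / 4) : -1 ≤ Pot f S := by
  have h2 : (av fun x => -(1 / 2) - (ν x - 1) * q (S x) - (1 / 12 * (ν x - 1) + 1 / 6)) ≤
      Pot f S := by
    refine av_mono fun x => ?_
    have h3 := Ph_ge (S x)
    have h4 := abs_le.1 (hq x)
    have h5 := hf x
    have h6 : S x ≤ max (S x) 0 := le_max_left _ _
    have h7 : 0 ≤ max (S x) 0 := le_max_right _ _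
    have h8 : 0 ≤ ν x := h5.1.trans h5.2
    nlinarith [mul_nonneg h5.1 (sub_nonneg.2 h6), mul_nonneg (sub_nonneg.2 h5.2) h7,
      mul_nonneg h8 (sub_nonneg.2 h4.1)]
  rw [av_sub, av_sub, av_add, av_const_mul, av_const, av_const] at h2
  have h3 := abs_le.1 h0
  have h4 := abs_le.1 h1
  linarith

end BoostAux

open BoostAux in
theorem stBoost : StBoost := by
  intro ε hε
  obtain ⟨e, he0, he1, he⟩ : ∃ e : ℝ, 0 < e ∧ e ≤ 1 ∧ e ≤ ε :=
    ⟨min ε 1, lt_min hε one_pos, min_le_right _ _, min_le_left _ _⟩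
  obtain ⟨m1, hm1⟩ := exists_nat_gt (2 / e ^ 2)
  obtain ⟨P, hP⟩ := exists_polynomial_near_of_continuousOn (-(m1 : ℝ)) m1 (fun t => max t 0)
    (by fun_prop) (1 / 12) (by norm_num)
  obtain ⟨C, hC⟩ : ∃ C : ℝ, C = ∑ j ∈ range (P.natDegree + 1), |P.coeff j| * (m1 : ℝ) ^ j :=
    ⟨_, rfl⟩
  have hC0 : 0 ≤ C := hC ▸ sum_nonneg fun j _ => by positivity
  refine ⟨max m1 P.natDegree, 1 / (4 * (C + 1)), by positivity, ?_⟩
  intro X _ _ F ν f hF hf hν
  by_contra hn
  push Not at hn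
  have key : ∀ k ≤ m1, ∃ (D : Fin k → X → ℝ) (σ : Fin k → ℝ), (∀ i, D i ∈ F) ∧
      (∀ i, |σ i| ≤ 1) ∧ Pot f (fun x => ∑ i, σ i * D i x) ≤ -(k * (e ^ 2 / 2)) := by
    intro k
    induction k with
    | zero =>
      intro _
      refine ⟨Fin.elim0, Fin.elim0, fun i => i.elim0, fun i => i.elim0, ?_⟩
      simp [Pot, Ph_zero, av_zero]
    | succ k ih =>
      intro hk
      obtain ⟨D, σ, hD, hσ, h1⟩ := ih (by omega)
      obtain ⟨φ, hφ, h2⟩ := hn k (le_max_of_le_left (by omega)) D σ hD hσ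
      obtain ⟨c, hc, h3⟩ := step f (fun x => ∑ i, σ i * D i x) φ (hF φ hφ) he0 (he.trans_lt h2)
      refine ⟨Fin.cons φ D, Fin.cons c σ, fun i => ?_, fun i => ?_, ?_⟩
      · refine Fin.cases ?_ (fun i => ?_) i
        · exact hφ
        · exact hD i
      · refine Fin.cases ?_ (fun i => ?_) i
        · exact hc.trans_le he1
        · exact hσ i
      · simp only [Fin.sum_univ_succ, Fin.cons_zero, Fin.cons_succ]
        push_cast
        linarith
  obtain ⟨D, σ, hD, hσ, h1⟩ := key m1 le_rfl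
  have hη : 1 / (4 * (C + 1)) ≤ 1 / 4 := one_div_le_one_div_of_le (by norm_num) (by linarith)
  have h2 := low (S := fun x => ∑ i, σ i * D i x) hf (fun t => P.eval t) (fun x => ?_) ?_ ?_
  · rw [div_lt_iff₀ (by positivity)] at hm1
    linarith
  · refine (hP _ (abs_le.1 ?_)).le
    refine (abs_sum_le_sum_abs _ _).trans ((sum_le_card_nsmul _ _ 1 fun i _ => ?_).trans ?_)
    · rw [abs_mul]
      exact mul_le_one₀ (hσ i) (abs_nonneg _) (hF _ (hD i) x)
    · simp
  · have h3 := hν 0 (Nat.zero_le _) Fin.elim0 fun i => i.elim0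
    simp only [univ_eq_empty, prod_empty, mul_one] at h3
    linarith
  · have e1 : (av fun x => (ν x - 1) * P.eval (∑ i, σ i * D i x)) =
        ∑ j ∈ range (P.natDegree + 1),
          P.coeff j * av fun x => (ν x - 1) * (∑ i, σ i * D i x) ^ j := by
      simp only [← av_const_mul]
      rw [← av_sum]
      refine av_congr fun x => ?_
      rw [Polynomial.eval_eq_sum_range, mul_sum]
      exact sum_congr rfl fun j _ => by ring
    rw [e1]
    refine (abs_sum_le_sum_abs _ _).trans ?_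
    calc ∑ j ∈ range (P.natDegree + 1),
          |P.coeff j * av fun x => (ν x - 1) * (∑ i, σ i * D i x) ^ j|
        ≤ ∑ j ∈ range (P.natDegree + 1), |P.coeff j| * (m1 : ℝ) ^ j * (1 / (4 * (C + 1))) := by
          refine sum_le_sum fun j hj => ?_
          rw [abs_mul, mul_assoc]
          exact mul_le_mul_of_nonneg_left (pow_le (hν j (le_max_of_le_right
            (Nat.lt_succ_iff.1 (mem_range.1 hj)))) D σ hD hσ) (abs_nonneg _)
      _ = C * (1 / (4 * (C + 1))) := by rw [← sum_mul, ← hC]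
      _ ≤ 1 / 4 := by
          rw [mul_one_div, div_le_div_iff₀ (by positivity) (by norm_num)]
          linarith

end Pool.Agent.Lib.MP_7d3fda_nt.Q3
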