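import Pool.Agent.Lib.MP_7d3fda_nt.Q3.Basic

open Finset Filter
open scoped Classical NumberTheorySymbols

noncomputable section

namespace Pool.Agent.Lib.MP_7d3fda_nt.Q3

open Pool.Agent.Lib.MP_4b8564_nt Pool.Agent.Lib.MP_4b8564_nt.GT
open Pool.Agent.Lib.MP_0a3467_an.Cv (Low)
open Pool.Agent.Lib.MP_0a3467_an

namespace BoxCSAux

variable {ι H : Type} [Fintype ι] [DecidableEq ι]

/-- the vertex `ω` of the box spanned by `h` and `h'` -/
def mix (ω : Finset ι) (h h' : ι → H) : ι → H := fun r => if r ∈ ω then h' r else h r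

lemma sum_update (S : ι → Finset H) (r : ι) (f : (ι → H) → ℝ) :
    ∑ h ∈ Fintype.piFinset S, ∑ a ∈ S r, f (Function.update h r a) =
      (S r).card * ∑ h ∈ Fintype.piFinset S, f h := by
  have e : ((S r).card : ℝ) * ∑ h ∈ Fintype.piFinset S, f h =
      ∑ h ∈ Fintype.piFinset S, ∑ _a ∈ S r, f h := by
    rw [mul_sum]; simp
  have mem : ∀ p ∈ Fintype.piFinset S ×ˢ S r,
      (Function.update p.1 r p.2, p.1 r) ∈ Fintype.piFinset S ×ˢ S r := by
    intro p hp
    rw [mem_product, Fintype.mem_piFinset] at hp ⊢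
    refine ⟨fun i => ?_, hp.1 r⟩
    by_cases hi : i = r
    · subst hi; simpa using hp.2
    · simpa [Function.update_of_ne hi] using hp.1 i
  rw [e, ← sum_product', ← sum_product']
  refine sum_nbij' (fun p => (Function.update p.1 r p.2, p.1 r))
    (fun p => (Function.update p.1 r p.2, p.1 r)) mem mem ?_ ?_ ?_
  · intro p _; simp
  · intro p _; simp
  · intro p _; rfl

lemma cs_core (S : ι → Finset H) (r : ι) (G Φ : (ι → H) → (ι → H) → ℝ)
    (hΦ : ∀ h h', |Φ h h'| ≤ 1) (hΦr : ∀ h h' a, Φ (Function.update h r a) h' = Φ h h')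
    (hG : ∀ h h' a, G h (Function.update h' r a) = G h h') :
    (∑ h ∈ Fintype.piFinset S, ∑ h' ∈ Fintype.piFinset S, G h h' * Φ h h') ^ 2 ≤
      ((Fintype.piFinset S).card : ℝ) ^ 2 *
        ∑ h ∈ Fintype.piFinset S, ∑ h' ∈ Fintype.piFinset S,
          G h h' * G (Function.update h r (h' r)) h' := by
  set P := Fintype.piFinset S with hP
  rcases (S r).eq_empty_or_nonempty with h0 | h0
  · have : P = ∅ := by
      rw [hP, Fintype.piFinset_eq_empty]; exact ⟨r, h0⟩
    simp [this]
  have hs : (0 : ℝ) < (S r).card := by exact_mod_cast h0.card_pos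
  let g : (ι → H) → (ι → H) → ℝ := fun h h' => ∑ a ∈ S r, G (Function.update h r a) h'
  have e1 : ((S r).card : ℝ) * ∑ h ∈ P, ∑ h' ∈ P, G h h' * Φ h h' =
      ∑ p ∈ P ×ˢ P, Φ p.1 p.2 * g p.1 p.2 := by
    rw [← sum_update S r fun h => ∑ h' ∈ P, G h h' * Φ h h', sum_product]
    refine sum_congr rfl fun h _ => ?_
    rw [sum_comm]
    refine sum_congr rfl fun h' _ => ?_
    simp only [g, mul_sum, hΦr]
    exact sum_congr rfl fun a _ => mul_comm _ _
  have e2 : ((S r).card : ℝ) ^ 2 *
      ∑ h ∈ P, ∑ h' ∈ P, G h h' * G (Function.update h r (h' r)) h' =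
      ∑ p ∈ P ×ˢ P, g p.1 p.2 ^ 2 := by
    rw [sq, mul_assoc, mul_sum]
    rw [sum_congr rfl fun h _ =>
      (sum_update S r fun h' => G h h' * G (Function.update h r (h' r)) h').symm]
    rw [← sum_update S r fun h => ∑ h' ∈ P, ∑ a ∈ S r, G h (Function.update h' r a) *
      G (Function.update h r (Function.update h' r a r)) (Function.update h' r a), sum_product]
    refine sum_congr rfl fun h _ => ?_
    rw [sum_comm]
    refine sum_congr rfl fun h' _ => ?_
    simp only [g, sq, sum_mul_sum, hG, Function.update_self, Function.update_idem]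
  have e3 : ∑ p ∈ P ×ˢ P, Φ p.1 p.2 ^ 2 ≤ (P.card : ℝ) ^ 2 := by
    calc ∑ p ∈ P ×ˢ P, Φ p.1 p.2 ^ 2 ≤ ∑ _p ∈ P ×ˢ P, (1 : ℝ) :=
          sum_le_sum fun p _ => (sq_le_one_iff_abs_le_one _).mpr (hΦ _ _)
      _ = _ := by simp [sq]
  have e4 := sum_mul_sq_le_sq_mul_sq (P ×ˢ P) (fun p => Φ p.1 p.2) fun p => g p.1 p.2
  have e5 : 0 ≤ ∑ p ∈ P ×ˢ P, g p.1 p.2 ^ 2 := sum_nonneg fun _ _ => sq_nonneg _
  rw [← e1] at e4
  have e6 := e4.trans (mul_le_mul_of_nonneg_right e3 e5)
  rw [← e2, mul_pow, mul_left_comm] at e6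
  exact le_of_mul_le_mul_left e6 (by positivity)

/-- the sum with the coordinates in `J` doubled -/
def TT (S : ι → Finset H) (V : (ι → H) → ℝ) (F : ι → (ι → H) → ℝ) (J : Finset ι) : ℝ :=
  ∑ h ∈ Fintype.piFinset S, ∑ h' ∈ Fintype.piFinset S,
    ∏ ω ∈ J.powerset, (V (mix ω h h') * ∏ i ∈ Jᶜ, F i (mix ω h h'))

lemma step (S : ι → Finset H) (V : (ι → H) → ℝ) (F : ι → (ι → H) → ℝ) (hF : AdmI F)
    (J : Finset ι) (r : ι) (hr : r ∉ J) :
    TT S V F J ^ 2 ≤ ((Fintype.piFinset S).card : ℝ) ^ 2 * TT S V F (insert r J) := by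
  have m1 : ∀ ω ∈ J.powerset, ∀ (h h' : ι → H) (a : H),
      mix ω (Function.update h r a) h' = Function.update (mix ω h h') r a := by
    intro ω hω h h' a
    have : r ∉ ω := fun h => hr (mem_powerset.mp hω h)
    funext i
    by_cases hi : i = r
    · subst hi; simp [mix, this]
    · simp [mix, Function.update_of_ne hi]
  have m2 : ∀ ω ∈ J.powerset, ∀ (h h' : ι → H) (a : H),
      mix ω h (Function.update h' r a) = mix ω h h' := by
    intro ω hω h h' a
    have : r ∉ ω := fun h => hr (mem_powerset.mp hω h)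
    funext i
    by_cases hi : i = r
    · subst hi; simp [mix, this]
    · simp [mix, Function.update_of_ne hi]
  have m3 : ∀ ω ∈ J.powerset, ∀ (h h' : ι → H),
      mix (insert r ω) h h' = mix ω (Function.update h r (h' r)) h' := by
    intro ω hω h h'
    have : r ∉ ω := fun h => hr (mem_powerset.mp hω h)
    funext i
    by_cases hi : i = r
    · subst hi; simp [mix, this]
    · simp [mix, hi]
  have hc : Jᶜ = insert r (insert r J)ᶜ := by
    ext i
    by_cases hi : i = r
    · subst hi; simp [hr]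
    · simp [hi]
  have := cs_core S r
    (fun h h' => ∏ ω ∈ J.powerset, (V (mix ω h h') * ∏ i ∈ (insert r J)ᶜ, F i (mix ω h h')))
    (fun h h' => ∏ ω ∈ J.powerset, F r (mix ω h h'))
    (fun h h' => by
      rw [abs_prod]
      exact prod_le_one (fun _ _ => abs_nonneg _) fun _ _ => hF.1 _ _)
    (fun h h' a => prod_congr rfl fun ω hω => by rw [m1 ω hω, hF.2])
    (fun h h' a => prod_congr rfl fun ω hω => by rw [m2 ω hω])
  convert this using 2
  · refine sum_congr rfl fun h _ => sum_congr rfl fun h' _ => ?_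
    rw [← prod_mul_distrib]
    refine prod_congr rfl fun ω _ => ?_
    rw [hc, prod_insert (by simp)]
    ring
  · refine sum_congr rfl fun h _ => sum_congr rfl fun h' _ => ?_
    rw [prod_powerset_insert hr]
    congr 1
    exact prod_congr rfl fun ω hω => by rw [m3 ω hω]

lemma iter (S : ι → Finset H) (V : (ι → H) → ℝ) (F : ι → (ι → H) → ℝ) (hF : AdmI F)
    (hP : (0 : ℝ) < (Fintype.piFinset S).card) (J : Finset ι) :
    |TT S V F ∅ / ((Fintype.piFinset S).card : ℝ) ^ 2| ^ 2 ^ J.card ≤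
      |TT S V F J / ((Fintype.piFinset S).card : ℝ) ^ 2| := by
  induction J using Finset.induction_on with
  | empty => simp
  | insert r J hr ih =>
    rw [card_insert_of_notMem hr, pow_succ 2 J.card, pow_mul]
    refine (pow_le_pow_left₀ (by positivity) ih 2).trans ?_
    rw [sq_abs, div_pow]
    refine le_trans ?_ (le_abs_self _)
    rw [div_le_div_iff₀ (by positivity) (by positivity)]
    have := mul_le_mul_of_nonneg_right (step S V F hF J r hr)
      (show (0 : ℝ) ≤ ((Fintype.piFinset S).card : ℝ) ^ 2 by positivity)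
    refine this.trans_eq (by ring)

end BoxCSAux

open BoxCSAux in
theorem stBoxCS : StBoxCS := by
  intro ι H _ _ hne S V F hF
  have hcard : ∏ r, ((S r).card : ℝ) = ((Fintype.piFinset S).card : ℝ) := by
    rw [Fintype.card_piFinset]; push_cast; rfl
  rw [hcard]
  rcases (Fintype.piFinset S).eq_empty_or_nonempty with h0 | h0
  · simp [h0]
  have hP : (0 : ℝ) < (Fintype.piFinset S).card := by exact_mod_cast h0.card_pos
  obtain ⟨r⟩ := hne
  have hu : TT S V F univ = ∑ h ∈ Fintype.piFinset S, ∑ h' ∈ Fintype.piFinset S,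
      ∏ ω : Finset ι, V fun r => if r ∈ ω then h' r else h r := by
    simp only [TT, compl_univ, prod_empty, mul_one, powerset_univ]
    rfl
  have he : TT S V F ∅ = ((Fintype.piFinset S).card : ℝ) *
      ∑ h ∈ Fintype.piFinset S, V h * ∏ r, F r h := by
    have : ∀ h h' : ι → H, mix ∅ h h' = h := fun h h' => by funext i; simp [mix]
    simp only [TT, powerset_empty, prod_singleton, compl_empty, this, sum_const, nsmul_eq_mul,
      mul_sum]
  have h1 := step S V F hF (univ.erase r) r (notMem_erase _ _)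
  rw [insert_erase (mem_univ r)] at h1
  have h2 : 0 ≤ TT S V F univ :=
    le_of_mul_le_mul_left (by simpa using (sq_nonneg _).trans h1)
      (show (0 : ℝ) < ((Fintype.piFinset S).card : ℝ) ^ 2 by positivity)
  have h3 := iter S V F hF hP univ
  rw [abs_of_nonneg (div_nonneg h2 (by positivity)), he, card_univ] at h3
  rw [← hu]
  generalize ((Fintype.piFinset S).card : ℝ) = N at *
  generalize ∑ h ∈ Fintype.piFinset S, V h * ∏ r, F r h = A at *
  have h4 : 2 ≤ 2 ^ Fintype.card ι := by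
    have : 1 ≤ Fintype.card ι := Fintype.card_pos_iff.mpr ⟨r⟩
    simpa using Nat.pow_le_pow_right (show 0 < 2 by norm_num) this
  obtain ⟨k, hk⟩ := Nat.exists_eq_add_of_le h4
  rw [hk] at h3 ⊢
  rw [show N * A / N ^ 2 = A / N by field_simp, abs_div, abs_of_pos hP, div_pow,
    div_le_div_iff₀ (by positivity) (by positivity)] at h3
  rw [Nat.add_sub_cancel_left]
  refine le_of_mul_le_mul_right (h3.trans_eq (by ring)) (show (0 : ℝ) < N ^ 2 by positivity)

end Pool.Agent.Lib.MP_7d3fda_nt.Q3
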