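import Pool.Agent.Lib.MP_7d3fda_nt.Q3.Dns

open Finset Filter
open scoped Classical NumberTheorySymbols

noncomputable section

namespace Pool.Agent.Lib.MP_7d3fda_nt.Q3

open Pool.Agent.Lib.MP_4b8564_nt Pool.Agent.Lib.MP_4b8564_nt.GT

/-! The pure sieve. -/

namespace BrunAux

/-- elementary symmetric function -/
def es (s : Finset ℕ) (x : ℕ → ℝ) (j : ℕ) : ℝ :=
  ∑ U ∈ s.powerset, if U.card = j then ∏ p ∈ U, x p else 0

/-- truncated inclusion and exclusion -/
def tr (s : Finset ℕ) (x : ℕ → ℝ) (k : ℕ) : ℝ :=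
  ∑ U ∈ s.powerset, if U.card ≤ k then (-1) ^ U.card * ∏ p ∈ U, x p else 0

variable {s : Finset ℕ} {x : ℕ → ℝ} {a : ℕ}

theorem es_zero (s : Finset ℕ) (x : ℕ → ℝ) : es s x 0 = 1 := by
  simp only [es, card_eq_zero]
  rw [sum_ite_eq', if_pos (empty_mem_powerset s), prod_empty]

theorem tr_zero (s : Finset ℕ) (x : ℕ → ℝ) : tr s x 0 = 1 := by
  simp only [tr, Nat.le_zero, card_eq_zero]
  rw [sum_ite_eq', if_pos (empty_mem_powerset s)]
  simp

theorem es_empty (x : ℕ → ℝ) (j : ℕ) : es ∅ x (j + 1) = 0 := by simp [es]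

theorem tr_empty (x : ℕ → ℝ) (k : ℕ) : tr ∅ x k = 1 := by simp [tr]

theorem es_insert (ha : a ∉ s) (j : ℕ) :
    es (insert a s) x (j + 1) = es s x (j + 1) + x a * es s x j := by
  rw [es, sum_powerset_insert ha, es, es, mul_sum]
  congr 1
  refine sum_congr rfl fun U hU => ?_
  have hU' : a ∉ U := fun h => ha (mem_powerset.1 hU h)
  rw [card_insert_of_notMem hU', prod_insert hU']
  simp only [Nat.add_right_cancel_iff, mul_ite, mul_zero]

theorem tr_insert (ha : a ∉ s) (k : ℕ) :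
    tr (insert a s) x (k + 1) = tr s x (k + 1) - x a * tr s x k := by
  rw [tr, sum_powerset_insert ha, tr, tr, mul_sum, sub_eq_add_neg, ← sum_neg_distrib]
  congr 1
  refine sum_congr rfl fun U hU => ?_
  have hU' : a ∉ U := fun h => ha (mem_powerset.1 hU h)
  rw [card_insert_of_notMem hU', prod_insert hU']
  simp only [Nat.add_le_add_iff_right]
  split_ifs
  · ring
  · simp

theorem es_nonneg (h : ∀ p ∈ s, 0 ≤ x p) (j : ℕ) : 0 ≤ es s x j :=
  sum_nonneg fun U hU => by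
    split_ifs
    exacts [prod_nonneg fun p hp => h p (mem_powerset.1 hU hp), le_rfl]

/-- the inequalities of Bonferroni -/
theorem bonf (h : ∀ p ∈ s, 0 ≤ x p ∧ x p ≤ 1) (k : ℕ) :
    |∏ p ∈ s, (1 - x p) - tr s x k| ≤ es s x (k + 1) := by
  induction s using Finset.induction_on generalizing k with
  | empty => simp [tr_empty, es_empty]
  | insert a s ha ih =>
    have h' : ∀ p ∈ s, 0 ≤ x p ∧ x p ≤ 1 := fun p hp => h p (mem_insert_of_mem hp)
    have h0 := (h a (mem_insert_self a s)).1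
    rw [prod_insert ha, es_insert ha]
    rcases k with _ | k
    · have h1 := ih h' 0
      have h2 : 0 ≤ ∏ p ∈ s, (1 - x p) := prod_nonneg fun p hp => sub_nonneg.2 (h' p hp).2
      have h3 : ∏ p ∈ s, (1 - x p) ≤ 1 :=
        prod_le_one (fun p hp => sub_nonneg.2 (h' p hp).2) fun p hp => sub_le_self _ (h' p hp).1
      rw [tr_zero] at h1 ⊢
      rw [es_zero, abs_le] at *
      constructor <;> nlinarith [mul_nonneg h0 h2, mul_le_mul_of_nonneg_left h3 h0]
    · have h1 := abs_le.1 (ih h' (k + 1))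
      have h2 := abs_le.1 (ih h' k)
      rw [tr_insert ha, abs_le]
      constructor <;>
        nlinarith [mul_le_mul_of_nonneg_left h2.1 h0, mul_le_mul_of_nonneg_left h2.2 h0]

theorem es_le_pow (h : ∀ p ∈ s, 0 ≤ x p) (j : ℕ) : es s x j ≤ (∑ p ∈ s, x p) ^ j := by
  induction s using Finset.induction_on generalizing j with
  | empty =>
    rcases j with _ | j
    · simp [es_zero]
    · simp [es_empty]
  | insert a s ha ih =>
    have h' : ∀ p ∈ s, 0 ≤ x p := fun p hp => h p (mem_insert_of_mem hp)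
    have h0 := h a (mem_insert_self a s)
    have hm : 0 ≤ ∑ p ∈ s, x p := sum_nonneg h'
    rcases j with _ | j
    · simp [es_zero]
    · rw [es_insert ha, sum_insert ha, pow_succ]
      have h1 := ih h' (j + 1)
      have h2 := mul_le_mul_of_nonneg_left (ih h' j) h0
      have h3 : (∑ p ∈ s, x p) ^ j ≤ (x a + ∑ p ∈ s, x p) ^ j :=
        pow_le_pow_left₀ hm (by linarith) j
      have h4 := mul_le_mul_of_nonneg_right h3 (add_nonneg h0 hm)
      rw [pow_succ] at h1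
      nlinarith

theorem es_small (h : ∀ p ∈ s, 0 ≤ x p) {k : ℕ} (hk : 8 * ∑ p ∈ s, x p ≤ k) :
    es s x (k + 1) ≤ (1 / 2) ^ k := by
  have h1 : 8 ^ (k + 1) * es s x (k + 1) ≤ ∏ p ∈ s, (1 + 8 * x p) := by
    rw [prod_one_add, es, mul_sum]
    refine sum_le_sum fun U hU => ?_
    have h0 : 0 ≤ ∏ p ∈ U, 8 * x p :=
      prod_nonneg fun p hp => mul_nonneg (by norm_num) (h p (mem_powerset.1 hU hp))
    split_ifs with hc
    · rw [prod_mul_distrib, prod_const, hc]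
    · rwa [mul_zero]
  have h2 : ∏ p ∈ s, (1 + 8 * x p) ≤ Real.exp k := by
    refine (prod_le_prod (fun p hp => by linarith [h p hp])
      fun p _ => (add_comm _ _).trans_le (Real.add_one_le_exp (8 * x p))).trans ?_
    rw [← Real.exp_sum, Real.exp_le_exp, ← mul_sum]
    exact hk
  have h3 : Real.exp k ≤ 4 ^ k := by
    rw [← mul_one (k : ℝ), Real.exp_nat_mul]
    exact pow_le_pow_left₀ (Real.exp_pos 1).le (by linarith [Real.exp_one_lt_d9]) k
  have h4 : (4 : ℝ) ^ k = 8 ^ k * (1 / 2) ^ k := by rw [← mul_pow]; norm_num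
  have h5 : (0 : ℝ) < 8 ^ k := by positivity
  have h6 := mul_nonneg h5.le (es_nonneg h (k + 1))
  refine le_of_mul_le_mul_left ?_ h5
  rw [pow_succ] at h1
  linarith

theorem sum_le_card (s : Finset ℕ) (x : ℕ → ℝ) (k : ℕ) :
    (∑ U ∈ s.powerset, if U.card ≤ k then ∏ p ∈ U, x p else 0) =
      ∑ j ∈ range (k + 1), es s x j := by
  simp only [es]
  rw [sum_comm]
  refine sum_congr rfl fun U _ => ?_
  rw [sum_ite_eq]
  simp only [mem_range, Nat.lt_succ_iff]

theorem es_id {y k j : ℕ} (h : ∀ p ∈ s, p.Prime ∧ p ≤ y) (hy : 1 ≤ y) (hj : j ≤ k + 1) :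
    es s (fun p => (p : ℝ)) j ≤ (y : ℝ) ^ (2 * k + 2) := by
  have hy' : (1 : ℝ) ≤ y := by exact_mod_cast hy
  have h1 : s.card ≤ y := by
    have : s ⊆ Icc 1 y := fun p hp => mem_Icc.2 ⟨(h p hp).1.pos, (h p hp).2⟩
    simpa using card_le_card this
  have h2 : ∑ p ∈ s, (p : ℝ) ≤ (y : ℝ) ^ 2 := by
    refine (sum_le_card_nsmul s _ (y : ℝ) fun p hp => by exact_mod_cast (h p hp).2).trans ?_
    rw [nsmul_eq_mul, sq]
    exact mul_le_mul_of_nonneg_right (by exact_mod_cast h1) (by positivity)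
  refine (es_le_pow (fun p _ => Nat.cast_nonneg p) j).trans
    ((pow_le_pow_left₀ (sum_nonneg fun p _ => Nat.cast_nonneg p) h2 j).trans ?_)
  rw [← pow_mul]
  exact pow_le_pow_right₀ hy' (by omega)

variable {V : Type} [Fintype V] [DecidableEq V]

theorem bav_perM {q L : ℕ} (hq : 0 < q) (hL : 0 < L) {F : (V → ℤ) → ℝ} (hF : Per q F) {M : ℝ}
    (h : ∀ x, |F x| ≤ M) : |bav L F - bav q F| ≤ M * (2 * Fintype.card V * q / L) := by
  rcases ((abs_nonneg _).trans (h 0)).eq_or_lt with hM | hM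
  · have e : F = fun _ => 0 := funext fun x => abs_nonpos_iff.1 (hM ▸ h x)
    rw [e, bav_const hL, bav_const hq, ← hM]
    simp
  · have h1 := bav_per q L hq hL (fun x => M⁻¹ * F x) (fun x y hxy => congrArg (M⁻¹ * ·) (hF x y hxy))
      fun x => by
        rw [abs_mul, abs_of_pos (inv_pos.2 hM), inv_mul_le_iff₀ hM, mul_one]
        exact h x
    rwa [bav_const_mul, bav_const_mul, ← mul_sub, abs_mul, abs_of_pos (inv_pos.2 hM),
      inv_mul_le_iff₀ hM] at h1

theorem loc {U : Finset ℕ} {I : ℕ → (V → ℤ) → ℝ} {Φ : (V → ℤ) → ℝ} {d L : ℕ} {M : ℝ}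
    (hU : ∀ p ∈ U, p.Prime ∧ ¬p ∣ d) (hd : 0 < d) (hL : 0 < L) (hI : ∀ p ∈ U, Per p (I p))
    (hI1 : ∀ p h, 0 ≤ I p h ∧ I p h ≤ 1) (hΦ : Per d Φ) (hM : ∀ h, |Φ h| ≤ M) :
    |bav L (fun h => (∏ p ∈ U, I p h) * Φ h) - (∏ p ∈ U, bav p (I p)) * bav d Φ| ≤
      M * (2 * Fintype.card V * d / L) * ∏ p ∈ U, (p : ℝ) := by
  have hq : 0 < ∏ p ∈ U, p := prod_pos fun p hp => (hU p hp).1.pos
  have hc : (∏ p ∈ U, p).Coprime d :=
    Nat.Coprime.prod_left fun p hp => (Nat.Prime.coprime_iff_not_dvd (hU p hp).1).2 (hU p hp).2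
  have hP := CrtAux.per_prod U I hI
  rw [← bav_crt U (fun p hp => (hU p hp).1) I hI, ← CrtAux.two _ d hq hd hc _ _ hP hΦ]
  refine (bav_perM (M := M) (Nat.mul_pos hq hd) hL (fun x y hxy => ?_) fun x => ?_).trans
    (le_of_eq ?_)
  · have h1 := hP x y fun v => (Int.natCast_dvd_natCast.2 (Dvd.intro _ rfl)).trans (hxy v)
    have h2 := hΦ x y fun v => (Int.natCast_dvd_natCast.2 (Dvd.intro_left _ rfl)).trans (hxy v)
    exact congrArg₂ (· * ·) h1 h2
  · rw [abs_mul, abs_of_nonneg (prod_nonneg fun p _ => (hI1 p x).1)]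
    exact (mul_le_of_le_one_left (abs_nonneg _)
      (prod_le_one (fun p _ => (hI1 p x).1) fun p _ => (hI1 p x).2)).trans (hM x)
  · push_cast
    ring

theorem core {P : Finset ℕ} {I : ℕ → (V → ℤ) → ℝ} {Φ : (V → ℤ) → ℝ} {d y k L : ℕ} {M : ℝ}
    (hP : ∀ p ∈ P, p.Prime ∧ p ≤ y ∧ ¬p ∣ d) (hd : 0 < d) (hy : 1 ≤ y) (hL : 0 < L)
    (hI : ∀ p ∈ P, Per p (I p)) (hI1 : ∀ p h, 0 ≤ I p h ∧ I p h ≤ 1) (hΦ : Per d Φ)
    (hM : ∀ h, |Φ h| ≤ M) (hk : 8 * ∑ p ∈ P, bav p (I p) ≤ k) :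
    |bav L (fun h => (∏ p ∈ P, (1 - I p h)) * Φ h) - (∏ p ∈ P, (1 - bav p (I p))) * bav d Φ| ≤
      M * (2 * (1 / 2) ^ k +
        (2 * Fintype.card V * d / L) * ((k + 2) * (y : ℝ) ^ (2 * k + 2))) := by
  have hM0 : 0 ≤ M := (abs_nonneg _).trans (hM 0)
  have hρ : ∀ p ∈ P, 0 ≤ bav p (I p) ∧ bav p (I p) ≤ 1 := fun p hp =>
    ⟨bav_nonneg fun h => (hI1 p h).1,
      (bav_mono fun h => (hI1 p h).2).trans_eq (bav_const (hP p hp).1.pos 1)⟩
  have hsm := es_small (fun p hp => (hρ p hp).1) hk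
  have hid : ∀ j ≤ k + 1, es P (fun p => (p : ℝ)) j ≤ (y : ℝ) ^ (2 * k + 2) := fun j hj =>
    es_id (fun p hp => ⟨(hP p hp).1, (hP p hp).2.1⟩) hy hj
  set c : ℝ := 2 * Fintype.card V * d / L with hc
  have hc0 : 0 ≤ c := by positivity
  set Y : ℝ := (y : ℝ) ^ (2 * k + 2)
  have hloc : ∀ (Ψ : (V → ℤ) → ℝ) (N : ℝ), Per d Ψ → (∀ h, |Ψ h| ≤ N) → ∀ U ∈ P.powerset,
      |bav L (fun h => (∏ p ∈ U, I p h) * Ψ h) - (∏ p ∈ U, bav p (I p)) * bav d Ψ| ≤
        N * c * ∏ p ∈ U, (p : ℝ) := fun Ψ N h1 h2 U hU =>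
    loc (fun p hp => ⟨(hP p (mem_powerset.1 hU hp)).1, (hP p (mem_powerset.1 hU hp)).2.2⟩) hd hL
      (fun p hp => hI p (mem_powerset.1 hU hp)) hI1 h1 h2
  have e1 : bav L (fun h => es P (fun p => I p h) (k + 1)) ≤ (1 / 2) ^ k + c * Y := by
    refine le_trans ?_ (add_le_add hsm (mul_le_mul_of_nonneg_left (hid _ le_rfl) hc0))
    simp only [es]
    rw [bav_sum, mul_sum, ← sum_add_distrib]
    refine sum_le_sum fun U hU => ?_
    split_ifs
    · have := (abs_le.1 (hloc (fun _ => 1) 1 (fun _ _ _ => rfl) (fun _ => by simp) U hU)).2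
      simp only [mul_one, one_mul, bav_const hd] at this
      linarith
    · rw [bav_const hL]; simp
  have a1 : |bav L (fun h => (∏ p ∈ P, (1 - I p h)) * Φ h) -
      bav L (fun h => tr P (fun p => I p h) k * Φ h)| ≤ M * ((1 / 2) ^ k + c * Y) := by
    rw [← bav_sub]
    refine (abs_av_le _).trans (le_trans ?_ (mul_le_mul_of_nonneg_left e1 hM0))
    rw [← bav_const_mul]
    refine av_mono fun h => ?_
    beta_reduce
    rw [← sub_mul, abs_mul, mul_comm]
    exact mul_le_mul (hM _) (bonf (fun p _ => hI1 p _) k) (abs_nonneg _) hM0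
  have a2 : |bav L (fun h => tr P (fun p => I p h) k * Φ h) -
      tr P (fun p => bav p (I p)) k * bav d Φ| ≤ M * c * ((k + 1) * Y) := by
    have h1 : ∑ j ∈ range (k + 1), es P (fun p => (p : ℝ)) j ≤ (k + 1) * Y := by
      refine (sum_le_card_nsmul _ _ Y fun j hj => hid j (mem_range.1 hj).le).trans_eq ?_
      simp
    refine le_trans ?_ (mul_le_mul_of_nonneg_left h1 (mul_nonneg hM0 hc0))
    simp only [tr, sum_mul]
    rw [bav_sum, ← sum_sub_distrib, ← sum_le_card, mul_sum]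
    refine (abs_sum_le_sum_abs _ _).trans (sum_le_sum fun U hU => ?_)
    split_ifs
    · simp only [mul_assoc ((-1 : ℝ) ^ U.card)]
      rw [bav_const_mul, ← mul_sub, abs_mul, abs_pow, abs_neg, abs_one, one_pow, one_mul]
      exact hloc Φ M hΦ hM U hU
    · simp only [zero_mul]
      rw [bav_const hL]; simp
  have a3 : |tr P (fun p => bav p (I p)) k * bav d Φ -
      (∏ p ∈ P, (1 - bav p (I p))) * bav d Φ| ≤ M * (1 / 2) ^ k := by
    have : Nonempty (Fin d) := ⟨⟨0, hd⟩⟩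
    rw [← sub_mul, abs_mul, abs_sub_comm, mul_comm]
    exact mul_le_mul (abs_av_le_of_le fun _ => hM _) ((bonf hρ k).trans hsm) (abs_nonneg _) hM0
  refine (abs_sub_le _ _ _).trans ((add_le_add a1 ((abs_sub_le _ _ _).trans
    (add_le_add a2 a3))).trans (le_of_eq ?_))
  ring

end BrunAux

theorem stBrun : StBrun := by
  intro V _ _ P E Φ d y k L M hP hd hy hL hE hΦ hM hk
  have hM0 : 0 ≤ M := (abs_nonneg _).trans (hM 0)
  have h := BrunAux.core (I := fun p h => if E p h then 1 else 0) hP hd hy hL hE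
    (fun p h => by split_ifs <;> norm_num) hΦ hM hk
  have e : ∀ h, (if ∀ p ∈ P, ¬E p h then (1 : ℝ) else 0) =
      ∏ p ∈ P, (1 - if E p h then (1 : ℝ) else 0) := fun h => by
    split_ifs with hh
    · exact (prod_eq_one fun p hp => by rw [if_neg (hh p hp), sub_zero]).symm
    · push Not at hh
      obtain ⟨p, hp, hE⟩ := hh
      exact (prod_eq_zero hp (by rw [if_pos hE, sub_self])).symm
  simp only [e]
  refine h.trans (mul_le_mul_of_nonneg_left (add_le_add ?_ ?_) hM0)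
  · exact mul_le_mul_of_nonneg_right (by norm_num) (by positivity)
  · have h0 : 0 ≤ ((k : ℝ) + 2) * Fintype.card V * (y : ℝ) ^ (2 * k + 2) * d / L := by positivity
    calc _ = 2 * (((k : ℝ) + 2) * Fintype.card V * (y : ℝ) ^ (2 * k + 2) * d / L) := by ring
      _ ≤ 8 * (((k : ℝ) + 2) * Fintype.card V * (y : ℝ) ^ (2 * k + 2) * d / L) := by linarith
      _ = _ := by ring

end Pool.Agent.Lib.MP_7d3fda_nt.Q3
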