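import Pool.Agent.Lib.MP_7d3fda_nt.Q3.Basic

open Finset Filter
open scoped Classical NumberTheorySymbols

noncomputable section

namespace Pool.Agent.Lib.MP_7d3fda_nt.Q3

open Pool.Agent.Lib.MP_4b8564_nt Pool.Agent.Lib.MP_4b8564_nt.GT
open Pool.Agent.Lib.MP_0a3467_an.Cv (Low)
open Pool.Agent.Lib.MP_0a3467_an

namespace CStepAux

variable {ι : Type} [Fintype ι] [DecidableEq ι]

/-- an integer box -/
def Bx (L : ι → ℕ) : Finset (ι → ℤ) := Fintype.piFinset fun r => Ico (0 : ℤ) (L r)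

theorem mem_Bx {L : ι → ℕ} {h : ι → ℤ} : h ∈ Bx L ↔ ∀ r, 0 ≤ h r ∧ h r < L r := by
  simp [Bx, Fintype.mem_piFinset]

theorem card_Bx (L : ι → ℕ) : ((Bx L).card : ℝ) = ∏ r, (L r : ℝ) := by simp [Bx]

theorem sum_Bx (L : ι → ℕ) (Φ : (ι → ℤ) → ℝ) :
    ∑ h ∈ Fintype.piFinset (fun r => range (L r)), Φ (fun r => (h r : ℤ)) = ∑ h ∈ Bx L, Φ h := by
  refine sum_nbij' (fun h r => (h r : ℤ)) (fun h r => (h r).toNat) (fun h hh => ?_)
    (fun h hh => ?_) (fun h _ => ?_) (fun h hh => ?_) fun _ _ => rfl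
  · refine mem_Bx.2 fun r => ?_
    have := mem_range.1 (Fintype.mem_piFinset.1 hh r)
    omega
  · refine Fintype.mem_piFinset.2 fun r => mem_range.2 ?_
    have := mem_Bx.1 hh r
    omega
  · funext r
    simp
  · funext r
    exact Int.toNat_of_nonneg (mem_Bx.1 hh r).1

/-- the product over a cube -/
def cube (u : ℤ → ℝ) (b : ι → ℤ) (x : ℤ) (h h' : ι → ℤ) : ℝ :=
  ∏ ω : Finset ι, u (x + ∑ r, b r * if r ∈ ω then h' r else h r)

theorem boxN_eq (N : ℕ) (u : ℤ → ℝ) (b : ι → ℤ) (L : ι → ℕ) : boxN N u b L =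
    (∑ᶠ x : ℤ, ∑ z ∈ Bx L ×ˢ Bx L, cube u b x z.1 z.2) / (N * (∏ r, (L r : ℝ)) ^ 2) := by
  unfold boxN
  congr 2
  funext x
  rw [sum_product, ← sum_Bx]
  refine sum_congr rfl fun h _ => ?_
  rw [← sum_Bx]
  refine sum_congr rfl fun h' _ => prod_congr rfl fun ω _ => ?_
  congr 2
  refine sum_congr rfl fun r _ => ?_
  split_ifs <;> rfl

omit [Fintype ι] in
theorem wei (s : Finset ι) (e : ι → ℝ) (h0 : ∀ r, 0 ≤ e r) (h1 : ∀ r, e r ≤ 1) :
    1 - ∑ r ∈ s, e r ≤ ∏ r ∈ s, (1 - e r) := by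
  induction s using Finset.induction_on with
  | empty => simp
  | insert r s hr ih =>
    rw [sum_insert hr, prod_insert hr]
    have h2 : 0 ≤ ∑ r ∈ s, e r := sum_nonneg fun r _ => h0 r
    nlinarith [mul_le_mul_of_nonneg_left ih (sub_nonneg.2 (h1 r)), mul_nonneg (h0 r) h2]

theorem shift {L : ι → ℕ} (hL : ∀ r, 0 < L r) (a : ι → ℤ) (Φ : (ι → ℤ) → ℝ) {B : ℝ}
    (hΦ : ∀ h, |Φ h| ≤ B) : ∑ h ∈ Bx L, Φ h ≤ ∑ h ∈ Bx L, Φ (h + a) +
      2 * B * (∏ r, (L r : ℝ)) * ∑ r, |(a r : ℝ)| / L r := by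
  have hB : 0 ≤ B := (abs_nonneg _).trans (hΦ 0)
  obtain ⟨A, hA⟩ : ∃ A, A = Fintype.piFinset fun r => Ico (a r) (L r + a r) := ⟨_, rfl⟩
  have e1 : ∑ h ∈ Bx L, Φ (h + a) = ∑ h ∈ A, Φ h := by
    refine sum_nbij' (· + a) (· - a) (fun h hh => ?_) (fun h hh => ?_) (fun h _ => by simp)
      (fun h _ => by simp) fun _ _ => rfl
    · rw [hA]
      refine Fintype.mem_piFinset.2 fun r => mem_Ico.2 ?_
      have := mem_Bx.1 hh r
      simp only [Pi.add_apply]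
      omega
    · rw [hA] at hh
      refine mem_Bx.2 fun r => ?_
      have := mem_Ico.1 (Fintype.mem_piFinset.1 hh r)
      simp only [Pi.sub_apply]
      omega
  have e2 : (A.card : ℝ) = ∏ r, (L r : ℝ) := by simp [hA]
  have hL' : ∀ r, (0 : ℝ) < L r := fun r => by exact_mod_cast hL r
  have e3 : (∏ r, (L r : ℝ)) * (1 - ∑ r, |(a r : ℝ)| / L r) ≤ (Bx L ∩ A).card := by
    obtain ⟨c, hc⟩ : ∃ c : ι → ℕ, ∀ r,
        c r = (Ico (0 : ℤ) (L r) ∩ Ico (a r) (L r + a r)).card := ⟨_, fun _ => rfl⟩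
    have c1 : ∀ r, c r ≤ L r ∧ (L r : ℤ) - |a r| ≤ c r := fun r => by
      rw [hc, Ico_inter_Ico, Int.card_Ico]
      rcases abs_cases (a r) with h | h <;> omega
    have c2 : ((Bx L ∩ A).card : ℝ) = ∏ r, (c r : ℝ) := by
      rw [hA, Bx, ← Fintype.piFinset_inter, Fintype.card_piFinset, Nat.cast_prod]
      exact prod_congr rfl fun r _ => by rw [hc]
    have c3 := wei univ (fun r => 1 - (c r : ℝ) / L r)
      (fun r => sub_nonneg.2 ((div_le_one (hL' r)).2 (by exact_mod_cast (c1 r).1)))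
      fun r => sub_le_self _ (by positivity)
    have c4 : ∑ r, (1 - (c r : ℝ) / L r) ≤ ∑ r, |(a r : ℝ)| / L r := sum_le_sum fun r _ => by
      have h : (L r : ℝ) - |(a r : ℝ)| ≤ c r := by exact_mod_cast (c1 r).2
      rw [one_sub_div (hL' r).ne']
      exact div_le_div_of_nonneg_right (by linarith) (hL' r).le
    have c5 : ∏ r, (c r : ℝ) = (∏ r, (L r : ℝ)) * ∏ r, (1 - (1 - (c r : ℝ) / L r)) := by
      rw [← prod_mul_distrib]
      exact prod_congr rfl fun r _ => by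
        rw [sub_sub_cancel, mul_div_cancel₀ _ (hL' r).ne']
    rw [c2, c5]
    exact mul_le_mul_of_nonneg_left (by linarith) (prod_nonneg fun r _ => (hL' r).le)
  have e4 : ((Bx L \ A).card : ℝ) + (Bx L ∩ A).card = ∏ r, (L r : ℝ) := by
    rw [← card_Bx]
    exact_mod_cast card_sdiff_add_card_inter _ _
  have e5 : ((A \ Bx L).card : ℝ) + (Bx L ∩ A).card = ∏ r, (L r : ℝ) := by
    rw [← e2, inter_comm]
    exact_mod_cast card_sdiff_add_card_inter _ _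
  have e6 := sum_le_card_nsmul (Bx L \ A) Φ B fun h _ => (le_abs_self _).trans (hΦ h)
  have e7 := card_nsmul_le_sum (A \ Bx L) Φ (-B) fun h _ => (abs_le.1 (hΦ h)).1
  rw [nsmul_eq_mul] at e6 e7
  rw [e1, ← sum_inter_add_sum_sdiff (Bx L) A, ← sum_inter_add_sum_sdiff A (Bx L), inter_comm A]
  nlinarith [mul_le_mul_of_nonneg_left e3 hB]

theorem shift2 {L : ι → ℕ} (hL : ∀ r, 0 < L r) (a : ι → ℤ) (Φ : (ι → ℤ) → ℝ) {B : ℝ}
    (hΦ : ∀ h, |Φ h| ≤ B) : ∑ z ∈ Bx L ×ˢ Bx L, Φ (z.2 - z.1) ≤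
      ∑ z ∈ Bx L ×ˢ Bx L, Φ (z.2 - z.1 + a) +
        2 * B * (∏ r, (L r : ℝ)) ^ 2 * ∑ r, |(a r : ℝ)| / L r := by
  rw [sum_product, sum_product]
  refine (sum_le_sum fun h _ => shift hL a (fun h' => Φ (h' - h)) fun _ => hΦ _).trans ?_
  rw [sum_add_distrib, sum_const, nsmul_eq_mul, card_Bx]
  refine le_of_eq (congrArg₂ _ (sum_congr rfl fun h _ => sum_congr rfl fun h' _ => ?_) (by ring))
  rw [add_sub_right_comm]

theorem fs_win (f : ℤ → ℝ) (c : ℤ) (A : Finset ℤ) (h : ∀ x, f x ≠ 0 → x + c ∈ A) :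
    ∑ᶠ x, f x = ∑ y ∈ A, f (y - c) := by
  rw [← finsum_comp_equiv (Equiv.subRight c)]
  exact finsum_eq_sum_of_support_subset _ fun y hy => by simpa using h _ hy

theorem fs_fin (f : ℤ → ℝ) (c : ℤ) (A : Finset ℤ) (h : ∀ x, f x ≠ 0 → x + c ∈ A) :
    (Function.support f).Finite :=
  (A.image (· - c)).finite_toSet.subset fun x hx =>
    mem_coe.2 (mem_image.2 ⟨_, h x hx, by simp⟩)

theorem adm_of {J H α : Type} [Fintype J] [DecidableEq J] [Nonempty J] (A : Finset α)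
    (G : α → (J → H) → ℝ) (hG : ∀ a v, |G a v| ≤ 1)
    (hj : ∀ a ∈ A, ∃ j, ∀ v z, G a (Function.update v j z) = G a v) :
    ∃ F : J → (J → H) → ℝ, AdmI F ∧ ∀ v, ∏ j, F j v = ∏ a ∈ A, G a v := by
  choose! j hj using hj
  refine ⟨fun i v => ∏ a ∈ A.filter (fun a => j a = i), G a v, ⟨fun i v => ?_, fun i v z => ?_⟩,
    fun v => prod_fiberwise _ _ _⟩
  · rw [abs_prod]
    exact prod_le_one (fun _ _ => abs_nonneg _) fun a _ => hG a v
  · refine prod_congr rfl fun a ha => ?_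
    obtain ⟨h1, rfl⟩ := mem_filter.1 ha
    exact hj a h1 v z

theorem adm_mul {J H : Type} [DecidableEq J] {F F' : J → (J → H) → ℝ} (h : AdmI F)
    (h' : AdmI F') : AdmI fun j v => F j v * F' j v :=
  ⟨fun j v => by
    rw [abs_mul]
    exact mul_le_one₀ (h.1 j v) (abs_nonneg _) (h'.1 j v),
  fun j v z => by simp only [h.2, h'.2]⟩

/-- the cube without its base vertex -/
def Dd (u : ℤ → ℝ) (b k : ι → ℤ) (x : ℤ) : ℝ :=
  ∏ ω ∈ (univ : Finset (Finset ι)).erase ∅, u (x + ∑ r, if r ∈ ω then b r * k r else 0)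

theorem cube_eq (u : ℤ → ℝ) (b : ι → ℤ) (x : ℤ) (h h' : ι → ℤ) :
    cube u b x h h' = u (x + ∑ r, b r * h r) * Dd u b (h' - h) (x + ∑ r, b r * h r) := by
  rw [cube, ← mul_prod_erase univ _ (mem_univ ∅), Dd]
  congr 1
  refine prod_congr rfl fun ω _ => ?_
  rw [add_assoc, ← sum_add_distrib]
  congr 2
  refine sum_congr rfl fun r _ => ?_
  split_ifs
  · simp only [Pi.sub_apply]; ring
  · ring

theorem Dd_eq (u : ℤ → ℝ) (b k : ι → ℤ) (x : ℤ) (r₀ : ι) : Dd u b k x = u (x + b r₀ * k r₀) *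
    ∏ ω ∈ ((univ : Finset (Finset ι)).erase ∅).erase {r₀},
      u (x + ∑ r, if r ∈ ω then b r * k r else 0) := by
  rw [Dd, ← mul_prod_erase _ _ (mem_erase.2 ⟨singleton_ne_empty r₀, mem_univ _⟩)]
  simp

variable {u : ℤ → ℝ} {N : ℕ}

theorem Dd_le (hu : ∀ x, |u x| ≤ 1) (b k : ι → ℤ) (x : ℤ) : |Dd u b k x| ≤ 1 := by
  rw [Dd, abs_prod]
  exact prod_le_one (fun _ _ => abs_nonneg _) fun _ _ => hu _

theorem Dd_ne {b k : ι → ℤ} {x : ℤ} (r₀ : ι) (h : Dd u b k x ≠ 0) : u (x + b r₀ * k r₀) ≠ 0 :=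
  left_ne_zero_of_mul (Dd_eq u b k x r₀ ▸ h)

theorem boxN_dual (hs : ∀ x, u x ≠ 0 → (N : ℤ) ≤ x ∧ x < 2 * N) (b : ι → ℤ) (L : ι → ℕ) :
    boxN N u b L = (∑ x ∈ Ico (N : ℤ) (2 * N),
      u x * ∑ z ∈ Bx L ×ˢ Bx L, Dd u b (z.2 - z.1) x) / (N * (∏ r, (L r : ℝ)) ^ 2) := by
  have h : ∀ (z : (ι → ℤ) × (ι → ℤ)) x, cube u b x z.1 z.2 ≠ 0 →
      x + ∑ r, b r * z.1 r ∈ Ico (N : ℤ) (2 * N) := fun z x hx =>
    mem_Ico.2 (hs _ (left_ne_zero_of_mul (cube_eq u b x z.1 z.2 ▸ hx)))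
  rw [boxN_eq, finsum_sum_comm _ _ fun z _ => fs_fin _ _ _ (h z)]
  congr 1
  simp only [mul_sum]
  rw [sum_comm]
  refine sum_congr rfl fun z _ => ?_
  rw [fs_win _ _ _ (h z)]
  exact sum_congr rfl fun y _ => by rw [cube_eq, sub_add_cancel]

/-- the correlation of two cubes -/
def Kk (u : ℤ → ℝ) (b b' k k' : ι → ℤ) : ℝ := ∑ᶠ x, Dd u b k x * Dd u b' k' x

theorem Kk_le (hu : ∀ x, |u x| ≤ 1) (hs : ∀ x, u x ≠ 0 → (N : ℤ) ≤ x ∧ x < 2 * N) (r₀ : ι)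
    (b b' k k' : ι → ℤ) : |Kk u b b' k k'| ≤ N := by
  rw [Kk, fs_win _ (b r₀ * k r₀) (Ico (N : ℤ) (2 * N)) fun x hx =>
    mem_Ico.2 (hs _ (Dd_ne r₀ (left_ne_zero_of_mul hx)))]
  refine (abs_sum_le_sum_abs _ _).trans ((sum_le_card_nsmul _ _ 1 fun y _ => ?_).trans ?_)
  · rw [abs_mul]
    exact mul_le_one₀ (Dd_le hu _ _ _) (abs_nonneg _) (Dd_le hu _ _ _)
  · rw [Int.card_Ico, show (2 * (N : ℤ) - N).toNat = N by omega]
    simp

theorem cancel (β κ : ι → ℤ) {f g : ι → ℤ} {ω : Finset ι} {r : ι} (hr : r ∈ ω)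
    (h : ∀ s, s ≠ r → f s = g s) :
    ∑ s, β s * f s + ∑ s, (if s ∈ ω then β s * (κ s - f s) else 0) =
      ∑ s, β s * g s + ∑ s, if s ∈ ω then β s * (κ s - g s) else 0 := by
  rw [← sum_add_distrib, ← sum_add_distrib]
  refine sum_congr rfl fun s _ => ?_
  by_cases e : s = r
  · subst e
    rw [if_pos hr, if_pos hr]
    ring
  · rw [h s e]

theorem lin_le {b : ι → ℤ} {L : ι → ℕ} {v : ι → ℤ} (hv : v ∈ Bx L) :
    |∑ j, b j * v j| ≤ ∑ j, |b j| * L j :=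
  (abs_sum_le_sum_abs _ _).trans (sum_le_sum fun j _ => by
    have := mem_Bx.1 hv j
    rw [abs_mul, abs_of_nonneg this.1]
    exact mul_le_mul_of_nonneg_left this.2.le (abs_nonneg _))

/-- the box estimate summed over the base point -/
theorem box_sum (hB : StBoxCS) [Nonempty ι] (hs : ∀ x, u x ≠ 0 → (N : ℤ) ≤ x ∧ x < 2 * N)
    (hN : 0 < N) {b : ι → ℤ} {L : ι → ℕ} (hL : ∀ r, 0 < L r) (hb : ∑ j, |b j| * L j ≤ 2 * N)
    {τ : ℝ} (hτ : 0 < τ) (F : ℤ → ι → (ι → ℤ) → ℝ) (hF : ∀ y, AdmI (F y)) :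
    0 ≤ boxN N u b L ∧ ∑ y ∈ Ico (-N : ℤ) (4 * N), ∑ v ∈ Bx L,
      u (y + ∑ j, b j * v j) * ∏ j, F y j v ≤
        (∏ r, (L r : ℝ)) * N * (5 * τ + boxN N u b L / τ ^ (2 ^ Fintype.card ι - 1)) := by
  obtain ⟨P, hP⟩ : ∃ P, P = ∏ r, (L r : ℝ) := ⟨_, rfl⟩
  have hP0 : 0 < P := hP ▸ prod_pos fun r _ => by exact_mod_cast hL r
  have hN' : (0 : ℝ) < N := by exact_mod_cast hN
  have h2 : 2 ≤ 2 ^ Fintype.card ι := Nat.le_self_pow Fintype.card_ne_zero 2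
  have e : boxN N u b L = (∑ y ∈ Ico (-N : ℤ) (4 * N),
      (∑ z ∈ Bx L ×ˢ Bx L, cube u b y z.1 z.2) / P ^ 2) / N := by
    rw [boxN_eq, finsum_eq_sum_of_support_subset (s := Ico (-N : ℤ) (4 * N)), ← hP, ← sum_div,
      div_div, mul_comm (P ^ 2)]
    intro y hy
    obtain ⟨z, hz, h⟩ := exists_ne_zero_of_sum_ne_zero hy
    have h1 := hs _ (left_ne_zero_of_mul (cube_eq u b y z.1 z.2 ▸ h))
    have h3 := abs_le.1 ((lin_le (b := b) (mem_product.1 hz).1).trans hb)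
    exact mem_coe.2 (mem_Ico.2 (by omega))
  have key : ∀ y, (|∑ v ∈ Bx L, u (y + ∑ j, b j * v j) * ∏ j, F y j v| / P) ^
      2 ^ Fintype.card ι ≤ (∑ z ∈ Bx L ×ˢ Bx L, cube u b y z.1 z.2) / P ^ 2 := by
    intro y
    have h := hB ι ℤ (fun r => Ico (0 : ℤ) (L r)) (fun v => u (y + ∑ j, b j * v j)) (F y) (hF y)
    have h1 : ∏ r, ((Ico (0 : ℤ) (L r)).card : ℝ) = P := by simp [hP]
    rw [h1] at h
    obtain ⟨m, hm⟩ := Nat.exists_eq_add_of_le h2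
    rw [hm, Nat.add_sub_cancel_left] at h
    rw [hm, div_pow, sum_product, div_le_div_iff₀ (by positivity) (by positivity)]
    refine (mul_le_mul_of_nonneg_right h (by positivity)).trans (le_of_eq ?_)
    rw [pow_add P, mul_comm (P ^ m), mul_assoc, mul_comm (P ^ m)]
    rfl
  refine ⟨e ▸ div_nonneg (sum_nonneg fun y _ => le_trans (by positivity) (key y)) hN'.le, ?_⟩
  refine (sum_le_sum fun y _ => (le_abs_self _).trans ((div_le_iff₀' hP0).1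
    (le_of_pow_le (by omega) hτ (by positivity) (key y)))).trans (le_of_eq ?_)
  rw [← mul_sum, sum_add_distrib, sum_const, ← sum_div, e, ← hP, Int.card_Ico,
    show (4 * (N : ℤ) - -N).toNat = 5 * N by omega, nsmul_eq_mul]
  push_cast
  field_simp

/-- the new variables -/
theorem core (hB : StBoxCS) (hu : ∀ x, |u x| ≤ 1)
    (hs : ∀ x, u x ≠ 0 → (N : ℤ) ≤ x ∧ x < 2 * N) (hN : 0 < N) (r₀ : ι) (b b' k k' : ι → ℤ)
    (Q : ℤ) {L : {r // r ≠ r₀} ⊕ ι → ℕ} (hL : ∀ j, 0 < L j)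
    (hb : ∑ j, |Sum.elim (fun r : {r // r ≠ r₀} => b r) (fun _ : ι => Q) j| * L j ≤ 2 * N)
    {τ : ℝ} (hτ : 0 < τ) (p p' : ι → ℤ → ℤ)
    (hp : ∀ r (m : ℤ), 0 ≤ m → m < L (Sum.inr r) → b r₀ * p r m + b' r * p' r m = Q * m)
    (w : ({r // r ≠ r₀} ⊕ ι → ℤ) → ι → ℤ)
    (hw : ∀ v s, w v s = if h : s ≠ r₀ then v (Sum.inl ⟨s, h⟩) else 0) :
    ∑ v ∈ Bx L, Kk u b b' (k + fun s => (if s = r₀ then ∑ r, p r (v (Sum.inr r)) else 0) - w v s)
      (k' + fun s => -p' s (v (Sum.inr s))) ≤ (∏ j, (L j : ℝ)) * N * (5 * τ +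
        boxN N u (Sum.elim (fun r : {r // r ≠ r₀} => b r) fun _ : ι => Q) L /
          τ ^ (2 ^ Fintype.card ({r // r ≠ r₀} ⊕ ι) - 1)) := by
  have : Nonempty ({r // r ≠ r₀} ⊕ ι) := ⟨Sum.inr r₀⟩
  obtain ⟨β, hβ⟩ : ∃ β, β = Sum.elim (fun r : {r // r ≠ r₀} => b r) fun _ : ι => Q := ⟨_, rfl⟩
  rw [← hβ] at hb ⊢
  have hw0 : ∀ v, w v r₀ = 0 := fun v => by simp [hw]
  have key : ∀ v ∈ Bx L, ∑ s, b s * w v s + ∑ s, b' s * p' s (v (Sum.inr s)) +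
      b r₀ * ∑ r, p r (v (Sum.inr r)) = ∑ j, β j * v j := by
    intro v hv
    rw [Fintype.sum_sum_type, Fintype.sum_eq_add_sum_subtype_ne _ r₀, hw0, mul_zero, zero_add,
      add_assoc, mul_sum, ← sum_add_distrib, hβ]
    refine congrArg₂ _ (sum_congr rfl fun s _ => by rw [hw, dif_pos s.2]; rfl)
      (sum_congr rfl fun s _ => ?_)
    have := mem_Bx.1 hv (Sum.inr s)
    rw [add_comm]
    exact hp s _ this.1 this.2
  have a1 := fun y : ℤ => adm_of (((univ : Finset (Finset ι)).erase ∅).erase {r₀})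
    (fun ω (v : {r // r ≠ r₀} ⊕ ι → ℤ) => u (y - b r₀ * k r₀ + ∑ s, b' s * p' s (v (Sum.inr s)) +
      (∑ s, b s * w v s + ∑ s, if s ∈ ω then
        b s * (k s + (if s = r₀ then ∑ r, p r (v (Sum.inr r)) else 0) - w v s) else 0)))
    (fun _ _ => hu _) fun ω hω => by
      obtain ⟨h1, h2⟩ := mem_erase.1 hω
      obtain ⟨r, hr, hr'⟩ : ∃ r ∈ ω, r ≠ r₀ := by
        by_contra hc
        push Not at hc
        exact h1 (eq_singleton_iff_nonempty_unique_mem.2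
          ⟨nonempty_iff_ne_empty.2 (mem_erase.1 h2).1, hc⟩)
      refine ⟨Sum.inl ⟨r, hr'⟩, fun v z => ?_⟩
      simp only [Function.update_of_ne Sum.inr_ne_inl]
      rw [cancel b _ hr (g := w v) fun s h => ?_]
      rw [hw, hw]
      split_ifs with h3
      · exact Function.update_of_ne (fun e => h (congrArg Subtype.val (Sum.inl_injective e))) _ _
      · rfl
  have a2 := fun y : ℤ => adm_of ((univ : Finset (Finset ι)).erase ∅)
    (fun ω (v : {r // r ≠ r₀} ⊕ ι → ℤ) => u (y - b r₀ * k r₀ + ∑ s, b s * w v s +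
      (∑ s, b' s * p' s (v (Sum.inr s)) + ∑ s, if s ∈ ω then
        b' s * (k' s - p' s (v (Sum.inr s))) else 0)))
    (fun _ _ => hu _) fun ω hω => by
      obtain ⟨r, hr⟩ := nonempty_iff_ne_empty.2 (mem_erase.1 hω).1
      refine ⟨Sum.inr r, fun v z => ?_⟩
      have e : w (Function.update v (Sum.inr r) z) = w v := funext fun s => by
        simp only [hw, Function.update_of_ne Sum.inl_ne_inr]
      rw [e, cancel b' _ hr (g := fun s => p' s (v (Sum.inr s))) fun s h => ?_]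
      rw [Function.update_of_ne fun e => h (Sum.inr_injective e)]
  choose F1 f1 g1 using a1
  choose F2 f2 g2 using a2
  refine le_trans (le_of_eq ?_) (box_sum hB hs hN hL hb hτ (fun y j v => F1 y j v * F2 y j v)
    fun y => adm_mul (f1 y) (f2 y)).2
  rw [sum_comm]
  refine sum_congr rfl fun v hv => ?_
  have h0 := key v hv
  rw [Kk, fs_win _ (b r₀ * k r₀ - (∑ s, b s * w v s + ∑ s, b' s * p' s (v (Sum.inr s))))
    (Ico (-N : ℤ) (4 * N)) fun x hx => ?_]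
  · refine sum_congr rfl fun y _ => ?_
    rw [prod_mul_distrib, g1, g2, Dd_eq _ _ _ _ r₀, mul_assoc, Dd]
    refine congrArg₂ _ (congrArg u ?_) (congrArg₂ _ (prod_congr rfl fun ω _ => congrArg u ?_)
      (prod_congr rfl fun ω _ => congrArg u ?_))
    · simp only [Pi.add_apply, if_true, hw0]
      linear_combination h0
    · simp only [Pi.add_apply, add_sub_assoc']
      ring
    · simp only [Pi.add_apply, ← sub_eq_add_neg]
      ring
  · have h1 := hs _ (Dd_ne r₀ (left_ne_zero_of_mul hx))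
    have h3 := abs_le.1 ((lin_le (b := β) hv).trans hb)
    simp only [Pi.add_apply, if_true, hw0, sub_zero, mul_add] at h1
    exact mem_Ico.2 (by omega)

theorem pair (hB : StBoxCS) (hu : ∀ x, |u x| ≤ 1)
    (hs : ∀ x, u x ≠ 0 → (N : ℤ) ≤ x ∧ x < 2 * N) (hN : 0 < N) (r₀ : ι) (b b' : ι → ℤ)
    {L L' : ι → ℕ} {Q D' lm : ℕ} (hlm : 0 < lm) (hD : 0 < D')
    (hL : ∀ r, 0 < L' r ∧ L' r * lm ≤ L r)
    (hp : ∀ r, ∀ m : ℕ, m < D' → ∃ t t' : ℤ,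
      b r₀ * t + b' r * t' = Q * m ∧ |t| * lm ≤ L r₀ ∧ |t'| * lm ≤ L r)
    (hb : ∑ j, |Sum.elim (fun r : {r // r ≠ r₀} => b r) (fun _ : ι => (Q : ℤ)) j| *
      (Sum.elim (fun r : {r // r ≠ r₀} => L' r) (fun _ : ι => D') j : ℕ) ≤ 2 * N)
    {τ : ℝ} (hτ : 0 < τ) :
    ∑ z ∈ Bx L ×ˢ Bx L, ∑ z' ∈ Bx L ×ˢ Bx L, Kk u b b' (z.2 - z.1) (z'.2 - z'.1) ≤
      N * (∏ r, (L r : ℝ)) ^ 4 * (6 * Fintype.card ι / lm + (5 * τ +
        boxN N u (Sum.elim (fun r : {r // r ≠ r₀} => b r) fun _ : ι => (Q : ℤ))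
          (Sum.elim (fun r : {r // r ≠ r₀} => L' r) fun _ : ι => D') /
            τ ^ (2 ^ Fintype.card ({r // r ≠ r₀} ⊕ ι) - 1))) := by
  have hp' : ∀ r (m : ℤ), ∃ t t' : ℤ, 0 ≤ m → m < D' →
      b r₀ * t + b' r * t' = Q * m ∧ |t| * lm ≤ L r₀ ∧ |t'| * lm ≤ L r := by
    intro r m
    by_cases h : 0 ≤ m ∧ m < D'
    · obtain ⟨t, t', h1⟩ := hp r m.toNat (by omega)
      rw [Int.toNat_of_nonneg h.1] at h1
      exact ⟨t, t', fun _ _ => h1⟩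
    · exact ⟨0, 0, fun h1 h2 => absurd ⟨h1, h2⟩ h⟩
  choose p p' hp' using hp'
  obtain ⟨M, hM⟩ : ∃ M, M = Sum.elim (fun r : {r // r ≠ r₀} => L' r) fun _ : ι => D' := ⟨_, rfl⟩
  have hMr : ∀ r, M (Sum.inr r) = D' := fun r => by rw [hM]; rfl
  have hM0 : ∀ j, 0 < M j := fun j => by
    rw [hM]
    cases j with
    | inl r => exact (hL r).1
    | inr r => exact hD
  rw [← hM] at hb ⊢
  obtain ⟨w, hw⟩ : ∃ w : ({r // r ≠ r₀} ⊕ ι → ℤ) → ι → ℤ,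
      ∀ v s, w v s = if h : s ≠ r₀ then v (Sum.inl ⟨s, h⟩) else 0 := ⟨_, fun _ _ => rfl⟩
  have hc := fun k k' => core hB hu hs hN r₀ b b' k k' Q hM0 hb hτ p p'
    (fun r m h1 h2 => (hp' r m h1 (hMr r ▸ h2)).1) w hw
  generalize 5 * τ + boxN N u (Sum.elim (fun r : {r // r ≠ r₀} => b r) fun _ : ι => (Q : ℤ)) M /
    τ ^ (2 ^ Fintype.card ({r // r ≠ r₀} ⊕ ι) - 1) = E at hc ⊢
  have hL0 : ∀ r, 0 < L r := fun r => lt_of_lt_of_le (Nat.mul_pos (hL r).1 hlm) (hL r).2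
  have hlm' : (0 : ℝ) < lm := by exact_mod_cast hlm
  have dv : ∀ (t : ℤ) (c : ℕ) r, |t| * lm ≤ c * L r → |(t : ℝ)| / L r ≤ c / lm := fun t c r h => by
    rw [div_le_div_iff₀ (by exact_mod_cast hL0 r) hlm']
    exact_mod_cast h
  obtain ⟨P, hP⟩ : ∃ P, P = ∏ r, (L r : ℝ) := ⟨_, rfl⟩
  have hP0 : 0 < P := hP ▸ prod_pos fun r _ => by exact_mod_cast hL0 r
  have hZ : ((Bx L ×ˢ Bx L).card : ℝ) = P ^ 2 := by rw [card_product, Nat.cast_mul, card_Bx, hP, sq]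
  have hR : 0 < ∏ j, (M j : ℝ) := prod_pos fun j _ => by exact_mod_cast hM0 j
  have one : ∀ v ∈ Bx M,
      ∑ z ∈ Bx L ×ˢ Bx L, ∑ z' ∈ Bx L ×ˢ Bx L, Kk u b b' (z.2 - z.1) (z'.2 - z'.1) ≤
        ∑ z ∈ Bx L ×ˢ Bx L, ∑ z' ∈ Bx L ×ˢ Bx L, Kk u b b' (z.2 - z.1 + fun s =>
          (if s = r₀ then ∑ r, p r (v (Sum.inr r)) else 0) - w v s)
            (z'.2 - z'.1 + fun s => -p' s (v (Sum.inr s))) +
          N * P ^ 4 * (6 * Fintype.card ι / lm) := by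
    intro v hv
    have hv' := fun r => hp' r _ (mem_Bx.1 hv (Sum.inr r)).1 (hMr r ▸ (mem_Bx.1 hv (Sum.inr r)).2)
    generalize ha : (fun s => (if s = r₀ then ∑ r, p r (v (Sum.inr r)) else 0) - w v s) = a
    generalize ha' : (fun s => -p' s (v (Sum.inr s))) = a'
    have s1 : ∑ r, |(a' r : ℝ)| / L r ≤ Fintype.card ι / lm := by
      refine (sum_le_card_nsmul _ _ (((1 : ℕ) : ℝ) / lm) fun r _ => dv _ 1 r ?_).trans ?_
      · rw [← ha']
        simpa using (hv' r).2.2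
      · simp [div_eq_mul_inv]
    have s2 : ∑ r, |(a r : ℝ)| / L r ≤ 2 * Fintype.card ι / lm := by
      have t1 : |(a r₀ : ℝ)| / L r₀ ≤ Fintype.card ι / lm := by
        refine dv _ _ _ ?_
        rw [← ha]
        simp only [if_true, hw, ne_eq, not_true, dif_neg, not_false_iff, sub_zero]
        refine (mul_le_mul_of_nonneg_right (abs_sum_le_sum_abs _ _) (by positivity)).trans ?_
        rw [sum_mul]
        simpa using sum_le_card_nsmul univ _ _ fun r _ => (hv' r).2.1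
      have t2 := sum_le_card_nsmul (univ.erase r₀) (fun r => |(a r : ℝ)| / L r)
        (((1 : ℕ) : ℝ) / lm) fun r hr => dv _ 1 r (by
          have h1 := (mem_erase.1 hr).1
          have h2 := mem_Bx.1 hv (Sum.inl ⟨r, h1⟩)
          have h3 : (L' r : ℤ) * lm ≤ L r := by exact_mod_cast (hL r).2
          rw [hM, Sum.elim_inl] at h2
          rw [← ha]
          simp only [if_neg h1, hw, dif_pos h1, zero_sub, abs_neg, abs_of_nonneg h2.1,
            Nat.cast_one, one_mul]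
          exact (mul_le_mul_of_nonneg_right h2.2.le (by positivity)).trans h3)
      have t3 : ((univ.erase r₀).card : ℝ) ≤ Fintype.card ι := by
        exact_mod_cast card_le_univ _
      rw [nsmul_eq_mul, Nat.cast_one, mul_one_div] at t2
      rw [← add_sum_erase _ _ (mem_univ r₀), two_mul, add_div]
      exact add_le_add t1 (t2.trans (div_le_div_of_nonneg_right t3 hlm'.le))
    have u1 := sum_le_sum (s := Bx L ×ˢ Bx L) fun z _ =>
      shift2 hL0 a' (Kk u b b' (z.2 - z.1)) fun k' => Kk_le hu hs r₀ b b' _ k'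
    have u2 := shift2 hL0 a (fun k => ∑ z' ∈ Bx L ×ˢ Bx L, Kk u b b' k (z'.2 - z'.1 + a'))
      (B := P ^ 2 * N) fun k => (abs_sum_le_sum_abs _ _).trans
        ((sum_le_card_nsmul _ _ (N : ℝ) fun _ _ => Kk_le hu hs r₀ b b' _ _).trans
          (by rw [nsmul_eq_mul, hZ]))
    rw [sum_add_distrib, sum_const, nsmul_eq_mul, hZ, ← hP] at u1
    rw [← hP] at u2
    have h4 : 0 ≤ N * P ^ 4 := by positivity
    have u3 := mul_le_mul_of_nonneg_left s1 h4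
    have u4 := mul_le_mul_of_nonneg_left s2 h4
    have e : 6 * (Fintype.card ι : ℝ) / lm =
        2 * (Fintype.card ι / lm) + 2 * (2 * Fintype.card ι / lm) := by ring
    rw [e]
    linear_combination u1 + u2 + 2 * u3 + 2 * u4
  have all := card_nsmul_le_sum _ _ _ one
  rw [nsmul_eq_mul, card_Bx, sum_add_distrib, sum_const, nsmul_eq_mul, card_Bx,
    sum_comm (s := Bx M)] at all
  have h5 := sum_le_card_nsmul (Bx L ×ˢ Bx L) _ _ fun z _ =>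
    (sum_comm.trans_le (sum_le_card_nsmul (Bx L ×ˢ Bx L) _ _ fun z' _ =>
      hc (z.2 - z.1) (z'.2 - z'.1)))
  rw [nsmul_eq_mul, nsmul_eq_mul, hZ] at h5
  rw [← hP]
  refine le_of_mul_le_mul_left (all.trans ((add_le_add h5 le_rfl).trans (le_of_eq ?_))) hR
  ring

end CStepAux

open CStepAux in
theorem stCStep (hBoxCS : StBoxCS) : StCStep := by
  intro ι Θ _ _ r₀ T μ b L L' N Q D' lm good u τ hμ hμ1 hu hs hN hlm hD hτ hL hp hb
  have : Nonempty ({r // r ≠ r₀} ⊕ ι) := ⟨Sum.inr r₀⟩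
  have hcard : Fintype.card ({r // r ≠ r₀} ⊕ ι) = 2 * Fintype.card ι - 1 := by
    have h1 : 0 < Fintype.card ι := Fintype.card_pos_iff.2 ⟨r₀⟩
    have h2 : Fintype.card {r // r ≠ r₀} = Fintype.card ι - 1 := by simp
    rw [Fintype.card_sum, h2]
    omega
  have hb' : ∀ θ ∈ T, ∑ j, |Sum.elim (fun r : {r // r ≠ r₀} => b θ r) (fun _ : ι => (Q : ℤ)) j| *
      (Sum.elim (fun r : {r // r ≠ r₀} => L' r) (fun _ : ι => D') j : ℕ) ≤ 2 * N := by
    intro θ hθ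
    refine le_trans ?_ (hb θ hθ)
    rw [Fintype.sum_sum_type, Fintype.sum_eq_add_sum_subtype_ne (fun r => |b θ r| * L' r) r₀]
    simp only [Sum.elim_inl, Sum.elim_inr, Nat.abs_cast, sum_const, card_univ, nsmul_eq_mul]
    have : (0 : ℤ) ≤ |b θ r₀| * L' r₀ := by positivity
    linarith
  have hM0 : ∀ j, 0 < Sum.elim (fun r : {r // r ≠ r₀} => L' r) (fun _ : ι => D') j := by
    rintro (r | r)
    exacts [(hL r).1, hD]
  have hpair := fun θ hθ θ' hθ' hg => pair hBoxCS hu hs hN r₀ (b θ) (b θ') hlm hD hL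
    (hp θ hθ θ' hθ' hg) (hb' θ hθ) hτ
  have hpos := fun θ hθ => (box_sum hBoxCS hs hN hM0 (hb' θ hθ) hτ (fun _ _ _ => 1)
    fun _ => ⟨fun _ _ => by simp, fun _ _ _ => rfl⟩).1
  rw [hcard] at hpair
  have hσ := pow_pos hτ (2 ^ (2 * Fintype.card ι - 1) - 1)
  generalize τ ^ (2 ^ (2 * Fintype.card ι - 1) - 1) = σ at hpair hσ ⊢
  obtain ⟨β, hβ⟩ : ∃ β : Θ → ℝ, ∀ θ, boxN N u
      (Sum.elim (fun r : {r // r ≠ r₀} => b θ r) fun _ : ι => (Q : ℤ))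
      (Sum.elim (fun r : {r // r ≠ r₀} => L' r) fun _ : ι => D') = β θ := ⟨_, fun _ => rfl⟩
  simp only [hβ] at hpair hpos ⊢
  obtain ⟨P, hP⟩ : ∃ P, P = ∏ r, (L r : ℝ) := ⟨_, rfl⟩
  have hP0 : 0 < P := hP ▸ prod_pos fun r _ => by
    exact_mod_cast lt_of_lt_of_le (Nat.mul_pos (hL r).1 hlm) (hL r).2
  have hN' : (0 : ℝ) < N := by exact_mod_cast hN
  obtain ⟨Z, hZ'⟩ : ∃ Z, Z = Bx L ×ˢ Bx L := ⟨_, rfl⟩
  have hZ : (Z.card : ℝ) = P ^ 2 := by rw [hZ', card_product, Nat.cast_mul, card_Bx, hP, sq]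
  rw [← hZ', ← hP] at hpair
  obtain ⟨G, hG⟩ : ∃ G : ℤ → ℝ,
    ∀ x, G x = ∑ θ ∈ T, μ θ * ∑ z ∈ Z, Dd u (b θ) (z.2 - z.1) x := ⟨_, fun _ => rfl⟩
  have e1 : ∑ θ ∈ T, μ θ * boxN N u (b θ) L =
      (∑ x ∈ Ico (N : ℤ) (2 * N), u x * G x) / (N * P ^ 2) := by
    simp only [boxN_dual hs, ← hP, ← hZ', hG, ← mul_div_assoc, ← sum_div, mul_sum T]
    rw [sum_comm (t := T)]
    congr 1
    refine sum_congr rfl fun θ _ => ?_
    rw [mul_sum]
    exact sum_congr rfl fun x _ => by ring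
  obtain ⟨J, hJ, hJ'⟩ : ∃ J : Finset ℤ, Ico (N : ℤ) (2 * N) ⊆ J ∧
      ∀ θ ∈ T, ∀ z ∈ Z, ∀ x, Dd u (b θ) (z.2 - z.1) x ≠ 0 → x ∈ J := by
    refine ⟨Ico (N : ℤ) (2 * N) ∪ (T ×ˢ Z).biUnion fun a => (Ico (N : ℤ) (2 * N)).image
      (· - b a.1 r₀ * (a.2.2 - a.2.1) r₀), subset_union_left, fun θ hθ z hz x hx => ?_⟩
    exact mem_union_right _ (mem_biUnion.2 ⟨(θ, z), mem_product.2 ⟨hθ, hz⟩,
      mem_image.2 ⟨_, mem_Ico.2 (hs _ (Dd_ne r₀ hx)), add_sub_cancel_right _ _⟩⟩)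
  have e2 : (∑ x ∈ Ico (N : ℤ) (2 * N), u x * G x) ^ 2 ≤ N * ∑ x ∈ J, G x ^ 2 := by
    refine sq_sum_le_card_mul_sum_sq.trans ?_
    rw [Int.card_Ico, show (2 * (N : ℤ) - N).toNat = N by omega]
    refine mul_le_mul_of_nonneg_left ((sum_le_sum fun x _ => ?_).trans
      (sum_le_sum_of_subset_of_nonneg hJ fun _ _ _ => sq_nonneg _)) hN'.le
    rw [mul_pow]
    exact mul_le_of_le_one_left (sq_nonneg _) ((sq_le_one_iff_abs_le_one _).2 (hu x))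
  have e3 : ∑ x ∈ J, G x ^ 2 = ∑ θ ∈ T, ∑ θ' ∈ T, μ θ * μ θ' *
      ∑ z ∈ Z, ∑ z' ∈ Z, Kk u (b θ) (b θ') (z.2 - z.1) (z'.2 - z'.1) := by
    simp only [hG, sq, sum_mul_sum T]
    rw [sum_comm]
    refine sum_congr rfl fun θ hθ => ?_
    rw [sum_comm]
    refine sum_congr rfl fun θ' _ => ?_
    simp only [mul_mul_mul_comm (μ θ), ← mul_sum J, sum_mul_sum Z]
    congr 1
    rw [sum_comm]
    refine sum_congr rfl fun z hz => ?_
    rw [sum_comm]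
    refine sum_congr rfl fun z' _ => ?_
    exact (finsum_eq_sum_of_support_subset _ fun x hx =>
      hJ' θ hθ z hz x (left_ne_zero_of_mul hx)).symm
  have c0 : (0 : ℝ) ≤ 6 * Fintype.card ι / lm + 5 * τ := by positivity
  have e4 : ∑ x ∈ J, G x ^ 2 ≤ ∑ θ ∈ T, ∑ θ' ∈ T, N * P ^ 4 * ((if good θ θ' then 0 else
      μ θ * μ θ') + μ θ * μ θ' * (6 * Fintype.card ι / lm + 5 * τ) + μ θ * β θ / σ * μ θ') := by
    rw [e3]
    refine sum_le_sum fun θ hθ => sum_le_sum fun θ' hθ' => ?_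
    have m0 := mul_nonneg (hμ θ hθ) (hμ θ' hθ')
    split_ifs with hg
    · exact (mul_le_mul_of_nonneg_left (hpair θ hθ θ' hθ' hg) m0).trans (le_of_eq (by ring))
    · have h1 := sum_le_card_nsmul Z _ _ fun z _ => sum_le_card_nsmul Z _ (N : ℝ) fun z' _ =>
        (le_abs_self _).trans (Kk_le hu hs r₀ (b θ) (b θ') (z.2 - z.1) (z'.2 - z'.1))
      rw [nsmul_eq_mul, nsmul_eq_mul, hZ] at h1
      have h2 := mul_nonneg (div_nonneg (mul_nonneg (hμ θ hθ) (hpos θ hθ)) hσ.le) (hμ θ' hθ')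
      refine (mul_le_mul_of_nonneg_left h1 m0).trans (le_trans (le_of_eq (by ring))
        (mul_le_mul_of_nonneg_left (le_add_of_le_of_nonneg
          (le_add_of_nonneg_right (mul_nonneg m0 c0)) h2) (by positivity)))
  simp only [← mul_sum T, sum_add_distrib, ← sum_mul T, ← sum_div T] at e4
  have s0 := sum_nonneg hμ
  have s1 : 0 ≤ (∑ θ ∈ T, μ θ * β θ) / σ :=
    div_nonneg (sum_nonneg fun θ hθ => mul_nonneg (hμ θ hθ) (hpos θ hθ)) hσ.le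
  have s2 := mul_le_of_le_one_left c0 (mul_le_one₀ hμ1 s0 hμ1)
  have s3 := mul_le_of_le_one_right s1 hμ1
  have s4 : (6 : ℝ) * Fintype.card ι / lm ≤ 8 * Fintype.card ι / lm := by gcongr; norm_num
  rw [e1, div_pow, div_le_iff₀' (by positivity)]
  refine e2.trans ((mul_le_mul_of_nonneg_left e4 hN'.le).trans ?_)
  rw [← mul_assoc, show (N * P ^ 2) ^ 2 = N * (N * P ^ 4) by ring]
  exact mul_le_mul_of_nonneg_left (by linarith) (by positivity)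

end Pool.Agent.Lib.MP_7d3fda_nt.Q3
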