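import Pool.Agent.Lib.MP_7d3fda_nt.Q3.Basic

open Finset Filter
open scoped Classical

noncomputable section

namespace Pool.Agent.Lib.MP_7d3fda_nt.Q3

open Pool.Agent.Lib.MP_4b8564_nt Pool.Agent.Lib.MP_4b8564_nt.GT

namespace ChainAux

theorem prod_sub {ι : Type} (s : Finset ι) (a b : ι → ℝ) {δ : ℝ} (ha : ∀ i, |a i| ≤ 1)
    (hb : ∀ i, |b i| ≤ 1) (h : ∀ i, |a i - b i| ≤ δ) :
    |∏ i ∈ s, a i - ∏ i ∈ s, b i| ≤ s.card * δ := by
  induction s using Finset.induction_on with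
  | empty => simp
  | insert i s hi ih =>
    rw [prod_insert hi, prod_insert hi, card_insert_of_notMem hi]
    have h1 : |∏ i ∈ s, b i| ≤ 1 := by
      rw [abs_prod]
      exact prod_le_one (fun _ _ => abs_nonneg _) fun j _ => hb j
    have h2 : a i * ∏ i ∈ s, a i - b i * ∏ i ∈ s, b i =
        a i * (∏ i ∈ s, a i - ∏ i ∈ s, b i) + (a i - b i) * ∏ i ∈ s, b i := by ring
    have h3 : |a i| * |∏ i ∈ s, a i - ∏ i ∈ s, b i| ≤ s.card * δ :=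
      (mul_le_of_le_one_left (abs_nonneg _) (ha i)).trans ih
    have h4 : |a i - b i| * |∏ i ∈ s, b i| ≤ δ :=
      (mul_le_of_le_one_right (abs_nonneg _) h1).trans (h i)
    rw [h2]
    refine (abs_add_le _ _).trans ?_
    rw [abs_mul, abs_mul]
    push_cast
    linarith

/-- the normalised count is a Lipschitz function of the summand -/
theorem cc_sub (hPack : StPack) (d : Dat) : ∃ C : ℝ, 0 < C ∧ ∀ (N : ℕ) (f g : ℤ → ℝ) (δ : ℝ),
    0 < N → 0 ≤ δ → (∀ x, f x ≠ 0 → (N : ℤ) ≤ x ∧ x < 2 * N) →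
    (∀ x, g x ≠ 0 → (N : ℤ) ≤ x ∧ x < 2 * N) →
    (∀ u : O, |∏ j, f (d.lam j u) - ∏ j, g (d.lam j u)| ≤ δ) → |d.cc N f - d.cc N g| ≤ C * δ := by
  obtain ⟨C, hC, h⟩ := hPack d
  refine ⟨4 * C, by positivity, fun N f g δ hN hδ hf hg hd => ?_⟩
  obtain ⟨hfin, hc⟩ := h 0 1 1 0 1 N N N N one_pos one_ne_zero
    (by rw [Nat.cast_one]; exact isCoprime_one_right) (by decide)
  have key : ∀ φ : ℤ → ℝ, (∀ x, φ x ≠ 0 → (N : ℤ) ≤ x ∧ x < 2 * N) →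
      ∑ᶠ u : O, ∏ j, φ (d.lam j u) = ∑ u ∈ hfin.toFinset, ∏ j, φ (d.lam j u) := fun φ hφ => by
    refine finsum_eq_sum_of_support_subset _ fun u hu => ?_
    have h1 := fun j => hφ _ (prod_ne_zero_iff.1 hu j (mem_univ j))
    have e : ∀ j, d.nn 0 1 j (u * 1) = d.lam j u := fun j => by simp [Dat.nn]
    simp only [Set.Finite.coe_toFinset, Set.mem_ofPred_eq, e]
    refine ⟨by simp, (h1 0).1, ?_, (h1 1).1, ?_⟩
    · linarith [(h1 0).2]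
    · linarith [(h1 1).2]
  rw [Set.ncard_eq_toFinset_card _ hfin] at hc
  have s1 : sz 1 = 1 := by simp [sz]
  rw [s1, Zsqrtd.norm_one] at hc
  have N1 : (1 : ℝ) ≤ N := by exact_mod_cast hN
  have h2 : (hfin.toFinset.card : ℝ) ≤ 4 * C * (N : ℝ) ^ 2 := by
    push_cast at hc
    have : ((N : ℝ) + 1) * (N + 1) ≤ 4 * (N : ℝ) ^ 2 := by nlinarith
    nlinarith
  rw [Dat.cc, Dat.cc, key f hf, key g hg, ← sub_div, ← sum_sub_distrib, abs_div,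
    abs_of_pos (by positivity : (0 : ℝ) < (N : ℝ) ^ 2), div_le_iff₀ (by positivity)]
  refine (abs_sum_le_sum_abs _ _).trans ((sum_le_card_nsmul _ _ δ fun u _ => hd u).trans ?_)
  rw [nsmul_eq_mul]
  nlinarith

theorem cc_zero (d : Dat) (N : ℕ) : d.cc N (fun _ => 0) = 0 := by
  simp [Dat.cc]

theorem kap {T n n' e J : ℝ} (hT : 0 < T) (hJ : 0 < J) (h : T ^ 2 ≤ 4 * n) (h' : T ^ 2 ≤ 4 * n')
    (hd : J * |n' - n| ≤ 24 * e * T ^ 2) : |T ^ 2 / n - T ^ 2 / n'| ≤ 384 * e * (1 / J) := by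
  have T2 : 0 < T ^ 2 := by positivity
  have n0 : 0 < n := by linarith
  have n0' : 0 < n' := by linarith
  have e1 : T ^ 2 / n - T ^ 2 / n' = T ^ 2 / n * (T ^ 2 / n') * ((n' - n) / T ^ 2) := by
    field_simp
  have a1 : T ^ 2 / n ≤ 4 := (div_le_iff₀ n0).2 h
  have a2 : T ^ 2 / n' ≤ 4 := (div_le_iff₀ n0').2 h'
  have a3 : |(n' - n) / T ^ 2| ≤ 24 * e * (1 / J) := by
    rw [abs_div, abs_of_pos T2, mul_one_div, div_le_div_iff₀ T2 hJ]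
    linarith
  have a4 : T ^ 2 / n * (T ^ 2 / n') ≤ 4 * 4 := mul_le_mul a1 a2 (by positivity) (by norm_num)
  rw [e1, abs_mul, abs_of_nonneg (by positivity : 0 ≤ T ^ 2 / n * (T ^ 2 / n'))]
  calc _ ≤ 4 * 4 * (24 * e * (1 / J)) := mul_le_mul a4 a3 (abs_nonneg _) (by norm_num)
    _ = _ := by ring

theorem coord {z : O} {T : ℤ} (hT : 0 ≤ T) (h : z.norm ≤ 9 * T ^ 2) :
    |z.re| ≤ 3 * T ∧ |z.im| ≤ 3 * T := by
  rw [norm_eq] at h
  constructor <;> refine abs_le_of_sq_le_sq' ?_ (by positivity) |> abs_le.2 <;>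
    nlinarith [sq_nonneg z.re, sq_nonneg z.im]

/-- the norm is almost constant on the box -/
theorem norm_var {S : Sc} (ho : S.Ok) (h0 : S.w0 ∈ S.B) {z : O} (hz : z ∈ S.B) :
    (S.P.J : ℤ) * |S.w0.norm - z.norm| ≤ 24 * S.d.e * (S.T : ℤ) ^ 2 := by
  obtain ⟨a1, a2⟩ := coord (Int.natCast_nonneg _) (ho.lo _ hz).2
  obtain ⟨b1, b2⟩ := coord (Int.natCast_nonneg _) (ho.lo _ h0).2
  obtain ⟨h, h1, h2, e⟩ := mem_cbx.1 hz
  have hl : S.P.J * (S.F * S.l) ≤ S.d.e * S.T := by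
    have := Nat.mul_le_mul_left (S.d.e * S.W) S.l_le
    calc S.P.J * (S.F * S.l) = S.d.e * S.W * (S.P.J * S.l) := by rw [S.F_eq]; ring
      _ ≤ _ := this
      _ = _ := by rw [Sc.T]; ring
  have hl' : (S.P.J : ℤ) * (S.F * S.l) ≤ S.d.e * S.T := by exact_mod_cast hl
  have er : z.re - S.w0.re = S.F * h.1 := by
    rw [e]; simp [em]
  have ei : z.im - S.w0.im = S.F * h.2 := by
    rw [e]; simp [em]
  have F0 : (0 : ℤ) ≤ S.F := Int.natCast_nonneg _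
  have c1 : |z.re - S.w0.re| ≤ S.F * S.l := by
    rw [er, abs_of_nonneg (by positivity)]
    exact mul_le_mul_of_nonneg_left (by exact_mod_cast h1.le) F0
  have c2 : |z.im - S.w0.im| ≤ S.F * S.l := by
    rw [ei, abs_of_nonneg (by positivity)]
    exact mul_le_mul_of_nonneg_left (by exact_mod_cast h2.le) F0
  have d1 : |z.re + S.w0.re| ≤ 6 * S.T := (abs_add_le _ _).trans (by linarith)
  have d2 : |z.im + S.w0.im| ≤ 6 * S.T := (abs_add_le _ _).trans (by linarith)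
  have e2 : z.norm - S.w0.norm = (z.re - S.w0.re) * (z.re + S.w0.re) +
      3 * ((z.im - S.w0.im) * (z.im + S.w0.im)) := by
    rw [norm_eq, norm_eq]; ring
  have f1 := mul_le_mul c1 d1 (abs_nonneg _) (by positivity)
  have f2 := mul_le_mul c2 d2 (abs_nonneg _) (by positivity)
  have f3 : |S.w0.norm - z.norm| ≤ 24 * S.T * (S.F * S.l) := by
    rw [abs_sub_comm, e2]
    refine (abs_add_le _ _).trans ?_
    rw [abs_mul, abs_mul, abs_mul, abs_of_pos (by norm_num : (0 : ℤ) < 3)]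
    linarith
  calc (S.P.J : ℤ) * |S.w0.norm - z.norm| ≤ S.P.J * (24 * S.T * (S.F * S.l)) :=
        mul_le_mul_of_nonneg_left f3 (Int.natCast_nonneg _)
    _ = 24 * S.T * (S.P.J * (S.F * S.l)) := by ring
    _ ≤ 24 * S.T * (S.d.e * S.T) := mul_le_mul_of_nonneg_left hl' (by positivity)
    _ = _ := by ring

/-- the multiplicative chain -/
theorem chain {K : ℕ → ℝ} {F ρ n : ℕ} {ε : ℝ} (hρ : 1 ≤ ρ)
    (hs : ∀ k : ℕ, k ≡ 1 [MOD F] → 1 ≤ k → k ≤ (2 * ρ) ^ n →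
      ∃ r : ℕ, r ≡ 1 [MOD F] ∧ ρ ≤ r ∧ r ≤ 2 * ρ ∧ K k ≤ 2 * K (k * r) + ε)
    (hb : ∀ k : ℕ, k ≡ 1 [MOD F] → ρ ^ n ≤ k → k ≤ (2 * ρ) ^ n → K k ≤ ε) :
    K 1 ≤ (2 ^ (n + 1) - 1) * ε := by
  have h : ∀ i ≤ n, ∃ k : ℕ, k ≡ 1 [MOD F] ∧ ρ ^ i ≤ k ∧ k ≤ (2 * ρ) ^ i ∧
      K 1 ≤ 2 ^ i * K k + (2 ^ i - 1) * ε := by
    intro i
    induction i with
    | zero => exact fun _ => ⟨1, Nat.ModEq.refl _, by simp, by simp, by simp⟩
    | succ i ih =>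
      intro hi
      obtain ⟨k, h1, h2, h3, h4⟩ := ih (by omega)
      obtain ⟨r, g1, g2, g3, g4⟩ := hs k h1 ((Nat.one_le_pow _ _ hρ).trans h2)
        (h3.trans (Nat.pow_le_pow_right (by omega) (by omega)))
      refine ⟨k * r, by simpa using h1.mul g1, ?_, ?_, ?_⟩
      · rw [pow_succ]; exact Nat.mul_le_mul h2 g2
      · rw [pow_succ]; exact Nat.mul_le_mul h3 g3
      · have := mul_le_mul_of_nonneg_left g4 (by positivity : (0 : ℝ) ≤ 2 ^ i)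
        rw [pow_succ]
        linarith
  obtain ⟨k, h1, h2, h3, h4⟩ := h n le_rfl
  have := mul_le_mul_of_nonneg_left (hb k h1 h2 h3) (by positivity : (0 : ℝ) ≤ 2 ^ n)
  rw [pow_succ]
  linarith

theorem Kk_one (S : Sc) (φ : ℤ → ℝ) : S.Kk φ 1 =
    S.avB fun z => (S.d.Psi S.b S.F S.N (fun _ => 1) φ z - S.d.cc S.N φ) ^ 2 := by
  have e : ∀ z : O, dv 1 z = z := fun z => by simp [dv]
  simp only [Sc.Kk, Sc.avB, Nat.cast_one, one_dvd, filter_true, e, one_pow]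
  ring

/-- the pointwise inequality -/
theorem point {x₁ x₂ p c₁ c₂ k k₀ ε δ K L j : ℝ} (h1 : |x₁ - x₂| ≤ 6 * δ) (h2 : |x₂ - k * p| ≤ ε)
    (k1 : |k| ≤ 1) (k2 : |k₀| ≤ 1) (h3 : |k - k₀| ≤ L * j) (h4 : |c₂| ≤ K)
    (h5 : |c₂ - c₁| ≤ K * (6 * δ)) (hδ : 0 ≤ δ) (hδ1 : δ ≤ 1) (hj : 0 ≤ j) (hj1 : j ≤ 1)
    (hL : 0 ≤ L) (hε : ε ≤ 1) :
    (x₁ - k₀ * c₁) ^ 2 ≤ 2 * (p - c₂) ^ 2 + (4 * ε + 8 * (6 + L * K + 6 * K) ^ 2 * (j + δ)) := by
  have hK : 0 ≤ K := (abs_nonneg _).trans h4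
  have ε0 : 0 ≤ ε := (abs_nonneg _).trans h2
  obtain ⟨a, ha⟩ : ∃ a, a = (x₁ - x₂) + (x₂ - k * p) + (k - k₀) * c₂ + k₀ * (c₂ - c₁) := ⟨_, rfl⟩
  obtain ⟨B, hB⟩ : ∃ B, B = 6 + L * K + 6 * K := ⟨_, rfl⟩
  have b1 : |(k - k₀) * c₂| ≤ L * j * K := by
    rw [abs_mul]; exact mul_le_mul h3 h4 (abs_nonneg _) (by positivity)
  have b2 : |k₀ * (c₂ - c₁)| ≤ K * (6 * δ) := by
    rw [abs_mul]; exact (mul_le_of_le_one_left (abs_nonneg _) k2).trans h5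
  have b3 : |a| ≤ ε + B * (j + δ) := by
    have := (abs_add_le _ _).trans (add_le_add ((abs_add_le _ _).trans
      (add_le_add ((abs_add_le _ _).trans (add_le_add h1 h2)) b1)) b2)
    rw [ha, hB]
    nlinarith [mul_nonneg (mul_nonneg hL hK) hδ, mul_nonneg hK hj]
  have b4 : a ^ 2 ≤ (ε + B * (j + δ)) ^ 2 := sq_le_sq' (abs_le.1 b3).1 (abs_le.1 b3).2
  have b5 : (j + δ) ^ 2 ≤ 2 * (j + δ) := by nlinarith
  have b6 : B ^ 2 * (j + δ) ^ 2 ≤ B ^ 2 * (2 * (j + δ)) :=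
    mul_le_mul_of_nonneg_left b5 (sq_nonneg _)
  have b7 : k ^ 2 * (p - c₂) ^ 2 ≤ (p - c₂) ^ 2 :=
    mul_le_of_le_one_left (sq_nonneg _) (by rw [← sq_abs]; exact pow_le_one₀ (abs_nonneg _) k1)
  have e : x₁ - k₀ * c₁ = a + k * (p - c₂) := by rw [ha]; ring
  rw [e, ← hB]
  nlinarith [sq_nonneg (a - k * (p - c₂)), sq_nonneg (ε - B * (j + δ))]

end ChainAux

open ChainAux in
theorem stChain (hStep : StStep) (hBase : StBase) (hTop : StTop) (hPack : StPack)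
    (hMass : StMass) : StChain := by
  intro d
  obtain ⟨K, hK, hcc⟩ := cc_sub hPack d
  obtain ⟨Cm, hCm, hM⟩ := hMass d
  refine ⟨8 * (6 + 384 * d.e * K + 6 * K) ^ 2, by positivity, fun P hP M ε M1 hε => ?_⟩
  obtain ⟨n, hn⟩ : ∃ n, n = P.E * P.A - 8 * P.a - P.A / 2 ^ (P.s + 4) := ⟨_, rfl⟩
  have ε1 : 0 < min 1 (ε / 8) := by positivity
  have ε2 : 0 < ε / 4 / 2 ^ (n + 1) := by positivity
  refine (((((hStep d P hP M _ M1 ε2).and (hBase d P hP M _ M1 ε2)).and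
    (hTop d P hP M _ M1 ε1)).and (hM P hP)).and (Ev.of_eventually (d := d) (P := P)
      (Θ := fun _ ρ => 1 ≤ ρ) 0 fun _ _ => eventually_ge_atTop 1)).mono ?_
  rintro S rfl rfl ho ⟨⟨⟨⟨hs, hb⟩, ht⟩, m1, m2⟩, -, hρ⟩ δ g φ hδ hδ1 hg hg' hφ hgφ
  have J16 : (16 : ℝ) ≤ S.P.J := by exact_mod_cast hP.big.2.2.2
  have J0 : (0 : ℝ) < S.P.J := by linarith
  rcases Nat.eq_zero_or_pos S.l with l0 | l0
  · rw [Sc.avB, l0, Nat.cast_zero, zero_pow two_ne_zero, div_zero]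
    positivity
  have hK1 : S.Kk (cutI S.N φ) 1 ≤ ε / 4 := by
    have en : S.n0 = n := hn.symm
    have := chain hρ (hs φ hφ) (hb φ hφ)
    rw [en] at this
    have e : (2 : ℝ) ^ (n + 1) * (ε / 4 / 2 ^ (n + 1)) = ε / 4 := by field_simp
    linarith
  have N0 : 0 < S.N := Nat.pow_pos hρ
  have T0 : (0 : ℝ) < S.T := by exact_mod_cast Nat.mul_pos S.W_pos (Nat.pow_pos hρ)
  have w0 : S.w0 ∈ S.B := mem_cbx.2 ⟨(0, 0), l0, l0, by ext <;> simp [em]⟩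
  have g1 : ∀ x, |g x| ≤ 1 := fun x => abs_le.2 ⟨by linarith [(hg x).1], (hg x).2⟩
  have c1 : ∀ x, |cutI S.N φ x| ≤ 1 := fun x => by
    unfold cutI
    split_ifs
    exacts [hφ.1 x, by simp]
  have c2 : ∀ x, cutI S.N φ x ≠ 0 → (S.N : ℤ) ≤ x ∧ x < 2 * S.N := fun x hx => by
    by_contra h
    exact hx (if_neg h)
  have c3 : ∀ x, |cutI S.N φ x - g x| ≤ δ := fun x => by
    unfold cutI
    split_ifs with h
    · rw [abs_sub_comm]; exact hgφ x h.1 h.2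
    · have : g x = 0 := by
        by_contra h'
        exact h (hg' x h')
      simpa [this] using hδ
  have c4 : ∀ v : Fin 6 → ℤ, |∏ j, cutI S.N φ (v j) - ∏ j, g (v j)| ≤ 6 * δ := fun v => by
    simpa using prod_sub univ _ _ (fun j => c1 (v j)) (fun j => g1 (v j)) fun j => c3 (v j)
  have c5 : |S.d.cc S.N (cutI S.N φ) - S.d.cc S.N g| ≤ K * (6 * δ) :=
    hcc _ _ _ _ N0 (by positivity) c2 hg' fun u => c4 fun j => S.d.lam j u
  have c6 : |S.d.cc S.N (cutI S.N φ)| ≤ K := by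
    have := hcc S.N (cutI S.N φ) (fun _ => 0) 1 N0 zero_le_one c2 (fun x hx => absurd rfl hx)
      fun u => by
        rw [prod_const, card_univ, Fintype.card_fin, zero_pow (by norm_num), sub_zero, abs_prod]
        exact prod_le_one (fun _ _ => abs_nonneg _) fun j _ => c1 _
    rwa [cc_zero, sub_zero, mul_one] at this
  have mu0 : 0 ≤ S.mu := by
    by_contra h
    have : S.mu * S.Th.card ≤ 0 :=
      mul_nonpos_of_nonpos_of_nonneg (not_le.1 h).le (Nat.cast_nonneg _)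
    nlinarith
  obtain ⟨c, hc⟩ : ∃ c : ℝ, c = (S.d.e : ℝ) ^ 2 / (200 * S.d.C : ℝ) ^ 2 := ⟨_, rfl⟩
  have C3 : (3 : ℝ) ≤ S.d.C := by exact_mod_cast S.d.three_le_C
  have eC : 2 * (S.d.e : ℝ) ≤ S.d.C := by exact_mod_cast S.d.two_e_le
  have e0 : (0 : ℝ) ≤ S.d.e := Nat.cast_nonneg _
  have hc0 : 0 ≤ c := hc ▸ by positivity
  have hc1 : c ≤ 1 / 4 := by
    rw [hc, div_le_iff₀ (by positivity)]
    nlinarith
  have ek : ∀ z : O, (S.d.e : ℝ) ^ 2 * (S.T : ℝ) ^ 2 / ((200 * S.d.C : ℝ) ^ 2 * (z.norm : ℝ)) =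
      c * ((S.T : ℝ) ^ 2 / z.norm) := fun z => by rw [hc, div_mul_div_comm]
  have lo : ∀ z ∈ S.B, (S.T : ℝ) ^ 2 ≤ 4 * (z.norm : ℝ) := fun z hz => by
    exact_mod_cast (ho.lo z hz).1
  have k1 : ∀ z ∈ S.B, |c * ((S.T : ℝ) ^ 2 / z.norm)| ≤ 1 := fun z hz => by
    have a := lo z hz
    have n0 : (0 : ℝ) < z.norm := by nlinarith
    have b : (S.T : ℝ) ^ 2 / z.norm ≤ 4 := (div_le_iff₀ n0).2 a
    rw [abs_of_nonneg (by positivity)]
    nlinarith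
  have hp : ∀ z ∈ S.B, (S.PsiM g z - S.cst g) ^ 2 ≤
      2 * (S.d.Psi S.b S.F S.N (fun _ => 1) (cutI S.N φ) z - S.d.cc S.N (cutI S.N φ)) ^ 2 +
        (4 * min 1 (ε / 8) + 8 * (6 + 384 * S.d.e * K + 6 * K) ^ 2 * (1 / S.P.J + δ)) := by
    intro z hz
    have a := ht φ hφ z hz
    rw [ek] at a
    rw [Sc.cst, ek]
    refine point (x₂ := S.PsiM (cutI S.N φ) z) ?_ a (k1 z hz) (k1 _ w0) ?_ c6 c5 hδ hδ1
      (by positivity) ((div_le_one J0).2 (by linarith)) (by positivity) (min_le_left _ _)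
    · rw [Sc.PsiM, Sc.PsiM, ← mul_sub, ← sum_sub_distrib, abs_mul, abs_of_nonneg mu0]
      have b : |∑ i ∈ S.Th, (S.Fz g (i.1 * i.2 * z) - S.Fz (cutI S.N φ) (i.1 * i.2 * z))| ≤
          S.Th.card * (6 * δ) := by
        refine (abs_sum_le_sum_abs _ _).trans ((sum_le_card_nsmul _ _ (6 * δ) fun i _ => ?_).trans
          (nsmul_eq_mul _ _).le)
        rw [abs_sub_comm]
        exact c4 fun j => S.d.nn S.b S.F j (i.1 * i.2 * z)
      calc _ ≤ S.mu * (S.Th.card * (6 * δ)) := mul_le_mul_of_nonneg_left b mu0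
        _ = S.mu * S.Th.card * (6 * δ) := by ring
        _ ≤ _ := mul_le_of_le_one_left (by positivity) m2
    · have b := kap T0 J0 (lo z hz) (lo _ w0) (e := S.d.e) (by exact_mod_cast norm_var ho w0 hz)
      rw [← mul_sub, abs_mul, abs_of_nonneg hc0]
      exact (mul_le_of_le_one_left (abs_nonneg _) (by linarith)).trans b
  have l1 : (0 : ℝ) < (S.l : ℝ) ^ 2 := by positivity
  rw [Kk_one, Sc.avB, div_le_iff₀ l1] at hK1
  rw [Sc.avB, div_le_iff₀ l1]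
  refine (sum_le_sum hp).trans ?_
  rw [sum_add_distrib, ← mul_sum, sum_const, Sc.B, card_cbx S.F_pos, nsmul_eq_mul, ← Sc.B]
  push_cast
  have := mul_le_mul_of_nonneg_left (min_le_right 1 (ε / 8)) l1.le
  nlinarith

end Pool.Agent.Lib.MP_7d3fda_nt.Q3
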