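import Pool.Agent.Lib.MP_7d3fda_nt.Q3.Basic

open Finset Filter
open scoped Classical NumberTheorySymbols

noncomputable section

namespace Pool.Agent.Lib.MP_7d3fda_nt.Q3

open Pool.Agent.Lib.MP_4b8564_nt Pool.Agent.Lib.MP_4b8564_nt.GT
open Pool.Agent.Lib.MP_0a3467_an.Cv (Low)
open Pool.Agent.Lib.MP_0a3467_an

namespace ConcAux

theorem box_congr {ι ι' : Type} [Fintype ι] [DecidableEq ι] [Fintype ι'] [DecidableEq ι']
    (e : ι ≃ ι') (N : ℕ) (u : ℤ → ℝ) (Q : ℤ) (D : ℕ) :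
    boxN N u (fun _ : ι => Q) (fun _ => D) = boxN N u (fun _ : ι' => Q) (fun _ => D) := by
  have hm : ∀ h : ι → ℕ, (h ∈ Fintype.piFinset fun _ : ι => range D) ↔
      (e.arrowCongr (Equiv.refl ℕ)) h ∈ Fintype.piFinset fun _ : ι' => range D := by
    intro h
    simp only [Fintype.mem_piFinset, Equiv.arrowCongr_apply, Equiv.coe_refl, Function.comp, id]
    exact ⟨fun hh r => hh _, fun hh r => by simpa using hh (e r)⟩
  unfold boxN
  congr 1
  · refine finsum_congr fun x => ?_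
    refine sum_equiv (e.arrowCongr (Equiv.refl ℕ)) hm fun h _ => ?_
    refine sum_equiv (e.arrowCongr (Equiv.refl ℕ)) hm fun h' _ => ?_
    refine Fintype.prod_equiv e.finsetCongr _ _ fun ω => ?_
    congr 2
    refine Fintype.sum_equiv e _ _ fun r => ?_
    simp
  · simp only [prod_const, card_univ, Fintype.card_congr e]

theorem mono {Θ : Type} {s s' : ℕ} {κ κ' : ℝ} {T : Finset Θ} {μ : Θ → ℝ} {b : Θ → Fin s → ℤ}
    {N H D Q lm bm Bm : ℕ} (h : Reach s' κ T μ b N H D Q lm bm Bm) (hκ : κ ≤ κ') :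
    Reach s' κ' T μ b N H D Q lm bm Bm :=
  ⟨h.m0, h.m1, h.sz, h.bm0, h.D0, h.Q0,
    h.lm0.trans (mul_le_mul_of_nonneg_right hκ (Nat.cast_nonneg _)), h.h1, h.h2, h.h3,
    fun r r' => (h.gc r r').trans hκ⟩

theorem bezout {a c : ℤ} {Q m Y bm Bm : ℕ} (hg : Int.gcd a c ∣ Q) (h0 : 0 < bm)
    (ha : (bm : ℤ) ≤ |a| ∧ |a| ≤ Bm) (hc : |c| ≤ Bm) (hm : Q * m ≤ Y) :
    ∃ t t' : ℤ, a * t + c * t' = Q * m ∧ |t| ≤ ((Y / bm + Bm + 1 : ℕ) : ℤ) ∧
      |t'| ≤ ((Y / bm + Bm + 1 : ℕ) : ℤ) := by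
  obtain ⟨k, hk⟩ := hg
  have hb0 : (0 : ℤ) < bm := by exact_mod_cast h0
  have ha0 : a ≠ 0 := fun e => by
    rw [e, abs_zero] at ha
    omega
  have e1 : (Q : ℤ) * m = a * (Int.gcdA a c * k * m) + c * (Int.gcdB a c * k * m) := by
    rw [hk]
    push_cast
    rw [Int.gcd_eq_gcd_ab]
    ring
  obtain ⟨y, hy⟩ : ∃ y, y = Int.gcdB a c * k * m := ⟨_, rfl⟩
  obtain ⟨x, hx⟩ : ∃ x, x = Int.gcdA a c * k * m := ⟨_, rfl⟩
  rw [← hx, ← hy] at e1
  have e2 := Int.mul_ediv_add_emod y a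
  have e3 := Int.emod_nonneg y ha0
  have e4 := Int.emod_lt_abs y ha0
  have e5 : a * (x + c * (y / a)) + c * (y % a) = Q * m := by
    rw [e1]
    linear_combination c * e2
  have hY : (0 : ℤ) ≤ ((Y / bm : ℕ) : ℤ) := Nat.cast_nonneg _
  refine ⟨x + c * (y / a), y % a, e5, ?_, ?_⟩
  · obtain ⟨t, ht⟩ : ∃ t, t = x + c * (y / a) := ⟨_, rfl⟩
    rw [← ht] at e5 ⊢
    have a1 : |a| * |t| ≤ Q * m + Bm * |a| := by
      rw [← abs_mul, show a * t = Q * m - c * (y % a) by linarith]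
      refine (abs_sub _ _).trans (add_le_add (abs_of_nonneg (by positivity)).le ?_)
      rw [abs_mul, abs_of_nonneg e3]
      exact mul_le_mul hc e4.le e3 (Nat.cast_nonneg _)
    have a2 : (Q : ℤ) * m < ((Y / bm : ℕ) + 1 : ℤ) * bm := by
      have a3 : Y < (Y / bm + 1) * bm := by
        have a4 := Nat.lt_mul_div_succ Y h0
        rwa [mul_comm] at a4
      exact_mod_cast hm.trans_lt a3
    have a3 : (((Y / bm : ℕ) + 1 : ℤ)) * bm ≤ ((Y / bm : ℕ) + 1 : ℤ) * |a| :=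
      mul_le_mul_of_nonneg_left ha.1 (by linarith)
    have a4 : (0 : ℤ) < |a| := abs_pos.2 ha0
    refine le_of_mul_le_mul_left ?_ a4
    push_cast [-Int.natCast_ediv]
    nlinarith
  · rw [abs_of_nonneg e3]
    push_cast [-Int.natCast_ediv]
    linarith [ha.2]

theorem bad_le {Θ : Type} {s s' : ℕ} {κ : ℝ} {T : Finset Θ} {μ : Θ → ℝ} {b : Θ → Fin s → ℤ}
    {N H D Q lm bm Bm : ℕ} (h : Reach s' κ T μ b N H D Q lm bm Bm) (r : Fin s) :
    (∑ θ ∈ T, ∑ θ' ∈ T, if (∀ r', Int.gcd (b θ r) (b θ' r') ∣ Q) then 0 else μ θ * μ θ') ≤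
      s * κ := by
  have h1 : ∑ r' : Fin s, ∑ θ ∈ T, ∑ θ' ∈ T,
      (if Int.gcd (b θ r) (b θ' r') ∣ Q then 0 else μ θ * μ θ') ≤ s * κ := by
    refine (sum_le_sum fun r' _ => h.gc r r').trans ?_
    simp
  refine le_trans ?_ h1
  rw [sum_comm (s := univ)]
  refine sum_le_sum fun θ hθ => ?_
  rw [sum_comm (s := univ)]
  refine sum_le_sum fun θ' hθ' => ?_
  have h2 := mul_nonneg (h.m0 θ hθ) (h.m0 θ' hθ')
  have h3 : ∀ r' ∈ (univ : Finset (Fin s)),
      0 ≤ (if Int.gcd (b θ r) (b θ' r') ∣ Q then 0 else μ θ * μ θ') := fun r' _ => by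
    split_ifs
    · exact le_rfl
    · exact h2
  split_ifs with h4
  · exact sum_nonneg h3
  · push Not at h4
    obtain ⟨r', h5⟩ := h4
    have h6 := single_le_sum h3 (mem_univ r')
    rwa [if_neg h5] at h6

theorem ind (hC : StCStep) (s s₀ : ℕ) (j : ℕ) : j ≤ s → ∀ n : ℕ, n * 2 ^ j = s₀ →
    ∀ ε : ℝ, 0 < ε → ∃ κ : ℝ, 0 < κ ∧
    ∀ (Θ : Type) (T : Finset Θ) (μ : Θ → ℝ) (b : Θ → Fin s → ℤ) (N H D Q lm bm Bm : ℕ)
      (u : ℤ → ℝ), Reach (s₀ + 1) κ T μ b N H D Q lm bm Bm → (∀ x, |u x| ≤ 1) →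
      (∀ x, u x ≠ 0 → (N : ℤ) ≤ x ∧ x < 2 * N) →
      boxN N u (fun _ : Fin (s₀ + 1) => (Q : ℤ)) (fun _ => D) ≤ κ →
      ∀ (ι : Type) (_ : Fintype ι) (_ : DecidableEq ι) (J : Finset ι) (σ : ι → Fin s)
        (bb : Θ → ι → ℤ) (L : ι → ℕ), Fintype.card ι = n + 1 → J.card = j →
        (∀ r ∈ J, (∀ θ, bb θ r = b θ (σ r)) ∧ L r = H / lm ^ (s - j)) →
        (∀ r, r ∉ J → (∀ θ, bb θ r = Q) ∧ L r = D * lm ^ j) →
        ∑ θ ∈ T, μ θ * boxN N u (bb θ) L ≤ ε := by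
  induction j with
  | zero =>
    intro _ n hn ε hε
    refine ⟨ε, hε, ?_⟩
    intro Θ T μ b N H D Q lm bm Bm u hR _ _ hB ι _ _ J σ bb L hι hJ _ h2
    rw [card_eq_zero] at hJ
    subst hJ
    have e1 : ∀ θ, bb θ = fun _ => (Q : ℤ) := fun θ =>
      funext fun r => (h2 r (notMem_empty r)).1 θ
    have e2 : L = fun _ => D := funext fun r => by
      rw [(h2 r (notMem_empty r)).2, pow_zero, mul_one]
    have e3 : Fintype.card ι = s₀ + 1 := by omega
    calc ∑ θ ∈ T, μ θ * boxN N u (bb θ) L ≤ ∑ θ ∈ T, μ θ * ε :=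
          sum_le_sum fun θ hθ => mul_le_mul_of_nonneg_left (by
            rw [e1, e2, box_congr (Fintype.equivFinOfCardEq e3)]
            exact hB) (hR.m0 θ hθ)
      _ ≤ ε := by
          rw [← sum_mul]
          exact mul_le_of_le_one_left hε.le hR.m1
  | succ j ih =>
    intro hj n hn ε hε
    obtain ⟨τ, hτ⟩ : ∃ τ : ℝ, τ = ε ^ 2 / 20 := ⟨_, rfl⟩
    have hτ0 : 0 < τ := by rw [hτ]; positivity
    obtain ⟨p, hp⟩ : ∃ p : ℝ, p = τ ^ (2 ^ (2 * (n + 1) - 1) - 1) := ⟨_, rfl⟩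
    have hp0 : 0 < p := by rw [hp]; positivity
    obtain ⟨κ', k0, k1⟩ := ih (by omega) (2 * n) (by rw [← hn]; ring) (p * τ) (by positivity)
    have hc0 : (0 : ℝ) < s + 8 * (n + 1) := by positivity
    refine ⟨min κ' (10 * τ / (s + 8 * (n + 1))), lt_min k0 (by positivity), ?_⟩
    intro Θ T μ b N H D Q lm bm Bm u hR hu1 hu2 hB ι _ _ J σ bb L hι hJ h1 h2
    obtain ⟨κ, hκ⟩ : ∃ κ, κ = min κ' (10 * τ / (s + 8 * (n + 1))) := ⟨_, rfl⟩
    rw [← hκ] at hR hB
    have hκ1 : κ ≤ κ' := hκ ▸ min_le_left _ _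
    have hκ2 : κ * (s + 8 * (n + 1)) ≤ 10 * τ := (le_div_iff₀ hc0).1 (hκ ▸ min_le_right _ _)
    obtain ⟨r₀, hr₀⟩ : J.Nonempty := card_pos.1 (by omega)
    have hlm : 0 < lm := Nat.pos_of_ne_zero fun e => by
      have h3 := hR.lm0
      rw [e] at h3
      norm_num at h3
    have hpw : ∀ i, i ≤ s + 2 → lm ^ i ≤ lm ^ (s + 2) := fun i hi => Nat.pow_le_pow_right hlm hi
    have hpp : ∀ i, 0 < lm ^ i := fun i => pow_pos hlm i
    have hQD : 0 < Q * D := Nat.mul_pos hR.Q0 hR.D0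
    have hN : 0 < N := lt_of_lt_of_le (by have := hR.Q0; have := hR.D0; positivity) hR.h3
    obtain ⟨X, hX⟩ : ∃ X, X = Q * D * lm ^ (s + 2) / bm + Bm + 1 := ⟨_, rfl⟩
    have hH : lm ^ (s + 2) * X ≤ H := hX ▸ hR.h1
    have hsj : s - j = s - (j + 1) + 1 := by omega
    have hXL : X * lm ≤ H / lm ^ (s - (j + 1)) := by
      rw [Nat.le_div_iff_mul_le (hpp _), mul_assoc, ← pow_succ', mul_comm]
      exact (Nat.mul_le_mul_right _ (hpw _ (by omega))).trans hH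
    have hn2 : 2 * (n + 1) ≤ s₀ + 1 + 1 := by
      have h3 : n * 2 ^ 1 ≤ n * 2 ^ (j + 1) :=
        Nat.mul_le_mul_left _ (Nat.pow_le_pow_right (by norm_num) (by omega))
      omega
    obtain ⟨L', hL'⟩ : ∃ L' : ι → ℕ, ∀ r, L' r = if r ∈ J then H / lm ^ (s - j) else D * lm ^ j :=
      ⟨_, fun _ => rfl⟩
    have key := hC ι Θ r₀ T μ bb L L' N Q (D * lm ^ j) lm
      (fun θ θ' => ∀ r', Int.gcd (b θ (σ r₀)) (b θ' r') ∣ Q) u τ hR.m0 hR.m1 hu1 hu2 hN hlm
      (Nat.mul_pos hR.D0 (hpp j)) hτ0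
      (fun r => by
        rw [hL']
        split_ifs with hr
        · rw [(h1 r hr).2]
          refine ⟨Nat.div_pos ?_ (hpp _), ?_⟩
          · exact (hpw _ (by omega)).trans ((Nat.le_mul_of_pos_right _ (hX ▸ Nat.succ_pos _)).trans hH)
          · rw [hsj, pow_succ, ← Nat.div_div_eq_div_mul]
            exact Nat.div_mul_le_self _ _
        · rw [(h2 r hr).2, pow_succ, mul_assoc]
          exact ⟨Nat.mul_pos hR.D0 (hpp j), le_rfl⟩)
      (fun θ hθ θ' hθ' hg r m hm => by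
        by_cases hr : r ∈ J
        · obtain ⟨t, t', e, b1, b2⟩ := bezout (m := m) (Y := Q * D * lm ^ (s + 2)) (hg (σ r))
            hR.bm0 (hR.sz θ hθ _) (hR.sz θ' hθ' _).2 (by
              rw [mul_assoc]
              exact Nat.mul_le_mul_left _
                (hm.le.trans (Nat.mul_le_mul_left _ (hpw _ (by omega)))))
          rw [← hX] at b1 b2
          have b3 : (X : ℤ) * lm ≤ ((H / lm ^ (s - (j + 1)) : ℕ) : ℤ) := by exact_mod_cast hXL
          refine ⟨t, t', by rw [(h1 r₀ hr₀).1, (h1 r hr).1]; exact e, ?_, ?_⟩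
          · rw [(h1 r₀ hr₀).2]
            exact (mul_le_mul_of_nonneg_right b1 (Nat.cast_nonneg _)).trans b3
          · rw [(h1 r hr).2]
            exact (mul_le_mul_of_nonneg_right b2 (Nat.cast_nonneg _)).trans b3
        · refine ⟨0, m, by rw [(h2 r hr).1]; ring, by simp, ?_⟩
          rw [(h2 r hr).2, abs_of_nonneg (Nat.cast_nonneg _), pow_succ, ← mul_assoc]
          exact_mod_cast Nat.mul_le_mul_right lm hm.le)
      (fun θ hθ => by
        have a1 : ∀ r ∈ (univ : Finset ι), |bb θ r| * L' r ≤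
            ((Bm * H + Q * (D * lm ^ j) : ℕ) : ℤ) := fun r _ => by
          rw [hL']
          split_ifs with hr
          · rw [(h1 r hr).1]
            have a2 : ((H / lm ^ (s - j) : ℕ) : ℤ) ≤ H := by
              exact_mod_cast Nat.div_le_self _ _
            refine (mul_le_mul (hR.sz θ hθ _).2 a2 (Nat.cast_nonneg _)
              (Nat.cast_nonneg _)).trans ?_
            exact_mod_cast Nat.le_add_right _ _
          · rw [(h2 r hr).1, abs_of_nonneg (Nat.cast_nonneg _)]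
            exact_mod_cast Nat.le_add_left _ _
        have a2 := sum_le_card_nsmul _ _ _ a1
        rw [card_univ, hι, nsmul_eq_mul] at a2
        have a3 : (n + 1) * (Bm * H + Q * (D * lm ^ j)) + (n + 1) * Q * (D * lm ^ j) ≤ 2 * N := by
          have a4 : (n + 1) * (Bm * H) ≤ (s₀ + 1 + 1) * (Bm * H) :=
            Nat.mul_le_mul_right _ (by omega)
          have a5 : 2 * (n + 1) * (Q * (D * lm ^ j)) ≤
              (s₀ + 1 + 1) * (Q * (D * lm ^ (s + 2))) := Nat.mul_le_mul hn2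
            (Nat.mul_le_mul_left _ (Nat.mul_le_mul_left _ (hpw _ (by omega))))
          have a6 := hR.h2
          have a7 := hR.h3
          have e1 : (s₀ + 1 + 1) * (Bm * H) = (s₀ + 1 + 1) * Bm * H := by ring
          have e2 : (s₀ + 1 + 1) * (Q * (D * lm ^ (s + 2))) =
            (s₀ + 1 + 1) * Q * D * lm ^ (s + 2) := by ring
          have e3 : (n + 1) * (Bm * H + Q * (D * lm ^ j)) + (n + 1) * Q * (D * lm ^ j) =
            (n + 1) * (Bm * H) + 2 * (n + 1) * (Q * (D * lm ^ j)) := by ring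
          omega
        rw [hι]
        refine (add_le_add_left a2 _).trans ?_
        exact_mod_cast a3)
    have hA := k1 Θ T μ b N H D Q lm bm Bm u (mono hR hκ1) hu1 hu2 (hB.trans hκ1)
      ({r // r ≠ r₀} ⊕ ι) inferInstance inferInstance ((J.subtype fun r => r ≠ r₀).map Function.Embedding.inl)
      (Sum.elim (fun r => σ r.1) σ)
      (fun θ => Sum.elim (fun r : {r // r ≠ r₀} => bb θ r) fun _ : ι => (Q : ℤ))
      (Sum.elim (fun r : {r // r ≠ r₀} => L' r) fun _ : ι => D * lm ^ j)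
      (by
        rw [Fintype.card_sum, Fintype.card_subtype_compl, Fintype.card_subtype_eq, hι]
        omega)
      (by
        rw [card_map, card_subtype, filter_ne', card_erase_of_mem hr₀, hJ]
        rfl)
      (fun r hr => by
        obtain ⟨x, hx, rfl⟩ := mem_map.1 hr
        have h3 := mem_subtype.1 hx
        exact ⟨(h1 x h3).1, (hL' x).trans (if_pos h3)⟩)
      (fun r hr => by
        rcases r with x | x
        · have h3 : x.1 ∉ J := fun h4 => hr (mem_map.2 ⟨x, mem_subtype.2 h4, rfl⟩)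
          exact ⟨(h2 x h3).1, (hL' x).trans (if_neg h3)⟩
        · exact ⟨fun _ => rfl, rfl⟩)
    rw [hι, ← hp] at key
    have b1 := bad_le hR (σ r₀)
    have b2 : (8 : ℝ) * ((n + 1 : ℕ) : ℝ) / lm ≤ 8 * (n + 1) * κ := by
      rw [div_le_iff₀ (by exact_mod_cast hlm), mul_assoc (8 * ((n : ℝ) + 1))]
      push_cast
      exact le_mul_of_one_le_right (by positivity) hR.lm0
    have b3 := (div_le_iff₀' hp0).2 hA
    refine (abs_le_of_sq_le_sq' (key.trans ?_) hε.le).2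
    have b4 : ε ^ 2 = 20 * τ := by rw [hτ]; ring
    refine le_trans (add_le_add (add_le_add (le_of_eq_of_le ?_ b1) b2)
      (mul_le_mul_of_nonneg_left (add_le_add le_rfl b3) (by norm_num))) (by linarith)
    congr!

end ConcAux

theorem stConc (hCStep : StCStep) : StConc := by
  intro s hs
  refine ⟨(s - 1) * 2 ^ s, ?_, fun ε hε => ?_⟩
  · have h1 : s < 2 ^ s := Nat.lt_two_pow_self
    have h2 : 1 * 2 ^ s ≤ (s - 1) * 2 ^ s := Nat.mul_le_mul_right _ (by omega)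
    omega
  · obtain ⟨κ, k0, k1⟩ := ConcAux.ind hCStep s _ s le_rfl (s - 1) rfl ε hε
    refine ⟨κ, k0, fun Θ T μ b N H D Q lm bm Bm u hR h1 h2 h3 => ?_⟩
    exact k1 Θ T μ b N H D Q lm bm Bm u hR h1 h2 h3 (Fin s) _ _ univ id b _
      (by rw [Fintype.card_fin]; omega) (by simp) (fun r _ => ⟨fun _ => rfl, by simp⟩)
      fun r hr => absurd (mem_univ r) hr

end Pool.Agent.Lib.MP_7d3fda_nt.Q3
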