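import Pool.Agent.Lib.MP_7d3fda_nt.Q3.Dns

open Finset Filter
open scoped Classical

noncomputable section

namespace Pool.Agent.Lib.MP_7d3fda_nt.Q3

open Pool.Agent.Lib.MP_4b8564_nt Pool.Agent.Lib.MP_4b8564_nt.GT
open Pool.Agent.Lib.MP_0a3467_an

namespace CutRAux

/-- the variables -/
abbrev W (n : ℕ) : Type := (Fin n × Bool) × Fin 2

/-- a vertex of the cube -/
def vt {n : ℕ} (x : O) (m : ℕ) (ω : Finset (Fin n)) (g : W n → ℤ) : O :=
  x + (m : O) * ∑ r, emZ fun j => g ((r, decide (r ∈ ω)), j)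

/-- the indicator of a zero of the norm -/
def ind {n : ℕ} (x : O) (m p : ℕ) (ω : Finset (Fin n)) (g : W n → ℤ) : ℝ :=
  if (p : ℤ) ∣ (vt x m ω g).norm then 1 else 0

/-- some vertex of the family is a zero of the norm -/
def Hit {n : ℕ} (x : O) (m : ℕ) (U : Finset (Finset (Fin n))) (p : ℕ) (g : W n → ℤ) : Prop :=
  ∃ ω ∈ U, (p : ℤ) ∣ (vt x m ω g).norm

theorem vt_congr {n : ℕ} (x : O) (m p : ℕ) (ω : Finset (Fin n)) {g g' : W n → ℤ}
    (h : ∀ v, (p : ℤ) ∣ g v - g' v) :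
    (p : ℤ) ∣ (vt x m ω g).norm ↔ (p : ℤ) ∣ (vt x m ω g').norm := by
  refine dvd_iff_dvd_of_dvd_sub (norm_congr ?_)
  rw [vt, vt, add_sub_add_left_eq_sub, ← mul_sub, ← sum_sub_distrib]
  refine Dvd.dvd.mul_left (dvd_sum fun r _ => (natCast_dvd_iff _ _).2 ?_) _
  exact ⟨h _, h _⟩

theorem bav_curry {n L : ℕ} (Φ : (W n → ℤ) → ℝ) :
    bav L Φ = av fun G : Fin n × Bool → Fin 2 → Fin L => Φ fun v => ((G v.1 v.2 : ℕ) : ℤ) := by
  rw [bav, ← av_equiv (Equiv.curry (Fin n × Bool) (Fin 2) (Fin L)).symm]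
  rfl

theorem vt_update {n L : ℕ} (x : O) (m : ℕ) (ω : Finset (Fin n)) (r₀ : Fin n)
    (G : Fin n × Bool → Fin 2 → Fin L) (c : Fin 2 → Fin L) :
    vt x m ω (fun v => ((Function.update G (r₀, decide (r₀ ∈ ω)) c v.1 v.2 : ℕ) : ℤ)) =
      (x + (m : O) * ∑ r ∈ univ.erase r₀, emZ fun j => ((G (r, decide (r ∈ ω)) j : ℕ) : ℤ)) +
        (m : O) * emZ fun j => ((c j : ℕ) : ℤ) := by
  rw [vt, ← sum_erase_add _ _ (mem_univ r₀), mul_add, add_assoc]
  simp only [Function.update_self]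
  congr 3
  refine sum_congr rfl fun r hr => ?_
  have : (r, decide (r ∈ ω)) ≠ (r₀, decide (r₀ ∈ ω)) := fun e =>
    (mem_erase.1 hr).1 (congrArg Prod.fst e)
  simp only [Function.update_of_ne this]

theorem vt_update_ne {n L : ℕ} (x : O) (m : ℕ) (ω : Finset (Fin n)) (r₀ : Fin n) (b : Bool)
    (hb : decide (r₀ ∈ ω) ≠ b) (G : Fin n × Bool → Fin 2 → Fin L) (c : Fin 2 → Fin L) :
    vt x m ω (fun v => ((Function.update G (r₀, b) c v.1 v.2 : ℕ) : ℤ)) =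
      vt x m ω (fun v => ((G v.1 v.2 : ℕ) : ℤ)) := by
  rw [vt, vt]
  congr 2
  refine sum_congr rfl fun r _ => ?_
  have : (r, decide (r ∈ ω)) ≠ (r₀, b) := fun e => by
    obtain ⟨e1, e2⟩ := Prod.mk.inj e
    exact hb (e1 ▸ e2)
  simp only [Function.update_of_ne this]

theorem inner {n p m : ℕ} (hp : p.Prime) (hm : ¬p ∣ m) (x : O) (ω : Finset (Fin n)) (r₀ : Fin n)
    (G : Fin n × Bool → Fin 2 → Fin p) :
    av (fun c : Fin 2 → Fin p => ind x m p ω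
      (fun v => ((Function.update G (r₀, decide (r₀ ∈ ω)) c v.1 v.2 : ℕ) : ℤ))) = rN p := by
  simp only [ind, vt_update]
  exact bav_norm_eq hp hm _

theorem one {n p m : ℕ} (hp : p.Prime) (hm : ¬p ∣ m) (x : O) (ω : Finset (Fin (n + 1))) :
    bav p (ind x m p ω) = rN p := by
  have : Nonempty (Fin p) := ⟨⟨0, hp.pos⟩⟩
  rw [bav_curry, av_update (0, decide ((0 : Fin (n + 1)) ∈ ω))]
  simp only [inner hp hm, av_const]

theorem two {n p m : ℕ} (hp : p.Prime) (hm : ¬p ∣ m) (x : O) {ω ω' : Finset (Fin (n + 1))}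
    (h : ω ≠ ω') : bav p (fun g => ind x m p ω g * ind x m p ω' g) = rN p * rN p := by
  have : Nonempty (Fin p) := ⟨⟨0, hp.pos⟩⟩
  obtain ⟨r₀, hr⟩ : ∃ r₀, decide (r₀ ∈ ω') ≠ decide (r₀ ∈ ω) := by
    by_contra hn
    push Not at hn
    exact h (Finset.ext fun r => by simpa using (hn r).symm)
  have h1 := one hp hm x ω'
  rw [bav_curry] at h1
  rw [bav_curry, av_update (r₀, decide (r₀ ∈ ω)), ← h1]
  conv_rhs => rw [h1, mul_comm]; arg 1; rw [← h1]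
  rw [← av_mul_const]
  refine av_congr fun G => ?_
  have h2 : ∀ c : Fin 2 → Fin p, ind x m p ω'
      (fun v => ((Function.update G (r₀, decide (r₀ ∈ ω)) c v.1 v.2 : ℕ) : ℤ)) =
      ind x m p ω' (fun v => ((G v.1 v.2 : ℕ) : ℤ)) := fun c => by
    rw [ind, ind, vt_update_ne x m ω' r₀ _ hr]
  simp only [h2]
  rw [av_mul_const, inner hp hm, mul_comm]

/-- the two first Bonferroni inequalities -/
theorem bonf {κ : Type} (U : Finset κ) (E : κ → Prop) :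
    (if ∃ ω ∈ U, E ω then (1 : ℝ) else 0) ≤ ∑ ω ∈ U, (if E ω then 1 else 0) ∧
    ∑ ω ∈ U, (if E ω then (1 : ℝ) else 0) -
      ∑ t ∈ U.offDiag, (if E t.1 then (1 : ℝ) else 0) * (if E t.2 then 1 else 0) ≤
      (if ∃ ω ∈ U, E ω then (1 : ℝ) else 0) := by
  have h1 : ∑ ω ∈ U, (if E ω then (1 : ℝ) else 0) = (U.filter E).card := by simp [sum_boole]
  have h2 : ∑ t ∈ U.offDiag, (if E t.1 then (1 : ℝ) else 0) * (if E t.2 then 1 else 0) =
      ((U.filter E).offDiag.card : ℝ) := by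
    have : (U.filter E).offDiag = U.offDiag.filter fun t => E t.1 ∧ E t.2 := by
      ext t; simp only [mem_offDiag, mem_filter]; tauto
    rw [this, ← sum_boole]
    refine sum_congr rfl fun t _ => ?_
    by_cases a : E t.1 <;> by_cases b : E t.2 <;> simp [a, b]
  rw [h1, h2, offDiag_card]
  split_ifs with h
  · obtain ⟨ω, hω, hE⟩ := h
    have h3 : 1 ≤ (U.filter E).card := card_pos.2 ⟨ω, mem_filter.2 ⟨hω, hE⟩⟩
    have h4 : (1 : ℝ) ≤ (U.filter E).card := by exact_mod_cast h3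
    rw [Nat.cast_sub (Nat.le_mul_self _)]
    push_cast
    exact ⟨h4, by nlinarith [sq_nonneg (((U.filter E).card : ℝ) - 1)]⟩
  · have h3 : U.filter E = ∅ := filter_eq_empty_iff.2 fun ω hω hE => h ⟨ω, hω, hE⟩
    simp [h3]

/-- the local density of the union -/
theorem loc {n p m : ℕ} (hp : p.Prime) (hm : ¬p ∣ m) (x : O) (U : Finset (Finset (Fin (n + 1)))) :
    bav p (fun g => if Hit x m U p g then 1 else 0) ≤ U.card * rN p ∧
    U.card * rN p - (U.card : ℝ) ^ 2 * rN p ^ 2 ≤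
      bav p (fun g => if Hit x m U p g then 1 else 0) := by
  have e1 : bav p (fun g => ∑ ω ∈ U, ind x m p ω g) = U.card * rN p := by
    rw [bav_sum, sum_congr rfl fun ω _ => one hp hm x ω]; simp
  have e2 : bav p (fun g => ∑ t ∈ U.offDiag, ind x m p t.1 g * ind x m p t.2 g) =
      U.offDiag.card * (rN p * rN p) := by
    rw [bav_sum, sum_congr rfl fun t ht => two hp hm x (mem_offDiag.1 ht).2.2]; simp
  refine ⟨?_, ?_⟩
  · rw [← e1]
    exact bav_mono fun g => by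
      unfold ind Hit
      convert (bonf U fun ω => (p : ℤ) ∣ (vt x m ω g).norm).1
  · have e3 : (U.offDiag.card : ℝ) ≤ (U.card : ℝ) ^ 2 := by
      rw [offDiag_card, sq]; exact_mod_cast Nat.sub_le _ _
    have e4 : U.card * rN p - U.offDiag.card * (rN p * rN p) ≤
        bav p (fun g => if Hit x m U p g then 1 else 0) := by
      rw [← e1, ← e2, ← bav_sub]
      exact bav_mono fun g => by
        unfold ind Hit
        convert (bonf U fun ω => (p : ℤ) ∣ (vt x m ω g).norm).2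
    nlinarith [mul_self_nonneg (rN p)]

theorem pow_upper {r : ℝ} (h0 : 0 ≤ r) (h1 : r ≤ 1) (u : ℕ) :
    (1 - r) ^ u ≤ 1 - u * r + (u : ℝ) ^ 2 * r ^ 2 := by
  induction u with
  | zero => simp
  | succ u ih =>
    have h2 : (1 - r) ^ (u + 1) ≤ (1 - u * r + (u : ℝ) ^ 2 * r ^ 2) * (1 - r) := by
      rw [pow_succ]; exact mul_le_mul_of_nonneg_right ih (by linarith)
    have hu : (0 : ℝ) ≤ u := Nat.cast_nonneg u
    push_cast
    nlinarith [mul_nonneg (sq_nonneg (u * r)) h0, mul_nonneg hu (sq_nonneg r), sq_nonneg r]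

theorem ratio {r ρ q : ℝ} {u N : ℕ} (hu : u ≤ N) (hN : 0 < N) (hq : 4 * (N : ℝ) ≤ q) (h0 : 0 ≤ r)
    (h1 : r ≤ 2 / q) (h2 : ρ ≤ u * r) (h3 : u * r - (u : ℝ) ^ 2 * r ^ 2 ≤ ρ) :
    |(1 - r)⁻¹ ^ u * (1 - ρ) - 1| ≤ 8 * (N : ℝ) ^ 2 / q ^ 2 := by
  have hN' : (1 : ℝ) ≤ N := by exact_mod_cast hN
  have hu' : (u : ℝ) ≤ N := by exact_mod_cast hu
  have hu0 : (0 : ℝ) ≤ u := Nat.cast_nonneg u
  have hq0 : 0 < q := by linarith
  have h4 : r * q ≤ 2 := (le_div_iff₀ hq0).1 h1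
  have h5 : N * r ≤ 1 / 2 := by nlinarith
  have h6 : r ≤ 1 / 2 := by nlinarith
  have h7 : u * r ≤ N * r := mul_le_mul_of_nonneg_right hu' h0
  have h8 : 1 - u * r ≤ (1 - r) ^ u := by
    have := one_add_mul_le_pow (a := -r) (by linarith) u
    simpa [sub_eq_add_neg] using this
  have h9 := pow_upper h0 (by linarith) u
  have h10 : (u : ℝ) ^ 2 * r ^ 2 ≤ 4 * (N : ℝ) ^ 2 / q ^ 2 := by
    rw [le_div_iff₀ (by positivity)]
    have : (u * r * q) ^ 2 ≤ (2 * N) ^ 2 := by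
      refine pow_le_pow_left₀ (by positivity) ?_ 2
      nlinarith
    nlinarith
  have h11 : 1 / 2 ≤ (1 - r) ^ u := by linarith
  have h12 : (1 - r)⁻¹ ^ u * (1 - ρ) - 1 = (1 - ρ - (1 - r) ^ u) / (1 - r) ^ u := by
    rw [inv_pow]; field_simp
  rw [h12, abs_div, abs_of_pos (by linarith : (0 : ℝ) < (1 - r) ^ u), div_le_iff₀ (by linarith)]
  have h13 : |1 - ρ - (1 - r) ^ u| ≤ 4 * (N : ℝ) ^ 2 / q ^ 2 := abs_le.2 ⟨by linarith, by linarith⟩
  have h14 : 0 ≤ 4 * (N : ℝ) ^ 2 / q ^ 2 := by positivity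
  have h15 : 8 * (N : ℝ) ^ 2 / q ^ 2 = 2 * (4 * (N : ℝ) ^ 2 / q ^ 2) := by ring
  rw [h15]
  nlinarith

theorem abs_prod_sub_one {κ : Type} (s : Finset κ) (t c : κ → ℝ) (h : ∀ i ∈ s, |t i - 1| ≤ c i) :
    |∏ i ∈ s, t i - 1| ≤ ∏ i ∈ s, (1 + c i) - 1 := by
  induction s using Finset.induction_on with
  | empty => simp
  | insert a s ha ih =>
    rw [prod_insert ha, prod_insert ha]
    have h1 := h a (mem_insert_self a s)
    have h2 := ih fun i hi => h i (mem_insert_of_mem hi)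
    have h3 : t a * ∏ i ∈ s, t i - 1 =
        (t a - 1) * (∏ i ∈ s, t i - 1) + (t a - 1) + (∏ i ∈ s, t i - 1) := by ring
    rw [h3]
    refine (abs_add_three _ _ _).trans ?_
    rw [abs_mul]
    have h4 := mul_le_mul h1 h2 (abs_nonneg _) ((abs_nonneg _).trans h1)
    nlinarith

/-- the joint density of rough vertices -/
theorem core (hBrun : StBrun) {n m w y k L : ℕ} (x : O) (hm : ∀ p ∈ Sg.PP w y, ¬p ∣ m)
    (hw : 4 * 2 ^ (n + 1) ≤ w) (hr : ∀ p : ℕ, p.Prime → 0 ≤ rN p ∧ rN p ≤ 2 / p)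
    (hk : 16 * 2 ^ (n + 1) * ∑ p ∈ Sg.PP w y, 1 / (p : ℝ) ≤ k) (hy : 1 ≤ y) (hL : 0 < L)
    (hS : 1 ≤ SS w y) (U : Finset (Finset (Fin (n + 1)))) :
    |bav L (fun g => ∏ ω ∈ U, if Rough w y (vt x m ω g) then SS w y else 0) - 1| ≤
      etaP (8 * (2 ^ (n + 1)) ^ 2) w y 1 + SS w y ^ 2 ^ (n + 1) *
        (3 * (1 / 2) ^ k + 8 * (k + 2) * (4 * (n + 1)) * (y : ℝ) ^ (2 * k + 2) / L) := by
  have hP : ∀ p ∈ Sg.PP w y, p.Prime ∧ w < p ∧ p ≤ y := fun p hp => by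
    have := mem_filter.1 hp
    exact ⟨this.2, (mem_Ioc.1 this.1).1, (mem_Ioc.1 this.1).2⟩
  have hU : U.card ≤ 2 ^ (n + 1) := by
    simpa using card_le_univ U
  have hU' : (U.card : ℝ) ≤ 2 ^ (n + 1) := by exact_mod_cast hU
  have hB := hBrun (W (n + 1)) (Sg.PP w y) (Hit x m U)
    (fun _ => 1) 1 y k L 1
    (fun p hp => ⟨(hP p hp).1, (hP p hp).2.2, (hP p hp).1.not_dvd_one⟩) one_pos hy hL
    (fun p _ g g' h => by
      refine if_congr (exists_congr fun ω => and_congr_right fun _ => vt_congr x m p ω h) rfl rfl)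
    (fun _ _ _ => rfl) (fun _ => by simp) (by
      refine le_trans ?_ hk
      rw [mul_sum, mul_sum]
      refine sum_le_sum fun p hp => ?_
      have h1 := (loc (hP p hp).1 (hm p hp) x U).1
      have h2 := hr p (hP p hp).1
      have h3 : U.card * rN p ≤ 2 ^ (n + 1) * (2 / p) := mul_le_mul hU' h2.2 h2.1 (by positivity)
      have h4 : 16 * 2 ^ (n + 1) * (1 / (p : ℝ)) = 8 * (2 ^ (n + 1) * (2 / p)) := by ring
      rw [h4]
      exact mul_le_mul_of_nonneg_left (h1.trans h3) (by norm_num))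
  rw [bav_const one_pos] at hB
  simp only [mul_one, one_mul, Nat.cast_one] at hB
  have hc : (Fintype.card (W (n + 1)) : ℝ) = 4 * (n + 1) := by
    simp only [Fintype.card_prod, Fintype.card_fin, Fintype.card_bool]; push_cast; ring
  rw [hc] at hB
  have e1 : bav L (fun g => ∏ ω ∈ U, if Rough w y (vt x m ω g) then SS w y else 0) =
      SS w y ^ U.card * bav L (fun g => if ∀ p ∈ Sg.PP w y,
        ¬Hit x m U p g then 1 else 0) := by
    rw [← bav_const_mul]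
    refine congrArg _ (funext fun g => ?_)
    split_ifs with h
    · rw [mul_one, ← prod_const]
      exact prod_congr rfl fun ω hω => if_pos fun p hp hd => h p hp ⟨ω, hω, hd⟩
    · push Not at h
      obtain ⟨p, hp, ω, hω, hd⟩ := h
      rw [mul_zero]
      exact prod_eq_zero hω (if_neg fun h => h p hp hd)
  have e2 : |SS w y ^ U.card * ∏ p ∈ Sg.PP w y, (1 - bav p fun g =>
      if Hit x m U p g then 1 else 0) - 1| ≤
      etaP (8 * (2 ^ (n + 1)) ^ 2) w y 1 := by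
    have e3 : (Sg.PP w y).filter (fun p : ℕ => (p : ℤ) ∣ 1) = ∅ :=
      filter_eq_empty_iff.2 fun p hp h => (hP p hp).1.not_dvd_one (by exact_mod_cast h)
    rw [etaP, e3, prod_empty, mul_one, SS, ← prod_pow, ← prod_mul_distrib]
    refine abs_prod_sub_one _ _ _ fun p hp => ?_
    have h1 := loc (hP p hp).1 (hm p hp) x U
    have h2 := hr p (hP p hp).1
    have h3 : 4 * 2 ^ (n + 1) ≤ p := hw.trans (hP p hp).2.1.le
    have h4 := ratio (q := p) hU (by positivity) (by exact_mod_cast h3) h2.1 h2.2 h1.1 h1.2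
    push_cast at h4
    exact h4
  have e4 : SS w y ^ U.card ≤ SS w y ^ 2 ^ (n + 1) := pow_le_pow_right₀ hS hU
  rw [e1]
  set A := bav L (fun g => if ∀ p ∈ Sg.PP w y,
        ¬Hit x m U p g then (1 : ℝ) else 0)
  set B := ∏ p ∈ Sg.PP w y, (1 - bav p fun g =>
      if Hit x m U p g then (1 : ℝ) else 0)
  have hB' : |A - B| ≤
      3 * (1 / 2) ^ k + 8 * (k + 2) * (4 * (n + 1)) * (y : ℝ) ^ (2 * k + 2) / L := by
    convert hB
  have e5 : SS w y ^ U.card * A - 1 = (SS w y ^ U.card * B - 1) + SS w y ^ U.card * (A - B) := by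
    ring
  rw [e5]
  refine (abs_add_le _ _).trans (add_le_add e2 ?_)
  rw [abs_mul, abs_of_nonneg (by positivity)]
  exact mul_le_mul e4 hB' (abs_nonneg _) (by positivity)

/-- expansion of a product of centred factors -/
theorem expand {V κ : Type} [Fintype V] [DecidableEq V] [Fintype κ] [Nonempty κ] {L : ℕ}
    (a : κ → (V → ℤ) → ℝ) (η : ℝ) (h : ∀ U : Finset κ, |bav L (fun g => ∏ ω ∈ U, a ω g) - 1| ≤ η) :
    bav L (fun g => ∏ ω, (a ω g - 1)) ≤ 2 ^ Fintype.card κ * η := by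
  have e1 : ∀ b : κ → ℝ, ∏ ω, (b ω - 1) =
      ∑ U ∈ (univ : Finset κ).powerset, (-1) ^ (univ \ U).card * ∏ ω ∈ U, b ω := fun b => by
    simp only [sub_eq_add_neg]
    rw [prod_add]
    exact sum_congr rfl fun U _ => by rw [prod_const, mul_comm]
  have e2 : ∑ U ∈ (univ : Finset κ).powerset, (-1 : ℝ) ^ (univ \ U).card = 0 := by
    have := e1 fun _ => 1
    simp only [sub_self, prod_const_one, mul_one] at this
    rw [← this, prod_const, zero_pow (card_pos.2 univ_nonempty).ne']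
  simp only [e1]
  rw [bav_sum]
  simp only [bav_const_mul]
  have e3 : ∑ U ∈ (univ : Finset κ).powerset, (-1 : ℝ) ^ (univ \ U).card *
      bav L (fun g => ∏ ω ∈ U, a ω g) = ∑ U ∈ (univ : Finset κ).powerset,
        (-1 : ℝ) ^ (univ \ U).card * (bav L (fun g => ∏ ω ∈ U, a ω g) - 1) := by
    simp only [mul_sub, mul_one, sum_sub_distrib, e2, sub_zero]
  rw [e3]
  refine (sum_le_card_nsmul _ _ η fun U _ => (le_abs_self _).trans ?_).trans (le_of_eq ?_)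
  · rw [abs_mul, abs_neg_one_pow, one_mul]; exact h U
  · simp

/-- a pair of points of the box from the variables -/
def pt {n L : ℕ} (g : W n → Fin L) (b : Bool) (r : Fin n) : ℕ × ℕ :=
  ((g ((r, b), 0) : ℕ) + 1, (g ((r, b), 1) : ℕ) + 1)

theorem conv {n L : ℕ} (Φ : (Fin n → ℕ × ℕ) → (Fin n → ℕ × ℕ) → ℝ) :
    ∑ h ∈ Fintype.piFinset fun _ : Fin n => Cv.box L,
      ∑ h' ∈ Fintype.piFinset fun _ : Fin n => Cv.box L, Φ h h' =
      ∑ g : W n → Fin L, Φ (pt g false) (pt g true) := by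
  rw [← sum_product']
  symm
  refine sum_bij (fun g _ => (pt g false, pt g true)) (fun g _ => ?_) (fun g _ g' _ e => ?_)
    (fun z hz => ?_) fun _ _ => rfl
  · simp only [mem_product, Fintype.mem_piFinset, Cv.box, pt, mem_Ioc]
    exact ⟨fun r => ⟨⟨by omega, (g _).2⟩, by omega, (g _).2⟩,
      fun r => ⟨⟨by omega, (g _).2⟩, by omega, (g _).2⟩⟩
  · have e1 : ∀ b, pt g b = pt g' b := fun b => by
      cases b
      · exact congrArg Prod.fst e
      · exact congrArg Prod.snd e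
    funext v
    obtain ⟨⟨r, b⟩, j⟩ := v
    have e2 := congrFun (e1 b) r
    simp only [pt, Prod.mk.injEq, add_left_inj] at e2
    fin_cases j
    · exact Fin.ext e2.1
    · exact Fin.ext e2.2
  · simp only [mem_product, Fintype.mem_piFinset, Cv.box, mem_Ioc] at hz
    have hb : ∀ (b : Bool) (r : Fin n), (0 < ((cond b z.2 z.1) r).1 ∧ ((cond b z.2 z.1) r).1 ≤ L) ∧
        0 < ((cond b z.2 z.1) r).2 ∧ ((cond b z.2 z.1) r).2 ≤ L := fun b r => by
      cases b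
      · exact hz.1 r
      · exact hz.2 r
    refine ⟨fun v => if v.2 = 0 then ⟨((cond v.1.2 z.2 z.1) v.1.1).1 - 1, by
      have := hb v.1.2 v.1.1; omega⟩ else ⟨((cond v.1.2 z.2 z.1) v.1.1).2 - 1, by
      have := hb v.1.2 v.1.1; omega⟩, mem_univ _, ?_⟩
    refine Prod.ext (funext fun r => ?_) (funext fun r => ?_)
    · have := hz.1 r
      refine Prod.ext ?_ ?_ <;> simp [pt] <;> omega
    · have := hz.2 r
      refine Prod.ext ?_ ?_ <;> simp [pt] <;> omega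

theorem vt_pt {n L : ℕ} (x : O) (m : ℕ) (ω : Finset (Fin n)) (g : W n → Fin L) :
    x + (m : O) * ∑ r, em (if r ∈ ω then pt g true r else pt g false r) =
      vt (x + (m : O) * ∑ _r : Fin n, em (1, 1)) m ω fun v => ((g v : ℕ) : ℤ) := by
  rw [vt, add_assoc, ← mul_add, ← sum_add_distrib]
  congr 2
  refine sum_congr rfl fun r _ => ?_
  by_cases h : r ∈ ω <;> ext <;> simp [h, em, emZ, pt, add_comm]

/-- from the joint densities to the cut norm -/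
theorem cut (hBoxCS : StBoxCS) {n m L : ℕ} (hL : 0 < L) (x : O) (a : O → ℝ) (ε η : ℝ) (hε : 0 < ε)
    (hη : 2 ^ 2 ^ (n + 1) * η ≤ ε ^ 2 ^ (n + 1))
    (h : ∀ (x : O) (U : Finset (Finset (Fin (n + 1)))),
      |bav L (fun g => ∏ ω ∈ U, a (vt x m ω g)) - 1| ≤ η) :
    Cv.Cut (s := n + 1) (Cv.box L) (fun h => a (x + (m : O) * ∑ r, em (h r)) - 1) ε := by
  intro F hF
  have h1 := hBoxCS (Fin (n + 1)) (ℕ × ℕ) (fun _ => Cv.box L)
    (fun h => a (x + (m : O) * ∑ r, em (h r)) - 1) F hF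
  have h2 := expand (fun ω g => a (vt (x + (m : O) * ∑ _r : Fin (n + 1), em (1, 1)) m ω g)) η
    (h _)
  have hL' : (0 : ℝ) < L := by exact_mod_cast hL
  have hc : ((Cv.box L).card : ℝ) = (L : ℝ) ^ 2 := by simp [Cv.box, sq]
  rw [conv] at h1
  simp only [vt_pt] at h1
  rw [bav, av, div_le_iff₀ (by simp; positivity)] at h2
  simp only [Fintype.card_finset, Fintype.card_fin, Fintype.card_fun, Fintype.card_prod,
    Fintype.card_bool, prod_const, card_univ, hc] at h1 h2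
  rw [hc]
  have h3 : 2 ≤ 2 ^ (n + 1) := Nat.le_self_pow (by omega) 2 |>.trans' (le_refl _)
  refine le_of_pow_le_pow_left₀ (n := 2 ^ (n + 1)) (by positivity) (by positivity) (h1.trans ?_)
  refine (mul_le_mul_of_nonneg_left (h2.trans (mul_le_mul_of_nonneg_right hη (by positivity)))
    (by positivity)).trans (le_of_eq ?_)
  obtain ⟨t, ht⟩ := Nat.exists_eq_add_of_le h3
  rw [ht, Nat.add_sub_cancel_left]
  push_cast
  ring

theorem err {n a k y ρ : ℕ} {S η : ℝ} (ha : 2 ^ (n + 12) ≤ a) (hη : 0 < η) (hk : 1 ≤ k)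
    (hy : 1 ≤ y) (h1 : y ^ k ≤ ρ) (h2 : 1 ≤ S) (h3 : S ≤ Real.log ρ ^ 40)
    (h4 : (2 : ℝ) ^ k ≤ Real.log ρ ^ (2 * a)) (h5 : Real.log ρ ^ a ≤ (2 : ℝ) ^ k)
    (h6 : 1 ≤ Real.log ρ) (h7 : 3 / η ≤ Real.log ρ)
    (h8 : 96 * (n + 1) / η * Real.log ρ ^ (40 * 2 ^ (n + 1) + 2 * a) ≤ ρ) :
    S ^ 2 ^ (n + 1) * (3 * (1 / 2) ^ k +
      8 * (k + 2) * (4 * (n + 1)) * (y : ℝ) ^ (2 * k + 2) / ((ρ ^ a : ℕ) : ℝ)) ≤ 2 * η := by
  set l := Real.log ρ with hl
  have hN : 40 * 2 ^ (n + 1) + 5 ≤ a := by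
    have : 2 ^ (n + 12) = 2048 * 2 ^ (n + 1) := by ring
    have := Nat.one_le_two_pow (n := n + 1)
    omega
  have hρ : 1 ≤ ρ := (Nat.one_le_pow _ _ hy).trans h1
  have hρ' : (1 : ℝ) ≤ ρ := by exact_mod_cast hρ
  have e1 : S ^ 2 ^ (n + 1) ≤ l ^ (40 * 2 ^ (n + 1)) := by
    rw [pow_mul]; exact pow_le_pow_left₀ (by linarith) h3 _
  have e2 : l ^ (40 * 2 ^ (n + 1)) * (3 * (1 / 2) ^ k) ≤ η := by
    have a1 : l ^ (40 * 2 ^ (n + 1)) * l ≤ 2 ^ k := by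
      rw [← pow_succ]; exact (pow_le_pow_right₀ h6 (by omega)).trans h5
    have a2 : 3 ≤ l * η := (div_le_iff₀ hη).1 h7
    have a3 : 0 ≤ l ^ (40 * 2 ^ (n + 1)) := by positivity
    rw [one_div, inv_pow, ← mul_assoc, ← div_eq_mul_inv, div_le_iff₀ (by positivity)]
    nlinarith [mul_le_mul_of_nonneg_left a2 a3, mul_le_mul_of_nonneg_left a1 hη.le]
  have e3 : l ^ (40 * 2 ^ (n + 1)) *
      (8 * (k + 2) * (4 * (n + 1)) * (y : ℝ) ^ (2 * k + 2) / ((ρ ^ a : ℕ) : ℝ)) ≤ η := by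
    have a1 : y ^ (2 * k + 2) ≤ ρ ^ 4 := by
      calc y ^ (2 * k + 2) ≤ y ^ (k * 4) := Nat.pow_le_pow_right hy (by omega)
        _ ≤ ρ ^ 4 := by rw [pow_mul]; exact Nat.pow_le_pow_left h1 4
    have a2 : (y : ℝ) ^ (2 * k + 2) ≤ (ρ : ℝ) ^ 4 := by exact_mod_cast a1
    have a3 : (k : ℝ) + 2 ≤ 3 * l ^ (2 * a) := by
      have b1 : k + 2 ≤ 3 * 2 ^ k := by have := Nat.lt_two_pow_self (n := k); omega
      have b2 : (k : ℝ) + 2 ≤ 3 * 2 ^ k := by exact_mod_cast b1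
      linarith
    have a4 : (ρ : ℝ) * ρ ^ 4 ≤ ρ ^ a := by
      rw [← pow_succ']; exact pow_le_pow_right₀ hρ' (by omega)
    have a5 : 96 * (n + 1) * (l ^ (40 * 2 ^ (n + 1)) * l ^ (2 * a)) ≤ η * ρ := by
      rw [← pow_add]
      rw [div_mul_eq_mul_div, div_le_iff₀ hη] at h8
      linarith
    rw [← mul_div_assoc, div_le_iff₀ (by positivity)]
    push_cast
    calc _ ≤ l ^ (40 * 2 ^ (n + 1)) * (8 * (3 * l ^ (2 * a)) * (4 * (n + 1)) * (ρ : ℝ) ^ 4) := by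
          gcongr
      _ = 96 * (n + 1) * (l ^ (40 * 2 ^ (n + 1)) * l ^ (2 * a)) * (ρ : ℝ) ^ 4 := by ring
      _ ≤ η * ρ * (ρ : ℝ) ^ 4 := by gcongr
      _ ≤ η * (ρ : ℝ) ^ a := by rw [mul_assoc]; gcongr
  refine (mul_le_mul_of_nonneg_right e1 (by positivity)).trans ?_
  rw [mul_add]
  linarith

end CutRAux

open CutRAux in
theorem stCutR (hBoxCS : StBoxCS) (hBrun : StBrun) (hEta : StEta) (hScale : StScale) : StCutR := by
  intro d P hP ε hε
  obtain ⟨η, hη, hη'⟩ : ∃ η : ℝ, 0 < η ∧ 2 ^ 2 ^ (P.s + 1) * (3 * η) ≤ ε ^ 2 ^ (P.s + 1) :=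
    ⟨ε ^ 2 ^ (P.s + 1) / (3 * 2 ^ 2 ^ (P.s + 1)), by positivity, le_of_eq (by field_simp)⟩
  obtain ⟨w₁, hw₁⟩ := hEta (8 * (2 ^ (P.s + 1)) ^ 2) η (by positivity) hη
  obtain ⟨hr, hsum, -, hS⟩ := hScale
  have hE : Ev d P _ := ⟨4, fun w hw => hS d P hP 1 w hw⟩
  have H : ∀ w : ℕ, w₁ + d.e + 4 * 2 ^ (P.s + 1) ≤ w → ∀ᶠ ρ : ℕ in atTop,
      (1 ≤ Real.log ρ ∧ 3 / η ≤ Real.log ρ) ∧
        96 * (P.s + 1) / η * Real.log ρ ^ (40 * 2 ^ (P.s + 1) + 2 * P.a) ≤ ρ := fun _ _ =>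
    ((ev_log 1).and (ev_log _)).and (ev_log_pow _ _)
  refine (hE.and (Ev.of_eventually (d := d) (P := P) _ H)).mono ?_
  rintro S rfl rfl - ⟨⟨h1, -, h3, h4, h5, h6, h7, -⟩, hw, ⟨h8, h9⟩, h10⟩ x
  have ha := hP.ha
  have ha0 : 0 < S.P.a := lt_of_lt_of_le (by positivity) ha
  have hy : 1 ≤ S.y := by
    rw [pow_one] at h3
    exact_mod_cast h8.trans h3
  have hk : 1 ≤ S.k := Nat.mul_pos ha0 (Nat.succ_pos _)
  have hyρ : S.y ≤ S.ρ := (Nat.le_self_pow (by omega) _).trans h1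
  have hL : 0 < S.ρ ^ S.P.a := pow_pos (by omega) _
  have hm : ∀ p ∈ Sg.PP S.w S.y, ¬p ∣ S.F * S.Q := fun p hp hd => by
    have h := mem_filter.1 hp
    have h' := (mem_Ioc.1 h.1).1
    exact (h.2.dvd_mul.1 hd).elim (S.not_dvd_F (by omega) h.2 h') (S.not_dvd_Q (by omega) h.2 h')
  have hk2 : 16 * 2 ^ (S.P.s + 1) * ∑ p ∈ Sg.PP S.w S.y, 1 / (p : ℝ) ≤ S.k := by
    have a1 : ∑ p ∈ Sg.PP S.w S.y, 1 / (p : ℝ) ≤ ∑ p ∈ Sg.PP 0 S.ρ, 1 / (p : ℝ) :=
      sum_le_sum_of_subset_of_nonneg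
        (filter_subset_filter _ (Ioc_subset_Ioc (Nat.zero_le _) hyρ)) fun _ _ _ => by positivity
    have a2 : 16 * 2 ^ (S.P.s + 1) * (5 * (Nat.log 2 (Nat.log 2 S.ρ) + 1)) ≤ S.k := by
      rw [← mul_assoc, Sc.k]
      refine Nat.mul_le_mul_right _ ?_
      have : 2 ^ (S.P.s + 12) = 2048 * 2 ^ (S.P.s + 1) := by ring
      omega
    have a3 : (16 * 2 ^ (S.P.s + 1) * (5 * (Nat.log 2 (Nat.log 2 S.ρ) + 1 : ℕ)) : ℝ) ≤ S.k := by
      exact_mod_cast a2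
    exact (mul_le_mul_of_nonneg_left (a1.trans (hsum _)) (by positivity)).trans a3
  refine cut hBoxCS hL x (fun z => if Rough S.w S.y z then SS S.w S.y else 0) ε (3 * η) hε hη'
    fun x U => (core hBrun x hm (by omega) hr hk2 hy hL h4 U).trans ?_
  have b1 := hw₁ S.w (by omega) S.y
  have b2 := err ha hη hk hy h1 h4 h5 h6 h7 h8 h9 h10
  linarith

end Pool.Agent.Lib.MP_7d3fda_nt.Q3
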