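import Pool.Agent.Lib.MP_7d3fda_nt.Q3.Basic
import Pool.Agent.Lib.MP_458f0b_nt.Pois.PNTa

open Finset Filter
open scoped Classical NumberTheorySymbols

noncomputable section

namespace Pool.Agent.Lib.MP_7d3fda_nt.Q3

open Pool.Agent.Lib.MP_4b8564_nt Pool.Agent.Lib.MP_4b8564_nt.GT
open Pool.Agent.Lib.MP_0a3467_an.Cv (Low)
open Pool.Agent.Lib.MP_0a3467_an

namespace DensAux

theorem totient_mul_le (e W : ℕ) : (e * W).totient ≤ e * W.totient := by
  induction e using induction_on_primes with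
  | zero => simp
  | one => simp
  | prime_mul p a hp ih =>
    have h : (p * (a * W)).totient ≤ p * (a * W).totient := by
      by_cases hd : p ∣ a * W
      · exact (Nat.totient_mul_of_prime_of_dvd hp hd).le
      · rw [Nat.totient_mul_of_prime_of_not_dvd hp hd]
        exact Nat.mul_le_mul_right _ (Nat.sub_le _ _)
    rw [mul_assoc, mul_assoc]
    exact h.trans (Nat.mul_le_mul_left _ ih)

/-- primes of a class in the upper part of a dyadic interval -/
theorem primes_ge (q u : ℕ) (hq : 0 < q) (hu : u.Coprime q) : ∃ X₀ : ℕ, ∀ Y c : ℕ, X₀ ≤ Y →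
    4 * (c + 1) ≤ Y → (Y : ℝ) ≤ 2 * q.totient * Real.log (2 * Y : ℕ) *
      ((Ioo (Y + c) (2 * Y)).filter fun p => p.Prime ∧ p ≡ u [MOD q]).card := by
  have hφ : (0 : ℝ) < q.totient := by exact_mod_cast Nat.totient_pos.2 hq
  obtain ⟨X₀, h⟩ := eventually_atTop.1
    (Pool.Agent.Lib.MP_458f0b_nt.Pois.pnt_unif q hq u hu (1 / (16 * (q.totient : ℝ)))
      (by positivity))
  refine ⟨X₀, fun Y c hY hc => ?_⟩
  obtain ⟨Z, hZ⟩ : ∃ Z, 2 * Y = Z + 1 := ⟨2 * Y - 1, by omega⟩
  have h1 := (abs_le.1 (h (2 * Y) (by omega) Z (by omega))).1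
  have h2 := (abs_le.1 (h (2 * Y) (by omega) (Y + c) (by omega))).2
  set T := (Ioo (Y + c) (2 * Y)).filter (fun p => p.Prime ∧ p ≡ u [MOD q]) with hT
  set A := (Icc 1 Z).filter (fun p => p.Prime ∧ 2 * Y < p ^ 2 ∧ p ≡ u [MOD q]) with hA
  set B := (Icc 1 (Y + c)).filter (fun p => p.Prime ∧ 2 * Y < p ^ 2 ∧ p ≡ u [MOD q]) with hB
  have hsub : A ⊆ B ∪ T := by
    intro p hp
    simp only [hA, hB, hT, mem_filter, mem_union, mem_Icc, mem_Ioo] at hp ⊢
    by_cases hpY : p ≤ Y + c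
    · exact Or.inl ⟨⟨hp.1.1, hpY⟩, hp.2⟩
    · exact Or.inr ⟨⟨by omega, by omega⟩, hp.2.1, hp.2.2.2⟩
  have hc1 : (A.card : ℝ) ≤ B.card + T.card := by
    exact_mod_cast (card_le_card hsub).trans (card_union_le _ _)
  have hL : 0 ≤ Real.log (2 * Y : ℕ) := Real.log_natCast_nonneg _
  set L := Real.log (2 * Y : ℕ) with hLd
  have hc2 : L * A.card ≤ L * B.card + L * T.card := by
    rw [← mul_add]; exact mul_le_mul_of_nonneg_left hc1 hL
  have e1 : 1 / (16 * (q.totient : ℝ)) * ((2 * Y : ℕ) : ℝ) = (Y / 8) / q.totient := by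
    push_cast; field_simp; ring
  rw [e1] at h1 h2
  have hZ' : (Z : ℝ) = 2 * Y - 1 := by
    have : ((2 * Y : ℕ) : ℝ) = (Z + 1 : ℕ) := by rw [hZ]
    push_cast at this
    linarith
  have hc' : 4 * ((c : ℝ) + 1) ≤ Y := by exact_mod_cast hc
  have h3 : ((Z : ℝ) - (Y + c : ℕ) - Y / 8 - Y / 8) / q.totient ≤ L * T.card := by
    rw [sub_div, sub_div, sub_div]
    linarith
  rw [div_le_iff₀ hφ, hZ'] at h3
  push_cast at h3
  linarith

end DensAux

theorem stDens : StDens := by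
  intro W₀ e u hW₀ he hu
  have hφ : (0 : ℝ) < W₀.totient := by exact_mod_cast Nat.totient_pos.2 hW₀
  have he' : (0 : ℝ) < e := by exact_mod_cast he
  obtain ⟨X₀, hX⟩ := DensAux.primes_ge W₀ u hW₀ hu
  refine ⟨4 * W₀.totient * e, by positivity, fun W hW => ⟨X₀ + 4 * (e + 1) + 2 * W, ?_⟩⟩
  intro N hN
  have hM : 0 < e * W := Nat.mul_pos he hW
  have hNW : N ≤ W * N := Nat.le_mul_of_pos_left _ hW
  have h1 := hX (W * N) (e * W) (by omega) (by
    calc 4 * (e * W + 1) ≤ 4 * (e * W + W) := by omega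
      _ = W * (4 * (e + 1)) := by ring
      _ ≤ W * N := Nat.mul_le_mul_left _ (by omega))
  set T := (Ioo (W * N + e * W) (2 * (W * N))).filter (fun p => p.Prime ∧ p ≡ u [MOD W₀]) with hT
  set R := (range (e * W)).filter fun a => (e * W).Coprime a with hR
  have hRc : R.card = (e * W).totient := (Nat.totient_eq_card_coprime _).symm
  have hR0 : R.Nonempty := card_pos.1 (hRc ▸ Nat.totient_pos.2 hM)
  obtain ⟨b, hb, hmax⟩ := exists_max_image R
    (fun b => (T.filter fun p => p % (e * W) = b).card) hR0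
  have hmaps : ∀ p ∈ T, p % (e * W) ∈ R := fun p hp => by
    obtain ⟨h2, h3, -⟩ := mem_filter.1 hp
    have h4 := (mem_Ioo.1 h2).1
    refine mem_filter.2 ⟨mem_range.2 (Nat.mod_lt _ hM), ?_⟩
    have h5 : p.Coprime (e * W) := (Nat.Prime.coprime_iff_not_dvd h3).2 fun hd => by
      have := Nat.le_of_dvd hM hd
      omega
    have h6 := Nat.gcd_rec (e * W) p
    rw [h5.symm] at h6
    exact Nat.Coprime.symm h6.symm
  have h2 := card_le_mul_card_image_of_maps_to hmaps _ hmax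
  set F := T.filter fun p => p % (e * W) = b with hF
  have hval : ∀ p ∈ F, W * (e * (p / (e * W))) + b = p := fun p hp => by
    rw [← (mem_filter.1 hp).2]
    have := Nat.div_add_mod p (e * W)
    rw [← mul_assoc, mul_comm W e]
    exact this
  obtain ⟨hb1, hb2⟩ := mem_filter.1 hb
  refine ⟨b, F.image fun p => ((e * (p / (e * W)) : ℕ) : ℤ), mem_range.1 hb1, hb2.symm, ?_, ?_⟩
  · intro n hn
    obtain ⟨p, hp, rfl⟩ := mem_image.1 hn
    have h3 := hval p hp
    obtain ⟨h4, h5, h6⟩ := mem_filter.1 (mem_filter.1 hp).1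
    obtain ⟨h7, h8⟩ := mem_Ioo.1 h4
    have h9 := mem_range.1 hb1
    have h10 : ((W : ℤ) * ((e * (p / (e * W)) : ℕ) : ℤ) + b).natAbs = p := by
      have : ((W : ℤ) * ((e * (p / (e * W)) : ℕ) : ℤ) + b) = (p : ℕ) := by exact_mod_cast h3
      rw [this, Int.natAbs_natCast]
    rw [h10]
    have h13 : ∀ m : ℕ, W * m + b = p → N ≤ m ∧ m < 2 * N := fun m hm =>
      ⟨Nat.le_of_mul_le_mul_left (show W * N ≤ W * m by omega) hW,
        Nat.lt_of_mul_lt_mul_left (a := W) (by
          rw [mul_left_comm W 2 N]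
          omega)⟩
    obtain ⟨h11, h12⟩ := h13 _ h3
    exact ⟨by exact_mod_cast h11, by exact_mod_cast h12,
      Int.natCast_dvd_natCast.2 (dvd_mul_right _ _), h5, h6⟩
  · have hc : (F.image fun p => ((e * (p / (e * W)) : ℕ) : ℤ)).card = F.card := by
      refine card_image_of_injOn fun p hp p' hp' h => ?_
      have h3 : e * (p / (e * W)) = e * (p' / (e * W)) := by exact_mod_cast h
      rw [← hval p hp, ← hval p' hp', h3]
    rw [hc]
    have hN0 : (0 : ℝ) < N := by exact_mod_cast (by omega : 0 < N)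
    have hL : Real.log (2 * (W * N) : ℕ) ≤ 2 * Real.log N := by
      have h3 : 2 * (W * N) ≤ N ^ 2 := by
        rw [← mul_assoc, sq]
        exact Nat.mul_le_mul_right _ (by omega)
      calc Real.log (2 * (W * N) : ℕ) ≤ Real.log ((N : ℝ) ^ 2) :=
            Real.log_le_log (by exact_mod_cast (by omega : 0 < 2 * (W * N))) (by exact_mod_cast h3)
        _ = 2 * Real.log N := by rw [Real.log_pow]; norm_num
    have h3 : (T.card : ℝ) ≤ F.card * (e * W.totient) := by
      have := h2.trans (Nat.mul_le_mul_left _ (hRc ▸ DensAux.totient_mul_le e W))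
      exact_mod_cast this
    have hL0 : 0 ≤ Real.log N := Real.log_natCast_nonneg _
    calc (W : ℝ) * N = (W * N : ℕ) := by push_cast; rfl
      _ ≤ _ := h1
      _ ≤ 2 * W₀.totient * (2 * Real.log N) * (F.card * (e * W.totient)) := by gcongr
      _ = _ := by ring

end Pool.Agent.Lib.MP_7d3fda_nt.Q3
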