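import Pool.Agent.Lib.MP_7d3fda_nt.Q3.Dns

open Finset Filter
open scoped Classical NumberTheorySymbols

noncomputable section

namespace Pool.Agent.Lib.MP_7d3fda_nt.Q3

open Pool.Agent.Lib.MP_4b8564_nt Pool.Agent.Lib.MP_4b8564_nt.GT
open Pool.Agent.Lib.MP_0a3467_an.Cv (Low)
open Pool.Agent.Lib.MP_0a3467_an

namespace DualAux

/-- a witness for a large cut norm -/
theorem choose_u {X : Type} [Fintype X] (t : Fin 12) (g : (Fin 12 → X) → ℝ) (η : ℝ) :
    ∃ (σ : ℝ) (u : Fin 12 → (Fin 12 → X) → ℝ), |σ| ≤ 1 ∧ (∀ i, i ≠ t → Indep i (u i)) ∧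
      (∀ i x, 0 ≤ u i x ∧ u i x ≤ 1) ∧
      η * (if Cut t g η then 0 else 1) ≤ σ * av fun x => g x * ∏ i ∈ univ.erase t, u i x := by
  by_cases h : Cut t g η
  · exact ⟨0, fun _ _ => 0, by simp, fun _ _ _ _ => rfl, by simp, by simp [h]⟩
  · rw [if_neg h, mul_one]
    unfold Cut at h
    push Not at h
    obtain ⟨u, h1, h2, h3⟩ := h
    rcases le_total 0 (av fun x => g x * ∏ i ∈ univ.erase t, u i x) with h4 | h4
    · rw [abs_of_nonneg h4] at h3
      exact ⟨1, u, by simp, h1, h2, by linarith⟩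
    · rw [abs_of_nonpos h4] at h3
      exact ⟨-1, u, by simp, h1, h2, by linarith⟩

/-- solutions of a linear equation in a box -/
theorem count_aux (l K : ℕ) (a₀ a₁ m : ℤ) (h0 : a₀ ≠ 0) (hK : Int.gcd a₀ a₁ ≤ K) :
    (((range l ×ˢ range l).filter fun h : ℕ × ℕ => a₀ * h.1 + a₁ * h.2 = m).card : ℝ) ≤
      l * K / |(a₀ : ℝ)| + 1 := by
  have hg : 0 < Int.gcd a₀ a₁ := Int.gcd_pos_of_ne_zero_left _ h0
  obtain ⟨g, x, y, hg0, hc, rfl, rfl⟩ := Int.exists_gcd_one' hg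
  have hx : x ≠ 0 := left_ne_zero_of_mul h0
  have hgK : g ≤ K := by
    rw [Int.gcd_mul_right, hc, one_mul, Int.natAbs_natCast] at hK
    exact hK
  have hg' : (g : ℤ) ≠ 0 := by exact_mod_cast hg0.ne'
  set A := (range l ×ˢ range l).filter fun h : ℕ × ℕ => x * g * h.1 + y * g * h.2 = m with hA
  have key : ∀ h ∈ A, ∀ h' ∈ A, x * ((h'.1 : ℤ) - h.1) = y * ((h.2 : ℤ) - h'.2) := by
    intro h hh h' hh'
    have e1 := (mem_filter.1 hh).2
    have e2 := (mem_filter.1 hh').2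
    apply mul_left_cancel₀ hg'
    linear_combination e2 - e1
  have h1 : (A.image Prod.snd).card = A.card := by
    refine card_image_of_injOn fun h hh h' hh' e => Prod.ext ?_ e
    have e1 := key h hh h' hh'
    rw [e, sub_self, mul_zero] at e1
    have e2 := sub_eq_zero.1 ((mul_eq_zero.1 e1).resolve_left hx)
    exact_mod_cast e2.symm
  have h2 := card_class x.natAbs l (A.image Prod.snd) (fun v hv => by
      obtain ⟨h, hh, rfl⟩ := mem_image.1 hv
      exact (mem_product.1 (mem_filter.1 hh).1).2) (fun v hv v' hv' => by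
      obtain ⟨h, hh, rfl⟩ := mem_image.1 hv
      obtain ⟨h', hh', rfl⟩ := mem_image.1 hv'
      rw [Int.natCast_natAbs, abs_dvd]
      exact Int.dvd_of_dvd_mul_right_of_gcd_one ⟨_, (key h hh h' hh').symm⟩ hc)
  rw [h1] at h2
  refine h2.trans (add_le_add_left ?_ 1)
  have hx' : (0 : ℝ) < |(x : ℝ)| := abs_pos.2 (by exact_mod_cast hx)
  have hg1 : (0 : ℝ) < g := by exact_mod_cast hg0
  have hg2 : (g : ℝ) ≤ K := by exact_mod_cast hgK
  rw [Nat.cast_natAbs, Int.cast_abs]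
  push_cast
  rw [abs_mul, Nat.abs_cast, div_le_div_iff₀ hx' (by positivity)]
  have : (0 : ℝ) ≤ l * |(x : ℝ)| := by positivity
  nlinarith

theorem count_lin (l K : ℕ) (a₀ a₁ m : ℤ) (c : ℝ) (hc : 0 < c)
    (h : c ≤ |(a₀ : ℝ)| ∨ c ≤ |(a₁ : ℝ)|) (hK : Int.gcd a₀ a₁ ≤ K) :
    (((range l ×ˢ range l).filter fun h : ℕ × ℕ => a₀ * h.1 + a₁ * h.2 = m).card : ℝ) ≤
      l * K / c + 1 := by
  rcases h with h | h
  · have h0 : a₀ ≠ 0 := by
      rintro rfl
      simp at h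
      linarith
    refine (count_aux l K a₀ a₁ m h0 hK).trans (add_le_add_left ?_ 1)
    exact div_le_div_of_nonneg_left (by positivity) hc h
  · have h0 : a₁ ≠ 0 := by
      rintro rfl
      simp at h
      linarith
    have e : ((range l ×ˢ range l).filter fun h : ℕ × ℕ => a₀ * h.1 + a₁ * h.2 = m).card =
        ((range l ×ˢ range l).filter fun h : ℕ × ℕ => a₁ * h.1 + a₀ * h.2 = m).card := by
      refine card_nbij' Prod.swap Prod.swap ?_ ?_ (fun _ _ => rfl) fun _ _ => rfl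
      · intro v hv
        simp only [coe_filter, mem_product, Set.mem_ofPred_eq, Prod.fst_swap, Prod.snd_swap] at hv ⊢
        exact ⟨hv.1.symm, by linarith [hv.2]⟩
      · intro v hv
        simp only [coe_filter, mem_product, Set.mem_ofPred_eq, Prod.fst_swap, Prod.snd_swap] at hv ⊢
        exact ⟨hv.1.symm, by linarith [hv.2]⟩
    rw [e]
    refine (count_aux l K a₁ a₀ m h0 (by rwa [Int.gcd_comm])).trans (add_le_add_left ?_ 1)
    exact div_le_div_of_nonneg_left (by positivity) hc h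

/-- projection to an initial segment -/
def cp {H : ℕ} (hH : 0 < H) (v : ℤ) : Fin H :=
  if h : 0 ≤ v ∧ v < H then ⟨v.toNat, by omega⟩ else ⟨0, hH⟩

theorem cp_val {H : ℕ} (hH : 0 < H) {v : ℤ} (h : 0 ≤ v ∧ v < H) : ((cp hH v : ℕ) : ℤ) = v := by
  rw [cp, dif_pos h]
  simp only
  omega

theorem cp_cast {H : ℕ} (hH : 0 < H) (y : Fin H) : cp hH ((y : ℕ) : ℤ) = y := by
  have h : (0 : ℤ) ≤ ((y : ℕ) : ℤ) ∧ ((y : ℕ) : ℤ) < H := ⟨by omega, by have := y.2; omega⟩
  have := cp_val hH h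
  exact Fin.ext (by exact_mod_cast this)

/-- a shifted box inside a box three times as large -/
theorem sum_shift {H : ℕ} (hH : 0 < H) (τ : Fin 11 → ℤ) (hτ : ∀ r, τ r ∈ Set.Icc (-(H : ℤ)) H)
    (φ : (Fin 11 → Fin H) → ℝ) :
    ∑ y, φ y = ∑ a ∈ Fintype.piFinset fun _ : Fin 11 => Ico (-(H : ℤ)) (2 * H),
      if ∀ r, 0 ≤ τ r + a r ∧ τ r + a r < H then φ fun r => cp hH (τ r + a r) else 0 := by
  rw [← sum_filter]
  refine sum_nbij' (fun y r => ((y r : ℕ) : ℤ) - τ r) (fun a r => cp hH (τ r + a r)) ?_ ?_ ?_ ?_ ?_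
  · intro y _
    refine mem_filter.2 ⟨Fintype.mem_piFinset.2 fun r => mem_Ico.2 ?_, fun r => ?_⟩
    · have h1 := (hτ r).1
      have h2 := (hτ r).2
      have h3 := (y r).2
      omega
    · have h3 := (y r).2
      simp only
      omega
  · intro a _
    exact mem_univ _
  · intro y _
    funext r
    simp only [add_sub_cancel, cp_cast]
  · intro a ha
    funext r
    have := cp_val hH ((mem_filter.1 ha).2 r)
    simp only [this, add_sub_cancel_left]
  · intro y _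
    simp only [add_sub_cancel, cp_cast]

theorem prod_erase (t : Fin 12) (f : Fin 12 → ℝ) :
    ∏ i ∈ univ.erase t, f i = ∏ r : Fin 11, f (t.succAbove r) := by
  rw [← compl_singleton, ← Fin.image_succAbove_univ,
    prod_image fun _ _ _ _ h => Fin.succAbove_right_injective h]

section

variable {Z : Type} (B : Finset Z) {H : ℕ} (t : Fin 12) (bb : Fin 12 → ℤ) (nn : Z → ℤ)
  (σ : Z → ℝ) (u : Z → Fin 12 → (Fin 12 → Fin H) → ℝ) (c : ℝ)

/-- the dual function -/
def DD (n : ℤ) : ℝ :=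
  c * ∑ z ∈ B, σ z * av fun x : Fin 12 → Fin H =>
    (if nn z + ∑ i, ((x i : ℕ) : ℤ) * bb i = n then 1 else 0) * ∏ i ∈ univ.erase t, u z i x

variable {B t bb nn σ u c}

theorem DD_abs (hH : 0 < H) (hσ : ∀ z, |σ z| ≤ 1) (hu : ∀ z i x, 0 ≤ u z i x ∧ u z i x ≤ 1)
    (hc0 : 0 ≤ c) (hc : ∀ m, c * ((B.filter fun z => nn z = m).card : ℝ) ≤ 1) (n : ℤ) :
    |DD B t bb nn σ u c n| ≤ 1 := by
  have : Nonempty (Fin H) := ⟨⟨0, hH⟩⟩
  rw [DD, abs_mul, abs_of_nonneg hc0]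
  have h1 : |∑ z ∈ B, σ z * av fun x : Fin 12 → Fin H =>
      (if nn z + ∑ i, ((x i : ℕ) : ℤ) * bb i = n then 1 else 0) * ∏ i ∈ univ.erase t, u z i x| ≤
      ∑ z ∈ B, av fun x : Fin 12 → Fin H =>
        if nn z = n - ∑ i, ((x i : ℕ) : ℤ) * bb i then 1 else 0 := by
    refine (abs_sum_le_sum_abs _ _).trans (sum_le_sum fun z _ => ?_)
    have p0 : ∀ x, 0 ≤ ∏ i ∈ univ.erase t, u z i x := fun x => prod_nonneg fun i _ => (hu z i x).1
    have p1 : ∀ x, ∏ i ∈ univ.erase t, u z i x ≤ 1 := fun x =>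
      prod_le_one (fun i _ => (hu z i x).1) fun i _ => (hu z i x).2
    have a0 : 0 ≤ av fun x : Fin 12 → Fin H =>
        (if nn z + ∑ i, ((x i : ℕ) : ℤ) * bb i = n then 1 else 0) *
          ∏ i ∈ univ.erase t, u z i x :=
      av_nonneg fun x => mul_nonneg (by split_ifs <;> norm_num) (p0 x)
    rw [abs_mul, abs_of_nonneg a0]
    refine (mul_le_of_le_one_left a0 (hσ z)).trans (av_mono fun x => ?_)
    simp only [eq_sub_iff_add_eq]
    split_ifs
    · simpa using p1 x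
    · simp
  refine (mul_le_mul_of_nonneg_left h1 hc0).trans ?_
  rw [← av_sum, ← av_const_mul]
  refine av_le_of_le fun x => ?_
  rw [sum_boole]
  exact hc _

theorem DD_low (hH : 0 < H) (hb : bb t = 0) (hσ : ∀ z, |σ z| ≤ 1)
    (hi : ∀ z i, i ≠ t → Indep i (u z i)) (hu : ∀ z i x, 0 ≤ u z i x ∧ u z i x ≤ 1)
    (hc0 : 0 ≤ c) (hc : ∀ m, c * ((B.filter fun z => nn z = m).card : ℝ) ≤ 1) :
    LowDir (fun r : Fin 11 => bb (t.succAbove r)) H (3 ^ 11) (DD B t bb nn σ u c) := by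
  intro n
  have hH' : (0 : ℝ) < H := by exact_mod_cast hH
  let Pa : Finset (Fin 11 → ℤ) := Fintype.piFinset fun _ : Fin 11 => Ico (-(H : ℤ)) (2 * H)
  let F : (Fin 11 → ℤ) → Fin H → Z → Fin 11 → (Fin 11 → ℤ) → ℝ := fun a x0 z r τ =>
    (if 0 ≤ τ (r + 1) + a (r + 1) ∧ τ (r + 1) + a (r + 1) < H then 1 else 0) *
      u z (t.succAbove r) (t.insertNth x0 fun r' => cp hH (τ r' + a r'))
  let wt : (Fin 11 → ℤ) → Z → ℝ := fun a z =>
    c * σ z / (H : ℝ) ^ 12 * if nn z = n - ∑ r, a r * bb (t.succAbove r) then 1 else 0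
  have hF : ∀ a x0 z, Cv.Adm (F a x0 z) := by
    intro a x0 z
    refine ⟨fun r τ => ?_, fun r τ v => ?_⟩
    · have := hu z (t.succAbove r) (t.insertNth x0 fun r' => cp hH (τ r' + a r'))
      simp only [F]
      split_ifs
      · rw [one_mul, abs_of_nonneg this.1]
        exact this.2
      · simp
    · have h1 : r + 1 ≠ r := by revert r; decide
      have h2 : (fun r' => cp hH (Function.update τ r v r' + a r')) =
          Function.update (fun r' => cp hH (τ r' + a r')) r (cp hH (v + a r)) := by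
        funext r'
        by_cases e : r' = r
        · subst e; simp
        · simp [Function.update_of_ne e]
      simp only [F]
      rw [Function.update_of_ne h1, h2, Fin.insertNth_update (α := fun _ => Fin H),
        hi z _ (Fin.succAbove_ne t r)]
  have hL : Low (Set.Icc (-(H : ℤ)) H) (∑ a ∈ Pa, ∑ _x0 : Fin H, ∑ z ∈ B, |wt a z| * 1)
      fun τ : Fin 11 → ℤ => ∑ a ∈ Pa, ∑ x0 : Fin H, ∑ z ∈ B, wt a z * ∏ r, F a x0 z r τ :=
    Cv.Low.sum _ fun a _ => Cv.Low.sum _ fun x0 _ => Cv.Low.sum _ fun z _ =>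
      (Cv.Low.of_adm (hF a x0 z)).smul _
  refine (hL.mono ?_).congr fun τ hτ => ?_
  · have h1 : ∀ a, ∑ z ∈ B, |wt a z| * 1 ≤ 1 / (H : ℝ) ^ 12 := by
      intro a
      have h2 : ∀ z ∈ B, |wt a z| * 1 ≤ c / (H : ℝ) ^ 12 *
          if nn z = n - ∑ r, a r * bb (t.succAbove r) then 1 else 0 := by
        intro z _
        simp only [wt]
        split_ifs
        · rw [mul_one, mul_one, mul_one, abs_div, abs_mul, abs_of_nonneg hc0,
            abs_of_pos (pow_pos hH' 12)]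
          exact div_le_div_of_nonneg_right (mul_le_of_le_one_right hc0 (hσ z)) (by positivity)
        · simp
      refine (sum_le_sum h2).trans ?_
      rw [← mul_sum, sum_boole, div_mul_eq_mul_div]
      exact div_le_div_of_nonneg_right (hc _) (by positivity)
    refine (sum_le_sum fun a _ => sum_le_sum fun _ _ => h1 a).trans ?_
    have h3 : (Ico (-(H : ℤ)) (2 * H)).card = 3 * H := by
      rw [Int.card_Ico]
      omega
    simp only [sum_const, card_univ, Fintype.card_fin, nsmul_eq_mul, Pa, Fintype.card_piFinset,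
      prod_const, h3]
    push_cast
    apply le_of_eq
    field_simp
  · have e1 : ∀ z, (av fun x : Fin 12 → Fin H =>
        (if nn z + ∑ i, ((x i : ℕ) : ℤ) * bb i = n + ∑ r, bb (t.succAbove r) * τ r then 1 else 0) *
          ∏ i ∈ univ.erase t, u z i x) =
        (∑ x0 : Fin H, ∑ a ∈ Pa, (if nn z = n - ∑ r, a r * bb (t.succAbove r) then 1 else 0) *
          ∏ r, F a x0 z r τ) / (H : ℝ) ^ 12 := by
      intro z
      rw [av, ← (Fin.insertNthEquiv (fun _ => Fin H) t).sum_comp, Fintype.sum_prod_type]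
      congr 1
      · refine sum_congr rfl fun x0 _ => ?_
        rw [sum_shift hH τ hτ]
        refine sum_congr rfl fun a _ => ?_
        simp only [F, prod_mul_distrib, prod_boole, mem_univ, forall_const]
        have e2 : (∀ r : Fin 11, 0 ≤ τ (r + 1) + a (r + 1) ∧ τ (r + 1) + a (r + 1) < H) ↔
            ∀ r, 0 ≤ τ r + a r ∧ τ r + a r < H :=
          ⟨fun h r => by simpa using h (r - 1), fun h r => h _⟩
        by_cases h : ∀ r, 0 ≤ τ r + a r ∧ τ r + a r < H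
        · rw [if_pos h, if_pos (e2.2 h), one_mul, prod_erase, Fin.sum_univ_succAbove _ t, hb]
          simp only [Fin.insertNthEquiv_apply, Fin.insertNth_apply_succAbove, mul_zero, zero_add,
            fun r => cp_val hH (h r)]
          have e3 : ∑ r, (τ r + a r) * bb (t.succAbove r) =
              ∑ r, bb (t.succAbove r) * τ r + ∑ r, a r * bb (t.succAbove r) := by
            rw [← sum_add_distrib]
            exact sum_congr rfl fun r _ => by ring
          rw [e3]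
          congr 1
          refine if_congr ⟨fun h => ?_, fun h => ?_⟩ rfl rfl <;> linarith
        · rw [if_neg h, if_neg fun h' => h (e2.1 h'), zero_mul, mul_zero]
      · simp
    simp only [DD, e1, wt]
    rw [sum_comm]
    simp only [mul_sum, sum_div]
    rw [sum_comm (s := B)]
    refine sum_congr rfl fun x0 _ => ?_
    rw [sum_comm (s := B)]
    refine sum_congr rfl fun a _ => sum_congr rfl fun z _ => ?_
    ring

theorem DD_pair {N : ℕ} (h : ℤ → ℝ) (hh : ∀ x, h x ≠ 0 → (N : ℤ) ≤ x ∧ x < 2 * N) :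
    (avI N fun n => h n * DD B t bb nn σ u c n) = c / N * ∑ z ∈ B, σ z *
      av fun x : Fin 12 → Fin H =>
        h (nn z + ∑ i, ((x i : ℕ) : ℤ) * bb i) * ∏ i ∈ univ.erase t, u z i x := by
  have e : ∀ z, ∑ n ∈ Ico (N : ℤ) (2 * N), h n * (av fun x : Fin 12 → Fin H =>
      (if nn z + ∑ i, ((x i : ℕ) : ℤ) * bb i = n then 1 else 0) * ∏ i ∈ univ.erase t, u z i x) =
      av fun x : Fin 12 → Fin H =>
        h (nn z + ∑ i, ((x i : ℕ) : ℤ) * bb i) * ∏ i ∈ univ.erase t, u z i x := by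
    intro z
    simp only [← av_const_mul]
    rw [← av_sum]
    refine av_congr fun x => ?_
    simp only [← mul_assoc, mul_ite, mul_one, mul_zero]
    rw [← sum_mul, sum_ite_eq]
    split_ifs with h1
    · rfl
    · have h2 : h (nn z + ∑ i, ((x i : ℕ) : ℤ) * bb i) = 0 := by
        by_contra h3
        exact h1 (mem_Ico.2 (hh _ h3))
      rw [h2]
  simp only [avI, DD, ← e, mul_sum]
  rw [sum_comm, sum_div]
  refine sum_congr rfl fun z _ => ?_
  rw [sum_div]
  exact sum_congr rfl fun n _ => by ring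

end

/-- the number of points of the box with a given value -/
theorem fiber {S : Sc} {γ : O} (hγ : S.Fr γ) (hG : 0 < S.G) (hl : S.G ≤ S.l) (j : Fin 6) (m : ℤ) :
    ((S.B.filter fun z => S.nn j (γ * z) = m).card : ℝ) ≤ 5 * (S.d.C : ℝ) ^ 3 * S.l / S.G := by
  obtain ⟨-, -, hsq, hlo, -⟩ := hγ
  have hC := S.d.three_le_C
  have hC' : (3 : ℝ) ≤ S.d.C := by exact_mod_cast hC
  have hG' : (0 : ℝ) < S.G := by exact_mod_cast hG
  have hl' : (S.G : ℝ) ≤ S.l := by exact_mod_cast hl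
  set a₀ := S.d.lam j γ with ha₀
  set a₁ := S.d.lam j (γ * Zsqrtd.sqrtd) with ha₁
  have e1 : ∀ h : ℕ × ℕ, S.nn j (γ * (S.w0 + (S.F : O) * em h)) =
      S.nn j (γ * S.w0) + (a₀ * h.1 + a₁ * h.2) := fun h => by
    have : γ * (S.w0 + (S.F : O) * em h) = γ * S.w0 + (S.F : O) * (γ * em h) := by ring
    rw [this, Sc.nn, S.d.nn_add S.F_pos, S.d.lam_mul j γ (em h)]
    rfl
  have e2 : (S.B.filter fun z => S.nn j (γ * z) = m).card =
      ((range S.l ×ˢ range S.l).filter fun h : ℕ × ℕ =>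
        a₀ * h.1 + a₁ * h.2 = m - S.nn j (γ * S.w0)).card := by
    rw [Sc.B, cbx, filter_image, card_image_of_injective _ (cbx_inj S.F_pos S.w0)]
    refine congrArg _ (filter_congr fun h _ => ?_)
    rw [e1, eq_sub_iff_add_eq']
  have hg : Int.gcd a₀ a₁ ≤ S.d.C ^ 2 := by
    obtain ⟨d1, d2⟩ := S.d.dvd_of_lam j γ (Int.gcd_dvd_left a₀ a₁) (Int.gcd_dvd_right a₀ a₁)
    have hc : Int.gcd γ.re γ.im = 1 := by
      by_contra h1
      obtain ⟨p, hp, hd⟩ := Nat.exists_prime_and_dvd h1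
      have hd' : (p : ℤ) ∣ (Int.gcd γ.re γ.im : ℤ) := by exact_mod_cast hd
      exact not_dvd_both hsq hp
        ⟨hd'.trans (Int.gcd_dvd_left _ _), hd'.trans (Int.gcd_dvd_right _ _)⟩
    obtain ⟨x, y, hxy⟩ := Int.isCoprime_iff_gcd_eq_one.2 hc
    have d3 : ((Int.gcd a₀ a₁ : ℕ) : ℤ) ∣ (S.d.ker j).norm := by
      have : (S.d.ker j).norm = x * ((S.d.ker j).norm * γ.re) + y * ((S.d.ker j).norm * γ.im) := by
        linear_combination (-(S.d.ker j).norm) * hxy
      rw [this]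
      exact dvd_add (d1.mul_left _) (d2.mul_left _)
    have := (Int.le_of_dvd (S.d.norm_ker_pos j) d3).trans (S.d.norm_ker_le j)
    exact_mod_cast this
  have hm : (S.G : ℝ) / (4 * S.d.C) ≤ |(a₀ : ℝ)| ∨ (S.G : ℝ) / (4 * S.d.C) ≤ |(a₁ : ℝ)| := by
    by_contra h
    push Not at h
    obtain ⟨h0, h1⟩ := h
    rw [lt_div_iff₀ (by positivity)] at h0 h1
    have k0 : (|(a₀ : ℝ)| * (4 * S.d.C)) ^ 2 < (S.G : ℝ) ^ 2 :=
      pow_lt_pow_left₀ h0 (by positivity) two_ne_zero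
    have k1 : (|(a₁ : ℝ)| * (4 * S.d.C)) ^ 2 < (S.G : ℝ) ^ 2 :=
      pow_lt_pow_left₀ h1 (by positivity) two_ne_zero
    rw [mul_pow, sq_abs] at k0 k1
    have k2 : 3 * γ.norm ≤ 3 * a₀ ^ 2 + a₁ ^ 2 := by
      rw [ha₀, ha₁, S.d.lam_sq, S.d.norm_ker]
      have h3 : (1 : ℤ) ≤ S.d.e := by exact_mod_cast S.d.he
      exact mul_le_mul_of_nonneg_right (by nlinarith [sq_nonneg (S.d.c j)]) (norm_nonneg' γ)
    have k3 : (3 : ℝ) * γ.norm ≤ 3 * (a₀ : ℝ) ^ 2 + (a₁ : ℝ) ^ 2 := by exact_mod_cast k2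
    have k4 : (S.G : ℝ) ^ 2 ≤ 9 * (S.d.C : ℝ) ^ 2 * γ.norm := by exact_mod_cast hlo
    have k5 := mul_le_mul_of_nonneg_left k3 (show (0 : ℝ) ≤ (S.d.C : ℝ) ^ 2 by positivity)
    nlinarith [sq_nonneg (S.G : ℝ)]
  rw [e2]
  refine (count_lin S.l (S.d.C ^ 2) a₀ a₁ _ _ (by positivity) hm hg).trans ?_
  have k6 : (1 : ℝ) ≤ (S.d.C : ℝ) ^ 3 * S.l / S.G := by
    rw [le_div_iff₀ hG']
    have : (1 : ℝ) ≤ (S.d.C : ℝ) ^ 3 := one_le_pow₀ (by linarith)
    nlinarith
  have k7 : (S.l : ℝ) * ((S.d.C ^ 2 : ℕ) : ℝ) / (S.G / (4 * S.d.C)) =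
      4 * ((S.d.C : ℝ) ^ 3 * S.l / S.G) := by
    push_cast
    field_simp
  rw [k7]
  have k8 : 5 * (S.d.C : ℝ) ^ 3 * S.l / S.G = 5 * ((S.d.C : ℝ) ^ 3 * S.l / S.G) := by ring
  rw [k8]
  linarith

end DualAux

open DualAux

theorem stDual (_hScale : StScale) : StDual := by
  intro d J
  refine ⟨12 * (10 * (d.C : ℝ) ^ 3 * J) + 1, by positivity, fun P hP hJ => ?_⟩
  refine (Ev.of_eventually (d := d) (P := P) (Θ := fun _ ρ => 2 * J ≤ ρ) 0
    fun w _ => eventually_ge_atTop _).mono ?_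
  rintro S rfl rfl - ⟨-, hρ⟩ h η ε hη hh hT
  subst hJ
  obtain ⟨h1, h2, h3, h4⟩ := hP.big
  have hρ0 : 0 < S.ρ := by omega
  have hH : 0 < S.H := Nat.pow_pos hρ0
  have hG : 0 < S.G := Nat.pow_pos hρ0
  have hN : 0 < S.N := Nat.pow_pos hρ0
  have hl1 := Sc.le_l hP (by omega)
  have hl : S.G ≤ S.l := by
    have e : S.ρ ^ (S.P.E * S.P.A - 8 * S.P.a) =
        S.ρ ^ (S.P.E * S.P.A - 16 * S.P.a) * S.G := by
      rw [Sc.G, ← pow_add]
      congr 1
      omega
    have e2 : S.ρ ≤ S.ρ ^ (S.P.E * S.P.A - 16 * S.P.a) := Nat.le_self_pow (by omega) _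
    have e3 : 2 * S.P.J * S.G ≤ 2 * S.P.J * S.l :=
      (Nat.mul_le_mul_right _ (hρ.trans e2)).trans (e ▸ hl1)
    exact Nat.le_of_mul_le_mul_left e3 (by omega)
  have hNl : S.N ≤ 2 * S.P.J * S.l * S.G := by
    have e : S.N = S.ρ ^ (S.P.E * S.P.A - 8 * S.P.a) * S.G := by
      rw [Sc.G, Sc.N, ← pow_add]
      congr 1
      omega
    rw [e]
    exact Nat.mul_le_mul_right _ hl1
  have hC : (3 : ℝ) ≤ S.d.C := by exact_mod_cast S.d.three_le_C
  have hJ' : (16 : ℝ) ≤ S.P.J := by exact_mod_cast h4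
  have hG' : (0 : ℝ) < S.G := by exact_mod_cast hG
  have hN' : (0 : ℝ) < S.N := by exact_mod_cast hN
  have hl' : (0 : ℝ) < S.l := by exact_mod_cast hG.trans_le hl
  have hNl' : (S.N : ℝ) ≤ 2 * S.P.J * S.l * S.G := by exact_mod_cast hNl
  set Cf : ℝ := 10 * (S.d.C : ℝ) ^ 3 * S.P.J with hCf
  have hCf0 : 0 < Cf := by positivity
  choose σ u hσ hi hu hb using fun (θ : O × O) (t : Fin 12) (z : O) =>
    choose_u t (fun x : Fin 12 → Fin S.H => h (S.nl θ z t x)) η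
  let c : ℝ := S.N / (Cf * (S.l : ℝ) ^ 2)
  have hc0 : 0 ≤ c := by positivity
  let D : ((O × O) × O × O) × Fin 12 → ℤ → ℝ := fun x =>
    DD S.B x.2 (S.d.bb (pr x.1) x.2) (fun z => S.nn (jx x.2) (sd (pr x.1) x.2 * z))
      (σ (pr x.1) x.2) (u (pr x.1) x.2) c
  have hc : ∀ x ∈ S.T3, ∀ m, c * ((S.B.filter fun z =>
      S.nn (jx x.2) (sd (pr x.1) x.2 * z) = m).card : ℝ) ≤ 1 := by
    intro x hx m
    have hg : S.Gp (pr x.1) := (mem_filter.1 (mem_product.1 hx).1).2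
    have hf : S.Fr (sd (pr x.1) x.2) := by
      unfold sd
      split_ifs
      exacts [hg.1, hg.2.1]
    refine (mul_le_mul_of_nonneg_left (fiber hf hG hl _ m) hc0).trans ?_
    simp only [c]
    rw [div_mul_div_comm, div_le_one (by positivity), hCf]
    have := mul_le_mul_of_nonneg_right hNl' (show (0 : ℝ) ≤ 5 * (S.d.C : ℝ) ^ 3 * S.l by positivity)
    refine this.trans (le_of_eq ?_)
    ring
  have hψ : S.Test fun n => ∑ x ∈ S.T3, S.mu ^ 2 / 12 * D x n :=
    Or.inl ⟨D, fun x hx => ⟨DD_abs hH (hσ _ _) (hu _ _) hc0 (hc x hx),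
      DD_low hH (S.d.bb_self _ _) (hσ _ _) (hi _ _) (hu _ _) hc0 (hc x hx)⟩, rfl⟩
  have hε := hT _ hψ
  have hε0 : 0 ≤ ε := (abs_nonneg _).trans hε
  have e1 : (avI S.N fun n => h n * ∑ x ∈ S.T3, S.mu ^ 2 / 12 * D x n) =
      ∑ x ∈ S.T3, S.mu ^ 2 / 12 * avI S.N fun n => h n * D x n := by
    simp only [avI, mul_sum]
    rw [sum_comm, sum_div]
    refine sum_congr rfl fun x _ => ?_
    rw [← mul_div_assoc, mul_sum]
    congr 1
    exact sum_congr rfl fun n _ => by ring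
  have e2 : ∀ θ : (O × O) × O × O,
      η / Cf * S.badC (pr θ) h η ≤ ∑ t, avI S.N fun n => h n * D (θ, t) n := by
    intro θ
    have k1 : ∀ t, (avI S.N fun n => h n * D (θ, t) n) = 1 / (Cf * (S.l : ℝ) ^ 2) *
        ∑ z ∈ S.B, σ (pr θ) t z * av fun x : Fin 12 → Fin S.H =>
          h (S.nl (pr θ) z t x) * ∏ i ∈ univ.erase t, u (pr θ) t z i x := by
      intro t
      simp only [D, DD_pair h hh, Sc.nl_eq, c]
      congr 1
      field_simp
    simp only [k1]
    rw [← mul_sum, sum_comm, Sc.badC, Sc.avB]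
    have k2 : ∀ z ∈ S.B, η * (if ∀ t : Fin 12, Cut t (fun x => h (S.nl (pr θ) z t x)) η
        then 0 else 1) ≤ ∑ t, σ (pr θ) t z * av fun x : Fin 12 → Fin S.H =>
          h (S.nl (pr θ) z t x) * ∏ i ∈ univ.erase t, u (pr θ) t z i x := by
      intro z _
      refine le_trans ?_ (sum_le_sum fun t _ => hb (pr θ) t z)
      have k3 : ∀ t ∈ (univ : Finset (Fin 12)), (0 : ℝ) ≤
          η * if Cut t (fun x => h (S.nl (pr θ) z t x)) η then 0 else 1 := fun t _ =>
        mul_nonneg hη.le (by split_ifs <;> norm_num)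
      split_ifs with k4
      · rw [mul_zero]
        exact sum_nonneg k3
      · push Not at k4
        obtain ⟨t, ht⟩ := k4
        refine le_trans ?_ (single_le_sum k3 (mem_univ t))
        rw [if_neg ht]
    refine le_trans (le_of_eq ?_) (mul_le_mul_of_nonneg_left (sum_le_sum k2) (by positivity))
    rw [← mul_sum]
    field_simp
  have e3 : S.mu ^ 2 / 12 * (η / Cf) * ∑ θ ∈ S.T2, S.badC (pr θ) h η ≤ ε := by
    refine le_trans ?_ ((le_abs_self _).trans hε)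
    rw [e1, Sc.T3, sum_product, mul_sum]
    refine sum_le_sum fun θ _ => ?_
    rw [← mul_sum, mul_assoc]
    exact mul_le_mul_of_nonneg_left (e2 θ) (by positivity)
  rw [le_div_iff₀ hη]
  have e4 : S.mu ^ 2 * (∑ θ ∈ S.T2, S.badC (pr θ) h η) * η =
      12 * Cf * (S.mu ^ 2 / 12 * (η / Cf) * ∑ θ ∈ S.T2, S.badC (pr θ) h η) := by
    field_simp
  rw [e4]
  have e5 := mul_le_mul_of_nonneg_left e3 (show 0 ≤ 12 * Cf by positivity)
  nlinarith

end Pool.Agent.Lib.MP_7d3fda_nt.Q3
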