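import Pool.Agent.Lib.MP_7d3fda_nt.Q3.Basic

open Finset Filter
open scoped Classical NumberTheorySymbols

noncomputable section

namespace Pool.Agent.Lib.MP_7d3fda_nt.Q3

open Pool.Agent.Lib.MP_4b8564_nt Pool.Agent.Lib.MP_4b8564_nt.GT
open Pool.Agent.Lib.MP_0a3467_an.Cv (Low)
open Pool.Agent.Lib.MP_0a3467_an

namespace EpsAux

/-- a line meets the box in at most `L` points -/
theorem line_card {F L : ℕ} (a : O) {α β : ℤ} (h : α ≠ 0 ∨ β ≠ 0) (hF : 0 < F) :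
    ((cbx F a L).filter fun z => α * z.re + β * z.im = 0).card ≤ L := by
  have hF' : (F : ℤ) ≠ 0 := by exact_mod_cast hF.ne'
  have co : ∀ k : ℕ × ℕ, (a + (F : O) * em k).re = a.re + F * k.1 ∧
      (a + (F : O) * em k).im = a.im + F * k.2 := fun k => by simp [em]
  rcases h with h | h
  · refine (card_le_card_of_injOn (t := range L) (fun z => ((z.im - a.im) / F).toNat) ?_
      ?_).trans (card_range L).le
    · intro z hz
      obtain ⟨k, -, h2, rfl⟩ := mem_cbx.1 (mem_filter.1 (mem_coe.1 hz)).1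
      simp only [(co k).2, add_sub_cancel_left, Int.mul_ediv_cancel_left _ hF', Int.toNat_natCast]
      exact mem_coe.2 (mem_range.2 h2)
    · intro z hz z' hz' e
      obtain ⟨m1, e1⟩ := mem_filter.1 (mem_coe.1 hz)
      obtain ⟨m2, e2⟩ := mem_filter.1 (mem_coe.1 hz')
      have hi : z.im = z'.im := by
        obtain ⟨k, -, -, rfl⟩ := mem_cbx.1 m1
        obtain ⟨k', -, -, rfl⟩ := mem_cbx.1 m2
        simp only [(co k).2, (co k').2, add_sub_cancel_left, Int.mul_ediv_cancel_left _ hF',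
          Int.toNat_natCast] at e ⊢
        rw [e]
      rw [hi] at e1
      exact Zsqrtd.ext (mul_left_cancel₀ h (by linarith)) hi
  · refine (card_le_card_of_injOn (t := range L) (fun z => ((z.re - a.re) / F).toNat) ?_
      ?_).trans (card_range L).le
    · intro z hz
      obtain ⟨k, h2, -, rfl⟩ := mem_cbx.1 (mem_filter.1 (mem_coe.1 hz)).1
      simp only [(co k).1, add_sub_cancel_left, Int.mul_ediv_cancel_left _ hF', Int.toNat_natCast]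
      exact mem_coe.2 (mem_range.2 h2)
    · intro z hz z' hz' e
      obtain ⟨m1, e1⟩ := mem_filter.1 (mem_coe.1 hz)
      obtain ⟨m2, e2⟩ := mem_filter.1 (mem_coe.1 hz')
      have hi : z.re = z'.re := by
        obtain ⟨k, -, -, rfl⟩ := mem_cbx.1 m1
        obtain ⟨k', -, -, rfl⟩ := mem_cbx.1 m2
        simp only [(co k).1, (co k').1, add_sub_cancel_left, Int.mul_ediv_cancel_left _ hF',
          Int.toNat_natCast] at e ⊢
        rw [e]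
      rw [hi] at e1
      exact Zsqrtd.ext hi (mul_left_cancel₀ h (by linarith))

theorem abs_J (a : ℤ) (b : ℕ) : |(J(a | b) : ℝ)| ≤ 1 := by
  rcases jacobiSym.trichotomy a b with h | h | h <;> simp [h]

/-- a linear relation moves the symbol -/
theorem J_rel {p : ℕ} (hp : p.Prime) {A B c x y : ℤ} (h0 : A ≠ 0) (h1 : |A| < p)
    (h : A * x = c * p + B * y) : J(x | p) = J(A * B | p) * J(y | p) := by
  have hn : ¬(p : ℤ) ∣ A := fun hd =>
    absurd (Int.le_of_dvd (abs_pos.2 h0) ((dvd_abs _ _).2 hd)) (not_le.2 h1)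
  have hg : A.gcd p = 1 := Int.isCoprime_iff_gcd_eq_one.1
    ((Nat.prime_iff_prime_int.1 hp).irreducible.coprime_iff_not_dvd.2 hn).symm
  have e1 : J(A ^ 2 * x | p) = J(A * B * y | p) := by
    refine jacobiSym.mod_left' (Int.ModEq.symm (Int.modEq_iff_dvd.2 ⟨A * c, ?_⟩))
    linear_combination A * h
  rw [jacobiSym.mul_left, jacobiSym.sq_one' hg, one_mul, jacobiSym.mul_left] at e1
  exact e1

/-- the sign of the reciprocity law -/
def sg (b : ℕ) : ℤ := if b % 4 = 1 then 1 else -1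

theorem J_rec {p q b : ℕ} (hp : p.Prime) (hq : q.Prime) (hne : p ≠ q) (h1 : p % 4 = b % 4)
    (h2 : q % 4 = b % 4) (hb : b % 2 = 1) : J((q : ℤ) | p) * J((p : ℤ) | q) = sg b := by
  have hg : (p : ℤ).gcd q = 1 := by
    rw [Int.gcd_natCast_natCast]
    exact (Nat.coprime_primes hp hq).2 hne
  have hs := jacobiSym.sq_one hg
  unfold sg
  split_ifs with h
  · rw [jacobiSym.quadratic_reciprocity_one_mod_four (a := q) (b := p) (by omega)
      (Nat.odd_iff.2 (by omega)), ← sq, hs]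
  · rw [jacobiSym.quadratic_reciprocity_three_mod_four (a := q) (b := p) (by omega) (by omega),
      neg_mul, ← sq, hs]

theorem abs_Mon (S : Sc) (A : Finset ℤ) (U : Finset ℕ) (ε : ℕ) {φ : Fin 6 → ℕ → ℝ}
    (hφ : ∀ j x, |φ j x| ≤ 1) (γ z : O) : |S.Mon A U ε φ γ z| ≤ 1 := by
  unfold Sc.Mon
  split_ifs
  · rw [abs_mul, abs_mul, abs_pow, abs_prod, abs_prod]
    exact mul_le_one₀ (mul_le_one₀ (prod_le_one (fun _ _ => abs_nonneg _) fun _ _ => abs_J _ _)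
      (by positivity) (pow_le_one₀ (abs_nonneg _) (abs_J _ _))) (by positivity)
      (prod_le_one (fun _ _ => abs_nonneg _) fun _ _ => hφ _ _)
  · simp

/-- an extra factor on the first value -/
def tw (κ : ℕ → ℝ) (φ : Fin 6 → ℕ → ℝ) (j : Fin 6) (x : ℕ) : ℝ :=
  (if j = 0 then κ x else 1) * φ j x

theorem abs_tw {κ : ℕ → ℝ} {φ : Fin 6 → ℕ → ℝ} (hκ : ∀ x, |κ x| ≤ 1) (hφ : ∀ j x, |φ j x| ≤ 1)
    (j : Fin 6) (x : ℕ) : |tw κ φ j x| ≤ 1 := by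
  rw [tw, abs_mul]
  refine mul_le_one₀ ?_ (abs_nonneg _) (hφ j x)
  split_ifs
  · exact hκ x
  · simp

theorem prod_tw (κ : ℕ → ℝ) (φ : Fin 6 → ℕ → ℝ) (m : Fin 6 → ℕ) :
    ∏ j, tw κ φ j (m j) = κ (m 0) * ∏ j, φ j (m j) := by
  simp only [tw, prod_mul_distrib, prod_ite_eq', mem_univ, if_true]

/-- the determinant of two forms -/
def dt (d : Dat) (i j : Fin 6) (γ γ' : O) : ℤ :=
  d.lam i γ * d.lam j (γ' * Zsqrtd.sqrtd) - d.lam i (γ * Zsqrtd.sqrtd) * d.lam j γ'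

theorem dt_rel (d : Dat) (γ γ' z : O) :
    dt d 0 0 γ γ' * d.lam 1 (γ * z)
      = dt d 1 0 γ γ' * d.lam 0 (γ * z) + dt d 0 1 γ γ * d.lam 0 (γ' * z) := by
  simp only [dt, d.lam_mul _ _ z]
  ring

theorem dt_sq (d : Dat) (γ γ' : O) {M : ℤ} (h : γ.norm ≤ M) (h' : γ'.norm ≤ M) :
    |dt d 0 0 γ γ'| ≤ (d.C : ℤ) ^ 2 * M := by
  have h1 := d.lam_sq 0 γ
  have h2 := d.lam_sq 0 γ'
  have k0 := (d.norm_ker_pos 0).le
  have k1 := d.norm_ker_le 0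
  have n1 := norm_nonneg' γ
  have n2 := norm_nonneg' γ'
  have b1 : (d.ker 0).norm * γ.norm ≤ (d.C : ℤ) ^ 2 * M := mul_le_mul k1 h n1 (by positivity)
  have b2 : (d.ker 0).norm * γ'.norm ≤ (d.C : ℤ) ^ 2 * M := mul_le_mul k1 h' n2 (by positivity)
  have p0 : 0 ≤ (d.C : ℤ) ^ 2 * M := (mul_nonneg k0 n1).trans b1
  have b3 := mul_le_mul b1 b2 (mul_nonneg k0 n2) p0
  rw [← h1, ← h2] at b3
  refine abs_le_of_sq_le_sq' ?_ p0 |> abs_le.2
  unfold dt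
  nlinarith [sq_nonneg (3 * d.lam 0 γ * d.lam 0 γ'
    + d.lam 0 (γ * Zsqrtd.sqrtd) * d.lam 0 (γ' * Zsqrtd.sqrtd)),
    sq_nonneg (d.lam 0 γ * d.lam 0 (γ' * Zsqrtd.sqrtd)
      - d.lam 0 (γ * Zsqrtd.sqrtd) * d.lam 0 γ')]

theorem dt_bv (d : Dat) (θ : O × O) : d.bv (θ, 0) 5 = -dt d 0 0 θ.1 θ.2 := by
  have h1 : (0 : Fin 12).succAbove 5 = 6 := by decide
  have h2 : jx 0 = 0 ∧ jx 6 = 0 := by decide
  have h3 : sd θ 0 = θ.1 := if_pos (by decide)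
  have h4 : sd θ 6 = θ.2 := if_neg (by decide)
  have : d.bv (θ, 0) 5 = d.lam 0 (θ.1 * (star θ.2 * d.ker 0)) := by
    simp only [Dat.bv, Dat.bb, Dat.dir, h1, h2.1, h2.2, h3, h4]
  rw [this, d.star_mul_ker, d.lam_mul, dt]
  ring

/-- the values on the support of a monomial -/
theorem val {S : Sc} (hw : 4 ≤ S.w) {A : Finset ℤ} (hA : S.Vals A) {γ z : O} (hγ : S.Fr γ)
    (hz : z ∈ S.B) {j : Fin 6} (hj : S.nn j (γ * z) ∈ A) :
    (S.mm j (γ * z)).Prime ∧ (S.N : ℤ) ≤ S.mm j (γ * z) ∧ S.mm j (γ * z) % 4 = S.b % 4 ∧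
      S.d.lam j (γ * z) = S.d.e * S.mm j (γ * z) := by
  obtain ⟨h1, -, h3⟩ := hA _ hj
  have hW : (1 : ℤ) ≤ S.W := by exact_mod_cast S.W_pos
  have hn : 0 ≤ S.nn j (γ * z) := (Int.natCast_nonneg _).trans h1
  have hb : (0 : ℤ) ≤ S.b := Int.natCast_nonneg _
  have e : (S.mm j (γ * z) : ℤ) = S.W * S.nn j (γ * z) + S.b :=
    Int.natAbs_of_nonneg (by positivity)
  have hd : (S.F : O) ∣ γ * z - S.b := by
    have := (hγ.1).add ((S.mem_B_congr hz).mul_left γ)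
    convert this using 1
    ring
  refine ⟨h3, by nlinarith, ?_, ?_⟩
  · obtain ⟨v, hv⟩ : 4 ∣ S.W := Nat.dvd_factorial (by norm_num) hw
    rw [hv] at e
    push_cast at e
    rw [mul_assoc] at e
    omega
  · have hF : (S.F : ℤ) = S.d.e * S.W := by rw [S.F_eq, Nat.cast_mul]
    rw [S.d.lam_eq S.F_pos j hd, e, hF, Sc.nn]
    ring

/-- the identity outside the exceptional line -/
theorem point {S : Sc} (hw : 4 ≤ S.w) (hb : S.b % 2 = 1) {A : Finset ℤ} (hA : S.Vals A)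
    {γ γ' z : O} (hγ : S.Fr γ) (hγ' : S.Fr γ') (h0 : dt S.d 0 0 γ γ' ≠ 0)
    (h1 : |dt S.d 0 0 γ γ'| < S.N) (hz : z ∈ S.B)
    (hne : S.d.lam 0 (γ * z) ≠ S.d.lam 0 (γ' * z)) (U U' : Finset ℕ) (φ φ' : Fin 6 → ℕ → ℝ) :
    S.Mon A U 1 φ γ z * S.Mon A U' 1 φ' γ' z
      = S.Mon A U 0 (tw (fun x => (sg S.b : ℝ) * J(dt S.d 0 0 γ γ' * dt S.d 0 1 γ γ | x)) φ) γ z
        * S.Mon A U' 0 (tw (fun x => J(dt S.d 0 0 γ' γ * dt S.d 0 1 γ' γ' | x)) φ') γ' z := by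
  unfold Sc.Mon
  split_ifs with c1 c2
  · obtain ⟨p0, n0, m0, e0⟩ := val hw hA hγ hz (c1 0)
    obtain ⟨-, -, -, e1⟩ := val hw hA hγ hz (c1 1)
    obtain ⟨p0', n0', m0', e0'⟩ := val hw hA hγ' hz (c2 0)
    obtain ⟨-, -, -, e1'⟩ := val hw hA hγ' hz (c2 1)
    have he : (S.d.e : ℤ) ≠ 0 := by exact_mod_cast S.d.he.ne'
    have sw : dt S.d 0 0 γ' γ = -dt S.d 0 0 γ γ' := by unfold dt; ring
    have r1 := dt_rel S.d γ γ' z
    have r2 := dt_rel S.d γ' γ z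
    rw [e0, e1, e0'] at r1
    rw [e0, e1', e0'] at r2
    have j1 := J_rel p0 h0 (h1.trans_le n0) (c := dt S.d 1 0 γ γ') (B := dt S.d 0 1 γ γ)
      (x := S.mm 1 (γ * z)) (y := S.mm 0 (γ' * z))
      (mul_left_cancel₀ he (by linear_combination r1))
    have j2 := J_rel p0' (A := dt S.d 0 0 γ' γ) (by rwa [sw, neg_ne_zero])
      (by rw [sw, abs_neg]; exact h1.trans_le n0') (c := dt S.d 1 0 γ' γ)
      (B := dt S.d 0 1 γ' γ') (x := S.mm 1 (γ' * z)) (y := S.mm 0 (γ * z))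
      (mul_left_cancel₀ he (by linear_combination r2))
    have j3 := J_rec p0 p0' (fun h => hne (by rw [e0, e0', h])) m0 m0' hb
    rw [prod_tw, prod_tw, j1, j2, ← j3]
    push_cast
    ring
  · simp
  · simp
  · simp

end EpsAux

open EpsAux in
theorem stEps (_hScale : StScale) : StEps := by
  intro d P hP n
  have H : ∀ w, 4 ≤ w → ∀ᶠ ρ : ℕ in atTop, ((400 * d.C ^ 4 + 1 : ℕ) : ℝ) ≤ ρ ∧
      ((2 * P.J : ℕ) : ℝ) ≤ ρ ∧ 2 ≤ Real.log ρ ∧ 4 * Real.log ρ ^ n ≤ ρ := fun w _ =>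
    (ev_const _).and ((ev_const _).and ((ev_log _).and (ev_log_pow _ _)))
  refine (Ev.of_eventually (d := d) (P := P) 4 H).mono ?_
  rintro S rfl rfl hok ⟨hw, r1, r2, r3, r4⟩ hO A hA θ hθ U φ U' φ' hU hU' hne hφ hφ'
  obtain ⟨a1, a2, a3, a4⟩ := hP.big
  have r1' : 400 * S.d.C ^ 4 < S.ρ := by exact_mod_cast r1
  have r2' : 2 * S.P.J ≤ S.ρ := by exact_mod_cast r2
  have hρ : 0 < S.ρ := by omega
  have hb : S.b % 2 = 1 := by
    have h2 : 2 ∣ S.F := S.dvd_F (by norm_num) (by omega)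
    exact Nat.odd_iff.1 (Nat.coprime_two_right.1 (hok.hbc.coprime_dvd_right h2))
  have h0 : dt S.d 0 0 θ.1 θ.2 ≠ 0 := by
    intro h
    have h1 := hθ.2.2.2 0 5
    rw [dt_bv, h, neg_zero, abs_zero] at h1
    have h2 : 0 < S.bm := Nat.pow_pos hρ
    omega
  have h1 : |dt S.d 0 0 θ.1 θ.2| < S.N := by
    refine (dt_sq S.d _ _ hθ.1.2.2.2.2 hθ.2.1.2.2.2.2).trans_lt ?_
    have e1 : S.G ^ 2 = S.ρ ^ (16 * S.P.a) := by
      rw [Sc.G, ← pow_mul]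
      congr 1
      ring
    have e2 : 400 * S.d.C ^ 4 * S.G ^ 2 < S.N := by
      rw [e1]
      refine (Nat.mul_lt_mul_of_pos_right r1' (Nat.pow_pos hρ)).trans_le ?_
      rw [← pow_succ']
      exact Nat.pow_le_pow_right hρ (by omega)
    have e3 : ((400 * S.d.C ^ 4 * S.G ^ 2 : ℕ) : ℤ) < S.N := by exact_mod_cast e2
    push_cast at e3
    linarith
  have hl : S.ρ ≤ S.l := by
    have h2 := Sc.le_l hP (by omega)
    have h3 : S.ρ ^ 2 ≤ S.ρ ^ (S.P.E * S.P.A - 8 * S.P.a) := Nat.pow_le_pow_right hρ (by omega)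
    have h4 : S.ρ * S.ρ ≤ S.ρ * S.l := by
      rw [← sq]
      exact (h3.trans h2).trans (Nat.mul_le_mul_right _ r2')
    exact Nat.le_of_mul_le_mul_left h4 hρ
  have hs : ∀ x : ℕ, |(sg S.b : ℝ) * J(dt S.d 0 0 θ.1 θ.2 * dt S.d 0 1 θ.1 θ.1 | x)| ≤ 1 := by
    intro x
    rw [abs_mul]
    refine mul_le_one₀ ?_ (abs_nonneg _) (abs_J _ _)
    unfold sg
    split_ifs <;> simp
  have t1 := abs_tw hs hφ
  have t2 := abs_tw (fun x => abs_J (dt S.d 0 0 θ.2 θ.1 * dt S.d 0 1 θ.2 θ.2) x) hφ'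
  have key := hO A hA θ hθ U _ U' _ hU hU' hne t1 t2
  have pt := fun z hz hn => point hw hb hA hθ.1 hθ.2.1 h0 h1 (z := z) hz hn U U' φ φ'
  have b0 : ∀ z, |S.Mon A U 0 _ θ.1 z * S.Mon A U' 0 _ θ.2 z| ≤ 1 := fun z => by
    rw [abs_mul]
    exact mul_le_one₀ (abs_Mon S A U 0 t1 θ.1 z) (abs_nonneg _) (abs_Mon S A U' 0 t2 θ.2 z)
  have b1 : ∀ z, |S.Mon A U 1 φ θ.1 z * S.Mon A U' 1 φ' θ.2 z| ≤ 1 := fun z => by
    rw [abs_mul]
    exact mul_le_one₀ (abs_Mon S A U 1 hφ θ.1 z) (abs_nonneg _) (abs_Mon S A U' 1 hφ' θ.2 z)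
  generalize tw _ φ = ψ at key pt b0
  generalize tw _ φ' = ψ' at key pt b0
  obtain ⟨α, hα⟩ : ∃ α, α = S.d.lam 0 θ.1 - S.d.lam 0 θ.2 := ⟨_, rfl⟩
  obtain ⟨β, hβ⟩ : ∃ β, β = S.d.lam 0 (θ.1 * Zsqrtd.sqrtd) - S.d.lam 0 (θ.2 * Zsqrtd.sqrtd) :=
    ⟨_, rfl⟩
  have hαβ : α ≠ 0 ∨ β ≠ 0 := by
    by_contra hc
    rw [not_or, not_not, not_not] at hc
    refine h0 ?_
    rw [hc.1] at hα
    rw [hc.2] at hβ
    unfold dt
    linear_combination (-S.d.lam 0 (θ.2 * Zsqrtd.sqrtd)) * hα + S.d.lam 0 θ.2 * hβ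
  have hc : ((S.B.filter fun z => α * z.re + β * z.im = 0).card : ℝ) ≤ S.l := by
    exact_mod_cast line_card S.w0 hαβ S.F_pos
  have hd : |∑ z ∈ S.B, S.Mon A U 1 φ θ.1 z * S.Mon A U' 1 φ' θ.2 z
      - ∑ z ∈ S.B, S.Mon A U 0 ψ θ.1 z * S.Mon A U' 0 ψ' θ.2 z| ≤ 2 * S.l := by
    rw [← sum_sub_distrib]
    refine (abs_sum_le_sum_abs _ _).trans ((sum_le_sum (g := fun z =>
      if α * z.re + β * z.im = 0 then (2 : ℝ) else 0) fun z hz => ?_).trans ?_)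
    · split_ifs with c
      · exact (abs_sub _ _).trans (by linarith [b0 z, b1 z])
      · rw [pt z hz fun h => c ?_, sub_self, abs_zero]
        rw [S.d.lam_mul, S.d.lam_mul 0 θ.2] at h
        rw [hα, hβ]
        linear_combination h
    · rw [← sum_filter, sum_const, nsmul_eq_mul]
      linarith
  have hlr : (S.ρ : ℝ) ≤ S.l := by exact_mod_cast hl
  have hL : 0 < Real.log S.ρ ^ n := by positivity
  have hl0 : (0 : ℝ) < S.l := by linarith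
  unfold Sc.avB at key ⊢
  rw [abs_div, abs_of_pos (pow_pos hl0 2)] at key ⊢
  have k1 : 1 / Real.log S.ρ ^ (n + 1) ≤ 1 / (2 * Real.log S.ρ ^ n) := by
    refine one_div_le_one_div_of_le (by positivity) ?_
    rw [pow_succ]
    nlinarith
  have k2 : 2 * (S.l : ℝ) / (S.l : ℝ) ^ 2 ≤ 1 / (2 * Real.log S.ρ ^ n) := by
    rw [div_le_div_iff₀ (by positivity) (by positivity)]
    nlinarith
  have k3 : 1 / Real.log S.ρ ^ n
      = 1 / (2 * Real.log S.ρ ^ n) + 1 / (2 * Real.log S.ρ ^ n) := by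
    field_simp
    ring
  refine le_trans (div_le_div_of_nonneg_right (b := 2 * S.l +
    |∑ z ∈ S.B, S.Mon A U 0 ψ θ.1 z * S.Mon A U' 0 ψ' θ.2 z|) ?_ (by positivity)) ?_
  · have := abs_sub_abs_le_abs_sub (∑ z ∈ S.B, S.Mon A U 1 φ θ.1 z * S.Mon A U' 1 φ' θ.2 z)
      (∑ z ∈ S.B, S.Mon A U 0 ψ θ.1 z * S.Mon A U' 0 ψ' θ.2 z)
    linarith
  · rw [add_div, k3]
    linarith

end Pool.Agent.Lib.MP_7d3fda_nt.Q3
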