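import Pool.Agent.Lib.MP_7d3fda_nt.Q3.Basic

open Finset Filter
open scoped Classical NumberTheorySymbols

noncomputable section

namespace Pool.Agent.Lib.MP_7d3fda_nt.Q3

open Pool.Agent.Lib.MP_4b8564_nt Pool.Agent.Lib.MP_4b8564_nt.GT
open Pool.Agent.Lib.MP_0a3467_an.Cv (Low)
open Pool.Agent.Lib.MP_0a3467_an

theorem stEta : StEta := by
  intro C ε hC hε
  have h1 : 0 < Real.log (1 + ε) := Real.log_pos (by linarith)
  obtain ⟨w₀, hw₀⟩ := exists_nat_ge (2 * C / Real.log (1 + ε))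
  refine ⟨w₀, fun w hw R => ?_⟩
  have h2 : ((Sg.PP w R).filter fun p : ℕ => (p : ℤ) ∣ 1) = ∅ :=
    filter_eq_empty_iff.2 fun p hp h =>
      (mem_filter.1 hp).2.one_lt.ne' (Nat.dvd_one.1 (Int.natCast_dvd_natCast.1 h))
  rw [etaP, h2, prod_empty, mul_one, sub_le_iff_le_add, add_comm ε]
  refine (Real.prod_one_add_le_exp_sum _ fun p => by positivity).trans ?_
  rw [← Real.exp_log (by linarith : 0 < 1 + ε)]
  refine Real.exp_le_exp.2 ?_
  calc ∑ p ∈ Sg.PP w R, C / (p : ℝ) ^ 2 ≤ ∑ p ∈ Ioo w (R + 1), C / (p : ℝ) ^ 2 := by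
        refine sum_le_sum_of_subset_of_nonneg (fun p hp => ?_) fun _ _ _ => by positivity
        have := mem_Ioc.1 (mem_filter.1 hp).1
        exact mem_Ioo.2 ⟨this.1, by omega⟩
    _ = C * ∑ p ∈ Ioo w (R + 1), ((p : ℝ) ^ 2)⁻¹ := by rw [mul_sum]; rfl
    _ ≤ C * (2 / ((w : ℝ) + 1)) := by
        gcongr
        exact sum_Ioo_inv_sq_le w (R + 1)
    _ ≤ _ := by
        have h3 : (w₀ : ℝ) ≤ w := by exact_mod_cast hw
        rw [div_le_iff₀ h1] at hw₀
        rw [← mul_div_assoc, div_le_iff₀ (by positivity)]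
        nlinarith

end Pool.Agent.Lib.MP_7d3fda_nt.Q3
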