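import Pool.Agent.Lib.MP_7d3fda_nt.Q3.Dns

open Finset Filter
open scoped Classical NumberTheorySymbols

noncomputable section

namespace Pool.Agent.Lib.MP_7d3fda_nt.Q3

open Pool.Agent.Lib.MP_4b8564_nt Pool.Agent.Lib.MP_4b8564_nt.GT

namespace ExpAux

/-- the cross steps as functions of the first factor -/
def cr (d : Dat) (g : O) (κ : Bool × Fin 6 × Fin 6) (x : O) : ℤ :=
  if κ.1 then d.lam κ.2.1 (x * (star g * d.ker κ.2.2)) else d.lam κ.2.1 (g * (star x * d.ker κ.2.2))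

/-- the local factor -/
def lf (d : Dat) (C : ℝ) (g x : O) (p : ℕ) : ℝ :=
  1 + if ∃ κ, (p : ℤ) ∣ cr d g κ x then C / p else 0

theorem mem_PP {w y p : ℕ} : p ∈ Sg.PP w y ↔ (w < p ∧ p ≤ y) ∧ p.Prime := by
  rw [Sg.PP, mem_filter, mem_Ioc]

theorem one_le_lf (d : Dat) {C : ℝ} (hC : 0 ≤ C) (g x : O) (p : ℕ) : 1 ≤ lf d C g x p := by
  unfold lf
  split_ifs
  · exact le_add_of_nonneg_right (by positivity)
  · simp

theorem lf_le (d : Dat) {C : ℝ} (hC : 0 ≤ C) (g x : O) (p : ℕ) : lf d C g x p ≤ 1 + C / p := by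
  unfold lf
  split_ifs
  · exact le_rfl
  · rw [add_zero]
    exact le_add_of_nonneg_right (by positivity)

theorem cr_aff (d : Dat) (g : O) (κ : Bool × Fin 6 × Fin 6) (γ a : O) (F : ℕ) (h : Fin 2 → ℤ) :
    cr d g κ (γ * (a + (F : O) * emZ h)) = cr d g κ (γ * a) + F * cr d g κ γ * h 0 +
      F * cr d g κ (γ * Zsqrtd.sqrtd) * h 1 := by
  unfold cr
  split_ifs <;>
    simp only [Dat.lam, emZ, mul_re', mul_im', Zsqrtd.re_add, Zsqrtd.im_add, Zsqrtd.re_star,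
      Zsqrtd.im_star, Zsqrtd.re_natCast, Zsqrtd.im_natCast, Zsqrtd.re_sqrtd, Zsqrtd.im_sqrtd] <;>
    ring

theorem small {p : ℕ} {x : ℤ} (h0 : x ≠ 0) (h : |x| < p) : ¬(p : ℤ) ∣ x :=
  fun hd => h0 (Int.eq_zero_of_abs_lt_dvd hd h)

theorem ker_unit (d : Dat) {p : ℕ} (hp : d.C ^ 2 < p) (j : Fin 6) : ¬(p : ℤ) ∣ (d.ker j).norm := by
  refine small (d.norm_ker_pos j).ne' ?_
  rw [abs_of_pos (d.norm_ker_pos j)]
  exact (d.norm_ker_le j).trans_lt (by exact_mod_cast hp)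

theorem unit_form (d : Dat) {p : ℕ} (hq : p.Prime) (hp : d.C ^ 2 < p) (j : Fin 6) {β : O}
    (hβ : ¬(p : ℤ) ∣ β.norm) :
    ¬((p : ℤ) ∣ d.lam j β ∧ (p : ℤ) ∣ d.lam j (β * Zsqrtd.sqrtd)) := by
  rintro ⟨h1, h2⟩
  have hp' := Nat.prime_iff_prime_int.1 hq
  obtain ⟨k1, k2⟩ := d.dvd_of_lam j β h1 h2
  have k3 := (hp'.dvd_or_dvd k1).resolve_left (ker_unit d hp j)
  have k4 := (hp'.dvd_or_dvd k2).resolve_left (ker_unit d hp j)
  refine hβ ?_
  rw [norm_eq]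
  exact dvd_add (k3.pow two_ne_zero) ((k4.pow two_ne_zero).mul_left _)

theorem cr_unit (d : Dat) {p : ℕ} (hq : p.Prime) (hp : d.C ^ 2 < p) {g γ : O}
    (hg : ¬(p : ℤ) ∣ g.norm) (hγ : ¬(p : ℤ) ∣ γ.norm) (κ : Bool × Fin 6 × Fin 6) :
    ¬((p : ℤ) ∣ cr d g κ γ ∧ (p : ℤ) ∣ cr d g κ (γ * Zsqrtd.sqrtd)) := by
  have hp' := Nat.prime_iff_prime_int.1 hq
  have key : ∀ x y : O, ¬(p : ℤ) ∣ x.norm → ¬(p : ℤ) ∣ y.norm →
      ¬(p : ℤ) ∣ (x * (star y * d.ker κ.2.2)).norm := fun x y hx hy h => by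
    rw [Zsqrtd.norm_mul, Zsqrtd.norm_mul, Zsqrtd.norm_conj] at h
    rcases hp'.dvd_or_dvd h with h | h
    · exact hx h
    · exact (hp'.dvd_or_dvd h).elim hy (ker_unit d hp _)
  unfold cr
  split_ifs
  · rw [mul_right_comm]
    exact unit_form d hq hp _ (key γ g hγ hg)
  · have e : d.lam κ.2.1 (g * (star (γ * Zsqrtd.sqrtd) * d.ker κ.2.2)) =
        -d.lam κ.2.1 (g * (star γ * d.ker κ.2.2) * Zsqrtd.sqrtd) := by
      simp only [Dat.lam, mul_re', mul_im', Zsqrtd.re_star, Zsqrtd.im_star, Zsqrtd.re_sqrtd,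
        Zsqrtd.im_sqrtd]
      ring
    rw [e, dvd_neg]
    exact unit_form d hq hp _ (key g γ hg hγ)

theorem del_dvd (d : Dat) {p : ℕ} (hq : p.Prime) (hp : d.C ^ 2 < p) {θ : O × O}
    (h1 : ¬(p : ℤ) ∣ θ.1.norm) (h2 : ¬(p : ℤ) ∣ θ.2.norm) (h : (p : ℤ) ∣ d.Del θ) :
    ∃ κ, (p : ℤ) ∣ cr d θ.2 κ θ.1 := by
  have hp' := Nat.prime_iff_prime_int.1 hq
  obtain ⟨t, -, h⟩ := (hp'.dvd_finsetProd_iff _).1 h
  obtain ⟨r, -, h⟩ := (hp'.dvd_finsetProd_iff _).1 h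
  have hne : t.succAbove r ≠ t := Fin.succAbove_ne t r
  simp only [Dat.bv, Dat.bb, Dat.dir] at h
  generalize t.succAbove r = i at h hne
  have hC : (d.C : ℤ) < p := by
    have := d.three_le_C
    have : d.C < p := by nlinarith
    exact_mod_cast this
  have same : ∀ g : O, ¬(p : ℤ) ∣ g.norm → jx t ≠ jx i →
      ¬(p : ℤ) ∣ d.lam (jx t) (g * (star g * d.ker (jx i))) := fun g hg hj h => by
    rw [d.lam_mul_star] at h
    have a := d.cc_le hj
    have b : (0 : ℤ) < d.e := by exact_mod_cast d.he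
    have c := abs_sub (d.c (jx t)) (d.c (jx i))
    rcases hp'.dvd_or_dvd ((hp'.dvd_or_dvd h).resolve_left hg) with h | h
    · refine small b.ne' ?_ h
      rw [abs_of_pos b]
      linarith [abs_nonneg (d.c (jx t)), abs_nonneg (d.c (jx i))]
    · exact small (sub_ne_zero.2 fun e => hj (d.hc e)) (by linarith) h
  have hv : (i : ℕ) ≠ t := fun e => hne (Fin.ext e)
  have ht := t.2
  have hi := i.2
  by_cases a : (t : ℕ) < 6 <;> by_cases b : (i : ℕ) < 6 <;> simp only [sd, a, b, if_true, if_false] at h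
  · exact absurd h (same _ h1 fun e => by
      have := congrArg Fin.val e
      simp only [jx] at this
      omega)
  · exact ⟨(true, jx t, jx i), h⟩
  · exact ⟨(false, jx t, jx i), h⟩
  · exact absurd h (same _ h2 fun e => by
      have := congrArg Fin.val e
      simp only [jx] at this
      omega)

theorem bb_le (S : Sc) {θ : O × O} (h1 : S.Fr θ.1) (h2 : S.Fr θ.2) (t i : Fin 12) :
    |S.d.bb θ t i| ≤ 7200 * (S.d.C : ℤ) ^ 4 * (S.G : ℤ) ^ 2 := by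
  have hs : ∀ t, (sz (sd θ t) : ℤ) ^ 2 ≤ 800 * (S.d.C : ℤ) ^ 2 * (S.G : ℤ) ^ 2 := fun t => by
    have a := sz_le_norm (sd θ t)
    have b : S.Fr (sd θ t) := by
      unfold sd
      split_ifs
      · exact h1
      · exact h2
    linarith [b.2.2.2.2]
  have a := S.d.abs_lam_le (jx t) (sd θ t * S.d.dir θ i)
  have b : sz (sd θ t * S.d.dir θ i) ≤ 3 * sz (sd θ t) * (3 * sz (sd θ i) * S.d.C) := by
    refine (sz_mul _ _).trans (Nat.mul_le_mul_left _ ((sz_mul _ _).trans ?_))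
    rw [sz_star]
    exact Nat.mul_le_mul_left _ (S.d.sz_ker _)
  have c : (sz (sd θ t * S.d.dir θ i) : ℤ) ≤ 3 * sz (sd θ t) * (3 * sz (sd θ i) * S.d.C) := by
    exact_mod_cast b
  have e : (sz (sd θ t) : ℤ) * sz (sd θ i) ≤ 800 * (S.d.C : ℤ) ^ 2 * (S.G : ℤ) ^ 2 := by
    nlinarith [hs t, hs i, sq_nonneg ((sz (sd θ t) : ℤ) - sz (sd θ i))]
  have C0 : (0 : ℤ) ≤ S.d.C := Int.natCast_nonneg _
  calc |S.d.bb θ t i| ≤ S.d.C * (3 * sz (sd θ t) * (3 * sz (sd θ i) * S.d.C)) :=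
        a.trans (mul_le_mul_of_nonneg_left c C0)
    _ = 9 * (S.d.C : ℤ) ^ 2 * ((sz (sd θ t) : ℤ) * sz (sd θ i)) := by ring
    _ ≤ 9 * (S.d.C : ℤ) ^ 2 * (800 * (S.d.C : ℤ) ^ 2 * (S.G : ℤ) ^ 2) :=
        mul_le_mul_of_nonneg_left e (by positivity)
    _ = _ := by ring

theorem del_le (S : Sc) {θ : O × O} (h : S.Gp θ) (hρ : 7200 * S.d.C ^ 4 ≤ S.ρ) :
    S.d.Del θ ≠ 0 ∧ (S.d.Del θ).natAbs ≤ S.ρ ^ (132 * (16 * S.P.a + 1)) := by
  have C3 := S.d.three_le_C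
  have r0 : 0 < S.ρ := lt_of_lt_of_le (by positivity) hρ
  refine ⟨prod_ne_zero_iff.2 fun t _ => prod_ne_zero_iff.2 fun r _ e => ?_, ?_⟩
  · have a := h.2.2.2 t r
    have b : 0 < S.bm := pow_pos r0 _
    rw [e, abs_zero] at a
    omega
  · have k : ∀ t r, (S.d.bv (θ, t) r).natAbs ≤ S.ρ ^ (16 * S.P.a + 1) := fun t r => by
      have a := bb_le S h.1 h.2.1 t (t.succAbove r)
      have b : (S.d.bv (θ, t) r).natAbs ≤ 7200 * S.d.C ^ 4 * S.G ^ 2 := by
        zify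
        exact a
      refine b.trans ?_
      rw [Sc.G, ← pow_mul, pow_succ' S.ρ, show 8 * S.P.a * 2 = 16 * S.P.a by ring]
      exact Nat.mul_le_mul_right _ hρ
    have e : (S.d.Del θ).natAbs = ∏ t : Fin 12, ∏ r : Fin 11, (S.d.bv (θ, t) r).natAbs := by
      simp only [Dat.Del, ← Int.natAbsHom_apply, map_prod]
    rw [e]
    refine (prod_le_pow_card _ _ _ fun t _ => prod_le_pow_card _ _ _ fun r _ => k t r).trans ?_
    rw [card_univ, card_univ, Fintype.card_fin, Fintype.card_fin, ← pow_mul, ← pow_mul]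
    exact le_of_eq (congrArg _ (by ring))

theorem eta_one (C : ℝ) (w R : ℕ) :
    etaP C w R 1 = ∏ p ∈ Sg.PP w R, (1 + C / (p : ℝ) ^ 2) - 1 := by
  rw [etaP, filter_false_of_mem fun p hp =>
    (Nat.prime_iff_prime_int.1 (mem_PP.1 hp).2).not_dvd_one, prod_empty, mul_one]

/-- the large primes -/
theorem large {C ε : ℝ} (hC : 0 ≤ C) (hε : 0 < ε) (h1 : ε ≤ 1) {K m z ρ n : ℕ}
    (hm : 4 * C * K ≤ ε * m) (m0 : 0 < m) (hz : 4 ^ m ≤ z) (hρ : ρ < 4 ^ (z + 1)) (n0 : n ≠ 0)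
    (hn : n ≤ ρ ^ K) (U : Finset ℕ) (hU : ∀ p ∈ U, p.Prime ∧ z < p ∧ p ∣ n) :
    ∏ p ∈ U, (1 + C / (p : ℝ)) ≤ 1 + ε := by
  have z0 : 0 < z := lt_of_lt_of_le (by positivity) hz
  have a1 : ∏ p ∈ U, p ≤ n :=
    Nat.le_of_dvd (Nat.pos_of_ne_zero n0)
      (prod_primes_dvd n (fun p hp => (hU p hp).1.prime) fun p hp => (hU p hp).2.2)
  have a2 : (4 ^ m) ^ U.card ≤ ∏ p ∈ U, p :=
    pow_card_le_prod _ _ _ fun p hp => hz.trans (hU p hp).2.1.le
  have a3 : ρ ^ K ≤ (4 ^ (2 * z)) ^ K :=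
    Nat.pow_le_pow_left (hρ.le.trans (Nat.pow_le_pow_right (by norm_num) (by omega))) _
  have a4 : m * U.card ≤ 2 * z * K := by
    have := ((a2.trans a1).trans hn).trans a3
    rw [← pow_mul, ← pow_mul] at this
    exact (Nat.pow_le_pow_iff_right (by norm_num)).1 this
  have a5 : (m : ℝ) * U.card ≤ 2 * z * K := by exact_mod_cast a4
  have z1 : (0 : ℝ) < z := by exact_mod_cast z0
  have m1 : (0 : ℝ) < m := by exact_mod_cast m0
  have a6 : ∑ p ∈ U, C / (p : ℝ) ≤ ε / 2 := by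
    have b : ∑ p ∈ U, C / (p : ℝ) ≤ U.card • (C / z) := sum_le_card_nsmul _ _ _ fun p hp =>
      div_le_div_of_nonneg_left hC z1 (by exact_mod_cast (hU p hp).2.1.le)
    refine b.trans ?_
    rw [nsmul_eq_mul, ← mul_div_assoc, div_le_div_iff₀ z1 two_pos]
    refine le_of_mul_le_mul_left ?_ m1
    nlinarith [mul_le_mul_of_nonneg_left a5 hC, mul_le_mul_of_nonneg_left hm z1.le]
  refine (Real.prod_one_add_le_exp_sum U (f := fun p : ℕ => C / (p : ℝ))
    fun p => by positivity).trans ((Real.exp_le_exp.2 a6).trans ?_)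
  refine (Real.exp_bound_div_one_sub_of_interval (by positivity) (by linarith)).trans ?_
  rw [div_le_iff₀ (by linarith)]
  nlinarith

/-- the local mean -/
theorem loc (d : Dat) {C : ℝ} (hC : 0 ≤ C) {p F : ℕ} (hq : p.Prime) (hp : d.C ^ 2 < p)
    (hF : ¬p ∣ F) (hr : rN p ≤ 2 / p) {g γ : O} (hg : ¬(p : ℤ) ∣ g.norm)
    (hγ : ¬(p : ℤ) ∣ γ.norm) (a : O) :
    bav p (fun h : Fin 2 → ℤ => if (p : ℤ) ∣ (a + (F : O) * emZ h).norm then 0 else 1) =
      1 - rN p ∧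
    bav p (fun h : Fin 2 → ℤ => (if (p : ℤ) ∣ (a + (F : O) * emZ h).norm then 0 else 1) *
      lf d C g (γ * (a + (F : O) * emZ h)) p) ≤ (1 - rN p) * (1 + 288 * C / (p : ℝ) ^ 2) := by
  have e : bav p (fun h : Fin 2 → ℤ =>
      if (p : ℤ) ∣ (a + (F : O) * emZ h).norm then 0 else 1) = 1 - rN p := by
    rw [← bav_norm_eq hq hF a, ← bav_const (V := Fin 2) hq.pos 1, ← bav_sub, bav_const hq.pos]
    congr 1
    funext h
    split_ifs <;> simp
  refine ⟨e, ?_⟩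
  have p0 : (0 : ℝ) < p := by exact_mod_cast hq.pos
  have hp' := Nat.prime_iff_prime_int.1 hq
  have hF' : ¬(p : ℤ) ∣ F := fun h => hF (Int.natCast_dvd_natCast.1 h)
  have a1 : ∀ κ, bav p (fun h : Fin 2 → ℤ =>
      if (p : ℤ) ∣ cr d g κ (γ * (a + (F : O) * emZ h)) then 1 else 0) ≤ 2 / p := fun κ => by
    simp only [cr_aff]
    refine (bav_lin hq.pos hq _ _ _ fun h => cr_unit d hq hp hg hγ κ
      ⟨(hp'.dvd_or_dvd h.1).resolve_left hF', (hp'.dvd_or_dvd h.2).resolve_left hF'⟩).trans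
      (le_of_eq (by ring))
  have a2 : bav p (fun h : Fin 2 → ℤ =>
      (if (p : ℤ) ∣ (a + (F : O) * emZ h).norm then 0 else 1) *
        lf d C g (γ * (a + (F : O) * emZ h)) p) ≤
      bav p fun h : Fin 2 → ℤ => (if (p : ℤ) ∣ (a + (F : O) * emZ h).norm then 0 else 1) +
        C / p * ∑ κ, if (p : ℤ) ∣ cr d g κ (γ * (a + (F : O) * emZ h)) then 1 else 0 := by
    refine bav_mono fun h => ?_
    have b0 : (0 : ℝ) ≤ ∑ κ, if (p : ℤ) ∣ cr d g κ (γ * (a + (F : O) * emZ h)) then 1 else 0 :=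
      sum_nonneg fun κ _ => by split_ifs <;> norm_num
    have b1 : 0 ≤ C / p := by positivity
    split_ifs
    · rw [zero_mul, zero_add]
      exact mul_nonneg b1 b0
    · rw [one_mul, lf]
      split_ifs with hk
      · obtain ⟨κ, hk⟩ := hk
        have b2 := single_le_sum (f := fun κ => if (p : ℤ) ∣ cr d g κ (γ * (a + (F : O) * emZ h))
          then (1 : ℝ) else 0) (fun κ _ => by split_ifs <;> norm_num) (mem_univ κ)
        rw [if_pos hk] at b2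
        nlinarith
      · nlinarith
  rw [bav_add, bav_const_mul, bav_sum, e] at a2
  have a3 := sum_le_card_nsmul univ _ _ fun κ _ => a1 κ
  have a4 : (univ : Finset (Bool × Fin 6 × Fin 6)).card = 72 := by simp
  rw [a4, nsmul_eq_mul] at a3
  have p4 : (4 : ℝ) ≤ p := by
    have := d.three_le_C
    have : 4 ≤ p := by nlinarith
    exact_mod_cast this
  have a5 : rN p ≤ 1 / 2 := hr.trans (by rw [div_le_div_iff₀ p0 two_pos]; linarith)
  have a6 := mul_le_mul_of_nonneg_left a3 (by positivity : 0 ≤ C / p)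
  have a7 : C / p * ((72 : ℕ) * (2 / p)) = 1 / 2 * (288 * C / (p : ℝ) ^ 2) := by
    push_cast
    field_simp
    ring
  have a8 : 0 ≤ 288 * C / (p : ℝ) ^ 2 := by positivity
  nlinarith

theorem per_ind {p F : ℕ} (a : O) : Per p fun h : Fin 2 → ℤ =>
    if (p : ℤ) ∣ (a + (F : O) * emZ h).norm then (0 : ℝ) else 1 := fun x y h => by
  refine if_congr (dvd_iff_dvd_of_dvd_sub ?_) rfl rfl
  refine norm_congr ((natCast_dvd_iff p _).2 ⟨?_, ?_⟩)
  · simpa [emZ, mul_re', ← mul_sub] using (h 0).mul_left (F : ℤ)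
  · simpa [emZ, mul_im', ← mul_sub] using (h 1).mul_left (F : ℤ)

theorem per_lf (d : Dat) (C : ℝ) (g γ : O) {p F : ℕ} (a : O) :
    Per p fun h : Fin 2 → ℤ => lf d C g (γ * (a + (F : O) * emZ h)) p := fun x y h => by
  refine congrArg (1 + ·) (if_congr (exists_congr fun κ => dvd_iff_dvd_of_dvd_sub ?_) rfl rfl)
  rw [cr_aff, cr_aff]
  have := dvd_add ((h 0).mul_left (F * cr d g κ γ))
    ((h 1).mul_left (F * cr d g κ (γ * Zsqrtd.sqrtd)))
  convert this using 1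
  ring

theorem ev_exp (C : ℝ) : ∀ᶠ z : ℕ in atTop,
    Real.exp (C * (5 * (Nat.log 2 (Nat.log 2 z) + 1 : ℕ))) ≤ z := by
  obtain ⟨n, hn⟩ := exists_nat_ge (10 * C)
  filter_upwards [ev_log_pow (4 ^ n) n, eventually_ge_atTop 2] with z h1 h2
  have u0 : Nat.log 2 z ≠ 0 := (Nat.log_pos one_lt_two h2).ne'
  have a1 : ((2 : ℝ)) ^ Nat.log 2 (Nat.log 2 z) ≤ Nat.log 2 z := by
    exact_mod_cast Nat.pow_log_le_self 2 u0
  have a2 : ((2 : ℝ)) ^ Nat.log 2 z ≤ z := by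
    exact_mod_cast Nat.pow_log_le_self 2 (by omega : z ≠ 0)
  have l2 := Real.log_two_gt_d9
  have a3 : (Nat.log 2 z : ℝ) ≤ 2 * Real.log z := by
    have := Real.log_le_log (by positivity) a2
    rw [Real.log_pow] at this
    nlinarith [Nat.cast_nonneg (α := ℝ) (Nat.log 2 z)]
  generalize Nat.log 2 (Nat.log 2 z) = L at a1 ⊢
  calc Real.exp (C * (5 * (L + 1 : ℕ))) ≤ Real.exp (((L + 1) * n : ℕ) * Real.log 2) := by
        refine Real.exp_le_exp.2 ?_
        push_cast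
        have b : 5 * C ≤ n * Real.log 2 := by nlinarith [Nat.cast_nonneg (α := ℝ) n]
        nlinarith [mul_le_mul_of_nonneg_left b (by positivity : (0 : ℝ) ≤ L + 1)]
    _ = (2 * 2 ^ L) ^ n := by
        rw [Real.exp_nat_mul, Real.exp_log two_pos, pow_mul, pow_succ']
    _ ≤ (4 * Real.log z) ^ n := pow_le_pow_left₀ (by positivity) (by linarith) _
    _ ≤ z := by rw [mul_pow]; exact h1

theorem tend : Tendsto (Nat.log 4) atTop atTop :=
  tendsto_atTop_atTop.2 fun b => ⟨4 ^ b, fun _ h => Nat.le_log_of_pow_le (by norm_num) h⟩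

theorem log_le {ρ : ℕ} (h : ρ ≠ 0) : (Nat.log 4 ρ : ℝ) ≤ Real.log ρ := by
  have a : ((4 : ℝ)) ^ Nat.log 4 ρ ≤ ρ := by exact_mod_cast Nat.pow_log_le_self 4 h
  have b := Real.log_le_log (by positivity) a
  rw [Real.log_pow, show (4 : ℝ) = 2 ^ 2 by norm_num, Real.log_pow] at b
  push_cast at b
  nlinarith [Nat.cast_nonneg (α := ℝ) (Nat.log 4 ρ), Real.log_two_gt_d9]

end ExpAux

open ExpAux in
theorem stExp (hAvg : StAvg) (hMass : StMass) (hEta : StEta) (hScale : StScale) : StExp := by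
  intro d P hP C ε hC hε
  obtain ⟨η, η0, η1, η2⟩ : ∃ η : ℝ, 0 < η ∧ η ≤ 1 ∧ 9 * η ≤ ε :=
    ⟨min 1 (ε / 9), by positivity, min_le_left _ _, by linarith [min_le_right 1 (ε / 9)]⟩
  obtain ⟨w1, hw1⟩ := hEta C η hC η0
  obtain ⟨w2, hw2⟩ := hEta (288 * C) η (by positivity) η0
  obtain ⟨CM, -, hM⟩ := hMass d
  obtain ⟨m, hm⟩ := exists_nat_ge (4 * C * (132 * (16 * P.a + 1) : ℕ) / η + 1)
  have m0 : 0 < m := by
    have : (0 : ℝ) < m := lt_of_lt_of_le (by positivity) hm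
    exact_mod_cast this
  have m1 : 4 * C * (132 * (16 * P.a + 1) : ℕ) ≤ η * m := by
    have a : 4 * C * (132 * (16 * P.a + 1) : ℕ) / η ≤ m := by linarith
    rwa [div_le_iff₀' η0] at a
  have hS : Ev d P _ := ⟨4, fun w hw => hScale.2.2.2 d P hP 1 w hw⟩
  have hE := Ev.of_eventually (d := d) (P := P) (Θ := fun _ ρ => 7200 * d.C ^ 4 ≤ ρ ∧
      4 ^ m ≤ Nat.log 4 ρ ∧ Real.exp (C * (5 * (Nat.log 2 (Nat.log 2 (Nat.log 4 ρ)) + 1 : ℕ))) ≤
        Nat.log 4 ρ ∧ 1 / η ≤ Real.log ρ) (max (d.C ^ 2) (max w1 w2)) fun _ _ =>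
    (eventually_ge_atTop _).and ((tend.eventually (eventually_ge_atTop _)).and
      ((tend.eventually (ev_exp C)).and (ev_log _)))
  refine (((hAvg d P hP).and (hM P hP)).and (hS.and hE)).mono ?_
  rintro S rfl rfl hok ⟨⟨hA, -, hM1⟩, ⟨-, -, hy, hSS, -, -, -, -, hFr⟩, hw, r1, r2, r3, r4⟩
  have wC : S.d.C ^ 2 ≤ S.w := le_of_max_le_left hw
  have e1 := hw1 S.w (le_of_max_le_left (le_of_max_le_right hw)) S.R
  obtain ⟨z, hz⟩ : ∃ z, z = Nat.log 4 S.ρ := ⟨_, rfl⟩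
  have e2 := hw2 S.w (le_of_max_le_right (le_of_max_le_right hw)) z
  rw [eta_one] at e1 e2
  have C3 := S.d.three_le_C
  have ρ0 : S.ρ ≠ 0 := (lt_of_lt_of_le (by positivity) r1).ne'
  have zl : (z : ℝ) ≤ Real.log S.ρ := hz ▸ log_le ρ0
  have zy : z ≤ S.y := by
    rw [pow_one] at hy
    exact_mod_cast zl.trans hy
  have zρ : S.ρ < 4 ^ (z + 1) := hz ▸ Nat.lt_pow_succ_log_self (by norm_num) _
  rw [← hz] at r2 r3
  have ew : S.d.e ≤ S.w := by nlinarith [S.d.two_e_le]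
  have nd : ∀ {g : O}, S.Fr g → ∀ p ∈ Sg.PP S.w z, ¬(p : ℤ) ∣ g.norm := fun hg p hp h => by
    have := (hFr _ hg).2.2.1 p (mem_PP.1 hp).2 h
    have := (mem_PP.1 hp).1.2
    omega
  have pC : ∀ p ∈ Sg.PP S.w z, S.d.C ^ 2 < p := fun p hp => wC.trans_lt (mem_PP.1 hp).1.1
  have mu0 : 0 ≤ S.mu := by
    have : 0 ≤ ∑ γ ∈ S.P0, 1 / (γ.norm : ℝ) := hok.po.low.trans' S.d.h0.le
    unfold Sc.mu
    positivity
  have one : ∀ g x, 1 ≤ ∏ p ∈ Sg.PP S.w z, lf S.d C g x p := fun g x =>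
    one_le_prod fun p _ => one_le_lf S.d hC g x p
  have pt : ∀ θ, S.Gp θ → etaP C S.w S.R (S.d.Del θ) ≤
      3 * η + 4 * (∏ p ∈ Sg.PP S.w z, lf S.d C θ.2 θ.1 p - 1) := fun θ hθ => by
    obtain ⟨D0, D1⟩ := del_le S hθ r1
    rw [etaP, ← prod_filter_mul_prod_filter_not
      ((Sg.PP S.w S.R).filter fun p : ℕ => (p : ℤ) ∣ S.d.Del θ) fun p => z < p]
    have a1 := large hC η0 η1 m1 m0 r2 zρ (Int.natAbs_ne_zero.2 D0) D1
      (((Sg.PP S.w S.R).filter fun p : ℕ => (p : ℤ) ∣ S.d.Del θ).filter fun p => z < p)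
      fun p hp => by
        simp only [mem_filter] at hp
        exact ⟨(mem_PP.1 hp.1.1).2, hp.2, Int.natCast_dvd.1 hp.1.2⟩
    have sub : (((Sg.PP S.w S.R).filter fun p : ℕ => (p : ℤ) ∣ S.d.Del θ).filter
        fun p => ¬z < p) ⊆ Sg.PP S.w z := fun p hp => by
      have b := mem_filter.1 hp
      have c := mem_PP.1 (mem_filter.1 b.1).1
      exact mem_PP.2 ⟨⟨c.1.1, not_lt.1 b.2⟩, c.2⟩
    have a2 : ∏ p ∈ ((Sg.PP S.w S.R).filter fun p : ℕ => (p : ℤ) ∣ S.d.Del θ).filter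
        fun p => ¬z < p, (1 + C / (p : ℝ)) ≤ ∏ p ∈ Sg.PP S.w z, lf S.d C θ.2 θ.1 p := by
      refine le_trans (le_of_eq (prod_congr rfl fun p hp => ?_))
        (prod_le_prod_of_subset_of_one_le sub (fun p _ => zero_le_one.trans (one_le_lf _ hC _ _ _))
          fun p _ _ => one_le_lf _ hC _ _ _)
      have b := sub hp
      rw [lf, if_pos (del_dvd S.d (mem_PP.1 b).2 (pC p b) (nd hθ.1 p b) (nd hθ.2.1 p b)
        (mem_filter.1 (mem_filter.1 hp).1).2)]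
    have a3 := mul_le_mul a1 a2 (prod_nonneg fun p _ => by positivity) (by positivity)
    have a4 := mul_le_mul (sub_le_iff_le_add'.1 e1) a3
      (mul_nonneg (prod_nonneg fun p _ => by positivity) (prod_nonneg fun p _ => by positivity))
      (by positivity)
    have a5 := one θ.2 θ.1
    generalize ∏ p ∈ Sg.PP S.w z, lf S.d C θ.2 θ.1 p = X at a4 a5 ⊢
    have a6 : (1 + η) * (1 + η) ≤ 4 := by nlinarith
    nlinarith [mul_le_mul_of_nonneg_right a6 (sub_nonneg.2 a5)]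
  have av : ∀ g, S.Fr g → S.mu * ∑ i ∈ S.Th,
      (∏ p ∈ Sg.PP S.w z, lf S.d C g (i.1 * i.2) p - 1) ≤ 3 / 2 * η := fun g hg => by
    have pr : ∀ p ∈ Sg.PP S.w z, p.Prime := fun p hp => (mem_PP.1 hp).2
    have fq : (Sg.PP S.w S.y).filter (· ∣ ∏ p ∈ Sg.PP S.w z, p) = Sg.PP S.w z := by
      ext p
      rw [mem_filter]
      refine ⟨fun h => ?_, fun h => ⟨?_, dvd_prod_of_mem _ h⟩⟩
      · obtain ⟨r, hr, k⟩ := ((mem_PP.1 h.1).2.prime.dvd_finsetProd_iff _).1 h.2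
        rwa [(Nat.prime_dvd_prime_iff_eq (mem_PP.1 h.1).2 (pr r hr)).1 k]
      · have c := mem_PP.1 h
        exact mem_PP.2 ⟨⟨c.1.1, c.1.2.trans zy⟩, c.2⟩
    have q0 : 0 < ∏ p ∈ Sg.PP S.w z, p := prod_pos fun p hp => (pr p hp).pos
    have q1 : ∏ p ∈ Sg.PP S.w z, p ≤ S.ρ := by
      refine le_trans ?_ ((primorial_le_four_pow z).trans (hz ▸ Nat.pow_log_le_self 4 ρ0))
      refine prod_le_prod_of_subset_of_one_le' (fun p hp => ?_) fun p hp _ =>
        (mem_filter.1 hp).2.one_le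
      have c := mem_PP.1 hp
      exact mem_filter.2 ⟨mem_range.2 (by omega), c.2⟩
    have key := (hA (fun γ γ' => ∏ p ∈ Sg.PP S.w z, lf S.d C g (γ * γ') p - 1) (fun _ => η)
      (fun _ _ => sub_nonneg.2 (one _ _)) fun _ => η0.le).2 _ (Real.log S.ρ) q0 q1
      (fun γ γ' => ?_) fun γ hγ a _ => ⟨fun x y h => ?_, ?_⟩
    · have b1 : S.pav (fun _ => η) ≤ η := by
        have c : 0 < ∑ γ ∈ S.P0, 1 / (γ.norm : ℝ) := S.d.h0.trans_le hok.po.low
        rw [Sc.pav, div_le_iff₀ c, mul_sum]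
        exact le_of_eq (sum_congr rfl fun γ _ => by ring)
      have l1 : 1 ≤ Real.log S.ρ := r4.trans' (by rw [le_div_iff₀ η0]; linarith)
      have b2 : Real.log S.ρ / Real.log S.ρ ^ 300 ≤ η := by
        rw [div_le_iff₀ (by positivity)]
        rw [div_le_iff₀ η0] at r4
        have c := pow_le_pow_right₀ l1 (show 2 ≤ 300 by norm_num)
        nlinarith [mul_le_mul_of_nonneg_left c η0.le]
      linarith
    · have b1 : ∏ p ∈ Sg.PP S.w z, lf S.d C g (γ * γ') p ≤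
          ∏ p ∈ Sg.PP S.w z, (1 + C / (p : ℝ)) :=
        prod_le_prod (fun p _ => zero_le_one.trans (one_le_lf _ hC _ _ _)) fun p _ =>
          lf_le _ hC _ _ _
      have b2 := Real.prod_one_add_le_exp_sum (Sg.PP S.w z) (f := fun p : ℕ => C / (p : ℝ))
        fun p => by positivity
      have b3 : ∑ p ∈ Sg.PP S.w z, C / (p : ℝ) ≤
          C * (5 * (Nat.log 2 (Nat.log 2 z) + 1 : ℕ)) := by
        refine le_trans ?_ (mul_le_mul_of_nonneg_left (hScale.2.1 z) hC)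
        rw [mul_sum]
        refine le_trans (le_of_eq (sum_congr rfl fun p _ => by ring))
          (sum_le_sum_of_subset_of_nonneg (fun p hp => ?_) fun p _ _ => by positivity)
        have c := mem_PP.1 hp
        exact mem_PP.2 ⟨⟨c.2.pos, c.1.2⟩, c.2⟩
      linarith [Real.exp_le_exp.2 b3]
    · exact congrArg (· - 1) (prod_congr rfl fun p hp => per_lf S.d C g γ a x y fun v =>
        (Int.natCast_dvd_natCast.2 (dvd_prod_of_mem _ hp)).trans (h v))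
    · have lc := fun p hp => loc S.d hC (pr p hp) (pC p hp)
        (S.not_dvd_F ew (pr p hp) (mem_PP.1 hp).1.1) (hScale.1 p (pr p hp)).2 (nd hg p hp)
        (γ := γ) (fun h => by
          have := hok.po.pr γ hγ p (pr p hp) h
          have := (mem_PP.1 hp).1.2
          omega) a
      have ind : ∀ h : Fin 2 → ℤ, (if ∀ p ∈ Sg.PP S.w S.y, p ∣ ∏ p ∈ Sg.PP S.w z, p →
          ¬(p : ℤ) ∣ (a + (S.F : O) * emZ h).norm then (1 : ℝ) else 0) =
          ∏ p ∈ Sg.PP S.w z, if (p : ℤ) ∣ (a + (S.F : O) * emZ h).norm then 0 else 1 := fun h => by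
        split_ifs with k
        · refine (prod_eq_one fun p hp => if_neg ?_).symm
          rw [← fq, mem_filter] at hp
          exact k p hp.1 hp.2
        · push Not at k
          obtain ⟨p, h1, h2, h3⟩ := k
          refine (prod_eq_zero (fq ▸ mem_filter.2 ⟨h1, h2⟩) ?_).symm
          exact if_pos h3
      simp only [ind, mul_sub, mul_one, ← prod_mul_distrib]
      rw [fq, bav_sub, bav_crt _ pr _ fun p _ => per_ind a,
        bav_crt _ pr (fun p h => (if (p : ℤ) ∣ (a + (S.F : O) * emZ h).norm then 0 else 1) *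
          lf S.d C g (γ * (a + (S.F : O) * emZ h)) p) fun p _ x y h =>
            congrArg₂ (· * ·) (per_ind a x y h) (per_lf S.d C g γ a x y h),
        prod_congr rfl fun p hp => (lc p hp).1]
      have b1 := prod_le_prod (fun p _ => bav_nonneg fun h => mul_nonneg
        (by split_ifs <;> norm_num) (zero_le_one.trans (one_le_lf _ hC _ _ _)))
        fun p hp => (lc p hp).2
      rw [prod_mul_distrib] at b1
      have b2 : 0 ≤ ∏ p ∈ Sg.PP S.w z, (1 - rN p) := prod_nonneg fun p hp => by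
        rw [← (lc p hp).1]
        exact bav_nonneg fun h => by split_ifs <;> norm_num
      nlinarith [mul_le_mul_of_nonneg_left e2 b2]
  have s1 : ∑ θ ∈ S.T2, etaP C S.w S.R (S.d.Del (pr θ)) ≤ ∑ θ ∈ S.Th ×ˢ S.Th,
      (3 * η + 4 * (∏ p ∈ Sg.PP S.w z, lf S.d C (pr θ).2 (pr θ).1 p - 1)) :=
    (sum_le_sum fun θ hθ => pt _ (mem_filter.1 hθ).2).trans
      (sum_le_sum_of_subset_of_nonneg (filter_subset _ _) fun θ _ _ => by
        linarith [one (pr θ).2 (pr θ).1])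
  rw [sum_add_distrib, sum_const, card_product, nsmul_eq_mul, ← mul_sum, sum_product_right] at s1
  have s2 : S.mu * ∑ j ∈ S.Th, ∑ i ∈ S.Th,
      (∏ p ∈ Sg.PP S.w z, lf S.d C (pr (i, j)).2 (pr (i, j)).1 p - 1) ≤
        S.Th.card * (3 / 2 * η) := by
    rw [mul_sum, ← nsmul_eq_mul]
    refine sum_le_card_nsmul _ _ _ fun j hj => ?_
    have k : S.Fr (j.1 * j.2) := (mem_filter.1 hj).2
    simpa only [pr] using av _ k
  have t0 : 0 ≤ S.mu * S.Th.card := by positivity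
  have s3 := mul_le_mul_of_nonneg_left s1 (sq_nonneg S.mu)
  have s4 := mul_le_mul_of_nonneg_left s2 mu0
  have s5 : (S.mu * S.Th.card) * (S.mu * S.Th.card) ≤ 1 := by nlinarith
  push_cast at s3
  nlinarith [mul_le_mul_of_nonneg_left s5 η0.le, mul_le_mul_of_nonneg_left hM1 η0.le]

end Pool.Agent.Lib.MP_7d3fda_nt.Q3
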