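import Pool.Agent.Lib.MP_7d3fda_nt.Q3.Basic

open Finset Filter
open scoped Classical NumberTheorySymbols

noncomputable section

namespace Pool.Agent.Lib.MP_7d3fda_nt.Q3

open Pool.Agent.Lib.MP_4b8564_nt Pool.Agent.Lib.MP_4b8564_nt.GT
open Pool.Agent.Lib.MP_0a3467_an.Cv (Low)
open Pool.Agent.Lib.MP_0a3467_an

/-! Elementary facts on the triples. -/

namespace FactsAux

theorem small {S : Sc} (hP : S.P.Ok S.d) (hρ : 1600 * S.d.C ^ 2 < S.ρ) :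
    1600 * S.d.C ^ 2 * S.G ^ 2 < S.T ^ 2 ∧ 1600 * S.d.C ^ 2 * S.G ^ 2 < S.W * S.N := by
  obtain ⟨h1, h2, h3, -⟩ := hP.big
  have r0 : 0 < S.ρ := by omega
  have a1 : 1600 * S.d.C ^ 2 * S.G ^ 2 < S.ρ ^ (16 * S.P.a + 1) := by
    have e : S.G ^ 2 = S.ρ ^ (16 * S.P.a) := by rw [Sc.G, ← pow_mul]; congr 1; ring
    rw [e, pow_succ' S.ρ]
    exact Nat.mul_lt_mul_of_pos_right hρ (pow_pos r0 _)
  have a2 : S.ρ ^ (16 * S.P.a + 1) ≤ S.ρ ^ (S.P.E * S.P.A - 8 * S.P.a) :=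
    Nat.pow_le_pow_right r0 (by omega)
  have a3 : S.ρ ^ (16 * S.P.a + 1) ≤ S.ρ ^ (S.P.E * S.P.A) := Nat.pow_le_pow_right r0 (by omega)
  have a4 : S.ρ ^ (S.P.E * S.P.A - 8 * S.P.a) ≤ S.T := Nat.le_mul_of_pos_left _ S.W_pos
  have a5 : S.N ≤ S.W * S.N := Nat.le_mul_of_pos_left _ S.W_pos
  exact ⟨a1.trans_le (a2.trans (a4.trans (Nat.le_self_pow two_ne_zero _))),
    a1.trans_le (a3.trans a5)⟩

theorem sq_prime {p q : ℕ} (hp : p.Prime) (hq : q.Prime) {g : ℤ} (h : g * q = (p : ℤ) ^ 2) :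
    ¬g < q := by
  have h1 : q ∣ p ^ 2 := by
    have : (q : ℤ) ∣ ((p ^ 2 : ℕ) : ℤ) := ⟨g, by push_cast; rw [← h]; ring⟩
    exact Int.natCast_dvd_natCast.1 this
  obtain rfl : q = p := (Nat.prime_dvd_prime_iff_eq hq hp).1 (hq.dvd_of_dvd_pow h1)
  have h2 : (0 : ℤ) < q := by exact_mod_cast hq.pos
  intro h3
  nlinarith

end FactsAux

open FactsAux in
theorem stFacts (_hScale : StScale) : StFacts := by
  intro d P hP
  refine (Ev.of_eventually (d := d) (P := P) (Θ := fun _ ρ => 1600 * d.C ^ 2 < ρ) 0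
    fun _ _ => eventually_gt_atTop _).mono ?_
  rintro S rfl rfl hok ⟨-, hρ⟩ A Pi hA hPi x hx z hz
  obtain ⟨s1, s2⟩ := small hP hρ
  obtain ⟨hx1, hx2⟩ := mem_filter.1 hx
  obtain ⟨hx3, hx4⟩ := mem_product.1 hx1
  obtain ⟨f1, -, -, -, f5⟩ : S.Fr (x.1.1 * x.1.2) := (mem_filter.1 hx3).2
  rw [← hz] at hx2
  generalize x.1.1 * x.1.2 = γ at *
  have hB := hPi.1 hx4
  have hq := hPi.2 _ hx4
  generalize x.2 = q at *
  have s1' : (1600 * (S.d.C : ℤ) ^ 2 * (S.G : ℤ) ^ 2) < (S.T : ℤ) ^ 2 := by exact_mod_cast s1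
  have s2' : (1600 * (S.d.C : ℤ) ^ 2 * (S.G : ℤ) ^ 2) < (S.W : ℤ) * S.N := by exact_mod_cast s2
  have g0 := norm_nonneg' γ
  have g1 : γ.norm < q.norm := by linarith [(hok.lo q hB).1]
  have g2 : γ.norm < (S.W : ℤ) * S.N := by linarith
  have hF : (S.F : O) ∣ z - S.b := by
    have e : z - S.b = γ * (q - S.w0) + (γ * S.w0 - S.b) := by rw [hz]; ring
    rw [e]
    exact dvd_add ((S.mem_B_congr hB).mul_left _) f1
  have e0 : (0 : ℤ) < S.d.e := by exact_mod_cast S.d.he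
  have W0 : (0 : ℤ) < S.W := by exact_mod_cast S.W_pos
  have eF : (S.F : ℤ) = S.d.e * S.W := by rw [S.F_eq]; push_cast; rfl
  have him : z.im = S.d.e * (z.im / S.d.e) := by
    have h := ((natCast_dvd_iff _ _).1 hF).2
    simp only [Zsqrtd.im_sub, Zsqrtd.im_natCast, sub_zero] at h
    exact (Int.mul_ediv_cancel' ((Dvd.intro _ eF.symm).trans h)).symm
  generalize z.im / S.d.e = s at *
  have hv : ∀ j, S.W * S.nn j z + S.b = z.re + S.d.c j * s := fun j => by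
    have h := S.d.lam_eq S.F_pos j hF
    rw [Dat.lam, him, eF] at h
    apply mul_left_cancel₀ e0.ne'
    rw [Sc.nn]
    linear_combination -h
  have n1 : ∀ j, (S.N : ℤ) ≤ S.nn j z := fun j => (hA _ (hx2 j)).1
  have n2 : ∀ j, S.nn j z < 2 * S.N := fun j => (hA _ (hx2 j)).2.1
  have N1 : (1 : ℤ) ≤ S.N := by linarith [n1 0, n2 0]
  have b0 : (0 : ℤ) ≤ S.b := Int.natCast_nonneg _
  have b1 : (S.b : ℤ) < S.d.e * S.W := by rw [← eF]; exact_mod_cast hok.hb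
  have lo : ∀ j, (S.W : ℤ) * S.N ≤ S.W * S.nn j z := fun j => by gcongr; exact n1 j
  have hi : ∀ j, S.W * S.nn j z ≤ (S.W : ℤ) * (2 * S.N) := fun j => by gcongr; exact (n2 j).le
  have WN : (0 : ℤ) < S.W * S.N := by positivity
  have hm : ∀ j, (S.mm j z : ℤ) = S.W * S.nn j z + S.b := fun j => by
    rw [Sc.mm, Int.natAbs_of_nonneg (by linarith [lo j])]
  have s0 : s ≠ 0 := by
    rintro rfl
    have h1 : γ.norm * (q.norm.natAbs : ℕ) = (S.mm 0 z : ℤ) ^ 2 := by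
      rw [Int.natAbs_of_nonneg (norm_nonneg' q), ← Zsqrtd.norm_mul, ← hz, norm_eq, him, hm, hv]
      ring
    refine sq_prime (hA _ (hx2 0)).2.2 hq h1 ?_
    rwa [Int.natAbs_of_nonneg (norm_nonneg' q)]
  have sb : |s| ≤ S.W * S.N := by
    have h1 : S.d.c 0 - S.d.c 1 ≠ 0 := fun h => absurd (S.d.hc (sub_eq_zero.1 h)) (by decide)
    have h2 : |(S.d.c 0 - S.d.c 1) * s| ≤ S.W * S.N := by
      rw [abs_le]
      constructor <;> linarith [hv 0, hv 1, lo 0, lo 1, hi 0, hi 1]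
    rw [abs_mul] at h2
    nlinarith [Int.one_le_abs h1, abs_nonneg s]
  have c0 := S.d.c_le 0
  have c1 := abs_nonneg (S.d.c 0)
  refine ⟨him, s0, fun j => by rw [hm, hv], fun i j h => ?_, g1,
    fun j => by linarith [hm j, lo j], ?_, ?_⟩
  · have h1 : (S.mm i z : ℤ) = S.mm j z := congrArg Nat.cast h
    rw [hm, hm, hv, hv, add_right_inj] at h1
    exact S.d.hc (mul_right_cancel₀ s0 h1)
  · have h1 : z.re = S.W * S.nn 0 z + S.b - S.d.c 0 * s := by rw [hv]; ring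
    have h2 : |S.d.c 0 * s| ≤ |S.d.c 0| * (S.W * S.N) := by rw [abs_mul]; gcongr
    have h3 : (S.d.e : ℤ) * S.W ≤ S.d.e * (S.W * S.N) := by gcongr; nlinarith
    have h4 : (2 + S.d.e + |S.d.c 0|) * ((S.W : ℤ) * S.N) ≤ 2 * S.d.C * (S.W * S.N) := by
      gcongr; linarith
    have h5 := abs_le.1 h2
    rw [h1, abs_le]
    constructor <;> nlinarith [lo 0, hi 0]
  · rw [him, abs_mul, abs_of_pos e0, mul_assoc (2 * (S.d.C : ℤ))]
    gcongr
    linarith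

end Pool.Agent.Lib.MP_7d3fda_nt.Q3
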