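import Pool.Agent.Lib.MP_7d3fda_nt.Q3.Basic

open Finset Filter
open scoped Classical NumberTheorySymbols

noncomputable section

namespace Pool.Agent.Lib.MP_7d3fda_nt.Q3

open Pool.Agent.Lib.MP_4b8564_nt Pool.Agent.Lib.MP_4b8564_nt.GT
open Pool.Agent.Lib.MP_0a3467_an.Cv (Low)
open Pool.Agent.Lib.MP_0a3467_an

namespace GDualAux

variable {s : ℕ}

theorem low_ign {B : Set ℤ} {f : (Fin s → ℤ) → ℝ} (r : Fin s) (h1 : ∀ t, |f t| ≤ 1)
    (h2 : ∀ t a, f (Function.update t r a) = f t) : Low B 1 f := by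
  have h := Cv.Low.of_adm (B := B) (F := fun r' t => if r' = r then f t else 1)
    ⟨fun r' t => by by_cases e : r' = r <;> simp [e, h1], fun r' t a => by
      by_cases e : r' = r
      · simp only [e, if_true, h2]
      · simp only [e, if_false]⟩
  simpa using h

/-- the product over the vertices other than the base point -/
def pr (b : Fin s → ℤ) (u : ℤ → ℝ) (y : ℤ) (h h' : Fin s → ℕ) : ℝ :=
  ∏ ω ∈ (univ : Finset (Finset (Fin s))).erase ∅,
    u (y + ∑ r, b r * if r ∈ ω then (h' r : ℤ) - h r else 0)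

/-- the dual function -/
def du (H : ℕ) (b : Fin s → ℤ) (u : ℤ → ℝ) (y : ℤ) : ℝ :=
  (((H : ℝ) ^ s) ^ 2)⁻¹ * ∑ h ∈ Fintype.piFinset fun _ : Fin s => range H,
    ∑ h' ∈ Fintype.piFinset fun _ : Fin s => range H, pr b u y h h'

variable {H N : ℕ} {b : Fin s → ℤ} {u : ℤ → ℝ}

theorem pr_le (hu : ∀ x, |u x| ≤ 1) (y : ℤ) (h h' : Fin s → ℕ) : |pr b u y h h'| ≤ 1 := by
  rw [pr, abs_prod]
  exact prod_le_one (fun _ _ => abs_nonneg _) fun _ _ => hu _

theorem du_le (hH : 0 < H) (hu : ∀ x, |u x| ≤ 1) (y : ℤ) : |du H b u y| ≤ 1 := by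
  have h0 : (0 : ℝ) < ((H : ℝ) ^ s) ^ 2 := by positivity
  rw [du, abs_mul, abs_of_pos (inv_pos.2 h0), inv_mul_le_iff₀ h0, mul_one]
  refine (abs_sum_le_sum_abs _ _).trans ((sum_le_sum fun h _ => (abs_sum_le_sum_abs _ _).trans
    (sum_le_sum fun h' _ => pr_le hu y h h')).trans (le_of_eq ?_))
  simp [Fintype.card_piFinset, sq]

theorem vert (x : ℤ) (h h' : Fin s → ℕ) :
    ∏ ω : Finset (Fin s), u (x + ∑ r, b r * ((if r ∈ ω then h' r else h r : ℕ) : ℤ))
      = u (x + ∑ r, b r * h r) * pr b u (x + ∑ r, b r * h r) h h' := by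
  rw [← mul_prod_erase univ _ (mem_univ ∅), pr]
  congr 1
  refine prod_congr rfl fun ω _ => congrArg u ?_
  rw [add_assoc, ← sum_add_distrib]
  refine congrArg _ (sum_congr rfl fun r _ => ?_)
  split_ifs <;> ring

theorem box_eq (hs : ∀ x, u x ≠ 0 → (N : ℤ) ≤ x ∧ x < 2 * N) :
    boxN N u b (fun _ => H) = avI N fun x => u x * du H b u x := by
  have sup : ∀ h h' : Fin s → ℕ, (Function.support fun y => u y * pr b u y h h')
      ⊆ (Ico (N : ℤ) (2 * N) : Finset ℤ) := fun h h' y hy =>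
    mem_coe.2 (mem_Ico.2 (hs y (left_ne_zero_of_mul hy)))
  have fin : ∀ h h' : Fin s → ℕ, (Function.support fun x : ℤ =>
      u (x + ∑ r, b r * h r) * pr b u (x + ∑ r, b r * h r) h h').Finite := fun h h' =>
    ((Ico (N : ℤ) (2 * N)).finite_toSet.preimage (add_left_injective (∑ r, b r * h r)).injOn).subset
      fun x hx => sup h h' hx
  have e : ∀ h h' : Fin s → ℕ,
      ∑ᶠ x : ℤ, u (x + ∑ r, b r * h r) * pr b u (x + ∑ r, b r * h r) h h'
        = ∑ y ∈ Ico (N : ℤ) (2 * N), u y * pr b u y h h' := fun h h' => by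
    rw [← finsum_eq_sum_of_support_subset _ (sup h h')]
    exact finsum_comp_equiv (Equiv.addRight (∑ r, b r * h r)) (f := fun y => u y * pr b u y h h')
  rw [boxN, avI]
  simp only [vert, ← sum_product']
  rw [finsum_sum_comm _ (fun (x : ℤ) (p : (Fin s → ℕ) × (Fin s → ℕ)) =>
    u (x + ∑ r, b r * p.1 r) * pr b u (x + ∑ r, b r * p.1 r) p.1 p.2) fun p _ => fin p.1 p.2]
  simp only [e]
  rw [sum_comm]
  simp only [du, ← sum_product', ← mul_sum, prod_const, card_univ, Fintype.card_fin]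
  rw [mul_comm (N : ℝ), ← div_div, div_eq_inv_mul (∑ _ ∈ _, _) (_ ^ 2), mul_sum]
  congr 1
  exact sum_congr rfl fun y _ => by ring

/-- one term after the change of variables -/
def tr (H : ℕ) (b : Fin s → ℤ) (u : ℤ → ℝ) (x : ℤ) (a : Fin s → ℤ) (h' : Fin s → ℕ)
    (t : Fin s → ℤ) : ℝ :=
  (∏ r, if 0 ≤ t r + a r ∧ t r + a r < H then (1 : ℝ) else 0) *
    ∏ ω ∈ (univ : Finset (Finset (Fin s))).erase ∅,
      u (x + ∑ r, b r * if r ∈ ω then (h' r : ℤ) - a r else t r)

theorem low_tr (h2 : 2 ≤ s) (hu : ∀ x, |u x| ≤ 1) (B : Set ℤ) (x : ℤ) (a : Fin s → ℤ)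
    (h' : Fin s → ℕ) : Low B 1 (tr H b u x a h') := by
  have : Nontrivial (Fin s) := Fin.nontrivial_iff_two_le.2 h2
  have l1 := Cv.Low.prod (B := B) univ (Ms := fun _ => 1) (Gs := fun (r : Fin s) (t : Fin s → ℤ) =>
    if 0 ≤ t r + a r ∧ t r + a r < H then (1 : ℝ) else 0) fun r _ => by
      obtain ⟨r', hr⟩ := exists_ne r
      refine low_ign r' (fun t => by split_ifs <;> simp) fun t c => ?_
      rw [Function.update_of_ne hr.symm]
  have l2 := Cv.Low.prod (B := B) ((univ : Finset (Finset (Fin s))).erase ∅) (Ms := fun _ => 1)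
    (Gs := fun ω (t : Fin s → ℤ) => u (x + ∑ r, b r * if r ∈ ω then (h' r : ℤ) - a r else t r))
    fun ω hω => by
      obtain ⟨r', hr⟩ := nonempty_iff_ne_empty.2 (ne_of_mem_erase hω)
      refine low_ign r' (fun t => hu _) fun t c => ?_
      refine congrArg u (congrArg _ (sum_congr rfl fun r _ => ?_))
      by_cases e : r ∈ ω
      · simp only [e, if_true]
      · have : r ≠ r' := fun h => e (h ▸ hr)
        simp only [e, if_false, Function.update_of_ne this]
  have l3 := l1.mul l2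
  simp only [prod_const_one, mul_one] at l3
  exact l3

theorem change (x : ℤ) (h' : Fin s → ℕ) {t : Fin s → ℤ} (ht : ∀ r, t r ∈ Set.Icc (-(H : ℤ)) H) :
    ∑ a ∈ Fintype.piFinset fun _ : Fin s => Ico (-(H : ℤ)) (2 * H), tr H b u x a h' t
      = ∑ h ∈ Fintype.piFinset fun _ : Fin s => range H, pr b u (x + ∑ r, b r * t r) h h' := by
  have e : ∀ a, tr H b u x a h' t = if ∀ r, 0 ≤ t r + a r ∧ t r + a r < H then
      ∏ ω ∈ (univ : Finset (Finset (Fin s))).erase ∅,
        u (x + ∑ r, b r * if r ∈ ω then (h' r : ℤ) - a r else t r) else 0 := fun a => by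
    rw [tr, Fintype.prod_boole, boole_mul]
    congr
  simp only [e]
  rw [← sum_filter]
  symm
  refine sum_nbij' (fun h r => (h r : ℤ) - t r) (fun a r => (t r + a r).toNat) ?_ ?_ ?_ ?_ ?_
  · intro h hh
    have h1 := fun r => mem_range.1 (Fintype.mem_piFinset.1 hh r)
    refine mem_filter.2 ⟨Fintype.mem_piFinset.2 fun r => mem_Ico.2 ?_, fun r => ?_⟩
    · have := h1 r
      have := (ht r).1
      have := (ht r).2
      constructor <;> omega
    · have := h1 r
      show 0 ≤ t r + ((h r : ℤ) - t r) ∧ t r + ((h r : ℤ) - t r) < H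
      constructor <;> omega
  · intro a ha
    refine Fintype.mem_piFinset.2 fun r => mem_range.2 ?_
    have := (mem_filter.1 ha).2 r
    omega
  · intro h _
    funext r
    simp
  · intro a ha
    funext r
    have := (mem_filter.1 ha).2 r
    show (((t r + a r).toNat : ℕ) : ℤ) - t r = a r
    omega
  · intro h _
    refine prod_congr rfl fun ω _ => congrArg u ?_
    rw [add_assoc, ← sum_add_distrib]
    refine congrArg _ (sum_congr rfl fun r _ => ?_)
    split_ifs <;> ring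

theorem low_du (h2 : 2 ≤ s) (hH : 0 < H) (hu : ∀ x, |u x| ≤ 1) :
    LowDir b H (3 ^ s) (du H b u) := by
  intro x
  have l := (Cv.Low.sum (Fintype.piFinset fun _ : Fin s => range H) fun h' _ =>
    Cv.Low.sum (Fintype.piFinset fun _ : Fin s => Ico (-(H : ℤ)) (2 * H)) fun a _ =>
      low_tr (H := H) (b := b) h2 hu (Set.Icc (-(H : ℤ)) H) x a h').smul (((H : ℝ) ^ s) ^ 2)⁻¹
  refine (l.congr fun t ht => ?_).mono (le_of_eq ?_)
  · simp only [change x _ ht]
    rw [du, sum_comm]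
  · have h0 : (0 : ℝ) < H := by exact_mod_cast hH
    have e : (2 * (H : ℤ) - -(H : ℤ)).toNat = 3 * H := by omega
    simp only [sum_const, Fintype.card_piFinset, prod_const, card_univ, Fintype.card_fin,
      card_range, Int.card_Ico, e, nsmul_eq_mul, mul_one]
    rw [abs_of_pos (by positivity)]
    push_cast
    rw [mul_pow]
    field_simp

end GDualAux

open GDualAux in
theorem stGDual : StGDual := fun _ _ H b u h2 hH hu hs =>
  ⟨du H b u, du_le hH hu, low_du h2 hH hu, box_eq hs⟩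

end Pool.Agent.Lib.MP_7d3fda_nt.Q3
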