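import Pool.Agent.Lib.MP_7d3fda_nt.Q3.Basic
import Pool.Agent.Lib.MP_4b8564_nt.Sg.GGge

open Finset Filter
open scoped Classical NumberTheorySymbols

noncomputable section

namespace Pool.Agent.Lib.MP_7d3fda_nt.Q3

open Pool.Agent.Lib.MP_4b8564_nt Pool.Agent.Lib.MP_4b8564_nt.GT
open Pool.Agent.Lib.MP_0a3467_an.Cv (Low)
open Pool.Agent.Lib.MP_0a3467_an

namespace GKAux

/-- the character modulo three -/
def ch (n : ℕ) : ℝ := if n % 3 = 1 then 1 else if n % 3 = 2 then -1 else 0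

theorem ch_mul (m n : ℕ) : ch (m * n) = ch m * ch n := by
  unfold ch
  rw [Nat.mul_mod]
  have hm : m % 3 = 0 ∨ m % 3 = 1 ∨ m % 3 = 2 := by omega
  have hn : n % 3 = 0 ∨ n % 3 = 1 ∨ n % 3 = 2 := by omega
  rcases hm with hm | hm | hm <;> rcases hn with hn | hn | hn <;> simp [hm, hn]

theorem ch_pow (p i : ℕ) : ch (p ^ i) = ch p ^ i := by
  induction i with
  | zero => simp [ch]
  | succ i ih => rw [pow_succ, ch_mul, ih, pow_succ]

/-- the sum of the character over the divisors -/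
def rr (n : ℕ) : ℝ := ∑ d ∈ n.divisors, ch d

theorem rr_mul {a b : ℕ} (h : a.Coprime b) : rr (a * b) = rr a * rr b := by
  let X : ArithmeticFunction ℝ := ⟨ch, by simp [ch]⟩
  have hX : X.IsMultiplicative := ⟨by simp [X, ch], fun {m n} _ => ch_mul m n⟩
  have h1 := (ArithmeticFunction.isMultiplicative_zeta.natCast (R := ℝ)).mul hX
  have h2 := h1.map_mul_of_coprime h
  simp only [ArithmeticFunction.coe_zeta_mul_apply] at h2
  exact h2

/-- all prime factors are one modulo three -/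
def Sp (n : ℕ) : Prop := ∀ p : ℕ, p.Prime → p ∣ n → p % 3 = 1

theorem rr_bound (n : ℕ) : 0 ≤ rr n ∧ (rr n = 0 ∨ ∃ u e m : ℕ, n = u * (e * m ^ 2) ∧ Sp u ∧
    (e = 1 ∨ e = 3) ∧ rr n ≤ u.divisors.card) := by
  have sp1 : Sp 1 := fun p hp h => absurd (Nat.dvd_one.1 h) hp.ne_one
  induction n using Nat.recOnPosPrimePosCoprime with
  | zero => simp [rr]
  | one => exact ⟨by simp [rr, ch], Or.inr ⟨1, 1, 1, rfl, sp1, Or.inl rfl, by simp [rr, ch]⟩⟩
  | prime_pow p k hp hk =>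
    have h1 : rr (p ^ k) = ∑ i ∈ range (k + 1), ch p ^ i := by
      rw [rr, Nat.divisors_prime_pow hp, sum_map]
      exact sum_congr rfl fun i _ => ch_pow p i
    have hm : p % 3 = 0 ∨ p % 3 = 1 ∨ p % 3 = 2 := by omega
    rcases hm with hm | hm | hm
    · have h3 : p = 3 := ((Nat.prime_dvd_prime_iff_eq Nat.prime_three hp).1
        (Nat.dvd_of_mod_eq_zero hm)).symm
      have h2 : rr (p ^ k) = 1 := by
        rw [h1, sum_range_succ']
        simp [ch, hm]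
      refine ⟨by rw [h2]; norm_num, Or.inr ?_⟩
      obtain ⟨j, hj | hj⟩ := Nat.even_or_odd' k
      · exact ⟨1, 1, p ^ j, by rw [hj]; ring, sp1, Or.inl rfl, by simp [h2]⟩
      · exact ⟨1, 3, p ^ j, by rw [hj, h3]; ring, sp1, Or.inr rfl, by simp [h2]⟩
    · have h2 : rr (p ^ k) = (k + 1 : ℕ) := by
        rw [h1]
        simp [ch, hm]
      refine ⟨by rw [h2]; positivity, Or.inr ⟨p ^ k, 1, 1, by ring, fun q hq h => ?_, Or.inl rfl, ?_⟩⟩
      · rw [(Nat.prime_dvd_prime_iff_eq hq hp).1 (hq.dvd_of_dvd_pow h)]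
        exact hm
      · rw [h2, Nat.divisors_prime_pow hp, card_map, card_range]
    · have h2 : rr (p ^ k) = if Even (k + 1) then 0 else 1 := by
        rw [h1, ← neg_one_geom_sum]
        simp [ch, hm]
      obtain ⟨j, hj | hj⟩ := Nat.even_or_odd' k
      · rw [if_neg (by rw [Nat.even_iff]; omega)] at h2
        exact ⟨by rw [h2]; norm_num,
          Or.inr ⟨1, 1, p ^ j, by rw [hj]; ring, sp1, Or.inl rfl, by simp [h2]⟩⟩
      · rw [if_pos (by rw [Nat.even_iff]; omega)] at h2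
        exact ⟨h2.ge, Or.inl h2⟩
  | coprime a b _ _ hab iha ihb =>
    rw [rr_mul hab]
    refine ⟨mul_nonneg iha.1 ihb.1, ?_⟩
    rcases iha.2 with h | ⟨u, e, m, rfl, hu, he, h⟩
    · exact Or.inl (by rw [h, zero_mul])
    rcases ihb.2 with h' | ⟨u', e', m', rfl, hu', he', h'⟩
    · exact Or.inl (by rw [h', mul_zero])
    have huu : u.Coprime u' := (hab.coprime_mul_right).coprime_mul_right_right
    have hs : Sp (u * u') := fun p hp h => ((Nat.Prime.dvd_mul hp).1 h).elim (hu p hp) (hu' p hp)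
    have hb : rr (u * (e * m ^ 2)) * rr (u' * (e' * m' ^ 2)) ≤ ((u * u').divisors.card : ℝ) := by
      rw [huu.card_divisors_mul, Nat.cast_mul]
      exact mul_le_mul h h' ihb.1 (by positivity)
    right
    rcases he with rfl | rfl <;> rcases he' with rfl | rfl
    · exact ⟨u * u', 1, m * m', by ring, hs, Or.inl rfl, hb⟩
    · exact ⟨u * u', 3, m * m', by ring, hs, Or.inr rfl, hb⟩
    · exact ⟨u * u', 3, m * m', by ring, hs, Or.inr rfl, hb⟩
    · exact ⟨u * u', 1, 3 * m * m', by ring, hs, Or.inl rfl, hb⟩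

theorem half_le (y : ℕ) (hy : 1 ≤ y) :
    1 / 2 + (if y % 3 = 1 then 1 / ((y : ℝ) + 1) else 0) ≤ ∑ b ∈ Ioc 0 y, ch b / b := by
  induction y, hy using Nat.le_induction with
  | base => norm_num [ch]
  | succ y hy ih =>
    rw [sum_Ioc_succ_top (Nat.zero_le y)]
    have hm : y % 3 = 0 ∨ y % 3 = 1 ∨ y % 3 = 2 := by omega
    have h0 : (0 : ℝ) < (y : ℝ) + 1 := by positivity
    rcases hm with hm | hm | hm
    · have h1 : (y + 1) % 3 = 1 := by omega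
      have h2 : 1 / ((y : ℝ) + 1 + 1) ≤ 1 / ((y : ℝ) + 1) :=
        one_div_le_one_div_of_le h0 (by linarith)
      simp only [ch, h1, hm, if_true] at ih ⊢
      push_cast
      norm_num at ih h2 ⊢
      linarith
    · have h1 : (y + 1) % 3 = 2 := by omega
      rw [if_pos hm] at ih
      rw [if_neg (by omega), show ch (y + 1) = -1 by simp [ch, h1]]
      push_cast
      rw [neg_div]
      linarith
    · have h1 : (y + 1) % 3 = 0 := by omega
      rw [if_neg (by omega)] at ih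
      rw [if_neg (by omega), show ch (y + 1) = 0 by simp [ch, h1]]
      linarith [zero_div ((y + 1 : ℕ) : ℝ)]

theorem log_le_rr (R : ℕ) (hR : 1 ≤ R) : 1 / 2 * Real.log R ≤ ∑ n ∈ Ioc 0 R, rr n / n := by
  let f : ArithmeticFunction ℝ := ⟨fun n => (n : ℝ)⁻¹, by simp⟩
  let g : ArithmeticFunction ℝ := ⟨fun n => ch n / n, by simp⟩
  have h1 : ∀ n, (f * g) n = rr n / n := fun n => by
    rw [ArithmeticFunction.mul_apply, rr, ← Nat.sum_divisorsAntidiagonal' fun _ d => ch d, sum_div]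
    refine sum_congr rfl fun x hx => ?_
    rw [← (Nat.mem_divisorsAntidiagonal.1 hx).1, Nat.cast_mul]
    change (x.1 : ℝ)⁻¹ * (ch x.2 / x.2) = _
    rw [div_eq_mul_inv, div_eq_mul_inv, mul_inv]
    ring
  have h2 : Real.log R ≤ ∑ n ∈ Ioc 0 R, (n : ℝ)⁻¹ := by
    have h := log_add_one_le_harmonic R
    simp only [harmonic_eq_sum_Icc, Rat.cast_sum, Rat.cast_inv, Rat.cast_natCast] at h
    refine le_trans (Real.log_le_log (by exact_mod_cast hR) ?_) h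
    exact_mod_cast Nat.le_succ R
  rw [← sum_congr rfl fun n _ => h1 n, ArithmeticFunction.sum_Ioc_mul_eq_sum_sum]
  refine (mul_le_mul_of_nonneg_left h2 (by norm_num)).trans ?_
  rw [mul_sum]
  refine sum_le_sum fun n hn => ?_
  obtain ⟨h3, h4⟩ := mem_Ioc.1 hn
  have h5 := half_le (R / n) (Nat.div_pos h4 h3)
  have h6 : (0 : ℝ) ≤ if R / n % 3 = 1 then 1 / (((R / n : ℕ) : ℝ) + 1) else 0 := by
    split_ifs
    · positivity
    · exact le_rfl
  rw [mul_comm]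
  exact mul_le_mul_of_nonneg_left (by change _ ≤ ∑ b ∈ Ioc 0 (R / n), ch b / b; linarith)
    (by change (0 : ℝ) ≤ (n : ℝ)⁻¹; positivity)

theorem div_le_sq (R : ℕ) : ∑ u ∈ (Ioc 0 R).filter Sp, (u.divisors.card : ℝ) / u ≤
    (∑ u ∈ (Ioc 0 R).filter Sp, (u : ℝ)⁻¹) ^ 2 := by
  rw [sq, sum_mul_sum, ← sum_product']
  refine le_trans (sum_le_sum fun u hu => ?_) (sum_fiberwise_le_sum_of_sum_fiber_nonneg
    (t := (Ioc 0 R).filter Sp) (g := fun x : ℕ × ℕ => x.1 * x.2)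
    fun _ _ => sum_nonneg fun _ _ => by positivity)
  obtain ⟨h1, h2⟩ := mem_filter.1 hu
  obtain ⟨h3, h4⟩ := mem_Ioc.1 h1
  have h5 : (u.divisors.card : ℝ) / u =
      ∑ x ∈ u.divisorsAntidiagonal, (x.1 : ℝ)⁻¹ * (x.2 : ℝ)⁻¹ := by
    rw [sum_congr rfl (g := fun _ => (u : ℝ)⁻¹) fun x hx => by
      rw [← (Nat.mem_divisorsAntidiagonal.1 hx).1, Nat.cast_mul, mul_inv],
      Nat.sum_divisorsAntidiagonal fun _ _ => (u : ℝ)⁻¹, sum_const, nsmul_eq_mul, div_eq_mul_inv]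
  rw [h5]
  refine sum_le_sum_of_subset_of_nonneg (fun x hx => ?_) fun _ _ _ => by positivity
  have h6 := (Nat.mem_divisorsAntidiagonal.1 hx).1
  have h7 : ∀ a, a ∣ u → a ∈ (Ioc 0 R).filter Sp := fun a ha =>
    mem_filter.2 ⟨mem_Ioc.2 ⟨Nat.pos_of_dvd_of_pos ha h3, (Nat.le_of_dvd h3 ha).trans h4⟩,
      fun p hp h => h2 p hp (h.trans ha)⟩
  exact mem_filter.2 ⟨mem_product.2 ⟨h7 _ (Dvd.intro _ h6), h7 _ (Dvd.intro_left _ h6)⟩, h6⟩

theorem rr_le (R : ℕ) : ∑ n ∈ Ioc 0 R, rr n / n ≤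
    4 * ∑ u ∈ (Ioc 0 R).filter Sp, (u.divisors.card : ℝ) / u := by
  have h0 : ∑ y ∈ ({1, 3} : Finset ℕ) ×ˢ Ioo 0 (R + 1), ((y.2 : ℝ) ^ 2)⁻¹ ≤ 4 := by
    have := sum_Ioo_inv_sq_le (α := ℝ) 0 (R + 1)
    rw [sum_product, sum_pair (by norm_num)]
    norm_num at this ⊢
    linarith
  refine le_trans ?_ (mul_le_mul_of_nonneg_right h0 (sum_nonneg fun _ _ => by positivity))
  rw [sum_mul_sum, ← sum_product']
  refine le_trans (sum_le_sum fun n hn => ?_) (sum_fiberwise_le_sum_of_sum_fiber_nonneg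
    (t := Ioc 0 R) (g := fun x : (ℕ × ℕ) × ℕ => x.2 * (x.1.1 * x.1.2 ^ 2))
    fun _ _ => sum_nonneg fun _ _ => by positivity)
  obtain ⟨h3, h4⟩ := mem_Ioc.1 hn
  rcases (rr_bound n).2 with h | ⟨u, e, m, h1, hu, he, h⟩
  · rw [h, zero_div]
    exact sum_nonneg fun _ _ => by positivity
  have hu0 : 0 < u := Nat.pos_of_dvd_of_pos (Dvd.intro _ h1.symm) h3
  have hmd : m ∣ n := ⟨u * e * m, by rw [h1]; ring⟩
  have hm0 : 0 < m := Nat.pos_of_dvd_of_pos hmd h3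
  refine le_trans ?_ (single_le_sum (a := ((e, m), u))
    (f := fun x : (ℕ × ℕ) × ℕ => ((x.1.2 : ℝ) ^ 2)⁻¹ * ((x.2.divisors.card : ℝ) / x.2))
    (fun _ _ => by positivity) (mem_filter.2 ⟨mem_product.2 ⟨mem_product.2 ⟨by simpa using he,
      mem_Ioo.2 ⟨hm0, Nat.lt_succ_of_le ((Nat.le_of_dvd h3 hmd).trans h4)⟩⟩,
      mem_filter.2 ⟨mem_Ioc.2 ⟨hu0, (Nat.le_of_dvd h3 (Dvd.intro _ h1.symm)).trans h4⟩, hu⟩⟩,
      h1.symm⟩))
  have h5 : m ^ 2 * u ≤ n := by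
    rw [h1]
    rcases he with rfl | rfl <;> nlinarith [Nat.zero_le (m ^ 2 * u)]
  have h6 : (m : ℝ) ^ 2 * u ≤ n := by exact_mod_cast h5
  have h7 : (0 : ℝ) < (m : ℝ) ^ 2 * u := by positivity
  change _ ≤ ((m : ℝ) ^ 2)⁻¹ * ((u.divisors.card : ℝ) / u)
  rw [inv_mul_eq_div, div_div, mul_comm (u : ℝ)]
  exact div_le_div₀ (by positivity) h h7 h6

theorem mem_PP {w R p : ℕ} : p ∈ Sg.PP w R ↔ (w < p ∧ p ≤ R) ∧ p.Prime := by
  rw [Sg.PP, mem_filter, mem_Ioc]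

theorem sp_le (R : ℕ) : ∑ u ∈ (Ioc 0 R).filter Sp, (u : ℝ)⁻¹ ≤
    Sg.GG ((Sg.PP 0 R).filter fun p => p % 3 = 1) R := by
  have hmaps : ∀ n ∈ (Ioc 0 R).filter Sp,
      n.primeFactors ∈ Sg.fam ((Sg.PP 0 R).filter fun p => p % 3 = 1) R := by
    intro n hn
    obtain ⟨h1, hs⟩ := mem_filter.1 hn
    obtain ⟨h2, h3⟩ := mem_Ioc.1 h1
    refine mem_filter.2 ⟨mem_powerset.2 fun p hp => ?_, ?_⟩
    · have hp' := Nat.prime_of_mem_primeFactors hp
      exact mem_filter.2 ⟨mem_PP.2 ⟨⟨hp'.pos, (Nat.le_of_mem_primeFactors hp).trans h3⟩, hp'⟩,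
        hs p hp' (Nat.dvd_of_mem_primeFactors hp)⟩
    · exact (Nat.le_of_dvd h2 (Nat.prod_primeFactors_dvd n)).trans h3
  rw [← sum_fiberwise_of_maps_to hmaps, Sg.GG]
  refine sum_le_sum fun S hS => Sg.GGgeAux.fibre_le S (fun p hp => ?_) _ fun n hn => ?_
  · exact (mem_PP.1 (mem_filter.1 (mem_powerset.1 (mem_filter.1 hS).1 hp)).1).2
  · obtain ⟨h2, h3⟩ := mem_filter.1 hn
    exact ⟨(mem_Ioc.1 (mem_filter.1 h2).1).1.ne', h3⟩

theorem split_le {P P1 P2 : Finset ℕ} (R : ℕ) (h : ∀ p ∈ P, p.Prime ∧ (p ∉ P1 → p ∈ P2))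
    (h1 : ∀ p ∈ P1, p.Prime) (h2 : ∀ p ∈ P2, p.Prime) :
    Sg.GG P R ≤ (∑ S ∈ P1.powerset, Sg.iphi S) * Sg.GG P2 R := by
  rw [Sg.GG, Sg.GG, sum_mul_sum, ← sum_product']
  have hinj : Set.InjOn (fun S : Finset ℕ => (S.filter (· ∈ P1), S.filter fun p => ¬ p ∈ P1))
      (Sg.fam P R) := by
    intro S _ T _ h
    simp only [Prod.mk.injEq] at h
    rw [← filter_union_filter_not_eq (· ∈ P1) S, ← filter_union_filter_not_eq (· ∈ P1) T, h.1, h.2]
  have h3 : ∑ S ∈ Sg.fam P R, Sg.iphi S = ∑ x ∈ (Sg.fam P R).image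
      (fun S : Finset ℕ => (S.filter (· ∈ P1), S.filter fun p => ¬ p ∈ P1)),
        Sg.iphi x.1 * Sg.iphi x.2 := by
    rw [sum_image hinj]
    exact sum_congr rfl fun S _ => (prod_filter_mul_prod_filter_not S _ _).symm
  rw [h3]
  refine sum_le_sum_of_subset_of_nonneg (fun x hx => ?_) fun x hx _ => ?_
  · obtain ⟨S, hS, rfl⟩ := mem_image.1 hx
    obtain ⟨h4, h5⟩ := mem_filter.1 hS
    have h6 := fun p hp => h p (mem_powerset.1 h4 hp)
    refine mem_product.2 ⟨mem_powerset.2 fun p hp => (mem_filter.1 hp).2,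
      mem_filter.2 ⟨mem_powerset.2 fun p hp => ?_, ?_⟩⟩
    · exact (h6 p (mem_filter.1 hp).1).2 (mem_filter.1 hp).2
    · exact (prod_le_prod_of_subset_of_one_le' (filter_subset _ _)
        fun p hp _ => (h6 p hp).1.one_lt.le).trans h5
  · obtain ⟨a, b⟩ := mem_product.1 hx
    exact mul_nonneg (Sg.GGgeAux.iphi_nonneg _ fun p hp => h1 p (mem_powerset.1 a hp))
      (Sg.GGgeAux.iphi_nonneg _ fun p hp => h2 p (mem_powerset.1 (mem_filter.1 b).1 hp))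

theorem small {P : Finset ℕ} (h : ∀ p ∈ P, p.Prime) :
    (∏ p ∈ P, (1 - 1 / (p : ℝ))) * ∑ S ∈ P.powerset, Sg.iphi S = 1 := by
  have h1 : ∑ S ∈ P.powerset, Sg.iphi S = ∏ p ∈ P, (1 + 1 / ((p : ℝ) - 1)) := by
    rw [prod_one_add]; rfl
  rw [h1, ← prod_mul_distrib]
  refine prod_eq_one fun p hp => ?_
  have h5 : (1 : ℝ) < p := by exact_mod_cast (h p hp).one_lt
  have h6 : (p : ℝ) - 1 ≠ 0 := by linarith
  have h7 : (p : ℝ) ≠ 0 := by linarith
  field_simp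
  ring

theorem root {p : ℕ} (hp : p.Prime) (h : p % 3 = 1) : ∃ r : ℤ, (p : ℤ) ∣ r ^ 2 + 3 := by
  have := Fact.mk hp
  have := Fact.mk Nat.prime_three
  obtain ⟨x, hx⟩ := exists_prime_orderOf_dvd_card (G := (ZMod p)ˣ) 3 (by
    rw [ZMod.card_units]; omega)
  have h1 : (x : ZMod p) ^ 3 = 1 := by
    rw [← Units.val_pow_eq_pow_val, ← hx, pow_orderOf_eq_one, Units.val_one]
  have h2 : (x : ZMod p) - 1 ≠ 0 := fun h => by
    have : x = 1 := Units.ext (sub_eq_zero.1 h)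
    rw [this, orderOf_one] at hx
    omega
  have h3 : (x : ZMod p) ^ 2 + x + 1 = 0 :=
    (mul_eq_zero.1 (by linear_combination h1 :
      ((x : ZMod p) - 1) * ((x : ZMod p) ^ 2 + x + 1) = 0)).resolve_left h2
  obtain ⟨a, ha⟩ := ZMod.intCast_surjective (x : ZMod p)
  refine ⟨2 * a + 1, (ZMod.intCast_zmod_eq_zero_iff_dvd _ p).1 ?_⟩
  push_cast
  rw [ha]
  linear_combination 4 * h3

end GKAux

open GKAux in
theorem stGK : StGK := by
  refine ⟨1 / 8, by norm_num, fun w R _ hR => ?_⟩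
  have hP : ∀ p ∈ (Sg.PP 0 w).filter fun p => p % 3 = 1, p.Prime := fun p hp =>
    (mem_PP.1 (mem_filter.1 hp).1).2
  have h1 := split_le (P := (Sg.PP 0 R).filter fun p => p % 3 = 1)
    (P1 := (Sg.PP 0 w).filter fun p => p % 3 = 1) (P2 := PS w R) R (fun p hp => by
      obtain ⟨a, b⟩ := mem_filter.1 hp
      obtain ⟨⟨c, d⟩, e⟩ := mem_PP.1 a
      refine ⟨e, fun hn => mem_filter.2 ⟨mem_PP.2 ⟨⟨?_, d⟩, e⟩, root e b⟩⟩
      exact not_le.1 fun hw => hn (mem_filter.2 ⟨mem_PP.2 ⟨⟨c, hw⟩, e⟩, b⟩)) hP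
    fun p hp => (mem_PP.1 (mem_filter.1 hp).1).2
  have h2 := small hP
  have h3 : 0 ≤ ∏ p ∈ (Sg.PP 0 w).filter fun p => p % 3 = 1, (1 - 1 / (p : ℝ)) :=
    prod_nonneg fun p hp => by
      have h5 : (1 : ℝ) ≤ p := by exact_mod_cast (hP p hp).one_lt.le
      rw [sub_nonneg, div_le_one (by linarith)]
      exact h5
  have h4 := mul_le_mul_of_nonneg_left ((sp_le R).trans h1) h3
  rw [← mul_assoc, h2, one_mul] at h4
  have h5 := pow_le_pow_left₀ (mul_nonneg h3 (sum_nonneg fun _ _ => by positivity)) h4 2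
  have h6 : 1 / 8 * Real.log R ≤ (∑ u ∈ (Ioc 0 R).filter Sp, (u : ℝ)⁻¹) ^ 2 := by
    linarith [log_le_rr R hR, rr_le R, div_le_sq R]
  rw [prod_pow]
  refine le_trans ?_ h5
  rw [mul_pow, mul_comm]
  exact mul_le_mul_of_nonneg_left h6 (sq_nonneg _)

end Pool.Agent.Lib.MP_7d3fda_nt.Q3
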