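import Pool.Agent.Lib.MP_7d3fda_nt.Q3.Basic
import Pool.Agent.Lib.MP_0a3467_an.Cv.GV

open Finset Filter
open scoped Classical NumberTheorySymbols

noncomputable section

namespace Pool.Agent.Lib.MP_7d3fda_nt.Q3

open Pool.Agent.Lib.MP_4b8564_nt Pool.Agent.Lib.MP_4b8564_nt.GT
open Pool.Agent.Lib.MP_0a3467_an.Cv (Low)
open Pool.Agent.Lib.MP_0a3467_an

namespace GvAux

/-- reduction of the coordinates modulo `n` -/
def red (n : ℕ) (z : O) : ZMod n × ZMod n := ((z.re : ZMod n), (z.im : ZMod n))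

/-- multiplication by `x` on the reduced coordinates -/
def ml (n : ℕ) (x : O) : ZMod n × ZMod n →+ ZMod n × ZMod n where
  toFun g := ((x.re : ZMod n) * g.1 - 3 * ((x.im : ZMod n) * g.2),
    (x.re : ZMod n) * g.2 + (x.im : ZMod n) * g.1)
  map_zero' := by simp
  map_add' a b := by
    refine Prod.ext ?_ ?_ <;> simp only [Prod.fst_add, Prod.snd_add] <;> ring

theorem ml_apply (n : ℕ) (x : O) (g : ZMod n × ZMod n) :
    ml n x g = ((x.re : ZMod n) * g.1 - 3 * ((x.im : ZMod n) * g.2),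
      (x.re : ZMod n) * g.2 + (x.im : ZMod n) * g.1) := rfl

theorem ml_red (n : ℕ) (x z : O) : ml n x (red n z) = red n (x * z) := by
  rw [ml_apply]
  simp only [red, mul_re', mul_im']
  push_cast
  rfl

theorem red_eq_zero (n : ℕ) (z : O) : red n z = 0 ↔ (n : O) ∣ z := by
  rw [natCast_dvd_iff]
  simp only [red, Prod.mk_eq_zero, ZMod.intCast_zmod_eq_zero_iff_dvd]

theorem red_sub (n : ℕ) (z w : O) : red n (z - w) = red n z - red n w := by
  simp only [red, Zsqrtd.re_sub, Zsqrtd.im_sub, Prod.mk_sub_mk]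
  push_cast
  rfl

theorem red_surj (n : ℕ) (g : ZMod n × ZMod n) : ∃ z, red n z = g := by
  obtain ⟨u, hu⟩ := ZMod.intCast_surjective g.1
  obtain ⟨v, hv⟩ := ZMod.intCast_surjective g.2
  exact ⟨⟨u, v⟩, Prod.ext hu hv⟩

theorem cast_eq {n : ℕ} {x : O} (hn : (n : ℤ) = x.norm) : (n : O) = star x * x := by
  have h3 : ((x.norm : ℤ) : O) = x * star x := Zsqrtd.norm_eq_mul_conj x
  rw [mul_comm, ← h3, ← hn]
  simp

theorem ker_iff {n : ℕ} {x : O} (hx : x ≠ 0) (hn : (n : ℤ) = x.norm) (z : O) :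
    ml n (star x) (red n z) = 0 ↔ x ∣ z := by
  rw [ml_red, red_eq_zero, cast_eq hn]
  refine ⟨fun ⟨w, hw⟩ => ⟨w, ?_⟩, fun h => mul_dvd_mul_left _ h⟩
  by_contra h
  have h1 : star x * (z - x * w) = 0 := by rw [mul_sub, hw]; ring
  have h2 := congrArg Zsqrtd.norm h1
  rw [Zsqrtd.norm_mul, Zsqrtd.norm_conj, Zsqrtd.norm_zero] at h2
  exact (mul_pos (norm_pos' hx) (norm_pos' (sub_ne_zero.2 h))).ne' h2

theorem ker_eq {n : ℕ} {x : O} (hx : x ≠ 0) (hn : (n : ℤ) = x.norm) :
    (ml n (star x)).ker = (ml n x).range := by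
  ext g
  obtain ⟨z, rfl⟩ := red_surj n g
  rw [AddMonoidHom.mem_ker, ker_iff hx hn, AddMonoidHom.mem_range]
  constructor
  · rintro ⟨w, rfl⟩
    exact ⟨red n w, ml_red n x w⟩
  · rintro ⟨g, hg⟩
    obtain ⟨w, rfl⟩ := red_surj n g
    rw [ml_red, ← sub_eq_zero, ← red_sub, red_eq_zero, cast_eq hn] at hg
    have h1 : x ∣ x * w - z := (Dvd.intro_left _ rfl).trans hg
    have h2 := dvd_sub (dvd_mul_right x w) h1
    simpa using h2

theorem card_ker_eq (n : ℕ) (x : O) :
    Nat.card (ml n x).ker = Nat.card (ml n (star x)).ker := by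
  refine Nat.card_congr (Equiv.subtypeEquiv ((Equiv.refl _).prodCongr (Equiv.neg _)) fun g => ?_)
  simp only [AddMonoidHom.mem_ker, ml_apply, Prod.mk_eq_zero, Equiv.prodCongr_apply,
    Prod.map_fst, Prod.map_snd, Equiv.coe_refl, id, Equiv.neg_apply, Zsqrtd.re_star,
    Zsqrtd.im_star, Int.cast_neg]
  refine and_congr ?_ ?_
  · constructor <;> intro h <;> linear_combination h
  · constructor <;> intro h <;> linear_combination -h

theorem card_ker {n : ℕ} {x : O} (hx : x ≠ 0) (hn : (n : ℤ) = x.norm) :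
    Nat.card (ml n (star x)).ker = n := by
  have h1 := AddSubgroup.card_mul_index (ml n x).ker
  rw [AddSubgroup.index_ker, ← ker_eq hx hn, card_ker_eq, Nat.card_prod, Nat.card_zmod] at h1
  exact Nat.mul_self_inj.1 h1

theorem eq_of_dvd {n u v : ℕ} (hu : u ∈ Ioc 0 n) (hv : v ∈ Ioc 0 n)
    (h : (n : ℤ) ∣ (u : ℤ) - v) : u = v := by
  rw [mem_Ioc] at hu hv
  have h1 := Int.eq_zero_of_abs_lt_dvd h (by rw [abs_lt]; omega)
  omega

theorem sum_box {n Q : ℕ} [NeZero n] (hQ : IsCoprime (n : ℤ) (Q : ℤ)) (a : O)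
    (f : ZMod n × ZMod n → ℝ) :
    ∑ z ∈ Cv.box n, f (red n (a + (Q : O) * em z)) = ∑ g, f g := by
  have hinj : Set.InjOn (fun z : ℕ × ℕ => red n (a + (Q : O) * em z)) (Cv.box n) := by
    intro z hz z' hz' e
    have e1 : (n : O) ∣ (em z - em z') * (Q : O) := by
      have e2 : red n (a + (Q : O) * em z) - red n (a + (Q : O) * em z') = 0 := sub_eq_zero.2 e
      rw [← red_sub, red_eq_zero] at e2
      convert e2 using 1
      ring
    have hc : IsCoprime (Q : O).norm (n : ℤ) := by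
      rw [Zsqrtd.norm_natCast]
      exact hQ.symm.mul_left hQ.symm
    obtain ⟨d1, d2⟩ := (natCast_dvd_iff n _).1 (dvd_of_mul hc e1)
    simp only [Zsqrtd.re_sub, Zsqrtd.im_sub, em] at d1 d2
    have m1 := mem_product.1 (mem_coe.1 hz)
    have m2 := mem_product.1 (mem_coe.1 hz')
    exact Prod.ext (eq_of_dvd m1.1 m2.1 d1) (eq_of_dvd m1.2 m2.2 d2)
  have h1 : (Cv.box n).image (fun z : ℕ × ℕ => red n (a + (Q : O) * em z)) = univ := by
    apply eq_univ_of_card
    rw [card_image_of_injOn hinj]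
    simp [Cv.box]
  rw [← h1, sum_image hinj]

theorem sum_ind {n Q : ℕ} {x : O} (hx : x ≠ 0) (hn : (n : ℤ) = x.norm)
    (hQ : IsCoprime x.norm (Q : ℤ)) (a : O) :
    ∑ z ∈ Cv.box n, (if x ∣ a + (Q : O) * em z then (x.norm : ℝ) else 0) = (n : ℝ) ^ 2 := by
  have hn0 : n ≠ 0 := by
    have := norm_pos' hx
    omega
  have : NeZero n := ⟨hn0⟩
  have h1 := sum_box (hn ▸ hQ : IsCoprime (n : ℤ) (Q : ℤ)) a
    (fun g => if ml n (star x) g = 0 then (x.norm : ℝ) else 0)
  simp only [ker_iff hx hn] at h1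
  have h2 : (univ.filter fun g : ZMod n × ZMod n => ml n (star x) g = 0).card = n := by
    refine Eq.trans ?_ (card_ker hx hn)
    rw [← Fintype.card_subtype, ← Nat.card_eq_fintype_card]
    rfl
  rw [h1, ← sum_filter, sum_const, h2, ← hn, nsmul_eq_mul, sq]
  simp

end GvAux

theorem stGv : StGv := by
  intro s T π σ Q Y H δ a hπ hπ1 hσ hx hδ0 hδ1 h1 h2
  have hn : ∀ x : O, ((x.norm.natAbs : ℕ) : ℤ) = x.norm := fun x =>
    Int.natAbs_of_nonneg (norm_nonneg' x)
  have hpos : ∀ x ∈ T, 0 < x.norm.natAbs := fun x h => by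
    have := norm_pos' (hx x h).1
    omega
  have hcard : ∀ n : ℕ, ((Cv.box n).card : ℝ) = (n : ℝ) ^ 2 := fun n => by
    simp [Cv.box, sq]
  have key := Cv.gv s T π (fun x => x.norm.natAbs)
    (fun x z => σ x * ((if x ∣ a + (Q : O) * em z then (x.norm : ℝ) else 0) - 1)) Y H 2 δ hπ hπ1
    (fun x h => ⟨hpos x h, by have := hn x; have := (hx x h).2.1; omega⟩)
    (fun x _ u v => ?_) (fun x h => ?_) (fun x h => ?_) (by norm_num) hδ0 hδ1 h1 h2
  · simp only [em_sum] at key
    convert key using 1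
    ring
  · have hd : x ∣ ((x.norm.natAbs : ℕ) : O) := by
      rw [GvAux.cast_eq (hn x)]
      exact Dvd.intro_left _ rfl
    have e1 : a + (Q : O) * em (u + x.norm.natAbs, v) =
        a + (Q : O) * em (u, v) + ((x.norm.natAbs : ℕ) : O) * (Q : O) := by
      have : em (u + x.norm.natAbs, v) = em (u, v) + ((x.norm.natAbs : ℕ) : O) := by
        ext <;> simp [em]
      rw [this]; ring
    have e2 : a + (Q : O) * em (u, v + x.norm.natAbs) =
        a + (Q : O) * em (u, v) + ((x.norm.natAbs : ℕ) : O) * ((Q : O) * Zsqrtd.sqrtd) := by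
      have : em (u, v + x.norm.natAbs) =
          em (u, v) + ((x.norm.natAbs : ℕ) : O) * Zsqrtd.sqrtd := by
        ext <;> simp [em]
      rw [this]; ring
    constructor
    · simp only [e1, dvd_add_left (hd.mul_right _)]
    · simp only [e2, dvd_add_left (hd.mul_right _)]
  · rw [Cv.mean, ← mul_sum, sum_sub_distrib, GvAux.sum_ind (hx x h).1 (hn x) (hx x h).2.2,
      sum_const, nsmul_eq_mul, hcard]
    simp
  · have hp : (0 : ℝ) < (x.norm.natAbs : ℝ) ^ 2 := by
      have := hpos x h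
      positivity
    rw [Cv.mean, div_le_iff₀ hp]
    calc _ ≤ ∑ z ∈ Cv.box x.norm.natAbs,
          ((if x ∣ a + (Q : O) * em z then (x.norm : ℝ) else 0) + 1) := by
          refine sum_le_sum fun z _ => ?_
          have h0 : (0 : ℝ) ≤ if x ∣ a + (Q : O) * em z then (x.norm : ℝ) else 0 := by
            split_ifs
            · exact_mod_cast norm_nonneg' x
            · exact le_rfl
          rw [abs_mul]
          refine (mul_le_of_le_one_left (abs_nonneg _) (hσ x h)).trans ?_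
          rw [abs_le]
          constructor <;> linarith
      _ = _ := by
          rw [sum_add_distrib, GvAux.sum_ind (hx x h).1 (hn x) (hx x h).2.2, sum_const,
            nsmul_eq_mul, hcard]
          ring

end Pool.Agent.Lib.MP_7d3fda_nt.Q3
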