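import Pool.Agent.Lib.MP_7d3fda_nt.Q3.Basic

open Finset Filter
open scoped Classical NumberTheorySymbols

noncomputable section

namespace Pool.Agent.Lib.MP_7d3fda_nt.Q3

open Pool.Agent.Lib.MP_4b8564_nt Pool.Agent.Lib.MP_4b8564_nt.GT
open Pool.Agent.Lib.MP_0a3467_an.Cv (Low)
open Pool.Agent.Lib.MP_0a3467_an

/-! The linear forms condition on the local boxes. -/

namespace LFAux

/-- the body of `StAff` -/
def Aff (n : ℕ) (C : ℝ) : Prop :=
  ∀ (I V : Type) [Fintype I] [DecidableEq I] [Fintype V] [DecidableEq V],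
    Fintype.card I ≤ n → ∀ (w R L : ℕ) (P : I → Finset ℕ) (a : ℕ → I → V → ℤ) (k : ℕ → I → ℤ)
      (Δ : ℤ), 4 ≤ w → 1 ≤ R → 0 < L → (∀ s, P s ⊆ Sg.PP w R) →
      (∀ s, ∀ p ∈ P s, ∃ v, ¬(p : ℤ) ∣ a p s v) →
      (∀ s s', s ≠ s' → ∀ p ∈ P s, p ∈ P s' → ¬(p : ℤ) ∣ Δ →
        ∃ u v, ¬(p : ℤ) ∣ a p s u * a p s' v - a p s v * a p s' u) →
      |bav L (fun h : V → ℤ => ∏ s, bet (P s) R fun p => (p : ℤ) ∣ k p s + ∑ v, a p s v * h v) - 1|
        ≤ etaP C w R Δ + 2 * Fintype.card V * (R : ℝ) ^ (6 * n) / L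

section Core

variable {ι : Type} [DecidableEq ι]

/-- coefficients in the doubled variables -/
def dbl (S : Finset ι) (c : ι → ℤ) : ι ⊕ ι → ℤ :=
  Sum.elim (fun i => if i ∈ S then 0 else c i) fun i => if i ∈ S then c i else 0

/-- the active copy of a variable -/
def act (S : Finset ι) (i : ι) : ι ⊕ ι := if i ∈ S then Sum.inr i else Sum.inl i

theorem dbl_act (S : Finset ι) (c : ι → ℤ) (i : ι) : dbl S c (act S i) = c i := by
  unfold act
  split_ifs with h <;> simp [dbl, h]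

theorem dbl_sum [Fintype ι] {L : ℕ} (S : Finset ι) (c : ι → ℤ) (x y : ι → Fin L) :
    ∑ v, dbl S c v * ((Sum.elim x y v).val : ℤ) = ∑ i, c i * ((S.piecewise y x i).val : ℤ) := by
  rw [Fintype.sum_sum_type, ← sum_add_distrib]
  refine sum_congr rfl fun i _ => ?_
  by_cases h : i ∈ S
  · simp [dbl, h]
  · simp [dbl, h]

theorem minor_of {V : Type} {p : ℕ} (hp : p.Prime) {a a' : V → ℤ} {u v : V}
    (h1 : ¬(p : ℤ) ∣ a u) (h2 : a' u = 0) (h3 : ¬(p : ℤ) ∣ a' v) :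
    (∃ u v, ¬(p : ℤ) ∣ a u * a' v - a v * a' u) ∧ ∃ u v, ¬(p : ℤ) ∣ a' u * a v - a' v * a u := by
  have h4 : ¬(p : ℤ) ∣ a u * a' v := fun h =>
    ((Nat.prime_iff_prime_int.1 hp).dvd_or_dvd h).elim h1 h3
  refine ⟨⟨u, v, ?_⟩, v, u, ?_⟩
  · rwa [h2, mul_zero, sub_zero]
  · rwa [h2, zero_mul, sub_zero, mul_comm]

theorem core [Fintype ι] {n : ℕ} {C : ℝ} (hA : Aff n C)
    (hn : (2 + Fintype.card ι) * 2 ^ Fintype.card ι ≤ n) {w R L : ℕ} (P : Bool ⊕ ι → Finset ℕ)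
    (c : ℕ → Bool ⊕ ι → ι → ℤ) (k : ℕ → Bool ⊕ ι → ℤ) (Δ : ℤ) (hw : 4 ≤ w) (hR : 1 ≤ R)
    (hL : 0 < L) (hP : ∀ j, P j ⊆ Sg.PP w R) (h1 : ∀ j, ∀ p ∈ P j, ∃ i, ¬(p : ℤ) ∣ c p j i)
    (h2 : ∀ j, ∀ p ∈ P j, ¬(p : ℤ) ∣ Δ → ∀ i, j ≠ Sum.inr i → ¬(p : ℤ) ∣ c p j i)
    (h3 : ∀ p i, c p (Sum.inr i) i = 0)
    (h4 : ∀ b b', b ≠ b' → ∀ p ∈ P (Sum.inl b), ¬(p : ℤ) ∣ Δ → ∃ u v,
      ¬(p : ℤ) ∣ c p (Sum.inl b) u * c p (Sum.inl b') v - c p (Sum.inl b) v * c p (Sum.inl b') u) :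
    LF2 (fun x : ι → Fin L => ∏ b : Bool, bet (P (Sum.inl b)) R fun p =>
        (p : ℤ) ∣ k p (Sum.inl b) + ∑ i, c p (Sum.inl b) i * ((x i : ℕ) : ℤ))
      (fun t x => bet (P (Sum.inr t)) R fun p =>
        (p : ℤ) ∣ k p (Sum.inr t) + ∑ i, c p (Sum.inr t) i * ((x i : ℕ) : ℤ))
      (etaP C w R Δ + 2 * (2 * Fintype.card ι) * (R : ℝ) ^ (6 * n) / L) := by
  intro U T hT
  let jj : (U × Bool) ⊕ T → Bool ⊕ ι := Sum.elim (fun x => Sum.inl x.2) fun x => Sum.inr x.1.1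
  let ss : (U × Bool) ⊕ T → Finset ι := Sum.elim (fun x => x.1.1) fun x => x.1.2
  have hc : Fintype.card ((U × Bool) ⊕ T) ≤ n := by
    have a1 : U.card ≤ 2 ^ Fintype.card ι := (card_le_univ U).trans Fintype.card_finset.le
    have a2 : T.card ≤ Fintype.card ι * 2 ^ Fintype.card ι :=
      (card_le_univ T).trans (by rw [Fintype.card_prod, Fintype.card_finset])
    rw [Fintype.card_sum, Fintype.card_prod, Fintype.card_coe, Fintype.card_coe, Fintype.card_bool]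
    nlinarith
  have hne : ∀ s i, i ∈ ss s → jj s ≠ Sum.inr i := by
    rintro (s | s) i hi h
    · exact Sum.inl_ne_inr h
    · exact hT s.1 s.2 ((Sum.inr.inj h : s.1.1 = i) ▸ hi)
  have hinj : ∀ s s', jj s = jj s' → ss s = ss s' → s = s' := by
    rintro (s | s) (s' | s') e1 e2
    · exact congrArg Sum.inl (Prod.ext (Subtype.ext e2) (Sum.inl.inj e1))
    · exact absurd e1 Sum.inl_ne_inr
    · exact absurd e1 Sum.inr_ne_inl
    · exact congrArg Sum.inr (Subtype.ext (Prod.ext (Sum.inr.inj e1) e2))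
  have hv : ∀ s, ∀ p ∈ P (jj s), ∃ v, ¬(p : ℤ) ∣ dbl (ss s) (c p (jj s)) v := fun s p hp => by
    obtain ⟨i, hi⟩ := h1 _ p hp
    exact ⟨act (ss s) i, by rwa [dbl_act]⟩
  have key := hA ((U × Bool) ⊕ T) (ι ⊕ ι) hc w R L (fun s => P (jj s))
    (fun p s => dbl (ss s) (c p (jj s))) (fun p s => k p (jj s)) Δ hw hR hL (fun s => hP _) hv
    fun s s' hs p hp hp' hΔ => by
      have hpp : p.Prime := (mem_filter.1 (hP _ hp)).2
      obtain ⟨v, hv1⟩ := hv s p hp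
      obtain ⟨v', hv2⟩ := hv s' p hp'
      by_cases e : ss s = ss s'
      · have hj : jj s ≠ jj s' := fun h => hs (hinj s s' h e)
        rcases e1 : jj s with b | t
        · rcases e2 : jj s' with b' | t'
          · obtain ⟨u, u', h⟩ := h4 b b' (fun h => hj (by rw [e1, e2, h])) p (e1 ▸ hp) hΔ
            refine ⟨act (ss s) u, act (ss s) u', ?_⟩
            simp only [← e, dbl_act]
            exact h
          · refine (minor_of hpp (u := act (ss s) t') ?_ ?_ (e2 ▸ hv2)).1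
            · rw [dbl_act]
              exact h2 _ p (e1 ▸ hp) hΔ t' Sum.inl_ne_inr
            · rw [← e, dbl_act, h3]
        · refine (minor_of hpp (u := act (ss s) t) ?_ ?_ (e1 ▸ hv1)).2
          · rw [← e, dbl_act]
            exact h2 _ p hp' hΔ t fun h => hj (e1.trans h.symm)
          · rw [dbl_act, h3]
      · by_cases e' : ss s ⊆ ss s'
        · obtain ⟨i, hi, hi'⟩ := exists_of_ssubset (e'.ssubset_of_ne e)
          refine (minor_of hpp (u := Sum.inr i) ?_ ?_ hv1).2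
          · simpa [dbl, hi] using h2 _ p hp' hΔ i (hne s' i hi)
          · simp [dbl, hi']
        · obtain ⟨i, hi, hi'⟩ := not_subset.1 e'
          refine (minor_of hpp (u := Sum.inr i) ?_ ?_ hv2).1
          · simpa [dbl, hi] using h2 _ p hp hΔ i (hne s i hi)
          · simp [dbl, hi']
  rw [bav, av_sumElim, Fintype.card_sum, ← two_mul, Nat.cast_mul, Nat.cast_ofNat] at key
  rw [av_prod]
  refine le_of_eq_of_le (congrArg (fun t => |t - 1|) (av_congr fun x => av_congr fun y => ?_)) key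
  simp only [dbl_sum]
  rw [Fintype.prod_sum_type, Fintype.prod_prod_type, ← prod_coe_sort U, ← prod_coe_sort T]
  rfl

end Core

/-- the sign of a side -/
def sg (b : Bool) : ℤ := if b then 1 else -1

/-- the two reductions of the order at `p` -/
def ph (p : ℕ) (b : Bool) (x : O) : ℤ := x.re + sg b * rt p * x.im

theorem ph_add (p : ℕ) (b : Bool) (x y : O) : ph p b (x + y) = ph p b x + ph p b y := by
  simp only [ph, Zsqrtd.re_add, Zsqrtd.im_add]; ring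

theorem ph_nat (p : ℕ) (b : Bool) (n : ℕ) (x : O) : ph p b ((n : O) * x) = n * ph p b x := by
  simp only [ph, mul_re', mul_im', Zsqrtd.re_natCast, Zsqrtd.im_natCast]; ring

theorem ph_sum {κ : Type} (p : ℕ) (b : Bool) (s : Finset κ) (x : κ → O) :
    ph p b (∑ i ∈ s, x i) = ∑ i ∈ s, ph p b (x i) := by
  induction s using Finset.induction_on with
  | empty => simp [ph]
  | insert a s ha ih => rw [sum_insert ha, sum_insert ha, ph_add, ih]

theorem nuK_eq (w R : ℕ) (z : O) :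
    nuK w R z = ∏ b : Bool, bet (PS w R) R fun p => (p : ℤ) ∣ ph p b z := by
  rw [Fintype.prod_bool]
  simp only [nuK, ph, sg, if_true, one_mul, Bool.false_eq_true, if_false, neg_mul, sub_eq_add_neg]

theorem mem_PP {w R p : ℕ} (h : p ∈ Sg.PP w R) : p.Prime ∧ w < p :=
  ⟨(mem_filter.1 h).2, (mem_Ioc.1 (mem_filter.1 h).1).1⟩

theorem rt_spec {w R p : ℕ} (h : p ∈ PS w R) : (p : ℤ) ∣ rt p ^ 2 + 3 := by
  have h1 := (mem_filter.1 h).2
  rw [rt, dif_pos h1]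
  exact h1.choose_spec

theorem not_dvd_small {p : ℕ} {m : ℤ} (h0 : m ≠ 0) (h : |m| < p) : ¬(p : ℤ) ∣ m := fun h1 =>
  h0 (Int.eq_zero_of_abs_lt_dvd h1 h)

theorem not_dvd_mul {p : ℕ} (hp : p.Prime) {a b : ℤ} (h1 : ¬(p : ℤ) ∣ a) (h2 : ¬(p : ℤ) ∣ b) :
    ¬(p : ℤ) ∣ a * b := fun h => ((Nat.prime_iff_prime_int.1 hp).dvd_or_dvd h).elim h1 h2

/-- the difference of the two roots is a unit -/
theorem not_dvd_rt {w R p : ℕ} (hw : 4 ≤ w) (h : p ∈ PS w R) {b b' : Bool} (hb : b ≠ b') :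
    ¬(p : ℤ) ∣ (sg b - sg b') * rt p := by
  obtain ⟨hp, hwp⟩ := mem_PP (mem_filter.1 h).1
  have h5 : (5 : ℤ) ≤ p := by exact_mod_cast (by omega : 5 ≤ p)
  refine not_dvd_mul hp (not_dvd_small ?_ ?_) fun h1 => ?_
  · cases b <;> cases b' <;> simp_all [sg]
  · refine lt_of_lt_of_le ?_ h5
    cases b <;> cases b' <;> simp [sg]
  · exact not_dvd_small (m := 3) (by norm_num) (lt_of_lt_of_le (by norm_num) h5)
      ((dvd_add_right (dvd_pow h1 two_ne_zero)).1 (rt_spec h))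

theorem dvd_norm_of_ph {w R p : ℕ} (h : p ∈ PS w R) {b : Bool} {x : O} (hx : (p : ℤ) ∣ ph p b x) :
    (p : ℤ) ∣ x.norm := by
  have e : x.norm = ph p b x * (x.re - sg b * rt p * x.im) + (rt p ^ 2 + 3) * x.im ^ 2 := by
    rw [norm_eq]
    cases b <;> simp only [ph, sg, if_true, Bool.false_eq_true, if_false] <;> ring
  rw [e]
  exact dvd_add (hx.mul_right _) ((rt_spec h).mul_right _)

section Steps

variable (d : Dat) (θ : O × O) {p : ℕ}

theorem not_dvd_ker (hw : d.C ^ 2 < p) (j : Fin 6) : ¬(p : ℤ) ∣ (d.ker j).norm :=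
  not_dvd_small (d.norm_ker_pos j).ne' (by
    rw [abs_of_pos (d.norm_ker_pos j)]
    exact (d.norm_ker_le j).trans_lt (by exact_mod_cast hw))

theorem norm_dir (i : Fin 12) : (d.dir θ i).norm = (sd θ i).norm * (d.ker (jx i)).norm := by
  rw [Dat.dir, Zsqrtd.norm_mul, Zsqrtd.norm_conj]

/-- the steps are determinants of directions -/
theorem bb_det (t i : Fin 12) :
    d.bb θ t i = (d.dir θ t).im * (d.dir θ i).re - (d.dir θ t).re * (d.dir θ i).im := by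
  rw [Dat.bb, d.lam_mul, Dat.dir, Dat.dir, d.star_mul_ker (jx t)]
  ring

theorem not_dvd_bb (hΔ : ¬(p : ℤ) ∣ d.Del θ) {t i : Fin 12} (h : i ≠ t) :
    ¬(p : ℤ) ∣ d.bb θ t i := by
  obtain ⟨r, rfl⟩ := Fin.exists_succAbove_eq h
  exact fun h1 => hΔ (h1.trans ((dvd_prod_of_mem (fun r => d.bv (θ, t) r) (mem_univ r)).trans
    (dvd_prod_of_mem (fun t => ∏ r, d.bv (θ, t) r) (mem_univ t))))

theorem not_dvd_side (hΔ : ¬(p : ℤ) ∣ d.Del θ) (i : Fin 12) : ¬(p : ℤ) ∣ (sd θ i).norm := by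
  have a1 : ¬(p : ℤ) ∣ θ.1.norm := fun h => not_dvd_bb d θ hΔ (t := 0) (i := 1) (by decide)
    ((h.mul_right _).trans (d.lam_mul_star (jx 0) (jx 1) θ.1).symm.dvd)
  have a2 : ¬(p : ℤ) ∣ θ.2.norm := fun h => not_dvd_bb d θ hΔ (t := 6) (i := 7) (by decide)
    ((h.mul_right _).trans (d.lam_mul_star (jx 6) (jx 7) θ.2).symm.dvd)
  unfold sd
  split_ifs
  exacts [a1, a2]

/-- two steps towards a side whose norm is a unit -/
theorem two_steps (hp : p.Prime) (hw : d.C ^ 2 < p) {γ γ' : O} (hγ : Squarefree γ.norm.natAbs)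
    (hγ' : ¬(p : ℤ) ∣ γ'.norm) (j : Fin 6) (h0 : (p : ℤ) ∣ d.lam j (γ * (star γ' * d.ker 0)))
    (h1 : (p : ℤ) ∣ d.lam j (γ * (star γ' * d.ker 1))) : False := by
  have hp' := Nat.prime_iff_prime_int.1 hp
  have hC : (d.C : ℤ) < p := by
    have : d.C ≤ d.C ^ 2 := Nat.le_self_pow two_ne_zero _
    exact_mod_cast this.trans_lt hw
  have hcc := d.cc_le (i := 0) (j := 1) (by decide)
  have he : (0 : ℤ) < d.e := by exact_mod_cast d.he
  have a0 := abs_nonneg (d.c 0)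
  have a1 := abs_nonneg (d.c 1)
  have u1 : ¬(p : ℤ) ∣ d.c 1 - d.c 0 :=
    not_dvd_small (sub_ne_zero.2 fun h => absurd (d.hc h) (by decide))
      ((abs_sub _ _).trans_lt (by linarith))
  have u2 : ¬(p : ℤ) ∣ d.e := not_dvd_small he.ne' (by rw [abs_of_pos he]; linarith)
  rw [← mul_assoc, d.lam_mul] at h0 h1
  simp only [Dat.ker] at h0 h1
  have b1 : (p : ℤ) ∣ d.lam j (γ * star γ') := by
    have h : (p : ℤ) ∣ d.lam j (γ * star γ') * (d.c 1 - d.c 0) := by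
      exact (dvd_sub h0 h1).trans (Eq.dvd (by ring))
    exact (hp'.dvd_or_dvd h).resolve_right u1
  have b2 : (p : ℤ) ∣ d.lam j (γ * star γ' * Zsqrtd.sqrtd) :=
    (hp'.dvd_or_dvd ((dvd_add_right (b1.mul_right _)).1 h0)).resolve_right u2
  obtain ⟨c1, c2⟩ := d.dvd_of_lam j _ b1 b2
  have c3 : (p : O) ∣ γ * star γ' := (natCast_dvd_iff p _).2
    ⟨(hp'.dvd_or_dvd c1).resolve_left (not_dvd_ker d hw j),
      (hp'.dvd_or_dvd c2).resolve_left (not_dvd_ker d hw j)⟩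
  refine not_dvd_both hγ hp ((natCast_dvd_iff p γ).1 (dvd_of_mul (x := star γ') ?_ c3))
  rw [Zsqrtd.norm_conj]
  exact (hp'.irreducible.coprime_iff_not_dvd.2 hγ').symm

theorem side_unit (hp : p.Prime) (h : IsCoprime θ.1.norm θ.2.norm) :
    ¬(p : ℤ) ∣ θ.1.norm ∨ ¬(p : ℤ) ∣ θ.2.norm := by
  by_contra h1
  push Not at h1
  exact (Nat.prime_iff_prime_int.1 hp).not_isUnit (h.isUnit_of_dvd' h1.1 h1.2)

theorem exists_bb (hp : p.Prime) (hw : d.C ^ 2 < p) (h1 : Squarefree θ.1.norm.natAbs)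
    (h2 : Squarefree θ.2.norm.natAbs) (h : IsCoprime θ.1.norm θ.2.norm) (t : Fin 12) :
    ∃ i, ¬(p : ℤ) ∣ d.bb θ t i := by
  by_contra h3
  push Not at h3
  have h4 : Squarefree (sd θ t).norm.natAbs := by
    unfold sd
    split_ifs
    exacts [h1, h2]
  rcases side_unit θ hp h with h5 | h5
  · exact two_steps d hp hw h4 h5 (jx t) (h3 0) (h3 1)
  · exact two_steps d hp hw h4 h5 (jx t) (h3 6) (h3 7)

end Steps

/-- the condition on a local box -/
theorem local_box {n : ℕ} {C : ℝ} (hA : Aff n C) (hn : 14 * 2 ^ 12 ≤ n) (S : Sc)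
    (hw : S.d.C ^ 2 ≤ S.w) (hR : 1 ≤ S.R) (hH : 0 < S.H) {θ : O × O} (hθ : S.Gp θ) (z : O) :
    LF2 (S.sys0 θ z) (S.sys θ z)
      (etaP C S.w S.R (S.d.Del θ) + 48 * (S.R : ℝ) ^ (6 * n) / S.H) := by
  have hC := S.d.three_le_C
  have h2e := S.d.two_e_le
  have hw4 : 4 ≤ S.w := by nlinarith
  have hew : S.d.e ≤ S.w := by nlinarith
  have hF : ∀ p ∈ Sg.PP S.w S.R, ¬(p : ℤ) ∣ S.F := fun p hp h =>
    S.not_dvd_F hew (mem_PP hp).1 (mem_PP hp).2 (Int.natCast_dvd_natCast.1 h)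
  have hW : ∀ p ∈ Sg.PP S.w S.R, ¬(p : ℤ) ∣ S.W := fun p hp h =>
    hF p hp (by rw [S.F_eq, Nat.cast_mul]; exact h.mul_left _)
  have hK : ∀ p ∈ PS S.w S.R, ∀ b i, ¬(p : ℤ) ∣ (sd θ i).norm →
      ¬(p : ℤ) ∣ S.F * ph p b (S.d.dir θ i) := fun p hp b i hi => by
    have h1 := mem_PP (mem_filter.1 hp).1
    refine not_dvd_mul h1.1 (hF p (mem_filter.1 hp).1) fun h => ?_
    have h2 := dvd_norm_of_ph hp h
    rw [norm_dir] at h2
    exact not_dvd_mul h1.1 hi (not_dvd_ker S.d (hw.trans_lt h1.2) _) h2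
  have key := core (ι := Fin 12) hA (by simpa using hn)
    (Sum.elim (fun _ => PS S.w S.R) fun _ => Sg.PP S.w S.R)
    (fun p => Sum.elim (fun b i => S.F * ph p b (S.d.dir θ i)) fun t i => S.W * S.d.bb θ t i)
    (fun p => Sum.elim (fun b => ph p b z) fun t => S.W * S.nn (jx t) (sd θ t * z) + S.b)
    (S.d.Del θ) hw4 hR hH (by rintro (b | t); exacts [filter_subset _ _, Subset.rfl])
    (by
      rintro (b | t) p hp
      · rcases side_unit θ (mem_PP (mem_filter.1 hp).1).1 hθ.2.2.1 with h | h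
        exacts [⟨0, hK p hp b 0 h⟩, ⟨6, hK p hp b 6 h⟩]
      · obtain ⟨i, hi⟩ := exists_bb S.d θ (mem_PP hp).1 (hw.trans_lt (mem_PP hp).2) hθ.1.2.2.1
          hθ.2.1.2.2.1 hθ.2.2.1 t
        exact ⟨i, not_dvd_mul (mem_PP hp).1 (hW p hp) hi⟩)
    (by
      rintro (b | t) p hp hΔ i hi
      · exact hK p hp b i (not_dvd_side S.d θ hΔ i)
      · exact not_dvd_mul (mem_PP hp).1 (hW p hp)
          (not_dvd_bb S.d θ hΔ fun h => hi (congrArg Sum.inr h.symm)))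
    (fun p i => by simp [S.d.bb_self])
    (fun b b' hb p hp hΔ => ⟨0, 1, by
      have h0 := (mem_filter.1 hp).1
      have h1 := (mem_PP h0).1
      have h2 := not_dvd_mul h1 (not_dvd_mul h1 (hF p h0) (hF p h0))
        (not_dvd_mul h1 (not_dvd_rt hw4 hp hb) (not_dvd_bb S.d θ hΔ (t := 0) (i := 1) (by decide)))
      convert h2 using 2
      simp only [Sum.elim_inl, bb_det, ph]
      ring⟩)
  have e0 : S.sys0 θ z = fun x : Fin 12 → Fin S.H => ∏ b : Bool, bet (PS S.w S.R) S.R fun p =>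
      (p : ℤ) ∣ ph p b z + ∑ i, S.F * ph p b (S.d.dir θ i) * ((x i : ℕ) : ℤ) := by
    funext x
    rw [Sc.sys0, nuK_eq]
    refine prod_congr rfl fun b _ => congrArg _ (funext fun p => congrArg _ ?_)
    rw [Sc.pt, ph_add, ph_nat, ph_sum, mul_sum]
    exact congrArg _ (sum_congr rfl fun i _ => by rw [ph_nat]; ring)
  have e1 : S.sys θ z = fun t (x : Fin 12 → Fin S.H) => bet (Sg.PP S.w S.R) S.R fun p =>
      (p : ℤ) ∣ S.W * S.nn (jx t) (sd θ t * z) + S.b +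
        ∑ i, S.W * S.d.bb θ t i * ((x i : ℕ) : ℤ) := by
    funext t x
    rw [Sc.sys, nuZ]
    refine congrArg _ (funext fun p => congrArg _ ?_)
    rw [S.nl_eq, mul_add, mul_sum, add_right_comm]
    exact congrArg _ (sum_congr rfl fun i _ => by ring)
  have e2 : (2 * (2 * Fintype.card (Fin 12)) : ℝ) = 48 := by norm_num
  rw [e0, e1, ← e2]
  exact key

/-- the mean of the majorant on the box -/
theorem mean_box {n : ℕ} {C : ℝ} (hA : Aff n C) (hn : 2 ≤ n) (S : Sc) (hw : 4 ≤ S.w)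
    (he : S.d.e ≤ S.w) (hR : 1 ≤ S.R) (hl : 0 < S.l) :
    S.avB (nuK S.w S.R) ≤ 1 + etaP C S.w S.R 1 + 4 * (S.R : ℝ) ^ (6 * n) / S.l := by
  have hF : ∀ p ∈ PS S.w S.R, ¬(p : ℤ) ∣ S.F := fun p hp h =>
    S.not_dvd_F he (mem_PP (mem_filter.1 hp).1).1 (mem_PP (mem_filter.1 hp).1).2
      (Int.natCast_dvd_natCast.1 h)
  have key := hA Bool (Fin 2) (by simpa using hn) S.w S.R S.l (fun _ => PS S.w S.R)
    (fun p b => ![S.F, S.F * (sg b * rt p)]) (fun p b => ph p b S.w0) 1 hw hR hl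
    (fun _ => filter_subset _ _) (fun b p hp => ⟨0, hF p hp⟩) fun b b' hb p hp _ _ => ⟨1, 0, by
      have h1 := (mem_PP (mem_filter.1 hp).1).1
      convert not_dvd_mul h1 (not_dvd_mul h1 (hF p hp) (hF p hp)) (not_dvd_rt hw hp hb) using 2
      simp only [Matrix.cons_val_zero, Matrix.cons_val_one]
      ring⟩
  have e : (fun h : Fin 2 → ℤ => nuK S.w S.R (S.w0 + (S.F : O) * emZ h)) = fun h =>
      ∏ b : Bool, bet (PS S.w S.R) S.R fun p =>
        (p : ℤ) ∣ ph p b S.w0 + ∑ v, ![(S.F : ℤ), S.F * (sg b * rt p)] v * h v := by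
    funext h
    rw [nuK_eq]
    refine prod_congr rfl fun b _ => congrArg _ (funext fun p => congrArg _ ?_)
    rw [ph_add, ph_nat, Fin.sum_univ_two]
    simp only [ph, emZ, Matrix.cons_val_zero, Matrix.cons_val_one]
    ring
  rw [S.avB_eq, e]
  have h2 := (abs_le.1 key).2
  rw [Fintype.card_fin] at h2
  push_cast at h2
  linarith

end LFAux

theorem stLF (hAff : StAff) (hEta : StEta) (_hScale : StScale) : StLF := by
  obtain ⟨C, hC, hA⟩ := hAff (14 * 2 ^ 12)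
  generalize hn : 14 * 2 ^ 12 = n at hA
  obtain ⟨w₀, hw₀⟩ := hEta C (1 / 2) hC.le (by norm_num)
  refine ⟨C, 6 * n + 2, hC, fun d P hP hE ε hε => ?_⟩
  obtain ⟨b1, b2, b3, b4⟩ := hP.big
  refine (Ev.of_eventually (Θ := fun _ ρ => 48 / ε ≤ (ρ : ℝ) ∧ ((16 * P.J : ℕ) : ℝ) ≤ ρ)
    (max w₀ (d.C ^ 2)) fun _ _ => (ev_const _).and (ev_const _)).mono ?_
  rintro S rfl rfl - ⟨hw, h1, h2⟩
  have h3 : 16 * S.P.J ≤ S.ρ := by exact_mod_cast h2
  have hρ : 1 ≤ S.ρ := by omega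
  have hwC : S.d.C ^ 2 ≤ S.w := le_of_max_le_right hw
  have hR : 1 ≤ S.R := Nat.one_le_pow _ _ hρ
  have hH : 0 < S.H := Nat.pow_pos hρ
  have hEA : 6 * n * S.P.A + 2 * S.P.A ≤ S.P.E * S.P.A := by
    rw [← add_mul]; exact Nat.mul_le_mul_right _ hE
  have hRH : S.R ^ (6 * n) * S.ρ ≤ S.H := by
    rw [Sc.R, Sc.H, ← pow_mul, ← pow_succ, mul_comm S.P.A]
    exact Nat.pow_le_pow_right hρ (by omega)
  have hl : S.H ≤ 2 * S.P.J * S.l :=
    (Nat.pow_le_pow_right hρ (by omega)).trans (Sc.le_l hP (by omega))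
  have hl0 : 0 < S.l := Nat.pos_of_mul_pos_left (hH.trans_le hl)
  have hC3 := S.d.three_le_C
  have h2e := S.d.two_e_le
  refine ⟨?_, fun θ hθ z U T hT => ?_⟩
  · have h4 := LFAux.mean_box hA (by omega) S (by nlinarith) (by nlinarith) hR hl0
    have h5 := hw₀ S.w (le_of_max_le_left hw) S.R
    have h6 : 4 * (S.R : ℝ) ^ (6 * n) / S.l ≤ 1 / 2 := by
      rw [div_le_iff₀ (by exact_mod_cast hl0)]
      have h7 : 2 * S.P.J * (8 * S.R ^ (6 * n)) ≤ 2 * S.P.J * S.l :=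
        le_trans (by nlinarith [Nat.zero_le (S.R ^ (6 * n))]) (hRH.trans hl)
      have h8 : ((8 * S.R ^ (6 * n) : ℕ) : ℝ) ≤ S.l := by
        exact_mod_cast Nat.le_of_mul_le_mul_left h7 (by omega)
      push_cast at h8
      linarith
    linarith
  · refine (LFAux.local_box hA hn.le S hwC hR hH hθ z U T hT).trans (add_le_add le_rfl ?_)
    rw [div_le_iff₀ (by exact_mod_cast hH)]
    rw [div_le_iff₀ hε] at h1
    have h4 : (S.R : ℝ) ^ (6 * n) * S.ρ ≤ S.H := by exact_mod_cast hRH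
    have h5 : (0 : ℝ) ≤ (S.R : ℝ) ^ (6 * n) := by positivity
    nlinarith

end Pool.Agent.Lib.MP_7d3fda_nt.Q3
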