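import Pool.Agent.Lib.MP_7d3fda_nt.Q3.Top
import Pool.Agent.Lib.MP_4b8564_nt.Sg.Expand

open Finset Filter
open scoped Classical NumberTheorySymbols

noncomputable section

namespace Pool.Agent.Lib.MP_7d3fda_nt.Q3

open Pool.Agent.Lib.MP_4b8564_nt Pool.Agent.Lib.MP_4b8564_nt.GT
open Pool.Agent.Lib.MP_0a3467_an.Cv (Low)
open Pool.Agent.Lib.MP_0a3467_an

namespace MainAux

theorem GG_pos {P : Finset ℕ} {w R : ℕ} (hP : P ⊆ Sg.PP w R) (hR : 1 ≤ R) : 0 < Sg.GG P R :=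
  one_pos.trans_le (Sg.one_le_GG P (fun _ hp => (mem_filter.1 (hP hp)).2.two_le) R hR)

theorem bet_nonneg {P : Finset ℕ} {w R : ℕ} (hP : P ⊆ Sg.PP w R) (hR : 1 ≤ R) (E : ℕ → Prop) :
    0 ≤ bet P R E := div_nonneg (sq_nonneg _) (GG_pos hP hR).le

theorem bet_eq {P : Finset ℕ} {w R : ℕ} (hP : P ⊆ Sg.PP w R) (hR : 1 ≤ R) {E : ℕ → Prop}
    (h : ∀ p ∈ P, ¬E p) : bet P R E = Sg.GG P R := by
  have h1 : (∑ U ∈ Sg.fam P R, ∏ p ∈ U, if E p then (-1 : ℝ) else 1 / ((p : ℝ) - 1)) = Sg.GG P R :=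
    sum_congr rfl fun U hU => prod_congr rfl fun p hp =>
      if_neg (h p (mem_powerset.1 (mem_filter.1 hU).1 hp))
  rw [bet, h1, sq, mul_div_assoc, div_self (GG_pos hP hR).ne', mul_one]

theorem nuK_eq {w R : ℕ} (hR : 1 ≤ R) {z : O} (hz : z.norm.natAbs.Prime) (h : (R : ℤ) < z.norm) :
    nuK w R z = Sg.GG (PS w R) R ^ 2 := by
  have key : ∀ p ∈ PS w R, ¬(p : ℤ) ∣ (z.re + rt p * z.im) * (z.re - rt p * z.im) := by
    intro p hp hd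
    obtain ⟨h1, h2⟩ := mem_filter.1 hp
    have h3 : (p : ℤ) ∣ rt p ^ 2 + 3 := by rw [rt, dif_pos h2]; exact h2.choose_spec
    have h4 : z.norm = (z.re + rt p * z.im) * (z.re - rt p * z.im) + (rt p ^ 2 + 3) * z.im ^ 2 := by
      rw [norm_eq]; ring
    have h5 : (p : ℤ) ∣ z.norm := h4 ▸ dvd_add hd (h3.mul_right _)
    have h6 := (Nat.prime_dvd_prime_iff_eq (mem_filter.1 h1).2 hz).1 (Int.natCast_dvd.1 h5)
    have h7 := (mem_Ioc.1 (mem_filter.1 h1).1).2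
    omega
  have hs : PS w R ⊆ Sg.PP w R := filter_subset _ _
  rw [nuK, bet_eq hs hR fun p hp hd => key p hp (hd.mul_right _),
    bet_eq hs hR fun p hp hd => key p hp (hd.mul_left _), sq]

theorem ff_le (S : Sc) (hR : 1 ≤ S.R) (hN : S.R < S.N) {A : Finset ℤ} (hA : S.Vals A) (x : ℤ) :
    0 ≤ S.ff A x ∧ S.ff A x ≤ S.nu x := by
  unfold Sc.ff
  split_ifs with h
  · refine ⟨(GG_pos Subset.rfl hR).le, le_of_eq (bet_eq Subset.rfl hR fun p hp hd => ?_).symm⟩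
    obtain ⟨h1, -, h3⟩ := hA x h
    have h6 := (Nat.prime_dvd_prime_iff_eq (mem_filter.1 hp).2 h3).1 (Int.natCast_dvd.1 hd)
    have h7 := (mem_Ioc.1 (mem_filter.1 hp).1).2
    have h8 : (1 : ℤ) ≤ S.W := by exact_mod_cast S.W_pos
    have h9 : x ≤ S.W * x := le_mul_of_one_le_left (by omega) h8
    omega
  · exact ⟨le_rfl, bet_nonneg Subset.rfl hR _⟩

theorem av_ff (S : Sc) {A : Finset ℤ} (hA : S.Vals A) (he : ∀ n ∈ A, (S.d.e : ℤ) ∣ n) :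
    avI S.N (fun x => S.ff A x * chi S.d.e x) = Sg.GG (Sg.PP S.w S.R) S.R * A.card / S.N := by
  rw [avI, ← sum_subset (s₁ := A) (fun x hx => mem_Ico.2 ⟨(hA x hx).1, (hA x hx).2.1⟩)
    fun x _ hx => by simp [Sc.ff, hx]]
  rw [sum_congr rfl (g := fun _ => Sg.GG (Sg.PP S.w S.R) S.R) fun x hx => by
    simp [Sc.ff, chi, hx, he x hx]]
  simp [mul_comm]

theorem sum_psi (S : Sc) (A : Finset ℤ) (Pi : Finset O) :
    ∑ z ∈ Pi, S.PsiM (S.ff A) z =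
      Sg.GG (Sg.PP S.w S.R) S.R ^ 6 * (S.mu * (S.Al A Pi).card) := by
  have h : ∀ z, S.Fz (S.ff A) z =
      Sg.GG (Sg.PP S.w S.R) S.R ^ 6 * if ∀ j, S.nn j z ∈ A then 1 else 0 := fun z => by
    split_ifs with h
    · have h1 : ∀ j, S.ff A (S.d.nn S.b S.F j z) = Sg.GG (Sg.PP S.w S.R) S.R := fun j => if_pos (h j)
      simp [Sc.Fz, Dat.Fz, h1]
    · obtain ⟨j, hj⟩ := not_forall.1 h
      have h1 : S.ff A (S.d.nn S.b S.F j z) = 0 := if_neg hj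
      rw [mul_zero]
      exact prod_eq_zero (f := fun j => S.ff A (S.d.nn S.b S.F j z)) (mem_univ j) h1
  simp only [Sc.PsiM, h, ← mul_sum]
  rw [mul_left_comm, Sc.Al, card_filter, sum_product_right]
  push_cast
  rfl

theorem final {ι : Type} (Pi : Finset ι) (Y : ι → ℝ) {K c c' δ l : ℝ} (hK : 0 ≤ K) (hc : 0 < c)
    (hcc : c ≤ c') (h1 : δ * l ≤ K * Pi.card)
    (h2 : ∑ z ∈ Pi, K * (Y z - c') ^ 2 ≤ c ^ 2 * δ / 4 * l) : δ * c / 2 * l ≤ K * ∑ z ∈ Pi, Y z := by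
  have hZ : 0 ≤ K * Pi.card := by positivity
  have h3 := sq_sum_le_card_mul_sum_sq (s := Pi) (f := fun z => Y z - c')
  rw [← mul_sum] at h2
  have h4 : (K * ∑ z ∈ Pi, (Y z - c')) ^ 2 ≤ (K * Pi.card * c / 2) ^ 2 := by
    calc (K * ∑ z ∈ Pi, (Y z - c')) ^ 2 = K ^ 2 * (∑ z ∈ Pi, (Y z - c')) ^ 2 := by ring
      _ ≤ K ^ 2 * (Pi.card * ∑ z ∈ Pi, (Y z - c') ^ 2) := by gcongr
      _ = K * Pi.card * (K * ∑ z ∈ Pi, (Y z - c') ^ 2) := by ring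
      _ ≤ K * Pi.card * (c ^ 2 / 4 * (δ * l)) :=
          mul_le_mul_of_nonneg_left (h2.trans (le_of_eq (by ring))) hZ
      _ ≤ K * Pi.card * (c ^ 2 / 4 * (K * Pi.card)) := by gcongr
      _ = _ := by ring
  have h5 := (abs_le.1 (abs_le_of_sq_le_sq h4 (by positivity))).1
  rw [sum_sub_distrib, sum_const, nsmul_eq_mul] at h5
  nlinarith [mul_le_mul_of_nonneg_left hcc hZ, mul_le_mul_of_nonneg_left h1 hc.le]

theorem num1 {T n : ℝ} (hT : 0 < T) (h : T ^ 2 ≤ 4 * n) : 0 < n := by nlinarith [pow_pos hT 2]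

theorem num2 {C m : ℝ} (hC : 0 < C) (h : 1 ≤ C * m) : 0 < m := by
  by_contra h1
  nlinarith [mul_le_mul_of_nonneg_left (not_lt.1 h1) hC.le]

theorem num3 {C m x v : ℝ} (h : 1 ≤ C * m) (hx : x ≤ |v|) : x ≤ C * |v| * m := by
  nlinarith [mul_le_mul_of_nonneg_left h (abs_nonneg v)]

theorem num4 {C ε J₀ J : ℝ} (hC : 0 < C) (hε : 0 < ε) (h : 8 * C / ε ≤ J₀) (h1 : J₀ ≤ J)
    (h0 : 0 < J) : C * (1 / J + min 1 (ε / (8 * C))) ≤ ε / 4 := by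
  have u2 : C * (1 / J) ≤ ε / 8 := by
    rw [div_le_iff₀ hε] at h
    rw [mul_one_div, div_le_iff₀ h0]
    nlinarith
  have u3 : C * min 1 (ε / (8 * C)) ≤ ε / 8 :=
    (mul_le_mul_of_nonneg_left (min_le_right _ _) hC.le).trans (le_of_eq (by field_simp))
  rw [mul_add]; linarith

theorem num5 {R T n : ℤ} (h1 : T ^ 2 ≤ 4 * n) (h2 : 4 * R ≤ T) (h3 : 1 ≤ R) : R < n := by nlinarith

theorem num6 {ρ : ℕ} (h : 1 < ρ) : 4 ≤ ρ ^ 2 := by nlinarith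

theorem num7 {e C T n : ℝ} (hC : 3 ≤ C) (h0 : 0 < n) (h : n ≤ 9 * T ^ 2) :
    e ^ 2 / ((200 * C) ^ 2 * 9) ≤ e ^ 2 * T ^ 2 / ((200 * C) ^ 2 * n) := by
  rw [div_le_div_iff₀ (by positivity) (by positivity)]
  calc _ ≤ e ^ 2 * ((200 * C) ^ 2 * (9 * T ^ 2)) := by gcongr
    _ = _ := by ring

end MainAux

open MainAux in
theorem stMain (hModel : StModel) (hUnif : StUnif) (hReach : StReach) (hTrans : StTrans)
    (hChain : StChain) (hVarn : StVarn) (hMass : StMass) : StMain := by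
  obtain ⟨E₁, hU⟩ := hUnif
  obtain ⟨E₂, hT⟩ := hTrans
  refine ⟨16 + E₁ + E₂, fun d E δ hE hδ => ?_⟩
  obtain ⟨⟨Cv, hCv⟩, hV⟩ := hVarn d
  obtain ⟨c, hc, N₀, hN₀⟩ := hV (δ / 2) (by positivity)
  obtain ⟨Cm, hCm, hM⟩ := hMass d
  obtain ⟨Cc, hCc, hC⟩ := hChain d
  have he : (0 : ℝ) < d.e := by exact_mod_cast d.he
  have hC3 : (3 : ℝ) ≤ d.C := by exact_mod_cast d.three_le_C
  obtain ⟨c₁, hc₁, hc₁e⟩ : ∃ c₁ : ℝ, 0 < c₁ ∧ c₁ = (d.e : ℝ) ^ 2 / ((200 * d.C : ℝ) ^ 2 * 9) * c :=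
    ⟨_, by positivity, rfl⟩
  obtain ⟨ε₀, hε₀, hε₀e⟩ : ∃ ε₀ : ℝ, 0 < ε₀ ∧ ε₀ = c₁ ^ 2 * δ / 4 := ⟨_, by positivity, rfl⟩
  obtain ⟨J₀, hJ₀⟩ := exists_nat_ge (8 * Cc / ε₀)
  obtain ⟨ε₂, hε₂, hT'⟩ := hT d (16 * d.e + J₀) (Cm * |Cv|) (ε₀ / 4) (by positivity)
  obtain ⟨s₀, hs₀, hMo⟩ := hModel 11 (by norm_num)
  obtain ⟨m, η, κ, hη, hκ, hMo⟩ := hMo (3 ^ 11) (min ε₂ (δ / 2)) (by norm_num) (by positivity)
  obtain ⟨M, hM1, hMo⟩ := hMo (min 1 (ε₀ / (8 * Cc))) (by positivity)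
  obtain ⟨P, rfl, hP, rfl, hPJ, hPA⟩ : ∃ P : Par, P.s = s₀ ∧ P.Ok d ∧ P.E = E ∧
      P.J = 16 * d.e + J₀ ∧ 400 * (m + 1) * P.a ≤ P.A :=
    ⟨⟨s₀, 2 ^ (s₀ + 12), 2 ^ (s₀ + 12) * 2 ^ (s₀ + 12) + 400 * (m + 1) * 2 ^ (s₀ + 12), E,
      16 * d.e + J₀⟩, rfl, ⟨hs₀, le_rfl, Nat.le_add_right _ _, by show 16 ≤ E; omega,
      Nat.le_add_right _ _⟩, rfl, rfl, Nat.le_add_left _ _⟩
  refine ⟨δ * c₁ / 2, by positivity, P, hP, rfl, ?_⟩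
  refine ((((((hU d P hP (by omega) m η hη hPA).and (hReach d P hP κ hκ)).and
    (hT' P hP hPJ (by omega))).and (hC P hP M (ε₀ / 4) hM1 (by positivity))).and (hM P hP)).and
    (Ev.of_eventually (Θ := fun _ ρ => N₀ + P.J ≤ ρ) 0 fun _ _ => eventually_ge_atTop _)).mono ?_
  rintro S rfl rfl hok ⟨⟨⟨⟨⟨h1, h2⟩, h3⟩, h4⟩, h5, h6⟩, -, h7⟩ A Pi hA hAe hPi hδA hδP
  obtain ⟨b1, b2, b3, b4⟩ := hP.big
  have hρ : 1 < S.ρ := by omega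
  have hR : 1 ≤ S.R := Nat.one_le_pow _ _ (by omega)
  have hRN : S.R < S.N := Nat.pow_lt_pow_right hρ (by omega)
  have hN : N₀ ≤ S.N := (by omega : N₀ ≤ S.ρ).trans (Nat.le_self_pow (by omega) _)
  have hT4 : 4 * S.R ≤ S.T := by
    calc 4 * S.R ≤ S.ρ ^ 2 * S.ρ ^ S.P.A := Nat.mul_le_mul_right _ (num6 hρ)
      _ ≤ S.ρ ^ (S.P.E * S.P.A - 8 * S.P.a) := by
          rw [← pow_add]; exact Nat.pow_le_pow_right (by omega) (by omega)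
      _ ≤ S.T := Nat.le_mul_of_pos_left _ S.W_pos
  have hl : 0 < S.l := Nat.pos_of_ne_zero fun h0 => by
    have := Sc.le_l hP (by omega)
    rw [h0, mul_zero] at this
    exact absurd (Nat.pow_pos (by omega)) (not_lt.2 this)
  have hw0 : S.w0 ∈ S.B := mem_cbx.2 ⟨(0, 0), hl, hl, by ext <;> simp [em]⟩
  have hN0 : (0 : ℝ) < S.N := by exact_mod_cast (by omega : 0 < S.N)
  have hl0 : (0 : ℝ) < S.l := by exact_mod_cast hl
  obtain ⟨g, φ, g1, g2, g3, g4, g5, g6⟩ := hMo _ S.T3 _ _ S.N S.H S.D S.Q S.ρ S.bm S.Bm S.d.e S.nu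
    (S.ff A) h2 ((dvd_mul_right _ _).mul_right _) (ff_le S hR hRN hA) h1
  have hg : δ / 2 ≤ avI S.N fun x => g x * chi S.d.e x := by
    have k1 := (abs_le.1 ((g6 _ (Or.inr rfl)).trans (min_le_right _ _))).2
    have k2 : (avI S.N fun x => (S.ff A x - g x) * chi S.d.e x) =
        (avI S.N fun x => S.ff A x * chi S.d.e x) - avI S.N fun x => g x * chi S.d.e x := by
      simp only [avI, sub_mul, sum_sub_distrib, sub_div]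
    rw [k2, av_ff S hA hAe] at k1
    have k3 : δ ≤ Sg.GG (Sg.PP S.w S.R) S.R * A.card / S.N := (le_div_iff₀ hN0).2 hδA
    linarith
  have hcc := hN₀ S.N hN g g1 g2 hg
  have hcc' := (le_abs_self _).trans ((hCv S.N g (by omega)
    (fun x => abs_le.2 ⟨by linarith [(g1 x).1], (g1 x).2⟩) g2).trans (le_abs_self Cv))
  obtain ⟨k0, k1⟩ := kap_le S hok hw0
  have hT0 : (0 : ℝ) < S.T := by exact_mod_cast (by omega : 0 < S.T)
  have hlo : c₁ ≤ S.cst g := by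
    have n1 : (S.T : ℝ) ^ 2 ≤ 4 * S.w0.norm := by exact_mod_cast (hok.lo _ hw0).1
    have n2 : (S.w0.norm : ℝ) ≤ 9 * (S.T : ℝ) ^ 2 := by exact_mod_cast (hok.lo _ hw0).2
    rw [hc₁e, Sc.cst]
    exact mul_le_mul (num7 hC3 (num1 hT0 n1) n2) hcc hc.le k0
  have hhi : S.cst g ≤ |Cv| := (mul_le_of_le_one_left (hc.le.trans hcc) k1).trans hcc'
  have hm0 : 0 < S.mu * S.Th.card := num2 hCm h5
  have hX : ∀ (ψ : ℤ → ℝ) (z : O), S.mu * ∑ i ∈ S.Th,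
      (S.Fz ψ (i.1 * i.2 * z) - S.cst g / (S.mu * S.Th.card)) = S.PsiM ψ z - S.cst g := fun ψ z => by
    rw [sum_sub_distrib, sum_const, nsmul_eq_mul, mul_sub, ← mul_assoc,
      mul_div_cancel₀ _ hm0.ne', Sc.PsiM]
  have t1 := h3 A g (S.cst g / (S.mu * S.Th.card)) hA g1 g2
    (fun ψ hψ => (g6 ψ hψ).trans (min_le_left _ _)) (div_nonneg (hc₁.le.trans hlo) hm0.le)
    ((div_le_iff₀ hm0).2 (num3 h5 hhi))
  simp only [hX] at t1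
  have t2 := h4 _ g φ (by positivity) (min_le_left _ _) g1 g2 ⟨g3, g4⟩ g5
  have t3 : Cc * (1 / (S.P.J : ℝ) + min 1 (ε₀ / (8 * Cc))) ≤ ε₀ / 4 :=
    num4 hCc hε₀ hJ₀ (by exact_mod_cast (by omega : J₀ ≤ S.P.J))
      (by exact_mod_cast (by omega : 0 < S.P.J))
  have t4 : ∑ z ∈ S.B, nuK S.w S.R z * (S.PsiM (S.ff A) z - S.cst g) ^ 2 ≤ ε₀ * (S.l : ℝ) ^ 2 :=
    (div_le_iff₀ (by positivity)).1 (t1.trans (by linarith))
  rw [mul_assoc, ← sum_psi]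
  refine final Pi _ (sq_nonneg _) hc₁ hlo hδP (le_trans ?_ (hε₀e ▸ t4))
  refine le_trans (le_of_eq (sum_congr rfl fun z hz => ?_))
    (sum_le_sum_of_subset_of_nonneg hPi.1 fun z _ _ => mul_nonneg (mul_nonneg
      (bet_nonneg (filter_subset _ _) hR _) (bet_nonneg (filter_subset _ _) hR _)) (sq_nonneg _))
  have n1 := (hok.lo z (hPi.1 hz)).1
  have n2 : 4 * (S.R : ℤ) ≤ S.T := by exact_mod_cast hT4
  have n3 : (1 : ℤ) ≤ S.R := by exact_mod_cast hR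
  rw [nuK_eq hR (hPi.2 z hz) (num5 n1 n2 n3)]

end Pool.Agent.Lib.MP_7d3fda_nt.Q3
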