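import Pool.Agent.Lib.MP_7d3fda_nt.Q3.Basic
import Pool.Agent.Lib.MP_4b8564_nt.Sg.GGge
import Pool.Agent.Lib.MP_4b8564_nt.Sg.Expand

open Finset Filter
open scoped Classical NumberTheorySymbols

noncomputable section

namespace Pool.Agent.Lib.MP_7d3fda_nt.Q3

open Pool.Agent.Lib.MP_4b8564_nt Pool.Agent.Lib.MP_4b8564_nt.GT
open Pool.Agent.Lib.MP_0a3467_an.Cv (Low)
open Pool.Agent.Lib.MP_0a3467_an

namespace ManyAux

/-- the density of the reduced classes modulo `w!` -/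
theorem tot (w : ℕ) : (Nat.totient w.factorial : ℝ) / w.factorial =
    (Nat.totient (primorial w) : ℝ) / primorial w := by
  have key : ∀ n : ℕ, n ≠ 0 →
      (Nat.totient n : ℝ) / n = ∏ p ∈ n.primeFactors, (1 - (p : ℝ)⁻¹) := by
    intro n hn
    have h := congrArg (Rat.cast : ℚ → ℝ) (Nat.totient_eq_mul_prod_factors n)
    push_cast at h
    have hn' : (n : ℝ) ≠ 0 := by exact_mod_cast hn
    rw [h, mul_div_cancel_left₀ _ hn']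
  rw [key _ (Nat.factorial_ne_zero w), key _ (primorial_ne_zero w), primeFactors_primorial]
  congr 1
  ext p
  rw [Nat.mem_primesLE, Nat.mem_primeFactors]
  exact ⟨fun h => ⟨h.1.dvd_factorial.1 h.2.1, h.1⟩,
    fun h => ⟨h.2, h.2.dvd_factorial.2 h.1, Nat.factorial_ne_zero w⟩⟩

/-- the largest prime factor is determined -/
theorem big_eq {n n' q q' : ℕ} (hq : q.Prime) (hq' : q'.Prime) (h : n < q) (h' : n' < q')
    (hn : n ≠ 0) (hn' : n' ≠ 0) (e : n * q = n' * q') : q = q' := by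
  by_contra hne
  have h1 : q ∣ n' := ((Nat.coprime_primes hq hq').2 hne).dvd_of_dvd_mul_right
    (e ▸ Dvd.intro_left n rfl)
  have h2 : q' ∣ n := ((Nat.coprime_primes hq' hq).2 (Ne.symm hne)).dvd_of_dvd_mul_right
    (e ▸ Dvd.intro_left n' rfl)
  have h3 := Nat.le_of_dvd (Nat.pos_of_ne_zero hn') h1
  have h4 := Nat.le_of_dvd (Nat.pos_of_ne_zero hn) h2
  omega

theorem cast_abs (z : O) : ((z.norm.natAbs : ℕ) : ℤ) = z.norm :=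
  Int.natAbs_of_nonneg (norm_nonneg' z)

theorem cancel {z u v : O} (h : z.norm.natAbs ≠ 0) (e : u * z = v * z) : u = v := by
  have h1 : (u - v).norm * z.norm = 0 := by
    rw [← Zsqrtd.norm_mul, sub_mul, e, sub_self, Zsqrtd.norm_zero]
  have h2 := (mul_eq_zero.1 h1).resolve_right (Int.natAbs_ne_zero.1 h)
  exact sub_eq_zero.1 ((Zsqrtd.norm_eq_zero_iff (by norm_num) _).1 h2)

/-- the number of triples with a given product -/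
theorem fiber (hRep : StRep) (P0 : Finset O) (hinj : Set.InjOn Zsqrtd.norm (P0 : Set O)) (m : ℕ)
    (X : Finset ((O × O) × O)) (z : O)
    (hX : ∀ x ∈ X, x.1.1 ∈ P0 ∧ Squarefree (x.1.1 * x.1.2).norm.natAbs ∧
      (x.1.1 * x.1.2).norm.natAbs.primeFactors.card ≤ m ∧ x.2.norm.natAbs.Prime ∧
      (x.1.1 * x.1.2).norm < x.2.norm ∧ x.1.1 * x.1.2 * x.2 = z) : X.card ≤ 4 * 2 ^ m := by
  rcases X.eq_empty_or_nonempty with rfl | ⟨x₀, hx₀⟩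
  · simp
  obtain ⟨-, s0, c0, p0, l0, e0⟩ := hX x₀ hx₀
  have hlt : ∀ {u v : O}, u.norm < v.norm → u.norm.natAbs < v.norm.natAbs := by
    intro u v h
    have h1 := cast_abs u
    have h2 := cast_abs v
    omega
  have hq : ∀ x ∈ X, x.2.norm.natAbs = x₀.2.norm.natAbs ∧
      (x.1.1 * x.1.2).norm.natAbs = (x₀.1.1 * x₀.1.2).norm.natAbs := by
    intro x hx
    obtain ⟨-, s1, -, p1, l1, e1⟩ := hX x hx
    have e : (x.1.1 * x.1.2).norm.natAbs * x.2.norm.natAbs =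
        (x₀.1.1 * x₀.1.2).norm.natAbs * x₀.2.norm.natAbs := by
      rw [← Int.natAbs_mul, ← Int.natAbs_mul, ← Zsqrtd.norm_mul, ← Zsqrtd.norm_mul, e1, e0]
    have h1 := big_eq p1 p0 (hlt l1) (hlt l0) s1.ne_zero s0.ne_zero e
    rw [h1] at e
    exact ⟨h1, Nat.eq_of_mul_eq_mul_right p0.pos e⟩
  have h4 : (X.image Prod.snd).card ≤ 4 := by
    refine (hRep _ p0).2 _ fun v hv => ?_
    obtain ⟨x, hx, rfl⟩ := mem_image.1 hv
    rw [← (hq x hx).1, cast_abs]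
  have hd : ∀ x : (O × O) × O, x.1.1.norm.natAbs ∣ (x.1.1 * x.1.2).norm.natAbs := fun x => by
    rw [Zsqrtd.norm_mul, Int.natAbs_mul]
    exact Dvd.intro _ rfl
  have h5 : X.card ≤ (X.image Prod.snd ×ˢ
      (x₀.1.1 * x₀.1.2).norm.natAbs.primeFactors.powerset).card := by
    refine card_le_card_of_injOn (fun x => (x.2, x.1.1.norm.natAbs.primeFactors))
      (fun x hx => ?_) fun x hx x' hx' e => ?_
    · refine mem_coe.2 (mem_product.2 ⟨mem_image_of_mem _ hx, mem_powerset.2 ?_⟩)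
      rw [← (hq x hx).2]
      exact Nat.primeFactors_mono (hd x) (hX x hx).2.1.ne_zero
    · obtain ⟨m1, s1, -, p1, -, e1⟩ := hX x hx
      obtain ⟨m2, s2, -, -, -, e2⟩ := hX x' hx'
      obtain ⟨a1, a2⟩ := Prod.mk.inj e
      have t1 := s1.squarefree_of_dvd (hd x)
      have t2 := s2.squarefree_of_dvd (hd x')
      have b1 : x.1.1.norm.natAbs = x'.1.1.norm.natAbs := by
        rw [← Nat.prod_primeFactors_of_squarefree t1, ← Nat.prod_primeFactors_of_squarefree t2, a2]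
      have b2 : x.1.1 = x'.1.1 := hinj m1 m2 (by rw [← cast_abs, ← cast_abs x'.1.1, b1])
      have b3 : x.1.1 * x.1.2 = x'.1.1 * x'.1.2 := by
        refine cancel p1.ne_zero ?_
        rw [e1, a1, e2]
      have b4 : x.1.2 = x'.1.2 := by
        refine cancel t1.ne_zero ?_
        rw [mul_comm, b3, b2, mul_comm]
      exact Prod.ext (Prod.ext b2 b4) a1
  rw [card_product, card_powerset] at h5
  exact h5.trans (Nat.mul_le_mul h4 (Nat.pow_le_pow_right (by norm_num) c0))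

/-- the pair of integers attached to a triple -/
def cd (e : ℕ) (x : (O × O) × O) : ℤ × ℤ :=
  ((x.1.1 * x.1.2 * x.2).re, (x.1.1 * x.1.2 * x.2).im / e)

/-- the conclusion of `StFacts` -/
def Fct (S : Sc) (A : Finset ℤ) (Pi : Finset O) : Prop :=
  ∀ x ∈ S.Al A Pi, ∀ z, z = x.1.1 * x.1.2 * x.2 →
    z.im = S.d.e * (z.im / S.d.e) ∧ z.im / S.d.e ≠ 0 ∧
    (∀ j, (S.mm j z : ℤ) = z.re + S.d.c j * (z.im / S.d.e)) ∧
    (Function.Injective fun j => S.mm j z) ∧ (x.1.1 * x.1.2).norm < x.2.norm ∧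
    (∀ j, (x.1.1 * x.1.2).norm < S.mm j z) ∧ |z.re| ≤ 2 * S.d.C * S.W * S.N ∧
    |z.im| ≤ 2 * S.d.C * S.W * S.N

theorem mem_Al {S : Sc} {A : Finset ℤ} {Pi : Finset O} {x : (O × O) × O} (h : x ∈ S.Al A Pi) :
    x.1.1 ∈ S.P0 ∧ S.Fr (x.1.1 * x.1.2) ∧ x.2 ∈ Pi ∧
      ∀ j, S.nn j (x.1.1 * x.1.2 * x.2) ∈ A := by
  obtain ⟨h1, h2⟩ := mem_filter.1 h
  obtain ⟨h3, h4⟩ := mem_product.1 h1
  obtain ⟨h5, h6⟩ := mem_filter.1 h3
  exact ⟨(mem_product.1 h5).1, h6, h4, h2⟩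

theorem card_gd (hRep : StRep) {S : Sc} (hok : S.Ok) {A : Finset ℤ} {Pi : Finset O} (ξ : Rule)
    (hPi : S.Prs Pi) (hf : Fct S A Pi) (m : ℕ)
    (hm : ∀ γ, S.Fr γ → γ.norm.natAbs.primeFactors.card ≤ m) :
    (S.Gd A Pi ξ).card ≤ 4 * 2 ^ m * ((S.Gd A Pi ξ).image (cd S.d.e)).card := by
  refine card_le_mul_card_image _ _ fun a _ => ?_
  refine fiber hRep S.P0 hok.po.inj m _ ⟨a.1, S.d.e * a.2⟩ fun x hx => ?_
  obtain ⟨h1, h2⟩ := mem_filter.1 hx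
  have h3 := (mem_filter.1 h1).1
  obtain ⟨h4, h5, h6, -⟩ := mem_Al h3
  obtain ⟨f1, -, -, -, f5, -⟩ := hf x h3 _ rfl
  refine ⟨h4, h5.2.2.1, hm _ h5, hPi.2 _ h6, f5, ?_⟩
  rw [← h2]
  exact Zsqrtd.ext rfl f1

theorem good {S : Sc} {A : Finset ℤ} {Pi : Finset O} {ξ : Rule} {W₀ u : ℕ} {P0 : ℕ → Finset O}
    (hP : S.P0 = P0 S.y) (hPi : S.Prs Pi) (hf : Fct S A Pi)
    (hA : ∀ n ∈ A, (S.W * n + S.b : ℤ).natAbs.Prime ∧ (S.W * n + S.b : ℤ).natAbs ≡ u [MOD W₀])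
    {a : ℤ × ℤ} (ha : a ∈ (S.Gd A Pi ξ).image (cd S.d.e)) :
    GoodQ S.d W₀ u P0 ξ a.1 a.2 ∧ |a.1| ≤ 2 * S.d.C * S.W * S.N ∧
      |a.2| ≤ 2 * S.d.C * S.W * S.N := by
  obtain ⟨x, hx, rfl⟩ := mem_image.1 ha
  obtain ⟨h3, hb⟩ := mem_filter.1 hx
  obtain ⟨h4, h5, h6, h7⟩ := mem_Al h3
  obtain ⟨f1, f2, f3, -, f5, -, f7, f8⟩ := hf x h3 _ rfl
  have hz : (⟨(cd S.d.e x).1, S.d.e * (cd S.d.e x).2⟩ : O) = x.1.1 * x.1.2 * x.2 :=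
    Zsqrtd.ext rfl f1.symm
  refine ⟨⟨fun j => S.mm j (x.1.1 * x.1.2 * x.2), (x.1.1 * x.1.2).norm.natAbs, x.2.norm.natAbs,
    S.y, x.1.1, hP ▸ h4, ?_, ?_, h5.2.2.1, f2, fun j => ⟨(hA _ (h7 j)).1, (hA _ (h7 j)).2, f3 j⟩,
    hPi.2 _ h6, fun h => ?_, ?_, ?_⟩, f7, ?_⟩
  · rw [hz, mul_assoc]
    exact Dvd.intro _ rfl
  · rw [cast_abs, Zsqrtd.norm_mul]
    exact Dvd.intro _ rfl
  · have h1 := Nat.le_of_dvd (Nat.pos_of_ne_zero h5.2.2.1.ne_zero) h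
    have h2 := cast_abs (x.1.1 * x.1.2)
    have h8 := cast_abs x.2
    omega
  · rw [cast_abs, cast_abs, ← Zsqrtd.norm_mul, ← hz, norm_eq]
  · rw [cast_abs]
    exact hb
  · refine le_trans ?_ f8
    have he : (1 : ℤ) ≤ S.d.e := by exact_mod_cast S.d.he
    have h1 : |(x.1.1 * x.1.2 * x.2).im| = S.d.e * |(cd S.d.e x).2| := by
      conv_lhs => rw [f1, abs_mul, abs_of_nonneg (by omega : (0 : ℤ) ≤ S.d.e)]
      rfl
    rw [h1]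
    exact le_mul_of_one_le_left (abs_nonneg _) he

/-- the numerical part -/
theorem numeric {κ L l G N J F c C μ al gd zz G1 G2 t ss σ : ℝ} {a : ℕ} (hκ : 0 < κ)
    (hL : 2 ≤ κ * L) (hL1 : 1 ≤ L) (hG : 0 < G) (hN : 0 ≤ N) (hJ : 0 < J) (hF : 0 < F)
    (hc : 0 < c) (hC : 0 < C) (hμ : μ = ss * F ^ 2 / (σ * C ^ 2 * G ^ 2)) (hσ : c ≤ σ)
    (hs0 : 0 ≤ ss) (hs : ss ≤ L ^ 40) (hal : 0 ≤ al) (hgd : 0 ≤ gd) (hzz : 0 ≤ zz)
    (h10 : 0 ≤ G1) (h1 : G1 ≤ L ^ 40) (h20 : 0 ≤ G2) (h2 : G2 ≤ L ^ 40) (ht : t ≤ L ^ a)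
    (hm : κ * l ^ 2 ≤ G1 ^ 2 * G2 ^ 6 * (μ * al)) (ho : μ * al - l ^ 2 / L ^ 321 ≤ t * (μ * gd))
    (hz : gd ≤ 4 * t * zz) (hl : N ≤ 2 * J * (l * G)) :
    κ * c * C ^ 2 / (32 * J ^ 2 * F ^ 2) * N ^ 2 / L ^ (360 + 2 * a) ≤ zz := by
  have hL0 : 0 < L := by linarith
  have hσ0 : 0 < σ := hc.trans_le hσ
  have hμ0 : 0 ≤ μ := by rw [hμ]; positivity
  have hμ1 : μ ≤ L ^ 40 * F ^ 2 / (c * C ^ 2 * G ^ 2) := by rw [hμ]; gcongr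
  have a1 : κ * l ^ 2 ≤ L ^ 320 * (μ * al) := by
    refine hm.trans ?_
    calc G1 ^ 2 * G2 ^ 6 * (μ * al) ≤ (L ^ 40) ^ 2 * (L ^ 40) ^ 6 * (μ * al) := by gcongr
      _ = _ := by ring
  have a2 : κ * l ^ 2 / L ^ 320 ≤ μ * al := by
    rw [div_le_iff₀ (by positivity)]; linarith
  have a3 : l ^ 2 / L ^ 321 ≤ κ * l ^ 2 / L ^ 320 / 2 := by
    rw [div_div, div_le_div_iff₀ (by positivity) (by positivity)]
    have : l ^ 2 * L ^ 320 * 2 ≤ l ^ 2 * L ^ 320 * (κ * L) := by gcongr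
    calc l ^ 2 * (L ^ 320 * 2) = l ^ 2 * L ^ 320 * 2 := by ring
      _ ≤ _ := this
      _ = _ := by ring
  have a4 : κ * l ^ 2 / L ^ 320 / 2 ≤ L ^ a * (μ * gd) := by
    have : t * (μ * gd) ≤ L ^ a * (μ * gd) := by gcongr
    linarith
  have a5 : gd ≤ 4 * L ^ a * zz := hz.trans (by gcongr)
  have a6 : κ * l ^ 2 / L ^ 320 / 2 ≤
      L ^ a * (L ^ 40 * F ^ 2 / (c * C ^ 2 * G ^ 2) * (4 * L ^ a * zz)) := a4.trans (by gcongr)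
  have a7 : N ^ 2 ≤ (2 * J * (l * G)) ^ 2 := by gcongr
  calc κ * c * C ^ 2 / (32 * J ^ 2 * F ^ 2) * N ^ 2 / L ^ (360 + 2 * a)
      ≤ κ * c * C ^ 2 / (32 * J ^ 2 * F ^ 2) * (2 * J * (l * G)) ^ 2 / L ^ (360 + 2 * a) := by
        gcongr
    _ = κ * l ^ 2 / L ^ 320 / 2 * (c * C ^ 2 * G ^ 2 / (4 * F ^ 2 * L ^ 40 * L ^ a * L ^ a)) := by
        field_simp
        ring
    _ ≤ L ^ a * (L ^ 40 * F ^ 2 / (c * C ^ 2 * G ^ 2) * (4 * L ^ a * zz)) *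
        (c * C ^ 2 * G ^ 2 / (4 * F ^ 2 * L ^ 40 * L ^ a * L ^ a)) := by gcongr
    _ = zz := by field_simp

theorem log_pow_eq (ρ n : ℕ) : Real.log ((ρ ^ n : ℕ) : ℝ) = n * Real.log ρ := by
  rw [Nat.cast_pow, Real.log_pow]

/-- the density of the values -/
theorem densA {S : Sc} {A : Finset ℤ} {C δ : ℝ} (hC : 0 < C) (hE : 0 < S.P.E)
    (hR : 1 ≤ S.R) (hδ : δ ≤ 1 / (C * S.P.E))
    (h : (S.W : ℝ) * S.N ≤ C * Nat.totient S.W * A.card * Real.log S.N) :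
    δ * S.N ≤ Sg.GG (Sg.PP S.w S.R) S.R * A.card := by
  have h1 := Sg.GG_ge S.w S.R hR
  rw [← tot] at h1
  have hW : (0 : ℝ) < S.W := by exact_mod_cast S.W_pos
  have hE' : (0 : ℝ) < S.P.E := by exact_mod_cast hE
  have h2 : Real.log S.N = S.P.E * Real.log S.R := by
    rw [Sc.N, Sc.R, log_pow_eq, log_pow_eq]; push_cast; ring
  have h3 : (Nat.totient S.W : ℝ) / S.W * Real.log S.R * A.card ≤
      Sg.GG (Sg.PP S.w S.R) S.R * A.card := mul_le_mul_of_nonneg_right h1 (Nat.cast_nonneg _)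
  refine le_trans ?_ h3
  refine (mul_le_mul_of_nonneg_right hδ (Nat.cast_nonneg _)).trans ?_
  rw [h2] at h
  rw [div_mul_eq_mul_div, one_mul, div_mul_eq_mul_div, div_mul_eq_mul_div,
    div_le_div_iff₀ (by positivity) hW]
  linarith

/-- the density of the primes of the order -/
theorem densP {S : Sc} {Pi : Finset O} {δ' δ : ℝ} (hE : 0 < S.P.E)
    (hT : 1 ≤ S.T) (hTN : S.T ≤ S.N) (hR : 1 < S.R) (hδ : δ ≤ δ' / S.P.E)
    (h : δ' * (S.l : ℝ) ^ 2 * Real.log S.R ≤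
      Sg.GG (PS S.w S.R) S.R ^ 2 * Pi.card * Real.log S.T) :
    δ * (S.l : ℝ) ^ 2 ≤ Sg.GG (PS S.w S.R) S.R ^ 2 * Pi.card := by
  have hE' : (0 : ℝ) < S.P.E := by exact_mod_cast hE
  have h2 : Real.log S.N = S.P.E * Real.log S.R := by
    rw [Sc.N, Sc.R, log_pow_eq, log_pow_eq]; push_cast; ring
  have h3 : Real.log S.T ≤ Real.log S.N :=
    Real.log_le_log (by exact_mod_cast hT) (by exact_mod_cast hTN)
  have h4 : 0 < Real.log S.R := Real.log_pos (by exact_mod_cast hR)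
  have h5 : δ' * (S.l : ℝ) ^ 2 * Real.log S.R ≤
      Sg.GG (PS S.w S.R) S.R ^ 2 * Pi.card * S.P.E * Real.log S.R := by
    refine h.trans ?_
    rw [mul_assoc _ (S.P.E : ℝ), ← h2]
    gcongr
  have h6 := le_of_mul_le_mul_right h5 h4
  refine (mul_le_mul_of_nonneg_right hδ (sq_nonneg _)).trans ?_
  rw [div_mul_eq_mul_div, div_le_iff₀ hE']
  exact h6

theorem PP_sub (w R : ℕ) : Sg.PP w R ⊆ Sg.PP 0 R :=
  filter_subset_filter _ (Ioc_subset_Ioc_left (Nat.zero_le _))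

theorem GG_nonneg {Q : Finset ℕ} {R : ℕ} (h : Q ⊆ Sg.PP 0 R) (hR : 1 ≤ R) : 0 ≤ Sg.GG Q R :=
  zero_le_one.trans (Sg.one_le_GG Q (fun _ hp => (mem_filter.1 (h hp)).2.two_le) R hR)

/-- the count at a fixed scale -/
theorem core (hRep : StRep) {S : Sc} (hP : S.P.Ok S.d) (hok : S.Ok) {A : Finset ℤ}
    {Pi : Finset O} (ξ : Rule) {κ : ℝ} (hκ : 0 < κ) (hPi : S.Prs Pi) (hf : Fct S A Pi)
    (hJ : S.P.J ≤ S.ρ) (hL : 2 ≤ κ * Real.log S.ρ) (hL1 : 1 ≤ Real.log S.ρ)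
    (hs0 : 1 ≤ SS S.w S.y) (hs : SS S.w S.y ≤ Real.log S.ρ ^ 40)
    (hk : (2 : ℝ) ^ S.k ≤ Real.log S.ρ ^ (2 * S.P.a))
    (hG : ∀ Q ⊆ Sg.PP 0 S.R, Sg.GG Q S.R ≤ Real.log S.ρ ^ 40)
    (hm : ∀ γ, S.Fr γ → γ.norm.natAbs.primeFactors.card ≤ 34 * S.P.a * S.k)
    (h1 : κ * (S.l : ℝ) ^ 2 ≤ Sg.GG (PS S.w S.R) S.R ^ 2 * Sg.GG (Sg.PP S.w S.R) S.R ^ 6 *
      (S.mu * (S.Al A Pi).card))
    (h2 : S.mu * (S.Al A Pi).card - (S.l : ℝ) ^ 2 / Real.log S.ρ ^ 321 ≤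
      2 ^ (34 * S.P.a * S.k) * (S.mu * (S.Gd A Pi ξ).card)) :
    κ * S.d.c0 * (200 * S.d.C : ℝ) ^ 2 / (32 * (S.P.J : ℝ) ^ 2 * (S.F : ℝ) ^ 2) * (S.N : ℝ) ^ 2 /
      Real.log S.ρ ^ (360 + 2 * (68 * S.P.a ^ 2)) ≤ ((S.Gd A Pi ξ).image (cd S.d.e)).card := by
  obtain ⟨b1, b2, b3, b4⟩ := hP.big
  have hρ : 0 < S.ρ := by omega
  have hR : 1 ≤ S.R := Nat.one_le_pow _ _ hρ
  have hPS : PS S.w S.R ⊆ Sg.PP 0 S.R := (filter_subset _ _).trans (PP_sub _ _)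
  have hC : (0 : ℝ) < S.d.C := by
    have := S.d.three_le_C
    exact_mod_cast (by omega : 0 < S.d.C)
  refine numeric (t := 2 ^ (34 * S.P.a * S.k)) (G := S.G) hκ hL hL1
    (by exact_mod_cast Nat.pow_pos hρ) (Nat.cast_nonneg _) (by exact_mod_cast (by omega))
    (by exact_mod_cast S.F_pos) S.d.h0 (by positivity) rfl hok.po.low (by linarith) hs
    (Nat.cast_nonneg _) (Nat.cast_nonneg _) (Nat.cast_nonneg _) (GG_nonneg hPS hR) (hG _ hPS)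
    (GG_nonneg (PP_sub _ _) hR) (hG _ (PP_sub _ _)) ?_ h1 h2 ?_ ?_
  · calc (2 : ℝ) ^ (34 * S.P.a * S.k) = (2 ^ S.k) ^ (34 * S.P.a) := by rw [← pow_mul, mul_comm]
      _ ≤ (Real.log S.ρ ^ (2 * S.P.a)) ^ (34 * S.P.a) := by gcongr
      _ = _ := by rw [← pow_mul]; congr 1; ring
  · exact_mod_cast card_gd hRep hok ξ hPi hf _ hm
  · have h3 : S.N ≤ 2 * S.P.J * (S.l * S.G) := by
      rw [← mul_assoc, Sc.N, ← Nat.sub_add_cancel (by omega : 8 * S.P.a ≤ S.P.E * S.P.A), pow_add]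
      exact Nat.mul_le_mul_right _ (Sc.le_l hP hJ)
    exact_mod_cast h3

/-- from the sequence of scales to all large reals -/
theorem interp {Φ : ℤ → ℤ → Prop} {M n K : ℕ} {κ : ℝ} (hκ : 0 < κ) (hM : 0 < M) (hn : 0 < n)
    (h : ∀ᶠ ρ : ℕ in atTop, ∃ Z : Finset (ℤ × ℤ),
      (∀ z ∈ Z, Φ z.1 z.2 ∧ |z.1| ≤ (M * ρ ^ n : ℕ) ∧ |z.2| ≤ (M * ρ ^ n : ℕ)) ∧
      κ * ((ρ ^ n : ℕ) : ℝ) ^ 2 / Real.log ρ ^ K ≤ Z.card) :
    ∃ κ' : ℝ, 0 < κ' ∧ ∃ T₀ : ℝ, ∀ T : ℝ, T₀ ≤ T → ∃ Z : Finset (ℤ × ℤ),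
      (∀ z ∈ Z, Φ z.1 z.2 ∧ |(z.1 : ℝ)| ≤ T ∧ |(z.2 : ℝ)| ≤ T) ∧
      κ' * T ^ 2 / Real.log T ^ K ≤ Z.card := by
  obtain ⟨ρ₀, h⟩ := eventually_atTop.1 (h.and (eventually_ge_atTop 2))
  have hM' : (0 : ℝ) < M := by exact_mod_cast hM
  refine ⟨κ / ((M : ℝ) * 2 ^ n) ^ 2, by positivity, (M * ρ₀ ^ n : ℕ), fun T hT => ?_⟩
  have hle : ∀ ρ : ℕ, ρ ≤ M * ρ ^ n := fun ρ =>
    (Nat.le_self_pow hn.ne' ρ).trans (Nat.le_mul_of_pos_left _ hM)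
  have hex : ∃ ρ : ℕ, T < (M * (ρ₀ + ρ + 1) ^ n : ℕ) := by
    obtain ⟨ρ, hρ⟩ := exists_nat_gt T
    refine ⟨ρ, hρ.trans_le ?_⟩
    exact_mod_cast (by omega : ρ ≤ ρ₀ + ρ + 1).trans (hle _)
  obtain ⟨ρ, h0, h1, h2⟩ : ∃ ρ : ℕ, ρ₀ ≤ ρ ∧ ((M * ρ ^ n : ℕ) : ℝ) ≤ T ∧
      T < (M * (ρ + 1) ^ n : ℕ) := by
    refine ⟨ρ₀ + Nat.find hex, Nat.le_add_right _ _, ?_, Nat.find_spec hex⟩
    rcases Nat.eq_zero_or_pos (Nat.find hex) with e | e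
    · rw [e]; exact hT
    · have := Nat.find_min hex (Nat.sub_lt e Nat.one_pos)
      rw [add_assoc, Nat.sub_add_cancel e] at this
      exact not_lt.1 this
  obtain ⟨⟨Z, hZ, hc⟩, h3⟩ := h ρ h0
  refine ⟨Z, fun z hz => ⟨(hZ z hz).1, le_trans ?_ h1, le_trans ?_ h1⟩, le_trans ?_ hc⟩
  · exact_mod_cast (hZ z hz).2.1
  · exact_mod_cast (hZ z hz).2.2
  · have h4 : (2 : ℝ) ≤ ρ := by exact_mod_cast h3
    have h5 : (ρ : ℝ) ≤ T := le_trans (by exact_mod_cast hle ρ) h1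
    have h6 : 0 < Real.log ρ := Real.log_pos (by linarith)
    have h7 : Real.log ρ ≤ Real.log T := Real.log_le_log (by linarith) h5
    have h8 : T ≤ (M : ℝ) * 2 ^ n * (ρ ^ n : ℕ) := by
      refine h2.le.trans ?_
      push_cast
      rw [mul_assoc, ← mul_pow]
      gcongr
      linarith
    calc κ / ((M : ℝ) * 2 ^ n) ^ 2 * T ^ 2 / Real.log T ^ K
        ≤ κ / ((M : ℝ) * 2 ^ n) ^ 2 * ((M : ℝ) * 2 ^ n * (ρ ^ n : ℕ)) ^ 2 / Real.log ρ ^ K := by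
          gcongr
          linarith
      _ = _ := by field_simp

end ManyAux

open ManyAux in
theorem stMany (hMain : StMain) (hOsc : StOsc) (hDens : StDens) (hPrime : StPrime)
    (hFacts : StFacts) (hRep : StRep) (hScale : StScale) : StMany := by
  intro d W₀ u hW₀ hu P0 hP0 ξ
  obtain ⟨E₁, hMain⟩ := hMain
  obtain ⟨δ', hδ', hPrime⟩ := hPrime
  obtain ⟨C, hC, hDens⟩ := hDens W₀ d.e u hW₀ d.he hu
  have hδ : 0 < min (1 / (C * (E₁ + 1 : ℕ))) (δ' / (E₁ + 1 : ℕ)) := by positivity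
  obtain ⟨κ, hκ, P, hP, hE, hM⟩ := hMain d (E₁ + 1) _ (Nat.le_succ _) hδ
  obtain ⟨w₀, hEv⟩ := (hM.and (hOsc d P hP 321)).and (hFacts d P hP)
  obtain ⟨w, hw0, hw⟩ : ∃ w, w₀ ≤ w ∧ 4 ≤ w := ⟨max w₀ 4, le_max_left _ _, le_max_right _ _⟩
  have hEv1 := (hEv w hw0).and (hScale.2.2.2 d P hP 0 w hw)
  obtain ⟨T₀, hPrime⟩ := hPrime w d.e (by omega) d.he
  obtain ⟨N₀, hDens⟩ := hDens w.factorial (Nat.factorial_pos w)
  obtain ⟨Y, hY⟩ := eventually_atTop.1 hP0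
  obtain ⟨b1, b2, b3, b4⟩ := hP.big
  have hC3 := d.three_le_C
  have hWp := Nat.factorial_pos w
  have he := d.he
  have hc0 := d.h0
  refine ⟨360 + 2 * (68 * P.a ^ 2), interp (M := 2 * d.C * w.factorial) (n := P.E * P.A)
    (κ := κ * d.c0 * (200 * d.C : ℝ) ^ 2 /
      (32 * (P.J : ℝ) ^ 2 * ((d.e * w.factorial : ℕ) : ℝ) ^ 2))
    ?_ (by positivity) (by omega) ?_⟩
  · have h1 : 0 < d.C := by omega
    have h2 : 0 < P.J := by omega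
    positivity
  filter_upwards [hEv1, hScale.2.2.1 P.a Y (by omega), eventually_ge_atTop T₀,
    eventually_ge_atTop N₀, eventually_ge_atTop P.J, eventually_ge_atTop w.factorial,
    ev_log (2 / κ), ev_log 1] with ρ h1 h2 h3 h4 h5 h6 h7 h8
  have hρ : 1 < ρ := by omega
  have q1 : ρ ≤ ρ ^ (P.E * P.A - 8 * P.a) := Nat.le_self_pow (by omega) _
  have q2 : ρ ≤ ρ ^ (P.E * P.A) := Nat.le_self_pow (by omega) _
  have q3 : ρ ≤ ρ ^ P.A := Nat.le_self_pow (by omega) _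
  have q4 : ρ ≤ ρ ^ (8 * P.a) := Nat.le_self_pow (by omega) _
  have q5 : ρ ^ (P.E * P.A - 8 * P.a) ≤ w.factorial * ρ ^ (P.E * P.A - 8 * P.a) :=
    Nat.le_mul_of_pos_left _ hWp
  obtain ⟨b, A, a1, a2, a3, a4⟩ := hDens (ρ ^ (P.E * P.A)) (h4.trans q2)
  obtain ⟨a, Pi, p1, p2, p3, p4, p5⟩ := hPrime (w.factorial * ρ ^ (P.E * P.A - 8 * P.a))
    (ρ ^ (P.E * P.A - 8 * P.a) / P.J) (ρ ^ P.A) (by omega)
    ((Nat.le_div_iff_mul_le (by omega)).2 (by omega)) (by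
      calc 16 * (d.e * w.factorial) * (ρ ^ (P.E * P.A - 8 * P.a) / P.J)
          = w.factorial * (16 * d.e * (ρ ^ (P.E * P.A - 8 * P.a) / P.J)) := by ring
        _ ≤ w.factorial * (P.J * (ρ ^ (P.E * P.A - 8 * P.a) / P.J)) :=
          Nat.mul_le_mul_left _ (Nat.mul_le_mul_right _ hP.hJ)
        _ ≤ _ := Nat.mul_le_mul_left _ (Nat.mul_div_le _ _)) (by omega)
  obtain ⟨S, hS⟩ : ∃ S : Sc, S = ⟨d, P, w, ρ, b, a,
      P0 (Nat.nthRoot (P.a * (Nat.log 2 (Nat.log 2 ρ) + 1)) ρ)⟩ := ⟨_, rfl⟩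
  have hok : S.Ok := hS ▸ ⟨a1, a2, p1, p2, hY _ h2⟩
  have h1' := h1 b a _ (hS ▸ hok)
  have hV : S.Vals A := hS ▸ fun n hn => ⟨(a3 n hn).1, (a3 n hn).2.1, (a3 n hn).2.2.2.1⟩
  have hPi : S.Prs Pi := hS ▸ ⟨p3, p4⟩
  subst hS
  obtain ⟨⟨⟨m1, m2⟩, m3⟩, -, -, -, s1, s2, s3, -, s4, s5⟩ := h1'
  have hf : Fct _ A Pi := m3 A Pi hV hPi
  have hTN : w.factorial * ρ ^ (P.E * P.A - 8 * P.a) ≤ ρ ^ (P.E * P.A) := by
    conv_rhs => rw [← Nat.sub_add_cancel (by omega : 8 * P.a ≤ P.E * P.A), pow_add, mul_comm]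
    exact Nat.mul_le_mul_right _ (h6.trans q4)
  have hE0 : 0 < P.E := by omega
  refine ⟨_, fun z hz => ?_, core hRep hP hok ξ hκ hPi hf h5 ?_ h8 s1 s2 s3 s4
    (fun γ hγ => (s5 γ hγ).2.2.2) (m1 A Pi hV (fun n hn => (a3 n hn).2.2.1) hPi ?_ ?_)
    (m2 A Pi ξ hV hPi)⟩
  · obtain ⟨g1, g2, g3⟩ := good (W₀ := W₀) (u := u) (P0 := P0) rfl hPi hf
      (fun n hn => (a3 n hn).2.2.2) hz
    exact ⟨g1, g2.trans (le_of_eq (by push_cast; rfl)), g3.trans (le_of_eq (by push_cast; rfl))⟩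
  · rw [div_le_iff₀ hκ] at h7
    exact h7.trans (le_of_eq (mul_comm _ _))
  · refine densA hC hE0 (hρ.le.trans q3) ?_ a4
    exact (min_le_left _ _).trans (le_of_eq (by rw [← hE]))
  · refine densP hE0 (hρ.le.trans (q1.trans q5)) hTN (hρ.trans_le q3) ?_ p5
    exact (min_le_right _ _).trans (le_of_eq (by rw [← hE]))

end Pool.Agent.Lib.MP_7d3fda_nt.Q3
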