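import Pool.Agent.Lib.MP_7d3fda_nt.Q3.Dns

open Finset Filter
open scoped Classical NumberTheorySymbols

noncomputable section

namespace Pool.Agent.Lib.MP_7d3fda_nt.Q3

open Pool.Agent.Lib.MP_4b8564_nt Pool.Agent.Lib.MP_4b8564_nt.GT

namespace MassAux

theorem card_le {n y : ℕ} (hy : 2 ≤ y) (hn : 0 < n) (h1 : ∀ p, p.Prime → p ∣ n → y < p)
    (h2 : n ≤ y ^ 32) : n.primeFactors.card ≤ 32 := by
  have h3 : y ^ n.primeFactors.card ≤ ∏ p ∈ n.primeFactors, p :=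
    Finset.pow_card_le_prod _ _ _ fun p hp =>
      (h1 p (Nat.prime_of_mem_primeFactors hp) (Nat.dvd_of_mem_primeFactors hp)).le
  have h4 := Nat.le_of_dvd hn (Nat.prod_primeFactors_dvd n)
  exact (Nat.pow_le_pow_iff_right (by omega)).1 (h3.trans (h4.trans h2))

theorem exists_shift {F : ℕ} (hF : 0 < F) (a₀ : O) (X : ℤ) : ∃ a : O, (F : O) ∣ a - a₀ ∧
    X ≤ a.re ∧ a.re < X + F ∧ X ≤ a.im ∧ a.im < X + F := by
  have h0 : (0 : ℤ) < F := by exact_mod_cast hF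
  refine ⟨⟨X + (a₀.re - X) % F, X + (a₀.im - X) % F⟩, (natCast_dvd_iff F _).2 ⟨?_, ?_⟩,
    ?_, ?_, ?_, ?_⟩
  · simp only [Zsqrtd.re_sub]
    exact ⟨-((a₀.re - X) / F), by have := Int.emod_add_mul_ediv (a₀.re - X) F; linarith⟩
  · simp only [Zsqrtd.im_sub]
    exact ⟨-((a₀.im - X) / F), by have := Int.emod_add_mul_ediv (a₀.im - X) F; linarith⟩
  · have := Int.emod_nonneg (a₀.re - X) h0.ne'; simp only; omega
  · have := Int.emod_lt_of_pos (a₀.re - X) h0; simp only; omega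
  · have := Int.emod_nonneg (a₀.im - X) h0.ne'; simp only; omega
  · have := Int.emod_lt_of_pos (a₀.im - X) h0; simp only; omega

theorem box_bd {F L : ℕ} {a z : O} {X : ℤ} (hz : z ∈ cbx F a L) (hL : (F : ℤ) * L ≤ X)
    (h1 : X ≤ a.re) (h2 : a.re < X + F) (h3 : X ≤ a.im) (h4 : a.im < X + F) :
    X ≤ z.re ∧ z.re ≤ 2 * X ∧ X ≤ z.im ∧ z.im ≤ 2 * X := by
  obtain ⟨h, p, q, rfl⟩ := mem_cbx.1 hz
  have p' : (h.1 : ℤ) + 1 ≤ L := by exact_mod_cast p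
  have q' : (h.2 : ℤ) + 1 ≤ L := by exact_mod_cast q
  have h0 : (0 : ℤ) ≤ F := Int.natCast_nonneg _
  have e1 : (a + (F : O) * em h).re = a.re + F * h.1 := by simp [em]
  have e2 : (a + (F : O) * em h).im = a.im + F * h.2 := by simp [em]
  have m1 := mul_le_mul_of_nonneg_left p' h0
  have m2 := mul_le_mul_of_nonneg_left q' h0
  have m3 : (0 : ℤ) ≤ F * h.1 := by positivity
  have m4 : (0 : ℤ) ≤ F * h.2 := by positivity
  rw [e1, e2]
  refine ⟨by linarith, by linarith, by linarith, by linarith⟩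

/-- the rough points of a box -/
theorem rough_ge (hBrun : StBrun) {w y k F L : ℕ} (a : O) (hy : 1 ≤ y) (hL : 0 < L)
    (hF : ∀ p : ℕ, p.Prime → w < p → ¬p ∣ F) (hk : 8 * ∑ p ∈ Sg.PP w y, rN p ≤ k) :
    (SS w y)⁻¹ - (3 * (1 / 2) ^ k + 16 * (k + 2) * (y : ℝ) ^ (2 * k + 2) / L) ≤
      bav L fun h => if Rough w y (a + (F : O) * emZ h) then 1 else 0 := by
  have hP : ∀ p ∈ Sg.PP w y, p.Prime ∧ w < p ∧ p ≤ y := fun p hp => by
    simp only [Sg.PP, mem_filter, mem_Ioc] at hp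
    exact ⟨hp.2, hp.1⟩
  have e : ∀ p ∈ Sg.PP w y, bav p (fun h : Fin 2 → ℤ =>
      if (p : ℤ) ∣ (a + (F : O) * emZ h).norm then 1 else 0) = rN p := fun p hp =>
    bav_norm_eq (hP p hp).1 (hF p (hP p hp).1 (hP p hp).2.1) a
  have h := hBrun (Fin 2) (Sg.PP w y) (fun p h => (p : ℤ) ∣ (a + (F : O) * emZ h).norm)
    (fun _ => 1) 1 y k L 1
    (fun p hp => ⟨(hP p hp).1, (hP p hp).2.2, (hP p hp).1.not_dvd_one⟩) one_pos hy hL
    (fun p _ x x' hx => by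
      have : (p : ℤ) ∣ (a + (F : O) * emZ x).norm - (a + (F : O) * emZ x').norm := by
        refine norm_congr ((natCast_dvd_iff p _).2 ⟨?_, ?_⟩)
        · simpa [emZ, ← mul_sub] using (hx 0).mul_left (F : ℤ)
        · simpa [emZ, ← mul_sub] using (hx 1).mul_left (F : ℤ)
      have := Int.dvd_iff_dvd_of_dvd_sub this
      by_cases c : (p : ℤ) ∣ (a + (F : O) * emZ x).norm
      · simp only [if_pos c, if_pos (this.1 c)]
      · simp only [if_neg c, if_neg (mt this.2 c)])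
    (fun _ _ _ => rfl) (fun _ => by simp)
    (by refine le_trans (le_of_eq ?_) hk; congr 1; exact sum_congr rfl fun p hp => by
          convert e p hp)
  have e2 : (∏ p ∈ Sg.PP w y, (1 - rN p)) = (SS w y)⁻¹ := by
    rw [SS, prod_inv_distrib, inv_inv]
  rw [bav_const one_pos, prod_congr rfl (g := fun p => 1 - rN p)
    (fun p hp => by rw [← e p hp]; congr!), e2] at h
  have h2 := (abs_le.1 h).1
  simp only [Fintype.card_fin, mul_one, one_mul, Nat.cast_ofNat, Nat.cast_one] at h2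
  have e4 : 8 * ((k : ℝ) + 2) * 2 * (y : ℝ) ^ (2 * k + 2) / L =
      16 * (k + 2) * (y : ℝ) ^ (2 * k + 2) / L := by ring
  rw [e4, neg_le_sub_iff_le_add, ← sub_le_iff_le_add] at h2
  refine h2.trans (le_of_eq ?_)
  congr! 3

/-- good points of the box give free factors -/
theorem fr_of {S : Sc} (ho : S.Ok) {γ z : O} (hγ : γ ∈ S.P0)
    (hc : (S.F : O) ∣ γ * z * S.w0 - S.b) (hr : Rough S.w S.y z)
    (hs : ¬∃ p : ℕ, p.Prime ∧ S.y < p ∧ (p : ℤ) ^ 2 ∣ z.norm)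
    (hp : ∀ p ∈ γ.norm.natAbs.primeFactors, ¬(p : ℤ) ∣ z.norm)
    (h1 : (S.G : ℤ) ^ 2 ≤ (γ * z).norm) (h2 : (γ * z).norm ≤ 64 * (S.G : ℤ) ^ 2) :
    S.Fr (γ * z) := by
  have hC : (3 : ℤ) ≤ S.d.C := by exact_mod_cast S.d.three_le_C
  have hG : (0 : ℤ) ≤ (S.G : ℤ) ^ 2 := by positivity
  have hC2 : (9 : ℤ) ≤ (S.d.C : ℤ) ^ 2 := by nlinarith
  refine ⟨hc, fun p hp' hd => ?_, ?_, by nlinarith, by nlinarith⟩
  · have hq : p.Prime ∧ p ≤ S.y := by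
      simp only [Sg.PP, mem_filter, mem_Ioc] at hp'
      exact ⟨hp'.2, hp'.1.2⟩
    rw [Zsqrtd.norm_mul] at hd
    rcases (Nat.prime_iff_prime_int.1 hq.1).dvd_or_dvd hd with h | h
    · exact absurd (ho.po.pr γ hγ p hq.1 h) (by omega)
    · exact hr p hp' h
  · have h0 := (ho.po.sqf γ hγ).ne_zero
    rw [Zsqrtd.norm_mul, Int.natAbs_mul, Nat.squarefree_mul]
    · refine ⟨ho.po.sqf γ hγ, Nat.squarefree_iff_prime_squarefree.2 fun p hq hd => ?_⟩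
      have hd2 : (p : ℤ) ^ 2 ∣ z.norm := by
        rw [← Int.natCast_dvd] at hd
        simpa [sq] using hd
      have hd1 : (p : ℤ) ∣ z.norm := (dvd_pow_self _ two_ne_zero).trans hd2
      by_cases c1 : S.y < p
      · exact hs ⟨p, hq, c1, hd2⟩
      by_cases c2 : S.w < p
      · exact hr p (by simp only [Sg.PP, mem_filter, mem_Ioc]; exact ⟨⟨c2, by omega⟩, hq⟩) hd1
      have hF : p ∣ S.F := S.dvd_F hq.pos (by omega)
      have h3 := (Int.natCast_dvd_natCast.2 hF).trans (norm_congr hc)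
      have h4 : (p : ℤ) ∣ (γ * z * S.w0).norm := by
        rw [Zsqrtd.norm_mul, Zsqrtd.norm_mul]
        exact (hd1.mul_left _).mul_right _
      have h5 : (p : ℤ) ∣ (S.b : O).norm := (Int.dvd_iff_dvd_of_dvd_sub h3).1 h4
      rw [Zsqrtd.norm_natCast] at h5
      have h6 : p ∣ S.b := by
        have : p ∣ S.b * S.b := by exact_mod_cast h5
        exact (hq.dvd_mul.1 this).elim id id
      exact hq.not_dvd_one (ho.hbc ▸ Nat.dvd_gcd h6 hF)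
    · refine Nat.coprime_of_dvd fun p hq d1 d2 => hp p (Nat.mem_primeFactors.2 ⟨hq, d1, h0⟩) ?_
      exact Int.natCast_dvd.2 d2

theorem sqrt_bd {n : ℕ} (hn : 0 < n) : ∃ s, 0 < s ∧ s * s ≤ n ∧ n ≤ 4 * (s * s) ∧ s ≤ n := by
  have s0 := Nat.sqrt_pos.2 hn
  have := Nat.lt_succ_sqrt n
  simp only [Nat.succ_eq_add_one] at this
  exact ⟨_, s0, Nat.sqrt_le n, by nlinarith, Nat.sqrt_le_self n⟩

theorem div_bd {G s ρ : ℕ} (j : ℕ) (s0 : 0 < s) (hρ : 0 < ρ) (h : s ≤ ρ) (hG : ρ ^ (j + 1) ≤ G) :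
    ∃ X, s * X ≤ G ∧ ρ ^ j ≤ X ∧ 0 < X ∧ G ≤ 2 * (s * X) ∧ X ≤ G := by
  have X0 : ρ ^ j ≤ G / s := by
    rw [Nat.le_div_iff_mul_le s0]
    exact (Nat.mul_le_mul_left _ h).trans (by rwa [← pow_succ])
  have Xp : 0 < G / s := lt_of_lt_of_le (by positivity) X0
  have := Nat.lt_mul_div_succ G s0
  exact ⟨G / s, Nat.mul_div_le _ _, X0, Xp, by nlinarith, Nat.div_le_self _ _⟩

theorem norm_bd {X : ℤ} {z : O} (hX : 0 ≤ X)
    (h : X ≤ z.re ∧ z.re ≤ 2 * X ∧ X ≤ z.im ∧ z.im ≤ 2 * X) :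
    4 * X ^ 2 ≤ z.norm ∧ z.norm ≤ 16 * X ^ 2 := by
  obtain ⟨b1, b2, b3, b4⟩ := h
  rw [norm_eq]
  constructor <;> nlinarith

/-- the count for one known factor -/
theorem one (hBrun : StBrun) {Cs : ℝ} (hCs : 0 ≤ Cs)
    (hSqf : ∀ (X y : ℕ) (Z : Finset O), 1 ≤ X → 3 ≤ y →
      (∀ γ ∈ Z, γ ≠ 0 ∧ |γ.re| ≤ X ∧ |γ.im| ≤ X ∧
        ∃ p : ℕ, p.Prime ∧ y < p ∧ (p : ℤ) ^ 2 ∣ γ.norm) → (Z.card : ℝ) ≤ Cs * (X : ℝ) ^ 2 / y)
    {S : Sc} (ho : S.Ok) (he : S.d.e ≤ S.w) (hy : 3 ≤ S.y) (hyk : S.y ^ S.k ≤ S.ρ)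
    (hwy : S.w ≤ S.y) (hk32 : 32 ≤ S.k) (hk : 8 * ∑ p ∈ Sg.PP S.w S.y, rN p ≤ S.k) (hFρ : 2 * S.F ≤ S.ρ)
    (hG : S.ρ ^ 9 ≤ S.G) (hS : 0 < SS S.w S.y)
    (herr : 3 * (1 / 2 : ℝ) ^ S.k + 48 / S.ρ + (16 * Cs * (S.F : ℝ) ^ 2 + 128) / S.y ≤
      (SS S.w S.y)⁻¹ / 2) {γ : O} (hγ : γ ∈ S.P0) :
    (S.G : ℝ) ^ 2 / (32 * (S.F : ℝ) ^ 2 * SS S.w S.y) * (1 / (γ.norm : ℝ)) ≤
      ((cbx 1 ⟨-(20 * S.d.C * S.G : ℕ), -(20 * S.d.C * S.G : ℕ)⟩
        (40 * S.d.C * S.G + 1)).filter fun z => S.Fr (γ * z)).card := by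
  have hF := S.F_pos
  obtain ⟨n, hn⟩ : ∃ n : ℕ, γ.norm = n := ⟨_, (Int.natAbs_of_nonneg (norm_nonneg' γ)).symm⟩
  have hna : γ.norm.natAbs = n := by rw [hn]; simp
  have hn0 : 0 < n := by
    have := (ho.po.sqf γ hγ).ne_zero
    omega
  have hn1 : n ≤ S.y ^ 32 := by have := ho.po.le γ hγ; rw [hn] at this; exact_mod_cast this
  have hpr : ∀ p : ℕ, p.Prime → p ∣ n → S.y < p := fun p hp hd =>
    ho.po.pr γ hγ p hp (hn ▸ Int.natCast_dvd_natCast.2 hd)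
  have hn2 : n ≤ S.ρ := hn1.trans ((Nat.pow_le_pow_right (by omega) hk32).trans hyk)
  have hyρ : S.y ^ 2 ≤ S.ρ := (Nat.pow_le_pow_right (by omega) (by omega)).trans hyk
  have hkρ : S.k ≤ S.ρ :=
    (Nat.lt_pow_self (by omega : 1 < S.y)).le.trans hyk
  have hnF : ∀ p : ℕ, p.Prime → p ∣ n → ¬p ∣ S.F := fun p hp hd =>
    S.not_dvd_F he hp (hwy.trans_lt (hpr p hp hd))
  have hcop : IsCoprime (γ * S.w0).norm (S.F : ℤ) := by
    rw [Zsqrtd.norm_mul, hn]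
    exact (Nat.isCoprime_iff_coprime.2 (Nat.coprime_of_dvd hnF)).mul_left ho.hw
  obtain ⟨a₀, ha₀⟩ := exists_class hcop (S.b : O)
  obtain ⟨s, s0, s1, s2, s3⟩ := sqrt_bd hn0
  have ρ2 : 2 ≤ S.ρ := by omega
  obtain ⟨X, X1, X0, Xp, X2, X3⟩ := div_bd 8 s0 (by omega) (s3.trans hn2) hG
  obtain ⟨L, L1, L0, Lp, L2, -⟩ := div_bd 7 hF (by omega : 0 < S.ρ) (by omega) X0
  obtain ⟨a, c0, c1, c2, c3, c4⟩ := exists_shift hF a₀ X
  have bd : ∀ z ∈ cbx S.F a L, (X : ℤ) ≤ z.re ∧ z.re ≤ 2 * X ∧ (X : ℤ) ≤ z.im ∧ z.im ≤ 2 * X :=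
    fun z hz => box_bd hz (by exact_mod_cast L1) c1 c2 c3 c4
  have Xz : (1 : ℤ) ≤ X := by exact_mod_cast Xp
  have Lr : (0 : ℝ) < L := by exact_mod_cast Lp
  have yr : (0 : ℝ) < S.y := by exact_mod_cast (by omega : 0 < S.y)
  have ρr : (0 : ℝ) < S.ρ := by exact_mod_cast (by omega : 0 < S.ρ)
  have Fr : (0 : ℝ) < S.F := by exact_mod_cast hF
  have r1 := rough_ge hBrun (k := S.k) a (by omega : 1 ≤ S.y) Lp
    (fun p hp hw => S.not_dvd_F he hp hw) hk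
  rw [← sum_cbx_bav hF a L fun z => if Rough S.w S.y z then 1 else 0, le_div_iff₀ (by positivity)]
    at r1
  have r2 : 16 * ((S.k : ℝ) + 2) * (S.y : ℝ) ^ (2 * S.k + 2) / L ≤ 48 / S.ρ := by
    rw [div_le_div_iff₀ Lr ρr]
    have : 16 * (S.k + 2) * S.y ^ (2 * S.k + 2) * S.ρ ≤ 48 * L := by
      have e : S.y ^ (2 * S.k + 2) = S.y ^ S.k * S.y ^ S.k * S.y ^ 2 := by ring
      calc 16 * (S.k + 2) * S.y ^ (2 * S.k + 2) * S.ρ
          ≤ 16 * (3 * S.ρ) * (S.ρ * S.ρ * S.ρ) * S.ρ := by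
            rw [e]; gcongr; omega
        _ = 48 * S.ρ ^ 5 := by ring
        _ ≤ 48 * L := Nat.mul_le_mul_left _
            ((Nat.pow_le_pow_right (by omega) (by omega)).trans L0)
    exact_mod_cast this
  have r3 : ∑ z ∈ cbx S.F a L, (if ∃ p : ℕ, p.Prime ∧ S.y < p ∧ (p : ℤ) ^ 2 ∣ z.norm
      then (1 : ℝ) else 0) ≤ 16 * Cs * (S.F : ℝ) ^ 2 / S.y * (L : ℝ) ^ 2 := by
    rw [sum_boole]
    refine (hSqf (2 * X) S.y _ (by omega) hy fun z hz => ?_).trans ?_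
    · obtain ⟨p, q⟩ := mem_filter.1 hz
      obtain ⟨b1, b2, b3, b4⟩ := bd z p
      refine ⟨fun e => ?_, ?_, ?_, q⟩
      · rw [e] at b1; simp only [Zsqrtd.re_zero] at b1; omega
      · rw [abs_of_nonneg (by omega)]; push_cast; exact b2
      · rw [abs_of_nonneg (by omega)]; push_cast; exact b4
    · have : ((2 * X : ℕ) : ℝ) ≤ 4 * S.F * L := by
        have : 2 * X ≤ 4 * S.F * L := by rw [mul_assoc]; omega
        exact_mod_cast this
      calc Cs * ((2 * X : ℕ) : ℝ) ^ 2 / S.y ≤ Cs * (4 * S.F * L) ^ 2 / S.y := by gcongr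
        _ = _ := by ring
  have r4 : ∑ p ∈ n.primeFactors, ∑ z ∈ cbx S.F a L, (if (p : ℤ) ∣ z.norm then (1 : ℝ) else 0) ≤
      128 / S.y * (L : ℝ) ^ 2 := by
    have hc : (n.primeFactors.card : ℝ) ≤ 32 := by
      exact_mod_cast card_le (by omega) hn0 hpr hn1
    refine (sum_le_card_nsmul _ _ (4 / S.y * (L : ℝ) ^ 2) fun p hp => ?_).trans ?_
    · have hp1 := Nat.prime_of_mem_primeFactors hp
      have hp2 := Nat.dvd_of_mem_primeFactors hp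
      have := bav_norm Lp hp1 (hnF p hp1 hp2) a
      rw [← sum_cbx_bav hF a L fun z => if (p : ℤ) ∣ z.norm then 1 else 0,
        div_le_iff₀ (by positivity)] at this
      refine this.trans (mul_le_mul_of_nonneg_right ?_ (by positivity))
      have a1 : (S.y : ℝ) ≤ p := by exact_mod_cast (hpr p hp1 hp2).le
      have a2 : (S.y : ℝ) ≤ L := by
        exact_mod_cast ((Nat.le_self_pow two_ne_zero _).trans hyρ).trans
          ((Nat.le_self_pow (by omega : 7 ≠ 0) S.ρ).trans L0)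
      have a3 : (2 : ℝ) / p ≤ 2 / S.y := by gcongr
      have a4 : (2 : ℝ) / L ≤ 2 / S.y := by gcongr
      have a5 : (4 : ℝ) / S.y = 2 / S.y + 2 / S.y := by ring
      linarith
    · rw [nsmul_eq_mul]
      calc (n.primeFactors.card : ℝ) * (4 / S.y * (L : ℝ) ^ 2) ≤ 32 * (4 / S.y * (L : ℝ) ^ 2) := by
            gcongr
        _ = _ := by ring
  rw [sum_comm] at r4
  have r5 : ∑ z ∈ cbx S.F a L, ((if Rough S.w S.y z then (1 : ℝ) else 0) -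
      (if ∃ p : ℕ, p.Prime ∧ S.y < p ∧ (p : ℤ) ^ 2 ∣ z.norm then (1 : ℝ) else 0) -
      ∑ p ∈ n.primeFactors, (if (p : ℤ) ∣ z.norm then (1 : ℝ) else 0)) ≤
      (((cbx S.F a L).filter fun z => S.Fr (γ * z)).card : ℝ) := by
    rw [← sum_boole]
    refine sum_le_sum fun z hz => ?_
    have n1 : (0 : ℝ) ≤ ∑ p ∈ n.primeFactors, (if (p : ℤ) ∣ z.norm then (1 : ℝ) else 0) :=
      sum_nonneg fun p _ => by split_ifs <;> norm_num
    by_cases f : S.Fr (γ * z)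
    · rw [if_pos f]
      split_ifs <;> linarith
    rw [if_neg f]
    by_cases f1 : Rough S.w S.y z
    swap
    · rw [if_neg f1]
      split_ifs <;> linarith
    by_cases f2 : ∃ p : ℕ, p.Prime ∧ S.y < p ∧ (p : ℤ) ^ 2 ∣ z.norm
    · rw [if_pos f1, if_pos f2]; linarith
    by_cases f3 : ∃ p ∈ n.primeFactors, (p : ℤ) ∣ z.norm
    · obtain ⟨p, hp, hd⟩ := f3
      have := single_le_sum (f := fun p : ℕ => if (p : ℤ) ∣ z.norm then (1 : ℝ) else 0)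
        (fun p _ => by split_ifs <;> norm_num) hp
      rw [if_pos hd] at this
      rw [if_pos f1, if_neg f2]; linarith
    refine absurd (fr_of ho hγ ?_ f1 f2 (fun p hp hd => f3 ⟨p, hna ▸ hp, hd⟩) ?_ ?_) f
    · obtain ⟨h, -, -, rfl⟩ := mem_cbx.1 hz
      have : γ * (a + (S.F : O) * em h) * S.w0 - S.b = (a₀ * (γ * S.w0) - S.b) +
          (a - a₀) * (γ * S.w0) + (S.F : O) * (em h * (γ * S.w0)) := by ring
      rw [this]
      exact dvd_add (dvd_add ha₀ (c0.mul_right _)) (dvd_mul_right _ _)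
    · have t1 := (norm_bd (Int.natCast_nonneg X) (bd z hz)).1
      have t2 : (S.G : ℤ) ≤ 2 * (s * X) := by exact_mod_cast X2
      have t3 : (s : ℤ) * s ≤ n := by exact_mod_cast s1
      rw [Zsqrtd.norm_mul, hn]
      calc (S.G : ℤ) ^ 2 ≤ (2 * (s * X)) ^ 2 := by gcongr
        _ = (s * s) * (4 * (X : ℤ) ^ 2) := by ring
        _ ≤ n * z.norm := by gcongr
    · have t1 := (norm_bd (Int.natCast_nonneg X) (bd z hz)).2
      have t2 : (s : ℤ) * X ≤ S.G := by exact_mod_cast X1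
      have t3 : (n : ℤ) ≤ 4 * (s * s) := by exact_mod_cast s2
      rw [Zsqrtd.norm_mul, hn]
      calc (n : ℤ) * z.norm ≤ (4 * (s * s)) * (16 * (X : ℤ) ^ 2) :=
            mul_le_mul t3 t1 (norm_nonneg' z) (by positivity)
        _ = 64 * ((s : ℤ) * X) ^ 2 := by ring
        _ ≤ 64 * (S.G : ℤ) ^ 2 := by gcongr
  rw [sum_sub_distrib, sum_sub_distrib] at r5
  have r6 : (((cbx S.F a L).filter fun z => S.Fr (γ * z)).card : ℝ) ≤
      ((cbx 1 ⟨-(20 * S.d.C * S.G : ℕ), -(20 * S.d.C * S.G : ℕ)⟩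
        (40 * S.d.C * S.G + 1)).filter fun z => S.Fr (γ * z)).card := by
    refine Nat.cast_le.2 (card_le_card (filter_subset_filter _ fun z hz => ?_))
    obtain ⟨b1, b2, b3, b4⟩ := bd z hz
    have t1 : X ≤ S.d.C * S.G :=
      X3.trans (Nat.le_mul_of_pos_left _ (by have := S.d.three_le_C; omega))
    have t2 : 20 * S.d.C * S.G = 20 * (S.d.C * S.G) := by ring
    have t3 : 40 * S.d.C * S.G = 40 * (S.d.C * S.G) := by ring
    rw [t2, t3]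
    generalize S.d.C * S.G = Y at *
    refine mem_cbx.2 ⟨((z.re + (20 * Y : ℕ)).toNat, (z.im + (20 * Y : ℕ)).toNat),
      by simp only; omega, by simp only; omega, ?_⟩
    ext
    · simp only [em, Nat.cast_one, one_mul, Zsqrtd.re_add]; omega
    · simp only [em, Nat.cast_one, one_mul, Zsqrtd.im_add]; omega
  have r7 : (S.G : ℝ) ^ 2 / (32 * (S.F : ℝ) ^ 2 * SS S.w S.y) * (1 / (γ.norm : ℝ)) ≤
      (SS S.w S.y)⁻¹ / 2 * (L : ℝ) ^ 2 := by
    have nr : (0 : ℝ) < n := by exact_mod_cast hn0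
    have t : S.G ^ 2 ≤ 16 * S.F ^ 2 * n * L ^ 2 :=
      calc S.G ^ 2 ≤ (2 * (s * (2 * (S.F * L)))) ^ 2 :=
            Nat.pow_le_pow_left (X2.trans (by gcongr)) 2
        _ = 16 * S.F ^ 2 * (s * s) * L ^ 2 := by ring
        _ ≤ _ := by gcongr
    have t' : (S.G : ℝ) ^ 2 ≤ 16 * (S.F : ℝ) ^ 2 * n * (L : ℝ) ^ 2 := by exact_mod_cast t
    rw [hn, Int.cast_natCast]
    calc (S.G : ℝ) ^ 2 / (32 * (S.F : ℝ) ^ 2 * SS S.w S.y) * (1 / (n : ℝ))
        ≤ 16 * (S.F : ℝ) ^ 2 * n * (L : ℝ) ^ 2 / (32 * (S.F : ℝ) ^ 2 * SS S.w S.y) *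
          (1 / (n : ℝ)) := by gcongr
      _ = _ := by field_simp; ring
  have r8 := mul_le_mul_of_nonneg_right herr (by positivity : (0 : ℝ) ≤ (L : ℝ) ^ 2)
  have r9 := mul_le_mul_of_nonneg_right r2 (by positivity : (0 : ℝ) ≤ (L : ℝ) ^ 2)
  rw [add_div] at r8
  linarith

theorem card_Th (S : Sc) : (S.Th.card : ℝ) = ∑ γ ∈ S.P0,
    (((cbx 1 ⟨-(20 * S.d.C * S.G : ℕ), -(20 * S.d.C * S.G : ℕ)⟩
      (40 * S.d.C * S.G + 1)).filter fun z => S.Fr (γ * z)).card : ℝ) := by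
  rw [Sc.Th, ← sum_boole, sum_product]
  exact sum_congr rfl fun γ _ => by rw [sum_boole]

theorem err_le {l y ρ s c K : ℝ} {a : ℕ} (hl : 128 * c + 1024 ≤ l) (hc : 0 ≤ c) (ha : 41 ≤ a)
    (hy : l ^ 41 ≤ y) (hρ : y ≤ ρ) (hs : 0 < s) (hs' : s ≤ l ^ 40) (hK : l ^ a ≤ K) :
    3 * K⁻¹ + 48 / ρ + (16 * c + 128) / y ≤ s⁻¹ / 2 := by
  have l1 : 1 ≤ l := by linarith
  have l0 : 0 < l ^ 41 := by positivity
  have h1 : K⁻¹ ≤ (l ^ 41)⁻¹ := inv_anti₀ l0 ((pow_le_pow_right₀ l1 ha).trans hK)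
  have h2 : 48 / ρ ≤ 48 / l ^ 41 := by gcongr; exact hy.trans hρ
  have h3 : (16 * c + 128) / y ≤ (16 * c + 128) / l ^ 41 := by gcongr
  have h4 : (l ^ 40)⁻¹ ≤ s⁻¹ := inv_anti₀ hs hs'
  have h5 : (16 * c + 179) / l ^ 41 ≤ (l ^ 40)⁻¹ / 2 := by
    rw [div_le_iff₀ l0, show (l ^ 40)⁻¹ / 2 * l ^ 41 = l / 2 by field_simp]
    linarith
  have h6 : 3 * (l ^ 41)⁻¹ + 48 / l ^ 41 + (16 * c + 128) / l ^ 41 = (16 * c + 179) / l ^ 41 := by
    ring
  linarith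

end MassAux

open MassAux in
theorem stMass (hAvg : StAvg) (hBrun : StBrun) (hSqf : StSqf) (hScale : StScale) : StMass := by
  obtain ⟨Cs, hCs⟩ := hSqf
  obtain ⟨s1, s2, -, s4⟩ := hScale
  intro d
  have dC : (0 : ℝ) < d.C := by exact_mod_cast (by have := d.three_le_C; omega : 0 < d.C)
  refine ⟨32 * (200 * d.C) ^ 2, by positivity, fun P hP => ?_⟩
  have e1 : Ev d P _ := ⟨4, fun w hw => s4 d P hP 41 w hw⟩
  have e2 := Ev.of_eventually (d := d) (P := P) d.e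
    (Θ := fun w ρ => ((2 * (d.e * w.factorial) : ℕ) : ℝ) ≤ ρ ∧
      128 * (|Cs| * ((d.e * w.factorial : ℕ) : ℝ) ^ 2) + 1024 + w ≤ Real.log ρ)
    fun w _ => (ev_const _).and (ev_log _)
  refine (((hAvg d P hP).and e1).and e2).mono ?_
  rintro S rfl rfl ho ⟨⟨hA, k1, -, k3, k4, k5, -, k7, -⟩, he, g1, g2⟩
  change 128 * (|Cs| * (S.F : ℝ) ^ 2) + 1024 + S.w ≤ _ at g2
  have c0 : 0 ≤ |Cs| * (S.F : ℝ) ^ 2 := by positivity
  have w0 : (0 : ℝ) ≤ S.w := Nat.cast_nonneg _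
  have l1 : 2 ≤ Real.log S.ρ := by linarith
  have l2 : Real.log S.ρ ≤ S.y := (le_self_pow₀ (by linarith) (by omega)).trans k3
  have hy : 3 ≤ S.y := by exact_mod_cast (by linarith : (3 : ℝ) ≤ S.y)
  have hwy : S.w ≤ S.y := by exact_mod_cast (by linarith : (S.w : ℝ) ≤ S.y)
  obtain ⟨b1, -, -, -⟩ := hP.big
  have hk : S.P.a ≤ S.k := Nat.le_mul_of_pos_right _ (by omega)
  have hyρ : S.y ≤ S.ρ := (Nat.le_self_pow (by omega) _).trans k1
  have hFρ : 2 * S.F ≤ S.ρ := by exact_mod_cast g1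
  have hσ : 0 < ∑ γ ∈ S.P0, 1 / (γ.norm : ℝ) := S.d.h0.trans_le ho.po.low
  have Fr : (0 : ℝ) < S.F := by exact_mod_cast S.F_pos
  have Gr : (0 : ℝ) < S.G := by
    have : 0 < S.G := pow_pos (by omega) _
    exact_mod_cast this
  have S0 : 0 < SS S.w S.y := by linarith
  constructor
  · have h8 : 8 * ∑ p ∈ Sg.PP S.w S.y, rN p ≤ S.k := by
      have t1 : ∑ p ∈ Sg.PP S.w S.y, rN p ≤ ∑ p ∈ Sg.PP S.w S.y, 2 * (1 / (p : ℝ)) :=
        sum_le_sum fun p hp => by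
          rw [mul_one_div]; exact (s1 p (mem_filter.1 hp).2).2
      have t2 : ∑ p ∈ Sg.PP S.w S.y, 1 / (p : ℝ) ≤ ∑ p ∈ Sg.PP 0 S.y, 1 / (p : ℝ) :=
        sum_le_sum_of_subset_of_nonneg
          (filter_subset_filter _ (Ioc_subset_Ioc_left (Nat.zero_le _))) fun _ _ _ => by positivity
      have t3 : 80 * (Nat.log 2 (Nat.log 2 S.y) + 1) ≤ S.k :=
        Nat.mul_le_mul (by omega)
          (Nat.succ_le_succ (Nat.log_mono_right (Nat.log_mono_right hyρ)))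
      have t4 : (80 : ℝ) * (Nat.log 2 (Nat.log 2 S.y) + 1 : ℕ) ≤ S.k := by exact_mod_cast t3
      rw [← mul_sum] at t1
      linarith [s2 S.y]
    have herr := err_le (l := Real.log S.ρ) (c := |Cs| * (S.F : ℝ) ^ 2) (ρ := S.ρ) (a := S.P.a)
      (by linarith) c0 (by omega) k3 (by exact_mod_cast hyρ) S0 k5 k7
    rw [← inv_pow, ← one_div (2 : ℝ), ← mul_assoc] at herr
    have h9 := sum_le_sum fun γ (hγ : γ ∈ S.P0) => one hBrun (abs_nonneg Cs)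
      (fun X y Z a b c => (hCs X y Z a b c).trans (by gcongr; exact le_abs_self _)) ho he hy k1
      hwy (by omega) h8 hFρ (Nat.pow_le_pow_right (by omega) (by omega)) S0 herr hγ
    rw [← card_Th, ← mul_sum] at h9
    have m0 : 0 ≤ S.mu := by unfold Sc.mu; positivity
    refine le_trans (le_of_eq ?_) (mul_le_mul_of_nonneg_left (mul_le_mul_of_nonneg_left h9 m0)
      (by positivity))
    unfold Sc.mu
    field_simp
  · have := (hA (fun _ _ => 1) (fun _ => 1) (fun _ _ => zero_le_one) fun _ => zero_le_one).2 1 1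
      one_pos (by omega) (fun _ _ => le_rfl) fun γ _ a _ => ⟨fun _ _ _ => rfl, by
        rw [filter_false_of_mem fun p hp => (mem_filter.1 hp).2.not_dvd_one, prod_empty, one_mul,
          ← bav_const (V := Fin 2) one_pos (1 : ℝ)]
        refine (bav_mono fun h => ?_).trans (le_of_eq (bav_const one_pos _))
        rw [bav_const one_pos]
        split_ifs <;> norm_num⟩
    rw [sum_const, nsmul_eq_mul, mul_one, Sc.pav, div_self hσ.ne'] at this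
    have t : 1 / Real.log S.ρ ^ 300 ≤ 1 / 2 :=
      one_div_le_one_div_of_le two_pos (l1.trans (le_self_pow₀ (by linarith) (by omega)))
    linarith

end Pool.Agent.Lib.MP_7d3fda_nt.Q3
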