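import Pool.Agent.Lib.MP_7d3fda_nt.Q3.Dns

open Finset Filter
open scoped Classical NumberTheorySymbols

noncomputable section

namespace Pool.Agent.Lib.MP_7d3fda_nt.Q3

open Pool.Agent.Lib.MP_4b8564_nt Pool.Agent.Lib.MP_4b8564_nt.GT
open Pool.Agent.Lib.MP_0a3467_an.Cv (Low)
open Pool.Agent.Lib.MP_0a3467_an

/-! The structured dense model. -/

namespace ModelAux

theorem av_eq (N : ℕ) (Φ : ℤ → ℝ) :
    av (fun x : ↥(Ico (N : ℤ) (2 * N)) => Φ x) = avI N Φ := by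
  unfold av avI
  rw [Finset.sum_coe_sort (Ico (N : ℤ) (2 * N)) Φ, Fintype.card_coe, Int.card_Ico]
  have : (2 * (N : ℤ) - N).toNat = N := by omega
  rw [this]

theorem clip_mem (t : ℝ) : 0 ≤ clip t ∧ clip t ≤ 1 :=
  ⟨le_max_left _ _, max_le zero_le_one (min_le_left _ _)⟩

theorem clip_cont : Continuous clip := by
  unfold clip
  fun_prop

theorem chi_abs (e : ℕ) (x : ℤ) : |chi e x| ≤ 1 := by
  unfold chi
  split_ifs <;> simp

theorem tst_abs {Θ : Type} {s : ℕ} {T : Finset Θ} {μ : Θ → ℝ} {b : Θ → Fin s → ℤ} {H : ℕ} {M : ℝ}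
    {ψ : ℤ → ℝ} (h0 : ∀ θ ∈ T, 0 ≤ μ θ) (h1 : ∑ θ ∈ T, μ θ ≤ 1) (h : Tst T μ b H M ψ) (x : ℤ) :
    |ψ x| ≤ 1 := by
  obtain ⟨D, hD, rfl⟩ := h
  refine (abs_sum_le_sum_abs _ _).trans (le_trans (sum_le_sum fun θ hθ => ?_) h1)
  rw [abs_mul, abs_of_nonneg (h0 θ hθ)]
  exact mul_le_of_le_one_right (h0 θ hθ) ((hD θ hθ).1 x)

theorem avI_congr {N : ℕ} {Φ Ψ : ℤ → ℝ} (h : ∀ x, (N : ℤ) ≤ x → x < 2 * N → Φ x = Ψ x) :
    avI N Φ = avI N Ψ := by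
  unfold avI
  rw [sum_congr rfl fun x hx => h x (mem_Ico.1 hx).1 (mem_Ico.1 hx).2]

theorem avI_add (N : ℕ) (Φ Ψ : ℤ → ℝ) : avI N (fun x => Φ x + Ψ x) = avI N Φ + avI N Ψ := by
  unfold avI
  rw [sum_add_distrib, add_div]

theorem avI_sum {Θ : Type} (N : ℕ) (T : Finset Θ) (μ : Θ → ℝ) (Φ : Θ → ℤ → ℝ) :
    avI N (fun x => ∑ θ ∈ T, μ θ * Φ θ x) = ∑ θ ∈ T, μ θ * avI N (Φ θ) := by
  unfold avI
  rw [sum_comm, sum_div]
  exact sum_congr rfl fun θ _ => by rw [← mul_sum, mul_div_assoc]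

theorem low_pow {s : ℕ} {H : Type} {B : Set H} {M : ℝ} {G : (Fin s → H) → ℝ} (h : Low B M G)
    (j : ℕ) : Low B (M ^ j) fun x => G x ^ j := by
  induction j with
  | zero => simpa using Cv.Low.const (s := s) (B := B) (M := 1) (c := 1) (by simp)
  | succ j ih => simpa only [pow_succ] using ih.mul h

theorem low_poly {s : ℕ} {H : Type} {B : Set H} {M : ℝ} {G : (Fin s → H) → ℝ} (h : Low B M G)
    (P : Polynomial ℝ) :
    Low B (∑ j ∈ range (P.natDegree + 1), |P.coeff j| * M ^ j) fun x => P.eval (G x) := by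
  simp only [Polynomial.eval_eq_sum_range]
  exact Cv.Low.sum _ fun j _ => (low_pow h j).smul _

theorem chi_low {s Q D e : ℕ} (he : e ∣ Q) {M : ℝ} (hM : 1 ≤ M) :
    LowDir (fun _ : Fin s => (Q : ℤ)) D M (chi e) := by
  intro x
  refine (Cv.Low.const (c := chi e x) ((chi_abs e x).trans hM)).congr fun t _ => ?_
  have h : (e : ℤ) ∣ ∑ r, (Q : ℤ) * t r :=
    dvd_sum fun r _ => (Int.natCast_dvd_natCast.2 he).mul_right _
  unfold chi
  exact if_congr (dvd_add_left h).symm rfl rfl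

theorem reach_mono {Θ : Type} {s s' : ℕ} {κ κ' : ℝ} {T : Finset Θ} {μ : Θ → ℝ}
    {b : Θ → Fin s → ℤ} {N H D Q lm bm Bm : ℕ} (h : Reach s' κ T μ b N H D Q lm bm Bm)
    (hκ : κ ≤ κ') : Reach s' κ' T μ b N H D Q lm bm Bm :=
  ⟨h.m0, h.m1, h.sz, h.bm0, h.D0, h.Q0,
    h.lm0.trans (mul_le_mul_of_nonneg_right hκ (Nat.cast_nonneg _)), h.h1, h.h2, h.h3,
    fun r r' => (h.gc r r').trans hκ⟩

theorem reach_pos {Θ : Type} {s s' : ℕ} {κ : ℝ} {T : Finset Θ} {μ : Θ → ℝ}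
    {b : Θ → Fin s → ℤ} {N H D Q lm bm Bm : ℕ} (h : Reach s' κ T μ b N H D Q lm bm Bm) :
    0 < H ∧ 0 < N := by
  have hl : 0 < lm := by
    rcases Nat.eq_zero_or_pos lm with h0 | h0
    · have := h.lm0
      rw [h0] at this
      norm_num at this
    · exact h0
  have hQ := h.Q0
  have hD := h.D0
  exact ⟨lt_of_lt_of_le (by positivity) h.h1, lt_of_lt_of_le (by positivity) h.h3⟩

theorem reach_sum {Θ : Type} {s s' : ℕ} {κ : ℝ} {T : Finset Θ} {μ : Θ → ℝ}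
    {b : Θ → Fin s → ℤ} {N H D Q lm bm Bm : ℕ} (h : Reach s' κ T μ b N H D Q lm bm Bm)
    (hs : s ≤ s' + 1) {θ : Θ} (hθ : θ ∈ T) : ∑ r, |b θ r| * H ≤ N := by
  have h1 : ∑ r, |b θ r| * (H : ℤ) ≤ ∑ _r : Fin s, (Bm : ℤ) * H :=
    sum_le_sum fun r _ => mul_le_mul_of_nonneg_right (h.sz θ hθ r).2 (Nat.cast_nonneg _)
  have h2 : s * (Bm * H) ≤ N := by
    refine le_trans ?_ h.h2
    rw [mul_assoc]
    exact Nat.mul_le_mul_right _ hs
  refine h1.trans ?_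
  rw [sum_const, card_univ, Fintype.card_fin, nsmul_eq_mul]
  exact_mod_cast h2

/-- boosting on an interval of integers -/
theorem boost (hBoost : StBoost) (ε : ℝ) (hε : 0 < ε) : ∃ (m : ℕ) (η : ℝ), 0 < η ∧
    ∀ (N : ℕ) (F : (ℤ → ℝ) → Prop) (ν f : ℤ → ℝ), 0 < N →
      (∀ φ, F φ → ∀ x, |φ x| ≤ 1) → (∀ x, 0 ≤ f x ∧ f x ≤ ν x) →
      (∀ k ≤ m, ∀ D : Fin k → ℤ → ℝ, (∀ i, F (D i)) →
        |avI N fun x => (ν x - 1) * ∏ i, D i x| ≤ η) →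
      ∃ k ≤ m, ∃ (D : Fin k → ℤ → ℝ) (σ : Fin k → ℝ), (∀ i, F (D i)) ∧ (∀ i, |σ i| ≤ 1) ∧
        ∀ φ, F φ → |avI N fun x => (f x - clip (∑ i, σ i * D i x)) * φ x| ≤ ε := by
  obtain ⟨m, η, hη, h⟩ := hBoost ε hε
  refine ⟨m, η, hη, fun N F ν f hN hF hf hν => ?_⟩
  have : Nonempty ↥(Ico (N : ℤ) (2 * N)) := ⟨⟨N, mem_Ico.2 ⟨le_rfl, by omega⟩⟩⟩
  obtain ⟨k, hk, D, σ, hD, hσ, hφ⟩ := h ↥(Ico (N : ℤ) (2 * N))
    {φ' | ∃ φ, F φ ∧ φ' = fun x : ↥(Ico (N : ℤ) (2 * N)) => φ x} (fun x => ν x) (fun x => f x)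
    (by
      rintro _ ⟨φ, h1, rfl⟩ x
      exact hF φ h1 x)
    (fun x => hf x)
    (by
      intro k hk D hD
      choose E hE1 hE2 using hD
      have := hν k hk E hE1
      rw [← av_eq] at this
      simpa only [hE2] using this)
  choose E hE1 hE2 using hD
  refine ⟨k, hk, E, σ, hE1, hσ, fun φ h1 => ?_⟩
  have := hφ _ ⟨φ, h1, rfl⟩
  rw [← av_eq]
  simpa only [hE2] using this

/-- a bounded structured approximation of a truncated combination -/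
theorem approx (m : ℕ) (M₁ ε' : ℝ) (hM₁ : 0 ≤ M₁) (hε' : 0 < ε') : ∃ M : ℝ, 1 ≤ M ∧
    ∀ (s k : ℕ) (b : Fin s → ℤ) (H : ℕ) (D : Fin k → ℤ → ℝ) (σ : Fin k → ℝ), k ≤ m →
      (∀ i, (∀ x, |D i x| ≤ 1) ∧ LowDir b H M₁ (D i)) → (∀ i, |σ i| ≤ 1) →
      ∃ φ : ℤ → ℝ, (∀ x, |φ x| ≤ 1) ∧ LowDir b H M φ ∧
        ∀ x, |clip (∑ i, σ i * D i x) - φ x| ≤ ε' := by
  obtain ⟨P, hP⟩ := exists_polynomial_near_of_continuousOn (-(m : ℝ)) m clip
    clip_cont.continuousOn (ε' / 2) (half_pos hε')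
  refine ⟨max 1 (∑ j ∈ range (P.natDegree + 1), |P.coeff j| * (m * M₁) ^ j), le_max_left _ _,
    fun s k b H D σ hk hD hσ => ?_⟩
  have hk' : (k : ℝ) ≤ m := by exact_mod_cast hk
  have hS : ∀ x, |∑ i, σ i * D i x| ≤ m := by
    intro x
    refine (abs_sum_le_sum_abs _ _).trans (le_trans (sum_le_sum (g := fun _ => (1 : ℝ))
      fun i _ => ?_) (by simpa using hk'))
    rw [abs_mul]
    exact mul_le_one₀ (hσ i) (abs_nonneg _) ((hD i).1 x)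
  have hc : 0 < 1 + ε' / 2 := by linarith
  have hnear : ∀ x, |P.eval (∑ i, σ i * D i x) - clip (∑ i, σ i * D i x)| ≤ ε' / 2 :=
    fun x => (hP _ (abs_le.1 (hS x))).le
  have hbd : ∀ x, |P.eval (∑ i, σ i * D i x)| ≤ 1 + ε' / 2 := by
    intro x
    have h1 := abs_le.1 (hnear x)
    have h2 := clip_mem (∑ i, σ i * D i x)
    rw [abs_le]
    constructor <;> linarith [h1.1, h1.2, h2.1, h2.2]
  have hinv : |(1 + ε' / 2)⁻¹| ≤ 1 := by
    rw [abs_of_pos (inv_pos.2 hc)]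
    exact inv_le_one_of_one_le₀ (by linarith)
  refine ⟨fun x => (1 + ε' / 2)⁻¹ * P.eval (∑ i, σ i * D i x), fun x => ?_, fun x => ?_,
    fun x => ?_⟩
  · rw [abs_mul, abs_of_pos (inv_pos.2 hc), inv_mul_le_iff₀ hc, mul_one]
    exact hbd x
  · have h1 : Low (Set.Icc (-(H : ℤ)) H) (m * M₁)
        fun t : Fin s → ℤ => ∑ i, σ i * D i (x + ∑ r, b r * t r) := by
      refine (Cv.Low.sum univ fun i _ => ((hD i).2 x).smul (σ i)).mono ?_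
      refine le_trans (sum_le_sum (g := fun _ => M₁) fun i _ => ?_) ?_
      · exact mul_le_of_le_one_left hM₁ (hσ i)
      · rw [sum_const, card_univ, Fintype.card_fin, nsmul_eq_mul]
        exact mul_le_mul_of_nonneg_right hk' hM₁
    have h2 := low_poly h1 P
    exact (h2.smul _).mono ((mul_le_of_le_one_left h2.nonneg hinv).trans (le_max_right _ _))
  · have h1 := abs_le.1 (hnear x)
    have h2 := abs_le.1 (hbd x)
    set p := P.eval (∑ i, σ i * D i x)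
    have h3 : |p - (1 + ε' / 2)⁻¹ * p| ≤ ε' / 2 := by
      have e : p - (1 + ε' / 2)⁻¹ * p = (1 + ε' / 2)⁻¹ * (ε' / 2 * p) := by
        field_simp
        ring
      rw [e, abs_mul, abs_of_pos (inv_pos.2 hc), inv_mul_le_iff₀ hc, abs_mul,
        abs_of_pos (half_pos hε'), mul_comm]
      exact mul_le_mul_of_nonneg_right (hbd x) (half_pos hε').le
    have h4 := abs_le.1 h3
    rw [abs_le]
    constructor <;> linarith [h1.1, h1.2, h4.1, h4.2]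

end ModelAux

open ModelAux in
theorem stModel (hBoost : StBoost) (hConc : StConc) (hGDual : StGDual) (hTBox : StTBox) :
    StModel := by
  intro s hs
  obtain ⟨s₀, hs₀, hC⟩ := hConc s hs
  refine ⟨s₀, hs₀, fun M₀ ε hM₀ hε => ?_⟩
  obtain ⟨m, η, hη, hB1⟩ := boost hBoost (ε / 2) (half_pos hε)
  obtain ⟨τ, hτ⟩ : ∃ τ : ℝ, τ = ε / (12 * M₀) := ⟨_, rfl⟩
  have hτ0 : 0 < τ := by rw [hτ]; positivity
  obtain ⟨κ₀, hκ₀, hC⟩ := hC (τ ^ (2 ^ s - 1) * (ε / (4 * M₀))) (by positivity)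
  obtain ⟨m₂, η₂, hη₂, hB2⟩ := boost hBoost (min κ₀ (ε / 2)) (lt_min hκ₀ (half_pos hε))
  refine ⟨m, η, min κ₀ (ε / 2), hη, lt_min hκ₀ (half_pos hε), fun ε' hε' => ?_⟩
  obtain ⟨M, hM, hA⟩ := approx m₂ (3 ^ (s₀ + 1)) ε' (by positivity) hε'
  refine ⟨M, hM, fun Θ T μ b N H D Q lm bm Bm e ν f hR he hf hν => ?_⟩
  obtain ⟨hH, hN⟩ := reach_pos hR
  obtain ⟨k₁, -, D₁, σ₁, -, -, h₁⟩ := hB1 N (fun ψ => Tst T μ b H M₀ ψ ∨ ψ = chi e) ν f hN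
    (by
      rintro ψ (h | rfl) x
      · exact tst_abs hR.m0 hR.m1 h x
      · exact chi_abs e x) hf hν
  obtain ⟨G, hG⟩ : ∃ G : ℤ → ℝ, G = fun x => clip (∑ i, σ₁ i * D₁ i x) := ⟨_, rfl⟩
  have hG0 : ∀ x, 0 ≤ G x ∧ G x ≤ 1 := fun x => by rw [hG]; exact clip_mem _
  replace h₁ : ∀ ψ, Tst T μ b H M₀ ψ ∨ ψ = chi e →
      |avI N fun x => (f x - G x) * ψ x| ≤ ε / 2 := by rw [hG]; exact h₁
  obtain ⟨k₂, hk₂, D₂, σ₂, hD₂, hσ₂, h₂⟩ := hB2 N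
    (fun φ => (∀ x, |φ x| ≤ 1) ∧ LowDir (fun _ : Fin (s₀ + 1) => (Q : ℤ)) D (3 ^ (s₀ + 1)) φ)
    (fun _ => 1) G hN (fun φ h => h.1) hG0
    (fun k _ E _ => by simp [avI, hη₂.le])
  obtain ⟨φ, hφ1, hφ2, hφ3⟩ := hA (s₀ + 1) k₂ _ D D₂ σ₂ hk₂ hD₂ hσ₂
  obtain ⟨g, hg⟩ : ∃ g : ℤ → ℝ, g = fun x => clip (∑ i, σ₂ i * D₂ i x) := ⟨_, rfl⟩
  have hg0 : ∀ x, 0 ≤ g x ∧ g x ≤ 1 := fun x => by rw [hg]; exact clip_mem _
  replace hφ3 : ∀ x, |g x - φ x| ≤ ε' := by rw [hg]; exact hφ3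
  replace h₂ : ∀ φ : ℤ → ℝ, (∀ x, |φ x| ≤ 1) ∧
      LowDir (fun _ : Fin (s₀ + 1) => (Q : ℤ)) D (3 ^ (s₀ + 1)) φ →
      |avI N fun x => (G x - g x) * φ x| ≤ min κ₀ (ε / 2) := by rw [hg]; exact h₂
  have hsupp : ∀ (v : ℤ → ℝ) x, cutI N v x ≠ 0 → (N : ℤ) ≤ x ∧ x < 2 * N := by
    intro v x hx
    by_contra h
    exact hx (if_neg h)
  obtain ⟨u, hu⟩ : ∃ u : ℤ → ℝ, u = cutI N fun x => G x - g x := ⟨_, rfl⟩
  have hu1 : ∀ x, |u x| ≤ 1 := by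
    intro x
    rw [hu]
    unfold cutI
    split_ifs
    · rw [abs_le]
      constructor <;> linarith [(hG0 x).1, (hG0 x).2, (hg0 x).1, (hg0 x).2]
    · simp
  have hu2 : ∀ x, u x ≠ 0 → (N : ℤ) ≤ x ∧ x < 2 * N := by rw [hu]; exact hsupp _
  have hu3 : ∀ ψ : ℤ → ℝ, (avI N fun x => u x * ψ x) = avI N fun x => (G x - g x) * ψ x :=
    fun ψ => avI_congr fun x h1 h2 => by rw [hu, cutI, if_pos ⟨h1, h2⟩]
  have hbox : ∑ θ ∈ T, μ θ * boxN N u (b θ) (fun _ => H) ≤ τ ^ (2 ^ s - 1) * (ε / (4 * M₀)) := by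
    refine hC Θ T μ b N H D Q lm bm Bm u (reach_mono hR (min_le_left _ _)) hu1 hu2 ?_
    obtain ⟨φ₀, h1, h2, h3⟩ := hGDual (s₀ + 1) N D (fun _ => (Q : ℤ)) u (by omega) hR.D0 hu1 hu2
    rw [h3, hu3]
    exact (le_abs_self _).trans ((h₂ φ₀ ⟨h1, h2⟩).trans (min_le_left _ _))
  refine ⟨cutI N g, φ, fun x => ?_, hsupp g, hφ1, hφ2, fun x h1 h2 => ?_, fun ψ hψ => ?_⟩
  · unfold cutI
    split_ifs
    · exact hg0 x
    · simp
  · rw [cutI, if_pos ⟨h1, h2⟩]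
    exact hφ3 x
  · have e1 : (avI N fun x => (f x - cutI N g x) * ψ x) =
        (avI N fun x => (f x - G x) * ψ x) + avI N fun x => (G x - g x) * ψ x := by
      rw [← avI_add]
      exact avI_congr fun x h1 h2 => by rw [cutI, if_pos ⟨h1, h2⟩]; ring
    have e2 : |avI N fun x => (G x - g x) * ψ x| ≤ ε / 2 := by
      rcases hψ with ⟨E, hE, rfl⟩ | rfl
      · rw [← hu3]
        have e3 : (avI N fun x => u x * ∑ θ ∈ T, μ θ * E θ x) =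
            ∑ θ ∈ T, μ θ * avI N fun x => u x * E θ x := by
          rw [← avI_sum]
          refine avI_congr fun x _ _ => ?_
          rw [mul_sum]
          exact sum_congr rfl fun θ _ => by ring
        rw [e3]
        have e4 : ∀ θ ∈ T, |μ θ * avI N fun x => u x * E θ x| ≤
            M₀ * (3 * τ) * μ θ + M₀ / τ ^ (2 ^ s - 1) * (μ θ * boxN N u (b θ) fun _ => H) := by
          intro θ hθ
          rw [abs_mul, abs_of_nonneg (hR.m0 θ hθ)]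
          refine (mul_le_mul_of_nonneg_left (hTBox s N H (b θ) u (E θ) M₀ τ (by omega) hH hN hτ0
            (reach_sum hR (by omega) hθ) hu2 (hE θ hθ).2) (hR.m0 θ hθ)).trans (le_of_eq ?_)
          ring
        refine (abs_sum_le_sum_abs _ _).trans ((sum_le_sum e4).trans ?_)
        rw [sum_add_distrib, ← mul_sum, ← mul_sum]
        have e5 : M₀ * (3 * τ) * ∑ θ ∈ T, μ θ ≤ ε / 4 := by
          refine (mul_le_of_le_one_right (by positivity) hR.m1).trans (le_of_eq ?_)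
          rw [hτ]
          field_simp
          ring
        have e6 : M₀ / τ ^ (2 ^ s - 1) * ∑ θ ∈ T, μ θ * boxN N u (b θ) (fun _ => H) ≤ ε / 4 := by
          refine (mul_le_mul_of_nonneg_left hbox (by positivity)).trans (le_of_eq ?_)
          field_simp
        linarith
      · exact (h₂ _ ⟨chi_abs e, chi_low he (one_le_pow₀ (by norm_num))⟩).trans (min_le_right _ _)
    rw [e1]
    exact (abs_add_le _ _).trans (by linarith [h₁ ψ hψ])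

end Pool.Agent.Lib.MP_7d3fda_nt.Q3
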