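import Pool.Agent.Lib.MP_7d3fda_nt.Q3.Basic

open Finset Filter
open scoped Classical NumberTheorySymbols

noncomputable section

namespace Pool.Agent.Lib.MP_7d3fda_nt.Q3

open Pool.Agent.Lib.MP_4b8564_nt Pool.Agent.Lib.MP_4b8564_nt.GT

/-! A positive proportion of the triples is good. -/

namespace OscAux

/-- The bilinear bound. -/
lemma bil {I κ X : Type} [DecidableEq (I × I)] (Th : Finset I) (T2 : Finset (I × I))
    (Z B : Finset X) (hZ : Z ⊆ B)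
    (M : I → Finset κ) (c : I → κ → ℝ) (g : I → κ → X → ℝ) {μ L η : ℝ} {Mx : ℕ} (hμ : 0 ≤ μ)
    (hη : 0 ≤ η) (hL : (B.card : ℝ) = L) (hM : ∀ i ∈ Th, (M i).card ≤ Mx)
    (hc : ∀ i m, |c i m| ≤ 1) (hg : ∀ i m z, |g i m z| ≤ 1) (h1 : μ * Th.card ≤ 1)
    (h2 : μ ^ 2 * ((Th ×ˢ Th) \ T2).card ≤ η)
    (h3 : ∀ θ ∈ T2, ∀ m ∈ M θ.1, ∀ m' ∈ M θ.2, |∑ z ∈ B, g θ.1 m z * g θ.2 m' z| ≤ L * η) :
    (∑ z ∈ Z, μ * ∑ i ∈ Th, ∑ m ∈ M i, c i m * g i m z) ^ 2 ≤ L ^ 2 * (Mx : ℝ) ^ 2 * (2 * η) := by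
  have hL0 : 0 ≤ L := hL ▸ Nat.cast_nonneg _
  have e1 : (∑ z ∈ Z, μ * ∑ i ∈ Th, ∑ m ∈ M i, c i m * g i m z) ^ 2 ≤
      L * ∑ z ∈ B, (μ * ∑ i ∈ Th, ∑ m ∈ M i, c i m * g i m z) ^ 2 := by
    refine sq_sum_le_card_mul_sum_sq.trans (mul_le_mul ?_ ?_ (sum_nonneg fun _ _ => sq_nonneg _) hL0)
    · rw [← hL]
      exact_mod_cast card_le_card hZ
    · exact sum_le_sum_of_subset_of_nonneg hZ fun _ _ _ => sq_nonneg _
  have e2 : ∑ z ∈ B, (μ * ∑ i ∈ Th, ∑ m ∈ M i, c i m * g i m z) ^ 2 =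
      μ ^ 2 * ∑ θ ∈ Th ×ˢ Th, ∑ m ∈ M θ.1, ∑ m' ∈ M θ.2,
        c θ.1 m * c θ.2 m' * ∑ z ∈ B, g θ.1 m z * g θ.2 m' z := by
    have e3 : ∀ z, (μ * ∑ i ∈ Th, ∑ m ∈ M i, c i m * g i m z) ^ 2 =
        μ ^ 2 * ∑ θ ∈ Th ×ˢ Th, ∑ m ∈ M θ.1, ∑ m' ∈ M θ.2,
          c θ.1 m * c θ.2 m' * (g θ.1 m z * g θ.2 m' z) := by
      intro z
      rw [mul_pow, sq (∑ i ∈ Th, _), sum_mul_sum, sum_product]
      congr 1
      refine sum_congr rfl fun i _ => sum_congr rfl fun i' _ => ?_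
      rw [sum_mul_sum]
      refine sum_congr rfl fun m _ => sum_congr rfl fun m' _ => ?_
      ring
    rw [sum_congr rfl fun z _ => e3 z, ← mul_sum, sum_comm]
    congr 1
    refine sum_congr rfl fun θ _ => ?_
    rw [sum_comm]
    refine sum_congr rfl fun m _ => ?_
    rw [sum_comm]
    exact sum_congr rfl fun m' _ => (mul_sum _ _ _).symm
  have e4 : ∀ θ ∈ Th ×ˢ Th, ∑ m ∈ M θ.1, ∑ m' ∈ M θ.2,
      c θ.1 m * c θ.2 m' * ∑ z ∈ B, g θ.1 m z * g θ.2 m' z ≤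
        (Mx : ℝ) ^ 2 * (L * η + if θ ∈ T2 then 0 else L) := by
    intro θ hθ
    obtain ⟨t1, t2⟩ := mem_product.1 hθ
    have hb : 0 ≤ L * η + if θ ∈ T2 then 0 else L :=
      add_nonneg (mul_nonneg hL0 hη) (by split_ifs; exacts [le_rfl, hL0])
    have e5 : ∀ m ∈ M θ.1, ∀ m' ∈ M θ.2,
        c θ.1 m * c θ.2 m' * ∑ z ∈ B, g θ.1 m z * g θ.2 m' z ≤
          L * η + if θ ∈ T2 then 0 else L := by
      intro m hm m' hm'
      have e6 : |∑ z ∈ B, g θ.1 m z * g θ.2 m' z| ≤ L * η + if θ ∈ T2 then 0 else L := by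
        split_ifs with h
        · rw [add_zero]
          exact h3 θ h m hm m' hm'
        · refine (abs_sum_le_sum_abs _ _).trans (le_trans ?_
            (le_add_of_nonneg_left (mul_nonneg hL0 hη)))
          rw [← hL, ← mul_one (B.card : ℝ), ← nsmul_eq_mul]
          refine sum_le_card_nsmul _ _ _ fun z _ => ?_
          rw [abs_mul]
          exact mul_le_one₀ (hg _ _ _) (abs_nonneg _) (hg _ _ _)
      refine (le_abs_self _).trans ?_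
      rw [abs_mul, abs_mul]
      exact (mul_le_of_le_one_left (abs_nonneg _)
        (mul_le_one₀ (hc _ _) (abs_nonneg _) (hc _ _))).trans e6
    have m1 : ((M θ.1).card : ℝ) ≤ Mx := by exact_mod_cast hM _ t1
    have m2 : ((M θ.2).card : ℝ) ≤ Mx := by exact_mod_cast hM _ t2
    refine (sum_le_card_nsmul _ _ ((Mx : ℝ) * (L * η + if θ ∈ T2 then 0 else L))
      fun m hm => ?_).trans ?_
    · refine (sum_le_card_nsmul _ _ _ (e5 m hm)).trans ?_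
      rw [nsmul_eq_mul]
      exact mul_le_mul_of_nonneg_right m2 hb
    · rw [nsmul_eq_mul, sq, mul_assoc]
      exact mul_le_mul_of_nonneg_right m1 (mul_nonneg (Nat.cast_nonneg _) hb)
  have e7 : ∑ θ ∈ Th ×ˢ Th, (Mx : ℝ) ^ 2 * (L * η + if θ ∈ T2 then 0 else L) =
      (Mx : ℝ) ^ 2 * L * ((Th.card : ℝ) ^ 2 * η + ((Th ×ˢ Th) \ T2).card) := by
    have e8 : ∑ θ ∈ Th ×ˢ Th, (if θ ∈ T2 then 0 else L) = ((Th ×ˢ Th) \ T2).card * L := by
      rw [sum_ite, sum_const_zero, zero_add, sum_const, nsmul_eq_mul, sdiff_eq_filter]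
    rw [← mul_sum, sum_add_distrib, e8, sum_const, nsmul_eq_mul, card_product]
    push_cast
    ring
  have e9 : μ ^ 2 * ((Th.card : ℝ) ^ 2 * η + ((Th ×ˢ Th) \ T2).card) ≤ 2 * η := by
    have e10 : (μ * Th.card) ^ 2 ≤ 1 := pow_le_one₀ (mul_nonneg hμ (Nat.cast_nonneg _)) h1
    have e11 := mul_le_mul_of_nonneg_right e10 hη
    nlinarith
  calc _ ≤ L * (μ ^ 2 * ((Mx : ℝ) ^ 2 * L *
        ((Th.card : ℝ) ^ 2 * η + ((Th ×ˢ Th) \ T2).card))) := by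
        refine e1.trans (mul_le_mul_of_nonneg_left ?_ hL0)
        rw [e2, ← e7]
        exact mul_le_mul_of_nonneg_left (sum_le_sum e4) (sq_nonneg _)
    _ = L ^ 2 * (Mx : ℝ) ^ 2 * (μ ^ 2 * ((Th.card : ℝ) ^ 2 * η + ((Th ×ˢ Th) \ T2).card)) := by
        ring
    _ ≤ _ := mul_le_mul_of_nonneg_left e9 (by positivity)

/-- the symbols of `m` at the primes of `n` -/
def sy (n m l : ℕ) : ℤ := if l ∈ n.primeFactors then J((m : ℤ) | l) else 0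

/-- the possible values of `sy n` -/
def Sy (n : ℕ) : Finset (ℕ → ℤ) :=
  (n.primeFactors.pi fun _ => ({0, 1, -1} : Finset ℤ)).image fun f l =>
    if h : l ∈ n.primeFactors then f l h else 0

lemma sy_mem (n m : ℕ) : sy n m ∈ Sy n := by
  refine mem_image.2 ⟨fun l _ => J((m : ℤ) | l), mem_pi.2 fun l _ => ?_, ?_⟩
  · simpa only [mem_insert, mem_singleton] using jacobiSym.trichotomy (m : ℤ) l
  · funext l
    simp only [sy, dite_eq_ite]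

lemma card_Sy (n : ℕ) : (Sy n).card ≤ 3 ^ n.primeFactors.card := by
  refine card_image_le.trans ?_
  rw [card_pi]
  refine (prod_le_pow_card _ _ 3 fun _ _ => ?_)
  exact card_le_three

/-- the index set of the monomials -/
def Ix (n : ℕ) : Finset (Finset ℕ × (Fin 6 → ℕ → ℤ)) :=
  (n.primeFactors.powerset.erase ∅) ×ˢ Fintype.piFinset fun _ => Sy n

lemma card_Ix {n K : ℕ} (h : n.primeFactors.card ≤ K) : (Ix n).card ≤ 2 ^ (11 * K) := by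
  have h1 : (n.primeFactors.powerset.erase ∅).card ≤ 2 ^ K :=
    card_erase_le.trans (by rw [card_powerset]; exact Nat.pow_le_pow_right (by norm_num) h)
  have h2 : (Fintype.piFinset fun _ : Fin 6 => Sy n).card ≤ (3 ^ K) ^ 6 := by
    rw [Fintype.card_piFinset, prod_const, card_univ, Fintype.card_fin]
    exact Nat.pow_le_pow_left ((card_Sy n).trans (Nat.pow_le_pow_right (by norm_num) h)) 6
  have h3 : (3 ^ K) ^ 6 ≤ 2 ^ (10 * K) := by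
    rw [← pow_mul, mul_comm K, pow_mul, pow_mul]
    exact Nat.pow_le_pow_left (by norm_num) K
  rw [Ix, card_product, show 11 * K = K + 10 * K by ring, pow_add]
  exact Nat.mul_le_mul h1 (h2.trans h3)

/-- the indicator of a value of the symbols -/
def ph (n : ℕ) (t : Fin 6 → ℕ → ℤ) (j : Fin 6) (m : ℕ) : ℝ := if sy n m = t j then 1 else 0

lemma abs_ph (n : ℕ) (t : Fin 6 → ℕ → ℤ) (j : Fin 6) (m : ℕ) : |ph n t j m| ≤ 1 := by
  unfold ph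
  split_ifs <;> simp

lemma prod_ph (n : ℕ) (t : Fin 6 → ℕ → ℤ) (p : Fin 6 → ℕ) :
    ∏ j, ph n t j (p j) = if sym p n = t then 1 else 0 := by
  unfold ph
  by_cases h : sym p n = t
  · rw [if_pos h]
    exact prod_eq_one fun j _ => if_pos (congrFun h j)
  · rw [if_neg h]
    obtain ⟨j, hj⟩ := Function.ne_iff.1 h
    exact prod_eq_zero (mem_univ j) (if_neg hj)

/-- the prescribed sign -/
def sg (ξ : Rule) (γ : O) (n : ℕ) (U : Finset ℕ) (τ : ℤ) (t : Fin 6 → ℕ → ℤ) : ℝ :=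
  ∏ l ∈ U, (R3.sgn (ξ γ n τ t l) : ℝ)

lemma sgn_or (b : ZMod 2) : R3.sgn b = 1 ∨ R3.sgn b = -1 := by
  unfold R3.sgn
  split_ifs
  · exact Or.inl rfl
  · exact Or.inr rfl

lemma abs_sg (ξ : Rule) (γ : O) (n : ℕ) (U : Finset ℕ) (τ : ℤ) (t : Fin 6 → ℕ → ℤ) :
    |sg ξ γ n U τ t| ≤ 1 := by
  rw [sg, abs_prod]
  refine prod_le_one (fun _ _ => abs_nonneg _) fun l _ => ?_
  rcases sgn_or (ξ γ n τ t l) with h | h <;> simp [h]

/-- the coefficients -/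
def cf (ξ : Rule) (γ : O) (n ε : ℕ) (m : Finset ℕ × (Fin 6 → ℕ → ℤ)) : ℝ :=
  (sg ξ γ n m.1 1 m.2 + (-1) ^ ε * sg ξ γ n m.1 (-1) m.2) / 2

lemma abs_cf (ξ : Rule) (γ : O) (n ε : ℕ) (m : Finset ℕ × (Fin 6 → ℕ → ℤ)) :
    |cf ξ γ n ε m| ≤ 1 := by
  have h1 := abs_sg ξ γ n m.1 1 m.2
  have h2 := abs_sg ξ γ n m.1 (-1) m.2
  have h3 := abs_add_le (sg ξ γ n m.1 1 m.2) ((-1) ^ ε * sg ξ γ n m.1 (-1) m.2)
  rw [abs_mul, abs_pow, abs_neg, abs_one, one_pow, one_mul] at h3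
  rw [cf, abs_div, abs_two]
  linarith

lemma abs_jac (a : ℤ) (b : ℕ) : |(J(a | b) : ℝ)| ≤ 1 := by
  rcases jacobiSym.trichotomy a b with h | h | h <;> simp [h]

lemma abs_Mon (S : Sc) (A : Finset ℤ) (U : Finset ℕ) (ε : ℕ) {φ : Fin 6 → ℕ → ℝ}
    (hφ : ∀ j x, |φ j x| ≤ 1) (γ z : O) : |S.Mon A U ε φ γ z| ≤ 1 := by
  unfold Sc.Mon
  split_ifs
  · rw [abs_mul, abs_mul, abs_prod, abs_prod, abs_pow]
    refine mul_le_one₀ (mul_le_one₀ (prod_le_one (fun _ _ => abs_nonneg _) fun l _ => abs_jac _ _)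
      (by positivity) (pow_le_one₀ (abs_nonneg _) (abs_jac _ _)))
      (prod_nonneg fun _ _ => abs_nonneg _) (prod_le_one (fun _ _ => abs_nonneg _) fun j _ => hφ _ _)
  · simp

/-- The expansion of the indicator. -/
lemma expand (ξ : Rule) (γ : O) (p : Fin 6 → ℕ) (n K : ℕ) (q : ℤ)
    (hK : n.primeFactors.card ≤ K) (hτ : J((p 1 : ℤ) | p 0) = 1 ∨ J((p 1 : ℤ) | p 0) = -1)
    (hq : ∀ l ∈ n.primeFactors, J(q | l) = 1 ∨ J(q | l) = -1) :
    1 + (∑ m ∈ Ix n, cf ξ γ n 0 m * ((∏ g ∈ m.1, (J(q | g) : ℝ)) *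
        (J((p 1 : ℤ) | p 0) : ℝ) ^ 0 * ∏ j, ph n m.2 j (p j)) +
      ∑ m ∈ Ix n, cf ξ γ n 1 m * ((∏ g ∈ m.1, (J(q | g) : ℝ)) *
        (J((p 1 : ℤ) | p 0) : ℝ) ^ 1 * ∏ j, ph n m.2 j (p j))) ≤
      2 ^ K * if Bits ξ γ p n q then 1 else 0 := by
  have e1 : ∀ U : Finset ℕ, ∑ t ∈ Fintype.piFinset fun _ : Fin 6 => Sy n,
      (cf ξ γ n 0 (U, t) * ((∏ g ∈ U, (J(q | g) : ℝ)) *
        (J((p 1 : ℤ) | p 0) : ℝ) ^ 0 * ∏ j, ph n t j (p j)) +
      cf ξ γ n 1 (U, t) * ((∏ g ∈ U, (J(q | g) : ℝ)) *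
        (J((p 1 : ℤ) | p 0) : ℝ) ^ 1 * ∏ j, ph n t j (p j))) =
      ∏ l ∈ U, ((J(q | l) : ℝ) * (R3.sgn (ξ γ n J((p 1 : ℤ) | p 0) (sym p n) l) : ℝ)) := by
    intro U
    rw [sum_eq_single (sym p n)]
    · rw [prod_ph, if_pos rfl, prod_mul_distrib]
      change _ = _ * sg ξ γ n U _ _
      rcases hτ with h | h <;> rw [h] <;> simp only [cf] <;> push_cast <;> ring
    · intro t _ ht
      rw [prod_ph, if_neg ht.symm]
      ring
    · intro h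
      exact absurd (Fintype.mem_piFinset.2 fun j => sy_mem n (p j)) h
  rw [← sum_add_distrib, Ix, sum_product, sum_congr rfl fun U _ => e1 U]
  have e2 := add_sum_erase n.primeFactors.powerset (fun U => ∏ l ∈ U,
    ((J(q | l) : ℝ) * (R3.sgn (ξ γ n J((p 1 : ℤ) | p 0) (sym p n) l) : ℝ))) (empty_mem_powerset _)
  rw [prod_empty, ← prod_one_add] at e2
  rw [e2]
  split_ifs with h
  · rw [mul_one]
    refine le_trans (prod_le_prod (g := fun _ => 2) (fun l hl => ?_) fun l hl => ?_) ?_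
    · rw [← h l hl]
      nlinarith [mul_self_nonneg (J(q | l) : ℝ)]
    · rw [← h l hl]
      rcases hq l hl with h1 | h1 <;> rw [h1] <;> norm_num
    · rw [prod_const]
      exact pow_le_pow_right₀ (by norm_num) hK
  · rw [mul_zero]
    obtain ⟨l, hl, hne⟩ : ∃ l ∈ n.primeFactors,
        J(q | l) ≠ R3.sgn (ξ γ n J((p 1 : ℤ) | p 0) (sym p n) l) := by
      by_contra hc
      exact h fun l hl => by_contra fun hne => hc ⟨l, hl, hne⟩
    refine (prod_eq_zero hl ?_).le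
    rcases hq l hl with h1 | h1 <;>
      rcases sgn_or (ξ γ n J((p 1 : ℤ) | p 0) (sym p n) l) with h2 | h2
    · exact absurd (h1.trans h2.symm) hne
    · rw [h1, h2]
      norm_num
    · rw [h1, h2]
      norm_num
    · exact absurd (h1.trans h2.symm) hne

lemma sum_le (S : Sc) (Φ : O → ℝ) {η : ℝ} (h : |S.avB Φ| ≤ η) :
    |∑ z ∈ S.B, Φ z| ≤ (S.l : ℝ) ^ 2 * η := by
  rcases Nat.eq_zero_or_pos S.l with h0 | h0
  · have h1 : S.B = ∅ := card_eq_zero.1 (by rw [Sc.B, card_cbx S.F_pos, h0]; rfl)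
    rw [h1, h0]
    simp
  · have h1 : (0 : ℝ) < (S.l : ℝ) ^ 2 := by positivity
    rw [Sc.avB, abs_div, abs_of_pos h1, div_le_iff₀ h1] at h
    linarith

lemma numeric {x L2 Mx E : ℝ} {c n : ℕ} (hx : 2 ≤ x) (hL : 0 ≤ L2) (hM0 : 0 ≤ Mx)
    (hM : Mx ≤ x ^ c) (h : E ^ 2 ≤ L2 ^ 2 * Mx ^ 2 * (2 * (1 / x ^ (2 * (c + n + 2))))) :
    |E| ≤ L2 / x ^ n / 2 := by
  have h0 : 0 < x := by linarith
  refine abs_le_of_sq_le_sq' ?_ (by positivity) |> abs_le.2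
  refine h.trans ?_
  have h1 : Mx ^ 2 ≤ (x ^ c) ^ 2 := pow_le_pow_left₀ hM0 hM 2
  have h2 : (2 : ℝ) ^ 4 ≤ x ^ 4 := pow_le_pow_left₀ (by norm_num) hx 4
  have h3 : x ^ (2 * (c + n + 2)) = (x ^ c) ^ 2 * (x ^ n) ^ 2 * x ^ 4 := by ring
  have h4 : Mx ^ 2 * (2 * (1 / x ^ (2 * (c + n + 2)))) ≤ 1 / (x ^ n) ^ 2 / 4 := by
    rw [h3, mul_one_div, ← mul_div_assoc, div_div, div_le_div_iff₀ (by positivity) (by positivity)]
    have h5 : (0 : ℝ) ≤ (x ^ n) ^ 2 := by positivity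
    have h6 : (0 : ℝ) ≤ (x ^ c) ^ 2 * (x ^ n) ^ 2 := by positivity
    nlinarith [mul_le_mul_of_nonneg_right h1 h5, mul_le_mul_of_nonneg_left h2 h6]
  calc L2 ^ 2 * Mx ^ 2 * (2 * (1 / x ^ (2 * (c + n + 2))))
      = L2 ^ 2 * (Mx ^ 2 * (2 * (1 / x ^ (2 * (c + n + 2))))) := by ring
    _ ≤ L2 ^ 2 * (1 / (x ^ n) ^ 2 / 4) := mul_le_mul_of_nonneg_left h4 (sq_nonneg _)
    _ = (L2 / x ^ n / 2) ^ 2 := by ring

end OscAux

open OscAux in
theorem stOsc (hOscX : StOscX) (hEps : StEps) (hDeg : StDeg) (hMass : StMass) (hFacts : StFacts)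
    (hScale : StScale) : StOsc := by
  intro d P hP n
  obtain ⟨n', hn'⟩ : ∃ n', n' = 2 * (748 * P.a ^ 2 + n + 2) := ⟨_, rfl⟩
  obtain ⟨C, -, hC⟩ := hMass d
  refine ((((((((hOscX d P hP n').and (hOscX d P hP (n' + 1))).and (hEps d P hP n')).and
    (hDeg d P hP n')).and (hC P hP)).and (hFacts d P hP)).and
    ⟨4, fun w hw => hScale.2.2.2 d P hP 0 w hw⟩).and
    (Ev.of_eventually (d := d) (P := P) (Θ := fun _ ρ => (2 : ℝ) ≤ Real.log ρ) 0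
      fun _ _ => ev_log 2)).mono ?_
  rintro S rfl rfl hok ⟨⟨⟨⟨⟨⟨⟨o0, o0'⟩, o1⟩, hdeg⟩, -, hmass⟩, hfa⟩, -, -, -, hSS, -, h2k, -, -,
    hFr⟩, -, hlog⟩ A Pi ξ hA hPi
  have hosc : ∀ ε ≤ 1, S.Osc n' ε := fun ε hε => by
    rcases Nat.le_one_iff_eq_zero_or_eq_one.1 hε with rfl | rfl
    exacts [o0, o1 o0']
  have hμ : 0 ≤ S.mu := by
    refine div_nonneg (mul_nonneg (zero_le_one.trans hSS) (sq_nonneg _))
      (mul_nonneg (mul_nonneg (sum_nonneg fun γ _ => ?_) (sq_nonneg _)) (sq_nonneg _))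
    have : (0 : ℝ) ≤ γ.norm := by exact_mod_cast norm_nonneg' γ
    positivity
  have hTh : ∀ i ∈ S.Th, S.Fr (i.1 * i.2) := fun i hi => (mem_filter.1 hi).2
  obtain ⟨K, hK⟩ : ∃ K, K = 34 * S.P.a * S.k := ⟨_, rfl⟩
  rw [← hK] at hFr ⊢
  obtain ⟨Y, hY⟩ : ∃ Y : ℕ → (O × O) → O → ℝ, ∀ ε i z, Y ε i z =
      ∑ m ∈ Ix (i.1 * i.2).norm.natAbs, cf ξ i.1 (i.1 * i.2).norm.natAbs ε m *
        S.Mon A m.1 ε (ph (i.1 * i.2).norm.natAbs m.2) (i.1 * i.2) z := ⟨_, fun _ _ _ => rfl⟩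
  have hE : ∀ ε ≤ 1, |∑ z ∈ Pi, S.mu * ∑ i ∈ S.Th, Y ε i z| ≤
      (S.l : ℝ) ^ 2 / Real.log S.ρ ^ n / 2 := by
    intro ε hε
    have h1 := bil S.Th S.T2 Pi S.B hPi.1 (fun i => Ix (i.1 * i.2).norm.natAbs)
      (fun i m => cf ξ i.1 (i.1 * i.2).norm.natAbs ε m)
      (fun i m z => S.Mon A m.1 ε (ph (i.1 * i.2).norm.natAbs m.2) (i.1 * i.2) z)
      (L := (S.l : ℝ) ^ 2) (η := 1 / Real.log S.ρ ^ n') (Mx := 2 ^ (11 * K)) hμ (by positivity)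
      (by rw [Sc.B, card_cbx S.F_pos]; push_cast; rfl)
      (fun i hi => card_Ix (hFr _ (hTh i hi)).2.2.2) (fun i m => abs_cf _ _ _ _ _)
      (fun i m z => abs_Mon S A _ _ (abs_ph _ _) _ _) hmass hdeg
      fun θ hθ m hm m' hm' => by
        obtain ⟨a1, a2⟩ := mem_erase.1 (mem_product.1 hm).1
        obtain ⟨-, a4⟩ := mem_erase.1 (mem_product.1 hm').1
        exact sum_le S _ (hosc ε hε A hA (pr θ) (mem_filter.1 hθ).2 m.1 _ m'.1 _
          (mem_powerset.1 a2) (mem_powerset.1 a4) (nonempty_iff_ne_empty.2 a1) (abs_ph _ _)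
          (abs_ph _ _))
    simp only [← hY] at h1
    rw [hn'] at h1
    refine numeric hlog (sq_nonneg _) (Nat.cast_nonneg _) ?_ h1
    have h2 : ((2 ^ (11 * K) : ℕ) : ℝ) = (2 ^ S.k) ^ (374 * S.P.a) := by
      rw [hK, ← pow_mul]
      push_cast
      congr 1
      ring
    rw [h2, show 748 * S.P.a ^ 2 = 2 * S.P.a * (374 * S.P.a) by ring, pow_mul (Real.log _)]
    exact pow_le_pow_left₀ (by positivity) h2k _
  have hpt : ∀ i ∈ S.Th, ∀ z ∈ Pi,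
      (if ∀ j, S.nn j (i.1 * i.2 * z) ∈ A then (1 : ℝ) else 0) + (Y 0 i z + Y 1 i z) ≤
        2 ^ K * if (∀ j, S.nn j (i.1 * i.2 * z) ∈ A) ∧
          Bits ξ i.1 (fun j => S.mm j (i.1 * i.2 * z)) (i.1 * i.2).norm.natAbs z.norm
            then 1 else 0 := by
    intro i hi z hz
    by_cases c : ∀ j, S.nn j (i.1 * i.2 * z) ∈ A
    · obtain ⟨-, -, -, f1, f2, -⟩ := hfa A Pi hA hPi (i, z)
        (mem_filter.2 ⟨mem_product.2 ⟨hi, hz⟩, c⟩) _ rfl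
      have hp : ∀ j, (S.mm j (i.1 * i.2 * z)).Prime := fun j => (hA _ (c j)).2.2
      have h1 := expand ξ i.1 (fun j => S.mm j (i.1 * i.2 * z)) (i.1 * i.2).norm.natAbs K z.norm
        (hFr _ (hTh i hi)).2.2.2
        (jacobiSym.eq_one_or_neg_one (by
          rw [Int.gcd_natCast_natCast]
          exact (Nat.coprime_primes (hp 1) (hp 0)).2 fun e => absurd (f1 e) (by decide)))
        fun l hl => jacobiSym.eq_one_or_neg_one (by
          have h2 := Nat.le_of_mem_primeFactors hl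
          have h3 := norm_nonneg' (i.1 * i.2)
          have h4 : (i.1 * i.2).norm < z.norm := f2
          rw [Int.gcd_eq_natAbs, Int.natAbs_natCast]
          exact (Nat.coprime_primes (hPi.2 z hz) (Nat.prime_of_mem_primeFactors hl)).2 (by omega))
      simp only [hY, Sc.Mon, c, implies_true, true_and, if_true]
      exact h1
    · simp only [hY, Sc.Mon, c, false_and, if_false, mul_zero, sum_const_zero, add_zero,
        le_refl]
  have hAl : ((S.Al A Pi).card : ℝ) =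
      ∑ i ∈ S.Th, ∑ z ∈ Pi, if ∀ j, S.nn j (i.1 * i.2 * z) ∈ A then (1 : ℝ) else 0 := by
    rw [Sc.Al, card_filter, sum_product]
    push_cast
    rfl
  have hGd : ((S.Gd A Pi ξ).card : ℝ) =
      ∑ i ∈ S.Th, ∑ z ∈ Pi, if (∀ j, S.nn j (i.1 * i.2 * z) ∈ A) ∧
        Bits ξ i.1 (fun j => S.mm j (i.1 * i.2 * z)) (i.1 * i.2).norm.natAbs z.norm
          then (1 : ℝ) else 0 := by
    rw [Sc.Gd, Sc.Al, filter_filter, card_filter, sum_product]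
    push_cast
    exact sum_congr rfl fun i _ => sum_congr rfl fun z _ => if_congr Iff.rfl rfl rfl
  have hsum : ((S.Al A Pi).card : ℝ) + (∑ z ∈ Pi, ∑ i ∈ S.Th, Y 0 i z +
      ∑ z ∈ Pi, ∑ i ∈ S.Th, Y 1 i z) ≤ 2 ^ K * (S.Gd A Pi ξ).card := by
    rw [hAl, hGd, sum_comm (s := Pi), sum_comm (s := Pi), ← sum_add_distrib, ← sum_add_distrib,
      mul_sum]
    refine sum_le_sum fun i hi => ?_
    rw [← sum_add_distrib, ← sum_add_distrib, mul_sum]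
    exact sum_le_sum fun z hz => hpt i hi z hz
  have h0 := (abs_le.1 (hE 0 (by norm_num))).1
  have h1 := (abs_le.1 (hE 1 le_rfl)).1
  rw [← mul_sum] at h0 h1
  have h2 := mul_le_mul_of_nonneg_left hsum hμ
  rw [mul_add, mul_add, mul_left_comm] at h2
  linarith

end Pool.Agent.Lib.MP_7d3fda_nt.Q3
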