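import Pool.Agent.Lib.MP_7d3fda_nt.Q3.Dns

open Finset Filter
open scoped Classical NumberTheorySymbols

noncomputable section

namespace Pool.Agent.Lib.MP_7d3fda_nt.Q3

open Pool.Agent.Lib.MP_4b8564_nt Pool.Agent.Lib.MP_4b8564_nt.GT
open Pool.Agent.Lib.MP_0a3467_an

namespace OscXAux

/-! ### shifting a box -/

theorem shift_nat (f : ℤ → ℝ) (hf : ∀ x, |f x| ≤ 1) (L k : ℕ) :
    |∑ i ∈ range L, f ((i : ℤ) + k) - ∑ i ∈ range L, f i| ≤ 2 * k := by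
  induction k with
  | zero => simp
  | succ k ih =>
    have h1 : ∑ i ∈ range L, f ((i : ℤ) + (k + 1 : ℕ)) - ∑ i ∈ range L, f ((i : ℤ) + k) =
        f ((L : ℤ) + k) - f (((0 : ℕ) : ℤ) + k) := by
      rw [← sum_sub_distrib, ← sum_range_sub (fun i : ℕ => f ((i : ℤ) + k))]
      refine sum_congr rfl fun i _ => ?_
      congr 2
      push_cast
      ring
    have h2 := abs_le.1 (hf ((L : ℤ) + k))
    have h3 := abs_le.1 (hf (((0 : ℕ) : ℤ) + k))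
    have h4 := abs_le.1 ih
    have h5 : ((k + 1 : ℕ) : ℝ) = k + 1 := by push_cast; ring
    rw [abs_le, h5]
    constructor <;> linarith

theorem shift_int (f : ℤ → ℝ) (hf : ∀ x, |f x| ≤ 1) (L : ℕ) (k : ℤ) :
    |∑ i ∈ range L, f ((i : ℤ) + k) - ∑ i ∈ range L, f i| ≤ 2 * k.natAbs := by
  obtain ⟨n, rfl | rfl⟩ := Int.eq_nat_or_neg k
  · simpa using shift_nat f hf L n
  · have h := shift_nat (fun x => f (x + -(n : ℤ))) (fun x => hf _) L n
    rw [abs_sub_comm] at h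
    simpa using h

theorem shift_box {F : ℕ} (hF : 0 < F) (a v : O) (L : ℕ) (Φ : O → ℝ) (hΦ : ∀ z, |Φ z| ≤ 1) :
    |∑ z ∈ cbx F a L, Φ (z + (F : O) * v) - ∑ z ∈ cbx F a L, Φ z| ≤ 2 * sz v * L := by
  let G : ℤ → ℤ → ℝ := fun x y => Φ (a + (F : O) * ⟨x, y⟩)
  have e1 : ∑ z ∈ cbx F a L, Φ (z + (F : O) * v) =
      ∑ i ∈ range L, ∑ j ∈ range L, G ((i : ℤ) + v.re) ((j : ℤ) + v.im) := by
    rw [sum_cbx hF, sum_product]
    refine sum_congr rfl fun i _ => sum_congr rfl fun j _ => congrArg Φ ?_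
    rw [add_assoc, ← mul_add]
    rfl
  have e2 : ∑ z ∈ cbx F a L, Φ z = ∑ j ∈ range L, ∑ i ∈ range L, G (i : ℤ) (j : ℤ) := by
    rw [sum_cbx hF, sum_product_right]
    rfl
  have b1 : |∑ i ∈ range L, ∑ j ∈ range L, G ((i : ℤ) + v.re) ((j : ℤ) + v.im) -
      ∑ i ∈ range L, ∑ j ∈ range L, G ((i : ℤ) + v.re) (j : ℤ)| ≤ L * (2 * v.im.natAbs) := by
    rw [← sum_sub_distrib]
    refine (abs_sum_le_sum_abs _ _).trans ((sum_le_card_nsmul _ _ (2 * (v.im.natAbs : ℝ))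
      fun (i : ℕ) _ => shift_int (G ((i : ℤ) + v.re)) (fun _ => hΦ _) L v.im).trans ?_)
    rw [card_range, nsmul_eq_mul]
  have b2 : |∑ j ∈ range L, ∑ i ∈ range L, G ((i : ℤ) + v.re) (j : ℤ) -
      ∑ j ∈ range L, ∑ i ∈ range L, G (i : ℤ) (j : ℤ)| ≤ L * (2 * v.re.natAbs) := by
    rw [← sum_sub_distrib]
    refine (abs_sum_le_sum_abs _ _).trans ((sum_le_card_nsmul _ _ (2 * (v.re.natAbs : ℝ))
      fun (j : ℕ) _ => shift_int (fun x => G x (j : ℤ)) (fun _ => hΦ _) L v.re).trans ?_)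
    rw [card_range, nsmul_eq_mul]
  rw [sum_comm (s := range L) (f := fun j i : ℕ => G ((i : ℤ) + v.re) (j : ℤ))] at b2
  have e3 : (sz v : ℝ) = v.re.natAbs + v.im.natAbs := by rw [sz, Nat.cast_add]
  rw [e1, e2, e3]
  have c1 := abs_le.1 b1
  have c2 := abs_le.1 b2
  rw [abs_le]
  constructor <;> linarith

/-- local cancellation gives cancellation in the box -/
theorem local_global {F : ℕ} (hF : 0 < F) (a : O) {L : ℕ} (hL : 0 < L) (Φ : O → ℝ)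
    (hΦ : ∀ z, |Φ z| ≤ 1) {ι : Type} (X : Finset ι) (hX : 0 < X.card) (v : ι → O) (M β : ℝ)
    (hv : ∀ x ∈ X, (sz (v x) : ℝ) ≤ M)
    (h : ∀ z, |∑ x ∈ X, Φ (z + (F : O) * v x)| ≤ β * X.card) :
    |(∑ z ∈ cbx F a L, Φ z) / (L : ℝ) ^ 2| ≤ β + 2 * M / L := by
  have hL' : (0 : ℝ) < L := by exact_mod_cast hL
  have hX' : (0 : ℝ) < X.card := by exact_mod_cast hX
  have h1 : |∑ x ∈ X, ∑ z ∈ cbx F a L, Φ (z + (F : O) * v x)| ≤ (L : ℝ) ^ 2 * (β * X.card) := by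
    rw [sum_comm]
    refine (abs_sum_le_sum_abs _ _).trans ((sum_le_card_nsmul _ _ _ fun z _ => h z).trans ?_)
    rw [card_cbx hF, nsmul_eq_mul, Nat.cast_pow]
  have h2 : |∑ x ∈ X, ∑ z ∈ cbx F a L, Φ (z + (F : O) * v x) - X.card * ∑ z ∈ cbx F a L, Φ z| ≤
      X.card * (2 * M * L) := by
    rw [← nsmul_eq_mul, ← sum_const, ← sum_sub_distrib, ← nsmul_eq_mul]
    refine (abs_sum_le_sum_abs _ _).trans (sum_le_card_nsmul _ _ _ fun x hx =>
      (shift_box hF a (v x) L Φ hΦ).trans ?_)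
    have := hv x hx
    gcongr
  have h3 : X.card * |∑ z ∈ cbx F a L, Φ z| ≤ X.card * ((L : ℝ) ^ 2 * β + 2 * M * L) := by
    rw [← abs_of_pos hX', ← abs_mul, abs_of_pos hX']
    have c1 := abs_le.1 h1
    have c2 := abs_le.1 h2
    rw [abs_le]
    constructor <;> linarith
  have h4 := le_of_mul_le_mul_left h3 hX'
  rw [abs_div, abs_of_pos (by positivity : (0 : ℝ) < (L : ℝ) ^ 2), div_le_iff₀ (by positivity)]
  refine h4.trans (le_of_eq ?_)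
  field_simp

/-! ### reduction modulo a split prime -/

/-- the reduction attached to a square root of `-3` -/
def pp (t : ℤ) (z : O) : ℤ := z.re + t * z.im

theorem pp_mul {g t : ℤ} (ht : g ∣ t ^ 2 + 3) (x y : O) : g ∣ pp t (x * y) - pp t x * pp t y := by
  have : pp t (x * y) - pp t x * pp t y = (t ^ 2 + 3) * -(x.im * y.im) := by
    simp only [pp, mul_re', mul_im']; ring
  rw [this]
  exact ht.mul_right _

theorem pp_unit {g t : ℤ} (hg : Prime g) (ht : g ∣ t ^ 2 + 3) {x y : O} (hx : ¬g ∣ pp t x)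
    (hy : ¬g ∣ pp t y) : ¬g ∣ pp t (x * y) := fun h =>
  (hg.dvd_or_dvd ((dvd_iff_dvd_of_dvd_sub (pp_mul ht x y)).1 h)).elim hx hy

theorem pp_norm {g t : ℤ} (ht : g ∣ t ^ 2 + 3) {x : O} (hx : ¬g ∣ x.norm) : ¬g ∣ pp t x := by
  intro h
  have : x.norm = pp t x * (x.re - t * x.im) + (t ^ 2 + 3) * x.im ^ 2 := by
    rw [norm_eq, pp]; ring
  exact hx (this ▸ dvd_add (h.mul_right _) (ht.mul_right _))

/-- the root of `-3` attached to an element whose norm is divisible by `g` -/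
theorem exists_root {g : ℕ} (hg : g.Prime) (h3 : 3 < g) {γ : O} (hs : Squarefree γ.norm.natAbs)
    (hd : (g : ℤ) ∣ γ.norm) :
    ∃ t : ℤ, (g : ℤ) ∣ t ^ 2 + 3 ∧ ¬(g : ℤ) ∣ pp t (star γ) ∧ (g : ℤ) ∣ pp (-t) (star γ) := by
  have hp := Nat.prime_iff_prime_int.1 hg
  have hb := not_dvd_both hs hg
  rw [norm_eq] at hd
  have him : ¬(g : ℤ) ∣ γ.im := fun h => by
    have h1 : (g : ℤ) ∣ γ.re ^ 2 :=
      (dvd_add_left ((dvd_pow h two_ne_zero).mul_left 3)).1 hd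
    exact hb ⟨hp.dvd_of_dvd_pow h1, h⟩
  have hre : ¬(g : ℤ) ∣ γ.re := fun h => by
    have h1 : (g : ℤ) ∣ 3 * γ.im ^ 2 := (dvd_add_right (dvd_pow h two_ne_zero)).1 hd
    rcases hp.dvd_or_dvd h1 with h2 | h2
    · have := Int.le_of_dvd (by norm_num) h2
      omega
    · exact him (hp.dvd_of_dvd_pow h2)
  obtain ⟨u, v, huv⟩ := (hp.irreducible.coprime_iff_not_dvd.2 him)
  have h1 : (g : ℤ) ∣ γ.re + -(γ.re * v) * γ.im := ⟨γ.re * u, by linear_combination (-γ.re) * huv⟩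
  refine ⟨-(γ.re * v), ?_, fun h => ?_, ?_⟩
  · have h2 : (g : ℤ) ∣ γ.im ^ 2 * ((-(γ.re * v)) ^ 2 + 3) := by
      have : γ.im ^ 2 * ((-(γ.re * v)) ^ 2 + 3) = γ.re ^ 2 + 3 * γ.im ^ 2 +
          (γ.re + -(γ.re * v) * γ.im) * (-(γ.re * v) * γ.im - γ.re) := by ring
      rw [this]
      exact dvd_add hd (h1.mul_right _)
    exact (hp.dvd_or_dvd h2).resolve_left fun h => him (hp.dvd_of_dvd_pow h)
  · have h2 : (g : ℤ) ∣ 2 * γ.re := by
      have h5 := dvd_add h h1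
      have h6 : pp (-(γ.re * v)) (star γ) + (γ.re + -(γ.re * v) * γ.im) = 2 * γ.re := by
        simp only [pp, Zsqrtd.re_star, Zsqrtd.im_star]
        ring
      rwa [h6] at h5
    rcases hp.dvd_or_dvd h2 with h4 | h4
    · have := Int.le_of_dvd (by norm_num) h4
      omega
    · exact hre h4
  · have h6 : pp (- -(γ.re * v)) (star γ) = γ.re + -(γ.re * v) * γ.im := by
      simp only [pp, Zsqrtd.re_star, Zsqrtd.im_star]
      ring
    rwa [h6]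

/-! ### sizes -/

theorem sz_natCast_mul (n : ℕ) (x : O) : sz ((n : O) * x) = n * sz x := by
  simp only [sz, mul_re', mul_im', Zsqrtd.re_natCast, Zsqrtd.im_natCast, zero_mul, mul_zero,
    sub_zero, add_zero, Int.natAbs_mul, Int.natAbs_natCast]
  ring

theorem sz_sum {ι : Type} (s : Finset ι) (x : ι → O) : sz (∑ i ∈ s, x i) ≤ ∑ i ∈ s, sz (x i) := by
  induction s using Finset.induction_on with
  | empty => simp [sz]
  | insert a s ha ih =>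
    rw [sum_insert ha, sum_insert ha]
    exact (sz_add _ _).trans (Nat.add_le_add_left ih _)

theorem sz_le {γ : O} {c : ℕ} (h : γ.norm ≤ 400 * (c : ℤ) ^ 2) : sz γ ≤ 29 * c := by
  have h1 := sz_le_norm γ
  have h2 : (sz γ : ℤ) ^ 2 ≤ (29 * (c : ℤ)) ^ 2 := by nlinarith [sq_nonneg (c : ℤ)]
  have h3 := (abs_le_of_sq_le_sq' h2 (by positivity)).2
  exact_mod_cast h3

/-! ### the monomials -/

theorem abs_jac (a : ℤ) (b : ℕ) : |(J(a | b) : ℝ)| ≤ 1 := by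
  rcases jacobiSym.trichotomy a b with h | h | h <;> simp [h]

theorem abs_prod {ι : Type} (s : Finset ι) (f : ι → ℝ) (h : ∀ i, |f i| ≤ 1) :
    |∏ i ∈ s, f i| ≤ 1 := by
  rw [Finset.abs_prod]
  exact prod_le_one (fun _ _ => abs_nonneg _) fun i _ => h i

theorem abs_mul_le {a b : ℝ} (ha : |a| ≤ 1) (hb : |b| ≤ 1) : |a * b| ≤ 1 := by
  rw [abs_mul]
  exact mul_le_one₀ ha (abs_nonneg _) hb

/-- the factor of one form -/
def fac (S : Sc) (A : Finset ℤ) (φ : ℕ → ℝ) (n : ℤ) : ℝ :=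
  if n ∈ A then φ (S.W * n + S.b).natAbs else 0

theorem abs_fac (S : Sc) (A : Finset ℤ) {φ : ℕ → ℝ} (h : ∀ x, |φ x| ≤ 1) (n : ℤ) :
    |fac S A φ n| ≤ 1 := by
  unfold fac
  split_ifs
  · exact h _
  · simp

theorem mon_eq (S : Sc) (A : Finset ℤ) (U : Finset ℕ) (φ : Fin 6 → ℕ → ℝ) (γ z : O) :
    S.Mon A U 0 φ γ z =
      (∏ g ∈ U, (J(z.norm | g) : ℝ)) * ∏ j, fac S A (φ j) (S.nn j (γ * z)) := by
  unfold Sc.Mon
  split_ifs with h
  · rw [pow_zero, mul_one]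
    exact congrArg _ (prod_congr rfl fun j _ => by rw [fac, if_pos (h j)]; rfl)
  · obtain ⟨j, hj⟩ := not_forall.1 h
    rw [prod_eq_zero (mem_univ j) (by rw [fac, if_neg hj]), mul_zero]

theorem pair_eq (S : Sc) (A : Finset ℤ) (φ φ' : Fin 6 → ℕ → ℝ) (θ : O × O) (z : O) :
    (∏ j, fac S A (φ j) (S.nn j (θ.1 * z))) * ∏ j, fac S A (φ' j) (S.nn j (θ.2 * z)) =
      ∏ t : Fin 12, fac S A ((if (t : ℕ) < 6 then φ else φ') (jx t))
        (S.nn (jx t) (sd θ t * z)) := by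
  simp only [Fin.prod_univ_succ, Fin.prod_univ_zero, mul_one, mul_assoc]
  rfl

theorem nn_shift (S : Sc) (θ : O × O) (m : ℕ) (z : O) (t : Fin 12) (x : Fin 12 → ℕ) :
    S.nn (jx t) (sd θ t * (z + (S.F : O) * ((m : O) * ∑ i, (x i : O) * S.d.dir θ i))) =
      S.nn (jx t) (sd θ t * z) + m * ∑ i, (x i : ℤ) * S.d.bb θ t i := by
  have h : sd θ t * (z + (S.F : O) * ((m : O) * ∑ i, (x i : O) * S.d.dir θ i)) =
      sd θ t * z + (S.F : O) * ((m : O) * ∑ i, (x i : O) * (sd θ t * S.d.dir θ i)) := by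
    have : ∑ i, (x i : O) * (sd θ t * S.d.dir θ i) = sd θ t * ∑ i, (x i : O) * S.d.dir θ i := by
      rw [mul_sum]
      exact sum_congr rfl fun i _ => by ring
    rw [this]
    ring
  rw [h, Sc.nn, S.d.nn_add S.F_pos, S.d.lam_natCast_mul, S.d.lam_sum]
  exact congrArg _ (congrArg _ (sum_congr rfl fun i _ => S.d.lam_natCast_mul _ _ _))

theorem jac_shift {g m : ℕ} (h : g ∣ m) (F : ℕ) (z v : O) :
    J((z + (F : O) * ((m : O) * v)).norm | g) = J(z.norm | g) := by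
  obtain ⟨k, rfl⟩ := h
  have h1 : (g : O) ∣ z + (F : O) * (((g * k : ℕ) : O) * v) - z :=
    ⟨(F : O) * ((k : O) * v), by push_cast; ring⟩
  exact jacobiSym.mod_left' (Int.emod_eq_emod_iff_emod_sub_eq_zero.2
    (Int.emod_eq_zero_of_dvd (norm_congr h1)))

/-! ### the local estimate -/

theorem loc {C : ℝ}
    (hW : ∀ (g : ℕ) (t : ℤ) (u : Fin 12 → O) (t₀ : Fin 12) (z : O), g.Prime → 3 < g →
      (g : ℤ) ∣ t ^ 2 + 3 → (∀ i, ¬(g : ℤ) ∣ (u i).re + t * (u i).im) →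
      (g : ℤ) ∣ (u t₀).re - t * (u t₀).im →
      Cv.Cut (s := 12) (range g) (fun x => (J((z + ∑ i, (x i : O) * u i).norm | g) : ℝ))
        (C / (g : ℝ) ^ (1 / 8192 : ℝ)))
    (S : Sc) (A : Finset ℤ) (θ : O × O) (U U' : Finset ℕ) (φ φ' : Fin 6 → ℕ → ℝ)
    (hφ : ∀ j x, |φ j x| ≤ 1) (hφ' : ∀ j x, |φ' j x| ≤ 1) {g m : ℕ} (hg : g.Prime) (h3 : 3 < g)
    (hC : S.d.C ^ 2 < g) (hF : ¬g ∣ S.F) (hm : ¬g ∣ m) (hs : Squarefree θ.1.norm.natAbs)
    (h1 : (g : ℤ) ∣ θ.1.norm) (h2 : ¬(g : ℤ) ∣ θ.2.norm) (hU : g ∈ U)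
    (hUm : ∀ p ∈ U.erase g, p ∣ m) (hUm' : ∀ p ∈ U', p ∣ m) (z : O) :
    |∑ x ∈ Fintype.piFinset fun _ : Fin 12 => range g,
      S.Mon A U 0 φ θ.1 (z + (S.F : O) * ((m : O) * ∑ i, (x i : O) * S.d.dir θ i)) *
        S.Mon A U' 0 φ' θ.2 (z + (S.F : O) * ((m : O) * ∑ i, (x i : O) * S.d.dir θ i))| ≤
      C / (g : ℝ) ^ (1 / 8192 : ℝ) * (Fintype.piFinset fun _ : Fin 12 => range g).card := by
  have hp := Nat.prime_iff_prime_int.1 hg
  obtain ⟨t, ht, ht1, ht2⟩ := exists_root hg h3 hs h1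
  have ht' : (g : ℤ) ∣ (-t) ^ 2 + 3 := by rwa [neg_sq]
  have hn : ∀ n : ℕ, ¬g ∣ n → ¬(g : ℤ) ∣ pp t (n : O) := fun n h => by
    simpa [pp, Int.natCast_dvd_natCast] using h
  have hunit : ∀ i, ¬(g : ℤ) ∣ pp t ((S.F : O) * ((m : O) * S.d.dir θ i)) := fun i => by
    refine pp_unit hp ht (hn _ hF) (pp_unit hp ht (hn _ hm) (pp_unit hp ht ?_ (pp_norm ht ?_)))
    · unfold sd
      split_ifs
      · exact ht1
      · exact pp_norm ht (by rwa [Zsqrtd.norm_conj])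
    · intro h
      have h4 := (Int.le_of_dvd (S.d.norm_ker_pos _) h).trans (S.d.norm_ker_le (jx i))
      have h5 : g ≤ S.d.C ^ 2 := by exact_mod_cast h4
      omega
  have hzero : (g : ℤ) ∣ pp (-t) ((S.F : O) * ((m : O) * S.d.dir θ 0)) := by
    have e : (S.F : O) * ((m : O) * S.d.dir θ 0) =
        star θ.1 * ((S.F : O) * (m : O) * S.d.ker (jx 0)) := by
      have : S.d.dir θ 0 = star θ.1 * S.d.ker (jx 0) := rfl
      rw [this]
      ring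
    rw [e]
    exact (dvd_iff_dvd_of_dvd_sub (pp_mul ht' _ _)).2 (ht2.mul_right _)
  have key := hW g t (fun i => (S.F : O) * ((m : O) * S.d.dir θ i)) 0 z hg h3 ht hunit
    (by simpa only [pp, neg_mul, ← sub_eq_add_neg] using hzero)
    (fun r x => fac S A ((if (r : ℕ) < 6 then φ else φ') (jx r))
      (S.nn (jx r) (sd θ r * z) + m * ∑ i, (x i : ℤ) * S.d.bb θ r i))
    ⟨fun r x => abs_fac S A (fun y => by split_ifs <;> apply_assumption) _, fun r x a => by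
      refine congrArg _ (congrArg _ (congrArg _ (sum_congr rfl fun i _ => ?_)))
      rcases eq_or_ne i r with rfl | h
      · rw [S.d.bb_self, mul_zero, mul_zero]
      · rw [Function.update_of_ne h]⟩
  have hc : |(∏ p ∈ U.erase g, (J(z.norm | p) : ℝ)) * ∏ p ∈ U', (J(z.norm | p) : ℝ)| ≤ 1 :=
    abs_mul_le (abs_prod _ _ fun p => abs_jac _ p) (abs_prod _ _ fun p => abs_jac _ p)
  have e : ∀ x : Fin 12 → ℕ,
      S.Mon A U 0 φ θ.1 (z + (S.F : O) * ((m : O) * ∑ i, (x i : O) * S.d.dir θ i)) *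
        S.Mon A U' 0 φ' θ.2 (z + (S.F : O) * ((m : O) * ∑ i, (x i : O) * S.d.dir θ i)) =
      ((∏ p ∈ U.erase g, (J(z.norm | p) : ℝ)) * ∏ p ∈ U', (J(z.norm | p) : ℝ)) *
        ((J((z + ∑ i, (x i : O) * ((S.F : O) * ((m : O) * S.d.dir θ i))).norm | g) : ℝ) *
          ∏ r : Fin 12, fac S A ((if (r : ℕ) < 6 then φ else φ') (jx r))
            (S.nn (jx r) (sd θ r * z) + m * ∑ i, (x i : ℤ) * S.d.bb θ r i)) := fun x => by
    have e1 : ∑ i, (x i : O) * ((S.F : O) * ((m : O) * S.d.dir θ i)) =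
        (S.F : O) * ((m : O) * ∑ i, (x i : O) * S.d.dir θ i) := by
      rw [mul_sum, mul_sum]
      exact sum_congr rfl fun i _ => by ring
    have e2 := pair_eq S A φ φ' θ (z + (S.F : O) * ((m : O) * ∑ i, (x i : O) * S.d.dir θ i))
    simp only [nn_shift] at e2
    rw [e1, ← e2, mon_eq, mon_eq, ← mul_prod_erase U _ hU,
      prod_congr rfl fun p hp => congrArg (Int.cast : ℤ → ℝ) (jac_shift (hUm p hp) S.F z _),
      prod_congr (s₁ := U') rfl fun p hp =>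
        congrArg (Int.cast : ℤ → ℝ) (jac_shift (hUm' p hp) S.F z _)]
    ring
  rw [sum_congr rfl fun x _ => e x, ← mul_sum, abs_mul, Fintype.card_piFinset_const, Nat.cast_pow]
  exact (mul_le_of_le_one_left (abs_nonneg _) hc).trans key

theorem abs_mon (S : Sc) (A : Finset ℤ) (U : Finset ℕ) {φ : Fin 6 → ℕ → ℝ}
    (hφ : ∀ j x, |φ j x| ≤ 1) (γ z : O) : |S.Mon A U 0 φ γ z| ≤ 1 := by
  rw [mon_eq]
  exact abs_mul_le (abs_prod _ _ fun p => abs_jac _ p)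
    (abs_prod _ _ fun j => abs_fac S A (hφ j) _)

/-- the size of the shifts -/
theorem sz_shift (S : Sc) (θ : O × O) (h1 : θ.1.norm ≤ 400 * ((S.d.C * S.G : ℕ) : ℤ) ^ 2)
    (h2 : θ.2.norm ≤ 400 * ((S.d.C * S.G : ℕ) : ℤ) ^ 2) {g m : ℕ}
    (hm : m * g = θ.1.norm.natAbs * θ.2.norm.natAbs) (x : Fin 12 → ℕ) (hx : ∀ i, x i ≤ g) :
    sz ((m : O) * ∑ i, (x i : O) * S.d.dir θ i) ≤ 167040000 * S.d.C ^ 6 * S.G ^ 5 := by
  have hd : ∀ i, sz (S.d.dir θ i) ≤ 3 * (29 * (S.d.C * S.G)) * S.d.C := fun i => by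
    refine (sz_mul _ _).trans (Nat.mul_le_mul (Nat.mul_le_mul_left _ ?_) (S.d.sz_ker _))
    rw [sz_star]
    unfold sd
    split_ifs
    · exact sz_le h1
    · exact sz_le h2
  have hs : sz (∑ i, (x i : O) * S.d.dir θ i) ≤ 12 * (g * (3 * (29 * (S.d.C * S.G)) * S.d.C)) := by
    refine (sz_sum _ _).trans ((sum_le_card_nsmul _ _ (g * (3 * (29 * (S.d.C * S.G)) * S.d.C))
      fun i _ => ?_).trans ?_)
    · rw [sz_natCast_mul]
      exact Nat.mul_le_mul (hx i) (hd i)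
    · rw [card_univ, Fintype.card_fin, smul_eq_mul]
  have hn : ∀ γ : O, γ.norm ≤ 400 * ((S.d.C * S.G : ℕ) : ℤ) ^ 2 →
      γ.norm.natAbs ≤ 400 * (S.d.C * S.G) ^ 2 := fun γ h => by
    have h4 : (γ.norm.natAbs : ℤ) ≤ 400 * ((S.d.C * S.G : ℕ) : ℤ) ^ 2 := by
      rwa [Int.natAbs_of_nonneg (norm_nonneg' γ)]
    exact_mod_cast h4
  rw [sz_natCast_mul]
  calc _ ≤ m * (12 * (g * (3 * (29 * (S.d.C * S.G)) * S.d.C))) := Nat.mul_le_mul_left _ hs
    _ = m * g * (1044 * S.d.C ^ 2 * S.G) := by ring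
    _ ≤ 400 * (S.d.C * S.G) ^ 2 * (400 * (S.d.C * S.G) ^ 2) * (1044 * S.d.C ^ 2 * S.G) := by
      rw [hm]
      exact Nat.mul_le_mul_right _ (Nat.mul_le_mul (hn _ h1) (hn _ h2))
    _ = _ := by ring

theorem num1 {C L g : ℝ} {n : ℕ} (hL : 1 ≤ L) (hC : 2 * |C| ≤ L)
    (hg : L ^ (8192 * (n + 1)) ≤ g) : C / g ^ (1 / 8192 : ℝ) ≤ 1 / 2 * (1 / L ^ n) := by
  have hL0 : 0 < L := by linarith
  have h1 : L ^ (n + 1) ≤ g ^ (1 / 8192 : ℝ) := by
    have h2 := Real.rpow_le_rpow (by positivity) hg (by norm_num : (0 : ℝ) ≤ 1 / 8192)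
    refine le_of_eq_of_le ?_ h2
    rw [mul_comm, pow_mul, one_div]
    exact_mod_cast (Real.pow_rpow_inv_natCast (by positivity : 0 ≤ L ^ (n + 1))
      (by norm_num : 8192 ≠ 0)).symm
  have h3 : 0 < L ^ (n + 1) := by positivity
  calc C / g ^ (1 / 8192 : ℝ) ≤ |C| / g ^ (1 / 8192 : ℝ) :=
        div_le_div_of_nonneg_right (le_abs_self C) (h3.le.trans h1)
    _ ≤ L / 2 / L ^ (n + 1) := by gcongr; linarith
    _ = _ := by rw [pow_succ']; field_simp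

theorem num2 {K L ρ G l J T : ℝ} {n : ℕ} (hL : 0 < L) (hl : 0 < l) (hG : 0 ≤ G) (hJ : 0 < J)
    (hK : 8 * J * K * L ^ n ≤ ρ) (h1 : ρ * G ≤ T) (h2 : T ≤ 2 * J * l) :
    2 * (K * G) / l ≤ 1 / 2 * (1 / L ^ n) := by
  have h3 : 0 < L ^ n := by positivity
  have h4 : 8 * J * K * L ^ n * G ≤ 2 * J * l :=
    (mul_le_mul_of_nonneg_right hK hG).trans (h1.trans h2)
  have h5 : J * (4 * K * L ^ n * G) ≤ J * l := by linarith
  have h6 := le_of_mul_le_mul_left h5 hJ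
  rw [div_le_iff₀ hl, div_mul_div_comm, div_mul_eq_mul_div, le_div_iff₀ (by positivity)]
  linarith

end OscXAux

open OscXAux in
theorem stOscX (hWeil : StWeil) (hScale : StScale) : StOscX := by
  obtain ⟨C, hW⟩ := hWeil
  intro d P hP n
  have hS : Ev d P _ := ⟨4, fun w hw => hScale.2.2.2 d P hP (8192 * (n + 1)) w hw⟩
  have hE : ∀ᶠ ρ : ℕ in atTop, ((d.C : ℝ) ^ 2 + 3 + 2 * |C| ≤ Real.log ρ ∧
      8 * P.J * (167040000 * (d.C : ℝ) ^ 6) * Real.log ρ ^ n ≤ ρ) ∧ P.J ≤ ρ :=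
    ((ev_log _).and (ev_log_pow _ n)).and (eventually_ge_atTop _)
  refine (hS.and (Ev.of_eventually (d := d) (P := P) 0 fun _ _ => hE)).mono ?_
  rintro S rfl rfl - ⟨⟨-, -, hy, -, -, -, -, -, hFr⟩, -, ⟨hlog, hK⟩, hJ⟩
  intro A _ θ ⟨hf1, hf2, hco, _⟩ U φ U' φ' hU hU' ⟨g, hg⟩ hφ hφ'
  obtain ⟨b1, b2, b3, b4⟩ := hP.big
  have hgp := Nat.prime_of_mem_primeFactors (hU hg)
  obtain ⟨m₁, hm₁⟩ := Nat.dvd_of_mem_primeFactors (hU hg)
  have hg1 : (g : ℤ) ∣ θ.1.norm := Int.natCast_dvd.2 ⟨m₁, hm₁⟩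
  have hp := Nat.prime_iff_prime_int.1 hgp
  have hg2 : ¬(g : ℤ) ∣ θ.2.norm := fun h => hp.not_isUnit (hco.isUnit_of_dvd' hg1 h)
  have hgF : ¬g ∣ S.F := fun h =>
    hp.not_isUnit ((hFr _ hf1).2.1.isUnit_of_dvd' hg1 (Int.natCast_dvd_natCast.2 h))
  have hgm : ¬g ∣ m₁ * θ.2.norm.natAbs := fun h => by
    rcases hgp.dvd_mul.1 h with h | h
    · exact hgp.one_lt.ne' (Nat.isUnit_iff.1
        (hf1.2.2.1 g (hm₁ ▸ Nat.mul_dvd_mul_left g h)))
    · exact hg2 (Int.natCast_dvd.2 h)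
  have hC0 : (0 : ℝ) ≤ (S.d.C : ℝ) ^ 2 := sq_nonneg _
  have hL1 : 1 ≤ Real.log S.ρ := by linarith [abs_nonneg C]
  have hyg : (S.y : ℝ) < g := by exact_mod_cast (hFr _ hf1).2.2.1 g hgp hg1
  have hbig : (S.d.C : ℝ) ^ 2 + 3 < g := by
    have := le_self_pow₀ hL1 (by omega : 8192 * (n + 1) ≠ 0)
    linarith [abs_nonneg C]
  have hbig' : S.d.C ^ 2 + 3 < g := by exact_mod_cast hbig
  have hρ : 0 < S.ρ := by omega
  have hl := Sc.le_l hP hJ
  have hl0 : 0 < S.l := Nat.pos_of_ne_zero fun h => by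
    rw [h, mul_zero] at hl
    exact absurd hl (not_le.2 (pow_pos hρ _))
  have hn1 : θ.1.norm ≤ 400 * ((S.d.C * S.G : ℕ) : ℤ) ^ 2 :=
    hf1.2.2.2.2.trans (le_of_eq (by push_cast; ring))
  have hn2 : θ.2.norm ≤ 400 * ((S.d.C * S.G : ℕ) : ℤ) ^ 2 :=
    hf2.2.2.2.2.trans (le_of_eq (by push_cast; ring))
  have key := local_global S.F_pos S.w0 hl0
    (fun z => S.Mon A U 0 φ θ.1 z * S.Mon A U' 0 φ' θ.2 z)
    (fun z => abs_mul_le (abs_mon S A U hφ _ z) (abs_mon S A U' hφ' _ z))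
    (Fintype.piFinset fun _ : Fin 12 => range g)
    (by rw [Fintype.card_piFinset_const, card_range]; exact pow_pos hgp.pos _)
    (fun x => ((m₁ * θ.2.norm.natAbs : ℕ) : O) * ∑ i, (x i : O) * S.d.dir θ i)
    (167040000 * (S.d.C : ℝ) ^ 6 * (S.G : ℝ) ^ 5) (C / (g : ℝ) ^ (1 / 8192 : ℝ))
    (fun x hx => by
      exact_mod_cast sz_shift S θ hn1 hn2 (g := g) (by rw [hm₁]; ring) x
        fun i => (mem_range.1 (Fintype.mem_piFinset.1 hx i)).le)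
    (loc hW S A θ U U' φ φ' hφ hφ' hgp (by omega) (by omega) hgF hgm hf1.2.2.1 hg1 hg2 hg
      (fun p hp => by
        obtain ⟨h1, h2⟩ := mem_erase.1 hp
        have h3 := Nat.prime_of_mem_primeFactors (hU h2)
        have h4 := Nat.dvd_of_mem_primeFactors (hU h2)
        rw [hm₁] at h4
        exact ((h3.dvd_mul.1 h4).resolve_left fun h5 =>
          h1 ((Nat.prime_dvd_prime_iff_eq h3 hgp).1 h5)).mul_right _)
      fun p hp => (Nat.dvd_of_mem_primeFactors (hU' hp)).mul_left _)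
  have hT : S.ρ * S.G ^ 5 ≤ S.ρ ^ (S.P.E * S.P.A - 8 * S.P.a) := by
    rw [Sc.G, ← pow_mul, ← pow_succ']
    exact Nat.pow_le_pow_right hρ (by omega)
  have n1 := num1 (C := C) (n := n) hL1 (by linarith) (hy.trans hyg.le)
  have n2 := num2 (n := n) (G := (S.G : ℝ) ^ 5) (l := S.l)
    (T := ((S.ρ ^ (S.P.E * S.P.A - 8 * S.P.a) : ℕ) : ℝ)) (by linarith : 0 < Real.log S.ρ)
    (by exact_mod_cast hl0) (by positivity) (by exact_mod_cast (by omega : 0 < S.P.J)) hK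
    (by exact_mod_cast hT) (by exact_mod_cast hl)
  exact key.trans (by linarith)

end Pool.Agent.Lib.MP_7d3fda_nt.Q3
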