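import Pool.Agent.Lib.MP_7d3fda_nt.Q3.Basic

open Finset Filter
open scoped Classical NumberTheorySymbols

noncomputable section

namespace Pool.Agent.Lib.MP_7d3fda_nt.Q3

open Pool.Agent.Lib.MP_4b8564_nt Pool.Agent.Lib.MP_4b8564_nt.GT
open Pool.Agent.Lib.MP_0a3467_an.Cv (Low)
open Pool.Agent.Lib.MP_0a3467_an

namespace PackAux

theorem abs_le_of_mul {k z B : ℤ} (hk : k ≠ 0) (h : |k * z| ≤ B) : |z| ≤ B := by
  rw [abs_mul] at h
  have h1 : 1 ≤ |k| := Int.one_le_abs hk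
  nlinarith [abs_nonneg z]

/-- two forms bound the size -/
theorem sz_le (d : Dat) {i j : Fin 6} (hij : i ≠ j) (v : O) {t : ℤ} (h1 : |d.lam i v| ≤ t)
    (h2 : |d.lam j v| ≤ t) : (sz v : ℤ) ≤ d.C * t := by
  have hc : d.c i - d.c j ≠ 0 := sub_ne_zero.2 fun h => hij (d.hc h)
  have he : (0 : ℤ) < d.e := by exact_mod_cast d.he
  have ht : 0 ≤ t := (abs_nonneg _).trans h1
  have k1 : |v.im| ≤ 2 * t := by
    refine abs_le_of_mul hc ?_
    rw [show (d.c i - d.c j) * v.im = d.lam i v - d.lam j v by simp only [Dat.lam]; ring]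
    exact (abs_sub _ _).trans (by linarith)
  have k2 : |v.re| ≤ (|d.c i| + |d.c j|) * t := by
    refine abs_le_of_mul (mul_ne_zero he.ne' hc) ?_
    rw [show d.e * (d.c i - d.c j) * v.re = d.c i * d.lam j v - d.c j * d.lam i v by
      simp only [Dat.lam]; ring]
    refine (abs_sub _ _).trans ?_
    rw [abs_mul, abs_mul, add_mul]
    exact add_le_add (mul_le_mul_of_nonneg_left h2 (abs_nonneg _))
      (mul_le_mul_of_nonneg_left h1 (abs_nonneg _))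
  have k3 := d.cc_le hij
  rw [sz_cast]
  nlinarith

theorem close {s u v : ℤ} (hs : 0 < s) (h : u / s = v / s) : |u - v| ≤ s - 1 := by
  have h1 := Int.emod_add_mul_ediv u s
  have h2 := Int.emod_add_mul_ediv v s
  have h3 := Int.emod_nonneg u hs.ne'
  have h4 := Int.emod_nonneg v hs.ne'
  have h5 := Int.emod_lt_of_pos u hs
  have h6 := Int.emod_lt_of_pos v hs
  rw [h] at h1
  rw [abs_le]
  constructor <;> linarith

theorem sep (d : Dat) {b F : ℕ} {x : O} {i j : Fin 6} (hF : 0 < F)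
    (hx : IsCoprime x.norm (F : ℤ)) (hij : i ≠ j) {t : ℤ}
    (ht : 3 * ((d.C : ℤ) * t) ^ 2 < x.norm) {γ γ' : O} (h : (F : O) ∣ γ * x - b)
    (h' : (F : O) ∣ γ' * x - b) (h1 : |d.nn b F i (γ * x) - d.nn b F i (γ' * x)| ≤ t)
    (h2 : |d.nn b F j (γ * x) - d.nn b F j (γ' * x)| ≤ t) : γ = γ' := by
  obtain ⟨δ, hδ⟩ : (F : O) ∣ γ - γ' :=
    dvd_of_mul hx (by simpa [sub_mul] using dvd_sub h h')
  have e : γ * x = γ' * x + (F : O) * (δ * x) := by linear_combination x * hδ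
  rw [e, d.nn_add hF, add_sub_cancel_left] at h1 h2
  have k1 := sz_le d hij _ h1 h2
  have k2 := norm_le_sz (δ * x)
  have k3 : (sz (δ * x) : ℤ) ^ 2 ≤ ((d.C : ℤ) * t) ^ 2 := pow_le_pow_left₀ (by positivity) k1 2
  by_contra hne
  have k4 : δ ≠ 0 := fun h0 => hne (by rw [h0, mul_zero] at hδ; exact sub_eq_zero.1 hδ)
  have k5 := norm_pos' k4
  have k6 := norm_nonneg' x
  rw [Zsqrtd.norm_mul] at k2
  nlinarith

theorem cell {s : ℕ} (hs : 0 < s) {a u : ℤ} {l : ℕ} (h1 : a ≤ u) (h2 : u < a + l) :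
    (u - a) / s ∈ Ico (0 : ℤ) ((l / s + 1 : ℕ) : ℤ) := by
  have hs' : (0 : ℤ) < s := by exact_mod_cast hs
  refine mem_Ico.2 ⟨Int.ediv_nonneg (by omega) hs'.le, ?_⟩
  have h3 : (u - a) / s ≤ (l : ℤ) / s := Int.ediv_le_ediv hs' (by omega)
  push_cast
  omega

end PackAux

theorem stPack : StPack := by
  intro d
  have hC : 0 < d.C := lt_of_lt_of_le (by norm_num) d.three_le_C
  refine ⟨3 * (d.C : ℝ) ^ 2, by positivity, fun b F x i j a₁ a₂ l₁ l₂ hF hx hc hij => ?_⟩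
  have hC1 : (1 : ℤ) ≤ d.C := by exact_mod_cast hC
  have hz : x.norm ≤ 3 * ((d.C : ℤ) * (sz x : ℕ)) ^ 2 := by
    have h1 := norm_le_sz x
    have h2 : (sz x : ℤ) ^ 2 ≤ ((d.C : ℤ) * (sz x : ℕ)) ^ 2 :=
      pow_le_pow_left₀ (by positivity) (le_mul_of_one_le_left (by positivity) hC1) 2
    linarith
  have hex : ∃ s : ℕ, x.norm ≤ 3 * ((d.C : ℤ) * s) ^ 2 := ⟨_, hz⟩
  obtain ⟨s, hs1, hs2, hs3⟩ : ∃ s : ℕ, x.norm ≤ 3 * ((d.C : ℤ) * s) ^ 2 ∧ s ≤ sz x ∧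
      ∀ m < s, ¬x.norm ≤ 3 * ((d.C : ℤ) * (m : ℕ)) ^ 2 :=
    ⟨Nat.find hex, Nat.find_spec hex, Nat.find_min' hex hz, fun m hm => Nat.find_min hex hm⟩
  have hs : 0 < s := by
    rcases Nat.eq_zero_or_pos s with rfl | h
    · have := norm_pos' hx
      simp at hs1
      omega
    · exact h
  have hs' : (0 : ℤ) < s := by exact_mod_cast hs
  have ht : 3 * ((d.C : ℤ) * ((s : ℤ) - 1)) ^ 2 < x.norm := by
    have h1 := not_le.1 (hs3 (s - 1) (by omega))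
    rwa [Nat.cast_sub hs, Nat.cast_one] at h1
  set A : Set O := {γ : O | (F : O) ∣ γ * x - b ∧ a₁ ≤ d.nn b F i (γ * x) ∧
    d.nn b F i (γ * x) < a₁ + l₁ ∧ a₂ ≤ d.nn b F j (γ * x) ∧ d.nn b F j (γ * x) < a₂ + l₂} with hA
  let f : O → ℤ × ℤ := fun γ => ((d.nn b F i (γ * x) - a₁) / s, (d.nn b F j (γ * x) - a₂) / s)
  let B : Finset (ℤ × ℤ) := Ico (0 : ℤ) ((l₁ / s + 1 : ℕ) : ℤ) ×ˢ Ico (0 : ℤ) ((l₂ / s + 1 : ℕ) : ℤ)
  have hm : ∀ γ ∈ A, f γ ∈ (B : Set (ℤ × ℤ)) := fun γ ⟨_, h1, h2, h3, h4⟩ =>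
    mem_coe.2 (mem_product.2 ⟨PackAux.cell hs h1 h2, PackAux.cell hs h3 h4⟩)
  have hi : Set.InjOn f A := fun γ h γ' h' e => by
    have e1 := PackAux.close hs' (congrArg Prod.fst e)
    have e2 := PackAux.close hs' (congrArg Prod.snd e)
    rw [sub_sub_sub_cancel_right] at e1 e2
    exact PackAux.sep d hF hc hij ht h.1 h'.1 e1 e2
  refine ⟨Set.Finite.of_injOn hm hi B.finite_toSet, ?_⟩
  have h1 := Set.ncard_le_ncard_of_injOn f hm hi B.finite_toSet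
  rw [Set.ncard_coe_finset, card_product, Int.card_Ico, Int.card_Ico, sub_zero, sub_zero,
    Int.toNat_natCast, Int.toNat_natCast] at h1
  have h2 : (A.ncard : ℝ) ≤ ((l₁ / s + 1 : ℕ) : ℝ) * ((l₂ / s + 1 : ℕ) : ℝ) := by exact_mod_cast h1
  have h3 : (x.norm : ℝ) ≤ 3 * ((d.C : ℝ) * s) ^ 2 := by exact_mod_cast hs1
  have h4 : ∀ l : ℕ, ((l / s + 1 : ℕ) : ℝ) * s ≤ (l : ℝ) + sz x := fun l => by
    have k1 : (l / s + 1) * s ≤ l + sz x := by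
      have := Nat.div_mul_le_self l s
      rw [add_mul, one_mul]
      omega
    exact_mod_cast k1
  have h5 : (0 : ℝ) ≤ x.norm := by exact_mod_cast norm_nonneg' x
  calc (A.ncard : ℝ) * x.norm
      ≤ (((l₁ / s + 1 : ℕ) : ℝ) * ((l₂ / s + 1 : ℕ) : ℝ)) * (3 * ((d.C : ℝ) * s) ^ 2) :=
        mul_le_mul h2 h3 h5 (by positivity)
    _ = 3 * (d.C : ℝ) ^ 2 * (((l₁ / s + 1 : ℕ) : ℝ) * s) * (((l₂ / s + 1 : ℕ) : ℝ) * s) := by ring
    _ ≤ 3 * (d.C : ℝ) ^ 2 * ((l₁ : ℝ) + sz x) * ((l₂ : ℝ) + sz x) := by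
        have := h4 l₁
        have := h4 l₂
        gcongr

end Pool.Agent.Lib.MP_7d3fda_nt.Q3
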