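import Pool.Agent.Lib.MP_7d3fda_nt.Q3.Dns
import Pool.Agent.Lib.MP_4b8564_nt.GT.Counting

open Finset Filter
open scoped Classical NumberTheorySymbols

noncomputable section

namespace Pool.Agent.Lib.MP_7d3fda_nt.Q3

open Pool.Agent.Lib.MP_4b8564_nt Pool.Agent.Lib.MP_4b8564_nt.GT
open Pool.Agent.Lib.MP_0a3467_an.Cv (Low)
open Pool.Agent.Lib.MP_0a3467_an

/-! Transfer for one pair. -/

namespace PairAux

theorem bet_nonneg (P : Finset ℕ) (hP : ∀ p ∈ P, p.Prime) (R : ℕ) (E : ℕ → Prop) :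
    0 ≤ bet P R E := by
  refine div_nonneg (sq_nonneg _) (sum_nonneg fun U hU => prod_nonneg fun p hp => ?_)
  have h1 : p ∈ P := mem_powerset.1 (mem_filter.1 hU).1 hp
  have h2 : (2 : ℝ) ≤ p := by exact_mod_cast (hP p h1).two_le
  exact div_nonneg zero_le_one (by linarith)

theorem nuK_nonneg (w R : ℕ) (z : O) : 0 ≤ nuK w R z := by
  have h : ∀ p ∈ PS w R, p.Prime := fun p hp => (mem_filter.1 (mem_filter.1 hp).1).2
  exact mul_nonneg (bet_nonneg _ h _ _) (bet_nonneg _ h _ _)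

theorem mem_cbx_of {F L L' : ℕ} {a a' z z' : O} (k : O) (hz : z ∈ cbx F a L)
    (e : z' - a' = z - a + (F : O) * k) (h1 : 0 ≤ k.re) (h2 : k.re + L ≤ L') (h3 : 0 ≤ k.im)
    (h4 : k.im + L ≤ L') : z' ∈ cbx F a' L' := by
  obtain ⟨h, g1, g2, rfl⟩ := mem_cbx.1 hz
  refine mem_cbx.2 ⟨(((h.1 : ℤ) + k.re).toNat, ((h.2 : ℤ) + k.im).toNat), by simp only; omega,
    by simp only; omega, ?_⟩
  have e1 : em (((h.1 : ℤ) + k.re).toNat, ((h.2 : ℤ) + k.im).toNat) = em h + k := by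
    ext
    · simp only [em, Zsqrtd.re_add]; omega
    · simp only [em, Zsqrtd.im_add]; omega
  rw [e1]
  linear_combination e

theorem sum_shift_le (I B : Finset O) (c : O) (h : ∀ z ∈ I, z + c ∈ B) (Φ : O → ℝ)
    (h0 : ∀ z, 0 ≤ Φ z) : ∑ z ∈ I, Φ (z + c) ≤ ∑ z ∈ B, Φ z := by
  rw [← sum_image (s := I) (g := fun z => z + c) (f := Φ) fun _ _ _ _ e => add_right_cancel e]
  refine sum_le_sum_of_subset_of_nonneg (fun z hz => ?_) fun z _ _ => h0 z
  obtain ⟨y, hy, rfl⟩ := mem_image.1 hz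
  exact h y hy

/-- a sum over a box is the sum of the local averages over the interior, up to the boundary -/
theorem shift {X : Type} [Fintype X] [Nonempty X] {F : ℕ} (hF : 0 < F) (a : O) (l K : ℕ)
    (hK : 2 * K ≤ l) (u : X → O) (hu : ∀ x, sz (u x) ≤ K) :
    ∃ I ⊆ cbx F a l, ∀ (Φ : O → ℝ) (M : ℝ), (∀ z, 0 ≤ Φ z) →
      (∀ z, av (fun x => Φ (z + (F : O) * u x)) ≤ M) →
      ∑ z ∈ I, av (fun x => Φ (z + (F : O) * u x)) ≤ ∑ z ∈ cbx F a l, Φ z ∧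
      ∑ z ∈ cbx F a l, Φ z ≤ ∑ z ∈ I, av (fun x => Φ (z + (F : O) * u x)) + 8 * K * l * M := by
  have hre : ∀ x, -(K : ℤ) ≤ (u x).re ∧ (u x).re ≤ K ∧ -(K : ℤ) ≤ (u x).im ∧ (u x).im ≤ K := by
    intro x
    have := hu x
    unfold sz at this
    omega
  let k : O := ⟨K, K⟩
  have k1 : k.re = K := rfl
  have k2 : k.im = K := rfl
  let I := cbx F (a + (F : O) * k) (l - 2 * K)
  let E := cbx F (a - (F : O) * k) (l + 2 * K)
  have hIE : I ⊆ E := fun z hz => mem_cbx_of (k + k) hz (by ring)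
    (by simp only [Zsqrtd.re_add]; omega) (by simp only [Zsqrtd.re_add]; omega)
    (by simp only [Zsqrtd.im_add]; omega) (by simp only [Zsqrtd.im_add]; omega)
  refine ⟨I, fun z hz => mem_cbx_of k hz (by ring) (by omega) (by omega) (by omega) (by omega),
    fun Φ M h0 hM => ⟨?_, ?_⟩⟩
  · rw [← av_sum]
    refine av_le_of_le fun x => sum_shift_le _ _ _ (fun z hz => ?_) Φ h0
    obtain ⟨g1, g2, g3, g4⟩ := hre x
    exact mem_cbx_of (k + u x) hz (by ring)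
      (by simp only [Zsqrtd.re_add]; omega) (by simp only [Zsqrtd.re_add]; omega)
      (by simp only [Zsqrtd.im_add]; omega) (by simp only [Zsqrtd.im_add]; omega)
  · have h1 : ∑ z ∈ cbx F a l, Φ z ≤ ∑ z ∈ E, av (fun x => Φ (z + (F : O) * u x)) := by
      rw [← av_sum]
      refine le_av_of_le fun x => ?_
      obtain ⟨g1, g2, g3, g4⟩ := hre x
      have h2 := sum_shift_le (cbx F a l) E (-((F : O) * u x)) (fun z hz =>
        mem_cbx_of (k - u x) hz (by ring)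
          (by simp only [Zsqrtd.re_sub]; omega) (by simp only [Zsqrtd.re_sub]; omega)
          (by simp only [Zsqrtd.im_sub]; omega) (by simp only [Zsqrtd.im_sub]; omega))
        (fun z => Φ (z + (F : O) * u x)) fun z => h0 _
      simpa using h2
    have hM0 : 0 ≤ M := (av_nonneg fun x => h0 _).trans (hM 0)
    have h2 : ∑ z ∈ E \ I, av (fun x => Φ (z + (F : O) * u x)) ≤ (E \ I).card * M := by
      simpa using sum_le_card_nsmul (E \ I) _ M fun z _ => hM z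
    have h3 : ((E \ I).card : ℝ) = 8 * K * l := by
      rw [card_sdiff_of_subset hIE, Nat.cast_sub (card_le_card hIE), card_cbx hF, card_cbx hF]
      push_cast [Nat.cast_sub hK]
      ring
    rw [← sum_sdiff hIE] at h1
    rw [h3] at h2
    linarith

section Local

variable {ι X : Type} [Fintype ι] [DecidableEq ι] [Fintype X]

theorem lf2_sub {ν₀ : (ι → X) → ℝ} {ν : ι → (ι → X) → ℝ} {Λ η : ℝ} (h : LF2 ν₀ ν Λ) (hη : Λ ≤ η)
    (J : Finset ι) : LF2 ν₀ (fun t x => if t ∈ J then ν t x else 1) η := by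
  intro U T hT
  have key := h U (T.filter fun t => t.1 ∈ J) fun t ht => hT t (mem_filter.1 ht).1
  simp only [prod_filter] at key
  exact key.trans hη

theorem lf2_lf {ν₀ : (ι → X) → ℝ} {ν : ι → (ι → X) → ℝ} {η : ℝ} (h : LF2 ν₀ ν η) : LF ν η := by
  intro T hT
  simpa using h ∅ T hT

theorem lf2_first [Nonempty X] {ν₀ : (ι → X) → ℝ} {ν : ι → (ι → X) → ℝ} {Λ : ℝ} (h : LF2 ν₀ ν Λ)
    (J : Finset ι) : av (fun x => ν₀ x * ∏ t ∈ J, ν t x) ≤ 1 + Λ := by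
  have key := h {∅} (J ×ˢ {∅}) fun t ht => by
    rw [mem_singleton.1 (mem_product.1 ht).2]
    exact notMem_empty _
  have e : ∀ z : (ι → X) × (ι → X),
      (∏ S ∈ ({∅} : Finset (Finset ι)), ν₀ (S.piecewise z.2 z.1)) *
        ∏ t ∈ J ×ˢ ({∅} : Finset (Finset ι)), ν t.1 (t.2.piecewise z.2 z.1) =
        ν₀ z.1 * ∏ t ∈ J, ν t z.1 := by
    intro z
    rw [prod_product]
    simp
  rw [av_congr e, LfauxAux.av_fst fun x => ν₀ x * ∏ t ∈ J, ν t x] at key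
  linarith [(abs_le.1 key).2]

theorem lf2_nonneg [Nonempty X] {ν₀ : (ι → X) → ℝ} {ν : ι → (ι → X) → ℝ} {Λ : ℝ}
    (h : LF2 ν₀ ν Λ) : 0 ≤ Λ := (abs_nonneg _).trans (h ∅ ∅ (by simp))

end Local

/-- the comparison on one local box -/
theorem loc (hSlf : StSlf) (ι : Type) [Fintype ι] [DecidableEq ι] (ε : ℝ) (hε : 0 < ε) :
    ∃ η : ℝ, 0 < η ∧ η ≤ 1 ∧ ∀ (X : Type) [Fintype X] [Nonempty X] (ν₀ : (ι → X) → ℝ)
      (ν f g : ι → (ι → X) → ℝ) (Λ : ℝ) (J : Finset ι), (∀ x, 0 ≤ ν₀ x) → (∀ j, Indep j (ν j)) →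
      (∀ j, Indep j (f j)) → (∀ j, Indep j (g j)) → (∀ j x, 0 ≤ f j x ∧ f j x ≤ ν j x) →
      (∀ j x, 0 ≤ g j x ∧ g j x ≤ 1) → LF2 ν₀ ν Λ →
      av (fun x => ν₀ x * ∏ t ∈ J, f t x) ≤ 1 + Λ ∧ av (fun x => ∏ t ∈ J, g t x) ≤ 1 ∧
      |av (fun x => ν₀ x * ∏ t ∈ J, f t x) - av fun x => ∏ t ∈ J, g t x| ≤
        ε + (Λ + 3) * (if Λ ≤ η then 0 else 1) +
          4 * if ∀ t, Cut t (fun x => f t x - g t x) η then 0 else 1 := by
  obtain ⟨η₁, h₁, H₁⟩ := hSlf ι (ε / 2) (by positivity)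
  obtain ⟨η₂, h₂, H₂⟩ := counting ι (ε / 2) (by positivity)
  refine ⟨min 1 (min η₁ η₂), by positivity, min_le_left _ _, ?_⟩
  intro X _ _ ν₀ ν f g Λ J h0 iν iF ig hf hg hL
  have m1 : min 1 (min η₁ η₂) ≤ η₁ := (min_le_right _ _).trans (min_le_left _ _)
  have m2 : min 1 (min η₁ η₂) ≤ η₂ := (min_le_right _ _).trans (min_le_right _ _)
  have m0 : min 1 (min η₁ η₂) ≤ 1 := min_le_left _ _
  have hΛ := lf2_nonneg hL
  have a1 : av (fun x => ν₀ x * ∏ t ∈ J, f t x) ≤ 1 + Λ :=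
    (av_mono fun x => mul_le_mul_of_nonneg_left
      (prod_le_prod (fun t _ => (hf t x).1) fun t _ => (hf t x).2) (h0 x)).trans (lf2_first hL J)
  have a2 : av (fun x => ∏ t ∈ J, g t x) ≤ 1 :=
    av_le_of_le fun x => prod_le_one (fun t _ => (hg t x).1) fun t _ => (hg t x).2
  have a3 : 0 ≤ av (fun x => ν₀ x * ∏ t ∈ J, f t x) :=
    av_nonneg fun x => mul_nonneg (h0 x) (prod_nonneg fun t _ => (hf t x).1)
  have a4 : 0 ≤ av (fun x => ∏ t ∈ J, g t x) :=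
    av_nonneg fun x => prod_nonneg fun t _ => (hg t x).1
  have a5 : |av (fun x => ν₀ x * ∏ t ∈ J, f t x) - av fun x => ∏ t ∈ J, g t x| ≤ 1 + Λ :=
    abs_le.2 ⟨by linarith, by linarith⟩
  refine ⟨a1, a2, ?_⟩
  split_ifs with c1 c2 c2
  · have ind : ∀ φ : ι → (ι → X) → ℝ, (∀ j, Indep j (φ j)) →
        ∀ j, Indep j fun x => if j ∈ J then φ j x else 1 := fun φ hφ j x a => by
      simp only [hφ j x a]
    have b1 : ∀ j x, 0 ≤ (if j ∈ J then f j x else 1) ∧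
        (if j ∈ J then f j x else 1) ≤ if j ∈ J then ν j x else 1 := fun j x => by
      split_ifs
      · exact hf j x
      · exact ⟨zero_le_one, le_rfl⟩
    have b2 : ∀ j x, 0 ≤ (if j ∈ J then g j x else 1) ∧ (if j ∈ J then g j x else 1) ≤ 1 :=
      fun j x => by
        split_ifs
        · exact hg j x
        · exact ⟨zero_le_one, le_rfl⟩
    have k1 := H₁ X ν₀ _ _ (ind ν iν) (ind f iF) b1 (lf2_sub hL (c1.trans m1) J)
    have k2 := H₂ X _ _ _ (ind ν iν) (ind f iF) (ind g ig) b1 b2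
      (lf2_lf (lf2_sub hL (c1.trans m2) J)) fun j u hu hu' => by
        by_cases hj : j ∈ J
        · simp only [if_pos hj]
          exact (c2 j u hu hu').trans m2
        · simp only [if_neg hj, sub_self, zero_mul, av_zero, abs_zero]
          exact h₂.le
    simp only [prod_ite_mem, univ_inter, sub_mul, one_mul, av_sub] at k1 k2
    rw [abs_le] at k1 k2 ⊢
    constructor <;> linarith [k1.1, k1.2, k2.1, k2.2]
  · linarith
  · linarith
  · linarith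

theorem sz_sum {ι : Type} (s : Finset ι) (x : ι → O) : sz (∑ i ∈ s, x i) ≤ ∑ i ∈ s, sz (x i) := by
  induction s using Finset.induction_on with
  | empty => simp [sz]
  | insert a s ha ih =>
    rw [sum_insert ha, sum_insert ha]
    exact (sz_add _ _).trans (Nat.add_le_add_left ih _)

theorem sz_fr {S : Sc} {γ : O} (h : S.Fr γ) : sz γ ≤ 29 * S.d.C * S.G := by
  have h1 := sz_le_norm γ
  have h2 := h.2.2.2.2
  have h3 : (sz γ : ℤ) ^ 2 ≤ (29 * S.d.C * S.G : ℤ) ^ 2 := by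
    nlinarith [sq_nonneg ((S.d.C : ℤ) * S.G)]
  exact_mod_cast (abs_le_of_sq_le_sq' h3 (by positivity)).2

theorem sz_shift {S : Sc} {θ : O × O} (h : S.Gp θ) (x : Fin 12 → Fin S.H) :
    sz (∑ t, ((x t : ℕ) : O) * S.d.dir θ t) ≤ 3132 * S.d.C ^ 2 * (S.H * S.G) := by
  refine (sz_sum _ _).trans ((sum_le_card_nsmul _ _ (261 * S.d.C ^ 2 * (S.H * S.G))
    fun t _ => ?_).trans ?_)
  · have h1 : sz (sd θ t) ≤ 29 * S.d.C * S.G := by
      unfold sd
      split_ifs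
      · exact sz_fr h.1
      · exact sz_fr h.2.1
    have h2 : sz (S.d.dir θ t) ≤ 3 * (29 * S.d.C * S.G) * S.d.C := by
      refine (sz_mul _ _).trans ?_
      rw [sz_star]
      exact Nat.mul_le_mul (Nat.mul_le_mul_left _ h1) (S.d.sz_ker _)
    have h3 : sz ((x t : ℕ) : O) ≤ S.H := by
      have := (x t).2
      simp only [sz, Zsqrtd.re_natCast, Zsqrtd.im_natCast, Int.natAbs_natCast, Int.natAbs_zero]
      omega
    refine (sz_mul _ _).trans ((Nat.mul_le_mul (Nat.mul_le_mul_left _ h3) h2).trans (le_of_eq ?_))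
    ring
  · simp only [card_univ, Fintype.card_fin, smul_eq_mul]
    exact le_of_eq (by ring)

theorem HG_le {S : Sc} (h : S.P.Ok S.d) (hρ : S.P.J ≤ S.ρ) :
    S.H * S.G * S.ρ ≤ 2 * S.P.J * S.l := by
  obtain ⟨h1, h2, h3, h4⟩ := h.big
  refine le_trans ?_ (Sc.le_l h hρ)
  rw [Sc.H, Sc.G, ← pow_add, ← pow_succ]
  exact Nat.pow_le_pow_right (by omega) (by omega)

theorem nl_indep (S : Sc) (θ : O × O) (z : O) (t : Fin 12) (φ : ℤ → ℝ) :
    Indep t fun x => φ (S.nl θ z t x) := by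
  intro x a
  refine congrArg φ ?_
  rw [S.nl_eq, S.nl_eq]
  refine congrArg _ (sum_congr rfl fun i _ => ?_)
  by_cases e : i = t
  · subst e
    rw [S.d.bb_self, mul_zero, mul_zero]
  · rw [Function.update_of_ne e]

end PairAux

open PairAux in
theorem stPair (hSlf : StSlf) (_hScale : StScale) : StPair := by
  intro ε hε
  obtain ⟨η, hη, hη1, H⟩ := loc hSlf (Fin 12) ε hε
  refine ⟨η, hη, hη1, fun d P hP ε' hε' => ?_⟩
  refine (Ev.of_eventually (d := d) (P := P) (Θ := fun _ ρ =>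
    (P.J : ℝ) ≤ ρ ∧ 4 * (3132 * (d.C : ℝ) ^ 2) * P.J ≤ ρ ∧
      16 * (3132 * (d.C : ℝ) ^ 2) * P.J / ε' ≤ ρ) 0
    fun _ _ => (ev_const _).and ((ev_const _).and (ev_const _))).mono ?_
  rintro S rfl rfl - ⟨-, r1, r2, r3⟩ θ hθ Λ f g J hL hf hg
  have hJ : S.P.J ≤ S.ρ := by exact_mod_cast r1
  have hJ16 := hP.big.2.2.2
  have hρ : 0 < S.ρ := by omega
  have hρ' : (0 : ℝ) < S.ρ := by exact_mod_cast hρ
  have hH : 0 < S.H := Nat.pow_pos hρ
  have hG : 0 < S.G := Nat.pow_pos hρ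
  have : Nonempty (Fin S.H) := ⟨⟨0, hH⟩⟩
  have hHG := HG_le hP hJ
  have hl : 0 < S.l := by
    have : 0 < S.H * S.G * S.ρ := by positivity
    by_contra h
    have h' : S.l = 0 := by omega
    rw [h'] at hHG
    omega
  have hl' : (0 : ℝ) < S.l := by exact_mod_cast hl
  have hHG' : ((S.H * S.G : ℕ) : ℝ) * S.ρ ≤ 2 * S.P.J * S.l := by exact_mod_cast hHG
  obtain ⟨K, hK⟩ : ∃ K, K = 3132 * S.d.C ^ 2 * (S.H * S.G) := ⟨_, rfl⟩
  have hK' : (K : ℝ) = 3132 * (S.d.C : ℝ) ^ 2 * ((S.H * S.G : ℕ) : ℝ) := by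
    rw [hK]; push_cast; ring
  have hc : (0 : ℝ) ≤ 3132 * (S.d.C : ℝ) ^ 2 := by positivity
  have hKρ : (K : ℝ) * S.ρ ≤ 3132 * (S.d.C : ℝ) ^ 2 * (2 * S.P.J * S.l) := by
    rw [hK', mul_assoc]
    exact mul_le_mul_of_nonneg_left hHG' hc
  have k1 : 2 * K ≤ S.l := by
    have : (2 * K : ℝ) * S.ρ ≤ S.l * S.ρ := by nlinarith
    exact_mod_cast le_of_mul_le_mul_right this hρ'
  have k2 : (8 * K : ℝ) ≤ ε' * S.l := by
    rw [div_le_iff₀ hε'] at r3
    have : (8 * K : ℝ) * S.ρ ≤ ε' * S.l * S.ρ := by nlinarith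
    exact le_of_mul_le_mul_right this hρ'
  obtain ⟨I, hI, HI⟩ := shift S.F_pos S.w0 S.l K k1
    (fun x : Fin 12 → Fin S.H => ∑ t, ((x t : ℕ) : O) * S.d.dir θ t)
    fun x => hK ▸ sz_shift hθ x
  have key := fun z => H (Fin S.H) (S.sys0 θ z) (S.sys θ z) (fun t x => f (S.nl θ z t x))
    (fun t x => g (S.nl θ z t x)) Λ J (fun x => nuK_nonneg _ _ _)
    (fun t => nl_indep S θ z t S.nu) (fun t => nl_indep S θ z t f) (fun t => nl_indep S θ z t g)
    (fun t x => hf _) (fun t x => hg _) (hL z)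
  have hΛ := lf2_nonneg (hL 0)
  obtain ⟨p1, p2⟩ := HI (fun z => nuK S.w S.R z * ∏ t ∈ J, f (S.nn (jx t) (sd θ t * z))) (1 + Λ)
    (fun z => mul_nonneg (nuK_nonneg _ _ _) (prod_nonneg fun t _ => (hf _).1))
    fun z => (key z).1
  obtain ⟨p3, p4⟩ := HI (fun z => ∏ t ∈ J, g (S.nn (jx t) (sd θ t * z))) 1
    (fun z => prod_nonneg fun t _ => (hg _).1) fun z => (key z).2.1
  obtain ⟨c, hc'⟩ : ∃ c : ℝ, c = if Λ ≤ η then 0 else 1 := ⟨_, rfl⟩
  have c0 : 0 ≤ c := by rw [hc']; split_ifs <;> norm_num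
  have p5 := (abs_sum_le_sum_abs _ I).trans ((sum_le_sum fun z _ => (key z).2.2).trans
    (sum_le_sum_of_subset_of_nonneg hI fun z _ _ => by
      rw [← hc']
      have : (0 : ℝ) ≤ if ∀ t, Cut t (fun x => f (S.nl θ z t x) - g (S.nl θ z t x)) η then 0
        else 1 := by split_ifs <;> norm_num
      positivity))
  rw [sum_sub_distrib, sum_add_distrib, sum_const, card_cbx S.F_pos, ← mul_sum, ← hc',
    nsmul_eq_mul, Nat.cast_pow, abs_le] at p5
  rw [← hc', Sc.badC, Sc.avB, Sc.avB, Sc.avB, ← sub_div, abs_div, abs_of_pos (pow_pos hl' 2),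
    div_le_iff₀ (pow_pos hl' 2), add_mul, mul_assoc 4, div_mul_cancel₀ _ (pow_pos hl' 2).ne',
    abs_le]
  have q1 : 8 * K * S.l * (1 + Λ) ≤ (Λ + 3) * ε' * (S.l : ℝ) ^ 2 := by
    have : 8 * K * (S.l : ℝ) ≤ ε' * S.l * S.l := mul_le_mul_of_nonneg_right k2 hl'.le
    have h2 : 0 ≤ ε' * S.l * S.l := by positivity
    nlinarith
  have q2 : 8 * K * S.l * 1 ≤ (Λ + 3) * ε' * (S.l : ℝ) ^ 2 := by
    have : (0 : ℝ) ≤ 8 * K * S.l * Λ := by positivity
    nlinarith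
  have p6 := p5.1
  have p7 := p5.2
  simp only [Sc.B, Sc.sys0, Sc.nl, Sc.pt] at p1 p2 p3 p4 p6 p7 ⊢
  constructor <;> nlinarith

end Pool.Agent.Lib.MP_7d3fda_nt.Q3
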