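import Pool.Agent.Lib.MP_7d3fda_nt.Q3.Dns

open Finset Filter
open scoped Classical NumberTheorySymbols

noncomputable section

namespace Pool.Agent.Lib.MP_7d3fda_nt.Q3

open Pool.Agent.Lib.MP_4b8564_nt Pool.Agent.Lib.MP_4b8564_nt.GT

/-! Divisibility of the steps. -/

namespace PdAux

/-- a cross step is an affine form on a box -/
theorem lam_box (d : Dat) (j : Fin 6) (γ a β : O) (F : ℕ) (h : Fin 2 → ℤ) :
    d.lam j (γ * (a + (F : O) * emZ h) * β) = d.lam j (γ * a * β) +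
      F * d.lam j (γ * β) * h 0 + F * d.lam j (γ * β * Zsqrtd.sqrtd) * h 1 := by
  have e : γ * (a + (F : O) * emZ h) * β = γ * a * β + (F : O) * (γ * β * emZ h) := by ring
  rw [e, d.lam_add, d.lam_natCast_mul, d.lam_mul j (γ * β)]
  simp only [emZ]
  ring

theorem dvd_mul_iff (u n : ℤ) (x : O) : (u : O) ∣ (n : O) * x ↔ u ∣ n * x.re ∧ u ∣ n * x.im := by
  rw [Zsqrtd.intCast_dvd]
  simp

/-- common divisors of the two coefficients of a cross step -/
theorem dvd_core (d : Dat) (j j' : Fin 6) (γ γ' : O) {u : ℤ}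
    (h1 : u ∣ d.lam j (γ * (star γ' * d.ker j')))
    (h2 : u ∣ d.lam j (γ * (star γ' * d.ker j') * Zsqrtd.sqrtd)) :
    u ∣ (d.ker j).norm * d.e * (γ.norm * γ'.norm) ∧
      u ∣ (d.ker j).norm * (d.ker j').norm * γ.norm * γ'.re ∧
      u ∣ (d.ker j).norm * (d.ker j').norm * γ.norm * γ'.im := by
  have h3 := (dvd_mul_iff u _ _).2 (d.dvd_of_lam j _ h1 h2)
  have n1 : ((γ.norm : ℤ) : O) = γ * star γ := Zsqrtd.norm_eq_mul_conj γ
  have n2 : ((γ'.norm : ℤ) : O) = γ' * star γ' := Zsqrtd.norm_eq_mul_conj γ'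
  have n3 : (((d.ker j').norm : ℤ) : O) = d.ker j' * star (d.ker j') := Zsqrtd.norm_eq_mul_conj _
  have e1 : (((d.ker j).norm * (γ.norm * γ'.norm) : ℤ) : O) * d.ker j' =
      (((d.ker j).norm : ℤ) : O) * (γ * (star γ' * d.ker j')) * (star γ * γ') := by
    rw [Int.cast_mul, Int.cast_mul, n1, n2]; ring
  have e2 : (((d.ker j).norm * (d.ker j').norm * γ.norm : ℤ) : O) * star γ' =
      (((d.ker j).norm : ℤ) : O) * (γ * (star γ' * d.ker j')) * (star γ * star (d.ker j')) := by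
    rw [Int.cast_mul, Int.cast_mul, n1, n3]; ring
  have h4 := ((dvd_mul_iff u _ _).1 (e1 ▸ h3.mul_right _)).2
  have h5 := (dvd_mul_iff u _ _).1 (e2 ▸ h3.mul_right _)
  refine ⟨?_, h5.1, ?_⟩
  · have : (d.ker j').im = d.e := rfl
    rw [this] at h4
    convert h4 using 1
    ring
  · have := h5.2
    rwa [Zsqrtd.im_star, mul_neg, dvd_neg] at this

theorem not_dvd_small {p : ℕ} {n : ℤ} (h0 : n ≠ 0) (h : |n| < p) : ¬(p : ℤ) ∣ n := fun h1 =>
  absurd (Int.le_of_dvd (abs_pos.2 h0) ((dvd_abs _ _).2 h1)) (not_le.2 h)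

/-- a cross step is not constant modulo a large prime -/
theorem nonconst (d : Dat) (j j' : Fin 6) {γ γ' : O} {p F : ℕ} (hp : p.Prime)
    (hC : d.C ^ 2 < p) (hF : ¬p ∣ F) (hγ : ¬(p : ℤ) ∣ γ.norm) (hs : Squarefree γ'.norm.natAbs) :
    ¬((p : ℤ) ∣ F * d.lam j (γ * (star γ' * d.ker j')) ∧
      (p : ℤ) ∣ F * d.lam j (γ * (star γ' * d.ker j') * Zsqrtd.sqrtd)) := by
  have hp' := Nat.prime_iff_prime_int.1 hp
  have hF' : ¬(p : ℤ) ∣ F := fun h => hF (Int.natCast_dvd_natCast.1 h)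
  have hk : ∀ i, ¬(p : ℤ) ∣ (d.ker i).norm := fun i =>
    not_dvd_small (d.norm_ker_pos i).ne' (by
      rw [abs_of_pos (d.norm_ker_pos i)]
      exact (d.norm_ker_le i).trans_lt (by exact_mod_cast hC))
  have hn : ¬(p : ℤ) ∣ (d.ker j).norm * (d.ker j').norm * γ.norm := fun h =>
    (hp'.dvd_or_dvd h).elim (fun h => (hp'.dvd_or_dvd h).elim (hk j) (hk j')) hγ
  rintro ⟨h1, h2⟩
  obtain ⟨-, h3, h4⟩ := dvd_core d j j' γ γ' ((hp'.dvd_or_dvd h1).resolve_left hF')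
    ((hp'.dvd_or_dvd h2).resolve_left hF')
  exact not_dvd_both hs hp
    ⟨(hp'.dvd_or_dvd h3).resolve_left hn, (hp'.dvd_or_dvd h4).resolve_left hn⟩

theorem gcd_mul_le {p F n : ℕ} (hp : p.Prime) (hF : 0 < F) (a : ℤ) :
    Int.gcd (F * a) (p ^ n : ℕ) ≤ p ^ F.factorization p * Int.gcd a (p ^ n : ℕ) := by
  have h1 : Int.gcd (F * a) (p ^ n : ℕ) = Nat.gcd (p ^ n) (F * a.natAbs) := by
    rw [Int.gcd, Int.natAbs_mul, Int.natAbs_natCast, Int.natAbs_natCast, Nat.gcd_comm]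
  have h2 : Int.gcd a (p ^ n : ℕ) = Nat.gcd (p ^ n) a.natAbs := by
    rw [Int.gcd, Int.natAbs_natCast, Nat.gcd_comm]
  have h0 : 0 < p ^ n := pow_pos hp.pos n
  obtain ⟨s, -, hs⟩ := (Nat.dvd_prime_pow hp).1 (Nat.gcd_dvd_left (p ^ n) F)
  have h3 : s ≤ F.factorization p :=
    (hp.pow_dvd_iff_le_factorization hF.ne').1 (hs ▸ Nat.gcd_dvd_right (p ^ n) F)
  rw [h1, h2]
  refine (Nat.le_of_dvd (Nat.mul_pos (Nat.gcd_pos_of_pos_left _ h0) (Nat.gcd_pos_of_pos_left _ h0))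
    (Nat.gcd_mul_right_dvd_mul_gcd _ _ _)).trans (Nat.mul_le_mul_right _ ?_)
  rw [hs]
  exact Nat.pow_le_pow_right hp.pos h3

/-- one coefficient of a cross step has a small gcd with a power of a small prime -/
theorem gcd_small (d : Dat) (j j' : Fin 6) {γ γ' : O} {p F : ℕ} (n : ℕ) (hp : p.Prime)
    (hF : 0 < F) (hγ : ¬(p : ℤ) ∣ γ.norm) (hγ' : ¬(p : ℤ) ∣ γ'.norm) :
    Int.gcd (F * d.lam j (γ * (star γ' * d.ker j'))) (p ^ n : ℕ) ≤
        p ^ F.factorization p * d.C ^ 3 ∨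
      Int.gcd (F * d.lam j (γ * (star γ' * d.ker j') * Zsqrtd.sqrtd)) (p ^ n : ℕ) ≤
        p ^ F.factorization p * d.C ^ 3 := by
  have hp' := Nat.prime_iff_prime_int.1 hp
  have key : ∀ s : ℕ, (p : ℤ) ^ s ∣ d.lam j (γ * (star γ' * d.ker j')) →
      (p : ℤ) ^ s ∣ d.lam j (γ * (star γ' * d.ker j') * Zsqrtd.sqrtd) → p ^ s ≤ d.C ^ 3 := by
    intro s h1 h2
    have h3 := (dvd_core d j j' γ γ' h1 h2).1
    have h4 : IsCoprime ((p : ℤ) ^ s) (γ.norm * γ'.norm) :=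
      (hp'.irreducible.coprime_iff_not_dvd.2 fun h => (hp'.dvd_or_dvd h).elim hγ hγ').pow_left
    have he : (0 : ℤ) < d.e := by exact_mod_cast d.he
    have h5 := Int.le_of_dvd (mul_pos (d.norm_ker_pos j) he) (h4.dvd_of_dvd_mul_right h3)
    have h6 : (d.e : ℤ) ≤ d.C := by have := d.two_e_le; omega
    have h7 : (d.ker j).norm * d.e ≤ (d.C : ℤ) ^ 2 * d.C :=
      mul_le_mul (d.norm_ker_le j) h6 he.le (by positivity)
    have h8 : (p : ℤ) ^ s ≤ (d.C : ℤ) ^ 3 := h5.trans (h7.trans_eq (by ring))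
    exact_mod_cast h8
  have pw : ∀ a : ℤ, ∃ s : ℕ, Int.gcd a (p ^ n : ℕ) = p ^ s ∧ (p : ℤ) ^ s ∣ a := fun a => by
    obtain ⟨s, -, hs⟩ := (Nat.dvd_prime_pow hp).1
      (Int.natCast_dvd_natCast.1 (Int.gcd_dvd_right a (p ^ n : ℕ)))
    refine ⟨s, hs, ?_⟩
    have := Int.gcd_dvd_left a (p ^ n : ℕ)
    rwa [hs, Nat.cast_pow] at this
  obtain ⟨s, hs, hs'⟩ := pw (d.lam j (γ * (star γ' * d.ker j')))
  obtain ⟨t, ht, ht'⟩ := pw (d.lam j (γ * (star γ' * d.ker j') * Zsqrtd.sqrtd))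
  rcases le_total s t with h | h
  · refine Or.inl ((gcd_mul_le hp hF _).trans (Nat.mul_le_mul_left _ ?_))
    rw [hs]
    exact key s hs' ((pow_dvd_pow _ h).trans ht')
  · refine Or.inr ((gcd_mul_le hp hF _).trans (Nat.mul_le_mul_left _ ?_))
    rw [ht]
    exact key t ((pow_dvd_pow _ h).trans hs') ht'

theorem lt_pow_fact {p w : ℕ} (hp : p.Prime) : w < p ^ (w.factorial.factorization p + 1) := by
  by_contra h
  exact Nat.pow_succ_factorization_not_dvd (Nat.factorial_ne_zero w) hp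
    (Nat.dvd_factorial (pow_pos hp.pos _) (not_lt.1 h))

theorem diff_bound (d : Dat) {j j' : Fin 6} (h : j ≠ j') :
    d.c j - d.c j' ≠ 0 ∧ |d.c j - d.c j'| ≤ d.C := by
  refine ⟨sub_ne_zero.2 fun e => h (d.hc e), ?_⟩
  have h1 := d.cc_le h
  have h2 := abs_sub (d.c j) (d.c j')
  have h3 : (0 : ℤ) ≤ d.e := Int.natCast_nonneg _
  linarith

theorem same_bound (d : Dat) {j j' : Fin 6} (h : j ≠ j') :
    d.e * (d.c j - d.c j') ≠ 0 ∧ |d.e * (d.c j - d.c j')| ≤ (d.C : ℤ) ^ 2 := by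
  obtain ⟨h1, h2⟩ := diff_bound d h
  have he : (0 : ℤ) < d.e := by exact_mod_cast d.he
  have h6 : (d.e : ℤ) ≤ d.C := by have := d.two_e_le; omega
  refine ⟨mul_ne_zero he.ne' h1, ?_⟩
  rw [abs_mul, abs_of_pos he, sq]
  exact mul_le_mul h6 h2 (abs_nonneg _) (by positivity)

/-- reduction to a sum over one side -/
theorem red (S : Sc) (q : ℕ) (r : Fin 11) {B : ℝ} (hμ : 0 ≤ S.mu) (hm : S.mu * S.Th.card ≤ 1)
    (hB : 0 ≤ B)
    (hs : ∀ j j', j ≠ j' → S.mu * ∑ i ∈ S.Th,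
      (if (q : ℤ) ∣ (i.1 * i.2).norm * (S.d.e * (S.d.c j - S.d.c j')) then (1 : ℝ) else 0) ≤ B)
    (hc : ∀ j j' γ', S.Fr γ' → S.mu * ∑ i ∈ S.Th,
      (if (q : ℤ) ∣ S.d.lam j (i.1 * i.2 * (star γ' * S.d.ker j')) then (1 : ℝ) else 0) ≤ B) :
    S.Pd q r ≤ B := by
  have outer : ∀ f : O × O → ℝ, (∀ i ∈ S.Th, S.mu * f i ≤ B) →
      S.mu ^ 2 * ∑ i ∈ S.Th, f i ≤ B := by
    intro f hf
    have h1 : ∑ i ∈ S.Th, S.mu * f i ≤ S.Th.card * B := by
      simpa using sum_le_card_nsmul _ _ B hf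
    rw [← mul_sum] at h1
    calc S.mu ^ 2 * ∑ i ∈ S.Th, f i = S.mu * (S.mu * ∑ i ∈ S.Th, f i) := by ring
      _ ≤ S.mu * (S.Th.card * B) := mul_le_mul_of_nonneg_left h1 hμ
      _ = S.mu * S.Th.card * B := by ring
      _ ≤ 1 * B := mul_le_mul_of_nonneg_right hm hB
      _ = B := one_mul B
  have hFr : ∀ i ∈ S.Th, S.Fr (i.1 * i.2) := fun i hi => (mem_filter.1 hi).2
  have one : ∀ t i : Fin 12, i ≠ t → S.mu ^ 2 * ∑ θ ∈ S.Th ×ˢ S.Th,
      (if (q : ℤ) ∣ S.d.bb (pr θ) t i then (1 : ℝ) else 0) ≤ B := by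
    intro t i hne
    have hj : ((t : ℕ) < 6 ↔ (i : ℕ) < 6) → jx t ≠ jx i := fun h e => by
      have e1 : (t : ℕ) % 6 = (i : ℕ) % 6 := congrArg Fin.val e
      exact hne (Fin.ext (by omega))
    by_cases ht : (t : ℕ) < 6 <;> by_cases hi : (i : ℕ) < 6
    · rw [sum_product_right]
      refine outer _ fun y _ => ?_
      simpa only [Dat.bb, Dat.dir, sd, pr, if_pos ht, if_pos hi, Dat.lam_mul_star] using
        hs _ _ (hj (iff_of_true ht hi))
    · rw [sum_product_right]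
      refine outer _ fun y hy => ?_
      simpa only [Dat.bb, Dat.dir, sd, pr, if_pos ht, if_neg hi] using
        hc (jx t) (jx i) _ (hFr y hy)
    · rw [sum_product]
      refine outer _ fun y hy => ?_
      simpa only [Dat.bb, Dat.dir, sd, pr, if_neg ht, if_pos hi] using
        hc (jx t) (jx i) _ (hFr y hy)
    · rw [sum_product]
      refine outer _ fun y _ => ?_
      simpa only [Dat.bb, Dat.dir, sd, pr, if_neg ht, if_neg hi, Dat.lam_mul_star] using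
        hs _ _ (hj (iff_of_false ht hi))
  rw [Sc.Pd, Sc.T3, sum_product_right]
  refine (sum_le_card_nsmul _ _ (B / 12) fun t _ => ?_).trans (le_of_eq (by simp; ring))
  have h1 := one t (t.succAbove r) (Fin.succAbove_ne t r)
  have h2 : ∑ θ ∈ S.T2, (if (q : ℤ) ∣ S.d.bb (pr θ) t (t.succAbove r) then (1 : ℝ) else 0) ≤
      ∑ θ ∈ S.Th ×ˢ S.Th, (if (q : ℤ) ∣ S.d.bb (pr θ) t (t.succAbove r) then (1 : ℝ) else 0) :=
    sum_le_sum_of_subset_of_nonneg (filter_subset _ _) fun _ _ _ => by positivity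
  have h3 : ∑ θ ∈ S.T2, (if (q : ℤ) ∣ S.d.bv (pr θ, t) r then S.mu ^ 2 / 12 else 0) =
      S.mu ^ 2 * (∑ θ ∈ S.T2,
        (if (q : ℤ) ∣ S.d.bb (pr θ) t (t.succAbove r) then (1 : ℝ) else 0)) / 12 := by
    rw [mul_sum, sum_div]
    refine sum_congr rfl fun θ _ => ?_
    simp only [Dat.bv]
    split_ifs <;> simp
  rw [h3]
  have h4 := mul_le_mul_of_nonneg_left h2 (sq_nonneg S.mu)
  linarith

theorem pav_const {S : Sc} (hok : S.Ok) (c : ℝ) : S.pav (fun _ => c) = c := by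
  have h : 0 < ∑ γ ∈ S.P0, 1 / (γ.norm : ℝ) := S.d.h0.trans_le hok.po.low
  rw [Sc.pav, div_eq_iff h.ne', mul_sum]
  exact sum_congr rfl fun γ _ => by ring

theorem pav_ind {S : Sc} (hok : S.Ok) {p : ℕ} (hp : p.Prime) (c : ℝ) :
    S.pav (fun γ => (if (p : ℤ) ∣ γ.norm then 1 else 0) + c) ≤ |S.d.C0| / S.d.c0 / S.y + c := by
  have h0 := S.d.h0
  have h : 0 < ∑ γ ∈ S.P0, 1 / (γ.norm : ℝ) := h0.trans_le hok.po.low
  have h1 : ∑ γ ∈ S.P0, ((if (p : ℤ) ∣ γ.norm then 1 else 0) + c) / (γ.norm : ℝ) =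
      ∑ γ ∈ S.P0.filter (fun γ => (p : ℤ) ∣ γ.norm), 1 / (γ.norm : ℝ) +
        c * ∑ γ ∈ S.P0, 1 / (γ.norm : ℝ) := by
    rw [sum_filter, mul_sum, ← sum_add_distrib]
    refine sum_congr rfl fun γ _ => ?_
    split_ifs <;> ring
  rw [Sc.pav, h1, add_div, mul_div_assoc, div_self h.ne', mul_one]
  refine add_le_add ?_ le_rfl
  have h2 : S.d.C0 / S.y ≤ |S.d.C0| / S.y :=
    div_le_div_of_nonneg_right (le_abs_self _) (Nat.cast_nonneg _)
  calc _ ≤ |S.d.C0| / S.y / S.d.c0 :=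
        div_le_div₀ (by positivity) ((hok.po.spr p hp).trans h2) h0 hok.po.low
    _ = _ := by ring

theorem per_lin (q : ℕ) (k a₀ a₁ : ℤ) :
    Per q fun h : Fin 2 → ℤ => if (q : ℤ) ∣ k + a₀ * h 0 + a₁ * h 1 then (1 : ℝ) else 0 := by
  intro x y h
  have h1 : (q : ℤ) ∣ k + a₀ * x 0 + a₁ * x 1 - (k + a₀ * y 0 + a₁ * y 1) := by
    have : k + a₀ * x 0 + a₁ * x 1 - (k + a₀ * y 0 + a₁ * y 1) =
        a₀ * (x 0 - y 0) + a₁ * (x 1 - y 1) := by ring
    rw [this]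
    exact dvd_add ((h 0).mul_left _) ((h 1).mul_left _)
  exact if_congr (dvd_iff_dvd_of_dvd_sub h1) rfl rfl

theorem mem_pp {w y p : ℕ} : p ∈ Sg.PP w y ↔ p.Prime ∧ w < p ∧ p ≤ y := by
  rw [Sg.PP, mem_filter, mem_Ioc, and_comm]

theorem ind_mul_le {A B : Prop} [Decidable A] [Decidable B] :
    (if A then (1 : ℝ) else 0) * (if B then 1 else 0) ≤ if B then 1 else 0 := by
  split_ifs <;> simp

end PdAux

open PdAux

theorem stPd (hAvg : StAvg) (hMass : StMass) (hScale : StScale) : StPd := by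
  intro d
  obtain ⟨Cm, -, hM⟩ := hMass d
  have hc0 := d.h0
  refine ⟨(d.C : ℝ) ^ 3 + |d.C0| / d.c0 + 4, by positivity, fun P hP => ?_⟩
  have hS : Ev d P _ := ⟨4, fun w hw => hScale.2.2.2 d P hP 100 w hw⟩
  have hE := Ev.of_eventually (d := d) (P := P)
    (Θ := fun w ρ => (w + 1 : ℝ) ≤ Real.log ρ ∧
      ((w * (d.e * w.factorial * w.factorial) : ℕ) : ℝ) ≤ ρ ∧ 1 * Real.log ρ ^ 100 ≤ ρ)
    (d.C ^ 2 + 4) fun w _ => (ev_log _).and ((ev_const _).and (ev_log_pow 1 100))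
  refine (((hAvg d P hP).and (hM P hP)).and (hS.and hE)).mono ?_
  rintro S rfl rfl hok ⟨⟨hA, -, hm⟩, ⟨hyk, -, hy, hSS1, hSS, -, -, -, hFr⟩, hw, hlog, hρ, hρ2⟩ r p hp
  have hp' := Nat.prime_iff_prime_int.1 hp
  have hp0 : (0 : ℝ) < p := by exact_mod_cast hp.pos
  have hw0 : (0 : ℝ) < S.w := by exact_mod_cast (by omega : 0 < S.w)
  have hl1 : 1 ≤ Real.log S.ρ := by linarith
  have hlp : ∀ n : ℕ, n ≠ 0 → (S.w : ℝ) < Real.log S.ρ ^ n := fun n hn => by
    have := le_self_pow₀ hl1 hn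
    linarith
  have hwy : S.w < S.y := by exact_mod_cast (hlp 100 (by norm_num)).trans_le hy
  have ha := hP.big.1
  have hyρ : S.y ≤ S.ρ := (Nat.le_self_pow (Nat.mul_pos (by omega) (Nat.succ_pos _)).ne' _).trans hyk
  have hew : S.d.e ≤ S.w := by
    have h1 := S.d.two_e_le
    have h2 : S.d.C ≤ S.d.C ^ 2 := Nat.le_self_pow (by norm_num) _
    omega
  have hμ : 0 ≤ S.mu := by
    have h1 : 0 < ∑ γ ∈ S.P0, 1 / (γ.norm : ℝ) := hc0.trans_le hok.po.low
    have h2 : 0 ≤ SS S.w S.y := by linarith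
    unfold Sc.mu
    positivity
  have hTh : ∀ i ∈ S.Th, S.Fr (i.1 * i.2) := fun i hi => (mem_filter.1 hi).2
  have zero : ∀ (q : ℕ) (B : ℝ), 0 ≤ B → S.w < q → (∀ γ, S.Fr γ → IsCoprime (q : ℤ) γ.norm) →
      ∀ j j', j ≠ j' → S.mu * ∑ i ∈ S.Th,
        (if (q : ℤ) ∣ (i.1 * i.2).norm * (S.d.e * (S.d.c j - S.d.c j')) then (1 : ℝ) else 0) ≤ B := by
    intro q B hB hq hco j j' hj
    rw [sum_eq_zero fun i hi => if_neg fun h => ?_, mul_zero]
    · exact hB
    · obtain ⟨h1, h2⟩ := same_bound S.d hj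
      refine not_dvd_small h1 (h2.trans_lt ?_) ((hco _ (hTh i hi)).dvd_of_dvd_mul_left h)
      exact_mod_cast (by omega : S.d.C ^ 2 < q)
  have hC0 : 0 ≤ |S.d.C0| / S.d.c0 := by positivity
  refine ⟨fun hpw => ?_, fun hpw hpy => ?_, fun hpl => ?_⟩
  · set n := S.Q.factorization p + 1 with hn
    have hnF : n = S.F.factorization p + (S.w.factorial.factorization p + 1) := by
      rw [hn, Sc.Q, Nat.factorization_mul S.F_pos.ne' (Nat.factorial_ne_zero _)]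
      rfl
    have hwm := lt_pow_fact (w := S.w) hp
    have hwq : S.w < p ^ n := hwm.trans_le (Nat.pow_le_pow_right hp.pos (by omega))
    have hqρ : p ^ n ≤ S.ρ := by
      have h1 : p ^ S.Q.factorization p ≤ S.Q := Nat.le_of_dvd S.Q_pos (Nat.ordProj_dvd _ _)
      have h2 : S.w * S.Q ≤ S.ρ := by exact_mod_cast hρ
      rw [hn, pow_succ']
      exact (Nat.mul_le_mul hpw h1).trans h2
    have hnd : ∀ γ, S.Fr γ → ¬(p : ℤ) ∣ γ.norm := fun γ hγ h => by
      have := (hFr γ hγ).2.2.1 p hp h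
      omega
    refine red S _ r hμ hm (by positivity) (zero _ _ (by positivity) hwq fun γ hγ => ?_)
      fun j j' γ' hγ' => ?_
    · rw [Nat.cast_pow]
      exact (hp'.irreducible.coprime_iff_not_dvd.2 (hnd γ hγ)).pow_left
    have h1 := (hA (fun γ γ₁ => if ((p ^ n : ℕ) : ℤ) ∣ S.d.lam j (γ * γ₁ * (star γ' * S.d.ker j'))
        then 1 else 0) (fun _ => ((S.d.C : ℝ) ^ 3 + 1) / S.w) (fun _ _ => by positivity)
      fun _ => by positivity).2 (p ^ n) 1 (pow_pos hp.pos n) hqρ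
      (fun _ _ => by split_ifs <;> norm_num) fun γ hγ a _ => ?_
    · rw [pav_const hok] at h1
      have h2 : 1 / Real.log S.ρ ^ 300 ≤ 1 / S.w :=
        one_div_le_one_div_of_le hw0 (hlp 300 (by norm_num)).le
      refine h1.trans ?_
      have h3 : ((S.d.C : ℝ) ^ 3 + 1) / S.w / 2 + 1 / S.w ≤
          ((S.d.C : ℝ) ^ 3 + |S.d.C0| / S.d.c0 + 4) / S.w := by
        rw [div_right_comm, ← add_div]
        refine div_le_div_of_nonneg_right ?_ hw0.le
        have : 0 ≤ (S.d.C : ℝ) ^ 3 := by positivity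
        linarith
      linarith
    simp only [lam_box]
    refine ⟨per_lin _ _ _ _, ?_⟩
    have h4 : (Sg.PP S.w S.y).filter (· ∣ p ^ n) = ∅ := by
      refine filter_eq_empty_iff.2 fun p' hp' h => ?_
      obtain ⟨a1, a2, -⟩ := mem_pp.1 hp'
      have := (Nat.prime_dvd_prime_iff_eq a1 hp).1 (a1.dvd_of_dvd_pow h)
      omega
    rw [h4, prod_empty, mul_one]
    have hγp : ¬(p : ℤ) ∣ γ.norm := fun h => by
      have := hok.po.pr γ hγ p hp h
      omega
    refine (bav_mono fun _ => ind_mul_le).trans ((bav_lin_gcd (pow_pos hp.pos n) (pow_pos hp.pos n)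
      _ _ _ _ (gcd_small S.d j j' n hp S.F_pos hγp (hnd γ' hγ'))).trans ?_)
    have h5 : (S.w : ℝ) ≤ (p : ℝ) ^ (S.w.factorial.factorization p + 1) := by
      exact_mod_cast hwm.le
    have h6 : (S.w : ℝ) ≤ ((p ^ n : ℕ) : ℝ) := by exact_mod_cast hwq.le
    rw [add_div]
    refine add_le_add ?_ (one_div_le_one_div_of_le hw0 h6)
    rw [hnF]
    push_cast
    rw [pow_add, mul_div_mul_left _ _ (by positivity)]
    exact div_le_div_of_nonneg_left (by positivity) hw0 h5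
  · have hnd : ∀ γ, S.Fr γ → ¬(p : ℤ) ∣ γ.norm := fun γ hγ h => by
      have := (hFr γ hγ).2.2.1 p hp h
      omega
    refine red S _ r hμ hm (by positivity) (zero _ _ (by positivity) hpw fun γ hγ =>
      hp'.irreducible.coprime_iff_not_dvd.2 (hnd γ hγ)) fun j j' γ' hγ' => ?_
    have h1 := (hA (fun γ γ₁ => if (p : ℤ) ∣ S.d.lam j (γ * γ₁ * (star γ' * S.d.ker j'))
        then 1 else 0) (fun _ => 4 / p) (fun _ _ => by positivity)
      fun _ => by positivity).2 p 1 hp.pos (hpy.trans hyρ)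
      (fun _ _ => by split_ifs <;> norm_num) fun γ hγ a _ => ?_
    · rw [pav_const hok] at h1
      exact h1.trans (le_of_eq (by ring))
    simp only [lam_box]
    refine ⟨per_lin _ _ _ _, ?_⟩
    have h4 : (Sg.PP S.w S.y).filter (· ∣ p) = {p} := by
      ext p'
      rw [mem_filter, mem_singleton]
      refine ⟨fun h => (Nat.prime_dvd_prime_iff_eq (mem_pp.1 h.1).1 hp).1 h.2, ?_⟩
      rintro rfl
      exact ⟨mem_pp.2 ⟨hp, hpw, hpy⟩, dvd_rfl⟩
    rw [h4, prod_singleton]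
    have hγp : ¬(p : ℤ) ∣ γ.norm := fun h => by
      have := hok.po.pr γ hγ p hp h
      omega
    refine (bav_mono fun _ => ind_mul_le).trans ((bav_lin hp.pos hp _ _ _
      (nonconst S.d j j' hp (by omega) (S.not_dvd_F hew hp hpw) hγp hγ'.2.2.1)).trans ?_)
    have h5 : (4 : ℝ) ≤ p := by exact_mod_cast (by omega : 4 ≤ p)
    have h6 : rN p ≤ 1 / 2 := (hScale.1 p hp).2.trans (by rw [div_le_iff₀ hp0]; linarith)
    have h7 : 4 / (p : ℝ) * (1 / 2) ≤ 4 / p * (1 - rN p) :=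
      mul_le_mul_of_nonneg_left (by linarith) (by positivity)
    exact le_trans (le_of_eq (by ring)) h7
  · have hpw : S.w < p := by exact_mod_cast (hlp 100 (by norm_num)).trans_le hpl
    have hF := S.not_dvd_F hew hp hpw
    have hl0 : 0 < Real.log S.ρ ^ 100 := by positivity
    have main : ∀ Φ : O → O → ℝ, (∀ γ γ', 0 ≤ Φ γ γ') →
        (∀ (γ a : O) (L : ℕ), 0 < L → bav L (fun h => Φ γ (a + (S.F : O) * emZ h)) ≤
          (if (p : ℤ) ∣ γ.norm then 1 else 0) + (2 / p + 2 / L)) →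
        S.mu * ∑ i ∈ S.Th, Φ i.1 i.2 ≤
          ((S.d.C : ℝ) ^ 3 + |S.d.C0| / S.d.c0 + 4) / Real.log S.ρ ^ 60 := by
      intro Φ h0 hΦ
      have h1 := (hA Φ (fun γ => (if (p : ℤ) ∣ γ.norm then 1 else 0) + 4 / Real.log S.ρ ^ 100) h0
        fun _ => by positivity).1 fun γ _ a L _ hL _ => ?_
      · have h2 := pav_ind hok hp (4 / Real.log S.ρ ^ 100)
        have h3 : |S.d.C0| / S.d.c0 / S.y ≤ |S.d.C0| / S.d.c0 / Real.log S.ρ ^ 100 :=
          div_le_div_of_nonneg_left hC0 hl0 hy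
        have h4 : 0 ≤ (S.d.C : ℝ) ^ 3 / Real.log S.ρ ^ 60 := by positivity
        calc _ ≤ Real.log S.ρ ^ 40 *
              (|S.d.C0| / S.d.c0 / Real.log S.ρ ^ 100 + 4 / Real.log S.ρ ^ 100) :=
              h1.trans ((mul_le_mul_of_nonneg_left (h2.trans (add_le_add h3 le_rfl))
                (by linarith)).trans (mul_le_mul_of_nonneg_right hSS (by positivity)))
          _ = (|S.d.C0| / S.d.c0 + 4) / Real.log S.ρ ^ 60 := by field_simp
          _ ≤ _ := by rw [add_assoc, add_div ((S.d.C : ℝ) ^ 3)]; linarith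
      · have h5 : S.ρ ≤ L := (Nat.le_self_pow (by omega) _).trans hL
        have h6 : Real.log S.ρ ^ 100 ≤ L := by
          have : (S.ρ : ℝ) ≤ L := by exact_mod_cast h5
          linarith
        have h7 : 2 / (p : ℝ) ≤ 2 / Real.log S.ρ ^ 100 :=
          div_le_div_of_nonneg_left (by norm_num) hl0 hpl
        have h8 : 2 / (L : ℝ) ≤ 2 / Real.log S.ρ ^ 100 :=
          div_le_div_of_nonneg_left (by norm_num) hl0 h6
        have h9 : 4 / Real.log S.ρ ^ 100 = 2 / Real.log S.ρ ^ 100 + 2 / Real.log S.ρ ^ 100 := by ring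
        refine (hΦ γ a L (by omega)).trans ?_
        linarith
    refine red S _ r hμ hm (by positivity) (fun j j' hj => ?_) fun j j' γ' hγ' => ?_
    · refine main (fun γ γ₁ => if (p : ℤ) ∣ (γ * γ₁).norm * (S.d.e * (S.d.c j - S.d.c j'))
        then 1 else 0) (fun _ _ => by positivity) fun γ a L hL => ?_
      obtain ⟨h1, h2⟩ := same_bound S.d hj
      have h3 := not_dvd_small (p := p) h1
        (h2.trans_lt (by exact_mod_cast (by omega : S.d.C ^ 2 < p)))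
      refine (bav_mono (G := fun h => (if (p : ℤ) ∣ γ.norm then 1 else 0) +
        if (p : ℤ) ∣ (a + (S.F : O) * emZ h).norm then 1 else 0) fun h => ?_).trans ?_
      · by_cases e : (p : ℤ) ∣ (γ * (a + (S.F : O) * emZ h)).norm * (S.d.e * (S.d.c j - S.d.c j'))
        · rw [if_pos e]
          have e1 := (hp'.dvd_or_dvd e).resolve_right h3
          rw [Zsqrtd.norm_mul] at e1
          rcases hp'.dvd_or_dvd e1 with e2 | e2 <;> rw [if_pos e2] <;> split_ifs <;> norm_num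
        · rw [if_neg e]
          positivity
      · rw [bav_add, bav_const hL]
        exact add_le_add le_rfl (bav_norm hL hp hF a)
    · refine main (fun γ γ₁ => if (p : ℤ) ∣ S.d.lam j (γ * γ₁ * (star γ' * S.d.ker j'))
        then 1 else 0) (fun _ _ => by positivity) fun γ a L hL => ?_
      have hL' : (0 : ℝ) < L := by exact_mod_cast hL
      by_cases e : (p : ℤ) ∣ γ.norm
      · rw [if_pos e]
        refine (bav_mono (G := fun _ => 1) fun h => by split_ifs <;> norm_num).trans ?_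
        rw [bav_const hL]
        exact le_add_of_nonneg_right (by positivity)
      · rw [if_neg e, zero_add]
        simp only [lam_box]
        refine (bav_lin hL hp _ _ _ (nonconst S.d j j' hp (by omega) hF e hγ'.2.2.1)).trans ?_
        gcongr <;> norm_num

end Pool.Agent.Lib.MP_7d3fda_nt.Q3
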