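import Pool.Agent.Lib.MP_7d3fda_nt.Q3.Basic
import Pool.Agent.Lib.MP_7d3fda_nt.R2.Recip
import Pool.Agent.Lib.MP_4b8564_nt.Sg.Recip

open Finset Filter
open scoped Classical NumberTheorySymbols

noncomputable section

namespace Pool.Agent.Lib.MP_7d3fda_nt.Q3

open Pool.Agent.Lib.MP_4b8564_nt Pool.Agent.Lib.MP_4b8564_nt.GT
open Pool.Agent.Lib.MP_0a3467_an.Cv (Low)
open Pool.Agent.Lib.MP_0a3467_an

/-! The pool of known factors. -/

namespace PoolAux

/-- the primes of a class in one block -/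
def blk (W₀ a R : ℕ) : Finset ℕ := (Ioc R (R ^ 2)).filter fun q => q.Prime ∧ q ≡ a [MOD W₀]

theorem mem_blk {W₀ a R q : ℕ} :
    q ∈ blk W₀ a R ↔ (R < q ∧ q ≤ R ^ 2) ∧ q.Prime ∧ q ≡ a [MOD W₀] := by
  simp [blk]

theorem up (W₀ a R : ℕ) (hR : 2 ≤ R) : ∑ q ∈ blk W₀ a R, 1 / (q : ℝ) ≤ 18 := by
  have h1 : R ^ 2 ≤ 2 ^ (2 * (Nat.log 2 R + 1)) := by
    rw [mul_comm, pow_mul]
    exact Nat.pow_le_pow_left (Nat.lt_pow_succ_log_self (by norm_num) R).le 2
  have h2 : blk W₀ a R ⊆ Sg.PP R (2 ^ (2 * (Nat.log 2 R + 1))) := fun q hq => by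
    obtain ⟨⟨h3, h4⟩, h5, -⟩ := mem_blk.1 hq
    exact mem_filter.2 ⟨mem_Ioc.2 ⟨h3, h4.trans h1⟩, h5⟩
  refine (sum_le_sum_of_subset_of_nonneg h2 fun _ _ _ => by positivity).trans
    ((Sg.recip R _ hR).trans ?_)
  have hR' : (2 : ℝ) ≤ R := by exact_mod_cast hR
  have h3 : Real.log 2 ≤ Real.log R := Real.log_le_log (by norm_num) hR'
  have h4 : (Nat.log 2 R : ℝ) * Real.log 2 ≤ Real.log R := by
    rw [← Real.log_pow]
    refine Real.log_le_log (by positivity) ?_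
    exact_mod_cast Nat.pow_log_le_self 2 (by omega : R ≠ 0)
  have h5 := Real.log_two_gt_d9
  have h6 : (0 : ℝ) ≤ Nat.log 2 R := by positivity
  rw [div_le_iff₀ (by linarith)]
  push_cast
  nlinarith

/-- the blocks are disjoint -/
theorem idx {W₀ a a' y q : ℕ} {i j : Fin 4} (h : q ∈ blk W₀ a (y ^ 2 ^ (i : ℕ)))
    (h' : q ∈ blk W₀ a' (y ^ 2 ^ (j : ℕ))) : i = j := by
  have key : ∀ {a a' : ℕ} {i j : Fin 4}, q ∈ blk W₀ a (y ^ 2 ^ (i : ℕ)) →
      q ∈ blk W₀ a' (y ^ 2 ^ (j : ℕ)) → ¬i < j := by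
    intro a a' i j h h' hij
    have h1 := (mem_blk.1 h).1.2
    have h2 := (mem_blk.1 h').1.1
    rw [← pow_mul, ← pow_succ] at h1
    rcases Nat.eq_zero_or_pos y with rfl | hy
    · rw [zero_pow (by positivity)] at h1
      exact Nat.not_lt_zero _ (h2.trans_le h1)
    · have h3 : y ^ 2 ^ ((i : ℕ) + 1) ≤ y ^ 2 ^ (j : ℕ) :=
        Nat.pow_le_pow_right hy (Nat.pow_le_pow_right (by norm_num) hij)
      omega
  exact le_antisymm (not_lt.1 (key h' h)) (not_lt.1 (key h h'))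

/-- the tuples of primes -/
def tup (W₀ : ℕ) (v : Fin 4 → ℕ) (y : ℕ) : Finset (Fin 4 → ℕ) :=
  Fintype.piFinset fun i => blk W₀ (v i) (y ^ 2 ^ (i : ℕ))

variable {W₀ : ℕ} {v : Fin 4 → ℕ} {y : ℕ} {g g' : Fin 4 → ℕ}

theorem tup_mem (h : g ∈ tup W₀ v y) (i : Fin 4) : g i ∈ blk W₀ (v i) (y ^ 2 ^ (i : ℕ)) :=
  Fintype.mem_piFinset.1 h i

theorem tup_prime (h : g ∈ tup W₀ v y) (i : Fin 4) : (g i).Prime := (mem_blk.1 (tup_mem h i)).2.1

theorem tup_inj (h : g ∈ tup W₀ v y) : Function.Injective g := fun i j hij =>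
  idx (tup_mem h i) (hij ▸ tup_mem h j)

theorem tup_dvd (h : g ∈ tup W₀ v y) {p : ℕ} (hp : p.Prime) (hd : p ∣ ∏ i, g i) :
    ∃ i, g i = p := by
  obtain ⟨i, -, hi⟩ := (Prime.dvd_finsetProd_iff hp.prime _).1 hd
  exact ⟨i, ((Nat.prime_dvd_prime_iff_eq hp (tup_prime h i)).1 hi).symm⟩

theorem tup_eq (h : g ∈ tup W₀ v y) (h' : g' ∈ tup W₀ v y) (he : ∏ i, g i = ∏ i, g' i) :
    g = g' := by
  funext i
  obtain ⟨j, hj⟩ := tup_dvd h' (tup_prime h i) (he ▸ dvd_prod_of_mem g (mem_univ i))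
  have := idx (tup_mem h i) (hj ▸ tup_mem h' j)
  rw [← hj, this]

theorem tup_lt (h : g ∈ tup W₀ v y) (i : Fin 4) : y < g i :=
  (Nat.le_self_pow (by positivity) y).trans_lt (mem_blk.1 (tup_mem h i)).1.1

theorem tup_sqf (h : g ∈ tup W₀ v y) : Squarefree (∏ i, g i) :=
  Finset.squarefree_prod_of_pairwise_isCoprime
    (fun i _ j _ hij => Nat.coprime_iff_isRelPrime.1
      ((Nat.coprime_primes (tup_prime h i) (tup_prime h j)).2 fun he => hij (tup_inj h he)))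
    fun i _ => (tup_prime h i).squarefree

theorem tup_le (hy : 0 < y) (h : g ∈ tup W₀ v y) : ∏ i, g i ≤ y ^ 32 := by
  refine (prod_le_prod' fun i _ => (mem_blk.1 (tup_mem h i)).1.2).trans ?_
  simp only [← pow_mul]
  rw [prod_pow_eq_pow_sum]
  exact Nat.pow_le_pow_right hy (by decide)

theorem tup_sum (f : Fin 4 → ℕ → ℝ) : ∑ g ∈ tup W₀ v y, ∏ i, f i (g i) =
    ∏ i, ∑ q ∈ blk W₀ (v i) (y ^ 2 ^ (i : ℕ)), f i q :=
  (prod_univ_sum _ _).symm

theorem tup_spr (hy : 2 ≤ y) {p : ℕ} (hp : p.Prime) :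
    ∑ g ∈ (tup W₀ v y).filter (fun g => p ∣ ∏ i, g i), ∏ i, 1 / (g i : ℝ) ≤
      4 * 18 ^ 4 / y := by
  have hy' : (2 : ℝ) ≤ y := by exact_mod_cast hy
  have h1 : ∑ g ∈ (tup W₀ v y).filter (fun g => p ∣ ∏ i, g i), ∏ i, 1 / (g i : ℝ) ≤
      ∑ g ∈ tup W₀ v y, ∑ i : Fin 4,
        ∏ j, if j = i ∧ g j ≠ p then 0 else 1 / (g j : ℝ) := by
    rw [sum_filter]
    refine sum_le_sum fun g hg => ?_
    have h0 : ∀ i : Fin 4, 0 ≤ ∏ j, if j = i ∧ g j ≠ p then 0 else 1 / (g j : ℝ) := fun i =>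
      prod_nonneg fun j _ => by split_ifs <;> positivity
    split_ifs with hd
    · obtain ⟨i, hi⟩ := tup_dvd hg hp hd
      refine le_trans (le_of_eq (prod_congr rfl fun j _ => ?_))
        (single_le_sum (fun i _ => h0 i) (mem_univ i))
      rw [if_neg]
      rintro ⟨rfl, h⟩
      exact h hi
    · exact sum_nonneg fun i _ => h0 i
  refine h1.trans ?_
  rw [sum_comm]
  have h2 : ∀ i : Fin 4, ∑ g ∈ tup W₀ v y,
      (∏ j, if j = i ∧ g j ≠ p then 0 else 1 / (g j : ℝ)) ≤ 18 ^ 4 / y := fun i => by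
    rw [tup_sum fun j q => if j = i ∧ q ≠ p then 0 else 1 / (q : ℝ)]
    have h3 : ∀ j : Fin 4, ∑ q ∈ blk W₀ (v j) (y ^ 2 ^ (j : ℕ)),
        (if j = i ∧ q ≠ p then 0 else 1 / (q : ℝ)) ≤ 18 * if j = i then 1 / (y : ℝ) else 1 := by
      intro j
      by_cases hj : j = i
      · simp only [hj, true_and, if_true, ne_eq, ite_not, sum_ite_eq']
        split_ifs with hm
        · have h4 : (y : ℝ) ≤ p := by
            exact_mod_cast ((Nat.le_self_pow (by positivity) y).trans_lt (mem_blk.1 hm).1.1).le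
          have h5 : 1 / (p : ℝ) ≤ 1 / y := one_div_le_one_div_of_le (by linarith) h4
          have h6 : 0 ≤ 1 / (y : ℝ) := by positivity
          linarith
        · positivity
      · simp only [hj, false_and, if_false, mul_one]
        exact up _ _ _ (hy.trans (Nat.le_self_pow (by positivity) y))
    refine (prod_le_prod (fun j _ => sum_nonneg fun q _ => by split_ifs <;> positivity)
      fun j _ => h3 j).trans (le_of_eq ?_)
    rw [prod_mul_distrib, prod_const, prod_ite_eq', if_pos (mem_univ i), card_univ,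
      Fintype.card_fin]
    ring
  refine (sum_le_sum fun i _ => h2 i).trans (le_of_eq ?_)
  rw [sum_const, card_univ, Fintype.card_fin, nsmul_eq_mul]
  push_cast
  ring

end PoolAux

open PoolAux in
theorem stPool (hRep : StRep) : StPool := by
  intro W₀ v P hW h3 hv hP
  have hch : ∀ (i : Fin 4) (q : ℕ), ∃ z : O, q.Prime → q ≡ v i [MOD W₀] →
      z.norm = q ∧ P i z.re z.im := by
    intro i q
    by_cases hq : q.Prime ∧ q ≡ v i [MOD W₀]
    · have h1 : q % 3 = 1 := by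
        have h2 : q % 3 = v i % 3 := hq.2.of_dvd h3
        rw [h2, (hv i).2]
      obtain ⟨z, hz⟩ := (hRep q hq.1).1 h1
      rcases hP i q z.re z.im hq.1 hq.2 (by rw [← hz, norm_eq]) with h | h
      · exact ⟨z, fun _ _ => ⟨hz, h⟩⟩
      · exact ⟨star z, fun _ _ => ⟨by rw [Zsqrtd.norm_conj, hz], h⟩⟩
    · exact ⟨0, fun h1 h2 => absurd ⟨h1, h2⟩ hq⟩
  choose π hπ using hch
  have hπ' : ∀ {y g}, g ∈ tup W₀ v y → ∀ i, (π i (g i)).norm = g i ∧
      P i (π i (g i)).re (π i (g i)).im := fun hg i =>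
    hπ i _ (tup_prime hg i) (mem_blk.1 (tup_mem hg i)).2.2
  have hN : ∀ {y g}, g ∈ tup W₀ v y → (∏ i, π i (g i)).norm = ((∏ i, g i : ℕ) : ℤ) := by
    intro y g hg
    have h1 := map_prod (Zsqrtd.normMonoidHom (d := -3)) (fun i => π i (g i)) univ
    rw [Nat.cast_prod]
    exact h1.trans (prod_congr rfl fun i _ => (hπ' hg i).1)
  have hI : ∀ y, Set.InjOn (fun g : Fin 4 → ℕ => ∏ i, π i (g i)) (tup W₀ v y) := by
    intro y g hg g' hg' he
    refine tup_eq hg hg' ?_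
    have h1 := hN hg
    rw [show ∏ i, π i (g i) = ∏ i, π i (g' i) from he, hN hg'] at h1
    exact_mod_cast h1.symm
  have hR : ∀ {y g}, g ∈ tup W₀ v y →
      1 / ((∏ i, π i (g i)).norm : ℝ) = ∏ i, 1 / (g i : ℝ) := by
    intro y g hg
    rw [hN hg]
    push_cast
    simp only [one_div, prod_inv_distrib]
  choose c hc R₀ hR₀ using fun i => R2.recip W₀ (v i) hW (hv i).1
  refine ⟨∏ i, c i, 4 * 18 ^ 4, prod_pos fun i _ => hc i,
    fun y => (tup W₀ v y).image fun g => ∏ i, π i (g i), ?_, ?_⟩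
  · filter_upwards [eventually_ge_atTop 2, eventually_ge_atTop (∑ i, R₀ i)] with y hy hy'
    refine ⟨?_, ?_, ?_, ?_, ?_, ?_⟩
    · intro γ hγ
      obtain ⟨g, hg, rfl⟩ := mem_image.1 hγ
      rw [hN hg, Int.natAbs_natCast]
      exact tup_sqf hg
    · intro γ hγ p hp hd
      obtain ⟨g, hg, rfl⟩ := mem_image.1 hγ
      rw [hN hg, Int.natCast_dvd_natCast] at hd
      obtain ⟨i, rfl⟩ := tup_dvd hg hp hd
      exact tup_lt hg i
    · intro γ hγ
      obtain ⟨g, hg, rfl⟩ := mem_image.1 hγ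
      rw [hN hg]
      exact_mod_cast tup_le (by omega) hg
    · intro γ hγ γ' hγ' he
      obtain ⟨g, hg, rfl⟩ := mem_image.1 hγ
      obtain ⟨g', hg', rfl⟩ := mem_image.1 hγ'
      rw [hN hg, hN hg'] at he
      rw [tup_eq hg hg' (by exact_mod_cast he)]
    · rw [sum_image (hI y), sum_congr rfl fun g hg => hR hg, tup_sum fun _ q => 1 / (q : ℝ)]
      refine prod_le_prod (fun i _ => (hc i).le) fun i _ => hR₀ i _ ?_
      exact ((single_le_sum (fun _ _ => Nat.zero_le _) (mem_univ i)).trans hy').trans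
        (Nat.le_self_pow (by positivity) y)
    · intro p hp
      rw [filter_image, sum_image ((hI y).mono (coe_subset.2 (filter_subset _ _)))]
      refine le_trans (le_of_eq ?_) (tup_spr (W₀ := W₀) (v := v) hy hp)
      refine sum_congr (filter_congr fun g hg => ?_) fun g hg => hR (mem_filter.1 hg).1
      rw [hN hg, Int.natCast_dvd_natCast]
  · intro y γ hγ
    obtain ⟨g, hg, rfl⟩ := mem_image.1 hγ
    refine ⟨g, tup_inj hg, fun i => ⟨tup_prime hg i, (mem_blk.1 (tup_mem hg i)).2.2,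
      (π i (g i)).re, (π i (g i)).im, ?_, (hπ' hg i).2, ?_⟩⟩
    · rw [← (hπ' hg i).1, norm_eq]
    · exact dvd_prod_of_mem (fun i => π i (g i)) (mem_univ i)

end Pool.Agent.Lib.MP_7d3fda_nt.Q3
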