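import Pool.Agent.Lib.MP_7d3fda_nt.Q3.Basic

open Finset Filter
open scoped Classical

noncomputable section

namespace Pool.Agent.Lib.MP_7d3fda_nt.Q3

open Pool.Agent.Lib.MP_4b8564_nt Pool.Agent.Lib.MP_4b8564_nt.GT
open Pool.Agent.Lib.MP_0a3467_an.Cv (Low)
open Pool.Agent.Lib.MP_0a3467_an

namespace PsiLowAux

theorem sz_nat (n : ℕ) (z : O) : sz ((n : O) * z) = n * sz z := by
  simp only [sz, mul_re', mul_im', Zsqrtd.re_natCast, Zsqrtd.im_natCast, zero_mul, mul_zero,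
    sub_zero, add_zero, Int.natAbs_mul, Int.natAbs_natCast]
  ring

theorem sz_em {H : ℕ} {a : ℕ × ℕ} (ha : a ∈ Cv.box H) : sz (em a) ≤ 2 * H := by
  obtain ⟨h1, h2⟩ := mem_product.1 ha
  have := (mem_Ioc.1 h1).2
  have := (mem_Ioc.1 h2).2
  simp only [sz, em, Int.natAbs_natCast]
  omega

theorem sz_sum {ι : Type} (T : Finset ι) (f : ι → O) (B : ℕ) (h : ∀ i ∈ T, sz (f i) ≤ B) :
    sz (∑ i ∈ T, f i) ≤ T.card * B := by
  induction T using Finset.induction_on with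
  | empty => simp [sz]
  | insert a T ha ih =>
    rw [sum_insert ha, card_insert_of_notMem ha]
    have h1 := sz_add (f a) (∑ i ∈ T, f i)
    have h2 := h a (mem_insert_self _ _)
    have h3 := ih fun i hi => h i (mem_insert_of_mem hi)
    nlinarith

theorem sz_neg (z : O) : sz (-z) = sz z := by simp [sz]

theorem sz_pos {x : O} (h : x ≠ 0) : 0 < sz x := by
  rcases Nat.eq_zero_or_pos (sz x) with h0 | h0
  · have h1 := norm_le_sz x
    have h2 := norm_pos' h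
    rw [h0] at h1
    simp at h1
    omega
  · exact h0

/-- two forms control the size -/
theorem sz_of_lam (d : Dat) (z : O) (L : ℤ) (h0 : |d.lam 0 z| ≤ L) (h1 : |d.lam 1 z| ≤ L) :
    (sz z : ℤ) ≤ 3 * d.C * L := by
  have hL : 0 ≤ L := (abs_nonneg _).trans h0
  have hc : d.c 0 - d.c 1 ≠ 0 := sub_ne_zero.2 fun h2 => absurd (d.hc h2) (by decide)
  have e1 : (d.c 0 - d.c 1) * z.im = d.lam 0 z - d.lam 1 z := by simp only [Dat.lam]; ring
  have a1 : |z.im| ≤ 2 * L := by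
    have b1 : 1 ≤ |d.c 0 - d.c 1| := Int.one_le_abs hc
    have b2 : |d.c 0 - d.c 1| * |z.im| ≤ 2 * L := by
      rw [← abs_mul, e1]
      exact (abs_sub _ _).trans (by linarith)
    nlinarith [abs_nonneg z.im]
  have e2 : (d.e : ℤ) * z.re = d.lam 0 z - d.c 0 * z.im := by simp only [Dat.lam]; ring
  have he : (1 : ℤ) ≤ d.e := by exact_mod_cast d.he
  have a2 : |z.re| ≤ L + |d.c 0| * (2 * L) := by
    have b2 : (d.e : ℤ) * |z.re| ≤ L + |d.c 0| * (2 * L) := by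
      have : (d.e : ℤ) * |z.re| = |(d.e : ℤ) * z.re| := by
        rw [abs_mul, abs_of_nonneg (by omega : (0 : ℤ) ≤ d.e)]
      rw [this, e2]
      refine (abs_sub _ _).trans (add_le_add h0 ?_)
      rw [abs_mul]
      exact mul_le_mul_of_nonneg_left a1 (abs_nonneg _)
    nlinarith [abs_nonneg z.re]
  have hC := d.c_le 0
  have h3 : (3 : ℤ) ≤ d.C := by exact_mod_cast d.three_le_C
  rw [sz_cast]
  nlinarith [abs_nonneg (d.c 0)]

theorem sz_mul_ge (x y : O) : sz x * sz y ≤ 4 * sz (x * y) := by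
  have h1 := sz_le_norm x
  have h2 := sz_le_norm y
  have h3 := norm_le_sz (x * y)
  rw [Zsqrtd.norm_mul] at h3
  have h4 : ((sz x : ℤ) * sz y) ^ 2 ≤ (4 * (sz (x * y) : ℤ)) ^ 2 := by
    have : (sz x : ℤ) ^ 2 * (sz y : ℤ) ^ 2 ≤ (2 * x.norm) * (2 * y.norm) :=
      mul_le_mul h1 h2 (by positivity) ((by positivity : (0 : ℤ) ≤ (sz x : ℤ) ^ 2).trans h1)
    nlinarith [sq_nonneg (sz (x * y) : ℤ)]
  have h5 := abs_le_of_sq_le_sq' h4 (by positivity)
  exact_mod_cast h5.2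

/-- the change of the norm -/
theorem norm_diff (x v : O) (h : 4 * sz v ≤ sz x) :
    |(x + v).norm - x.norm| * (sz x : ℤ) ≤ 14 * sz v * x.norm := by
  have h1 := sz_le_norm x
  have h2 : (4 : ℤ) * sz v ≤ sz x := by exact_mod_cast h
  have e : (x + v).norm - x.norm =
      2 * (x.re * v.re) + v.re ^ 2 + 3 * (2 * (x.im * v.im) + v.im ^ 2) := by
    rw [norm_eq, norm_eq, Zsqrtd.re_add, Zsqrtd.im_add]; ring
  have h3 : |(x + v).norm - x.norm| ≤ 7 * (sz x : ℤ) * sz v := by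
    rw [e]
    have b1 := abs_mul x.re v.re
    have b2 := abs_mul x.im v.im
    have b3 := le_abs_self (x.re * v.re)
    have b4 := neg_abs_le (x.re * v.re)
    have b5 := le_abs_self (x.im * v.im)
    have b6 := neg_abs_le (x.im * v.im)
    rw [sz_cast, sz_cast] at h2 ⊢
    rw [← sq_abs v.re, ← sq_abs v.im]
    generalize x.re * v.re = p at *
    generalize x.im * v.im = q at *
    have c1 := abs_nonneg x.re
    have c2 := abs_nonneg x.im
    have c3 := abs_nonneg v.re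
    have c4 := abs_nonneg v.im
    generalize |x.re| = a at *
    generalize |x.im| = b at *
    generalize |v.re| = c at *
    generalize |v.im| = e at *
    rw [abs_le]
    constructor <;> nlinarith [mul_nonneg c1 c3, mul_nonneg c1 c4, mul_nonneg c2 c3,
      mul_nonneg c2 c4, mul_nonneg c3 c4, mul_nonneg c3 c3, mul_nonneg c4 c4,
      mul_le_mul_of_nonneg_left h2 c3, mul_le_mul_of_nonneg_left h2 c4]
  have h4 : (0 : ℤ) ≤ sz x := Int.natCast_nonneg _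
  have h5 : (0 : ℤ) ≤ sz v := Int.natCast_nonneg _
  nlinarith [mul_le_mul_of_nonneg_right h3 h4, mul_le_mul_of_nonneg_left h1 h5]

/-- the steps are short -/
theorem step_le (d : Dat) (j : Fin 6) {γ : O} {Γ H : ℕ} (hγ : 2 * sz γ ≤ Γ) {a : ℕ × ℕ}
    (ha : a ∈ Cv.box H) : |d.lam j (γ * em a)| ≤ (3 * d.C * Γ * H : ℕ) := by
  refine (d.abs_lam_le j _).trans ?_
  have h1 := sz_mul γ (em a)
  have h2 := sz_em ha
  have h3 : d.C * sz (γ * em a) ≤ 3 * d.C * Γ * H := by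
    calc d.C * sz (γ * em a) ≤ d.C * (3 * sz γ * (2 * H)) :=
          Nat.mul_le_mul_left _ (h1.trans (Nat.mul_le_mul_left _ h2))
      _ = 3 * d.C * (2 * sz γ) * H := by ring
      _ ≤ 3 * d.C * Γ * H := by gcongr
  exact_mod_cast h3

theorem nn_shift (d : Dat) {F : ℕ} (hF : 0 < F) (b Q : ℕ) (j : Fin 6) (γ x : O) {s : ℕ}
    (h : Fin s → ℕ × ℕ) : d.nn b F j (γ * (x + ((F * Q : ℕ) : O) * ∑ r, em (h r))) =
      d.nn b F j (γ * x) + ∑ r, (Q : ℤ) * d.lam j (γ * em (h r)) := by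
  have e : γ * (x + ((F * Q : ℕ) : O) * ∑ r, em (h r)) =
      γ * x + (F : O) * ∑ r, (Q : O) * (γ * em (h r)) := by
    rw [← mul_sum, ← mul_sum]; push_cast; ring
  rw [e, d.nn_add hF, d.lam_sum]
  simp only [d.lam_natCast_mul]

theorem shift_le (d : Dat) (j : Fin 6) {γ : O} {Γ H : ℕ} (hγ : 2 * sz γ ≤ Γ) (Q : ℕ) {s : ℕ}
    {h : Fin (s + 1) → ℕ × ℕ} (hh : ∀ r, h r ∈ Cv.box H) :
    |∑ r, (Q : ℤ) * d.lam j (γ * em (h r))| ≤ ((s + 1) * Q * (3 * d.C * Γ * H) : ℕ) := by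
  refine (abs_sum_le_sum_abs _ _).trans ?_
  refine (sum_le_card_nsmul _ _ ((Q : ℤ) * (3 * d.C * Γ * H : ℕ)) fun r _ => ?_).trans ?_
  · rw [abs_mul, Nat.abs_cast]
    exact mul_le_mul_of_nonneg_left (step_le d j hγ (hh r)) (Int.natCast_nonneg _)
  · simp only [card_univ, Fintype.card_fin, nsmul_eq_mul]
    push_cast
    exact le_of_eq (by ring)

/-- elements whose first two values are in range are small -/
theorem small (d : Dat) {b F N Γ : ℕ} (hb : b < F) (hN : 0 < N) {x v γ : O} (hx : x ≠ 0)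
    (hv : 4 * sz v ≤ sz x) (hΓ : 32 * d.C * (d.e + 2) * F * N ≤ Γ * sz x)
    (hd : (F : O) ∣ γ * (x + v) - b)
    (h : ∀ j, (N : ℤ) ≤ d.nn b F j (γ * (x + v)) ∧ d.nn b F j (γ * (x + v)) < 2 * N) :
    2 * sz γ ≤ Γ := by
  have hF : 0 < F := by omega
  have key : ∀ j, |d.lam j (γ * (x + v))| ≤ ((d.e + 2) * F * N : ℕ) := by
    intro j
    obtain ⟨h1, h2⟩ := h j
    rw [d.lam_eq hF j hd]
    generalize d.nn b F j (γ * (x + v)) = n at h1 h2
    have b1 : (b : ℤ) ≤ F := by exact_mod_cast hb.le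
    have b2 : (1 : ℤ) ≤ N := by exact_mod_cast hN
    have b3 : (0 : ℤ) ≤ d.e := Int.natCast_nonneg _
    have b4 : (0 : ℤ) ≤ b := Int.natCast_nonneg _
    have b5 : (0 : ℤ) ≤ F := Int.natCast_nonneg _
    have b6 : 0 ≤ n := by omega
    rw [abs_of_nonneg (by positivity)]
    push_cast
    nlinarith [mul_le_mul_of_nonneg_left b1 b3, mul_le_mul_of_nonneg_left h2.le b5,
      mul_le_mul_of_nonneg_left b2 (mul_nonneg b3 b5)]
  have h1 : sz (γ * (x + v)) ≤ 3 * d.C * ((d.e + 2) * F * N) := by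
    exact_mod_cast sz_of_lam d _ _ (key 0) (key 1)
  have h2 := sz_mul_ge γ (x + v)
  have h3 : sz x ≤ sz (x + v) + sz v := by
    have := sz_add (x + v) (-v)
    rwa [add_neg_cancel_right, sz_neg] at this
  have h4 : 3 * sz x ≤ 4 * sz (x + v) := by omega
  have h5 : 2 * sz γ * sz x ≤ Γ * sz x := by
    have := Nat.mul_le_mul_left (sz γ) h4
    nlinarith
  exact Nat.le_of_mul_le_mul_right h5 (sz_pos hx)

theorem final_ineq {n n' S S' t u N X E Δ K C : ℝ} (hn : 0 < n) (hN : 0 < N) (hX : 0 < X)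
    (hE : 0 ≤ E) (hΔ : 0 ≤ Δ) (hK : 0 < K) (hC : 448 * K ≤ C) (h1 : |n' - n| * X ≤ 28 * E * n)
    (h2 : |S| ≤ t) (h3 : |S - S'| ≤ u) (h4 : t * n ≤ 16 * K * N ^ 2)
    (h5 : u * n ≤ 96 * K * Δ * N) :
    |n' / N ^ 2 * S - n / N ^ 2 * S'| ≤ C * (E / X + Δ / N) := by
  have e : n' / N ^ 2 * S - n / N ^ 2 * S' = ((n' - n) * S + n * (S - S')) / N ^ 2 := by ring
  have a1 : |(n' - n) * S| ≤ 448 * K * (E / X) * N ^ 2 := by
    rw [abs_mul]
    have b1 : |n' - n| ≤ 28 * (E / X) * n := by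
      rw [← le_div_iff₀ hX] at h1
      exact h1.trans (le_of_eq (by ring))
    have b2 : 0 ≤ E / X := by positivity
    calc |n' - n| * |S| ≤ 28 * (E / X) * n * t :=
          mul_le_mul b1 h2 (abs_nonneg _) (by positivity)
      _ = 28 * (E / X) * (t * n) := by ring
      _ ≤ 28 * (E / X) * (16 * K * N ^ 2) := by gcongr
      _ = _ := by ring
  have a2 : |n * (S - S')| ≤ 448 * K * (Δ / N) * N ^ 2 := by
    rw [abs_mul, abs_of_pos hn]
    calc n * |S - S'| ≤ u * n := by rw [mul_comm]; gcongr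
      _ ≤ 96 * K * Δ * N := h5
      _ ≤ 448 * K * Δ * N := by gcongr; norm_num
      _ = _ := by field_simp
  rw [e, abs_div, abs_of_pos (by positivity : 0 < N ^ 2), div_le_iff₀ (by positivity)]
  calc _ ≤ 448 * K * (E / X) * N ^ 2 + 448 * K * (Δ / N) * N ^ 2 :=
        (abs_add_le _ _).trans (add_le_add a1 a2)
    _ = 448 * K * (E / X + Δ / N) * N ^ 2 := by ring
    _ ≤ _ := by gcongr

theorem abs_cut {φ : ℤ → ℝ} (h : ∀ n, |φ n| ≤ 1) (N : ℕ) (n : ℤ) : |cutI N φ n| ≤ 1 := by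
  unfold cutI
  split_ifs
  · exact h n
  · simp

end PsiLowAux

open PsiLowAux in
theorem stPsiLow (hPack : StPack) : StPsiLow := by
  intro d
  obtain ⟨K, hK, hP⟩ := hPack d
  refine ⟨32 * d.C * (d.e + 2) + ⌈448 * K⌉₊ + 1, by omega, ?_⟩
  intro s b F N Q D H Γ M φ x hb hN hM hφ hL hx hcop hxN hΓ hD hΔ hE
  have hF : 0 < F := by omega
  have hC : 448 * K ≤ ((32 * d.C * (d.e + 2) + ⌈448 * K⌉₊ + 1 : ℕ) : ℝ) := by
    refine (Nat.le_ceil _).trans ?_
    exact_mod_cast (by omega : ⌈448 * K⌉₊ ≤ 32 * d.C * (d.e + 2) + ⌈448 * K⌉₊ + 1)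
  have hΓ' : 32 * d.C * (d.e + 2) * F * N ≤ Γ * sz x :=
    le_trans (by gcongr; omega) hΓ
  generalize 32 * d.C * (d.e + 2) + ⌈448 * K⌉₊ + 1 = C at hC ⊢
  obtain ⟨Δ, hΔe⟩ : ∃ Δ : ℕ, Δ = (s + 1) * Q * (3 * d.C * Γ * H) := ⟨_, rfl⟩
  rw [← hΔe] at hΔ ⊢
  have hn : (0 : ℝ) < x.norm := by exact_mod_cast norm_pos' hx
  have hN' : (0 : ℝ) < N := by exact_mod_cast hN
  have hxN' : (sz x : ℝ) ≤ N := by exact_mod_cast hxN
  have hΔ' : (Δ : ℤ) ≤ N := by exact_mod_cast hΔ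
  have cnt : ∀ (U : Finset O) (i j : Fin 6) (a : ℤ) (l : ℕ), i ≠ j →
      (∀ γ ∈ U, (F : O) ∣ γ * x - b ∧ a ≤ d.nn b F i (γ * x) ∧ d.nn b F i (γ * x) < a + l ∧
        0 ≤ d.nn b F j (γ * x) ∧ d.nn b F j (γ * x) < 0 + (3 * N : ℕ)) →
      (U.card : ℝ) * x.norm ≤ K * ((l : ℝ) + sz x) * (4 * N) := by
    intro U i j a l hij hU
    obtain ⟨f1, f2⟩ := hP b F x i j a 0 l (3 * N) hF hx hcop hij
    have f3 := Set.ncard_le_ncard (s := (U : Set O)) (fun γ hγ => hU γ hγ) f1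
    rw [Set.ncard_coe_finset] at f3
    have f4 : (U.card : ℝ) ≤ _ := Nat.cast_le.2 f3
    refine ((mul_le_mul_of_nonneg_right f4 hn.le).trans f2).trans ?_
    gcongr
    push_cast
    linarith
  obtain ⟨T, hT⟩ : ∃ T : Finset O, ∀ γ, γ ∈ T ↔ (F : O) ∣ γ * x - b ∧ 2 * sz γ ≤ Γ ∧
      ∀ j, (N : ℤ) - Δ ≤ d.nn b F j (γ * x) ∧ d.nn b F j (γ * x) < 2 * N + Δ := by
    have f1 := (hP b F x 0 1 0 0 (3 * N) (3 * N) hF hx hcop (by decide)).1
    refine ⟨f1.toFinset.filter fun γ => 2 * sz γ ≤ Γ ∧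
      ∀ j, (N : ℤ) - Δ ≤ d.nn b F j (γ * x) ∧ d.nn b F j (γ * x) < 2 * N + Δ, fun γ => ?_⟩
    rw [mem_filter, Set.Finite.mem_toFinset, Set.mem_ofPred_eq]
    refine ⟨fun h => ⟨h.1.1, h.2⟩, fun h => ⟨⟨h.1, ?_⟩, h.2⟩⟩
    have h0 := h.2.2 0
    have h1 := h.2.2 1
    push_cast
    omega
  obtain ⟨I, hI⟩ : ∃ I : Finset O, I = T.filter fun γ =>
      ∀ j, (N : ℤ) + Δ ≤ d.nn b F j (γ * x) ∧ d.nn b F j (γ * x) < 2 * N - Δ := ⟨_, rfl⟩
  have hIT : I ⊆ T := hI ▸ filter_subset _ _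
  have cT : (T.card : ℝ) * x.norm ≤ 16 * K * (N : ℝ) ^ 2 := by
    refine (cnt T 0 1 0 (3 * N) (by decide) fun γ hγ => ?_).trans ?_
    · obtain ⟨h1, -, h2⟩ := (hT γ).1 hγ
      have h0 := h2 0
      have h3 := h2 1
      refine ⟨h1, ?_⟩
      push_cast
      omega
    · push_cast
      have : (3 * (N : ℝ) + sz x) ≤ 4 * N := by linarith
      calc K * (3 * (N : ℝ) + sz x) * (4 * N) ≤ K * (4 * N) * (4 * N) := by gcongr
        _ = _ := by ring
  have cB : ((T \ I).card : ℝ) * x.norm ≤ 96 * K * ((Δ + sz x : ℕ) : ℝ) * N := by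
    have hsub : T \ I ⊆ (univ ×ˢ ({(N : ℤ) - Δ, 2 * (N : ℤ) - Δ} : Finset ℤ)).biUnion
        fun p : Fin 6 × ℤ => T.filter fun γ =>
          p.2 ≤ d.nn b F p.1 (γ * x) ∧ d.nn b F p.1 (γ * x) < p.2 + (2 * Δ : ℕ) := by
      intro γ hγ
      obtain ⟨h1, h2⟩ := mem_sdiff.1 hγ
      rw [hI, mem_filter, not_and, not_forall] at h2
      obtain ⟨j, hj⟩ := h2 h1
      have h3 := ((hT γ).1 h1).2.2 j
      by_cases h4 : d.nn b F j (γ * x) < (N : ℤ) + Δ
      · refine mem_biUnion.2 ⟨(j, (N : ℤ) - Δ), by simp, mem_filter.2 ⟨h1, ?_⟩⟩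
        push_cast
        omega
      · refine mem_biUnion.2 ⟨(j, 2 * (N : ℤ) - Δ), by simp, mem_filter.2 ⟨h1, ?_⟩⟩
        push_cast
        omega
    have h1 : ((T \ I).card : ℝ) ≤ _ := Nat.cast_le.2 ((card_le_card hsub).trans card_biUnion_le)
    refine (mul_le_mul_of_nonneg_right h1 hn.le).trans ?_
    rw [Nat.cast_sum, sum_mul]
    refine (sum_le_card_nsmul _ _ (K * (((2 * Δ : ℕ) : ℝ) + sz x) * (4 * N)) fun p _ => ?_).trans ?_
    · obtain ⟨j, hj⟩ := exists_ne p.1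
      refine cnt _ p.1 j p.2 (2 * Δ) hj.symm fun γ hγ => ?_
      obtain ⟨h2, h3⟩ := mem_filter.1 hγ
      obtain ⟨h4, -, h5⟩ := (hT γ).1 h2
      have h6 := h5 j
      refine ⟨h4, h3.1, h3.2, ?_⟩
      push_cast
      omega
    · have h2 : (univ ×ˢ ({(N : ℤ) - Δ, 2 * (N : ℤ) - Δ} : Finset ℤ) : Finset (Fin 6 × ℤ)).card
          ≤ 12 := by
        rw [card_product, card_univ, Fintype.card_fin]
        have := card_le_two (a := (N : ℤ) - Δ) (b := 2 * (N : ℤ) - Δ)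
        omega
      have h3 : ((univ ×ˢ ({(N : ℤ) - Δ, 2 * (N : ℤ) - Δ} : Finset ℤ) :
          Finset (Fin 6 × ℤ)).card : ℝ) ≤ 12 := by exact_mod_cast h2
      rw [nsmul_eq_mul]
      have h4 : ((2 * Δ : ℕ) : ℝ) + sz x ≤ 2 * ((Δ + sz x : ℕ) : ℝ) := by
        push_cast
        linarith [Nat.cast_nonneg (α := ℝ) (sz x)]
      calc _ ≤ 12 * (K * (2 * ((Δ + sz x : ℕ) : ℝ)) * (4 * N)) := by gcongr
        _ = _ := by ring
  refine ⟨fun h => (x.norm : ℝ) / (N : ℝ) ^ 2 * ∑ γ ∈ I, ∏ j,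
    φ (d.nn b F j (γ * x) + ∑ r, (Q : ℤ) * d.lam j (γ * em (h r))), ?_, fun h hh => ?_⟩
  · refine ((Low.sum I (Ms := fun _ => ∏ _j : Fin 6, M) fun γ hγ => Low.prod univ fun j _ =>
      low_comp (hL (d.nn b F j (γ * x))) (fun _ a => d.lam j (γ * em a))
        fun _ a ha => ?_).smul _).mono ?_
    · have h1 := step_le d j ((hT γ).1 (hIT hγ)).2.1 (H := H) ha
      have h2 : ((3 * d.C * Γ * H : ℕ) : ℤ) ≤ D := by exact_mod_cast hD
      exact abs_le.1 (h1.trans h2)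
    · rw [sum_const, prod_const, card_univ, Fintype.card_fin, nsmul_eq_mul,
        abs_of_pos (by positivity), ← mul_assoc]
      refine mul_le_mul_of_nonneg_right ?_ (by positivity)
      have h1 : (I.card : ℝ) ≤ T.card := Nat.cast_le.2 (card_le_card hIT)
      rw [div_mul_eq_mul_div, div_le_iff₀ (by positivity)]
      nlinarith [mul_le_mul_of_nonneg_right h1 hn.le, sq_nonneg (N : ℝ),
        mul_le_mul_of_nonneg_right hC (sq_nonneg (N : ℝ)), mul_nonneg hK.le (sq_nonneg (N : ℝ))]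
  · obtain ⟨v, hv⟩ : ∃ v : O, v = ((F * Q : ℕ) : O) * ∑ r, em (h r) := ⟨_, rfl⟩
    have v1 : sz v ≤ 2 * ((s + 1) * F * Q * H) := by
      rw [hv, sz_nat]
      have := sz_sum univ (fun r => em (h r)) (2 * H) fun r _ => sz_em (hh r)
      rw [card_univ, Fintype.card_fin] at this
      exact (Nat.mul_le_mul_left _ this).trans (le_of_eq (by ring))
    have v2 : 4 * sz v ≤ sz x := le_trans (by nlinarith) hE
    have sh : ∀ γ j, d.nn b F j (γ * (x + v)) =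
        d.nn b F j (γ * x) + ∑ r, (Q : ℤ) * d.lam j (γ * em (h r)) := fun γ j =>
      hv ▸ nn_shift d hF b Q j γ x h
    have sl : ∀ γ j, 2 * sz γ ≤ Γ → |∑ r, (Q : ℤ) * d.lam j (γ * em (h r))| ≤ Δ :=
      fun γ j hγ => hΔe ▸ shift_le d j hγ Q hh
    have cl : ∀ γ : O, (F : O) ∣ γ * (x + v) - b ↔ (F : O) ∣ γ * x - b := fun γ => by
      have e : γ * (x + v) - b = γ * x - b + (F : O) * (γ * ((Q : O) * ∑ r, em (h r))) := by
        rw [hv]; push_cast; ring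
      rw [e]
      exact (dvd_add_left (Dvd.intro _ rfl))
    have e1 : d.Psi b F N (fun _ => 1) (cutI N φ) (x + v) = ((x + v).norm : ℝ) / (N : ℝ) ^ 2 *
        ∑ γ ∈ T, d.Fz b F (cutI N φ) (γ * (x + v)) := by
      unfold Dat.Psi
      rw [finsum_eq_sum_of_support_subset (s := T)]
      · congr 1
        refine sum_congr rfl fun γ hγ => ?_
        rw [if_pos ((cl γ).2 ((hT γ).1 hγ).1), one_mul]
      · intro γ hγ
        rw [Function.mem_support] at hγ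
        have h1 : (F : O) ∣ γ * (x + v) - b := by
          by_contra h1
          exact hγ (if_neg h1)
        rw [if_pos h1, one_mul] at hγ
        have h2 : ∀ j, (N : ℤ) ≤ d.nn b F j (γ * (x + v)) ∧ d.nn b F j (γ * (x + v)) < 2 * N := by
          intro j
          by_contra h2
          exact hγ (prod_eq_zero (mem_univ j) (if_neg h2))
        have h3 := small d hb hN hx v2 hΓ' h1 h2
        refine mem_coe.2 ((hT γ).2 ⟨(cl γ).1 h1, h3, fun j => ?_⟩)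
        have h4 := h2 j
        have h5 := abs_le.1 (sl γ j h3)
        rw [sh] at h4
        omega
    have e2 : ∀ γ ∈ I, ∏ j, φ (d.nn b F j (γ * x) + ∑ r, (Q : ℤ) * d.lam j (γ * em (h r))) =
        d.Fz b F (cutI N φ) (γ * (x + v)) := fun γ hγ => by
      refine prod_congr rfl fun j _ => ?_
      have h3 := ((hT γ).1 (hIT hγ)).2.1
      rw [hI] at hγ
      have h4 := (mem_filter.1 hγ).2 j
      have h5 := abs_le.1 (sl γ j h3)
      rw [sh, cutI, if_pos (by omega)]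
    have b1 : ∀ U : Finset O, |∑ γ ∈ U, d.Fz b F (cutI N φ) (γ * (x + v))| ≤ U.card := fun U => by
      refine (abs_sum_le_sum_abs _ _).trans ((sum_le_card_nsmul _ _ 1 fun γ _ => ?_).trans ?_)
      · rw [Dat.Fz, abs_prod]
        exact prod_le_one (fun _ _ => abs_nonneg _) fun j _ => abs_cut hφ N _
      · simp
    rw [← hv, e1]
    beta_reduce
    rw [sum_congr rfl e2]
    refine final_ineq hn hN' (by exact_mod_cast sz_pos hx) (Nat.cast_nonneg _) (Nat.cast_nonneg _)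
      hK hC ?_ (b1 T) ?_ cT cB
    · have h1 := norm_diff x v v2
      have h2 : (sz v : ℤ) ≤ 2 * ((s + 1) * F * Q * H : ℕ) := by exact_mod_cast v1
      have h3 : |(x + v).norm - x.norm| * (sz x : ℤ) ≤ 28 * ((s + 1) * F * Q * H : ℕ) * x.norm := by
        nlinarith [mul_le_mul_of_nonneg_right h2 (norm_nonneg' x)]
      exact_mod_cast h3
    · rw [← sum_sdiff hIT, add_sub_cancel_right]
      exact b1 _

end Pool.Agent.Lib.MP_7d3fda_nt.Q3
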