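import Pool.Agent.Lib.MP_7d3fda_nt.Q3.Dns

open Finset Filter
open scoped Classical NumberTheorySymbols

noncomputable section

namespace Pool.Agent.Lib.MP_7d3fda_nt.Q3

open Pool.Agent.Lib.MP_4b8564_nt Pool.Agent.Lib.MP_4b8564_nt.GT
open Pool.Agent.Lib.MP_0a3467_an.Cv (Low)
open Pool.Agent.Lib.MP_0a3467_an

/-! Restriction of the variance to multiples. -/

namespace PullAux

/-- averaging over shifts of the interior -/
theorem core {α I : Type} [Add α] [IsRightCancelAdd α] (X X' : Finset α) (Bx : Finset I)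
    (hB : Bx.Nonempty) (v : I → α) (g : α → ℝ) (c β : ℝ)
    (h1 : ∀ h ∈ Bx, ∀ x ∈ X', x + v h ∈ X) (h2 : ∀ x ∈ X, -c ≤ g x)
    (h3 : ∀ x ∈ X', -(β * Bx.card) ≤ ∑ h ∈ Bx, g (x + v h)) :
    -(β * X'.card + c * ((X.card : ℝ) - X'.card)) ≤ ∑ x ∈ X, g x := by
  have hc : (0 : ℝ) < Bx.card := by exact_mod_cast hB.card_pos
  have key : ∀ h ∈ Bx, ∑ x ∈ X', g (x + v h) - c * ((X.card : ℝ) - X'.card) ≤ ∑ x ∈ X, g x := by
    intro h hh
    have hinj : Function.Injective fun x : α => x + v h := add_left_injective (v h)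
    have hsub : X'.image (fun x => x + v h) ⊆ X := by
      intro y hy
      obtain ⟨x, hx, rfl⟩ := mem_image.1 hy
      exact h1 h hh x hx
    have e1 := sum_sdiff (f := g) hsub
    rw [sum_image fun _ _ _ _ e => hinj e] at e1
    have e2 : ((X \ X'.image fun x => x + v h).card : ℝ) = (X.card : ℝ) - X'.card := by
      rw [card_sdiff_of_subset hsub, Nat.cast_sub (card_le_card hsub),
        card_image_of_injective _ hinj]
    have e3 := card_nsmul_le_sum (X \ X'.image fun x => x + v h) g (-c)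
      fun x hx => h2 x (mem_sdiff.1 hx).1
    rw [nsmul_eq_mul, e2] at e3
    linarith
  have h4 := sum_le_sum key
  rw [sum_sub_distrib, sum_const, sum_const, nsmul_eq_mul, nsmul_eq_mul, sum_comm] at h4
  have h5 := card_nsmul_le_sum X' _ _ h3
  rw [nsmul_eq_mul] at h5
  refine le_of_mul_le_mul_left ?_ hc
  nlinarith

/-- the counts are bounded -/
theorem psi_le (hPack : StPack) (d : Dat) : ∃ C : ℝ, 0 < C ∧
    (∀ (b F N : ℕ) (φ : ℤ → ℝ) (x : O), 0 < F → 0 < N → (∀ n, |φ n| ≤ 1) → x ≠ 0 →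
      IsCoprime x.norm (F : ℤ) → sz x ≤ N → |d.Psi b F N (fun _ => 1) (cutI N φ) x| ≤ C) ∧
    ∀ (N : ℕ) (φ : ℤ → ℝ), 0 < N → (∀ n, |φ n| ≤ 1) → |d.cc N (cutI N φ)| ≤ C := by
  obtain ⟨C, hC, h⟩ := hPack d
  have H : ∀ (b F N : ℕ) (φ : ℤ → ℝ) (x : O), 0 < F → 0 < N → (∀ n, |φ n| ≤ 1) → x ≠ 0 →
      IsCoprime x.norm (F : ℤ) → sz x ≤ N →
      |d.Psi b F N (fun _ => 1) (cutI N φ) x| ≤ 4 * C := by
    intro b F N φ x hF hN hφ hx hc hs
    obtain ⟨hfin, hcard⟩ := h b F x 0 1 N N N N hF hx hc (by decide)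
    have hcut : ∀ n, |cutI N φ n| ≤ 1 := fun n => by
      unfold cutI
      split_ifs
      · exact hφ n
      · simp
    have hsupp : ∀ n, cutI N φ n ≠ 0 → (N : ℤ) ≤ n ∧ n < N + N := fun n hn => by
      unfold cutI at hn
      split_ifs at hn with h1
      · exact ⟨h1.1, by linarith [h1.2]⟩
      · exact absurd rfl hn
    have hN' : (0 : ℝ) < N := by exact_mod_cast hN
    have hx' : (0 : ℝ) ≤ x.norm := by exact_mod_cast norm_nonneg' x
    rw [Dat.Psi, finsum_eq_sum_of_support_subset (s := hfin.toFinset), abs_mul,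
      abs_of_nonneg (by positivity)]
    · have h1 : |∑ γ ∈ hfin.toFinset, if (F : O) ∣ γ * x - b then
          (fun _ => (1 : ℝ)) γ * d.Fz b F (cutI N φ) (γ * x) else 0| ≤ hfin.toFinset.card := by
        refine (abs_sum_le_sum_abs _ _).trans ?_
        refine (sum_le_card_nsmul _ _ 1 fun γ _ => ?_).trans (by simp)
        split_ifs
        · rw [one_mul, Dat.Fz, abs_prod]
          exact prod_le_one (fun _ _ => abs_nonneg _) fun j _ => hcut _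
        · simp
      rw [Set.ncard_eq_toFinset_card _ hfin] at hcard
      have h2 : (sz x : ℝ) ≤ N := by exact_mod_cast hs
      have h3 : (0 : ℝ) ≤ sz x := Nat.cast_nonneg _
      have h4 : C * ((N : ℝ) + sz x) * ((N : ℝ) + sz x) ≤ C * (2 * N) * (2 * N) := by
        gcongr <;> linarith
      refine (mul_le_mul_of_nonneg_left h1 (by positivity)).trans ?_
      rw [div_mul_eq_mul_div, div_le_iff₀ (by positivity)]
      nlinarith
    · intro γ hγ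
      rw [Function.mem_support] at hγ
      split_ifs at hγ with h1
      · rw [one_mul, Dat.Fz, prod_ne_zero_iff] at hγ
        have a0 := hsupp _ (hγ 0 (mem_univ _))
        have a1 := hsupp _ (hγ 1 (mem_univ _))
        simp only [Set.Finite.coe_toFinset, Set.mem_ofPred_eq]
        exact ⟨h1, a0.1, a0.2, a1.1, a1.2⟩
      · exact absurd rfl hγ
  refine ⟨4 * C, by positivity, H, fun N φ hN hφ => ?_⟩
  have h1 := H 0 1 N φ 1 one_pos hN hφ one_ne_zero (by simpa using isCoprime_one_left)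
    (by simpa [sz] using Nat.succ_le_of_lt hN)
  have h2 : d.Psi 0 1 N (fun _ => 1) (cutI N φ) 1 = d.cc N (cutI N φ) := by
    simp [Dat.Psi, Dat.cc, Dat.Fz, Dat.nn, div_eq_inv_mul]
  rwa [h2] at h1

/-- the divisibility weight -/
def Vv (Rs : Finset ℕ) (n : ℕ) (x : O) : ℝ :=
  ∑ r ∈ Rs, 1 / (n : ℝ) * ((if (r : O) ∣ x then (r : ℝ) ^ 2 else 0) - 1)

theorem Vv_bd {Rs : Finset ℕ} {n ρ : ℕ} (hn : 0 < n) (hc : Rs.card = n) (hρ : 1 ≤ ρ)
    (hr : ∀ r ∈ Rs, r ≤ 2 * ρ) (x : O) : -1 ≤ Vv Rs n x ∧ |Vv Rs n x| ≤ 4 * (ρ : ℝ) ^ 2 := by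
  have hn' : (0 : ℝ) < n := by exact_mod_cast hn
  have hρ' : (1 : ℝ) ≤ ρ := by exact_mod_cast hρ
  have h1 := card_nsmul_le_sum Rs
    (fun r => 1 / (n : ℝ) * ((if (r : O) ∣ x then (r : ℝ) ^ 2 else 0) - 1)) (1 / (n : ℝ) * (-1))
    fun r _ => mul_le_mul_of_nonneg_left (by split_ifs <;> nlinarith [sq_nonneg (r : ℝ)])
      (by positivity)
  have h2 := sum_le_card_nsmul Rs
    (fun r => 1 / (n : ℝ) * ((if (r : O) ∣ x then (r : ℝ) ^ 2 else 0) - 1))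
    (1 / (n : ℝ) * (4 * (ρ : ℝ) ^ 2)) fun r h => by
      refine mul_le_mul_of_nonneg_left ?_ (by positivity)
      have h3 : (r : ℝ) ≤ 2 * ρ := by exact_mod_cast hr r h
      have h4 : (r : ℝ) ^ 2 ≤ (2 * ρ) ^ 2 := by gcongr
      split_ifs <;> nlinarith
  rw [nsmul_eq_mul, hc, ← mul_assoc, mul_one_div_cancel hn'.ne', one_mul] at h1 h2
  exact ⟨h1, abs_le.2 ⟨by unfold Vv; nlinarith, h2⟩⟩

theorem Vv_cut (hGv : StGv) {s n ρ Q H : ℕ} {Rs : Finset ℕ} {δ : ℝ} (hn : 0 < n)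
    (hc : Rs.card = n) (hρ : 1 ≤ ρ) (hr : ∀ r ∈ Rs, r ≡ 1 [MOD Q] ∧ ρ ≤ r ∧ r ≤ 2 * ρ)
    (hco : ∀ r ∈ Rs, ∀ r' ∈ Rs, r ≠ r' → r.Coprime r') (h0 : 0 < δ) (h1 : δ ≤ 1)
    (h2 : 4 ^ s ≤ δ ^ 2 ^ s * n) (h3 : (((2 * ρ) ^ 2 : ℕ) : ℝ) ^ 2 ^ s ≤ δ ^ 2 ^ s * H) (a : O) :
    Cv.Cut (s := s + 1) (Cv.box H) (fun h => Vv Rs n (a + (Q : O) * ∑ r, em (h r))) (10 * δ) := by
  have hn' : (0 : ℝ) < n := by exact_mod_cast hn
  have hinj : ∀ x ∈ Rs, ∀ y ∈ Rs, (x : O) = y → x = y := fun _ _ _ _ e => Nat.cast_injective e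
  have hnorm : ∀ r : ℕ, (r : O).norm = (r : ℤ) ^ 2 := fun r => by
    rw [Zsqrtd.norm_natCast, sq]
  have h := hGv s (Rs.image fun r : ℕ => (r : O)) (fun _ => 1 / (n : ℝ)) (fun _ => 1) Q
    ((2 * ρ) ^ 2) H δ a (fun _ _ => by positivity)
    (by rw [sum_image hinj, sum_const, nsmul_eq_mul, hc, mul_one_div_cancel hn'.ne'])
    (fun _ _ => by simp) ?_ h0 h1 ?_ h3
  · convert h using 2 with h
    rw [sum_image hinj, Vv]
    refine sum_congr rfl fun r _ => ?_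
    rw [one_mul, hnorm]
    push_cast
    rfl
  · intro x hx
    obtain ⟨r, hr', rfl⟩ := mem_image.1 hx
    obtain ⟨a1, a2, a3⟩ := hr r hr'
    refine ⟨by exact_mod_cast (by omega : r ≠ 0), ?_, ?_⟩
    · rw [hnorm]
      exact_mod_cast Nat.pow_le_pow_left a3 2
    · rw [hnorm]
      refine IsCoprime.pow_left (Nat.isCoprime_iff_coprime.2 ?_)
      rw [Nat.Coprime, a1.gcd_eq]
      simp
  · have hb : Cv.bad (Rs.image fun r : ℕ => (r : O)) (fun _ => 1 / (n : ℝ))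
        (fun x => x.norm.natAbs) ≤ 1 / n := by
      rw [Cv.bad, sum_image hinj]
      refine (sum_le_card_nsmul _ _ (1 / (n : ℝ) * (1 / n)) fun r hr' => ?_).trans ?_
      · rw [sum_image hinj, sum_eq_single r]
        · split_ifs
          · positivity
          · exact le_rfl
        · intro r' hr'' hne
          rw [if_pos]
          simp only [hnorm, Int.natAbs_pow, Int.natAbs_natCast]
          exact Nat.Coprime.pow _ _ (hco r hr' r' hr'' hne.symm)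
        · exact fun h => absurd hr' h
      · rw [nsmul_eq_mul, hc, ← mul_assoc, mul_one_div_cancel hn'.ne', one_mul]
    refine (mul_le_mul_of_nonneg_left hb (by positivity)).trans ?_
    rw [mul_one_div, div_le_iff₀ hn']
    exact h2

theorem dv_mul {k : ℕ} (hk : 0 < k) (x : O) : dv k ((k : O) * x) = x := by
  have hk' : (k : ℤ) ≠ 0 := by exact_mod_cast hk.ne'
  ext <;> simp [dv, Int.mul_ediv_cancel_left _ hk']

theorem dvd_iff {k : ℕ} (hk : 0 < k) (r : ℕ) (z : O) :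
    ((k * r : ℕ) : O) ∣ z ↔ (k : O) ∣ z ∧ (r : O) ∣ dv k z := by
  constructor
  · rintro ⟨y, rfl⟩
    rw [Nat.cast_mul, mul_assoc, dv_mul hk]
    exact ⟨dvd_mul_right _ _, dvd_mul_right _ _⟩
  · rintro ⟨⟨x, rfl⟩, h⟩
    rw [dv_mul hk] at h
    rw [Nat.cast_mul]
    exact mul_dvd_mul_left _ h

/-- the weighted sum -/
theorem sum_Vv {Rs : Finset ℕ} {n k : ℕ} (hn : 0 < n) (hc : Rs.card = n) (hk : 0 < k)
    (B : Finset O) (f : O → ℝ) (l : ℝ) :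
    (∑ r ∈ Rs, ((k * r : ℕ) : ℝ) ^ 2 / l ^ 2 *
        ∑ z ∈ B.filter fun z => ((k * r : ℕ) : O) ∣ z, f (dv k z)) / n =
      (k : ℝ) ^ 2 / l ^ 2 * ∑ z ∈ B.filter fun z => (k : O) ∣ z, f (dv k z) +
        (k : ℝ) ^ 2 / l ^ 2 *
          ∑ z ∈ B.filter fun z => (k : O) ∣ z, Vv Rs n (dv k z) * f (dv k z) := by
  have hn' : (n : ℝ) ≠ 0 := by exact_mod_cast hn.ne'
  have e1 : ∀ x : O, f x + Vv Rs n x * f x =
      ∑ r ∈ Rs, 1 / (n : ℝ) * (r : ℝ) ^ 2 * if (r : O) ∣ x then f x else 0 := fun x => by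
    have e2 : f x = ∑ _r ∈ Rs, 1 / (n : ℝ) * f x := by
      rw [sum_const, nsmul_eq_mul, hc, ← mul_assoc, mul_one_div_cancel hn', one_mul]
    rw [Vv, sum_mul]
    nth_rewrite 1 [e2]
    rw [← sum_add_distrib]
    refine sum_congr rfl fun r _ => ?_
    split_ifs <;> ring
  rw [← mul_add, ← sum_add_distrib, sum_congr rfl fun z _ => e1 (dv k z), sum_comm, sum_div,
    mul_sum]
  refine sum_congr rfl fun r _ => ?_
  rw [← mul_sum, ← sum_filter, filter_filter, filter_congr fun z _ => dvd_iff hk r z]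
  push_cast
  ring

/-- a congruence class in an interval -/
theorem card_cls {k F : ℕ} (hk : IsCoprime (k : ℤ) F) (c : ℤ) (a L : ℕ) (A : Finset ℕ)
    (h : ∀ t ∈ A, a ≤ t ∧ t < a + L ∧ (k : ℤ) ∣ c + F * t) : (A.card : ℝ) ≤ (L : ℝ) / k + 1 := by
  have hinj : Set.InjOn (fun t => t - a) (A : Set ℕ) := fun x hx y hy e => by
    have h1 := (h x hx).1
    have h2 := (h y hy).1
    simp only at e
    omega
  rw [← card_image_of_injOn hinj]
  refine card_class k L _ (fun x hx => ?_) fun x hx y hy => ?_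
  · obtain ⟨t, ht, rfl⟩ := mem_image.1 hx
    have := h t ht
    exact mem_range.2 (by omega)
  · obtain ⟨t, ht, rfl⟩ := mem_image.1 hx
    obtain ⟨u, hu, rfl⟩ := mem_image.1 hy
    obtain ⟨a1, -, a2⟩ := h t ht
    obtain ⟨b1, -, b2⟩ := h u hu
    refine hk.dvd_of_dvd_mul_left ?_
    rw [Nat.cast_sub a1, Nat.cast_sub b1]
    convert dvd_sub a2 b2 using 1
    ring

/-- the average over the shifts of one point -/
theorem point {s : ℕ} {H : Type} (S : Finset H) (V A p : (Fin s → H) → ℝ)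
    (c M1 Cp Vm η β : ℝ) (hA : Low (S : Set H) M1 A) (hV : Cv.Cut S V β) (hc : |c| ≤ Cp)
    (h : ∀ h ∈ Fintype.piFinset fun _ : Fin s => S, |p h - A h| ≤ η ∧ |p h| ≤ Cp ∧ |V h| ≤ Vm) :
    -(((M1 + Cp) ^ 2 * β + Vm * (η * (M1 + 3 * Cp))) *
        (Fintype.piFinset fun _ : Fin s => S).card) ≤
      ∑ h ∈ Fintype.piFinset fun _ : Fin s => S, V h * (p h - c) ^ 2 := by
  have L : Low (S : Set H) (M1 + Cp) fun x => A x + -c :=
    hA.add (Cv.Low.const (by rwa [abs_neg]))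
  have h1 := (abs_le.1 ((L.mul L).cut hV subset_rfl)).1
  have h2 := card_nsmul_le_sum (Fintype.piFinset fun _ : Fin s => S)
    (fun h => V h * (p h - c) ^ 2 - V h * ((A h + -c) * (A h + -c)))
    (-(Vm * (η * (M1 + 3 * Cp)))) fun x hx => by
      obtain ⟨a1, a2, a3⟩ := h x hx
      have a4 := hA.bound (x := x) fun r => Fintype.mem_piFinset.1 hx r
      have e : V x * (p x - c) ^ 2 - V x * ((A x + -c) * (A x + -c)) =
          V x * ((p x - A x) * (p x + A x - 2 * c)) := by ring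
      have a5 : |p x + A x - 2 * c| ≤ M1 + 3 * Cp := by
        rw [abs_le] at a2 a4 hc ⊢
        constructor <;> linarith [a2.1, a2.2, a4.1, a4.2, hc.1, hc.2]
      rw [e]
      refine (abs_le.1 ?_).1
      rw [abs_mul, abs_mul]
      exact mul_le_mul a3 (mul_le_mul a1 a5 (abs_nonneg _) ((abs_nonneg _).trans a1))
        (by positivity) ((abs_nonneg _).trans a3)
  rw [sum_sub_distrib, nsmul_eq_mul] at h2
  have e : ((Fintype.piFinset fun _ : Fin s => S).card : ℝ) = (S.card : ℝ) ^ s := by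
    rw [Fintype.card_piFinset_const]; push_cast; rfl
  rw [e] at h2 ⊢
  nlinarith

theorem pt_facts {S : Sc} (hok : S.Ok) {k : ℕ} {x : O} (hz : (k : O) * x ∈ S.B) :
    IsCoprime x.norm (S.F : ℤ) ∧ S.T ≤ 4 * k * sz x ∧ k * sz x ≤ 5 * S.T := by
  have hn : ((k : O) * x).norm = (k : ℤ) ^ 2 * x.norm := by
    rw [Zsqrtd.norm_mul, Zsqrtd.norm_natCast, sq]
  obtain ⟨h1, h2⟩ := hok.lo _ hz
  obtain ⟨u, hu⟩ := norm_congr (S.mem_B_congr hz)
  rw [hn] at h1 h2 hu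
  refine ⟨?_, ?_, ?_⟩
  · have h3 : (k : ℤ) ^ 2 * x.norm = S.w0.norm + S.F * u := by linarith
    have h4 := hok.hw.add_mul_left_left u
    rw [← h3] at h4
    exact h4.of_mul_left_right
  · have h3 := mul_le_mul_of_nonneg_left (norm_le_sz x) (sq_nonneg (k : ℤ))
    have h4 : (S.T : ℤ) ^ 2 ≤ (4 * k * sz x) ^ 2 := by nlinarith [sq_nonneg ((k : ℤ) * sz x)]
    exact_mod_cast (pow_le_pow_iff_left₀ (by positivity) (by positivity) two_ne_zero).1 h4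
  · have h3 := mul_le_mul_of_nonneg_left (sz_le_norm x) (sq_nonneg (k : ℤ))
    have h4 : ((k : ℤ) * sz x) ^ 2 ≤ (5 * S.T) ^ 2 := by nlinarith [sq_nonneg (S.T : ℤ)]
    exact_mod_cast (pow_le_pow_iff_left₀ (by positivity) (by positivity) two_ne_zero).1 h4

theorem num1 {H k U c n : ℕ} (hH : 0 < H) (hc : c ≤ H) (h : k * H ^ (n + 1) ≤ c * U) :
    k * H ^ n ≤ U := by
  refine Nat.le_of_mul_le_mul_left ?_ hH
  calc H * (k * H ^ n) = k * H ^ (n + 1) := by ring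
    _ ≤ c * U := h
    _ ≤ H * U := Nat.mul_le_mul_right _ hc

theorem frac_le {a b H : ℕ} (hH : 0 < H) (hb : 0 < b) (h : a * H ≤ b) : (a : ℝ) / b ≤ 1 / H := by
  have h1 : (0 : ℝ) < H := by exact_mod_cast hH
  have h2 : (0 : ℝ) < b := by exact_mod_cast hb
  rw [div_le_div_iff₀ h2 h1, one_mul]
  exact_mod_cast h

/-- the final count -/
theorem count {e1 e2 f1 f2 k l u β c Z : ℝ} (hk : 0 < k) (hl : k ≤ l) (hβ : 0 ≤ β) (hc : 0 ≤ c)
    (a1 : e1 ≤ l / k + 1) (a2 : e2 ≤ l / k + 1) (b1 : f1 ≤ e1) (b2 : f2 ≤ e2) (c1 : 0 ≤ f1)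
    (c2 : 0 ≤ f2) (d1 : e1 - f1 ≤ u) (d2 : e2 - f2 ≤ u)
    (h : -(β * (f1 * f2) + c * (e1 * e2 - f1 * f2)) ≤ Z) :
    -(4 * β + 4 * c * (u * k / l)) ≤ k ^ 2 / l ^ 2 * Z := by
  have hl0 : 0 < l := hk.trans_le hl
  obtain ⟨y, hy⟩ : ∃ y, y = l / k := ⟨_, rfl⟩
  have hy1 : 1 ≤ y := by rw [hy, le_div_iff₀ hk]; linarith
  rw [← hy] at a1 a2
  have hu : 0 ≤ u := by linarith
  have h1 : f1 * f2 ≤ (2 * y) * (2 * y) := mul_le_mul (by linarith) (by linarith) c2 (by linarith)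
  have h2 : (e1 - f1) * e2 ≤ u * (2 * y) := mul_le_mul d1 (by linarith) (by linarith) hu
  have h3 : (e2 - f2) * f1 ≤ u * (2 * y) := mul_le_mul d2 (by linarith) c1 hu
  have h4 : -(β * (4 * y ^ 2) + c * (4 * u * y)) ≤ Z := by
    nlinarith [mul_le_mul_of_nonneg_left h1 hβ, mul_le_mul_of_nonneg_left h2 hc,
      mul_le_mul_of_nonneg_left h3 hc]
  refine le_trans (le_of_eq ?_) (mul_le_mul_of_nonneg_left h4 (by positivity))
  rw [hy]
  field_simp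

/-- the box version of the averaging -/
theorem box_lb {F k l Q s H : ℕ} (hF : 0 < F) (hk : 0 < k) (hkF : IsCoprime (k : ℤ) F)
    (hH : 0 < H) (hl : k ≤ l) (w0 : O) (g : O → ℝ) {c β : ℝ} (hβ : 0 ≤ β) (hc : 0 ≤ c)
    (h2 : ∀ x : O, (k : O) * x ∈ cbx F w0 l → -c ≤ g x)
    (h3 : ∀ x : O, (k : O) * x ∈ cbx F w0 l →
      (∀ h ∈ Fintype.piFinset fun _ : Fin s => Cv.box H,
        (k : O) * (x + ((F * Q : ℕ) : O) * ∑ r, em (h r)) ∈ cbx F w0 l) →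
      -(β * (Fintype.piFinset fun _ : Fin s => Cv.box H).card) ≤
        ∑ h ∈ Fintype.piFinset fun _ : Fin s => Cv.box H,
          g (x + ((F * Q : ℕ) : O) * ∑ r, em (h r))) :
    -(4 * β + 4 * c * (((Q * s * H : ℕ) + 1) * k / l)) ≤
      (k : ℝ) ^ 2 / (l : ℝ) ^ 2 * ∑ z ∈ (cbx F w0 l).filter fun z => (k : O) ∣ z, g (dv k z) := by
  have hk' : (0 : ℝ) < k := by exact_mod_cast hk
  obtain ⟨Δ, hΔ⟩ : ∃ Δ, Δ = k * (Q * s * H) := ⟨_, rfl⟩
  let E : ℤ → Finset ℕ := fun c => (range l).filter fun t : ℕ => (k : ℤ) ∣ c + F * t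
  let E' : ℤ → Finset ℕ := fun c => (E c).filter fun t => t + Δ < l
  have hE : ∀ c t, t ∈ E c ↔ t < l ∧ (k : ℤ) ∣ c + F * t := fun c t => by simp [E]
  have hE1 : ∀ c, ((E c).card : ℝ) ≤ (l : ℝ) / k + 1 := fun c =>
    card_cls hkF c 0 l _ fun t ht => ⟨Nat.zero_le _, by simpa using ((hE c t).1 ht).1,
      ((hE c t).1 ht).2⟩
  have hE2 : ∀ c, ((E' c).card : ℝ) ≤ (E c).card := fun c => by
    exact_mod_cast card_filter_le _ _
  have hE3 : ∀ c, ((E c).card : ℝ) - (E' c).card ≤ (Q * s * H : ℕ) + 1 := fun c => by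
    have e1 := card_filter_add_card_filter_not (s := E c) fun t => t + Δ < l
    have e2 := card_cls hkF c (l - Δ) Δ ((E c).filter fun t => ¬t + Δ < l) fun t ht => by
      obtain ⟨a1, a2⟩ := mem_filter.1 ht
      obtain ⟨a3, a4⟩ := (hE c t).1 a1
      exact ⟨by omega, by omega, a4⟩
    have e3 : (Δ : ℝ) / k = (Q * s * H : ℕ) := by
      rw [hΔ, Nat.cast_mul, mul_div_cancel_left₀ _ hk'.ne']
    have e4 : ((E' c).card : ℝ) + (((E c).filter fun t => ¬t + Δ < l).card : ℝ) = (E c).card := by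
      exact_mod_cast e1
    linarith
  have hdv : ∀ t : ℕ × ℕ, (k : O) ∣ w0 + (F : O) * em t ↔
      (k : ℤ) ∣ w0.re + F * t.1 ∧ (k : ℤ) ∣ w0.im + F * t.2 := fun t => by
    rw [natCast_dvd_iff]; simp [em]
  have hX : ∀ t ∈ E w0.re ×ˢ E w0.im, ∃ x : O, w0 + (F : O) * em t = (k : O) * x ∧
      (k : O) * x ∈ cbx F w0 l := fun t ht => by
    obtain ⟨a1, a2⟩ := mem_product.1 ht
    obtain ⟨x, hx⟩ := (hdv t).2 ⟨((hE _ _).1 a1).2, ((hE _ _).1 a2).2⟩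
    exact ⟨x, hx, mem_cbx.2 ⟨t, ((hE _ _).1 a1).1, ((hE _ _).1 a2).1, hx.symm⟩⟩
  let v : (Fin s → ℕ × ℕ) → ℕ × ℕ := fun h => (k * Q * (∑ r, h r).1, k * Q * (∑ r, h r).2)
  have hv : ∀ (t : ℕ × ℕ) (x : O) h, w0 + (F : O) * em t = (k : O) * x →
      w0 + (F : O) * em (t + v h) = (k : O) * (x + ((F * Q : ℕ) : O) * ∑ r, em (h r)) := by
    intro t x h e
    have e1 : em (v h) = ((k * Q : ℕ) : O) * em (∑ r, h r) := by
      ext <;> simp only [v, em, mul_re', mul_im', Zsqrtd.re_natCast, Zsqrtd.im_natCast] <;>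
        push_cast <;> ring
    rw [em_add, e1, em_sum, mul_add, ← add_assoc, e]
    push_cast
    ring
  have hin : ∀ h ∈ Fintype.piFinset fun _ : Fin s => Cv.box H, ∀ t ∈ E' w0.re ×ˢ E' w0.im,
      t + v h ∈ E w0.re ×ˢ E w0.im := by
    intro h hh t ht
    have b0 : ∀ r, (h r).1 ≤ H ∧ (h r).2 ≤ H := fun r => by
      have := mem_product.1 (Fintype.mem_piFinset.1 hh r)
      exact ⟨(mem_Ioc.1 this.1).2, (mem_Ioc.1 this.2).2⟩
    have key : ∀ (c : ℤ) (t m : ℕ), t ∈ E' c → m ≤ s * H → t + k * Q * m ∈ E c := by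
      intro c t m ht hm
      obtain ⟨a1, a2⟩ := mem_filter.1 ht
      have a3 : k * Q * m ≤ Δ := by
        rw [hΔ, mul_assoc Q, ← mul_assoc k]
        exact Nat.mul_le_mul_left _ hm
      refine (hE _ _).2 ⟨by omega, ?_⟩
      have e : c + F * ((t + k * Q * m : ℕ) : ℤ) = c + F * t + k * (F * Q * m) := by
        push_cast; ring
      rw [e]
      exact dvd_add ((hE _ _).1 a1).2 (dvd_mul_right _ _)
    obtain ⟨a1, a2⟩ := mem_product.1 ht
    refine mem_product.2 ⟨key _ _ _ a1 ?_, key _ _ _ a2 ?_⟩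
    · rw [Prod.fst_sum]
      simpa using sum_le_card_nsmul univ (fun r => (h r).1) H fun r _ => (b0 r).1
    · rw [Prod.snd_sum]
      simpa using sum_le_card_nsmul univ (fun r => (h r).2) H fun r _ => (b0 r).2
  have hsub : E' w0.re ×ˢ E' w0.im ⊆ E w0.re ×ˢ E w0.im :=
    product_subset_product (filter_subset _ _) (filter_subset _ _)
  have hcore := core (E w0.re ×ˢ E w0.im) (E' w0.re ×ˢ E' w0.im)
    (Fintype.piFinset fun _ : Fin s => Cv.box H)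
    (Fintype.piFinset_nonempty.2 fun _ => ⟨(H, H), by simp [Cv.box, hH]⟩) v
    (fun t => g (dv k (w0 + (F : O) * em t))) c β hin
    (fun t ht => by
      obtain ⟨x, e, hx⟩ := hX t ht
      rw [e, dv_mul hk]
      exact h2 x hx)
    (fun t ht => by
      obtain ⟨x, e, hx⟩ := hX t (hsub ht)
      refine (h3 x hx fun h hh => ?_).trans (le_of_eq (sum_congr rfl fun h _ => ?_))
      · obtain ⟨y, e1, hy⟩ := hX _ (hin h hh t ht)
        rwa [← hv t x h e, e1]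
      · rw [hv t x h e, dv_mul hk])
  have e : ∑ z ∈ (cbx F w0 l).filter fun z => (k : O) ∣ z, g (dv k z) =
      ∑ t ∈ E w0.re ×ˢ E w0.im, g (dv k (w0 + (F : O) * em t)) := by
    rw [sum_filter, sum_cbx hF, ← sum_filter, filter_congr fun t _ => hdv t]
    exact sum_congr (filter_product (fun t : ℕ => (k : ℤ) ∣ w0.re + F * t)
      fun t : ℕ => (k : ℤ) ∣ w0.im + F * t) fun _ _ => rfl
  rw [card_product, card_product, Nat.cast_mul, Nat.cast_mul] at hcore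
  rw [e]
  exact count hk' (by exact_mod_cast hl) hβ hc (hE1 _) (hE1 _) (hE2 _) (hE2 _)
    (Nat.cast_nonneg _) (Nat.cast_nonneg _) (hE3 _) (hE3 _) hcore

/-- the sizes -/
theorem sizes {S : Sc} (hP : S.P.Ok S.d) {k : ℕ} (h1 : 2 ^ S.n0 ≤ S.ρ) (h2 : 2 * S.P.J ≤ S.ρ)
    (hk : k ≤ (2 * S.ρ) ^ S.n0) : ∃ U H : ℕ, H = S.ρ ^ S.P.a ∧ S.ρ ^ 3 ≤ H ∧ S.ρ ≤ H ∧
      S.T = S.W * U ∧ S.N = U * H ^ 8 ∧ U ≤ S.D ∧ k * H ^ 255 ≤ U ∧ k * H ^ 254 ≤ S.l := by
  obtain ⟨a1, a2, a3, a4⟩ := hP.big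
  have hρ : 0 < S.ρ := by omega
  have hH : S.ρ ≤ S.ρ ^ S.P.a := Nat.le_self_pow (by omega) _
  have b1 : 256 * S.P.a ≤ S.P.A / 2 ^ (S.P.s + 4) := by
    refine (Nat.le_div_iff_mul_le (by positivity)).2 (le_trans (le_of_eq ?_) hP.hA)
    ring
  have b2 : S.P.A / 2 ^ (S.P.s + 4) ≤ S.P.A := Nat.div_le_self _ _
  have b3 : S.n0 + S.P.a * 256 ≤ S.P.E * S.P.A - 8 * S.P.a := by
    unfold Sc.n0
    omega
  have b4 : k * (S.ρ ^ S.P.a) ^ (255 + 1) ≤ 2 ^ S.n0 * S.ρ ^ (S.P.E * S.P.A - 8 * S.P.a) := by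
    refine (Nat.mul_le_mul_right _ hk).trans ?_
    rw [mul_pow, mul_assoc, ← pow_mul, ← pow_add]
    exact Nat.mul_le_mul_left _ (Nat.pow_le_pow_right hρ b3)
  have b5 := num1 (by positivity) (h1.trans hH) b4
  refine ⟨_, _, rfl, Nat.pow_le_pow_right hρ (by omega), hH, rfl, ?_,
    Nat.pow_le_pow_right hρ (by omega), b5,
    num1 (by positivity) (h2.trans hH) (b5.trans (Sc.le_l hP (by omega)))⟩
  rw [Sc.N, ← pow_mul, ← pow_add]
  congr 1
  omega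

/-- the conditions for the structure of the count -/
theorem conds {H k U W x c3 c4 : ℕ} (h4 : 4 ≤ H) (hk : 0 < k) (hW : 0 < W) (h5 : 5 * W ≤ H)
    (h3 : c3 ≤ H) (h6 : c4 ≤ H) (hU : k * H ^ 255 ≤ U) (a1 : W * U ≤ 4 * k * x)
    (a2 : k * x ≤ 5 * (W * U)) :
    0 < x ∧ x * H ≤ U * H ^ 8 ∧ c3 * (k * H ^ 9) * H ≤ U ∧ c4 * H * H ≤ x := by
  have hH : 0 < H := by omega
  have b1 : H ^ (254 + 1) ≤ 4 * x := by
    refine Nat.le_of_mul_le_mul_left ?_ hk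
    calc k * H ^ 255 ≤ W * U := hU.trans (Nat.le_mul_of_pos_left _ hW)
      _ ≤ k * (4 * x) := a1.trans (le_of_eq (by ring))
  have b2 := num1 (k := 1) hH h4 (by rwa [one_mul])
  rw [one_mul] at b2
  refine ⟨lt_of_lt_of_le (by positivity) b2, ?_, ?_, ?_⟩
  · calc x * H ≤ k * x * H := Nat.mul_le_mul_right _ (Nat.le_mul_of_pos_left _ hk)
      _ ≤ 5 * W * U * H := Nat.mul_le_mul_right _ (a2.trans (le_of_eq (by ring)))
      _ ≤ H * U * H := by gcongr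
      _ = U * H ^ 2 := by ring
      _ ≤ _ := Nat.mul_le_mul_left _ (Nat.pow_le_pow_right hH (by norm_num))
  · calc c3 * (k * H ^ 9) * H ≤ H * (k * H ^ 9) * H := by gcongr
      _ = k * H ^ 11 := by ring
      _ ≤ k * H ^ 255 := Nat.mul_le_mul_left _ (Nat.pow_le_pow_right hH (by norm_num))
      _ ≤ U := hU
  · calc c4 * H * H ≤ H * H * H := by gcongr
      _ = H ^ 3 := by ring
      _ ≤ H ^ 254 := Nat.pow_le_pow_right hH (by norm_num)
      _ ≤ x := b2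

end PullAux

open PullAux in
theorem stPull (hGv : StGv) (hPsiLow : StPsiLow) (hPack : StPack) : StPull := by
  intro d P hP M ε hM hε
  obtain ⟨C, hC, hLow⟩ := hPsiLow d
  obtain ⟨Cp, hCp, hPsi, hcc⟩ := psi_le hPack d
  obtain ⟨M1, hM1⟩ : ∃ M1 : ℝ, M1 = C * M ^ 6 := ⟨_, rfl⟩
  have hM0 : 0 ≤ M1 := by rw [hM1]; positivity
  obtain ⟨δ, hδ0, hδ1, hδ⟩ : ∃ δ : ℝ, 0 < δ ∧ δ ≤ 1 ∧ δ * (80 * (M1 + Cp) ^ 2) ≤ ε :=
    ⟨min 1 (ε / (80 * (M1 + Cp) ^ 2)), lt_min one_pos (by positivity), min_le_left _ _,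
      (le_div_iff₀ (by positivity)).1 (min_le_right _ _)⟩
  obtain ⟨n₀, hn₀⟩ := exists_nat_ge (4 ^ P.s / δ ^ 2 ^ P.s)
  refine ⟨n₀ + 1, fun n hn => ?_⟩
  have hn0 : 0 < n := by omega
  have hn1 : 4 ^ P.s ≤ δ ^ 2 ^ P.s * n := by
    rw [div_le_iff₀ (by positivity), mul_comm] at hn₀
    refine hn₀.trans (mul_le_mul_of_nonneg_left ?_ (by positivity))
    exact_mod_cast (by omega : n₀ ≤ n)
  obtain ⟨K, hK⟩ : ∃ K : ℝ, K = 48 * C * (M1 + 3 * Cp) + 32 * Cp ^ 2 := ⟨_, rfl⟩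
  refine (Ev.of_eventually (d := d) (P := P) (Θ := fun w ρ =>
    (2 ^ (P.E * P.A - 8 * P.a - P.A / 2 ^ (P.s + 4)) + 4 + 2 * P.J + 5 * w.factorial +
      (P.s + 1) * (d.e * w.factorial * w.factorial) * (3 * d.C * (4 * C * d.e)) +
      8 * (P.s + 1) * (d.e * w.factorial) * (d.e * w.factorial * w.factorial) ≤ ρ) ∧
      4 / δ ≤ ρ ∧ 2 * K / ε ≤ ρ) 0 fun w _ =>
    (eventually_ge_atTop _).and ((ev_const _).and (ev_const _))).mono ?_
  rintro S rfl rfl hok ⟨-, hκ, hr1, hr2⟩ φ hφ k hk1 hk0 hk2 Rs ⟨hc, hR, hco⟩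
  change 2 ^ S.n0 + 4 + 2 * S.P.J + 5 * S.W + (S.P.s + 1) * S.Q * (3 * S.d.C * (4 * C * S.d.e)) +
    8 * (S.P.s + 1) * S.F * S.Q ≤ S.ρ at hκ
  obtain ⟨k1, k2, k3, k4, k5, k6⟩ : 2 ^ S.n0 ≤ S.ρ ∧ 4 ≤ S.ρ ∧ 2 * S.P.J ≤ S.ρ ∧ 5 * S.W ≤ S.ρ ∧
      (S.P.s + 1) * S.Q * (3 * S.d.C * (4 * C * S.d.e)) ≤ S.ρ ∧
      8 * (S.P.s + 1) * S.F * S.Q ≤ S.ρ := by
    have := Nat.two_pow_pos S.n0
    omega
  clear hκ
  obtain ⟨U, H, hH, hH3, hH1, hT, hN, hD, hU, hl⟩ := sizes hP k1 k3 hk2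
  have hρ : 1 ≤ S.ρ := le_trans (by norm_num) k2
  have hρ' : (0 : ℝ) < S.ρ := by exact_mod_cast hρ
  have hH0 : 0 < H := hρ.trans hH1
  have hU0 : 0 < U := lt_of_lt_of_le (by positivity) hU
  have hN0 : 0 < S.N := by rw [hN]; positivity
  have hF := S.F_pos
  have hQ := S.Q_pos
  have hkF : IsCoprime (k : ℤ) S.F := by
    refine Nat.isCoprime_iff_coprime.2 ?_
    rw [Nat.Coprime, hk1.gcd_eq]
    simp
  have hl3 : k * H ^ 3 ≤ S.l :=
    (Nat.mul_le_mul_left _ (Nat.pow_le_pow_right hH0 (by norm_num))).trans hl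
  have hkl : k ≤ S.l := (Nat.le_mul_of_pos_right _ (by positivity)).trans hl3
  have hl0 : (0 : ℝ) < S.l := by exact_mod_cast hk0.trans hkl
  have hcd : ∀ x : O, (k : O) * x ∈ S.B → 0 < sz x ∧ sz x * H ≤ U * H ^ 8 ∧
      (S.P.s + 1) * S.Q * (3 * S.d.C * (4 * C * S.d.e)) * (k * H ^ 9) * H ≤ U ∧
      8 * (S.P.s + 1) * S.F * S.Q * H * H ≤ sz x := fun x hx => by
    obtain ⟨-, a2, a3⟩ := pt_facts hok hx
    rw [hT] at a2 a3
    exact conds (k2.trans hH1) hk0 S.W_pos (k4.trans hH1) (k5.trans hH1) (k6.trans hH1) hU a2 a3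
  have hne : ∀ x : O, (k : O) * x ∈ S.B → x ≠ 0 ∧ sz x ≤ S.N := fun x hx => by
    obtain ⟨a1, a2, -⟩ := hcd x hx
    refine ⟨?_, hN ▸ (Nat.le_mul_of_pos_right _ hH0).trans a2⟩
    rintro rfl
    simp [sz] at a1
  have hbd : ∀ x : O, (k : O) * x ∈ S.B →
      |S.d.Psi S.b S.F S.N (fun _ => 1) (cutI S.N φ) x| ≤ Cp := fun x hx =>
    hPsi _ _ _ φ x hF hN0 hφ.1 (hne x hx).1 (pt_facts hok hx).1 (hne x hx).2
  have hcc' := hcc S.N φ hN0 hφ.1
  have hV := Vv_bd hn0 hc hρ fun r hr => (hR r hr).2.2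
  have hY : (((2 * S.ρ) ^ 2 : ℕ) : ℝ) ^ 2 ^ S.P.s ≤ δ ^ 2 ^ S.P.s * H := by
    have a1 : (((2 * S.ρ) ^ 2 : ℕ) : ℝ) ≤ δ * (S.ρ : ℝ) ^ 3 := by
      rw [div_le_iff₀ hδ0] at hr1
      push_cast
      nlinarith [mul_le_mul_of_nonneg_left hr1 (sq_nonneg (S.ρ : ℝ))]
    refine (pow_le_pow_left₀ (Nat.cast_nonneg _) a1 _).trans ?_
    rw [mul_pow, ← pow_mul, hH, Nat.cast_pow]
    refine mul_le_mul_of_nonneg_left (pow_le_pow_right₀ (by exact_mod_cast hρ) ?_) (by positivity)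
    refine le_trans ?_ hP.ha
    rw [pow_add, mul_comm]
    exact Nat.mul_le_mul_left _ (by norm_num)
  have hH' : 1 / (H : ℝ) ≤ 1 / (S.ρ : ℝ) ^ 3 :=
    one_div_le_one_div_of_le (by positivity) (by exact_mod_cast hH3)
  have hb := box_lb (Q := S.Q) (s := S.P.s + 1) hF hk0 hkF hH0 hkl S.w0
    (fun x => Vv Rs n x * (S.d.Psi S.b S.F S.N (fun _ => 1) (cutI S.N φ) x -
      S.d.cc S.N (cutI S.N φ)) ^ 2) (c := (2 * Cp) ^ 2)
    (β := (M1 + Cp) ^ 2 * (10 * δ) +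
      4 * (S.ρ : ℝ) ^ 2 * (C * (3 * (1 / (S.ρ : ℝ) ^ 3)) * (M1 + 3 * Cp)))
    (by positivity) (by positivity)
    (fun x hx => by
      have a1 := abs_le.1 (hbd x hx)
      have a2 := abs_le.1 hcc'
      have a3 : (S.d.Psi S.b S.F S.N (fun _ => 1) (cutI S.N φ) x - S.d.cc S.N (cutI S.N φ)) ^ 2 ≤
          (2 * Cp) ^ 2 := sq_le_sq' (by linarith [a1.1, a2.2]) (by linarith [a1.2, a2.1])
      nlinarith [mul_le_mul_of_nonneg_right (hV x).1 (sq_nonneg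
        (S.d.Psi S.b S.F S.N (fun _ => 1) (cutI S.N φ) x - S.d.cc S.N (cutI S.N φ)))])
    (fun x hx hin => by
      obtain ⟨a1, a2, a3, a4⟩ := hcd x hx
      obtain ⟨b1, b2, -⟩ := pt_facts hok hx
      have e1 : (S.P.s + 1) * S.Q * (3 * S.d.C * (4 * C * S.d.e * H ^ 8 * k) * H) =
          (S.P.s + 1) * S.Q * (3 * S.d.C * (4 * C * S.d.e)) * (k * H ^ 9) := by ring
      have a5 : U ≤ S.N := hN ▸ Nat.le_mul_of_pos_right _ (by positivity)
      have a6 : (S.P.s + 1) * S.Q * (3 * S.d.C * (4 * C * S.d.e * H ^ 8 * k) * H) ≤ U :=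
        e1 ▸ (Nat.le_mul_of_pos_right _ hH0).trans a3
      obtain ⟨A, hA, hA'⟩ := hLow S.P.s S.b S.F S.N S.Q S.D H (4 * C * S.d.e * H ^ 8 * k) M φ x
        hok.hb hN0 hM hφ.1 hφ.2 (hne x hx).1 b1 (hne x hx).2
        (by
          calc C * S.F * S.N = C * S.d.e * H ^ 8 * S.T := by rw [hT, hN, S.F_eq]; ring
            _ ≤ C * S.d.e * H ^ 8 * (4 * k * sz x) := Nat.mul_le_mul_left _ b2
            _ = _ := by ring)
        ((Nat.le_mul_of_pos_left _ (by positivity)).trans (a6.trans hD)) (a6.trans a5)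
        ((Nat.le_mul_of_pos_right _ hH0).trans a4)
      rw [← hM1] at hA
      refine point (Cv.box H) _ A _ _ M1 Cp _ _ _ hA
        (Vv_cut hGv hn0 hc hρ hR hco hδ0 hδ1 hn1 hY x) hcc' fun h hh =>
          ⟨(hA' h fun r => Fintype.mem_piFinset.1 hh r).trans ?_, hbd _ (hin h hh), (hV _).2⟩
      refine mul_le_mul_of_nonneg_left ?_ (Nat.cast_nonneg _)
      have c1 := frac_le (a := (S.P.s + 1) * S.F * S.Q * H) hH0 a1
        (le_trans (by nlinarith [Nat.zero_le ((S.P.s + 1) * S.F * S.Q * H * H)]) a4)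
      have c2 := frac_le hH0 hN0 ((e1 ▸ a3).trans a5)
      have c3 := frac_le hH0 hN0 (hN ▸ a2)
      rw [Nat.cast_add, add_div]
      linarith)
  have hu : (((S.Q * (S.P.s + 1) * H : ℕ) : ℝ) + 1) * k / S.l ≤ 2 / S.ρ := by
    rw [div_le_div_iff₀ hl0 hρ']
    have a1 : S.Q * (S.P.s + 1) ≤ H := by
      have : S.Q * (S.P.s + 1) ≤ 8 * (S.P.s + 1) * S.F * S.Q := by
        calc S.Q * (S.P.s + 1) ≤ 8 * S.F * (S.Q * (S.P.s + 1)) :=
              Nat.le_mul_of_pos_left _ (by positivity)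
          _ = _ := by ring
      exact this.trans (k6.trans hH1)
    have a2 : (S.Q * (S.P.s + 1) * H + 1) * k * S.ρ ≤ 2 * S.l := by
      calc (S.Q * (S.P.s + 1) * H + 1) * k * S.ρ ≤ (H * H + H * H) * k * H := by
            gcongr
            exact Nat.mul_pos hH0 hH0
        _ = 2 * (k * H ^ 3) := by ring
        _ ≤ _ := Nat.mul_le_mul_left _ hl3
    exact_mod_cast a2
  rw [sum_Vv hn0 hc hk0 S.B (fun x => (S.d.Psi S.b S.F S.N (fun _ => 1) (cutI S.N φ) x -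
    S.d.cc S.N (cutI S.N φ)) ^ 2), Sc.Kk]
  have h1 : K / S.ρ ≤ ε / 2 := by
    rw [div_le_iff₀ hε] at hr2
    rw [div_le_iff₀ hρ']
    linarith
  have h2 : 4 * (4 * (S.ρ : ℝ) ^ 2 * (C * (3 * (1 / (S.ρ : ℝ) ^ 3)) * (M1 + 3 * Cp))) +
      4 * (2 * Cp) ^ 2 * (2 / S.ρ) = K / S.ρ := by
    rw [hK]
    field_simp
    ring
  have h3 := mul_le_mul_of_nonneg_left hu (by positivity : 0 ≤ 4 * (2 * Cp) ^ 2)
  unfold Sc.B
  linarith

end Pool.Agent.Lib.MP_7d3fda_nt.Q3
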