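import Pool.Agent.Lib.MP_7d3fda_nt.Q3.Basic

open Finset Filter
open scoped Classical NumberTheorySymbols

noncomputable section

namespace Pool.Agent.Lib.MP_7d3fda_nt.Q3

open Pool.Agent.Lib.MP_4b8564_nt Pool.Agent.Lib.MP_4b8564_nt.GT
open Pool.Agent.Lib.MP_0a3467_an.Cv (Low)
open Pool.Agent.Lib.MP_0a3467_an

namespace PushAux

/-- the summand of the count -/
def gg (d : Dat) (b F : ℕ) (φ : ℤ → ℝ) (x γ : O) : ℝ :=
  if (F : O) ∣ γ * x - b then d.Fz b F φ (γ * x) else 0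

theorem gg_fin (hPack : StPack) (d : Dat) (b F N : ℕ) (φ : ℤ → ℝ) (x : O) (hF : 0 < F)
    (hx : x ≠ 0) (hc : IsCoprime x.norm (F : ℤ)) :
    (Function.support (gg d b F (cutI N φ) x)).Finite := by
  obtain ⟨C, -, h⟩ := hPack d
  refine (h b F x 0 1 N N N N hF hx hc (by decide)).1.subset fun γ hγ => ?_
  rw [Function.mem_support, gg] at hγ
  by_cases h1 : (F : O) ∣ γ * x - b
  · rw [if_pos h1, Dat.Fz] at hγ
    have h2 := fun j => (prod_ne_zero_iff.1 hγ) j (mem_univ j)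
    have h3 : ∀ j, (N : ℤ) ≤ d.nn b F j (γ * x) ∧ d.nn b F j (γ * x) < 2 * N := fun j => by
      by_contra h4
      exact h2 j (by rw [cutI, if_neg h4])
    have h5 := h3 0
    have h6 := h3 1
    exact ⟨h1, h5.1, by omega, h6.1, by omega⟩
  · exact absurd (if_neg h1) hγ

theorem psi_eq (d : Dat) (b F N : ℕ) (V : O → ℝ) (φ : ℤ → ℝ) (x : O) :
    d.Psi b F N V φ x = (x.norm : ℝ) / (N : ℝ) ^ 2 * ∑ᶠ γ : O, V γ * gg d b F φ x γ := by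
  rw [Dat.Psi]
  congr 1
  refine finsum_congr fun γ => ?_
  rw [gg]
  split_ifs <;> simp

theorem psi_mul (d : Dat) (b F N : ℕ) (φ : ℤ → ℝ) (x y : O) (hy : y ≠ 0) :
    d.Psi b F N (fun _ => 1) φ (y * x) =
      d.Psi b F N (fun γ => if y ∣ γ then (y.norm : ℝ) else 0) φ x := by
  have hn : y.norm ≠ 0 := (norm_pos' hy).ne'
  have hinj : Function.Injective fun γ : O => γ * y := fun γ γ' e => by
    have e1 : (γ - γ') * y = 0 := by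
      have e2 : γ * y = γ' * y := e
      rw [sub_mul, e2, sub_self]
    have e3 : (γ - γ').norm * y.norm = 0 := by rw [← Zsqrtd.norm_mul, e1, Zsqrtd.norm_zero]
    have e4 : (γ - γ').norm = 0 := (mul_eq_zero.1 e3).resolve_right hn
    by_contra hne
    exact (norm_pos' (sub_ne_zero.2 hne)).ne' e4
  rw [psi_eq, psi_eq]
  have h1 : ∑ᶠ γ : O, (if y ∣ γ then (y.norm : ℝ) else 0) * gg d b F φ x γ =
      ∑ᶠ γ : O, (y.norm : ℝ) * gg d b F φ x (γ * y) := by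
    rw [← finsum_mem_range (f := fun γ => (y.norm : ℝ) * gg d b F φ x γ) hinj, finsum_mem_def]
    refine finsum_congr fun γ => ?_
    by_cases h : y ∣ γ
    · obtain ⟨c, hc⟩ := h
      rw [if_pos ⟨c, hc⟩, Set.indicator_of_mem]
      exact ⟨c, by rw [hc]; ring⟩
    · rw [if_neg h, zero_mul, Set.indicator_of_notMem]
      rintro ⟨c, hc⟩
      exact h ⟨c, by rw [← hc]; ring⟩
  have h2 : ∀ γ : O, gg d b F φ x (γ * y) = gg d b F φ (y * x) γ := fun γ => by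
    rw [gg, gg, mul_assoc]
  rw [h1]
  simp only [h2, one_mul]
  rw [← mul_finsum, Zsqrtd.norm_mul]
  push_cast
  ring

theorem psi_lin (hPack : StPack) (d : Dat) (b F N : ℕ) (φ : ℤ → ℝ) (x : O) (hF : 0 < F)
    (hx : x ≠ 0) (hc : IsCoprime x.norm (F : ℤ)) (T : Finset O) (hT : ∀ y ∈ T, y ≠ 0)
    (π σ : O → ℝ) :
    d.Psi b F N (fun γ => ∑ y ∈ T, π y * (σ y * ((if y ∣ γ then (y.norm : ℝ) else 0) - 1)))
      (cutI N φ) x = ∑ y ∈ T, π y * (σ y * (d.Psi b F N (fun _ => 1) (cutI N φ) (y * x) -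
        d.Psi b F N (fun _ => 1) (cutI N φ) x)) := by
  have hfin := gg_fin hPack d b F N φ x hF hx hc
  have key : ∀ V : O → ℝ, d.Psi b F N V (cutI N φ) x = (x.norm : ℝ) / (N : ℝ) ^ 2 *
      ∑ γ ∈ hfin.toFinset, V γ * gg d b F (cutI N φ) x γ := fun V => by
    rw [psi_eq]
    congr 1
    refine finsum_eq_sum_of_support_subset _ fun γ hγ => ?_
    rw [Function.mem_support] at hγ
    simpa using right_ne_zero_of_mul hγ
  rw [key]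
  have h1 : ∀ y ∈ T, π y * (σ y * (d.Psi b F N (fun _ => 1) (cutI N φ) (y * x) -
      d.Psi b F N (fun _ => 1) (cutI N φ) x)) = (x.norm : ℝ) / (N : ℝ) ^ 2 *
      ∑ γ ∈ hfin.toFinset, π y * (σ y * ((if y ∣ γ then (y.norm : ℝ) else 0) - 1)) *
        gg d b F (cutI N φ) x γ := fun y hy => by
    rw [psi_mul d b F N _ x y (hT y hy), key, key, ← mul_sub, ← sum_sub_distrib, mul_sum,
      mul_sum, mul_sum, mul_sum]
    refine sum_congr rfl fun γ _ => ?_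
    ring
  rw [sum_congr rfl h1, ← mul_sum, sum_comm]
  congr 1
  refine sum_congr rfl fun γ _ => ?_
  rw [sum_mul]

theorem norm_nat (r : ℕ) : (r : O).norm = (r : ℤ) ^ 2 := by
  rw [norm_eq]; simp

theorem cast_inj : Function.Injective fun r : ℕ => (r : O) := fun r r' e => by
  have e1 := congrArg Zsqrtd.re e
  simpa using e1

theorem bad_le {Rs : Finset ℕ} {n : ℕ} (hn : 0 < n) (hcard : Rs.card = n)
    (hco : ∀ r ∈ Rs, ∀ r' ∈ Rs, r ≠ r' → r.Coprime r') :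
    Cv.bad (Rs.image fun r : ℕ => (r : O)) (fun _ => 1 / (n : ℝ)) (fun x => x.norm.natAbs) ≤
      1 / n := by
  have hn' : (0 : ℝ) < n := by exact_mod_cast hn
  rw [Cv.bad, sum_image fun _ _ _ _ e => cast_inj e]
  have h1 : ∀ r ∈ Rs, ∑ θ' ∈ Rs.image (fun r : ℕ => (r : O)),
      (if Nat.Coprime ((r : O).norm.natAbs) θ'.norm.natAbs then 0
        else 1 / (n : ℝ) * (1 / (n : ℝ))) ≤ 1 / (n : ℝ) * (1 / (n : ℝ)) := fun r hr => by
    rw [sum_image fun _ _ _ _ e => cast_inj e]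
    have h2 : ∀ r' ∈ Rs, (if Nat.Coprime ((r : O).norm.natAbs) (r' : O).norm.natAbs then 0
        else 1 / (n : ℝ) * (1 / (n : ℝ))) ≤
        if r = r' then 1 / (n : ℝ) * (1 / (n : ℝ)) else 0 := fun r' hr' => by
      by_cases h : r = r'
      · rw [if_pos h]
        split_ifs
        · positivity
        · exact le_rfl
      · rw [if_neg h, if_pos]
        rw [norm_nat, norm_nat, Int.natAbs_pow, Int.natAbs_pow, Int.natAbs_natCast,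
          Int.natAbs_natCast]
        exact Nat.Coprime.pow 2 2 (hco r hr r' hr' h)
    refine (sum_le_sum h2).trans ?_
    rw [sum_ite_eq, if_pos hr]
  refine (sum_le_sum h1).trans ?_
  rw [sum_const, hcard, nsmul_eq_mul]
  apply le_of_eq
  field_simp

theorem v_le {T : Finset O} {π σ : O → ℝ} {Y : ℝ} (h0 : ∀ y ∈ T, 0 ≤ π y)
    (h1 : ∑ y ∈ T, π y ≤ 1) (h2 : ∀ y ∈ T, |σ y| ≤ 1) (h3 : ∀ y ∈ T, (y.norm : ℝ) ≤ Y)
    (hY : 0 ≤ Y) (γ : O) :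
    |∑ y ∈ T, π y * (σ y * ((if y ∣ γ then (y.norm : ℝ) else 0) - 1))| ≤ Y + 1 := by
  refine (abs_sum_le_sum_abs _ _).trans ?_
  have h4 : ∀ y ∈ T, |π y * (σ y * ((if y ∣ γ then (y.norm : ℝ) else 0) - 1))| ≤
      π y * (Y + 1) := fun y hy => by
    rw [abs_mul, abs_of_nonneg (h0 y hy), abs_mul]
    refine mul_le_mul_of_nonneg_left ?_ (h0 y hy)
    have h5 : (0 : ℝ) ≤ y.norm := by exact_mod_cast norm_nonneg' y
    have h6 : |(if y ∣ γ then (y.norm : ℝ) else 0) - 1| ≤ Y + 1 := by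
      have := h3 y hy
      rw [abs_le]
      split_ifs <;> constructor <;> linarith
    calc |σ y| * |(if y ∣ γ then (y.norm : ℝ) else 0) - 1| ≤ 1 * (Y + 1) :=
          mul_le_mul (h2 y hy) h6 (abs_nonneg _) zero_le_one
      _ = Y + 1 := one_mul _
  refine (sum_le_sum h4).trans ?_
  rw [← sum_mul]
  calc (∑ y ∈ T, π y) * (Y + 1) ≤ 1 * (Y + 1) := mul_le_mul_of_nonneg_right h1 (by linarith)
    _ = Y + 1 := one_mul _

theorem sizes {ρ m a c W K z : ℕ} (hρ : 1 ≤ ρ) (ha : 1 ≤ a) (hz : z ≤ W * ρ ^ m)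
    (hK : (K + 1) * (c * W) + W ≤ ρ) :
    c * z * ρ ^ a ≤ ρ ^ (m + 4 * a) ∧ (K * (c * z * ρ ^ a) + z) * ρ ^ 3 ≤ ρ ^ (m + 8 * a) := by
  have h1 : c * z * ρ ^ a ≤ c * W * ρ ^ (m + a) := by
    calc c * z * ρ ^ a ≤ c * (W * ρ ^ m) * ρ ^ a := by gcongr
      _ = c * W * ρ ^ (m + a) := by rw [pow_add]; ring
  have h2 : z ≤ W * ρ ^ (m + a) :=
    hz.trans (Nat.mul_le_mul_left _ (Nat.pow_le_pow_right hρ (by omega)))
  have h3 : (K + 1) * (c * W) = K * (c * W) + c * W := by ring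
  constructor
  · calc c * z * ρ ^ a ≤ c * W * ρ ^ (m + a) := h1
      _ ≤ ρ * ρ ^ (m + a) := Nat.mul_le_mul_right _ (by omega)
      _ = ρ ^ (m + a + 1) := by ring
      _ ≤ ρ ^ (m + 4 * a) := Nat.pow_le_pow_right hρ (by omega)
  · calc (K * (c * z * ρ ^ a) + z) * ρ ^ 3
        ≤ (K * (c * W * ρ ^ (m + a)) + W * ρ ^ (m + a)) * ρ ^ 3 := by gcongr
      _ = (K * (c * W) + W) * (ρ ^ (m + a) * ρ ^ 3) := by ring
      _ ≤ ρ * (ρ ^ (m + a) * ρ ^ 3) := Nat.mul_le_mul_right _ (by omega)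
      _ = ρ ^ (m + a + 4) := by ring
      _ ≤ ρ ^ (m + 8 * a) := Nat.pow_le_pow_right hρ (by omega)

theorem ypow {ρ s a : ℕ} {δ : ℝ} (hδ : 0 < δ) (h1 : 1 ≤ ρ) (hρ : 4 / δ ≤ ρ)
    (ha : 2 ^ (s + 12) ≤ a) :
    ((4 * ρ ^ 2 : ℕ) : ℝ) ^ 2 ^ s ≤ δ ^ 2 ^ s * ((ρ ^ a : ℕ) : ℝ) := by
  have h2 : (1 : ℝ) ≤ ρ := by exact_mod_cast h1
  have h3 : (4 : ℝ) ≤ δ * ρ := by rw [div_le_iff₀ hδ] at hρ; linarith
  have h4 : ((4 * ρ ^ 2 : ℕ) : ℝ) ≤ δ * (ρ : ℝ) ^ 3 := by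
    push_cast
    calc (4 : ℝ) * (ρ : ℝ) ^ 2 ≤ δ * ρ * (ρ : ℝ) ^ 2 := by gcongr
      _ = δ * (ρ : ℝ) ^ 3 := by ring
  have h5 : 3 * 2 ^ s ≤ a := by
    have : 2 ^ (s + 12) = 4096 * 2 ^ s := by rw [pow_add]; ring
    omega
  calc ((4 * ρ ^ 2 : ℕ) : ℝ) ^ 2 ^ s ≤ (δ * (ρ : ℝ) ^ 3) ^ 2 ^ s :=
        pow_le_pow_left₀ (by positivity) h4 _
    _ = δ ^ 2 ^ s * (ρ : ℝ) ^ (3 * 2 ^ s) := by rw [mul_pow, ← pow_mul]
    _ ≤ δ ^ 2 ^ s * (ρ : ℝ) ^ a :=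
        mul_le_mul_of_nonneg_left (pow_le_pow_right₀ h2 h5) (by positivity)
    _ = δ ^ 2 ^ s * ((ρ ^ a : ℕ) : ℝ) := by push_cast; ring

theorem err {C ε ρ E N : ℝ} (hC : 0 < C) (hε : 0 < ε) (h1 : 1 ≤ ρ) (hρ : 10 * C / ε ≤ ρ)
    (hE : 0 ≤ E) (hN : 0 < N) (h : E * ρ ^ 3 ≤ N) : C * ((4 * ρ ^ 2 + 1) * E / N) ≤ ε / 2 := by
  have h2 : 10 * C ≤ ρ * ε := by rwa [div_le_iff₀ hε] at hρ
  have h3 : 4 * ρ ^ 2 + 1 ≤ 5 * ρ ^ 2 := by nlinarith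
  have h4 : (4 * ρ ^ 2 + 1) * E / N ≤ 5 / ρ := by
    rw [div_le_div_iff₀ hN (by linarith)]
    calc (4 * ρ ^ 2 + 1) * E * ρ ≤ 5 * ρ ^ 2 * E * ρ := by gcongr
      _ = 5 * (E * ρ ^ 3) := by ring
      _ ≤ 5 * N := by linarith
  calc C * ((4 * ρ ^ 2 + 1) * E / N) ≤ C * (5 / ρ) := mul_le_mul_of_nonneg_left h4 hC.le
    _ ≤ ε / 2 := by
      rw [← mul_div_assoc, div_le_div_iff₀ (by linarith) (by norm_num)]
      linarith

end PushAux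

open PushAux in
theorem stPush (hGv : StGv) (hLowSum : StLowSum) (hPack : StPack) : StPush := by
  intro d P hP M ε hM hε
  obtain ⟨C, hC, hL⟩ := hLowSum d
  have hM6 : 0 < M ^ 6 := by positivity
  obtain ⟨δ, hδ, hδ1, hδ2⟩ : ∃ δ : ℝ, 0 < δ ∧ δ ≤ 1 ∧ C * (M ^ 6 * (10 * δ)) ≤ ε / 2 := by
    refine ⟨min 1 (ε / (20 * C * M ^ 6)), lt_min one_pos (by positivity), min_le_left _ _, ?_⟩
    have h1 : min 1 (ε / (20 * C * M ^ 6)) ≤ ε / (20 * C * M ^ 6) := min_le_right _ _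
    calc C * (M ^ 6 * (10 * min 1 (ε / (20 * C * M ^ 6)))) ≤
          C * (M ^ 6 * (10 * (ε / (20 * C * M ^ 6)))) := by gcongr
      _ = ε / 2 := by field_simp; ring
  obtain ⟨n₁, hn₁⟩ := exists_nat_ge ((4 : ℝ) ^ P.s / δ ^ 2 ^ P.s)
  refine ⟨n₁ + 1, fun n hn => ?_⟩
  have hn0 : 0 < n := by omega
  have hn0' : (0 : ℝ) < n := by exact_mod_cast hn0
  have hbad : (4 : ℝ) ^ P.s * (1 / n) ≤ δ ^ 2 ^ P.s := by
    have h1 : (n₁ : ℝ) ≤ n := by exact_mod_cast (by omega : n₁ ≤ n)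
    have h2 := hn₁.trans h1
    rw [div_le_iff₀ (by positivity)] at h2
    rw [mul_one_div, div_le_iff₀ hn0']
    linarith
  have H : ∀ w, 0 ≤ w → ∀ᶠ ρ : ℕ in atTop, 1 ≤ ρ ∧ 4 / δ ≤ (ρ : ℝ) ∧ 10 * C / ε ≤ (ρ : ℝ) ∧
      ((P.s + 1) * (d.e * w.factorial * w.factorial) + 1) * (3 * d.C * w.factorial) +
        w.factorial ≤ ρ := fun w _ =>
    (eventually_ge_atTop 1).and ((ev_const _).and ((ev_const _).and (eventually_ge_atTop _)))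
  refine (Ev.of_eventually (d := d) (P := P) 0 H).mono ?_
  rintro S rfl rfl hok ⟨-, hρ1, hρ2, hρ3, hρ4⟩ φ hφ Rs hRs x hx hc hsz
  obtain ⟨hcard, hr, hco⟩ := hRs
  obtain ⟨b1, b2, b3, -⟩ := hP.big
  obtain ⟨m, hm⟩ : ∃ m, S.P.E * S.P.A = m + 8 * S.P.a := ⟨S.P.E * S.P.A - 8 * S.P.a, by omega⟩
  have eN : S.N = S.ρ ^ (m + 8 * S.P.a) := by rw [Sc.N, hm]
  have eD : S.D = S.ρ ^ (m + 4 * S.P.a) := by rw [Sc.D, hm]; congr 1; omega
  have eT : S.T = S.W * S.ρ ^ m := by rw [Sc.T, hm]; congr 2; omega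
  obtain ⟨z1, z2⟩ := sizes (c := 3 * S.d.C) (K := (S.P.s + 1) * S.Q) (a := S.P.a) hρ1 (by omega)
    (eT ▸ hsz) hρ4
  rw [← eD] at z1
  rw [← eN] at z2
  have hN : 0 < S.N := by rw [eN]; positivity
  have z3 : (S.P.s + 1) * S.Q * (3 * S.d.C * sz x * S.ρ ^ S.P.a) + sz x ≤ S.N :=
    le_trans (Nat.le_mul_of_pos_right _ (by positivity)) z2
  obtain ⟨T, hT⟩ : ∃ T : Finset O, T = Rs.image fun r : ℕ => (r : O) := ⟨_, rfl⟩
  obtain ⟨Ψ, hΨ⟩ : ∃ Ψ : O → ℝ, Ψ = fun y => S.d.Psi S.b S.F S.N (fun _ => 1) (cutI S.N φ) (y * x) -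
    S.d.Psi S.b S.F S.N (fun _ => 1) (cutI S.N φ) x := ⟨_, rfl⟩
  obtain ⟨σ, hσ⟩ : ∃ σ : O → ℝ, σ = fun y => if 0 ≤ Ψ y then 1 else -1 := ⟨_, rfl⟩
  have s1 : ∀ y, |σ y| ≤ 1 := fun y => by
    rw [hσ]; dsimp only; split_ifs <;> simp
  have s2 : ∀ y, σ y * Ψ y = |Ψ y| := fun y => by
    rw [hσ]; dsimp only
    split_ifs with h
    · rw [abs_of_nonneg h, one_mul]
    · rw [abs_of_neg (not_le.1 h)]; ring
  have t0 : ∀ y ∈ T, (0 : ℝ) ≤ 1 / n := fun _ _ => by positivity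
  have t1 : ∑ _y ∈ T, (1 / n : ℝ) ≤ 1 := by
    rw [sum_const, hT, card_image_of_injective _ cast_inj, hcard, nsmul_eq_mul]
    apply le_of_eq
    field_simp
  have t2 : ∀ y ∈ T, y ≠ 0 ∧ y.norm ≤ ((4 * S.ρ ^ 2 : ℕ) : ℤ) ∧
      IsCoprime y.norm ((S.F * S.Q : ℕ) : ℤ) := fun y hy => by
    rw [hT, mem_image] at hy
    obtain ⟨r, hr1, rfl⟩ := hy
    obtain ⟨r1, r2, r3⟩ := hr r hr1
    refine ⟨fun h => ?_, ?_, ?_⟩
    · have h1 : (r : O) = ((0 : ℕ) : O) := by simpa using h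
      have := cast_inj h1
      omega
    · rw [norm_nat]
      have h1 : r ^ 2 ≤ 4 * S.ρ ^ 2 := by nlinarith
      exact_mod_cast h1
    · rw [norm_nat]
      have h1 : r.Coprime (S.F * S.Q) := by
        rw [Nat.Coprime, r1.gcd_eq]
        exact Nat.gcd_one_left _
      exact (Nat.isCoprime_iff_coprime.2 h1).pow_left
  have t3 : 4 ^ S.P.s * Cv.bad T (fun _ => 1 / (n : ℝ)) (fun x => x.norm.natAbs) ≤
      δ ^ 2 ^ S.P.s := by
    refine le_trans ?_ hbad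
    rw [hT]
    exact mul_le_mul_of_nonneg_left (bad_le hn0 hcard hco) (by positivity)
  have hcut := fun γ => hGv S.P.s T (fun _ => 1 / (n : ℝ)) σ (S.F * S.Q) (4 * S.ρ ^ 2)
    (S.ρ ^ S.P.a) δ γ t0 t1 (fun y _ => s1 y) t2 hδ hδ1 t3 (ypow hδ hρ1 hρ2 hP.ha)
  have hV := v_le (Y := 4 * (S.ρ : ℝ) ^ 2) t0 t1 (fun y _ => s1 y)
    (fun y hy => by exact_mod_cast (t2 y hy).2.1) (by positivity)
  have main := hL S.P.s S.b S.F S.N S.Q S.D (S.ρ ^ S.P.a) M (10 * δ) (4 * (S.ρ : ℝ) ^ 2 + 1) φ x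
    (fun γ => ∑ y ∈ T, 1 / (n : ℝ) * (σ y * ((if y ∣ γ then (y.norm : ℝ) else 0) - 1)))
    hok.hb hN (by positivity) hM (by positivity) hφ.1 hφ.2 hx hc z1 (by omega) (by omega) hV hcut
  rw [psi_lin hPack S.d S.b S.F S.N φ x S.F_pos hx hc T (fun y hy => (t2 y hy).1)] at main
  have e1 : ∑ y ∈ T, 1 / (n : ℝ) * (σ y * (S.d.Psi S.b S.F S.N (fun _ => 1) (cutI S.N φ) (y * x) -
      S.d.Psi S.b S.F S.N (fun _ => 1) (cutI S.N φ) x)) = 1 / (n : ℝ) * ∑ r ∈ Rs, |Ψ r| := by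
    rw [← mul_sum, hT, sum_image fun _ _ _ _ e => cast_inj e]
    congr 1
    refine sum_congr rfl fun r _ => ?_
    rw [← s2, hΨ]
  rw [e1] at main
  have e2 := err hC hε (ρ := S.ρ) (by exact_mod_cast hρ1) hρ3
    (E := (((S.P.s + 1) * S.Q * (3 * S.d.C * sz x * S.ρ ^ S.P.a) + sz x : ℕ) : ℝ)) (N := S.N)
    (Nat.cast_nonneg _) (by exact_mod_cast hN) (by exact_mod_cast z2)
  have e3 : 1 / (n : ℝ) * ∑ r ∈ Rs, |Ψ r| ≤ ε := by
    refine (le_abs_self _).trans (main.trans ?_)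
    rw [mul_add]
    linarith
  have e4 : ∑ r ∈ Rs, |Ψ r| ≤ ε * n := by
    rw [one_div, inv_mul_le_iff₀ hn0'] at e3
    linarith
  simpa only [hΨ] using e4

end Pool.Agent.Lib.MP_7d3fda_nt.Q3
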