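import Pool.Agent.Lib.MP_7d3fda_nt.Q3.Basic

open Finset Filter
open scoped Classical

noncomputable section

namespace Pool.Agent.Lib.MP_7d3fda_nt.Q3

open Pool.Agent.Lib.MP_4b8564_nt Pool.Agent.Lib.MP_4b8564_nt.GT

/-! The hypotheses of the concatenation hold. -/

namespace ReachAux

/-- the weight of the indices with `q ∣ f x` -/
def wt {Θ : Type} (T : Finset Θ) (m : ℝ) (f : Θ → ℤ) (q : ℕ) : ℝ :=
  ∑ x ∈ T, if (q : ℤ) ∣ f x then m else 0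

theorem wt_nonneg {Θ : Type} (T : Finset Θ) {m : ℝ} (hm : 0 ≤ m) (f : Θ → ℤ) (q : ℕ) :
    0 ≤ wt T m f q :=
  sum_nonneg fun _ _ => by split_ifs <;> simp [hm]

theorem exists_prime {u v : ℤ} {Q : ℕ} (hQ : 0 < Q) (h : ¬Int.gcd u v ∣ Q) :
    ∃ p : ℕ, p.Prime ∧ ((p ^ (Q.factorization p + 1) : ℕ) : ℤ) ∣ u ∧
      ((p ^ (Q.factorization p + 1) : ℕ) : ℤ) ∣ v := by
  rw [Nat.dvd_iff_prime_pow_dvd_dvd] at h
  push Not at h
  obtain ⟨p, k, hp, h1, h2⟩ := h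
  rw [hp.pow_dvd_iff_le_factorization hQ.ne', not_le] at h2
  have h3 : p ^ (Q.factorization p + 1) ∣ Int.gcd u v := (pow_dvd_pow p h2).trans h1
  have h4 : ((p ^ (Q.factorization p + 1) : ℕ) : ℤ) ∣ (Int.gcd u v : ℤ) :=
    Int.natCast_dvd_natCast.2 h3
  exact ⟨p, hp, h4.trans (Int.gcd_dvd_left u v), h4.trans (Int.gcd_dvd_right u v)⟩

theorem pt_le {u v : ℤ} {Q : ℕ} (hQ : 0 < Q) (hv : v ≠ 0) (w z : ℕ) {m : ℝ} (hm : 0 ≤ m) :
    (if Int.gcd u v ∣ Q then 0 else m * m) ≤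
      ∑ p ∈ Sg.PP 0 w, (if ((p ^ (Q.factorization p + 1) : ℕ) : ℤ) ∣ u then m else 0) *
        (if ((p ^ (Q.factorization p + 1) : ℕ) : ℤ) ∣ v then m else 0) +
      ∑ p ∈ Sg.PP w z, (if (p : ℤ) ∣ u then m else 0) * (if (p : ℤ) ∣ v then m else 0) +
      ∑ p ∈ v.natAbs.primeFactors.filter (z < ·), m * if (p : ℤ) ∣ u then m else 0 := by
  have hi : ∀ (c : Prop) [Decidable c], 0 ≤ (if c then m else 0) := fun c _ => by
    split_ifs <;> simp [hm]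
  have n1 : 0 ≤ ∑ p ∈ Sg.PP 0 w, (if ((p ^ (Q.factorization p + 1) : ℕ) : ℤ) ∣ u then m else 0) *
      (if ((p ^ (Q.factorization p + 1) : ℕ) : ℤ) ∣ v then m else 0) :=
    sum_nonneg fun _ _ => mul_nonneg (hi _) (hi _)
  have n2 : 0 ≤ ∑ p ∈ Sg.PP w z,
      (if (p : ℤ) ∣ u then m else 0) * (if (p : ℤ) ∣ v then m else 0) :=
    sum_nonneg fun _ _ => mul_nonneg (hi _) (hi _)
  have n3 : 0 ≤ ∑ p ∈ v.natAbs.primeFactors.filter (z < ·), m * if (p : ℤ) ∣ u then m else 0 :=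
    sum_nonneg fun _ _ => mul_nonneg hm (hi _)
  split_ifs with h
  · linarith
  obtain ⟨p, hp, h1, h2⟩ := exists_prime hQ h
  have hd : (p : ℤ) ∣ ((p ^ (Q.factorization p + 1) : ℕ) : ℤ) :=
    Int.natCast_dvd_natCast.2 (dvd_pow_self p (Nat.succ_ne_zero _))
  by_cases a : p ≤ w
  · have := single_le_sum (s := Sg.PP 0 w) (f := fun p : ℕ =>
      (if ((p ^ (Q.factorization p + 1) : ℕ) : ℤ) ∣ u then m else 0) *
        (if ((p ^ (Q.factorization p + 1) : ℕ) : ℤ) ∣ v then m else 0))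
      (fun _ _ => mul_nonneg (hi _) (hi _)) (mem_filter.2 ⟨mem_Ioc.2 ⟨hp.pos, a⟩, hp⟩)
    rw [if_pos h1, if_pos h2] at this
    linarith
  by_cases b : p ≤ z
  · have := single_le_sum (s := Sg.PP w z) (f := fun p : ℕ =>
      (if (p : ℤ) ∣ u then m else 0) * (if (p : ℤ) ∣ v then m else 0))
      (fun _ _ => mul_nonneg (hi _) (hi _)) (mem_filter.2 ⟨mem_Ioc.2 ⟨not_le.1 a, b⟩, hp⟩)
    rw [if_pos (hd.trans h1), if_pos (hd.trans h2)] at this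
    linarith
  · have := single_le_sum (s := v.natAbs.primeFactors.filter (z < ·)) (f := fun p : ℕ =>
      m * if (p : ℤ) ∣ u then m else 0) (fun _ _ => mul_nonneg hm (hi _))
      (mem_filter.2 ⟨Nat.mem_primeFactors.2 ⟨hp, Int.natCast_dvd.1 (hd.trans h2),
        Int.natAbs_ne_zero.2 hv⟩, not_le.1 b⟩)
    rw [if_pos (hd.trans h1)] at this
    linarith

theorem sum_sq {w : ℕ} (hw : 0 < w) (z : ℕ) {ε : ℝ} :
    ∑ p ∈ Sg.PP w z, (2 / (p : ℝ) + ε) * (2 / (p : ℝ) + ε) ≤ 8 / w + 2 * z * ε ^ 2 := by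
  have h1 : ∑ p ∈ Sg.PP w z, ((p : ℝ) ^ 2)⁻¹ ≤ (w : ℝ)⁻¹ := by
    refine (sum_le_sum_of_subset_of_nonneg (filter_subset _ _) fun _ _ _ => by positivity).trans ?_
    rcases le_total w z with h | h
    · exact (sum_Ioc_inv_sq_le_sub hw.ne' h).trans (sub_le_self _ (by positivity))
    · rw [Ioc_eq_empty (not_lt.2 h), sum_empty]
      positivity
  have h2 : ((Sg.PP w z).card : ℝ) ≤ z := by
    have : (Sg.PP w z).card ≤ z := (card_filter_le _ _).trans (by rw [Nat.card_Ioc]; omega)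
    exact_mod_cast this
  calc ∑ p ∈ Sg.PP w z, (2 / (p : ℝ) + ε) * (2 / (p : ℝ) + ε)
      ≤ ∑ p ∈ Sg.PP w z, (8 * ((p : ℝ) ^ 2)⁻¹ + 2 * ε ^ 2) := by
        refine sum_le_sum fun p _ => ?_
        rw [← inv_pow, div_eq_mul_inv]
        nlinarith [sq_nonneg (2 * (p : ℝ)⁻¹ - ε)]
    _ = 8 * ∑ p ∈ Sg.PP w z, ((p : ℝ) ^ 2)⁻¹ + (Sg.PP w z).card * (2 * ε ^ 2) := by
        rw [sum_add_distrib, ← mul_sum, sum_const, nsmul_eq_mul]
    _ ≤ 8 * (w : ℝ)⁻¹ + z * (2 * ε ^ 2) := by gcongr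
    _ = 8 / w + 2 * z * ε ^ 2 := by rw [div_eq_mul_inv]; ring

theorem gc_le {Θ : Type} (T : Finset Θ) {m : ℝ} (hm : 0 ≤ m) (f g : Θ → ℤ) {Q w : ℕ} (z : ℕ)
    (hQ : 0 < Q) (hw : 0 < w) {A ε B K : ℝ} (hB : 0 ≤ B) (hK0 : 0 ≤ K) (hT : ∑ _x ∈ T, m ≤ 1)
    (h1 : ∀ p : ℕ, p.Prime → p ≤ w → wt T m f (p ^ (Q.factorization p + 1)) ≤ A ∧
      wt T m g (p ^ (Q.factorization p + 1)) ≤ A)
    (h2 : ∀ p : ℕ, p.Prime → w < p → p ≤ z → wt T m f p ≤ 2 / p + ε ∧ wt T m g p ≤ 2 / p + ε)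
    (h3 : ∀ p : ℕ, p.Prime → z < p → wt T m f p ≤ B)
    (hK : ∀ x ∈ T, g x ≠ 0 ∧ ((g x).natAbs.primeFactors.card : ℝ) ≤ K) :
    ∑ x ∈ T, ∑ x' ∈ T, (if Int.gcd (f x) (g x') ∣ Q then 0 else m * m) ≤
      w * A ^ 2 + (8 / w + 2 * z * ε ^ 2) + K * B := by
  have e : ∀ (P : Finset ℕ) (q : ℕ → ℕ), ∑ x ∈ T, ∑ x' ∈ T, ∑ p ∈ P,
      (if (q p : ℤ) ∣ f x then m else 0) * (if (q p : ℤ) ∣ g x' then m else 0) =
      ∑ p ∈ P, wt T m f (q p) * wt T m g (q p) := fun P q => by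
    simp only [wt, sum_mul_sum]
    rw [sum_comm (s := P)]
    exact sum_congr rfl fun x _ => sum_comm
  refine (sum_le_sum fun x _ => sum_le_sum fun x' hx' =>
    pt_le hQ (hK x' hx').1 w z hm).trans ?_
  simp only [sum_add_distrib]
  rw [e (Sg.PP 0 w) fun p => p ^ (Q.factorization p + 1), e (Sg.PP w z) fun p => p]
  refine add_le_add (add_le_add ?_ ?_) ?_
  · have hc : ((Sg.PP 0 w).card : ℝ) ≤ w := by
      have : (Sg.PP 0 w).card ≤ w := (card_filter_le _ _).trans (by rw [Nat.card_Ioc]; omega)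
      exact_mod_cast this
    calc _ ≤ ∑ _p ∈ Sg.PP 0 w, A ^ 2 := by
          refine sum_le_sum fun p hp => ?_
          obtain ⟨a, b⟩ := mem_filter.1 hp
          obtain ⟨c, d⟩ := h1 p b (mem_Ioc.1 a).2
          rw [sq]
          exact mul_le_mul c d (wt_nonneg T hm _ _) ((wt_nonneg T hm _ _).trans c)
      _ = (Sg.PP 0 w).card * A ^ 2 := by rw [sum_const, nsmul_eq_mul]
      _ ≤ w * A ^ 2 := by gcongr
  · refine le_trans (sum_le_sum fun p hp => ?_) (sum_sq hw z)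
    obtain ⟨a, b⟩ := mem_filter.1 hp
    obtain ⟨c, d⟩ := h2 p b (mem_Ioc.1 a).1 (mem_Ioc.1 a).2
    exact mul_le_mul c d (wt_nonneg T hm _ _) ((wt_nonneg T hm _ _).trans c)
  · rw [sum_comm]
    calc _ ≤ ∑ _x' ∈ T, m * (K * B) := by
          refine sum_le_sum fun x' hx' => ?_
          rw [sum_comm]
          calc _ ≤ ∑ _p ∈ (g x').natAbs.primeFactors.filter (z < ·), m * B := by
                refine sum_le_sum fun p hp => ?_
                obtain ⟨a, b⟩ := mem_filter.1 hp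
                rw [← mul_sum]
                exact mul_le_mul_of_nonneg_left (h3 p (Nat.prime_of_mem_primeFactors a) b) hm
            _ = ((g x').natAbs.primeFactors.filter (z < ·)).card * (m * B) := by
                rw [sum_const, nsmul_eq_mul]
            _ ≤ K * (m * B) := by
                refine mul_le_mul_of_nonneg_right (le_trans ?_ (hK x' hx').2) (mul_nonneg hm hB)
                exact_mod_cast card_filter_le _ _
            _ = m * (K * B) := by ring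
      _ = (∑ _x ∈ T, m) * (K * B) := by rw [sum_mul]
      _ ≤ 1 * (K * B) := mul_le_mul_of_nonneg_right hT (mul_nonneg hK0 hB)
      _ = K * B := one_mul _

theorem card_pf {n ρ k : ℕ} (hn : n ≠ 0) (h : n ≤ ρ ^ k) :
    (n.primeFactors.card : ℝ) ≤ 2 * k * Real.log ρ := by
  have h1 : 2 ^ n.primeFactors.card ≤ n :=
    (pow_card_le_prod _ (fun p => p) 2 fun p hp =>
      (Nat.prime_of_mem_primeFactors hp).two_le).trans
      (Nat.le_of_dvd (Nat.pos_of_ne_zero hn) (Nat.prod_primeFactors_dvd n))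
  have h2 : (2 : ℝ) ^ n.primeFactors.card ≤ (ρ : ℝ) ^ k := by exact_mod_cast h1.trans h
  have h3 := Real.log_le_log (by positivity) h2
  rw [Real.log_pow, Real.log_pow] at h3
  have h4 := Real.log_two_gt_d9
  have h5 : (0 : ℝ) ≤ n.primeFactors.card := Nat.cast_nonneg _
  nlinarith

theorem bb_le (d : Dat) (θ : O × O) {X : ℤ} (h1 : θ.1.norm ≤ X) (h2 : θ.2.norm ≤ X)
    (t i : Fin 12) : |d.bb θ t i| ≤ 18 * (d.C : ℤ) ^ 2 * X := by
  have hs : ∀ t, ((sz (sd θ t) : ℕ) : ℤ) ^ 2 ≤ 2 * X := fun t => by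
    have := sz_le_norm (sd θ t)
    have h3 : (sd θ t).norm ≤ X := by
      unfold sd
      split_ifs
      · exact h1
      · exact h2
    linarith
  have a1 : sz (d.dir θ i) ≤ 3 * sz (sd θ i) * d.C := by
    have := sz_mul (star (sd θ i)) (d.ker (jx i))
    rw [sz_star] at this
    exact this.trans (Nat.mul_le_mul_left _ (d.sz_ker _))
  have a2 : sz (sd θ t * d.dir θ i) ≤ 3 * sz (sd θ t) * (3 * sz (sd θ i) * d.C) :=
    (sz_mul _ _).trans (Nat.mul_le_mul_left _ a1)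
  have a3 : ((sz (sd θ t * d.dir θ i) : ℕ) : ℤ) ≤
      3 * sz (sd θ t) * (3 * sz (sd θ i) * d.C) := by exact_mod_cast a2
  have a4 : ((sz (sd θ t) : ℕ) : ℤ) * sz (sd θ i) ≤ 2 * X := by
    nlinarith [hs t, hs i, sq_nonneg (((sz (sd θ t) : ℕ) : ℤ) - sz (sd θ i))]
  have hC : (0 : ℤ) ≤ d.C := Int.natCast_nonneg _
  calc |d.bb θ t i| ≤ d.C * ((sz (sd θ t * d.dir θ i) : ℕ) : ℤ) := d.abs_lam_le _ _
    _ ≤ d.C * (3 * sz (sd θ t) * (3 * sz (sd θ i) * d.C)) := mul_le_mul_of_nonneg_left a3 hC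
    _ = 9 * (d.C : ℤ) ^ 2 * (((sz (sd θ t) : ℕ) : ℤ) * sz (sd θ i)) := by ring
    _ ≤ 9 * (d.C : ℤ) ^ 2 * (2 * X) := mul_le_mul_of_nonneg_left a4 (by positivity)
    _ = 18 * (d.C : ℤ) ^ 2 * X := by ring

theorem ex1 {ρ Q a n : ℕ} (hρ : 2 ≤ ρ) (hQ : Q ≤ ρ) (ha : 14 ≤ a) (hn : 40 * a ≤ n) :
    ρ ^ (11 + 2) * (Q * ρ ^ (n - 4 * a) * ρ ^ (11 + 2) / ρ ^ (15 * a) + ρ ^ (16 * a + 1) + 1) ≤
      ρ ^ (n - 17 * a) := by
  have h0 : 0 < ρ := by omega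
  have h1 : Q * ρ ^ (n - 4 * a) * ρ ^ (11 + 2) / ρ ^ (15 * a) ≤ ρ ^ (n - 19 * a + 14) := by
    refine Nat.div_le_of_le_mul ?_
    calc Q * ρ ^ (n - 4 * a) * ρ ^ (11 + 2) ≤ ρ ^ 1 * ρ ^ (n - 4 * a) * ρ ^ (11 + 2) := by
          rw [pow_one]; gcongr
      _ = ρ ^ (15 * a) * ρ ^ (n - 19 * a + 14) := by
          rw [← pow_add, ← pow_add, ← pow_add]
          congr 1
          omega
  have h2 : ρ ^ (16 * a + 1) + 1 ≤ ρ ^ (n - 19 * a + 14) :=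
    Nat.pow_lt_pow_right hρ (by omega)
  have h3 : 2 * ρ ^ (n - 19 * a + 14) ≤ ρ ^ (n - 19 * a + 14 + 1) := by
    rw [pow_succ, mul_comm]
    exact Nat.mul_le_mul_left _ hρ
  calc _ ≤ ρ ^ (11 + 2) * ρ ^ (n - 19 * a + 14 + 1) := Nat.mul_le_mul_left _ (by omega)
    _ = ρ ^ (11 + 2 + (n - 19 * a + 14 + 1)) := (pow_add _ _ _).symm
    _ ≤ ρ ^ (n - 17 * a) := Nat.pow_le_pow_right h0 (by omega)

theorem ex2 {ρ u a n : ℕ} (hρ : 2 ≤ ρ) (hu : u ≤ ρ) (ha : 14 ≤ a) (hn : 40 * a ≤ n) :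
    u * ρ ^ (16 * a + 1) * ρ ^ (n - 17 * a) ≤ ρ ^ n := by
  calc u * ρ ^ (16 * a + 1) * ρ ^ (n - 17 * a)
      ≤ ρ ^ 1 * ρ ^ (16 * a + 1) * ρ ^ (n - 17 * a) := by rw [pow_one]; gcongr
    _ = ρ ^ (1 + (16 * a + 1) + (n - 17 * a)) := by rw [← pow_add, ← pow_add]
    _ ≤ ρ ^ n := Nat.pow_le_pow_right (by omega) (by omega)

theorem ex3 {ρ u Q a n : ℕ} (hρ : 2 ≤ ρ) (hu : u ≤ ρ) (hQ : Q ≤ ρ) (ha : 14 ≤ a)
    (hn : 40 * a ≤ n) : u * Q * ρ ^ (n - 4 * a) * ρ ^ (11 + 2) ≤ ρ ^ n := by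
  calc u * Q * ρ ^ (n - 4 * a) * ρ ^ (11 + 2)
      ≤ ρ ^ 1 * ρ ^ 1 * ρ ^ (n - 4 * a) * ρ ^ (11 + 2) := by rw [pow_one]; gcongr
    _ = ρ ^ (1 + 1 + (n - 4 * a) + (11 + 2)) := by rw [← pow_add, ← pow_add, ← pow_add]
    _ ≤ ρ ^ n := Nat.pow_le_pow_right (by omega) (by omega)

theorem fin_le {C κ w L z k : ℝ} (hκ : 0 < κ) (hw : 0 < w)
    (h1 : 2 * (C ^ 2 + 8) / κ ≤ w) (hL : 1 ≤ L) (h2 : 8 / κ ≤ L) (h3 : 8 * k * C / κ ≤ L)
    (hz : z ≤ L ^ 100) :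
    w * (C / w) ^ 2 + (8 / w + 2 * z * (1 / L ^ 300) ^ 2) + 2 * k * L * (C / L ^ 60) ≤ κ := by
  have hL0 : 0 < L := by linarith
  have a1 : w * (C / w) ^ 2 + 8 / w ≤ κ / 2 := by
    have : w * (C / w) ^ 2 + 8 / w = (C ^ 2 + 8) / w := by field_simp
    rw [this, div_le_iff₀ hw]
    rw [div_le_iff₀ hκ] at h1
    linarith
  have a2 : 2 * z * (1 / L ^ 300) ^ 2 ≤ κ / 4 := by
    have b1 : L ^ 100 * L ≤ (L ^ 300) ^ 2 := by
      rw [← pow_succ, ← pow_mul]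
      exact pow_le_pow_right₀ hL (by norm_num)
    have b2 : 0 < L ^ 100 := by positivity
    rw [div_le_iff₀ hκ] at h2
    rw [div_pow, one_pow, mul_one_div, div_le_iff₀ (by positivity)]
    calc 2 * z ≤ L ^ 100 * 8 / 4 := by linarith
      _ ≤ L ^ 100 * (L * κ) / 4 := by gcongr
      _ = κ / 4 * (L ^ 100 * L) := by ring
      _ ≤ κ / 4 * (L ^ 300) ^ 2 := by gcongr
  have a3 : 2 * k * L * (C / L ^ 60) ≤ κ / 4 := by
    have b1 : L * L ≤ L ^ 60 := by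
      rw [← sq]
      exact pow_le_pow_right₀ hL (by norm_num)
    rw [div_le_iff₀ hκ] at h3
    rw [← mul_div_assoc, div_le_iff₀ (by positivity)]
    calc 2 * k * L * C = L * (8 * k * C) / 4 := by ring
      _ ≤ L * (L * κ) / 4 := by gcongr
      _ = κ / 4 * (L * L) := by ring
      _ ≤ κ / 4 * L ^ 60 := by gcongr
  linarith

end ReachAux

open ReachAux

theorem stReach (hPd : StPd) (hMass : StMass) (hScale : StScale) : StReach := by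
  intro d P hP κ hκ
  obtain ⟨C, hC, h1⟩ := hPd d
  obtain ⟨C', hC', h2⟩ := hMass d
  have h3 : Ev d P fun S => Real.log S.ρ ^ 100 ≤ S.y :=
    ⟨4, fun w hw => (hScale.2.2.2 d P hP 100 w hw).mono fun S _ _ _ _ h => h.2.2.1⟩
  have h4 := Ev.of_eventually (d := d) (P := P)
    (Θ := fun w ρ => (2 ≤ ρ ∧ P.s + 1 + 1 ≤ ρ ∧ d.e * w.factorial * w.factorial ≤ ρ ∧
      7200 * d.C ^ 4 ≤ ρ) ∧ 1 / κ ≤ ρ ∧ 1 ≤ Real.log ρ ∧ 8 / κ ≤ Real.log ρ ∧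
      8 * ((16 * P.a + 1 : ℕ) : ℝ) * C / κ ≤ Real.log ρ)
    (⌈2 * (C ^ 2 + 8) / κ⌉₊ + 1) fun w _ =>
      ((eventually_ge_atTop 2).and ((eventually_ge_atTop _).and ((eventually_ge_atTop _).and
        (eventually_ge_atTop _)))).and ((ev_const _).and ((ev_log _).and ((ev_log _).and
          (ev_log _))))
  refine ((h1 P hP).and ((h2 P hP).and (h3.and h4))).mono ?_
  rintro S rfl rfl - ⟨k1, ⟨k2, k3⟩, k4, hw, ⟨r1, r2, r3, r4⟩, r5, r6, r7, r8⟩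
  obtain ⟨b1, b2, b3, -⟩ := hP.big
  have ha : 14 ≤ S.P.a := by omega
  have hn : 40 * S.P.a ≤ S.P.E * S.P.A := by omega
  have hρ : 0 < S.ρ := by omega
  have m0 : 0 ≤ S.mu ^ 2 / 12 := by positivity
  have m1 : ∑ _x ∈ S.T3, S.mu ^ 2 / 12 ≤ 1 := by
    have a1 : 0 ≤ S.mu * S.Th.card := by
      by_contra h
      nlinarith [mul_pos hC' (neg_pos.2 (not_le.1 h))]
    have a2 : S.T3.card ≤ S.Th.card * S.Th.card * 12 := by
      rw [Sc.T3, card_product, card_univ, Fintype.card_fin, ← card_product]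
      exact Nat.mul_le_mul_right _ (card_filter_le _ _)
    have a3 : (S.T3.card : ℝ) ≤ S.Th.card * S.Th.card * 12 := by exact_mod_cast a2
    rw [sum_const, nsmul_eq_mul]
    calc (S.T3.card : ℝ) * (S.mu ^ 2 / 12) ≤ S.Th.card * S.Th.card * 12 * (S.mu ^ 2 / 12) :=
          mul_le_mul_of_nonneg_right a3 m0
      _ = (S.mu * S.Th.card) * (S.mu * S.Th.card) := by ring
      _ ≤ 1 := mul_le_one₀ k3 a1 k3
  have hsz : ∀ x ∈ S.T3, ∀ r, (S.bm : ℤ) ≤ |S.d.bv (pr x.1, x.2) r| ∧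
      |S.d.bv (pr x.1, x.2) r| ≤ S.Bm := by
    intro x hx r
    obtain ⟨g1, g2, -, g4⟩ := (mem_filter.1 (mem_product.1 hx).1).2
    refine ⟨g4 _ _, (bb_le S.d (pr x.1) g1.2.2.2.2 g2.2.2.2.2 _ _).trans ?_⟩
    have a1 : (7200 * (S.d.C : ℤ) ^ 4) ≤ S.ρ := by exact_mod_cast r4
    have a2 : (S.Bm : ℤ) = S.ρ * (S.G : ℤ) ^ 2 := by
      rw [Sc.Bm, Sc.G]
      push_cast
      ring
    rw [a2]
    calc _ = 7200 * (S.d.C : ℤ) ^ 4 * (S.G : ℤ) ^ 2 := by ring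
      _ ≤ _ := mul_le_mul_of_nonneg_right a1 (sq_nonneg _)
  have hbm : 0 < S.bm := pow_pos hρ _
  refine ⟨fun _ _ => m0, m1, hsz, hbm, pow_pos hρ _, S.Q_pos, ?_, ex1 r1 r3 ha hn,
    ex2 r1 r2 ha hn, ex3 r1 r2 r3 ha hn, fun r r' => ?_⟩
  · rwa [div_le_iff₀ hκ, mul_comm] at r5
  have hw0 : 0 < S.w := by omega
  have hL : 0 ≤ Real.log S.ρ ^ 100 := by positivity
  have hw1 : 2 * (C ^ 2 + 8) / κ ≤ S.w :=
    (Nat.le_ceil _).trans (by exact_mod_cast (Nat.le_succ _).trans hw)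
  refine (gc_le S.T3 m0 (fun x => S.d.bv (pr x.1, x.2) r) (fun x => S.d.bv (pr x.1, x.2) r')
    ⌊Real.log S.ρ ^ 100⌋₊ S.Q_pos hw0 (A := C / S.w) (ε := 1 / Real.log S.ρ ^ 300)
    (B := C / Real.log S.ρ ^ 60) (K := 2 * ((16 * S.P.a + 1 : ℕ) : ℝ) * Real.log S.ρ)
    (by positivity) (by positivity) m1
    (fun p hp h => ⟨(k1 r p hp).1 h, (k1 r' p hp).1 h⟩) (fun p hp h h' => ?_)
    (fun p hp h => (k1 r p hp).2.2 (Nat.lt_of_floor_lt h).le) fun x hx => ?_).trans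
    (fin_le hκ (by exact_mod_cast hw0) hw1 r6 r7 r8 (Nat.floor_le hL))
  · have hy : p ≤ S.y := by exact_mod_cast ((Nat.le_floor_iff hL).1 h').trans k4
    exact ⟨(k1 r p hp).2.1 h hy, (k1 r' p hp).2.1 h hy⟩
  · obtain ⟨a1, a2⟩ := hsz x hx r'
    have a3 : S.d.bv (pr x.1, x.2) r' ≠ 0 := fun h => by
      rw [h, abs_zero] at a1
      omega
    refine ⟨a3, card_pf (Int.natAbs_ne_zero.2 a3) ?_⟩
    rw [← Int.natCast_natAbs] at a2
    exact_mod_cast a2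

end Pool.Agent.Lib.MP_7d3fda_nt.Q3
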