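import Pool.Agent.Lib.MP_7d3fda_nt.Q3.Basic

open Finset Filter
open scoped Classical NumberTheorySymbols

noncomputable section

namespace Pool.Agent.Lib.MP_7d3fda_nt.Q3

/-! Primes of the form `x ^ 2 + 3 * y ^ 2`. -/

namespace RepAux

theorem root {q : ℕ} (hq : q.Prime) (h : q % 3 = 1) : ∃ r : ZMod q, r ^ 2 + 3 = 0 := by
  haveI := Fact.mk hq
  haveI : Fact (Nat.Prime 3) := ⟨Nat.prime_three⟩
  obtain ⟨u, hu⟩ := exists_prime_orderOf_dvd_card (G := (ZMod q)ˣ) 3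
    (by rw [ZMod.card_units]; omega)
  have h3 : (u : ZMod q) ^ 3 = 1 := by
    rw [← Units.val_pow_eq_pow_val, ← hu, pow_orderOf_eq_one, Units.val_one]
  have h1 : (u : ZMod q) - 1 ≠ 0 := fun e => by
    have : u = 1 := Units.ext (sub_eq_zero.1 e)
    rw [this, orderOf_one] at hu
    omega
  refine ⟨2 * u + 1, mul_left_cancel₀ h1 ?_⟩
  linear_combination 4 * h3

theorem thue {q : ℕ} (hq : q.Prime) (r : ZMod q) : ∃ x y : ℤ, (x : ZMod q) = r * y ∧
    x ^ 2 < q ∧ y ^ 2 < q ∧ (x ≠ 0 ∨ y ≠ 0) := by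
  haveI := Fact.mk hq
  set s := Nat.sqrt q with hs
  have h1 : s * s < q := lt_of_le_of_ne (Nat.sqrt_le q) fun e => by
    have := hq.prime.not_isSquare
    exact this ⟨s, e.symm⟩
  obtain ⟨a, ha, b, hb, hne, e⟩ := Finset.exists_ne_map_eq_of_card_lt_of_maps_to
    (s := range (s + 1) ×ˢ range (s + 1)) (t := (univ : Finset (ZMod q)))
    (f := fun p => (p.1 : ZMod q) - r * p.2)
    (by
      rw [card_univ, ZMod.card, card_product, card_range]
      exact Nat.lt_succ_sqrt q) (fun _ _ => mem_coe.2 (mem_univ _))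
  simp only [mem_product, mem_range] at ha hb
  have h2 : ((s : ℤ)) * s < q := by exact_mod_cast h1
  have key : ∀ u v : ℕ, u < s + 1 → v < s + 1 → ((u : ℤ) - v) ^ 2 < q := fun u v hu hv => by
    have h3 : (u : ℤ) - v ≤ s := by omega
    have h4 : -(s : ℤ) ≤ u - v := by omega
    nlinarith
  refine ⟨a.1 - b.1, a.2 - b.2, ?_, key _ _ ha.1 hb.1, key _ _ ha.2 hb.2, ?_⟩
  · push_cast
    linear_combination e
  · by_contra hc
    push Not at hc
    exact hne (Prod.ext (by omega) (by omega))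

theorem exists_rep {q : ℕ} (hq : q.Prime) (h : q % 3 = 1) :
    ∃ x y : ℤ, x ^ 2 + 3 * y ^ 2 = q := by
  obtain ⟨r, hr⟩ := root hq h
  obtain ⟨x, y, h0, h1, h2, h3⟩ := thue hq r
  obtain ⟨m, hm⟩ : (q : ℤ) ∣ x ^ 2 + 3 * y ^ 2 := by
    rw [← ZMod.intCast_zmod_eq_zero_iff_dvd]
    push_cast
    rw [h0]
    linear_combination (y : ZMod q) ^ 2 * hr
  have hq0 : (0 : ℤ) < q := by exact_mod_cast hq.pos
  have hp : 0 < x ^ 2 + 3 * y ^ 2 := by
    rcases h3 with h3 | h3 <;> positivity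
  have m0 : 0 < m := by
    by_contra hc
    nlinarith
  have m4 : m < 4 := by
    by_contra hc
    nlinarith
  have hodd : q % 2 = 1 := (hq.eq_two_or_odd).resolve_left (by omega)
  interval_cases m
  · exact ⟨x, y, by linarith⟩
  · exfalso
    rcases Int.even_or_odd' x with ⟨a, rfl | rfl⟩ <;> rcases Int.even_or_odd' y with ⟨b, rfl | rfl⟩
    · have : 2 * (a ^ 2 + 3 * b ^ 2) = q := by linarith
      omega
    · have : 2 * (2 * a ^ 2 + 6 * b ^ 2 + 6 * b + 1) + 1 = q * 2 := by linarith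
      omega
    · have : 2 * (2 * a ^ 2 + 2 * a + 6 * b ^ 2) + 1 = q * 2 := by linarith
      omega
    · have : 2 * (a ^ 2 + a + 3 * b ^ 2 + 3 * b + 1) = q := by linarith
      omega
  · obtain ⟨a, rfl⟩ : (3 : ℤ) ∣ x :=
      Int.prime_three.dvd_of_dvd_pow (n := 2) ⟨q - y ^ 2, by linarith⟩
    exact ⟨y, a, by linarith⟩

theorem uniq₀ {q a b c d : ℤ} (hq : 0 < q) (h1 : a ^ 2 + 3 * b ^ 2 = q)
    (h2 : c ^ 2 + 3 * d ^ 2 = q) (h : q ∣ a * d - b * c) :
    (c = a ∧ d = b) ∨ (c = -a ∧ d = -b) := by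
  obtain ⟨m, hm⟩ := h
  have e : (a * c + 3 * b * d) ^ 2 + 3 * (q * m) ^ 2 = q ^ 2 := by
    rw [← hm]
    linear_combination (c ^ 2 + 3 * d ^ 2) * h1 + q * h2
  have hm0 : m = 0 := by
    by_contra hc
    have : 1 ≤ m ^ 2 := by
      have := sq_pos_of_ne_zero hc
      omega
    nlinarith [sq_nonneg (a * c + 3 * b * d), mul_pos hq hq]
  subst hm0
  have e1 : c * q = a * (a * c + 3 * b * d) := by linear_combination -c * h1 - 3 * b * hm
  have e2 : d * q = b * (a * c + 3 * b * d) := by linear_combination -d * h1 + a * hm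
  have e3 : a * c + 3 * b * d = q ∨ a * c + 3 * b * d = -q :=
    sq_eq_sq_iff_eq_or_eq_neg.1 (by linarith)
  rcases e3 with e3 | e3 <;> rw [e3] at e1 e2
  · exact Or.inl ⟨mul_right_cancel₀ hq.ne' e1, mul_right_cancel₀ hq.ne' e2⟩
  · exact Or.inr ⟨mul_right_cancel₀ hq.ne' (by linarith), mul_right_cancel₀ hq.ne' (by linarith)⟩

theorem uniq {q : ℕ} (hq : q.Prime) {a b c d : ℤ} (h1 : a ^ 2 + 3 * b ^ 2 = q)
    (h2 : c ^ 2 + 3 * d ^ 2 = q) :
    ((c = a ∧ d = b) ∨ (c = -a ∧ d = -b)) ∨ ((c = a ∧ d = -b) ∨ (c = -a ∧ d = b)) := by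
  have hq0 : (0 : ℤ) < q := by exact_mod_cast hq.pos
  have : (q : ℤ) ∣ (a * d - b * c) * (a * d - -b * c) :=
    ⟨d ^ 2 - b ^ 2, by linear_combination d ^ 2 * h1 - b ^ 2 * h2⟩
  rcases (Nat.prime_iff_prime_int.1 hq).dvd_or_dvd this with h | h
  · exact Or.inl (uniq₀ hq0 h1 h2 h)
  · simpa using Or.inr (uniq₀ hq0 (b := -b) (by linarith) h2 h)

end RepAux

theorem stRep : StRep := by
  intro q hq
  refine ⟨fun h => ?_, fun Z hZ => ?_⟩
  · obtain ⟨x, y, e⟩ := RepAux.exists_rep hq h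
    exact ⟨⟨x, y⟩, (norm_eq _).trans e⟩
  · rcases Z.eq_empty_or_nonempty with rfl | ⟨z, hz⟩
    · simp
    refine (card_le_card (t := {⟨z.re, z.im⟩, ⟨-z.re, -z.im⟩, ⟨z.re, -z.im⟩, ⟨-z.re, z.im⟩})
      fun w hw => ?_).trans card_le_four
    have := RepAux.uniq hq ((norm_eq z).symm.trans (hZ z hz)) ((norm_eq w).symm.trans (hZ w hw))
    simp only [mem_insert, mem_singleton, Zsqrtd.ext_iff]
    tauto

end Pool.Agent.Lib.MP_7d3fda_nt.Q3
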