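import Pool.Agent.Lib.MP_7d3fda_nt.Q3.Dns
import Pool.Agent.Lib.MP_4b8564_nt.Sg.Recip

open Finset Filter
open scoped Classical NumberTheorySymbols

noncomputable section

namespace Pool.Agent.Lib.MP_7d3fda_nt.Q3

open Pool.Agent.Lib.MP_4b8564_nt Pool.Agent.Lib.MP_4b8564_nt.GT
open Pool.Agent.Lib.MP_0a3467_an.Cv (Low)
open Pool.Agent.Lib.MP_0a3467_an

namespace ScaleAux

theorem mem_PP {w y p : ℕ} : p ∈ Sg.PP w y ↔ (w < p ∧ p ≤ y) ∧ p.Prime := by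
  rw [Sg.PP, mem_filter, mem_Ioc]

theorem rN_le {p : ℕ} (hp : p.Prime) : rN p ≤ 2 / p := by
  have hp' := Nat.prime_iff_prime_int.1 hp
  refine bav_rows hp.pos (fun x y => (p : ℤ) ∣ x ^ 2 + 3 * y ^ 2) 2 (Or.inl fun y => ?_)
  set A := (range p).filter fun x : ℕ => (p : ℤ) ∣ (x : ℤ) ^ 2 + 3 * (y : ℤ) ^ 2 with hA
  rcases A.eq_empty_or_nonempty with h0 | ⟨x₀, h0⟩
  · rw [h0]; simp
  have h1 : A ⊆ {x₀, p - x₀} := fun x hx => by
    obtain ⟨a1, a2⟩ := mem_filter.1 hx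
    obtain ⟨b1, b2⟩ := mem_filter.1 h0
    rw [mem_range] at a1 b1
    have h3 := dvd_sub a2 b2
    rw [show (x : ℤ) ^ 2 + 3 * (y : ℤ) ^ 2 - ((x₀ : ℤ) ^ 2 + 3 * (y : ℤ) ^ 2)
      = ((x : ℤ) - x₀) * ((x : ℤ) + x₀ - p + p) by ring] at h3
    rw [mem_insert, mem_singleton]
    rcases hp'.dvd_or_dvd h3 with h | h
    · have := Int.eq_zero_of_abs_lt_dvd h (abs_lt.2 ⟨by omega, by omega⟩)
      omega
    · by_cases h4 : x + x₀ = 0
      · omega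
      · have := Int.eq_zero_of_abs_lt_dvd ((dvd_add_left (dvd_refl _)).1 h)
          (abs_lt.2 ⟨by omega, by omega⟩)
        omega
  exact_mod_cast (card_le_card h1).trans card_le_two

theorem rN_nonneg (p : ℕ) : 0 ≤ rN p := bav_nonneg fun _ => by split_ifs <;> norm_num

theorem split (a b c : ℕ) : ∑ p ∈ Sg.PP a c, 1 / (p : ℝ) ≤
    ∑ p ∈ Sg.PP a b, 1 / (p : ℝ) + ∑ p ∈ Sg.PP b c, 1 / (p : ℝ) := by
  rw [← sum_union (disjoint_left.2 fun p h1 h2 => by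
    have := (mem_PP.1 h1).1
    have := (mem_PP.1 h2).1
    omega)]
  refine sum_le_sum_of_subset_of_nonneg (fun p hp => ?_) fun _ _ _ => by positivity
  obtain ⟨h1, h2⟩ := mem_PP.1 hp
  rw [mem_union, mem_PP, mem_PP]
  by_cases h : p ≤ b
  · exact Or.inl ⟨⟨h1.1, h⟩, h2⟩
  · exact Or.inr ⟨⟨by omega, h1.2⟩, h2⟩

theorem blocks {m : ℕ} (hm : 0 < m) (j : ℕ) :
    ∑ p ∈ Sg.PP (2 ^ m) (2 ^ (m + j)), 1 / (p : ℝ) ≤ 9 / 2 * j / m := by
  have hm' : (0 : ℝ) < m := by exact_mod_cast hm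
  induction j with
  | zero => simp [Sg.PP]
  | succ j ih =>
    have h := Sg.RecipAux.block (2 ^ m) (m + j) (by
      calc 2 = 2 ^ 1 := rfl
        _ ≤ 2 ^ m := Nat.pow_le_pow_right (by norm_num) hm)
    have h1 : ∑ p ∈ Sg.PP (2 ^ (m + j)) (2 ^ (m + (j + 1))), 1 / (p : ℝ) ≤ 9 / 2 / m := by
      refine (sum_le_sum_of_subset_of_nonneg (fun p hp => ?_) fun _ _ _ => by positivity).trans
        (h.trans ?_)
      · obtain ⟨h1, h2⟩ := mem_PP.1 hp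
        have : 2 ^ m ≤ 2 ^ (m + j) := Nat.pow_le_pow_right (by norm_num) (by omega)
        exact mem_filter.2 ⟨mem_PP.2 ⟨⟨by omega, h1.2⟩, h2⟩, by omega⟩
      · push_cast
        have := Real.log_two_gt_d9
        rw [Real.log_pow, div_le_div_iff₀ (by positivity) hm']
        nlinarith
    refine (split _ (2 ^ (m + j)) _).trans ((add_le_add ih h1).trans (le_of_eq ?_))
    push_cast
    ring

theorem tower (i : ℕ) : ∑ p ∈ Sg.PP 0 (2 ^ 2 ^ i), 1 / (p : ℝ) ≤ 1 / 2 + 9 / 2 * i := by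
  induction i with
  | zero =>
    have : Sg.PP 0 (2 ^ 2 ^ 0) = {2} := by decide
    rw [this]; norm_num
  | succ i ih =>
    have h := blocks (m := 2 ^ i) (by positivity) (2 ^ i)
    rw [← two_mul, ← pow_succ', mul_div_assoc, div_self (by positivity)] at h
    refine (split _ (2 ^ 2 ^ i) _).trans ((add_le_add ih h).trans (le_of_eq ?_))
    push_cast
    ring

theorem lt_tower (y : ℕ) : y < 2 ^ 2 ^ (Nat.log 2 (Nat.log 2 y) + 1) :=
  (Nat.lt_pow_succ_log_self (by norm_num) y).trans_le (Nat.pow_le_pow_right (by norm_num)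
    (Nat.lt_pow_succ_log_self (by norm_num) _))

theorem recip_le {w y t : ℕ} (h : y ≤ 2 ^ 2 ^ (t + 1)) :
    ∑ p ∈ Sg.PP w y, 1 / (p : ℝ) ≤ 5 * (t + 1 : ℕ) := by
  refine (sum_le_sum_of_subset_of_nonneg (t := Sg.PP 0 (2 ^ 2 ^ (t + 1))) (fun p hp => ?_)
    fun _ _ _ => by positivity).trans ((tower _).trans ?_)
  · obtain ⟨h1, h2⟩ := mem_PP.1 hp
    exact mem_PP.2 ⟨⟨h2.pos, h1.2.trans h⟩, h2⟩
  · push_cast
    have : (0 : ℝ) ≤ t := t.cast_nonneg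
    linarith

theorem ev_t (c : ℕ) : ∀ᶠ ρ : ℕ in atTop, ρ ≠ 0 ∧ c ≤ Nat.log 2 (Nat.log 2 ρ) :=
  eventually_atTop.2 ⟨2 ^ 2 ^ c, fun _ hρ => ⟨(lt_of_lt_of_le (by positivity) hρ).ne',
    Nat.le_log_of_pow_le (by norm_num) (Nat.le_log_of_pow_le (by norm_num) hρ)⟩⟩

theorem cube {t : ℕ} (h : 11 ≤ t) : (t + 1) ^ 3 ≤ 2 ^ t := by
  induction t, h using Nat.le_induction with
  | base => norm_num
  | succ t h ih => rw [pow_succ 2]; nlinarith [Nat.mul_le_mul_right (t * t) h]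

theorem pow_le_log {ρ : ℕ} (h : 1 ≤ Nat.log 2 (Nat.log 2 ρ)) :
    2 ^ Nat.log 2 (Nat.log 2 ρ) ≤ Nat.log 2 ρ :=
  Nat.pow_log_le_self 2 fun e => by simp [e] at h

theorem root_ge {a : ℕ} (ha : 0 < a) (n : ℕ) : ∀ᶠ ρ : ℕ in atTop,
    2 ^ (n * (Nat.log 2 (Nat.log 2 ρ) + 1)) ≤
      Nat.nthRoot (a * (Nat.log 2 (Nat.log 2 ρ) + 1)) ρ := by
  filter_upwards [ev_t (11 + n * a)] with ρ ⟨h0, h⟩
  have h1 := pow_le_log (ρ := ρ) (by omega)
  generalize Nat.log 2 (Nat.log 2 ρ) = t at h h1 ⊢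
  rw [Nat.le_nthRoot_iff (by positivity), ← pow_mul]
  refine (Nat.pow_le_pow_right (by norm_num) (le_trans ?_ ((cube (by omega)).trans h1))).trans
    (Nat.pow_log_le_self 2 h0)
  calc n * (t + 1) * (a * (t + 1)) = n * a * (t + 1) ^ 2 := by ring
    _ ≤ (t + 1) * (t + 1) ^ 2 := Nat.mul_le_mul_right _ (by omega)
    _ = _ := by ring

theorem log_le (ρ : ℕ) (h0 : ρ ≠ 0) :
    Real.log ρ ≤ (2 : ℝ) ^ (Nat.log 2 (Nat.log 2 ρ) + 1) := by
  have h1 : (ρ : ℝ) ≤ 2 ^ 2 ^ (Nat.log 2 (Nat.log 2 ρ) + 1) := by exact_mod_cast (lt_tower ρ).le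
  refine (Real.log_le_log (by positivity) h1).trans ?_
  rw [Real.log_pow]
  push_cast
  exact mul_le_of_le_one_right (by positivity) (by linarith [Real.log_two_lt_d9])

theorem three_four {t : ℕ} (h : 9 ≤ t) : 12 * 3 ^ t ≤ 4 ^ t := by
  induction t, h using Nat.le_induction with
  | base => norm_num
  | succ t h ih => rw [pow_succ, pow_succ]; omega

theorem exp_le {ρ : ℕ} (h0 : ρ ≠ 0) (h : 9 ≤ Nat.log 2 (Nat.log 2 ρ)) :
    Real.exp (Nat.log 2 (Nat.log 2 ρ) + 1 : ℕ) ≤ Real.log ρ ^ 2 := by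
  have h1 := (Nat.pow_le_pow_right (by norm_num : 0 < 2) (pow_le_log (ρ := ρ) (by omega))).trans
    (Nat.pow_log_le_self 2 h0)
  generalize Nat.log 2 (Nat.log 2 ρ) = t at h h1 ⊢
  have h2 : (2 : ℝ) ^ t / 2 ≤ Real.log ρ := by
    have h3 : (2 : ℝ) ^ 2 ^ t ≤ ρ := by exact_mod_cast h1
    refine le_trans ?_ (Real.log_le_log (by positivity) h3)
    rw [Real.log_pow, div_eq_mul_inv]
    push_cast
    exact mul_le_mul_of_nonneg_left (by linarith [Real.log_two_gt_d9]) (by positivity)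
  have h4 : (12 : ℝ) * 3 ^ t ≤ 4 ^ t := by exact_mod_cast three_four h
  calc Real.exp (t + 1 : ℕ) = Real.exp 1 ^ (t + 1) := (Real.exp_one_pow _).symm
    _ ≤ 3 ^ (t + 1) := pow_le_pow_left₀ (Real.exp_pos _).le Real.exp_one_lt_three.le _
    _ ≤ ((2 : ℝ) ^ t / 2) ^ 2 := by
        rw [div_pow, ← pow_mul, mul_comm t, pow_mul, pow_succ]
        norm_num
        linarith
    _ ≤ _ := pow_le_pow_left₀ (by positivity) h2 2

theorem rN_half {w y p : ℕ} (hw : 4 ≤ w) (hp : p ∈ Sg.PP w y) : rN p ≤ 1 / 2 := by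
  obtain ⟨h1, h2⟩ := mem_PP.1 hp
  have h3 : (4 : ℝ) ≤ p := by exact_mod_cast (by omega : 4 ≤ p)
  refine (rN_le h2).trans ?_
  rw [div_le_div_iff₀ (by linarith) two_pos]
  linarith

theorem one_le_SS {w : ℕ} (hw : 4 ≤ w) (y : ℕ) : 1 ≤ SS w y := by
  refine le_of_eq_of_le (prod_const_one (s := Sg.PP w y)).symm
    (prod_le_prod (fun _ _ => zero_le_one) fun p hp => ?_)
  exact (one_le_inv₀ (by linarith [rN_half hw hp])).2 (by linarith [rN_nonneg p])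

theorem SS_le {w : ℕ} (hw : 4 ≤ w) (y : ℕ) :
    SS w y ≤ Real.exp (4 * ∑ p ∈ Sg.PP w y, 1 / (p : ℝ)) := by
  rw [mul_sum, Real.exp_sum]
  refine prod_le_prod (fun p hp => inv_nonneg.2 (by linarith [rN_half hw hp])) fun p hp => ?_
  have h1 := rN_half hw hp
  have h2 := rN_nonneg p
  have h3 := rN_le (mem_PP.1 hp).2
  refine le_trans ?_ (Real.add_one_le_exp _)
  have h4 : (1 - rN p)⁻¹ ≤ 1 + 2 * rN p := by
    rw [inv_le_iff_one_le_mul₀ (by linarith)]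
    nlinarith
  have h5 : (2 : ℝ) / p = 2 * (1 / p) := by ring
  linarith

theorem GG_le {Q : Finset ℕ} {R : ℕ} (hQ : Q ⊆ Sg.PP 0 R) :
    Sg.GG Q R ≤ Real.exp (2 * ∑ p ∈ Sg.PP 0 R, 1 / (p : ℝ)) := by
  have h2 : ∀ p ∈ Q, (2 : ℝ) ≤ p := fun p hp => by exact_mod_cast (mem_PP.1 (hQ hp)).2.two_le
  have h0 : ∀ p ∈ Q, (0 : ℝ) ≤ 1 / ((p : ℝ) - 1) := fun p hp =>
    div_nonneg zero_le_one (by linarith [h2 p hp])
  calc Sg.GG Q R ≤ ∑ S ∈ Q.powerset, ∏ p ∈ S, 1 / ((p : ℝ) - 1) :=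
        sum_le_sum_of_subset_of_nonneg (filter_subset _ _) fun S hS _ =>
          prod_nonneg fun p hp => h0 p (mem_powerset.1 hS hp)
    _ = ∏ p ∈ Q, (1 + 1 / ((p : ℝ) - 1)) := (prod_one_add Q).symm
    _ ≤ ∏ p ∈ Q, Real.exp (2 * (1 / (p : ℝ))) := by
        refine prod_le_prod (fun p hp => by linarith [h0 p hp]) fun p hp => ?_
        refine le_trans ?_ (Real.add_one_le_exp _)
        have := h2 p hp
        have : 1 / ((p : ℝ) - 1) ≤ 2 * (1 / (p : ℝ)) := by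
          rw [mul_one_div, div_le_div_iff₀ (by linarith) (by linarith)]
          linarith
        linarith
    _ ≤ _ := by
        rw [← Real.exp_sum, ← mul_sum]
        exact Real.exp_le_exp.2 (mul_le_mul_of_nonneg_left
          (sum_le_sum_of_subset_of_nonneg hQ fun _ _ _ => by positivity) zero_le_two)

theorem pow_tower {ρ A t : ℕ} (h : ρ ≤ 2 ^ 2 ^ (t + 1)) (hA : A ≤ t) :
    ρ ^ A ≤ 2 ^ 2 ^ (2 * t + 1 + 1) := by
  refine (Nat.pow_le_pow_left h A).trans ?_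
  rw [← pow_mul]
  refine Nat.pow_le_pow_right (by norm_num) ?_
  calc 2 ^ (t + 1) * A ≤ 2 ^ (t + 1) * 2 ^ (t + 1) :=
        Nat.mul_le_mul_left _ (le_trans (by omega) (Nat.lt_two_pow_self (n := t + 1)).le)
    _ = _ := by rw [← pow_add]; congr 1; ring

theorem free (S : Sc) (hok : S.Ok) (ha : 0 < S.P.a) (h0 : S.ρ ≠ 0) (hy : 2 ≤ S.y)
    (h2 : S.ρ ≤ S.y ^ (2 * S.k)) (hC : 400 * S.d.C ^ 2 ≤ S.ρ) {γ : O} (h : S.Fr γ) :
    γ ≠ 0 ∧ IsCoprime γ.norm (S.F : ℤ) ∧ (∀ p : ℕ, p.Prime → (p : ℤ) ∣ γ.norm → S.y < p) ∧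
      γ.norm.natAbs.primeFactors.card ≤ 34 * S.P.a * S.k := by
  obtain ⟨f1, f2, -, f4, f5⟩ := h
  have c : IsCoprime γ.norm (S.F : ℤ) := by
    obtain ⟨u, hu⟩ := norm_congr f1
    have c1 : IsCoprime ((S.b : ℤ) * S.b) (S.F : ℤ) :=
      (Nat.isCoprime_iff_coprime.2 hok.hbc).mul_left (Nat.isCoprime_iff_coprime.2 hok.hbc)
    have c2 := c1.add_mul_left_left u
    rw [Zsqrtd.norm_mul, Zsqrtd.norm_natCast] at hu
    rw [show (S.b : ℤ) * S.b + S.F * u = γ.norm * S.w0.norm by linarith] at c2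
    exact c2.of_mul_left_left
  have hp : ∀ p : ℕ, p.Prime → (p : ℤ) ∣ γ.norm → S.y < p := fun p hp hd => by
    by_contra k
    by_cases hw : p ≤ S.w
    · exact (Nat.prime_iff_prime_int.1 hp).not_isUnit
        (c.isUnit_of_dvd' hd (Int.natCast_dvd_natCast.2 (S.dvd_F hp.pos hw)))
    · exact f2 p (mem_PP.2 ⟨⟨by omega, by omega⟩, hp⟩) hd
  have n0 : γ ≠ 0 := by
    rintro rfl
    have : (0 : ℤ) < (S.G : ℤ) ^ 2 := by
      have : 0 < S.G := pow_pos (Nat.pos_of_ne_zero h0) _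
      positivity
    simp only [Zsqrtd.norm_zero, mul_zero] at f4
    omega
  refine ⟨n0, c, hp, (Nat.pow_le_pow_iff_right (show 1 < S.y by omega)).1 ?_⟩
  have n1 := norm_pos' n0
  calc S.y ^ γ.norm.natAbs.primeFactors.card ≤ ∏ p ∈ γ.norm.natAbs.primeFactors, p :=
        pow_card_le_prod _ _ _ fun p hp' => (hp p (Nat.prime_of_mem_primeFactors hp')
          (Int.natCast_dvd.2 (Nat.dvd_of_mem_primeFactors hp'))).le
    _ ≤ γ.norm.natAbs := Nat.le_of_dvd (by omega) (Nat.prod_primeFactors_dvd _)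
    _ ≤ 400 * S.d.C ^ 2 * S.G ^ 2 := by
        zify
        rwa [abs_of_pos n1]
    _ ≤ S.ρ ^ S.P.a * S.G ^ 2 :=
        Nat.mul_le_mul_right _ (hC.trans (Nat.le_self_pow ha.ne' _))
    _ = S.ρ ^ (17 * S.P.a) := by rw [Sc.G, ← pow_mul, ← pow_add]; congr 1; ring
    _ ≤ (S.y ^ (2 * S.k)) ^ (17 * S.P.a) := Nat.pow_le_pow_left h2 _
    _ = _ := by rw [← pow_mul]; congr 1; ring

end ScaleAux

open ScaleAux in
theorem stScale : StScale := by
  refine ⟨fun p hp => ⟨rN_nonneg p, rN_le hp⟩, fun y => recip_le (lt_tower y).le,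
    fun a Y ha => (root_ge ha Y).mono fun ρ h => le_trans ?_ h, fun d P hP n w hw => ?_⟩
  · exact (Nat.lt_two_pow_self).le.trans (Nat.pow_le_pow_right (by norm_num)
      (Nat.le_mul_of_pos_right _ (Nat.succ_pos _)))
  have ha : 0 < P.a := by have := hP.big.1; omega
  filter_upwards [root_ge ha n, root_ge ha 1, ev_t (9 + P.A),
    eventually_ge_atTop (400 * d.C ^ 2)] with ρ h1 h2 ⟨h0, h3⟩ hC b w0 P0 hok
  set S : Sc := ⟨d, P, w, ρ, b, w0, P0⟩ with hS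
  have hk : S.k ≠ 0 := Nat.mul_ne_zero ha.ne' (Nat.succ_ne_zero _)
  have y2 : 2 ≤ S.y := le_trans (Nat.le_self_pow (by omega) 2) h2
  have a1 : S.y ^ S.k ≤ ρ := Nat.pow_nthRoot_le_iff.2 (Or.inl hk)
  have a2 : ρ ≤ S.y ^ (2 * S.k) := by
    rw [pow_mul]
    exact (Nat.lt_pow_nthRoot_add_one hk ρ).le.trans
      (Nat.pow_le_pow_left (show S.y + 1 ≤ S.y ^ 2 by nlinarith) _)
  have l0 : 0 ≤ Real.log ρ := Real.log_natCast_nonneg ρ
  have l1 := log_le ρ h0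
  have l2 := exp_le h0 (by omega)
  have l3 := (lt_tower ρ).le
  have ek : S.k = P.a * (Nat.log 2 (Nat.log 2 ρ) + 1) := rfl
  have h1' : 2 ^ (n * (Nat.log 2 (Nat.log 2 ρ) + 1)) ≤ S.y := h1
  generalize Nat.log 2 (Nat.log 2 ρ) = t at h3 l1 l2 l3 ek h1'
  have l4 : Real.exp (20 * (t + 1 : ℕ)) ≤ Real.log ρ ^ 40 := by
    rw [show (40 : ℕ) = 2 * 20 from rfl, pow_mul,
      show (20 : ℝ) * (t + 1 : ℕ) = (20 : ℕ) * ((t + 1 : ℕ) : ℝ) by norm_num, Real.exp_nat_mul]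
    exact pow_le_pow_left₀ (Real.exp_pos _).le l2 _
  refine ⟨a1, a2, ?_, one_le_SS hw _, ?_, ?_, ?_, fun Q hQ => ?_,
    fun γ => free S hok ha h0 y2 a2 hC⟩
  · refine (pow_le_pow_left₀ l0 l1 n).trans ?_
    rw [← pow_mul, mul_comm]
    exact_mod_cast h1'
  · have := recip_le (w := w) (((Nat.le_self_pow hk S.y).trans a1).trans l3)
    exact (SS_le hw _).trans (le_trans (Real.exp_le_exp.2 (by linarith)) l4)
  · rw [ek, mul_comm P.a, pow_mul, pow_mul]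
    refine pow_le_pow_left₀ (by positivity) (le_trans ?_ l2) _
    rw [← Real.exp_one_pow]
    exact pow_le_pow_left₀ zero_le_two (by linarith [Real.add_one_le_exp 1]) _
  · rw [ek, mul_comm P.a, pow_mul]
    exact pow_le_pow_left₀ l0 l1 _
  · have := recip_le (w := 0) (pow_tower (A := P.A) l3 (by omega))
    refine (GG_le hQ).trans (le_trans (Real.exp_le_exp.2 ?_) l4)
    push_cast at this ⊢
    change 2 * ∑ p ∈ Sg.PP 0 (ρ ^ P.A), 1 / (p : ℝ) ≤ _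
    linarith

end Pool.Agent.Lib.MP_7d3fda_nt.Q3
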