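import Pool.Agent.Lib.MP_7d3fda_nt.Q3.Basic
import Pool.Agent.Lib.MP_4b8564_nt.GT.Slf

open Finset Filter
open scoped Classical NumberTheorySymbols

noncomputable section

namespace Pool.Agent.Lib.MP_7d3fda_nt.Q3

open Pool.Agent.Lib.MP_4b8564_nt Pool.Agent.Lib.MP_4b8564_nt.GT
open Pool.Agent.Lib.MP_0a3467_an.Cv (Low)
open Pool.Agent.Lib.MP_0a3467_an

namespace SlfAux

open GT.SlfAux (pt pt_swap pt_right pt_left cs)

variable {ι X : Type} [Fintype ι] [DecidableEq ι] [Fintype X]

theorem expand {ν₀ : (ι → X) → ℝ} {ν : ι → (ι → X) → ℝ} {η : ℝ} (h : LF2 ν₀ ν η)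
    (T : Finset (ι × Finset ι)) (hT : ∀ t ∈ T, t.1 ∉ t.2) (U : Finset (Finset ι)) :
    ∀ V : Finset (Finset ι), Disjoint U V →
      |av (fun z => (∏ S ∈ U, (ν₀ (pt S z) - 1)) *
        ((∏ S ∈ V, ν₀ (pt S z)) * ∏ t ∈ T, ν t.1 (pt t.2 z))) - 0 ^ U.card| ≤
        2 ^ U.card * η := by
  induction U using Finset.induction_on with
  | empty =>
    intro V _
    simp only [prod_empty, one_mul, card_empty, pow_zero]
    exact h V T hT
  | insert S U hS ih =>
    intro V hV
    obtain ⟨hSV, hUV⟩ := disjoint_insert_left.1 hV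
    have h1 := ih V hUV
    have h2 := ih (insert S V) (disjoint_insert_right.2 ⟨hS, hUV⟩)
    have e : av (fun z => (∏ S' ∈ insert S U, (ν₀ (pt S' z) - 1)) *
          ((∏ S' ∈ V, ν₀ (pt S' z)) * ∏ t ∈ T, ν t.1 (pt t.2 z))) =
        av (fun z => (∏ S' ∈ U, (ν₀ (pt S' z) - 1)) *
          ((∏ S' ∈ insert S V, ν₀ (pt S' z)) * ∏ t ∈ T, ν t.1 (pt t.2 z))) -
        av (fun z => (∏ S' ∈ U, (ν₀ (pt S' z) - 1)) *
          ((∏ S' ∈ V, ν₀ (pt S' z)) * ∏ t ∈ T, ν t.1 (pt t.2 z))) := by
      rw [← av_sub]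
      refine av_congr fun z => ?_
      rw [prod_insert hS, prod_insert hSV]
      ring
    rw [e, card_insert_of_notMem hS, pow_succ, pow_succ, mul_zero, sub_zero]
    rw [abs_le] at h1 h2 ⊢
    constructor <;> linarith [h1.1, h1.2, h2.1, h2.2]

/-- the terms that carry the majorant -/
def TT (J E : Finset ι) : Finset (ι × Finset ι) :=
  (J ×ˢ univ).filter fun t => t.2 ⊆ E.erase t.1

theorem TT_adm (J E : Finset ι) : ∀ t ∈ TT J E, t.1 ∉ t.2 := fun _ ht hm =>
  notMem_erase _ _ ((mem_filter.1 ht).2 hm)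

omit [Fintype X] in
theorem rep (ν : ι → (ι → X) → ℝ) (J E : Finset ι) (z : (ι → X) × (ι → X)) :
    (∏ j ∈ J, ∏ T ∈ (E.erase j).powerset, ν j (pt T z)) =
      ∏ t ∈ TT J E, ν t.1 (pt t.2 z) := by
  rw [TT, prod_filter, prod_product]
  refine prod_congr rfl fun j _ => ?_
  have : (E.erase j).powerset = univ.filter fun T => T ⊆ E.erase j := by
    ext T
    simp
  rw [this, prod_filter]

/-- the quantity after doubling the coordinates in `D` -/
def W (ν₀ : (ι → X) → ℝ) (D : Finset ι) (G : ι → (ι → X) → ℝ) : ℝ :=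
  av fun z => (∏ S ∈ D.powerset, (ν₀ (pt S z) - 1)) *
    ∏ j, ∏ T ∈ (D.erase j).powerset, G j (pt T z)

theorem W_step [Nonempty X] (ν₀ : (ι → X) → ℝ) (d : ι) (D : Finset ι)
    (G G' : ι → (ι → X) → ℝ) (hD : d ∉ D) (hG : Indep d (G d)) (hG' : Indep d (G' d))
    (hle : ∀ x, 0 ≤ G d x ∧ G d x ≤ G' d x) (heq : ∀ j, j ≠ d → G' j = G j) :
    W ν₀ D G ^ 2 ≤ av (fun z => ∏ T ∈ D.powerset, G' d (pt T z)) * W ν₀ (insert d D) G' := by
  have hT : ∀ T ∈ D.powerset, d ∉ T := fun T h hm => hD (mem_powerset.1 h hm)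
  have hdJ : d ∈ (univ : Finset ι) := mem_univ d
  have key := cs d (fun z => ∏ T ∈ D.powerset, G d (pt T z))
    (fun z => ∏ T ∈ D.powerset, G' d (pt T z))
    (fun z => (∏ S ∈ D.powerset, (ν₀ (pt S z) - 1)) *
      ∏ j ∈ univ.erase d, ∏ T ∈ (D.erase j).powerset, G j (pt T z))
    (fun x y a => prod_congr rfl fun T h => by rw [pt_left (hT T h), hG])
    (fun x y a => prod_congr rfl fun T h => by rw [pt_left (hT T h), hG'])
    (fun x y a => prod_congr rfl fun T h => by rw [pt_right (hT T h)])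
    (fun x y a => by
      congr 1
      · exact prod_congr rfl fun S h => by rw [pt_right (hT S h)]
      · exact prod_congr rfl fun j _ => prod_congr rfl fun T h => by
          rw [pt_right fun hm => hD (mem_of_mem_erase (mem_powerset.1 h hm))])
    (fun z => by
      rw [abs_of_nonneg (prod_nonneg fun T _ => (hle _).1)]
      exact prod_le_prod (fun T _ => (hle _).1) fun T _ => (hle _).2)
  convert key using 2
  · refine av_congr fun z => ?_
    rw [← mul_prod_erase _ _ hdJ, erase_eq_of_notMem hD]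
    ring
  · refine av_congr fun z => ?_
    obtain ⟨x, y⟩ := z
    rw [← mul_prod_erase _ _ hdJ, erase_insert hD, prod_powerset_insert hD]
    simp only [pt_swap]
    have e : (∏ j ∈ univ.erase d, ∏ T ∈ ((insert d D).erase j).powerset, G' j (pt T (x, y))) =
        (∏ j ∈ univ.erase d, ∏ T ∈ (D.erase j).powerset, G j (pt T (x, y))) *
        ∏ j ∈ univ.erase d, ∏ T ∈ (D.erase j).powerset, G j (pt (insert d T) (x, y)) := by
      rw [← prod_mul_distrib]
      refine prod_congr rfl fun j hj => ?_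
      have hj' : j ≠ d := ne_of_mem_erase hj
      rw [erase_insert_of_ne hj'.symm, prod_powerset_insert fun hm => hD (mem_of_mem_erase hm)]
      simp only [heq j hj']
    rw [e]
    ring

theorem main (ι : Type) [Fintype ι] [DecidableEq ι] (r : ℕ) : ∀ ε : ℝ, 0 < ε → ∃ η : ℝ, 0 < η ∧
    ∀ (X : Type) [Fintype X] [Nonempty X] (ν₀ : (ι → X) → ℝ) (ν : ι → (ι → X) → ℝ),
      (∀ j, Indep j (ν j)) → LF2 ν₀ ν η → ∀ (D : Finset ι) (G : ι → (ι → X) → ℝ),
        (univ \ D).card = r → (∀ j, Indep j (G j)) → (∀ j x, 0 ≤ G j x ∧ G j x ≤ ν j x) →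
        (∀ j ∈ D, G j = ν j) → |W ν₀ D G| ≤ ε := by
  induction r with
  | zero =>
    intro ε hε
    refine ⟨ε / 2 ^ 2 ^ Fintype.card ι, by positivity,
      fun X _ _ ν₀ ν _ hLF D G hr _ _ hfull => ?_⟩
    have hJ : univ ⊆ D := sdiff_eq_empty_iff_subset.1 (card_eq_zero.1 hr)
    have h := expand hLF (TT univ D) (TT_adm _ _) D.powerset ∅ (disjoint_empty_right _)
    have e : W ν₀ D G = av fun z => (∏ S ∈ D.powerset, (ν₀ (pt S z) - 1)) *
        ((∏ S ∈ (∅ : Finset (Finset ι)), ν₀ (pt S z)) *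
          ∏ t ∈ TT univ D, ν t.1 (pt t.2 z)) := by
      refine av_congr fun z => ?_
      rw [← rep, prod_empty, one_mul]
      congr 1
      exact prod_congr rfl fun j hj => by rw [hfull j (hJ hj)]
    rw [card_powerset, zero_pow (by positivity), sub_zero, ← e] at h
    refine h.trans ?_
    rw [mul_div_assoc', div_le_iff₀ (by positivity), mul_comm]
    gcongr
    · norm_num
    · norm_num
    · exact card_le_univ D
  | succ r ih =>
    intro ε hε
    obtain ⟨η, hη, H⟩ := ih (ε ^ 2 / 2) (by positivity)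
    refine ⟨min η 1, lt_min hη one_pos, fun X _ _ ν₀ ν hν hLF D G hr hG hle hfull => ?_⟩
    obtain ⟨d, hd⟩ : (univ \ D).Nonempty := card_pos.1 (by omega)
    have hd2 : d ∉ D := (mem_sdiff.1 hd).2
    let G' : ι → (ι → X) → ℝ := fun j => if j = d then ν j else G j
    have hGd : G' d = ν d := by simp [G']
    have hGn : ∀ j, j ≠ d → G' j = G j := fun j h => by simp [G', h]
    have hI : Indep d (G' d) := by rw [hGd]; exact hν d
    have h1 := H X ν₀ ν hν (fun U T hT => (hLF U T hT).trans (min_le_left _ _)) (insert d D) G'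
      (by rw [sdiff_insert, card_erase_of_mem hd, hr]; rfl)
      (fun j => by
        by_cases e : j = d
        · rw [e]; exact hI
        · rw [hGn j e]; exact hG j)
      (fun j x => by
        by_cases e : j = d
        · rw [e, hGd]; exact ⟨(hle d x).1.trans (hle d x).2, le_rfl⟩
        · rw [hGn j e]; exact hle j x)
      (fun j h => by
        by_cases e : j = d
        · rw [e, hGd]
        · rw [hGn j e]; exact hfull j ((mem_insert.1 h).resolve_left e))
    have h2 := W_step ν₀ d D G G' hd2 (hG d) hI (fun x => by rw [hGd]; exact hle d x) hGn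
    have h3 := (hLF ∅ _ (TT_adm {d} D)).trans (min_le_right _ _)
    have e : av (fun z => ∏ T ∈ D.powerset, G' d (pt T z)) =
        av fun z : (ι → X) × (ι → X) =>
          (∏ S ∈ (∅ : Finset (Finset ι)), ν₀ (S.piecewise z.2 z.1)) *
            ∏ t ∈ TT {d} D, ν t.1 (t.2.piecewise z.2 z.1) := by
      refine av_congr fun z => ?_
      have := rep ν {d} D z
      rw [prod_singleton, erase_eq_of_notMem hd2] at this
      rw [hGd, prod_empty, one_mul]
      exact this
    rw [← e] at h3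
    have h4 : 0 ≤ av (fun z => ∏ T ∈ D.powerset, G' d (pt T z)) :=
      av_nonneg fun z => prod_nonneg fun T _ => by
        rw [hGd]; exact (hle d _).1.trans (hle d _).2
    refine abs_le_of_sq_le_sq' ?_ hε.le |> abs_le.2
    have h5 := (abs_le.1 h1).2
    have h6 := (abs_le.1 h3).2
    nlinarith [mul_le_mul_of_nonneg_left h5 h4, sq_nonneg ε]

end SlfAux

/-- removal of the extra weight -/
theorem stSlf : StSlf := by
  intro ι _ _ ε hε
  obtain ⟨η, hη, H⟩ := SlfAux.main ι (Fintype.card ι) ε hε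
  refine ⟨η, hη, fun X _ _ ν₀ ν g hν hg hle hLF => ?_⟩
  have h := H X ν₀ ν hν hLF ∅ g (by rw [sdiff_empty, card_univ]) hg hle
    (fun j h => absurd h (notMem_empty _))
  convert h using 2
  rw [SlfAux.W, av_prod]
  refine av_congr fun x => ?_
  rw [← av_const (X := ι → X) ((ν₀ x - 1) * ∏ j, g j x)]
  refine av_congr fun y => ?_
  simp [GT.SlfAux.pt]

end Pool.Agent.Lib.MP_7d3fda_nt.Q3
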