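import Pool.Agent.Lib.MP_7d3fda_nt.Q3.Basic

open Finset Filter
open scoped Classical NumberTheorySymbols

noncomputable section

namespace Pool.Agent.Lib.MP_7d3fda_nt.Q3

open Pool.Agent.Lib.MP_4b8564_nt Pool.Agent.Lib.MP_4b8564_nt.GT
open Pool.Agent.Lib.MP_0a3467_an.Cv (Low)
open Pool.Agent.Lib.MP_0a3467_an

namespace SqfAux

theorem close {p a b a' b' : ℤ} (hp : Prime p) (h3 : 3 < p) (h : p ^ 2 ∣ a ^ 2 + 3 * b ^ 2)
    (h' : p ^ 2 ∣ a' ^ 2 + 3 * b' ^ 2) (hb : ¬p ∣ b) (hb' : ¬p ∣ b') (hD : p ∣ a * b' - b * a') :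
    p ^ 2 ∣ (a - a') ^ 2 + 3 * (b - b') ^ 2 := by
  have hp1 : p ∣ a ^ 2 + 3 * b ^ 2 := (dvd_pow_self p two_ne_zero).trans h
  have hP : ¬p ∣ a * b' + b * a' := by
    intro hP
    have h1 : p ∣ 2 * (a * b') := by
      have := dvd_add hD hP
      rwa [show a * b' - b * a' + (a * b' + b * a') = 2 * (a * b') by ring] at this
    rcases hp.dvd_or_dvd h1 with h2 | h2
    · exact absurd (Int.le_of_dvd (by norm_num) h2) (by omega)
    rcases hp.dvd_or_dvd h2 with h4 | h4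
    · have h5 : p ∣ 3 * b ^ 2 := (dvd_add_right (dvd_pow h4 two_ne_zero)).1 hp1
      rcases hp.dvd_or_dvd h5 with h6 | h6
      · exact absurd (Int.le_of_dvd (by norm_num) h6) (by omega)
      · exact hb (hp.dvd_of_dvd_pow h6)
    · exact hb' h4
  have hD2 : p ^ 2 ∣ a * b' - b * a' := by
    refine hp.pow_dvd_of_dvd_mul_left 2 hP ?_
    have := dvd_sub (h.mul_right (b' ^ 2)) (h'.mul_right (b ^ 2))
    rwa [show (a ^ 2 + 3 * b ^ 2) * b' ^ 2 - (a' ^ 2 + 3 * b' ^ 2) * b ^ 2 =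
      (a * b' + b * a') * (a * b' - b * a') by ring] at this
  have hE : p ^ 2 ∣ a * a' + 3 * (b * b') := by
    refine hp.pow_dvd_of_dvd_mul_left 2 hb' ?_
    have := dvd_add (hD2.mul_left a') (h'.mul_left b)
    rwa [show a' * (a * b' - b * a') + b * (a' ^ 2 + 3 * b' ^ 2) =
      b' * (a * a' + 3 * (b * b')) by ring] at this
  have := dvd_sub (dvd_add h h') (hE.mul_left 2)
  rwa [show a ^ 2 + 3 * b ^ 2 + (a' ^ 2 + 3 * b' ^ 2) - 2 * (a * a' + 3 * (b * b')) =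
    (a - a') ^ 2 + 3 * (b - b') ^ 2 by ring] at this

theorem other {p a b a' b' : ℤ} (hp : Prime p) (h : p ^ 2 ∣ a ^ 2 + 3 * b ^ 2)
    (h' : p ^ 2 ∣ a' ^ 2 + 3 * b' ^ 2) (hD : ¬p ∣ a * b' - b * a') : p ∣ a * b' + b * a' := by
  refine (hp.dvd_or_dvd ?_).resolve_left hD
  have := (dvd_pow_self p two_ne_zero).trans
    (dvd_sub (h.mul_right (b' ^ 2)) (h'.mul_right (b ^ 2)))
  rwa [show (a ^ 2 + 3 * b ^ 2) * b' ^ 2 - (a' ^ 2 + 3 * b' ^ 2) * b ^ 2 =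
    (a * b' - b * a') * (a * b' + b * a') by ring] at this

theorem classes {p : ℤ} (hp : Prime p) (h3 : 3 < p) (T : Finset O)
    (hT : ∀ γ ∈ T, p ^ 2 ∣ γ.re ^ 2 + 3 * γ.im ^ 2) :
    ∃ c : O → ℕ, (∀ γ, c γ < 3) ∧ ∀ γ ∈ T, ∀ γ' ∈ T, c γ = c γ' →
      p ^ 2 ∣ (γ.re - γ'.re) ^ 2 + 3 * (γ.im - γ'.im) ^ 2 := by
  obtain ⟨g, hg⟩ : ∃ g : O, ∀ γ ∈ T, ¬p ∣ γ.im → ¬p ∣ g.im ∧ p ^ 2 ∣ g.re ^ 2 + 3 * g.im ^ 2 := by
    by_cases h : ∃ g ∈ T, ¬p ∣ g.im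
    · obtain ⟨g, h1, h2⟩ := h
      exact ⟨g, fun _ _ _ => ⟨h2, hT g h1⟩⟩
    · exact ⟨0, fun γ h1 h2 => absurd ⟨γ, h1, h2⟩ h⟩
  have hre : ∀ γ ∈ T, p ∣ γ.im → p ∣ γ.re := fun γ h1 h2 =>
    hp.dvd_of_dvd_pow ((dvd_add_left ((dvd_pow h2 two_ne_zero).mul_left 3)).1
      ((dvd_pow_self p two_ne_zero).trans (hT γ h1)))
  refine ⟨fun γ => if p ∣ γ.im then 0 else if p ∣ γ.re * g.im - γ.im * g.re then 1 else 2,
    fun γ => by dsimp only; split_ifs <;> norm_num, fun γ h γ' h' hc => ?_⟩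
  dsimp only at hc
  by_cases h1 : p ∣ γ.im
  · have h2 : p ∣ γ'.im := by
      by_contra h2
      rw [if_pos h1, if_neg h2] at hc
      split_ifs at hc
    exact dvd_add (pow_dvd_pow_of_dvd (dvd_sub (hre γ h h1) (hre γ' h' h2)) 2)
      ((pow_dvd_pow_of_dvd (dvd_sub h1 h2) 2).mul_left 3)
  have h2 : ¬p ∣ γ'.im := by
    intro h2
    rw [if_neg h1, if_pos h2] at hc
    split_ifs at hc
  rw [if_neg h1, if_neg h2] at hc
  obtain ⟨g1, g2⟩ := hg γ h h1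
  refine close hp h3 (hT γ h) (hT γ' h') h1 h2 ((hp.dvd_or_dvd ?_).resolve_left g1)
  by_cases h4 : p ∣ γ.re * g.im - γ.im * g.re
  · have h5 : p ∣ γ'.re * g.im - γ'.im * g.re := by
      by_contra h5
      rw [if_pos h4, if_neg h5] at hc
      omega
    have := dvd_sub (h4.mul_left γ'.im) (h5.mul_left γ.im)
    rwa [show γ'.im * (γ.re * g.im - γ.im * g.re) - γ.im * (γ'.re * g.im - γ'.im * g.re) =
      g.im * (γ.re * γ'.im - γ.im * γ'.re) by ring] at this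
  · have h5 : ¬p ∣ γ'.re * g.im - γ'.im * g.re := by
      intro h5
      rw [if_neg h4, if_pos h5] at hc
      omega
    have := dvd_sub ((other hp (hT γ h) g2 h4).mul_left γ'.im)
      ((other hp (hT γ' h') g2 h5).mul_left γ.im)
    rwa [show γ'.im * (γ.re * g.im + γ.im * g.re) - γ.im * (γ'.re * g.im + γ'.im * g.re) =
      g.im * (γ.re * γ'.im - γ.im * γ'.re) by ring] at this

theorem cell {s u v : ℤ} (hs : 0 < s) (h : u / s = v / s) : |u - v| < s := by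
  have h1 := Int.emod_add_mul_ediv u s
  have h2 := Int.emod_add_mul_ediv v s
  have h3 := Int.emod_nonneg u hs.ne'
  have h4 := Int.emod_nonneg v hs.ne'
  have h5 := Int.emod_lt_of_pos u hs
  have h6 := Int.emod_lt_of_pos v hs
  rw [h] at h1
  rw [abs_lt]
  constructor <;> linarith

theorem one {p X : ℕ} (hp : p.Prime) (h3 : 3 < p) (hX : p ≤ 2 * X) (T : Finset O)
    (hT : ∀ γ ∈ T, |γ.re| ≤ X ∧ |γ.im| ≤ X ∧ (p : ℤ) ^ 2 ∣ γ.norm) :
    (T.card : ℝ) ≤ 192 * (X : ℝ) ^ 2 * ((p : ℝ) ^ 2)⁻¹ := by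
  obtain ⟨c, hc3, hc⟩ := classes (Nat.prime_iff_prime_int.1 hp) (by exact_mod_cast h3) T
    fun γ h => by rw [← norm_eq]; exact (hT γ h).2.2
  obtain ⟨s, hs1, hs2⟩ : ∃ s : ℕ, 2 * s ≤ p ∧ p ≤ 3 * s := ⟨p / 2, by omega, by omega⟩
  have hs0 : (0 : ℤ) < s := by exact_mod_cast (show 0 < s by omega)
  have hmem : ∀ u : ℤ, |u| ≤ X → (u + X) / s ∈ Ico (0 : ℤ) ((2 * X / s + 1 : ℕ) : ℤ) := by
    intro u hu
    rw [abs_le] at hu
    refine mem_Ico.2 ⟨Int.ediv_nonneg (by omega) hs0.le, ?_⟩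
    push_cast
    exact Int.lt_add_one_of_le (Int.ediv_le_ediv hs0 (by omega))
  have hcard : T.card ≤ ((Ico (0 : ℤ) ((2 * X / s + 1 : ℕ) : ℤ) ×ˢ
      Ico (0 : ℤ) ((2 * X / s + 1 : ℕ) : ℤ)) ×ˢ range 3).card := by
    refine card_le_card_of_injOn (fun γ => (((γ.re + X) / s, (γ.im + X) / s), c γ)) ?_ ?_
    · intro γ h
      have h' := hT γ (mem_coe.1 h)
      exact mem_coe.2 (mem_product.2 ⟨mem_product.2 ⟨hmem _ h'.1, hmem _ h'.2.1⟩,
        mem_range.2 (hc3 γ)⟩)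
    · intro γ h γ' h' he
      simp only [Prod.mk.injEq] at he
      have h1 := cell hs0 he.1.1
      have h2 := cell hs0 he.1.2
      rw [add_sub_add_right_eq_sub] at h1 h2
      have h4 := hc γ (mem_coe.1 h) γ' (mem_coe.1 h') he.2
      have h5 : (γ.re - γ'.re) ^ 2 < (s : ℤ) ^ 2 := sq_lt_sq.2 (by rwa [abs_of_pos hs0])
      have h6 : (γ.im - γ'.im) ^ 2 < (s : ℤ) ^ 2 := sq_lt_sq.2 (by rwa [abs_of_pos hs0])
      have h7 : (2 * (s : ℤ)) ^ 2 ≤ (p : ℤ) ^ 2 :=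
        pow_le_pow_left₀ (by positivity) (by exact_mod_cast hs1) 2
      have h8 := Int.eq_zero_of_dvd_of_nonneg_of_lt (by positivity) (by linarith) h4
      have h9 := sq_nonneg (γ.re - γ'.re)
      have h10 := sq_nonneg (γ.im - γ'.im)
      exact Zsqrtd.ext (sub_eq_zero.1 (pow_eq_zero_iff two_ne_zero |>.1 (by linarith)))
        (sub_eq_zero.1 (pow_eq_zero_iff two_ne_zero |>.1 (by linarith)))
  rw [card_product, card_product, card_range, Int.card_Ico, sub_zero, Int.toNat_natCast] at hcard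
  have hk : (2 * X / s + 1) * p ≤ 8 * X := by
    have h1 := Nat.div_mul_le_self (2 * X) s
    have h2 : 2 * X / s * p ≤ 2 * X / s * (3 * s) := Nat.mul_le_mul_left _ hs2
    nlinarith
  have hk2 : T.card * p ^ 2 ≤ 192 * X ^ 2 := by
    have h1 := Nat.mul_le_mul hk hk
    have h2 := Nat.mul_le_mul_right (p ^ 2) hcard
    nlinarith
  have hp0 : (0 : ℝ) < (p : ℝ) ^ 2 := by have := hp.pos; positivity
  rw [← div_eq_mul_inv, le_div_iff₀ hp0]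
  exact_mod_cast hk2

end SqfAux

theorem stSqf : StSqf := by
  refine ⟨384, fun X y Z hX hy hZ => ?_⟩
  have hsub : Z ⊆ ((Ioo y (2 * X + 1)).filter Nat.Prime).biUnion
      fun p => Z.filter fun γ => (p : ℤ) ^ 2 ∣ γ.norm := by
    intro γ h
    obtain ⟨h0, h1, h2, p, hp, hyp, hd⟩ := hZ γ h
    refine mem_biUnion.2 ⟨p, mem_filter.2 ⟨mem_Ioo.2 ⟨hyp, ?_⟩, hp⟩, mem_filter.2 ⟨h, hd⟩⟩
    have h3 := Int.le_of_dvd (norm_pos' h0) hd
    rw [norm_eq] at h3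
    have h4 : γ.re ^ 2 ≤ (X : ℤ) ^ 2 := sq_le_sq.2 (by rwa [Nat.abs_cast])
    have h5 : γ.im ^ 2 ≤ (X : ℤ) ^ 2 := sq_le_sq.2 (by rwa [Nat.abs_cast])
    have h6 : (p : ℤ) ^ 2 ≤ (2 * (X : ℤ)) ^ 2 := by linarith
    have h7 : (p : ℤ) ≤ 2 * X := (pow_le_pow_iff_left₀ (by positivity) (by positivity)
      two_ne_zero).1 h6
    omega
  have hy0 : (0 : ℝ) < y := by exact_mod_cast (show 0 < y by omega)
  calc (Z.card : ℝ) ≤ ∑ p ∈ (Ioo y (2 * X + 1)).filter Nat.Prime,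
        ((Z.filter fun γ => (p : ℤ) ^ 2 ∣ γ.norm).card : ℝ) := by
        exact_mod_cast (card_le_card hsub).trans card_biUnion_le
    _ ≤ ∑ p ∈ (Ioo y (2 * X + 1)).filter Nat.Prime, 192 * (X : ℝ) ^ 2 * ((p : ℝ) ^ 2)⁻¹ := by
        refine sum_le_sum fun p hp => ?_
        obtain ⟨h1, h2⟩ := mem_filter.1 hp
        rw [mem_Ioo] at h1
        refine SqfAux.one h2 (by omega) (by omega) _ fun γ h => ?_
        obtain ⟨h3, h4⟩ := mem_filter.1 h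
        exact ⟨(hZ γ h3).2.1, (hZ γ h3).2.2.1, h4⟩
    _ ≤ ∑ p ∈ Ioo y (2 * X + 1), 192 * (X : ℝ) ^ 2 * ((p : ℝ) ^ 2)⁻¹ :=
        sum_le_sum_of_subset_of_nonneg (filter_subset _ _) fun _ _ _ => by positivity
    _ ≤ 192 * (X : ℝ) ^ 2 * (2 / y) := by
        rw [← mul_sum]
        refine mul_le_mul_of_nonneg_left ((sum_Ioo_inv_sq_le y _).trans ?_) (by positivity)
        exact div_le_div_of_nonneg_left (by norm_num) hy0 (by linarith)
    _ = 384 * (X : ℝ) ^ 2 / y := by ring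

end Pool.Agent.Lib.MP_7d3fda_nt.Q3
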