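import Pool.Agent.Lib.MP_7d3fda_nt.Q3.Basic

open Finset Filter
open scoped Classical

noncomputable section

namespace Pool.Agent.Lib.MP_7d3fda_nt.Q3

namespace StepAux

theorem dv_mul {k : ℕ} (hk : 0 < k) (x : O) : dv k ((k : O) * x) = x := by
  have h : (k : ℤ) ≠ 0 := by exact_mod_cast hk.ne'
  ext <;> simp [dv, Int.mul_ediv_cancel_left _ h]

theorem norm_nat_mul (k : ℕ) (x : O) : ((k : O) * x).norm = (k : ℤ) ^ 2 * x.norm := by
  rw [Zsqrtd.norm_mul, Zsqrtd.norm_natCast, sq]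

theorem card_le {F U : ℕ} (hF : 0 < F) (a : O) (X : Finset O)
    (h : ∀ x ∈ X, (F : O) ∣ x - a ∧ |x.re| ≤ U ∧ |x.im| ≤ U) : X.card ≤ (2 * U / F + 1) ^ 2 := by
  have hF' : (0 : ℤ) < F := by exact_mod_cast hF
  have h1 : ∀ n : ℤ, |n| ≤ U → (n + U) / F ∈ Ico (0 : ℤ) ((2 * U / F + 1 : ℕ) : ℤ) := fun n hn => by
    rw [abs_le] at hn
    refine mem_Ico.2 ⟨Int.ediv_nonneg (by omega) hF'.le, ?_⟩
    push_cast
    exact Int.lt_add_one_of_le (Int.ediv_le_ediv hF' (by omega))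
  have h2 : ∀ n n' c : ℤ, (F : ℤ) ∣ n - c → (F : ℤ) ∣ n' - c → (n + U) / F = (n' + U) / F →
      n = n' := fun n n' c e e' e1 => by
    have e2 : (n + U) % F = (n' + U) % F := Int.emod_eq_emod_iff_emod_sub_eq_zero.2
      (Int.emod_eq_zero_of_dvd (by simpa using dvd_sub e e'))
    have e3 := Int.mul_ediv_add_emod (n + U) F
    have e4 := Int.mul_ediv_add_emod (n' + U) F
    rw [e1, e2] at e3
    omega
  refine (card_le_card_of_injOn (fun x : O => ((x.re + U) / F, (x.im + U) / F))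
    (t := Ico (0 : ℤ) ((2 * U / F + 1 : ℕ) : ℤ) ×ˢ Ico (0 : ℤ) ((2 * U / F + 1 : ℕ) : ℤ))
    (fun x hx => mem_coe.2 (mem_product.2 ⟨h1 _ (h x hx).2.1, h1 _ (h x hx).2.2⟩))
    fun x hx y hy e => ?_).trans_eq ?_
  · obtain ⟨a1, a2⟩ := (natCast_dvd_iff _ _).1 (h x hx).1
    obtain ⟨b1, b2⟩ := (natCast_dvd_iff _ _).1 (h y hy).1
    exact Zsqrtd.ext (h2 _ _ _ a1 b1 (congrArg Prod.fst e)) (h2 _ _ _ a2 b2 (congrArg Prod.snd e))
  · rw [card_product, Int.card_Ico, sub_zero, Int.toNat_natCast, sq]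

theorem card_le' {F u T L : ℕ} (hF : 0 < F) (hu : 0 < u) (hT : T ≤ F * L) (hL : u ≤ L) (a : O)
    (X : Finset O) (h : ∀ x ∈ X, (F : O) ∣ x - a ∧ (u : ℤ) ^ 2 * x.norm ≤ 9 * (T : ℤ) ^ 2) :
    u ^ 2 * X.card ≤ (7 * L) ^ 2 := by
  have e1 : ∀ t : ℤ, (u : ℤ) ^ 2 * t ^ 2 ≤ 9 * (T : ℤ) ^ 2 → |t| ≤ (3 * T / u : ℕ) := fun t ht => by
    rw [Int.abs_eq_natAbs, Nat.cast_le, Nat.le_div_iff_mul_le hu, ← Nat.cast_le (α := ℤ),
      Nat.cast_mul, ← Int.abs_eq_natAbs]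
    refine (abs_le_of_sq_le_sq' ?_ (by positivity)).2
    rw [mul_pow, sq_abs]
    push_cast
    linarith
  have e2 := card_le hF a X fun x hx => ⟨(h x hx).1,
    e1 _ (le_trans (by rw [norm_eq]; gcongr; nlinarith) (h x hx).2),
    e1 _ (le_trans (by rw [norm_eq]; gcongr; nlinarith) (h x hx).2)⟩
  have f1 := Nat.mul_div_le (3 * T) u
  have f2 := Nat.mul_le_mul_left u (Nat.mul_div_le (2 * (3 * T / u)) F)
  have f4 : u * (2 * (3 * T / u) / F) ≤ 6 * L := Nat.le_of_mul_le_mul_left (by nlinarith) hF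
  exact (Nat.mul_le_mul_left _ e2).trans
    ((mul_pow _ _ _).symm.trans_le (Nat.pow_le_pow_left (by rw [mul_add]; omega) 2))

theorem sz_le {x : O} {u T : ℕ} (h : (u : ℤ) ^ 2 * x.norm ≤ 9 * (T : ℤ) ^ 2) :
    u * sz x ≤ 5 * T := by
  have h1 := mul_le_mul_of_nonneg_left (sz_le_norm x) (sq_nonneg (u : ℤ))
  exact_mod_cast (abs_le_of_sq_le_sq' (a := (u : ℤ) * sz x) (b := 5 * T) (by nlinarith)
    (by positivity)).2

theorem scale {S : Sc} (hP : S.P.Ok S.d) (h1 : 5 * S.W ≤ S.ρ) (h2 : S.P.J ≤ S.ρ)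
    (h3 : 2 ^ S.n0 ≤ S.ρ) : 5 * S.T ≤ S.N ∧ S.T ≤ S.F * (2 * S.P.J * S.l) ∧
      (2 * S.ρ) ^ S.n0 * S.ρ ≤ 2 * S.P.J * S.l := by
  obtain ⟨b1, b2, b3, b4⟩ := hP.big
  have hl := Sc.le_l hP h2
  refine ⟨?_, Nat.mul_le_mul (Nat.le_mul_of_pos_left _ S.d.he) hl, ?_⟩
  · have e1 := Sc.TG hP
    have e2 : 5 * S.W ≤ S.G := h1.trans (Nat.le_self_pow (by omega) _)
    exact Nat.le_of_mul_le_mul_left (by nlinarith) S.W_pos
  · have e1 : 2 ≤ S.P.A / 2 ^ (S.P.s + 4) := by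
      refine (Nat.le_div_iff_mul_le (by positivity)).2 (le_trans ?_ hP.hA)
      rw [show S.P.s + 12 = S.P.s + 4 + 8 from rfl, pow_add _ _ 8]
      nlinarith [Nat.zero_le (2 ^ (S.P.s + 4))]
    calc _ = 2 ^ S.n0 * S.ρ ^ S.n0 * S.ρ := by rw [mul_pow]
      _ ≤ S.ρ * S.ρ ^ S.n0 * S.ρ := by gcongr
      _ = S.ρ ^ (S.n0 + 2) := by ring
      _ ≤ _ := (Nat.pow_le_pow_right (by omega) (by unfold Sc.n0; omega)).trans hl

theorem psi_le (hPack : StPack) (d : Dat) : ∃ C : ℝ, 0 < C ∧ ∀ (b F N : ℕ) (φ : ℤ → ℝ) (x : O),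
    0 < F → 0 < N → (∀ n, |φ n| ≤ 1) → x ≠ 0 → IsCoprime x.norm (F : ℤ) → sz x ≤ N →
    |d.Psi b F N (fun _ => 1) (cutI N φ) x| ≤ C := by
  obtain ⟨C, hC, h⟩ := hPack d
  refine ⟨4 * C, by positivity, fun b F N φ x hF hN hφ hx hc hs => ?_⟩
  obtain ⟨h1, h2⟩ := h b F x 0 1 N N N N hF hx hc (by decide)
  have h3 : ∀ n, |cutI N φ n| ≤ 1 := fun n => by
    unfold cutI
    split_ifs
    exacts [hφ n, by simp]
  have h4 : ∀ (γ : O) (j : Fin 6), d.Fz b F (cutI N φ) γ ≠ 0 →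
      (N : ℤ) ≤ d.nn b F j γ ∧ d.nn b F j γ < N + N := fun γ j hγ => by
    have := prod_ne_zero_iff.1 hγ j (mem_univ j)
    rw [cutI, ne_eq, ite_eq_right_iff, Classical.not_imp, two_mul] at this
    exact this.1
  have hn : (0 : ℝ) ≤ x.norm := by exact_mod_cast norm_nonneg' x
  have hN' : (0 : ℝ) < N := by exact_mod_cast hN
  have hs' : (sz x : ℝ) ≤ N := by exact_mod_cast hs
  rw [Dat.Psi, finsum_eq_sum_of_support_subset (s := h1.toFinset) _ fun γ hγ => by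
    rw [Function.mem_support, ne_eq, ite_eq_right_iff, Classical.not_imp, one_mul] at hγ
    simpa using ⟨hγ.1, (h4 _ 0 hγ.2).1, (h4 _ 0 hγ.2).2, h4 _ 1 hγ.2⟩,
    abs_mul, abs_of_nonneg (by positivity), div_mul_eq_mul_div, div_le_iff₀ (by positivity)]
  rw [Set.ncard_eq_toFinset_card _ h1] at h2
  calc _ ≤ (x.norm : ℝ) * h1.toFinset.card := by
        refine mul_le_mul_of_nonneg_left ((abs_sum_le_sum_abs _ _).trans ?_) hn
        refine (sum_le_card_nsmul _ _ 1 fun γ _ => ?_).trans_eq (by simp)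
        split_ifs
        · rw [one_mul, Dat.Fz, abs_prod]
          exact prod_le_one (fun _ _ => abs_nonneg _) fun _ _ => h3 _
        · simp
    _ ≤ C * ((N : ℝ) + sz x) * ((N : ℝ) + sz x) := (mul_comm _ _).trans_le h2
    _ ≤ C * ((N : ℝ) + N) * ((N : ℝ) + N) := by gcongr
    _ = _ := by ring

theorem exists_mul (S : Sc) {n : ℕ} (hn : 0 < n) (h : 6 * n * (S.F * S.Q * n.factorial) ≤ S.ρ) :
    ∃ Rs, S.Mul n Rs := by
  have h0 : 0 < S.F * S.Q * n.factorial :=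
    Nat.mul_pos (Nat.mul_pos S.F_pos S.Q_pos) n.factorial_pos
  obtain ⟨u, hu⟩ : ∃ u, u = S.F * S.Q * n.factorial := ⟨_, rfl⟩
  obtain ⟨v, hv⟩ : ∃ v, v = S.ρ / (2 * n * u) := ⟨_, rfl⟩
  rw [← hu] at h h0
  have h1 : 2 * n * u * v ≤ S.ρ := hv ▸ Nat.mul_div_le _ _
  have h2 : S.ρ < 2 * n * u * (v + 1) := hv ▸ Nat.lt_mul_div_succ _ (by positivity)
  have h3 : 0 < u * (v + 1) := by positivity
  refine ⟨(Ico (2 * n) (3 * n)).image fun i => i * (u * (v + 1)) + 1, ?_, fun r hr => ?_, ?_⟩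
  · rw [card_image_of_injective _ fun i j e => Nat.eq_of_mul_eq_mul_right h3 (by simpa using e),
      Nat.card_Ico]
    omega
  · obtain ⟨i, hi, rfl⟩ := mem_image.1 hr
    obtain ⟨a1, a2⟩ := mem_Ico.1 hi
    have a3 := Nat.mul_le_mul_right (u * (v + 1)) a1
    have a4 := Nat.mul_le_mul_right (u * (v + 1)) (Nat.succ_le_of_lt a2)
    refine ⟨?_, by nlinarith, by nlinarith⟩
    have a5 : S.F * S.Q ∣ i * (u * (v + 1)) :=
      ((hu ▸ dvd_mul_right _ _ : _ ∣ u).mul_right _).mul_left _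
    simpa using ((Nat.modEq_zero_iff_dvd.2 a5).add_right 1)
  · have a1 : ∀ i ∈ Ico (2 * n) (3 * n), ∀ j ∈ Ico (2 * n) (3 * n), i < j →
        (i * (u * (v + 1)) + 1).Coprime (j * (u * (v + 1)) + 1) := fun i hi j hj e => by
      rw [mem_Ico] at hi hj
      exact Nat.coprime_mul_succ ((hu ▸ (Nat.dvd_factorial (by omega)
        (by omega : j - i ≤ n)).mul_left _ : _ ∣ u).mul_right _)
    intro r hr r' hr' e
    obtain ⟨i, hi, rfl⟩ := mem_image.1 hr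
    obtain ⟨j, hj, rfl⟩ := mem_image.1 hr'
    rcases lt_trichotomy i j with a2 | rfl | a2
    exacts [a1 i hi j hj a2, absurd rfl e, (a1 j hj i hi a2).symm]

theorem sq_le {a b c C : ℝ} (ha : |a| ≤ C) (hb : |b| ≤ C) :
    (a - c) ^ 2 ≤ 2 * (b - c) ^ 2 + 4 * C * |a - b| := by
  have h := (abs_sub a b).trans (add_le_add ha hb)
  nlinarith [sq_abs (a - b), abs_nonneg (a - b), sq_nonneg (a - b - (b - c))]

/-- the facts on a quotient of an element of the box -/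
theorem quot {S : Sc} (ho : S.Ok) {k : ℕ} (hk : k ≡ 1 [MOD S.F]) {x : O}
    (hx : (k : O) * x ∈ S.B) (hT : 0 < S.T) : (S.F : O) ∣ x - S.w0 ∧ x ≠ 0 ∧
      IsCoprime x.norm (S.F : ℤ) ∧ (k : ℤ) ^ 2 * x.norm ≤ 9 * (S.T : ℤ) ^ 2 := by
  have h1 := ho.lo _ hx
  have h2 : (S.F : O) ∣ x - S.w0 := by
    obtain ⟨c, hc⟩ := (Nat.modEq_iff_dvd.1 hk)
    have h3 : (1 : O) - k = S.F * (c : O) := by exact_mod_cast congrArg (Int.cast : ℤ → O) hc
    have h4 := dvd_add (S.mem_B_congr hx) (dvd_mul_right (S.F : O) (c * x))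
    rwa [← mul_assoc, ← h3, show (k : O) * x - S.w0 + (1 - k) * x = x - S.w0 by ring] at h4
  refine ⟨h2, ?_, ?_, norm_nat_mul k x ▸ h1.2⟩
  · rintro rfl
    have : (0 : ℤ) < (S.T : ℤ) ^ 2 := by positivity
    simp at h1
    omega
  · obtain ⟨c, hc⟩ := norm_congr h2
    rw [show x.norm = S.w0.norm + S.F * c by linarith]
    exact ho.hw.add_mul_left_left c

end StepAux

open StepAux in
theorem stStep (hPull : StPull) (hPush : StPush) (hPack : StPack) : StStep := by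
  intro d P hP M ε hM hε
  obtain ⟨C, hC, hΨ⟩ := psi_le hPack d
  obtain ⟨-, -, -, b4⟩ := hP.big
  have hJ : (0 : ℝ) < P.J := by exact_mod_cast (by omega : 0 < P.J)
  obtain ⟨n₁, h1⟩ := hPull d P hP M (ε / 2) hM (by positivity)
  obtain ⟨n₂, h2⟩ := hPush d P hP M (ε / (6272 * C * P.J ^ 2)) hM (by positivity)
  obtain ⟨n, a1, a2, hn⟩ : ∃ n, n₁ ≤ n ∧ n₂ ≤ n ∧ 0 < n := ⟨n₁ + n₂ + 1, by omega⟩
  refine (((h1 n a1).and (h2 n a2)).and (Ev.of_eventually (d := d) (P := P) (Θ := fun w ρ =>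
    6 * n * (d.e * w.factorial * (d.e * w.factorial * w.factorial) * n.factorial) +
      5 * w.factorial + P.J + 2 ^ (P.E * P.A - 8 * P.a - P.A / 2 ^ (P.s + 4)) ≤ ρ) 0
    fun w _ => eventually_ge_atTop _)).mono ?_
  clear h1 h2
  rintro S rfl rfl ho ⟨⟨h1, h2⟩, -, hρ⟩ φ hφ k hk hk1 hk2
  change 6 * n * (S.F * S.Q * n.factorial) + 5 * S.W + S.P.J + 2 ^ S.n0 ≤ S.ρ at hρ
  have hρ2 : 2 ^ S.n0 ≤ S.ρ := le_of_add_le_right hρ
  replace hρ := le_of_add_le_left hρ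
  obtain ⟨Rs, hR⟩ := exists_mul S hn (by omega)
  replace h1 := h1 φ hφ k hk hk1 hk2 Rs hR
  replace h2 := h2 φ hφ Rs hR
  have hρ0 : 0 < S.ρ := by omega
  have hT : 0 < S.T := Nat.mul_pos S.W_pos (pow_pos hρ0 _)
  obtain ⟨hTN, hTF, hkl⟩ := scale hP (by omega) (by omega) hρ2
  replace hkl := (Nat.mul_le_mul_right _ hk2).trans hkl
  have hl0 : (0 : ℝ) < S.l := by
    have := Nat.mul_pos hk1 hρ0
    exact_mod_cast Nat.pos_of_mul_pos_left (this.trans_le hkl)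
  obtain ⟨r₀, hr₀, hmax⟩ := Rs.exists_max_image (fun r => S.Kk (cutI S.N φ) (k * r))
    (card_pos.1 (hR.1 ▸ hn))
  have hr := hR.2.1
  refine ⟨r₀, (hr r₀ hr₀).1.of_mul_right _, (hr r₀ hr₀).2.1, (hr r₀ hr₀).2.2, h1.trans ?_⟩
  set Ψ := S.d.Psi S.b S.F S.N (fun _ => 1) (cutI S.N φ)
  set c := S.d.cc S.N (cutI S.N φ)
  have hz : ∀ r ∈ Rs, ∀ z ∈ S.B.filter fun z => ((k * r : ℕ) : O) ∣ z,
      z = ((k * r : ℕ) : O) * dv (k * r) z := fun r h z hz => by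
    obtain ⟨x, rfl⟩ := (mem_filter.1 hz).2
    rw [dv_mul (Nat.mul_pos hk1 (hρ0.trans_le (hr r h).2.1))]
  have hq : ∀ r ∈ Rs, ∀ z ∈ S.B.filter fun z => ((k * r : ℕ) : O) ∣ z, _ := fun r h z hz' =>
    quot ho (by simpa using hk.mul ((hr r h).1.of_mul_right _)) (hz r h z hz' ▸ (mem_filter.1 hz').1) hT
  let X := Rs.biUnion fun r => (S.B.filter fun z => ((k * r : ℕ) : O) ∣ z).image (dv (k * r))
  have hX : ∀ x ∈ X, (S.F : O) ∣ x - S.w0 ∧ x ≠ 0 ∧ IsCoprime x.norm (S.F : ℤ) ∧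
      ((k * S.ρ : ℕ) : ℤ) ^ 2 * x.norm ≤ 9 * (S.T : ℤ) ^ 2 := fun x hx => by
    obtain ⟨r, h, hx⟩ := mem_biUnion.1 hx
    obtain ⟨z, hz', rfl⟩ := mem_image.1 hx
    obtain ⟨c1, c2, c3, c4⟩ := hq r h z hz'
    refine ⟨c1, c2, c3, le_trans ?_ c4⟩
    have := (hr r h).2.1
    have := norm_nonneg' (dv (k * r) z)
    gcongr
  have hXs : ∀ x ∈ X, sz x ≤ S.T := fun x hx => by
    have e3 : 5 ≤ k * S.ρ := le_trans (by omega) (Nat.le_mul_of_pos_left S.ρ hk1)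
    have e4 := (Nat.mul_le_mul_right _ e3).trans (sz_le (hX x hx).2.2.2)
    omega
  have hXc : ((k * S.ρ : ℕ) : ℝ) ^ 2 * X.card ≤ 196 * S.P.J ^ 2 * S.l ^ 2 := by
    exact_mod_cast (card_le' S.F_pos (Nat.mul_pos hk1 hρ0) hTF hkl S.w0 X fun x hx =>
      ⟨(hX x hx).1, (hX x hx).2.2.2⟩).trans_eq (by ring)
  have hN : 0 < S.N := by omega
  have key : ∀ r ∈ Rs, ((k * r : ℕ) : ℝ) ^ 2 / (S.l : ℝ) ^ 2 *
      ∑ z ∈ S.B.filter fun z => ((k * r : ℕ) : O) ∣ z, (Ψ (dv k z) - c) ^ 2 ≤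
      2 * S.Kk (cutI S.N φ) (k * r₀) + 16 * C * ((k * S.ρ : ℕ) : ℝ) ^ 2 / (S.l : ℝ) ^ 2 *
        ∑ x ∈ X, |Ψ ((r : O) * x) - Ψ x| := fun r h => by
    have e1 : ∀ z ∈ S.B.filter fun z => ((k * r : ℕ) : O) ∣ z, (Ψ (dv k z) - c) ^ 2 ≤
        2 * (Ψ (dv (k * r) z) - c) ^ 2 +
          4 * C * |Ψ ((r : O) * dv (k * r) z) - Ψ (dv (k * r) z)| := fun z hz' => by
      have f1 : z = (k : O) * ((r : O) * dv (k * r) z) := by
        rw [← mul_assoc, ← Nat.cast_mul]; exact hz r h z hz'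
      have f2 : dv (k * r) z ∈ X := mem_biUnion.2 ⟨r, h, mem_image_of_mem _ hz'⟩
      generalize dv (k * r) z = x at f1 f2
      obtain ⟨-, c2, c3, c4⟩ := quot ho hk (f1 ▸ (mem_filter.1 hz').1) hT
      have f3 : |Ψ ((r : O) * x)| ≤ C := hΨ _ _ _ φ _ S.F_pos hN hφ.1 c2 c3
        (((Nat.le_mul_of_pos_left _ hk1).trans (sz_le c4)).trans hTN)
      have f4 : |Ψ x| ≤ C := hΨ _ _ _ φ _ S.F_pos hN hφ.1 (hX x f2).2.1 (hX x f2).2.2.1
        ((hXs x f2).trans (by omega))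
      rw [f1, dv_mul hk1]
      exact sq_le f3 f4
    have e2 : ∑ z ∈ S.B.filter fun z => ((k * r : ℕ) : O) ∣ z,
        |Ψ ((r : O) * dv (k * r) z) - Ψ (dv (k * r) z)| ≤ ∑ x ∈ X, |Ψ ((r : O) * x) - Ψ x| := by
      rw [← sum_image (f := fun x => |Ψ ((r : O) * x) - Ψ x|) fun z hz1 z' hz2 e => by
        rw [hz r h z hz1, hz r h z' hz2, e]]
      exact sum_le_sum_of_subset_of_nonneg (subset_biUnion_of_mem (fun r =>
        (S.B.filter fun z => ((k * r : ℕ) : O) ∣ z).image (dv (k * r))) h) fun _ _ _ => abs_nonneg _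
    have e3 : ((k * r : ℕ) : ℝ) ≤ 2 * (k * S.ρ : ℕ) := by
      exact_mod_cast (Nat.mul_le_mul_left k (hr r h).2.2).trans_eq (by ring)
    have e4 := hmax r h
    refine (mul_le_mul_of_nonneg_left (sum_le_sum e1) (by positivity)).trans ?_
    rw [sum_add_distrib, ← mul_sum, ← mul_sum, mul_add, mul_left_comm]
    refine add_le_add (mul_le_mul_of_nonneg_left e4 zero_le_two) ?_
    calc _ ≤ (2 * ((k * S.ρ : ℕ) : ℝ)) ^ 2 / (S.l : ℝ) ^ 2 *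
          (4 * C * ∑ x ∈ X, |Ψ ((r : O) * x) - Ψ x|) := by gcongr
      _ = _ := by ring
  have hn' : (0 : ℝ) < n := by exact_mod_cast hn
  have e1 := sum_le_sum key
  rw [sum_add_distrib, sum_const, hR.1, nsmul_eq_mul, ← mul_sum, sum_comm] at e1
  have e2 := sum_le_card_nsmul X _ _ fun x hx => h2 x (hX x hx).2.1 (hX x hx).2.2.1 (hXs x hx)
  rw [nsmul_eq_mul] at e2
  have e3 : 16 * C * ((k * S.ρ : ℕ) : ℝ) ^ 2 / (S.l : ℝ) ^ 2 *
      (X.card * (ε / (6272 * C * S.P.J ^ 2) * n)) ≤ ε / 2 * n :=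
    calc _ = ((k * S.ρ : ℕ) : ℝ) ^ 2 * X.card * (ε * n / (392 * S.P.J ^ 2 * S.l ^ 2)) := by
          field_simp
          ring
      _ ≤ 196 * S.P.J ^ 2 * S.l ^ 2 * (ε * n / (392 * S.P.J ^ 2 * S.l ^ 2)) := by gcongr
      _ = _ := by
          field_simp
          ring
  have e4 := (div_le_iff₀ hn').2 ((e1.trans (add_le_add le_rfl
    ((mul_le_mul_of_nonneg_left e2 (by positivity)).trans e3))).trans_eq
      (show _ = (2 * S.Kk (cutI S.N φ) (k * r₀) + ε / 2) * n by ring))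
  linarith

end Pool.Agent.Lib.MP_7d3fda_nt.Q3
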