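import Pool.Agent.Lib.MP_7d3fda_nt.Q3.Basic

open Finset Filter
open scoped Classical NumberTheorySymbols

noncomputable section

namespace Pool.Agent.Lib.MP_7d3fda_nt.Q3

open Pool.Agent.Lib.MP_4b8564_nt Pool.Agent.Lib.MP_4b8564_nt.GT
open Pool.Agent.Lib.MP_0a3467_an.Cv (Low)
open Pool.Agent.Lib.MP_0a3467_an

/-! Structured functions are controlled by box averages. -/

namespace TBoxAux

theorem shift_le {s N H : ℕ} {b : Fin s → ℤ} (hb : ∑ r, |b r| * H ≤ N) {h : Fin s → ℕ}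
    (hh : h ∈ Fintype.piFinset fun _ : Fin s => range H) : |∑ r, b r * (h r : ℤ)| ≤ N := by
  refine (abs_sum_le_sum_abs _ _).trans (le_trans (sum_le_sum fun r _ => ?_) hb)
  have h1 : h r < H := mem_range.1 (Fintype.mem_piFinset.1 hh r)
  rw [abs_mul, Nat.abs_cast]
  exact mul_le_mul_of_nonneg_left (by exact_mod_cast h1.le) (abs_nonneg _)

theorem sum_shift {N : ℕ} {w : ℤ → ℝ} (hw : ∀ x, w x ≠ 0 → (N : ℤ) ≤ x ∧ x < 2 * N) {c : ℤ}
    (hc : |c| ≤ N) :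
    ∑ y ∈ Ico (0 : ℤ) (3 * N), w (y + c) = ∑ x ∈ Ico (N : ℤ) (2 * N), w x := by
  obtain ⟨h1, h2⟩ := abs_le.1 hc
  refine sum_bij_ne_zero (fun y _ _ => y + c) (fun y _ hy => mem_Ico.2 (hw _ hy))
    (fun y _ _ y' _ _ e => add_right_cancel e) (fun x _ hx => ?_) (fun _ _ _ => rfl)
  obtain ⟨h3, h4⟩ := hw x hx
  exact ⟨x - c, mem_Ico.2 ⟨by omega, by omega⟩, by simpa using hx, by ring⟩

/-- the box sum at a point -/
def Bx {s : ℕ} (H : ℕ) (b : Fin s → ℤ) (u : ℤ → ℝ) (x : ℤ) : ℝ :=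
  ∑ h ∈ Fintype.piFinset fun _ : Fin s => range H,
    ∑ h' ∈ Fintype.piFinset fun _ : Fin s => range H,
      ∏ ω : Finset (Fin s), u (x + ∑ r, b r * ((if r ∈ ω then h' r else h r : ℕ) : ℤ))

theorem boxN_eq {s N H : ℕ} {b : Fin s → ℤ} {u : ℤ → ℝ} (hb : ∑ r, |b r| * H ≤ N)
    (hu : ∀ x, u x ≠ 0 → (N : ℤ) ≤ x ∧ x < 2 * N) :
    boxN N u b (fun _ => H) =
      (∑ y ∈ Ico (0 : ℤ) (3 * N), Bx H b u y) / (N * ((H : ℝ) ^ s) ^ 2) := by
  have e : ∑ᶠ y, Bx H b u y = ∑ y ∈ Ico (0 : ℤ) (3 * N), Bx H b u y := by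
    refine finsum_eq_sum_of_support_subset _ fun y hy => ?_
    obtain ⟨h, hh, h1⟩ := exists_ne_zero_of_sum_ne_zero hy
    obtain ⟨h', -, h2⟩ := exists_ne_zero_of_sum_ne_zero h1
    have h3 := prod_ne_zero_iff.1 h2 ∅ (mem_univ _)
    simp only [notMem_empty, if_false] at h3
    obtain ⟨h4, h5⟩ := hu _ h3
    obtain ⟨h6, h7⟩ := abs_le.1 (shift_le hb hh)
    exact mem_coe.2 (mem_Ico.2 ⟨by omega, by omega⟩)
  rw [← e]
  simp only [boxN, Bx, prod_const, card_univ, Fintype.card_fin]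

theorem point (hBoxCS : StBoxCS) {s H : ℕ} (hs : 1 ≤ s) (hH : 0 < H) {b : Fin s → ℤ}
    (u : ℤ → ℝ) {φ : ℤ → ℝ} {M τ : ℝ} (hτ : 0 < τ) (hφ : LowDir b H M φ) (y : ℤ) :
    |∑ h ∈ Fintype.piFinset fun _ : Fin s => range H,
        u (y + ∑ r, b r * (h r : ℤ)) * φ (y + ∑ r, b r * (h r : ℤ))| ≤
      M * ((H : ℝ) ^ s * (τ + Bx H b u y / ((H : ℝ) ^ s) ^ 2 / τ ^ (2 ^ s - 1))) := by
  have : Nonempty (Fin s) := ⟨⟨0, hs⟩⟩
  have hK : (0 : ℝ) < (H : ℝ) ^ s := by positivity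
  refine hφ y (Fin s → ℕ) _ (fun h => u (y + ∑ r, b r * (h r : ℤ))) (fun h r => (h r : ℤ)) _
    (fun h hh r => ?_) fun F hF => ?_
  · have h1 : h r < H := mem_range.1 (Fintype.mem_piFinset.1 hh r)
    exact ⟨by omega, by omega⟩
  · have hA : AdmI fun (r : Fin s) (h : Fin s → ℕ) => F r fun r' => (h r' : ℤ) := by
      refine ⟨fun r h => hF.1 r _, fun r h a => ?_⟩
      have e : (fun r' => ((Function.update h r a r' : ℕ) : ℤ)) =
          Function.update (fun r' => (h r' : ℤ)) r (a : ℤ) :=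
        Function.comp_update (fun n : ℕ => (n : ℤ)) h r a
      show F r _ = F r _
      rw [e, hF.2]
    have h1 := hBoxCS (Fin s) ℕ (fun _ => range H) (fun h => u (y + ∑ r, b r * (h r : ℤ))) _ hA
    simp only [prod_const, card_univ, Fintype.card_fin, card_range] at h1
    have h2 : 2 ≤ 2 ^ s := by
      calc 2 = 2 ^ 1 := rfl
        _ ≤ 2 ^ s := Nat.pow_le_pow_right (by norm_num) hs
    rw [← div_le_iff₀' hK]
    refine le_of_pow_le (by omega) hτ (by positivity) ?_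
    rw [div_pow, div_le_div_iff₀ (by positivity) (by positivity)]
    calc _ ≤ ((H : ℝ) ^ s) ^ (2 ^ s - 2) * Bx H b u y * ((H : ℝ) ^ s) ^ 2 :=
          mul_le_mul_of_nonneg_right h1 (by positivity)
      _ = Bx H b u y * ((H : ℝ) ^ s) ^ (2 ^ s - 2 + 2) := by rw [pow_add]; ring
      _ = _ := by rw [Nat.sub_add_cancel h2]

end TBoxAux

open TBoxAux in
theorem stTBox (hBoxCS : StBoxCS) : StTBox := by
  intro s N H b u φ M τ hs hH hN hτ hb hu hφ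
  have hK : (0 : ℝ) < (H : ℝ) ^ s := by positivity
  have hN' : (0 : ℝ) < N := by exact_mod_cast hN
  have e1 : (H : ℝ) ^ s * ∑ x ∈ Ico (N : ℤ) (2 * N), u x * φ x =
      ∑ y ∈ Ico (0 : ℤ) (3 * N), ∑ h ∈ Fintype.piFinset fun _ : Fin s => range H,
        u (y + ∑ r, b r * (h r : ℤ)) * φ (y + ∑ r, b r * (h r : ℤ)) := by
    rw [sum_comm, sum_congr rfl fun h hh => sum_shift (w := fun x => u x * φ x)
      (fun x hx => hu x (left_ne_zero_of_mul hx)) (shift_le hb hh)]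
    simp
  have e2 : (H : ℝ) ^ s * |∑ x ∈ Ico (N : ℤ) (2 * N), u x * φ x| ≤
      ∑ y ∈ Ico (0 : ℤ) (3 * N),
        M * ((H : ℝ) ^ s * (τ + Bx H b u y / ((H : ℝ) ^ s) ^ 2 / τ ^ (2 ^ s - 1))) := by
    rw [← abs_of_pos hK, ← abs_mul, abs_of_pos hK, e1]
    exact (abs_sum_le_sum_abs _ _).trans (sum_le_sum fun y _ => point hBoxCS hs hH u hτ hφ y)
  have e3 : ((Ico (0 : ℤ) (3 * N)).card : ℝ) = 3 * N := by
    rw [Int.card_Ico, sub_zero, show (3 * (N : ℤ)) = ((3 * N : ℕ) : ℤ) by push_cast; rfl,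
      Int.toNat_natCast]
    push_cast; rfl
  rw [← mul_sum, ← mul_sum, sum_add_distrib, sum_const, nsmul_eq_mul, e3, ← sum_div,
    ← sum_div, mul_left_comm] at e2
  rw [avI, abs_div, abs_of_pos hN', boxN_eq hb hu, div_le_iff₀ hN']
  refine (le_of_mul_le_mul_left e2 hK).trans (le_of_eq ?_)
  field_simp

end Pool.Agent.Lib.MP_7d3fda_nt.Q3
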