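import Pool.Agent.Lib.MP_7d3fda_nt.Q3.Dns

open Finset Filter
open scoped Classical NumberTheorySymbols

noncomputable section

namespace Pool.Agent.Lib.MP_7d3fda_nt.Q3

open Pool.Agent.Lib.MP_4b8564_nt Pool.Agent.Lib.MP_4b8564_nt.GT
open Pool.Agent.Lib.MP_0a3467_an.Cv (Low)
open Pool.Agent.Lib.MP_0a3467_an

namespace TopAAux

theorem supp {d : Dat} {b F N : ℕ} {φ : ℤ → ℝ} {u : O} (h : d.Fz b F (cutI N φ) u ≠ 0)
    (j : Fin 6) : (N : ℤ) ≤ d.nn b F j u ∧ d.nn b F j u < 2 * N := by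
  have h1 := prod_ne_zero_iff.1 h j (mem_univ j)
  by_contra h2
  exact h1 (if_neg h2)

theorem abs_Fz {d : Dat} {b F N : ℕ} {φ : ℤ → ℝ} (hφ : ∀ x, |φ x| ≤ 1) (u : O) :
    |d.Fz b F (cutI N φ) u| ≤ 1 := by
  rw [Dat.Fz, Finset.abs_prod]
  refine prod_le_one (fun _ _ => abs_nonneg _) fun j _ => ?_
  unfold cutI
  split_ifs
  · exact hφ _
  · simp

/-- the size of an element all of whose reduced values lie in `[N, 2 N)` -/
theorem size0 (d : Dat) {b F N : ℕ} {A : ℤ} {u : O} (hF0 : 0 < F) (hb : b < F) (he : d.e ≤ N)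
    (hA : (F : ℤ) * N = d.e * A) (hF : (F : O) ∣ u - b)
    (hn : ∀ j, (N : ℤ) ≤ d.nn b F j u ∧ d.nn b F j u < 2 * N) :
    3 * A ^ 2 ≤ (d.C : ℤ) ^ 2 * u.norm ∧ u.norm ≤ 7 * (d.C : ℤ) ^ 2 * A ^ 2 := by
  have e0 := d.lam_eq hF0 0 hF
  have e1 := d.lam_eq hF0 1 hF
  obtain ⟨a0, b0⟩ := hn 0
  obtain ⟨a1, b1⟩ := hn 1
  have he1 : (1 : ℤ) ≤ d.e := by exact_mod_cast d.he
  have hF1 : (0 : ℤ) < F := by exact_mod_cast hF0
  have hb0 : (0 : ℤ) ≤ b := Int.natCast_nonneg _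
  have hb1 : (b : ℤ) ≤ F := by exact_mod_cast hb.le
  have he2 : (d.e : ℤ) ≤ N := by exact_mod_cast he
  have hA0 : 0 ≤ A := by
    have h1 : 0 ≤ (d.e : ℤ) * A := hA ▸ by positivity
    exact (mul_nonneg_iff_of_pos_left (by omega)).1 h1
  have l0 : d.e * A ≤ d.lam 0 u := by
    rw [e0, ← hA]
    nlinarith [mul_le_mul_of_nonneg_left a0 hF1.le, mul_nonneg (by omega : (0 : ℤ) ≤ d.e) hb0]
  have l1 : d.lam 0 u ≤ 3 * (d.e * A) := by
    rw [e0, ← hA]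
    have h1 : (d.e : ℤ) * b ≤ N * F := mul_le_mul he2 hb1 hb0 (by omega)
    nlinarith [mul_le_mul_of_nonneg_left b0.le hF1.le]
  have hC := d.c_le 0
  have hC3 : (3 : ℤ) ≤ d.C := by exact_mod_cast d.three_le_C
  constructor
  · have h1 := d.lam_sq 0 u
    have h2 := mul_le_mul_of_nonneg_right (d.norm_ker_le 0) (norm_nonneg' u)
    have h3 : A ≤ d.lam 0 u := by nlinarith
    nlinarith [sq_nonneg (d.lam 0 (u * Zsqrtd.sqrtd)), pow_le_pow_left₀ hA0 h3 2]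
  · have hd : (d.c 0 - d.c 1) * u.im = F * (d.nn b F 0 u - d.nn b F 1 u) := by
      have : d.lam 0 u - d.lam 1 u = (d.c 0 - d.c 1) * u.im := by simp only [Dat.lam]; ring
      rw [← this, e0, e1]; ring
    have hc : 1 ≤ |d.c 0 - d.c 1| :=
      Int.one_le_abs (sub_ne_zero.2 fun h2 => absurd (d.hc h2) (by decide))
    have him : |u.im| ≤ d.e * A := by
      have h1 : |d.c 0 - d.c 1| * |u.im| = F * |d.nn b F 0 u - d.nn b F 1 u| := by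
        rw [← abs_mul, hd, abs_mul, abs_of_pos hF1]
      have h2 : |d.nn b F 0 u - d.nn b F 1 u| ≤ N := abs_le.2 ⟨by omega, by omega⟩
      have h3 := mul_le_mul_of_nonneg_left h2 hF1.le
      nlinarith [abs_nonneg u.im]
    have hre : |u.re| ≤ 2 * d.C * A := by
      have h1 : (d.e : ℤ) * u.re = d.lam 0 u - d.c 0 * u.im := by simp only [Dat.lam]; ring
      have h2 : (d.e : ℤ) * |u.re| ≤ 3 * (d.e * A) + |d.c 0| * (d.e * A) := by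
        have h3 : |(d.e : ℤ) * u.re| ≤ |d.lam 0 u| + |d.c 0 * u.im| := h1 ▸ abs_sub _ _
        rw [abs_mul, abs_mul, abs_of_nonneg (by omega : (0 : ℤ) ≤ d.e),
          abs_of_nonneg (le_trans (by positivity) l0)] at h3
        nlinarith [mul_le_mul_of_nonneg_left him (abs_nonneg (d.c 0))]
      have h4 : |u.re| ≤ (3 + |d.c 0|) * A :=
        le_of_mul_le_mul_left (a := (d.e : ℤ)) (by nlinarith) (by omega)
      nlinarith
    have him' : |u.im| ≤ d.C * A := him.trans (mul_le_mul_of_nonneg_right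
      (by linarith [abs_nonneg (d.c 0)]) hA0)
    rw [norm_eq, ← sq_abs u.re, ← sq_abs u.im]
    have p1 := pow_le_pow_left₀ (abs_nonneg _) hre 2
    have p2 := pow_le_pow_left₀ (abs_nonneg _) him' 2
    calc |u.re| ^ 2 + 3 * |u.im| ^ 2 ≤ (2 * d.C * A) ^ 2 + 3 * (d.C * A) ^ 2 := by omega
      _ = 7 * (d.C : ℤ) ^ 2 * A ^ 2 := by ring

theorem size {S : Sc} (hP : S.P.Ok S.d) (hok : S.Ok) (hρ : 0 < S.ρ) (he : S.d.e ≤ S.N) {z g : O}
    (hz : z ∈ S.B) (hF : (S.F : O) ∣ g * z - S.b)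
    (hn : ∀ j, (S.N : ℤ) ≤ S.d.nn S.b S.F j (g * z) ∧ S.d.nn S.b S.F j (g * z) < 2 * S.N) :
    (S.G : ℤ) ^ 2 ≤ 9 * (S.d.C : ℤ) ^ 2 * g.norm ∧
      g.norm ≤ 400 * (S.d.C : ℤ) ^ 2 * (S.G : ℤ) ^ 2 := by
  have hTG : (S.T : ℤ) * S.G = S.W * S.N := by exact_mod_cast Sc.TG hP
  have hA : (S.F : ℤ) * S.N = S.d.e * ((S.T : ℤ) * S.G) := by
    rw [hTG, S.F_eq]; push_cast; ring
  obtain ⟨h1, h2⟩ := size0 S.d S.F_pos hok.hb he hA hF hn
  obtain ⟨h3, h4⟩ := hok.lo z hz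
  have hT : (0 : ℤ) < (S.T : ℤ) ^ 2 := by
    have : 0 < S.T := Nat.mul_pos S.W_pos (pow_pos hρ _)
    positivity
  rw [Zsqrtd.norm_mul] at h1 h2
  have hg := norm_nonneg' g
  have hC : (0 : ℤ) ≤ (S.d.C : ℤ) ^ 2 := sq_nonneg _
  constructor
  · refine le_of_mul_le_mul_right ?_ hT
    have h5 := mul_le_mul_of_nonneg_left h4 (mul_nonneg hC hg)
    nlinarith [mul_nonneg hT.le (sq_nonneg (S.G : ℤ))]
  · refine le_of_mul_le_mul_right ?_ hT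
    have h5 := mul_le_mul_of_nonneg_left h3 hg
    nlinarith [mul_nonneg (mul_nonneg hT.le (sq_nonneg (S.G : ℤ))) hC]

theorem mem_box {X L : ℕ} {γ : O} (hL : 2 * X + 1 ≤ L) (h1 : |γ.re| ≤ X) (h2 : |γ.im| ≤ X) :
    γ ∈ cbx 1 ⟨-(X : ℤ), -(X : ℤ)⟩ L := by
  obtain ⟨a1, a2⟩ := abs_le.1 h1
  obtain ⟨b1, b2⟩ := abs_le.1 h2
  refine mem_cbx.2 ⟨((γ.re + X).toNat, (γ.im + X).toNat), by omega, by omega, ?_⟩
  ext
  · simp only [em, Nat.cast_one, one_mul, Zsqrtd.re_add]; omega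
  · simp only [em, Nat.cast_one, one_mul, Zsqrtd.im_add]; omega

theorem coord_le {X : ℕ} {γ : O} (h : γ.norm < ((X : ℤ) + 1) ^ 2) : |γ.re| ≤ X ∧ |γ.im| ≤ X := by
  rw [norm_eq] at h
  have h0 : (0 : ℤ) ≤ (X : ℤ) + 1 := by positivity
  constructor
  · exact Int.lt_add_one_iff.1 (abs_lt_of_sq_lt_sq (by nlinarith [sq_nonneg γ.im]) h0)
  · exact Int.lt_add_one_iff.1
      (abs_lt_of_sq_lt_sq (by nlinarith [sq_nonneg γ.re, sq_nonneg γ.im]) h0)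

theorem card_dvd {X y p : ℕ} (hy : 0 < y) (hX : y ≤ X) (hp : p.Prime) (hyp : y < p) :
    (((cbx 1 ⟨-(X : ℤ), -(X : ℤ)⟩ (2 * X + 1)).filter fun γ => (p : ℤ) ∣ γ.norm).card : ℝ) ≤
      36 * (X : ℝ) ^ 2 / y := by
  have h1 := bav_norm (L := 2 * X + 1) (F := 1) (by omega) hp
    (fun h => hp.one_lt.ne' (Nat.dvd_one.1 h)) ⟨-(X : ℤ), -(X : ℤ)⟩
  rw [← sum_cbx_bav Nat.one_pos _ _ fun γ : O => if (p : ℤ) ∣ γ.norm then (1 : ℝ) else 0,
    sum_boole, div_le_iff₀ (by positivity)] at h1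
  refine h1.trans ?_
  have hy' : (0 : ℝ) < y := by exact_mod_cast hy
  have a1 : (2 : ℝ) / p ≤ 2 / y := by gcongr
  have a2 : (2 : ℝ) / ((2 * X + 1 : ℕ) : ℝ) ≤ 2 / y := by
    gcongr
    omega
  have a3 : ((2 * X + 1 : ℕ) : ℝ) ≤ 3 * X := by
    have : 2 * X + 1 ≤ 3 * X := by omega
    exact_mod_cast this
  calc (2 / (p : ℝ) + 2 / ((2 * X + 1 : ℕ) : ℝ)) * ((2 * X + 1 : ℕ) : ℝ) ^ 2
      ≤ (2 / y + 2 / y) * (3 * X) ^ 2 := by gcongr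
    _ = 36 * (X : ℝ) ^ 2 / y := by ring

theorem card_pf {n y : ℕ} (hy : 2 ≤ y) (hn : n ≠ 0) (h : ∀ p, p.Prime → p ∣ n → y < p)
    (hle : n ≤ y ^ 32) : n.primeFactors.card ≤ 32 := by
  have h1 : y ^ n.primeFactors.card ≤ ∏ p ∈ n.primeFactors, p :=
    pow_card_le_prod _ _ _ fun p hp =>
      (h p (Nat.prime_of_mem_primeFactors hp) (Nat.dvd_of_mem_primeFactors hp)).le
  have h2 := Nat.le_of_dvd (Nat.pos_of_ne_zero hn) (Nat.prod_primeFactors_dvd n)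
  exact (Nat.pow_le_pow_iff_right (by omega)).1 (h1.trans (h2.trans hle))

/-- the elements whose product with a pool element has a square factor -/
theorem bad_card {C : ℝ} (hC : ∀ (X y : ℕ) (Z : Finset O), 1 ≤ X → 3 ≤ y →
      (∀ γ ∈ Z, γ ≠ 0 ∧ |γ.re| ≤ X ∧ |γ.im| ≤ X ∧
        ∃ p : ℕ, p.Prime ∧ y < p ∧ (p : ℤ) ^ 2 ∣ γ.norm) → (Z.card : ℝ) ≤ C * (X : ℝ) ^ 2 / y)
    {X y : ℕ} (hy : 3 ≤ y) (hX : y ≤ X) {γ0 : O} (h1 : Squarefree γ0.norm.natAbs)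
    (h2 : ∀ p : ℕ, p.Prime → (p : ℤ) ∣ γ0.norm → y < p) (h3 : γ0.norm ≤ (y : ℤ) ^ 32)
    (Z : Finset O) (hZ : ∀ γ ∈ Z, γ ≠ 0 ∧ |γ.re| ≤ X ∧ |γ.im| ≤ X ∧
      (∀ p : ℕ, p.Prime → (p : ℤ) ∣ γ.norm → y < p) ∧ ¬Squarefree (γ0 * γ).norm.natAbs) :
    (Z.card : ℝ) ≤ (|C| + 1152) * (X : ℝ) ^ 2 / y := by
  set ZA := Z.filter fun γ => ∃ p : ℕ, p.Prime ∧ y < p ∧ (p : ℤ) ^ 2 ∣ γ.norm with hZA
  set ZB := γ0.norm.natAbs.primeFactors.biUnion fun p =>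
    (cbx 1 ⟨-(X : ℤ), -(X : ℤ)⟩ (2 * X + 1)).filter fun γ => (p : ℤ) ∣ γ.norm with hZB
  have hsub : Z ⊆ ZA ∪ ZB := by
    intro γ hγ
    obtain ⟨-, a1, a2, a3, a4⟩ := hZ γ hγ
    rw [Nat.squarefree_iff_prime_squarefree, Zsqrtd.norm_mul, Int.natAbs_mul] at a4
    push Not at a4
    obtain ⟨p, hp, hd⟩ := a4
    by_cases h0 : p ∣ γ0.norm.natAbs
    · refine mem_union_right _ (mem_biUnion.2 ⟨p, Nat.mem_primeFactors.2 ⟨hp, h0, h1.ne_zero⟩,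
        mem_filter.2 ⟨mem_box le_rfl a1 a2, ?_⟩⟩)
      by_contra h5
      have h6 : (p * p).Coprime γ.norm.natAbs := by
        have := (Nat.Prime.coprime_iff_not_dvd hp).2 fun h => h5 (Int.natCast_dvd.2 h)
        exact Nat.Coprime.mul_left this this
      exact Nat.squarefree_iff_prime_squarefree.1 h1 p hp (h6.dvd_of_dvd_mul_right hd)
    · have h6 : (p * p).Coprime γ0.norm.natAbs := by
        have := (Nat.Prime.coprime_iff_not_dvd hp).2 h0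
        exact Nat.Coprime.mul_left this this
      have h7 := h6.dvd_of_dvd_mul_left hd
      refine mem_union_left _ (mem_filter.2 ⟨hγ, p, hp,
        a3 p hp (Int.natCast_dvd.2 ((Dvd.intro _ rfl).trans h7)), ?_⟩)
      have := Int.natCast_dvd.2 h7
      rwa [Nat.cast_mul, ← sq] at this
  have hy' : (0 : ℝ) < y := by exact_mod_cast (by omega : 0 < y)
  have hA : (ZA.card : ℝ) ≤ |C| * (X : ℝ) ^ 2 / y := by
    refine (hC X y ZA (by omega) hy fun γ hγ => ?_).trans (by gcongr; exact le_abs_self C)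
    obtain ⟨b1, b2⟩ := mem_filter.1 hγ
    obtain ⟨a0, a1, a2, -⟩ := hZ γ b1
    exact ⟨a0, a1, a2, b2⟩
  have hpf : γ0.norm.natAbs.primeFactors.card ≤ 32 := by
    refine card_pf (y := y) (by omega) h1.ne_zero (fun p hp h => h2 p hp (Int.natCast_dvd.2 h)) ?_
    have : ((γ0.norm.natAbs : ℕ) : ℤ) ≤ ((y ^ 32 : ℕ) : ℤ) := by
      rw [Int.natAbs_of_nonneg (norm_nonneg' _)]; exact_mod_cast h3
    exact_mod_cast this
  have hB : (ZB.card : ℝ) ≤ 32 * (36 * (X : ℝ) ^ 2 / y) := by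
    have b1 : (ZB.card : ℝ) ≤ ∑ p ∈ γ0.norm.natAbs.primeFactors,
        (((cbx 1 ⟨-(X : ℤ), -(X : ℤ)⟩ (2 * X + 1)).filter fun γ => (p : ℤ) ∣ γ.norm).card : ℝ) := by
      exact_mod_cast card_biUnion_le
    refine b1.trans ((sum_le_card_nsmul _ _ (36 * (X : ℝ) ^ 2 / y) fun p hp => ?_).trans ?_)
    · have hp' := Nat.prime_of_mem_primeFactors hp
      exact card_dvd (by omega) hX hp'
        (h2 p hp' (Int.natCast_dvd.2 (Nat.dvd_of_mem_primeFactors hp)))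
    · rw [nsmul_eq_mul]
      gcongr
      exact_mod_cast hpf
  have hU : (Z.card : ℝ) ≤ ZA.card + ZB.card := by
    exact_mod_cast (card_le_card hsub).trans (card_union_le _ _)
  calc (Z.card : ℝ) ≤ |C| * (X : ℝ) ^ 2 / y + 32 * (36 * (X : ℝ) ^ 2 / y) := by linarith
    _ = (|C| + 1152) * (X : ℝ) ^ 2 / y := by ring

/-- one element of the pool -/
theorem one {S : Sc} (hP : S.P.Ok S.d) (hok : S.Ok) (hρ : 0 < S.ρ) (he : S.d.e ≤ S.N)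
    {K : ℝ} (hK : ∀ (X : ℕ) (γ0 : O), S.y ≤ X → γ0 ∈ S.P0 → ∀ Z : Finset O,
      (∀ γ ∈ Z, γ ≠ 0 ∧ |γ.re| ≤ X ∧ |γ.im| ≤ X ∧
        (∀ p : ℕ, p.Prime → (p : ℤ) ∣ γ.norm → S.y < p) ∧ ¬Squarefree (γ0 * γ).norm.natAbs) →
      (Z.card : ℝ) ≤ K * (X : ℝ) ^ 2 / S.y) (hK0 : 0 ≤ K) (hyG : S.y ^ 34 ≤ S.G ^ 2)
    (hs : 0 ≤ SS S.w S.y) {φ : ℤ → ℝ} (hφ : ∀ x, |φ x| ≤ 1) {z γ0 : O} (hz : z ∈ S.B)
    (h0 : γ0 ∈ S.P0) :
    |SS S.w S.y * (∑ γ ∈ cbx 1 ⟨-(20 * S.d.C * S.G : ℕ), -(20 * S.d.C * S.G : ℕ)⟩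
          (40 * S.d.C * S.G + 1), if S.Fr (γ0 * γ) then S.Fz (cutI S.N φ) (γ0 * γ * z) else 0) -
        (∑ᶠ γ : O, if (S.F : O) ∣ γ * (γ0 * z) - S.b then
          1 * S.d.Fz S.b S.F (cutI S.N φ) (γ * (γ0 * z)) else 0) -
        ∑ᶠ γ : O, if (S.F : O) ∣ γ * (γ0 * z) - S.b then
          ((if Rough S.w S.y γ then SS S.w S.y else 0) - 1) *
            S.d.Fz S.b S.F (cutI S.N φ) (γ * (γ0 * z)) else 0| ≤
      SS S.w S.y * (K * (400 * (S.d.C : ℝ) ^ 2 * (S.G : ℝ) ^ 2 / γ0.norm) / S.y) := by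
  set Bx := cbx 1 (⟨-(20 * S.d.C * S.G : ℕ), -(20 * S.d.C * S.G : ℕ)⟩ : O) (40 * S.d.C * S.G + 1)
    with hBx
  have hsq := hok.po.sqf γ0 h0
  have hn0 : 0 < γ0.norm := (norm_nonneg' γ0).lt_of_ne fun h => hsq.ne_zero (by rw [← h]; rfl)
  have hG : 0 < S.G := pow_pos hρ _
  have hx : ∀ γ : O, γ0 * γ * z = γ * (γ0 * z) := fun γ => by ring
  have hsz : ∀ γ : O, (S.F : O) ∣ γ * (γ0 * z) - S.b →
      S.d.Fz S.b S.F (cutI S.N φ) (γ * (γ0 * z)) ≠ 0 →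
      (S.G : ℤ) ^ 2 ≤ 9 * (S.d.C : ℤ) ^ 2 * (γ0 * γ).norm ∧
        (γ0 * γ).norm ≤ 400 * (S.d.C : ℤ) ^ 2 * (S.G : ℤ) ^ 2 := fun γ h1 h2 =>
    size hP hok hρ he hz (by rwa [hx]) fun j => by rw [hx]; exact supp h2 j
  have hfin : ∀ V : O → ℝ, (∑ᶠ γ : O, if (S.F : O) ∣ γ * (γ0 * z) - S.b then
      V γ * S.d.Fz S.b S.F (cutI S.N φ) (γ * (γ0 * z)) else 0) =
      ∑ γ ∈ Bx, if (S.F : O) ∣ γ * (γ0 * z) - S.b then
        V γ * S.d.Fz S.b S.F (cutI S.N φ) (γ * (γ0 * z)) else 0 := by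
    intro V
    refine finsum_eq_sum_of_support_subset _ fun γ hγ => ?_
    rw [Function.mem_support] at hγ
    have h1 : (S.F : O) ∣ γ * (γ0 * z) - S.b := by
      by_contra h
      exact hγ (if_neg h)
    rw [if_pos h1] at hγ
    have h2 := (hsz γ h1 (right_ne_zero_of_mul hγ)).2
    rw [Zsqrtd.norm_mul] at h2
    have h3 : γ.norm < (((20 * S.d.C * S.G : ℕ) : ℤ) + 1) ^ 2 := by
      have a1 : γ.norm ≤ γ0.norm * γ.norm := le_mul_of_one_le_left (norm_nonneg' γ) hn0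
      have a2 : (((20 * S.d.C * S.G : ℕ) : ℤ)) ^ 2 = 400 * (S.d.C : ℤ) ^ 2 * (S.G : ℤ) ^ 2 := by
        push_cast; ring
      have a3 : (0 : ℤ) ≤ ((20 * S.d.C * S.G : ℕ) : ℤ) := Int.natCast_nonneg _
      nlinarith
    exact mem_coe.2 (mem_box (le_of_eq (by ring)) (coord_le h3).1 (coord_le h3).2)
  have hzw := S.mem_B_congr hz
  have hcg : ∀ γ : O, (S.F : O) ∣ γ0 * γ * S.w0 - S.b ↔ (S.F : O) ∣ γ * (γ0 * z) - S.b := by
    intro γ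
    have : γ * (γ0 * z) - S.b = γ0 * γ * S.w0 - S.b + γ0 * γ * (z - S.w0) := by ring
    rw [this]
    exact (dvd_add_left (hzw.mul_left _)).symm
  have hro : ∀ γ : O, Rough S.w S.y (γ0 * γ) ↔ Rough S.w S.y γ := by
    intro γ
    refine forall₂_congr fun p hp => not_congr ?_
    obtain ⟨hp1, hp2⟩ := mem_filter.1 hp
    rw [Zsqrtd.norm_mul]
    refine ⟨fun h => ?_, fun h => h.mul_left _⟩
    refine ((Nat.prime_iff_prime_int.1 hp2).dvd_or_dvd h).resolve_left fun h' => ?_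
    have := hok.po.pr γ0 h0 p hp2 h'
    have := (mem_Ioc.1 hp1).2
    omega
  set Z := Bx.filter fun γ => (S.F : O) ∣ γ * (γ0 * z) - S.b ∧
    S.d.Fz S.b S.F (cutI S.N φ) (γ * (γ0 * z)) ≠ 0 ∧ Rough S.w S.y γ ∧
      ¬Squarefree (γ0 * γ).norm.natAbs with hZ
  have hpt : ∀ γ ∈ Bx, |SS S.w S.y *
        (if S.Fr (γ0 * γ) then S.Fz (cutI S.N φ) (γ0 * γ * z) else 0) -
      (if (S.F : O) ∣ γ * (γ0 * z) - S.b then
        1 * S.d.Fz S.b S.F (cutI S.N φ) (γ * (γ0 * z)) else 0) -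
      (if (S.F : O) ∣ γ * (γ0 * z) - S.b then
        ((if Rough S.w S.y γ then SS S.w S.y else 0) - 1) *
          S.d.Fz S.b S.F (cutI S.N φ) (γ * (γ0 * z)) else 0)| ≤
      SS S.w S.y * if γ ∈ Z then 1 else 0 := by
    intro γ hγ
    have hr : 0 ≤ SS S.w S.y * if γ ∈ Z then (1 : ℝ) else 0 := by positivity
    rw [Sc.Fz, hx]
    by_cases c0 : S.d.Fz S.b S.F (cutI S.N φ) (γ * (γ0 * z)) = 0
    · simpa [c0] using hr
    by_cases c1 : (S.F : O) ∣ γ * (γ0 * z) - S.b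
    swap
    · rw [if_neg c1, if_neg c1, if_neg fun h : S.Fr _ => c1 ((hcg γ).1 h.1)]
      simpa using hr
    rw [if_pos c1, if_pos c1]
    by_cases c2 : Rough S.w S.y γ
    swap
    · rw [if_neg c2, if_neg fun h : S.Fr _ => c2 ((hro γ).1 h.2.1)]
      simpa using hr
    rw [if_pos c2]
    by_cases c3 : Squarefree (γ0 * γ).norm.natAbs
    · have c4 : S.Fr (γ0 * γ) := ⟨(hcg γ).2 c1, (hro γ).2 c2, c3, hsz γ c1 c0⟩
      rw [if_pos c4]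
      refine le_trans (le_of_eq ?_) hr
      rw [abs_eq_zero]; ring
    · have c4 : γ ∈ Z := mem_filter.2 ⟨hγ, c1, c0, c2, c3⟩
      rw [if_neg fun h : S.Fr _ => c3 h.2.2.1, if_pos c4]
      have := abs_Fz (d := S.d) (b := S.b) (F := S.F) (N := S.N) hφ (γ * (γ0 * z))
      calc _ = SS S.w S.y * |S.d.Fz S.b S.F (cutI S.N φ) (γ * (γ0 * z))| := by
            rw [← abs_of_nonneg hs, ← abs_mul, abs_of_nonneg hs, ← abs_neg]
            congr 1; ring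
        _ ≤ SS S.w S.y * 1 := by gcongr
  rw [hfin fun _ => 1, hfin fun γ => (if Rough S.w S.y γ then SS S.w S.y else 0) - 1, mul_sum,
    ← sum_sub_distrib, ← sum_sub_distrib]
  refine (abs_sum_le_sum_abs _ _).trans ((sum_le_sum hpt).trans ?_)
  rw [← mul_sum, sum_boole, filter_mem_eq_inter, inter_eq_right.2 (filter_subset _ _)]
  refine mul_le_mul_of_nonneg_left ?_ hs
  set n := γ0.norm.natAbs with hn
  have hnn : (n : ℤ) = γ0.norm := Int.natAbs_of_nonneg hn0.le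
  have hn1 : 0 < n := by omega
  set X := Nat.sqrt (400 * S.d.C ^ 2 * S.G ^ 2 / n) with hX
  have hC3 := S.d.three_le_C
  have hyX : S.y ≤ X := by
    rw [hX, Nat.le_sqrt', Nat.le_div_iff_mul_le hn1]
    have a1 : n ≤ S.y ^ 32 := by
      have := hok.po.le γ0 h0
      rw [← hnn] at this
      exact_mod_cast this
    calc S.y ^ 2 * n ≤ S.y ^ 2 * S.y ^ 32 := Nat.mul_le_mul_left _ a1
      _ = S.y ^ 34 := by ring
      _ ≤ S.G ^ 2 := hyG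
      _ ≤ 400 * S.d.C ^ 2 * S.G ^ 2 := Nat.le_mul_of_pos_left _ (by positivity)
  have hcard := hK X γ0 hyX h0 Z fun γ hγ => by
    obtain ⟨-, c1, c0, c2, c3⟩ := mem_filter.1 hγ
    obtain ⟨s1, s2⟩ := hsz γ c1 c0
    rw [Zsqrtd.norm_mul] at s1 s2
    have hg := norm_nonneg' γ
    have h3 : γ.norm < ((X : ℤ) + 1) ^ 2 := by
      have a1 : γ.norm.natAbs ≤ 400 * S.d.C ^ 2 * S.G ^ 2 / n := by
        rw [Nat.le_div_iff_mul_le hn1]
        have : ((γ.norm.natAbs * n : ℕ) : ℤ) ≤ ((400 * S.d.C ^ 2 * S.G ^ 2 : ℕ) : ℤ) := by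
          push_cast
          rw [abs_of_nonneg hg, hnn, mul_comm]; exact s2
        exact_mod_cast this
      have a2 : γ.norm.natAbs < (X + 1) ^ 2 := a1.trans_lt (Nat.lt_succ_sqrt' _)
      have a3 : ((γ.norm.natAbs : ℕ) : ℤ) < (((X + 1) ^ 2 : ℕ) : ℤ) := by exact_mod_cast a2
      rwa [Int.natAbs_of_nonneg hg, Nat.cast_pow, Nat.cast_succ] at a3
    refine ⟨fun h => ?_, (coord_le h3).1, (coord_le h3).2, fun p hp hd => ?_, c3⟩
    · rw [h, Zsqrtd.norm_zero, mul_zero, mul_zero] at s1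
      have : (0 : ℤ) < (S.G : ℤ) ^ 2 := by positivity
      omega
    · by_contra hyp
      by_cases hw : p ≤ S.w
      · have b1 : (p : ℤ) ∣ (S.F : ℤ) := Int.natCast_dvd_natCast.2 (S.dvd_F hp.pos hw)
        have b2 := b1.trans (norm_congr c1)
        rw [Zsqrtd.norm_mul, Zsqrtd.norm_natCast] at b2
        have b3 : (p : ℤ) ∣ (S.b : ℤ) * S.b := (dvd_sub_right (hd.mul_right _)).1 b2
        have b4 : p ∣ S.b := by
          have : p ∣ S.b * S.b := by exact_mod_cast b3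
          exact (hp.dvd_mul.1 this).elim id id
        exact hp.one_lt.ne' (Nat.eq_one_of_dvd_coprimes hok.hbc b4 (S.dvd_F hp.pos hw))
      · exact c2 p (mem_filter.2 ⟨mem_Ioc.2 ⟨by omega, by omega⟩, hp⟩) hd
  refine hcard.trans ?_
  have hX2 : (X : ℝ) ^ 2 ≤ 400 * (S.d.C : ℝ) ^ 2 * (S.G : ℝ) ^ 2 / γ0.norm := by
    have a1 : X ^ 2 * n ≤ 400 * S.d.C ^ 2 * S.G ^ 2 :=
      (Nat.le_div_iff_mul_le hn1).1 (Nat.sqrt_le' _)
    rw [le_div_iff₀ (by exact_mod_cast hn0), ← hnn]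
    exact_mod_cast a1
  gcongr

/-- the hypotheses of the structured sum -/
theorem sizes {S : Sc} (hP : S.P.Ok S.d) (hok : S.Ok) (hρ : 1 ≤ S.ρ) (hy : S.y ≤ S.ρ)
    (h1 : 15 * S.d.C * S.W ≤ S.ρ) {z γ0 : O} (hz : z ∈ S.B) (h0 : γ0 ∈ S.P0) :
    3 * S.d.C * sz (γ0 * z) * S.ρ ^ S.P.a ≤ S.D ∧ sz (γ0 * z) ≤ S.D ∧
      S.ρ ^ 3 * S.D ≤ S.N := by
  obtain ⟨b1, b2, b3, -⟩ := hP.big
  have a1 : sz (γ0 * z) ≤ 5 * S.ρ ^ 16 * S.T := by
    have c1 := sz_le_norm (γ0 * z)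
    rw [Zsqrtd.norm_mul] at c1
    have c2 : γ0.norm ≤ (S.ρ : ℤ) ^ 32 :=
      (hok.po.le γ0 h0).trans (pow_le_pow_left₀ (by positivity) (by exact_mod_cast hy) 32)
    have c3 := mul_le_mul c2 (hok.lo z hz).2 (norm_nonneg' z) (by positivity)
    have c4 : (sz (γ0 * z) : ℤ) ^ 2 ≤ (5 * (S.ρ : ℤ) ^ 16 * S.T) ^ 2 := by
      have c5 : (5 * (S.ρ : ℤ) ^ 16 * S.T) ^ 2 = 25 * ((S.ρ : ℤ) ^ 32 * (S.T : ℤ) ^ 2) := by ring
      have c6 : (S.ρ : ℤ) ^ 32 * (9 * (S.T : ℤ) ^ 2) = 9 * ((S.ρ : ℤ) ^ 32 * (S.T : ℤ) ^ 2) := by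
        ring
      have c7 : 0 ≤ (S.ρ : ℤ) ^ 32 * (S.T : ℤ) ^ 2 := by positivity
      omega
    have c8 := (pow_le_pow_iff_left₀ (by positivity) (by positivity) two_ne_zero).1 c4
    exact_mod_cast c8
  have a2 : 3 * S.d.C * sz (γ0 * z) * S.ρ ^ S.P.a ≤ S.D := by
    calc 3 * S.d.C * sz (γ0 * z) * S.ρ ^ S.P.a
        ≤ 3 * S.d.C * (5 * S.ρ ^ 16 * S.T) * S.ρ ^ S.P.a := by gcongr
      _ = 15 * S.d.C * S.W * (S.ρ ^ 16 * S.ρ ^ (S.P.E * S.P.A - 8 * S.P.a) * S.ρ ^ S.P.a) := by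
          rw [Sc.T]; ring
      _ ≤ S.ρ ^ 1 * (S.ρ ^ 16 * S.ρ ^ (S.P.E * S.P.A - 8 * S.P.a) * S.ρ ^ S.P.a) := by
          rw [pow_one]; gcongr
      _ ≤ S.D := by
          rw [← pow_add, ← pow_add, ← pow_add, Sc.D]
          exact Nat.pow_le_pow_right hρ (by omega)
  refine ⟨a2, le_trans ?_ a2, ?_⟩
  · have := S.d.three_le_C
    calc sz (γ0 * z) = 1 * sz (γ0 * z) * 1 := by ring
      _ ≤ 3 * S.d.C * sz (γ0 * z) * S.ρ ^ S.P.a := by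
          gcongr
          · omega
          · exact Nat.one_le_pow _ _ hρ
  · rw [Sc.D, Sc.N, ← pow_add]
    exact Nat.pow_le_pow_right hρ (by omega)

/-- the weighted sum of the errors -/
theorem combine {P0 : Finset O} {Sg' s F2 C2 G2 N2 e2 T2 nz K y ε₁ : ℝ} (hS : 0 < Sg')
    (hSg : Sg' = ∑ γ ∈ P0, 1 / (γ.norm : ℝ)) (hn : ∀ γ ∈ P0, (0 : ℝ) < γ.norm) (hC : 0 < C2)
    (hG : 0 < G2) (hN : 0 < N2) (hz : 0 < nz) (hF : 0 ≤ F2) (hrel : e2 * T2 * G2 = F2 * N2)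
    (hk : e2 * T2 ≤ 40000 * C2 * nz) (hε : 0 ≤ ε₁) (A B D : O → ℝ)
    (h1 : ∀ γ ∈ P0, |s * A γ - B γ - D γ| ≤ s * (K * (400 * C2 * G2 / γ.norm) / y))
    (h2 : ∀ γ ∈ P0, |γ.norm * nz / N2 * D γ| ≤ ε₁) :
    |s * F2 / (Sg' * (40000 * C2) * G2) * ∑ γ ∈ P0, A γ -
      e2 * T2 / (40000 * C2 * nz) * ((∑ γ ∈ P0, γ.norm * nz / N2 * B γ / γ.norm) / Sg')| ≤
      ε₁ + F2 * s * K / (100 * y) := by
  have hT : e2 * T2 = F2 * N2 / G2 := by rw [eq_div_iff hG.ne', hrel]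
  have e1 : s * F2 / (Sg' * (40000 * C2) * G2) * ∑ γ ∈ P0, A γ -
      e2 * T2 / (40000 * C2 * nz) * ((∑ γ ∈ P0, γ.norm * nz / N2 * B γ / γ.norm) / Sg') =
      ∑ γ ∈ P0, F2 / (Sg' * (40000 * C2) * G2) * (s * A γ - B γ) := by
    rw [sum_div, mul_sum, mul_sum, ← sum_sub_distrib]
    refine sum_congr rfl fun γ hγ => ?_
    have := (hn γ hγ).ne'
    rw [hT]
    field_simp
  rw [e1]
  refine (abs_sum_le_sum_abs _ _).trans ?_
  have e2' : ε₁ + F2 * s * K / (100 * y) =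
      ∑ γ ∈ P0, (ε₁ + F2 * s * K / (100 * y)) * (1 / (γ.norm : ℝ)) / Sg' := by
    rw [← sum_div, ← mul_sum, ← hSg, mul_div_cancel_right₀ _ hS.ne']
  rw [e2']
  refine sum_le_sum fun γ hγ => ?_
  have hγ0 := hn γ hγ
  have hκ : 0 ≤ F2 / (Sg' * (40000 * C2) * G2) := by positivity
  have a1 : |s * A γ - B γ| ≤ s * (K * (400 * C2 * G2 / γ.norm) / y) + |D γ| := by
    have := abs_add_le (s * A γ - B γ - D γ) (D γ)
    rw [sub_add_cancel] at this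
    linarith [h1 γ hγ]
  have a2 : |D γ| ≤ ε₁ * (N2 / (γ.norm * nz)) := by
    have := h2 γ hγ
    rw [abs_mul, abs_of_pos (by positivity), mul_comm, ← le_div_iff₀ (by positivity)] at this
    refine this.trans (le_of_eq ?_)
    field_simp
  have a3 : F2 * N2 / (40000 * C2 * G2 * nz) ≤ 1 := by
    rw [div_le_one (by positivity), ← hrel]
    nlinarith [mul_le_mul_of_nonneg_right hk hG.le]
  rw [abs_mul, abs_of_nonneg hκ]
  calc F2 / (Sg' * (40000 * C2) * G2) * |s * A γ - B γ|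
      ≤ F2 / (Sg' * (40000 * C2) * G2) *
        (s * (K * (400 * C2 * G2 / γ.norm) / y) + ε₁ * (N2 / (γ.norm * nz))) := by
        gcongr; linarith
    _ = (ε₁ * (F2 * N2 / (40000 * C2 * G2 * nz)) + F2 * s * K / (100 * y)) *
        (1 / (γ.norm : ℝ)) / Sg' := by
        field_simp
        ring
    _ ≤ (ε₁ * 1 + F2 * s * K / (100 * y)) * (1 / (γ.norm : ℝ)) / Sg' := by gcongr
    _ = _ := by rw [mul_one]

end TopAAux

open TopAAux in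
theorem stTopA (hLowSum : StLowSum) (hCutR : StCutR) (hSqf : StSqf) (_hPack : StPack)
    (hScale : StScale) : StTopA := by
  intro d P hP M ε hM hε
  obtain ⟨CL, hCL, hL⟩ := hLowSum d
  obtain ⟨Cq, hq⟩ := hSqf
  set K : ℝ := |Cq| + 1152 with hK
  have hK0 : 0 ≤ K := by positivity
  set β : ℝ := ε / (3 * CL * M ^ 6) with hβ
  have hβ0 : 0 < β := by positivity
  have hsc : Ev d P _ := ⟨4, fun w hw => hScale.2.2.2 d P hP 41 w hw⟩
  have hev := Ev.of_eventually (d := d) (P := P) (Θ := fun w ρ =>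
    ((15 * d.C * w.factorial : ℕ) : ℝ) ≤ ρ ∧
      (((P.s + 1) * (d.e * w.factorial * w.factorial) : ℕ) : ℝ) ≤ ρ ∧
      1 * Real.log ρ ^ 40 ≤ ρ ∧ 6 * CL / ε ≤ ρ ∧ (w : ℝ) + 3 ≤ Real.log ρ ∧
      ((d.e * w.factorial : ℕ) : ℝ) ^ 2 * K * 3 / (100 * ε) ≤ Real.log ρ) d.e
    fun w _ => (ev_const _).and ((ev_const _).and ((ev_log_pow _ _).and ((ev_const _).and
      ((ev_log _).and (ev_log _)))))
  refine (((hCutR d P hP β hβ0).and hsc).and hev).mono ?_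
  rintro S rfl rfl hok ⟨⟨hcut, s1, -, s3, s4, s5, -⟩, hw, t1, t2, t3, t4, t5, t6⟩ φ hφ z hz
  obtain ⟨b1, b2, b3, -⟩ := hP.big
  have t1' : 15 * S.d.C * S.W ≤ S.ρ := by exact_mod_cast t1
  have t2' : (S.P.s + 1) * S.Q ≤ S.ρ := by exact_mod_cast t2
  have hC3 := S.d.three_le_C
  have hW := S.W_pos
  have hρe : S.d.e ≤ S.ρ := by
    have := S.d.two_e_le
    have : 15 * S.d.C * 1 ≤ 15 * S.d.C * S.W := Nat.mul_le_mul_left _ hW
    omega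
  have hρ : 1 ≤ S.ρ := S.d.he.trans_le hρe
  have hρ' : (1 : ℝ) ≤ S.ρ := by exact_mod_cast hρ
  have hN : S.ρ ≤ S.N := Nat.le_self_pow (by omega) _
  have hw0 : (0 : ℝ) ≤ S.w := Nat.cast_nonneg _
  have hlog : 1 ≤ Real.log S.ρ := by linarith
  have hly : Real.log S.ρ ≤ S.y := (le_self_pow₀ hlog (by norm_num)).trans s3
  have hwy : S.w + 3 ≤ S.y := by exact_mod_cast t5.trans hly
  have hy : S.y ≤ S.ρ :=
    (Nat.le_self_pow (Nat.mul_pos (by omega) (Nat.succ_pos _)).ne' _).trans s1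
  have hyG : S.y ^ 34 ≤ S.G ^ 2 := by
    rw [Sc.G, ← pow_mul]
    exact (Nat.pow_le_pow_left hy 34).trans (Nat.pow_le_pow_right hρ (by omega))
  have hs0 : 0 ≤ SS S.w S.y := by linarith
  have hn0 : ∀ γ ∈ S.P0, 0 < γ.norm := fun γ hγ =>
    (norm_nonneg' γ).lt_of_ne fun h => (hok.po.sqf γ hγ).ne_zero (by rw [← h]; rfl)
  have hT : 0 < S.T := Nat.mul_pos hW (pow_pos hρ _)
  have hz0 : 0 < z.norm := by
    have h1 := (hok.lo z hz).1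
    have h2 : (0 : ℤ) < (S.T : ℤ) ^ 2 := by positivity
    omega
  have hzF : IsCoprime z.norm (S.F : ℤ) := by
    obtain ⟨c, hc⟩ := norm_congr (S.mem_B_congr hz)
    have : z.norm = S.w0.norm + S.F * c := by linarith
    rw [this]
    exact hok.hw.add_mul_left_left c
  have hone := fun γ0 (h0 : γ0 ∈ S.P0) => one hP hok hρ (hρe.trans hN) (K := K)
    (fun X γ0 hX h0 Z hZ => bad_card hq (by omega) hX (hok.po.sqf γ0 h0) (hok.po.pr γ0 h0)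
      (hok.po.le γ0 h0) Z hZ) hK0 hyG hs0 hφ.1 hz h0
  have hlow : ∀ γ0 ∈ S.P0, |S.d.Psi S.b S.F S.N
      (fun γ => (if Rough S.w S.y γ then SS S.w S.y else 0) - 1) (cutI S.N φ) (γ0 * z)| ≤
      2 * ε / 3 := by
    intro γ0 h0
    obtain ⟨a1, a2, a3⟩ := sizes hP hok hρ hy t1' hz h0
    have a4 : (S.P.s + 1) * S.Q * (3 * S.d.C * sz (γ0 * z) * S.ρ ^ S.P.a) ≤ S.ρ * S.D :=
      Nat.mul_le_mul t2' a1
    have a5 : S.ρ * S.D ≤ S.N :=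
      (Nat.mul_le_mul_right _ (Nat.le_self_pow (by norm_num) _)).trans a3
    have a6 : S.D ≤ S.ρ * S.D := Nat.le_mul_of_pos_left _ hρ
    have hx0 : γ0 * z ≠ 0 := fun h => by
      have := mul_pos (hn0 γ0 h0) hz0
      rw [← Zsqrtd.norm_mul, h, Zsqrtd.norm_zero] at this
      exact lt_irrefl _ this
    have hxF : IsCoprime (γ0 * z).norm (S.F : ℤ) := by
      rw [Zsqrtd.norm_mul]
      refine IsCoprime.mul_left ?_ hzF
      rw [← Int.natAbs_of_nonneg (hn0 γ0 h0).le, Nat.isCoprime_iff_coprime]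
      refine Nat.coprime_of_dvd fun p hp h1 => S.not_dvd_F hw hp ?_
      have := hok.po.pr γ0 h0 p hp (Int.natCast_dvd.2 h1)
      omega
    refine (hL S.P.s S.b S.F S.N S.Q S.D (S.ρ ^ S.P.a) M β (SS S.w S.y) φ (γ0 * z) _ hok.hb
      (by omega) (pow_pos hρ _) hM hβ0.le hφ.1 hφ.2 hx0 hxF a1 (a4.trans a5) (by omega)
      (fun γ => ?_) hcut).trans ?_
    · split_ifs
      · rw [abs_of_nonneg (by linarith)]; linarith
      · simpa using s4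
    · have c1 : CL * (M ^ 6 * β) = ε / 3 := by
        rw [hβ]; field_simp
      have hN' : (0 : ℝ) < S.N := by exact_mod_cast (by omega : 0 < S.N)
      have c2 : SS S.w S.y * (((S.P.s + 1) * S.Q * (3 * S.d.C * sz (γ0 * z) * S.ρ ^ S.P.a) +
          sz (γ0 * z) : ℕ) : ℝ) / S.N ≤ 2 / S.ρ := by
        rw [div_le_div_iff₀ hN' (by positivity)]
        have c3 : (((S.P.s + 1) * S.Q * (3 * S.d.C * sz (γ0 * z) * S.ρ ^ S.P.a) +
            sz (γ0 * z) : ℕ) : ℝ) ≤ 2 * (S.ρ * S.D) := by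
          exact_mod_cast (by omega : _ ≤ 2 * (S.ρ * S.D))
        have c4 : (S.ρ : ℝ) ^ 3 * S.D ≤ S.N := by exact_mod_cast a3
        calc _ ≤ S.ρ * (2 * (S.ρ * S.D)) * (S.ρ : ℝ) := by gcongr; linarith
          _ = 2 * ((S.ρ : ℝ) ^ 3 * S.D) := by ring
          _ ≤ 2 * S.N := by gcongr
      have c5 : CL * (2 / S.ρ) ≤ ε / 3 := by
        rw [div_le_iff₀ hε] at t4
        rw [← mul_div_assoc, div_le_div_iff₀ (by positivity) (by norm_num)]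
        linarith
      have c6 := mul_le_mul_of_nonneg_left c2 hCL.le
      rw [mul_add]
      linarith
  have hrel : (S.d.e : ℝ) ^ 2 * (S.T : ℝ) ^ 2 * (S.G : ℝ) ^ 2 = (S.F : ℝ) ^ 2 * (S.N : ℝ) ^ 2 := by
    have h1 : (S.T : ℝ) * S.G = S.W * S.N := by exact_mod_cast Sc.TG hP
    rw [mul_assoc, ← mul_pow, h1, S.F_eq]; push_cast; ring
  have hk : (S.d.e : ℝ) ^ 2 * (S.T : ℝ) ^ 2 ≤ 40000 * (S.d.C : ℝ) ^ 2 * z.norm := by
    have h1 : (S.T : ℝ) ^ 2 ≤ 4 * z.norm := by exact_mod_cast (hok.lo z hz).1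
    have h2 : (S.d.e : ℝ) ≤ S.d.C := by
      have := S.d.two_e_le
      exact_mod_cast (by omega : S.d.e ≤ S.d.C)
    have h3 : (0 : ℝ) ≤ (S.d.C : ℝ) ^ 2 * z.norm :=
      mul_nonneg (sq_nonneg _) (by exact_mod_cast hz0.le)
    calc _ ≤ (S.d.C : ℝ) ^ 2 * (4 * z.norm) := by gcongr
      _ ≤ _ := by linarith
  have hG : 0 < S.G := pow_pos hρ _
  have key := combine (P0 := S.P0) (s := SS S.w S.y) (K := K) (y := S.y)
    (S.d.h0.trans_le hok.po.low) rfl (fun γ hγ => by exact_mod_cast hn0 γ hγ)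
    (by positivity : (0 : ℝ) < (S.d.C : ℝ) ^ 2) (by positivity : (0 : ℝ) < (S.G : ℝ) ^ 2)
    (by have : 0 < S.N := by omega
        positivity : (0 : ℝ) < (S.N : ℝ) ^ 2) (by exact_mod_cast hz0) (sq_nonneg _) hrel hk
    (by positivity : 0 ≤ 2 * ε / 3) _ _ _ hone fun γ hγ => by
      have := hlow γ hγ
      rwa [Dat.Psi, Zsqrtd.norm_mul, Int.cast_mul] at this
  have hlast : (S.F : ℝ) ^ 2 * SS S.w S.y * K / (100 * S.y) ≤ ε / 3 := by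
    have h1 : (S.F : ℝ) ^ 2 * K * 3 ≤ Real.log S.ρ * (100 * ε) :=
      (div_le_iff₀ (by positivity)).1 t6
    have hy0 : (0 : ℝ) < S.y := by linarith
    rw [div_le_div_iff₀ (by positivity) (by norm_num)]
    calc (S.F : ℝ) ^ 2 * SS S.w S.y * K * 3 = (S.F : ℝ) ^ 2 * K * 3 * SS S.w S.y := by ring
      _ ≤ Real.log S.ρ * (100 * ε) * Real.log S.ρ ^ 40 := by gcongr
      _ = ε * (100 * Real.log S.ρ ^ 41) := by ring
      _ ≤ ε * (100 * S.y) := by gcongr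
  have e1 : (200 * S.d.C : ℝ) ^ 2 = 40000 * (S.d.C : ℝ) ^ 2 := by ring
  rw [Sc.PsiM, Sc.mu, Sc.pav, Sc.Th, sum_filter, sum_product, e1]
  simp only [Dat.Psi, Zsqrtd.norm_mul, Int.cast_mul]
  exact key.trans (by linarith)

end Pool.Agent.Lib.MP_7d3fda_nt.Q3
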