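import Pool.Agent.Lib.MP_7d3fda_nt.Q3.Basic

open Finset Filter
open scoped Classical NumberTheorySymbols

noncomputable section

namespace Pool.Agent.Lib.MP_7d3fda_nt.Q3

open Pool.Agent.Lib.MP_4b8564_nt Pool.Agent.Lib.MP_4b8564_nt.GT
open Pool.Agent.Lib.MP_0a3467_an.Cv (Low)
open Pool.Agent.Lib.MP_0a3467_an

/-! The average over the pool does not change the model count. -/

namespace TopBAux

theorem fin_mul (f : O → ℝ) {x : O} (hx : x ≠ 0) :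
    ∑ᶠ g, f (g * x) = ∑ᶠ u, if x ∣ u then f u else 0 := by
  have hi : Function.Injective fun g : O => g * x := by
    intro g g' h
    by_contra c
    have h1 : (g - g') * x = 0 := by rw [sub_mul]; exact sub_eq_zero.2 h
    have h2 := mul_pos (norm_pos' (sub_ne_zero.2 c)) (norm_pos' hx)
    rw [← Zsqrtd.norm_mul, h1] at h2
    simp at h2
  rw [← finsum_mem_range (f := f) (g := fun g => g * x) hi]
  refine finsum_congr fun u => ?_
  rw [finsum_eq_if]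
  refine if_congr ⟨?_, ?_⟩ rfl rfl
  · rintro ⟨g, rfl⟩
    exact Dvd.intro_left g rfl
  · rintro ⟨g, rfl⟩
    exact ⟨g, mul_comm _ _⟩

theorem key (f : O → ℝ) (hf : (Function.support f).Finite) (T : Finset O) (π : O → ℝ)
    (h1 : ∑ x ∈ T, π x = 1) (h0 : ∀ x ∈ T, x ≠ 0) :
    ∑ᶠ u, (∑ x ∈ T, π x * (1 * ((if x ∣ u then (x.norm : ℝ) else 0) - 1))) * f u =
      ∑ x ∈ T, π x * ((x.norm : ℝ) * ∑ᶠ g, f (g * x)) - ∑ᶠ u, f u := by
  have e : ∀ g : O → ℝ, (∀ u, f u = 0 → g u = 0) → ∑ᶠ u, g u = ∑ u ∈ hf.toFinset, g u := by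
    intro g hg
    refine finsum_eq_sum_of_support_subset _ fun u hu => ?_
    simp only [Set.Finite.coe_toFinset, Function.mem_support] at hu ⊢
    exact fun h => hu (hg u h)
  rw [e _ (fun u h => by rw [h, mul_zero]), e f fun _ h => h]
  have e2 : ∀ x ∈ T, π x * ((x.norm : ℝ) * ∑ᶠ g, f (g * x)) =
      ∑ u ∈ hf.toFinset, π x * ((if x ∣ u then (x.norm : ℝ) else 0) * f u) := by
    intro x hx
    rw [fin_mul f (h0 x hx), e _ (fun u h => by rw [h, ite_self]), mul_sum, mul_sum]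
    refine sum_congr rfl fun u _ => ?_
    split_ifs <;> simp
  rw [sum_congr rfl e2, sum_comm, ← sum_sub_distrib]
  refine sum_congr rfl fun u _ => ?_
  have : f u = ∑ x ∈ T, π x * f u := by rw [← sum_mul, h1, one_mul]
  rw [sum_mul]
  conv_rhs => rw [sub_eq_add_neg]; congr; rfl; rw [this, ← sum_neg_distrib]
  rw [← sum_add_distrib]
  exact sum_congr rfl fun x _ => by ring

theorem psi_eq (d : Dat) (b F N : ℕ) (ψ : ℤ → ℝ) (z : O) (T : Finset O) (π : O → ℝ)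
    (h1 : ∑ x ∈ T, π x = 1) (h0 : ∀ x ∈ T, x ≠ 0)
    (hf : (Function.support fun u : O =>
      if (F : O) ∣ u * z - b then d.Fz b F ψ (u * z) else 0).Finite) :
    d.Psi b F N (fun u => ∑ x ∈ T, π x * (1 * ((if x ∣ u then (x.norm : ℝ) else 0) - 1))) ψ z =
      ∑ x ∈ T, π x * d.Psi b F N (fun _ => 1) ψ (x * z) - d.Psi b F N (fun _ => 1) ψ z := by
  have h := key _ hf T π h1 h0
  simp only [Dat.Psi, one_mul] at h ⊢
  have e : ∀ u : O, (if (F : O) ∣ u * z - b then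
      (∑ x ∈ T, π x * ((if x ∣ u then (x.norm : ℝ) else 0) - 1)) * d.Fz b F ψ (u * z) else 0) =
      (∑ x ∈ T, π x * ((if x ∣ u then (x.norm : ℝ) else 0) - 1)) *
        if (F : O) ∣ u * z - b then d.Fz b F ψ (u * z) else 0 := by
    intro u
    split_ifs <;> simp
  rw [finsum_congr e, h, mul_sub, mul_sum]
  congr 1
  refine sum_congr rfl fun x _ => ?_
  simp only [mul_assoc, Zsqrtd.norm_mul, Int.cast_mul]
  ring

theorem card_le {n y : ℕ} (hy : 2 ≤ y) (hn : n ≠ 0) (h : ∀ p ∈ n.primeFactors, y < p)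
    (hl : n ≤ y ^ 32) : n.primeFactors.card ≤ 32 := by
  have h1 : y ^ n.primeFactors.card ≤ ∏ p ∈ n.primeFactors, p :=
    pow_card_le_prod _ _ _ fun p hp => (h p hp).le
  have h2 := Nat.le_of_dvd (Nat.pos_of_ne_zero hn) (Nat.prod_primeFactors_dvd n)
  exact (Nat.pow_le_pow_iff_right (by omega)).1 (h1.trans (h2.trans hl))

theorem bad_le {c0 C0 : ℝ} {y : ℕ} {P0 : Finset O} (h : PoolOk c0 C0 y P0) (hc : 0 < c0)
    (hy : 2 ≤ y) :
    Cv.bad P0 (fun x => 1 / (x.norm : ℝ) / ∑ γ ∈ P0, 1 / (γ.norm : ℝ))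
      (fun x => x.norm.natAbs) ≤ 32 * (C0 / y / c0) := by
  set Sg := ∑ γ ∈ P0, 1 / (γ.norm : ℝ) with hS
  have hS0 : 0 < Sg := hc.trans_le h.low
  have hn : ∀ x : O, 0 ≤ 1 / (x.norm : ℝ) := fun x =>
    one_div_nonneg.2 (by exact_mod_cast norm_nonneg' x)
  have hC : 0 ≤ C0 / y := (sum_nonneg fun x _ => hn x).trans (h.spr 2 Nat.prime_two)
  have h1 : ∀ x ∈ P0, ∑ x' ∈ P0, (if Nat.Coprime x.norm.natAbs x'.norm.natAbs then 0 else
      1 / (x.norm : ℝ) / Sg * (1 / (x'.norm : ℝ) / Sg)) ≤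
      1 / (x.norm : ℝ) / Sg * (32 * (C0 / y / c0)) := by
    intro x hx
    have hx0 : x.norm.natAbs ≠ 0 := (h.sqf x hx).ne_zero
    have hcard : x.norm.natAbs.primeFactors.card ≤ 32 := by
      refine card_le hy hx0 (fun p hp => h.pr x hx p (Nat.prime_of_mem_primeFactors hp) ?_) ?_
      · exact Int.natCast_dvd.2 (Nat.dvd_of_mem_primeFactors hp)
      · have := h.le x hx
        have h2 := Int.natAbs_of_nonneg (norm_nonneg' x)
        exact_mod_cast h2 ▸ this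
    have h2 : ∑ x' ∈ P0, (if Nat.Coprime x.norm.natAbs x'.norm.natAbs then 0 else
        1 / (x'.norm : ℝ)) ≤ ∑ x' ∈ P0, ∑ p ∈ x.norm.natAbs.primeFactors,
          if (p : ℤ) ∣ x'.norm then 1 / (x'.norm : ℝ) else 0 := by
      refine sum_le_sum fun x' _ => ?_
      have hp : ∀ p ∈ x.norm.natAbs.primeFactors,
          0 ≤ if (p : ℤ) ∣ x'.norm then 1 / (x'.norm : ℝ) else 0 := fun p _ => by
        split_ifs
        · exact hn x'
        · exact le_rfl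
      split_ifs with c
      · exact sum_nonneg hp
      · obtain ⟨p, p1, p2, p3⟩ := Nat.Prime.not_coprime_iff_dvd.1 c
        have := single_le_sum hp (Nat.mem_primeFactors.2 ⟨p1, p2, hx0⟩)
        rwa [if_pos (Int.natCast_dvd.2 p3)] at this
    rw [sum_comm] at h2
    have h3 : ∑ p ∈ x.norm.natAbs.primeFactors, ∑ x' ∈ P0,
        (if (p : ℤ) ∣ x'.norm then 1 / (x'.norm : ℝ) else 0) ≤ 32 * (C0 / y) := by
      refine (sum_le_card_nsmul _ _ (C0 / y) fun p hp => ?_).trans ?_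
      · rw [← sum_filter]
        exact h.spr p (Nat.prime_of_mem_primeFactors hp)
      · rw [nsmul_eq_mul]
        exact mul_le_mul_of_nonneg_right (by exact_mod_cast hcard) hC
    have h4 : ∑ x' ∈ P0, (if Nat.Coprime x.norm.natAbs x'.norm.natAbs then 0 else
        1 / (x.norm : ℝ) / Sg * (1 / (x'.norm : ℝ) / Sg)) = 1 / (x.norm : ℝ) / Sg *
        ((∑ x' ∈ P0, (if Nat.Coprime x.norm.natAbs x'.norm.natAbs then 0 else
          1 / (x'.norm : ℝ))) / Sg) := by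
      rw [sum_div, mul_sum]
      refine sum_congr rfl fun x' _ => ?_
      split_ifs <;> simp
    rw [h4]
    refine mul_le_mul_of_nonneg_left ?_ (div_nonneg (hn x) hS0.le)
    rw [← mul_div_assoc]
    exact div_le_div₀ (by positivity) (h2.trans h3) hc h.low
  refine (sum_le_sum h1).trans ?_
  rw [← sum_mul, ← sum_div, div_self hS0.ne', one_mul]

theorem coprime_of {n : ℤ} {m : ℕ} (h : ∀ p : ℕ, p.Prime → (p : ℤ) ∣ n → ¬p ∣ m) :
    IsCoprime n (m : ℤ) := by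
  rw [Int.isCoprime_iff_gcd_eq_one]
  by_contra c
  obtain ⟨p, p1, p2, p3⟩ := Nat.Prime.not_coprime_iff_dvd.1 (show ¬Nat.Coprime n.natAbs m from c)
  exact h p p1 (Int.natCast_dvd.2 p2) p3

theorem err {C ε ρ Y X Q D N s : ℝ} (hC : 0 < C) (hε : 0 < ε) (hρ : 1 ≤ ρ)
    (hY1 : Y ≤ ρ) (hX0 : 0 ≤ X) (hX : X ≤ (s + 2) * Q * D) (hD : 0 < D) (hN : D * ρ ^ 2 ≤ N)
    (h : 4 * C * ((s + 2) * Q) / ε ≤ ρ) : C * ((Y + 1) * X / N) ≤ ε / 2 := by
  have hN0 : 0 < N := lt_of_lt_of_le (by positivity) hN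
  rw [div_le_iff₀ hε] at h
  rw [← mul_div_assoc, div_le_iff₀ hN0]
  have h1 : (Y + 1) * X ≤ (2 * ρ) * ((s + 2) * Q * D) :=
    mul_le_mul (by linarith) hX hX0 (by positivity)
  have h2 := mul_le_mul_of_nonneg_left h1 hC.le
  have h3 := mul_le_mul_of_nonneg_left hN (half_pos hε).le
  have h4 := mul_le_mul_of_nonneg_right h (show 0 ≤ ρ * D / 2 by positivity)
  nlinarith

end TopBAux

open TopBAux in
theorem stTopB (hLowSum : StLowSum) (hGv : StGv) (hPack : StPack) (hScale : StScale) :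
    StTopB := by
  intro d P hP M ε hM hε
  obtain ⟨C, hC, hL⟩ := hLowSum d
  obtain ⟨Cp, -, hPk⟩ := hPack d
  obtain ⟨a1, a2, a3, -⟩ := hP.big
  have hM0 : 0 < M ^ 6 := by positivity
  obtain ⟨δ, δ0, δ1, δ2⟩ : ∃ δ : ℝ, 0 < δ ∧ δ ≤ 1 ∧ C * (M ^ 6 * (10 * δ)) ≤ ε / 2 := by
    refine ⟨min 1 (ε / (20 * C * M ^ 6)), by positivity, min_le_left _ _, ?_⟩
    have h := min_le_right 1 (ε / (20 * C * M ^ 6))
    rw [le_div_iff₀ (by positivity)] at h
    linarith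
  have hδ : 0 < δ ^ 2 ^ P.s := by positivity
  obtain ⟨Y0, hY0⟩ := exists_nat_ge (4 ^ P.s * (32 * d.C0) / (
    d.c0 * δ ^ 2 ^ P.s))
  have H : ∀ w, d.e ≤ w → ∀ᶠ ρ : ℕ in atTop,
      (15 * d.C * w.factorial ≤ ρ ∧ (P.s + 1) * (d.e * w.factorial * w.factorial) ≤ ρ) ∧
      (1 / δ ^ 2 ^ P.s ≤ (ρ : ℝ) ∧
        4 * C * (((P.s : ℝ) + 2) * ((d.e * w.factorial * w.factorial : ℕ) : ℝ)) / ε ≤ (ρ : ℝ)) ∧
      w + Y0 + 2 ≤ Nat.nthRoot (P.a * (Nat.log 2 (Nat.log 2 ρ) + 1)) ρ := fun w _ =>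
    ((eventually_ge_atTop _).and (eventually_ge_atTop _)).and
      (((ev_const _).and (ev_const _)).and (hScale.2.2.1 _ _ (by omega)))
  refine (Ev.of_eventually (d := d) (P := P) d.e H).mono ?_
  rintro S rfl rfl hok ⟨hw, ⟨r1, r2⟩, ⟨r3, r4⟩, r5⟩ φ hφ z hz
  change 15 * S.d.C * S.W ≤ S.ρ at r1
  change (S.P.s + 1) * S.Q ≤ S.ρ at r2
  change 4 * C * (((S.P.s : ℝ) + 2) * (S.Q : ℝ)) / ε ≤ (S.ρ : ℝ) at r4
  change S.w + Y0 + 2 ≤ S.y at r5
  have hW := S.W_pos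
  have hQ := S.Q_pos
  have hF := S.F_pos
  have hdC := S.d.three_le_C
  have ρ1 : 1 ≤ S.ρ := le_trans (Nat.mul_pos (by omega) hQ) r2
  have po := hok.po
  set Sg := ∑ γ ∈ S.P0, 1 / (γ.norm : ℝ) with hS
  have hS0 : 0 < Sg := S.d.h0.trans_le po.low
  have hn : ∀ x : O, 0 ≤ 1 / (x.norm : ℝ) := fun x =>
    one_div_nonneg.2 (by exact_mod_cast norm_nonneg' x)
  have π0 : ∀ x ∈ S.P0, 0 ≤ 1 / (x.norm : ℝ) / Sg := fun x _ => div_nonneg (hn x) hS0.le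
  have π1 : ∑ x ∈ S.P0, 1 / (x.norm : ℝ) / Sg = 1 := by rw [← sum_div, div_self hS0.ne']
  have x0 : ∀ x ∈ S.P0, x ≠ 0 := by
    rintro x hx rfl
    exact (po.sqf _ hx).ne_zero (by simp)
  have T0 : 0 < S.T := Nat.mul_pos hW (Nat.pow_pos ρ1)
  obtain ⟨z1, z2⟩ := hok.lo z hz
  have z0 : z ≠ 0 := by
    rintro rfl
    have : (0 : ℤ) < (S.T : ℤ) ^ 2 := by positivity
    simp at z1
    omega
  have zc : IsCoprime z.norm (S.F : ℤ) := by
    obtain ⟨k, hk⟩ := norm_congr (S.mem_B_congr hz)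
    rw [show z.norm = S.w0.norm + S.F * k by linarith]
    exact hok.hw.add_mul_left_left k
  have zs : sz z ≤ 5 * S.T := by
    have h1 := sz_le_norm z
    have h2 : (sz z : ℤ) ^ 2 ≤ (5 * S.T : ℤ) ^ 2 := by nlinarith [sq_nonneg (S.T : ℤ)]
    exact_mod_cast abs_le_of_sq_le_sq' h2 (by positivity) |>.2
  have e1 : 3 * S.d.C * sz z * S.ρ ^ S.P.a ≤ S.D := by
    calc 3 * S.d.C * sz z * S.ρ ^ S.P.a
        ≤ 3 * S.d.C * (5 * S.T) * S.ρ ^ S.P.a := by gcongr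
      _ = 15 * S.d.C * S.W * (S.ρ ^ (S.P.E * S.P.A - 8 * S.P.a) * S.ρ ^ S.P.a) := by
        rw [Sc.T]; ring
      _ ≤ S.ρ * (S.ρ ^ (S.P.E * S.P.A - 8 * S.P.a) * S.ρ ^ S.P.a) := by gcongr
      _ ≤ S.D := by
        rw [← pow_add, ← pow_succ', Sc.D]
        exact Nat.pow_le_pow_right ρ1 (by omega)
  have e2 : S.D * S.ρ ^ 2 ≤ S.N := by
    rw [Sc.D, Sc.N, ← pow_add]
    exact Nat.pow_le_pow_right ρ1 (by omega)
  have D0 : 0 < S.D := Nat.pow_pos ρ1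
  have N0 : 0 < S.N := Nat.pow_pos ρ1
  have e3 : S.D * S.ρ ≤ S.N := le_trans (Nat.mul_le_mul_left _ (Nat.le_self_pow (by omega) _)) e2
  have e4 : sz z ≤ S.D := by
    refine le_trans ?_ e1
    have : 1 ≤ S.ρ ^ S.P.a := Nat.pow_pos ρ1
    calc sz z = 1 * sz z * 1 := by ring
      _ ≤ 3 * S.d.C * sz z * S.ρ ^ S.P.a := by gcongr; omega
  have e5 : (S.P.s + 1) * S.Q * (3 * S.d.C * sz z * S.ρ ^ S.P.a) ≤ S.N :=
    (Nat.mul_le_mul r2 e1).trans (by rwa [mul_comm])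
  have e6 : sz z ≤ S.N := e4.trans ((Nat.le_mul_of_pos_right _ ρ1).trans e3)
  have y1 : (S.y ^ 32) ^ 2 ^ S.P.s ≤ S.ρ := by
    have h1 : S.y ^ S.k ≤ S.ρ := Nat.pow_nthRoot_le (Or.inr (by omega))
    refine le_trans ?_ h1
    rw [← pow_mul]
    refine Nat.pow_le_pow_right (by omega) ?_
    have h2 := hP.ha
    rw [pow_add] at h2
    exact le_trans (by omega) (Nat.le_mul_of_pos_right S.P.a (Nat.succ_pos _))
  have y2 : S.y ^ 32 ≤ S.ρ := (Nat.le_self_pow (by positivity) _).trans y1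
  have hbad : 4 ^ S.P.s * Cv.bad S.P0 (fun x => 1 / (x.norm : ℝ) / Sg)
      (fun x => x.norm.natAbs) ≤ δ ^ 2 ^ S.P.s := by
    refine (mul_le_mul_of_nonneg_left (bad_le po S.d.h0 (by omega)) (by positivity)).trans ?_
    have h0 := S.d.h0
    have y0 : (0 : ℝ) < S.y := by exact_mod_cast (show 0 < S.y by omega)
    have h1 : (Y0 : ℝ) ≤ S.y := by exact_mod_cast (show Y0 ≤ S.y by omega)
    have h2 := hY0.trans h1
    rw [div_le_iff₀ (by positivity)] at h2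
    rw [div_div, ← mul_div_assoc, ← mul_div_assoc, div_le_iff₀ (by positivity)]
    linarith
  have hY : ((S.y ^ 32 : ℕ) : ℝ) ^ 2 ^ S.P.s ≤ δ ^ 2 ^ S.P.s * ((S.ρ ^ S.P.a : ℕ) : ℝ) := by
    have h1 : (((S.y ^ 32) ^ 2 ^ S.P.s : ℕ) : ℝ) ≤ S.ρ := by exact_mod_cast y1
    have h2 : ((S.ρ ^ 2 : ℕ) : ℝ) ≤ ((S.ρ ^ S.P.a : ℕ) : ℝ) := by
      exact_mod_cast Nat.pow_le_pow_right ρ1 (show 2 ≤ S.P.a by omega)
    rw [div_le_iff₀ hδ] at r3
    have h3 := mul_le_mul_of_nonneg_left h2 hδ.le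
    have h4 := mul_le_mul_of_nonneg_left r3 (Nat.cast_nonneg (α := ℝ) S.ρ)
    rw [Nat.cast_pow] at h1
    rw [Nat.cast_pow S.ρ 2] at h3
    nlinarith
  have hT : ∀ x ∈ S.P0, x ≠ 0 ∧ x.norm ≤ (S.y ^ 32 : ℕ) ∧
      IsCoprime x.norm ((S.F * S.Q : ℕ) : ℤ) := by
    intro x hx
    refine ⟨x0 x hx, by exact_mod_cast po.le x hx, coprime_of fun p p1 p2 p3 => ?_⟩
    have h1 := po.pr x hx p p1 p2
    rcases p1.dvd_mul.1 p3 with h | h
    · exact S.not_dvd_F hw p1 (by omega) h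
    · exact S.not_dvd_Q hw p1 (by omega) h
  have hV : ∀ u : O, |∑ x ∈ S.P0, 1 / (x.norm : ℝ) / Sg *
      (1 * ((if x ∣ u then (x.norm : ℝ) else 0) - 1))| ≤ ((S.y ^ 32 : ℕ) : ℝ) + 1 := by
    intro u
    refine (abs_sum_le_sum_abs _ _).trans ?_
    refine (sum_le_sum (g := fun x => 1 / (x.norm : ℝ) / Sg * (((S.y ^ 32 : ℕ) : ℝ) + 1))
      fun x hx => ?_).trans (by rw [← sum_mul, π1, one_mul])
    rw [abs_mul, abs_of_nonneg (π0 x hx), one_mul]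
    refine mul_le_mul_of_nonneg_left ?_ (π0 x hx)
    have h1 : (x.norm : ℝ) ≤ ((S.y ^ 32 : ℕ) : ℝ) := by exact_mod_cast (hT x hx).2.1
    have h2 : (0 : ℝ) ≤ x.norm := by exact_mod_cast norm_nonneg' x
    rw [abs_le]
    split_ifs <;> constructor <;> linarith
  have hf : (Function.support fun u : O =>
      if (S.F : O) ∣ u * z - S.b then S.d.Fz S.b S.F (cutI S.N φ) (u * z) else 0).Finite := by
    refine (hPk S.b S.F z 0 1 S.N S.N S.N S.N hF z0 zc (by decide)).1.subset fun u hu => ?_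
    rw [Function.mem_support] at hu
    have h1 : (S.F : O) ∣ u * z - S.b := by
      by_contra c
      exact hu (if_neg c)
    rw [if_pos h1, Dat.Fz] at hu
    have h2 : ∀ j, (S.N : ℤ) ≤ S.d.nn S.b S.F j (u * z) ∧ S.d.nn S.b S.F j (u * z) < 2 * S.N := by
      intro j
      by_contra c
      exact hu (prod_eq_zero (mem_univ j) (if_neg c))
    have := h2 0
    have := h2 1
    exact ⟨h1, by omega, by omega, by omega, by omega⟩
  have main := hL S.P.s S.b S.F S.N S.Q S.D (S.ρ ^ S.P.a) M (10 * δ) (((S.y ^ 32 : ℕ) : ℝ) + 1)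
    φ z (fun u => ∑ x ∈ S.P0, 1 / (x.norm : ℝ) / Sg *
      (1 * ((if x ∣ u then (x.norm : ℝ) else 0) - 1))) hok.hb N0 (Nat.pow_pos ρ1) hM
    (by positivity) hφ.1 hφ.2 z0 zc e1 e5 e6 hV fun γ =>
      hGv S.P.s S.P0 (fun x => 1 / (x.norm : ℝ) / Sg) (fun _ => 1) (S.F * S.Q) (S.y ^ 32)
        (S.ρ ^ S.P.a) δ γ π0 π1.le (fun _ _ => by simp) hT δ0 δ1 hbad hY
  rw [psi_eq S.d S.b S.F S.N _ z S.P0 _ π1 x0 hf] at main
  have ep : (S.pav fun γ => S.d.Psi S.b S.F S.N (fun _ => 1) (cutI S.N φ) (γ * z)) =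
      ∑ x ∈ S.P0, 1 / (x.norm : ℝ) / Sg *
        S.d.Psi S.b S.F S.N (fun _ => 1) (cutI S.N φ) (x * z) := by
    rw [Sc.pav, sum_div]
    exact sum_congr rfl fun x _ => by ring
  rw [ep]
  refine main.trans ?_
  have hX : (S.P.s + 1) * S.Q * (3 * S.d.C * sz z * S.ρ ^ S.P.a) + sz z ≤
      (S.P.s + 2) * S.Q * S.D := by
    have h1 := Nat.mul_le_mul_left ((S.P.s + 1) * S.Q) e1
    have h2 : S.D ≤ S.Q * S.D := Nat.le_mul_of_pos_left _ hQ
    calc _ ≤ (S.P.s + 1) * S.Q * S.D + S.Q * S.D := add_le_add h1 (e4.trans h2)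
      _ = _ := by ring
  have := err (Y := ((S.y ^ 32 : ℕ) : ℝ)) (s := S.P.s) (Q := S.Q) (D := S.D) (N := S.N)
    (X := (((S.P.s + 1) * S.Q * (3 * S.d.C * sz z * S.ρ ^ S.P.a) + sz z : ℕ) : ℝ)) hC hε
    (by exact_mod_cast ρ1) (by exact_mod_cast y2) (Nat.cast_nonneg _)
    (by exact_mod_cast hX) (by exact_mod_cast D0) (by exact_mod_cast e2) r4
  rw [mul_add]
  linarith

end Pool.Agent.Lib.MP_7d3fda_nt.Q3
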