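import Pool.Agent.Lib.MP_7d3fda_nt.Q3.Basic
import Pool.Agent.Lib.MP_4b8564_nt.Sg.Expand

open Finset Filter
open scoped Classical NumberTheorySymbols

noncomputable section

namespace Pool.Agent.Lib.MP_7d3fda_nt.Q3

open Pool.Agent.Lib.MP_4b8564_nt Pool.Agent.Lib.MP_4b8564_nt.GT

/-! Transfer of the variance to the dense model. -/

namespace TransAux

theorem GG_nonneg {P : Finset ℕ} (hP : ∀ p ∈ P, 2 ≤ p) (R : ℕ) : 0 ≤ Sg.GG P R :=
  sum_nonneg fun _ hS => Sg.ExpandAux.iphi_nonneg hP (mem_powerset.1 (mem_filter.1 hS).1)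

theorem PP_two {w R p : ℕ} (h : p ∈ Sg.PP w R) : 2 ≤ p := (mem_filter.1 h).2.two_le

theorem bet_nonneg {P : Finset ℕ} (hP : ∀ p ∈ P, 2 ≤ p) (R : ℕ) (E : ℕ → Prop) :
    0 ≤ bet P R E := div_nonneg (sq_nonneg _) (GG_nonneg hP R)

theorem bet_eq {P : Finset ℕ} (R : ℕ) (E : ℕ → Prop) (h : ∀ p ∈ P, ¬E p) :
    bet P R E = Sg.GG P R := by
  have h1 : (∑ U ∈ Sg.fam P R, ∏ p ∈ U, if E p then (-1 : ℝ) else 1 / ((p : ℝ) - 1)) =
      Sg.GG P R :=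
    sum_congr rfl fun U hU => prod_congr rfl fun p hp => if_neg (h p (mem_powerset.1 (mem_filter.1 hU).1 hp))
  rw [bet, h1, sq, mul_self_div_self]

theorem nuK_nonneg (w R : ℕ) (z : O) : 0 ≤ nuK w R z :=
  mul_nonneg (bet_nonneg (fun _ hp => PP_two (mem_filter.1 hp).1) _ _)
    (bet_nonneg (fun _ hp => PP_two (mem_filter.1 hp).1) _ _)

theorem one_le_prod_aux (s : Finset ℕ) (f : ℕ → ℝ) (h : ∀ p ∈ s, 1 ≤ f p) : 1 ≤ ∏ p ∈ s, f p := by
  have := prod_le_prod (s := s) (f := fun _ => (1 : ℝ)) (fun _ _ => zero_le_one) h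
  simpa using this

theorem etaP_nonneg {C : ℝ} (hC : 0 ≤ C) (w R : ℕ) (Δ : ℤ) : 0 ≤ etaP C w R Δ := by
  have h1 : 1 ≤ ∏ p ∈ Sg.PP w R, (1 + C / (p : ℝ) ^ 2) :=
    one_le_prod_aux _ _ fun p _ => le_add_of_nonneg_right (by positivity)
  have h2 : 1 ≤ ∏ p ∈ (Sg.PP w R).filter fun p : ℕ => (p : ℤ) ∣ Δ, (1 + C / (p : ℝ)) :=
    one_le_prod_aux _ _ fun p _ => le_add_of_nonneg_right (by positivity)
  have := one_le_mul_of_one_le_of_one_le h1 h2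
  rw [etaP]; linarith

variable (S : Sc)

theorem ff_nonneg (A : Finset ℤ) (x : ℤ) : 0 ≤ S.ff A x := by
  rw [Sc.ff]; split_ifs
  · exact GG_nonneg (fun _ => PP_two) _
  · exact le_rfl

theorem ff_le_GG (A : Finset ℤ) (x : ℤ) : S.ff A x ≤ Sg.GG (Sg.PP S.w S.R) S.R := by
  rw [Sc.ff]; split_ifs
  · exact le_rfl
  · exact GG_nonneg (fun _ => PP_two) _

theorem ff_le_nu {A : Finset ℤ} (hA : S.Vals A) (hRN : S.R < S.N) (x : ℤ) : S.ff A x ≤ S.nu x := by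
  rw [Sc.ff]; split_ifs with hx
  · obtain ⟨h1, -, h3⟩ := hA x hx
    refine (bet_eq _ _ fun p hp hd => ?_).ge
    obtain ⟨hp1, hp2⟩ := mem_filter.1 hp
    have h4 : p ∣ (S.W * x + S.b).natAbs := Int.natCast_dvd.1 hd
    have h5 : p = (S.W * x + S.b).natAbs := (Nat.prime_dvd_prime_iff_eq hp2 h3).1 h4
    have h6 : p ≤ S.R := (mem_Ioc.1 hp1).2
    have h7 : (1 : ℤ) ≤ S.W := by exact_mod_cast S.W_pos
    have h8 : (0 : ℤ) ≤ x := le_trans (Int.natCast_nonneg _) h1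
    have h9 : x ≤ S.W * x := le_mul_of_one_le_left h8 h7
    omega
  · exact bet_nonneg (fun _ => PP_two) _ _

theorem avB_mono {Φ Ψ : O → ℝ} (h : ∀ z, Φ z ≤ Ψ z) : S.avB Φ ≤ S.avB Ψ :=
  div_le_div_of_nonneg_right (sum_le_sum fun z _ => h z) (sq_nonneg _)

theorem avB_add (Φ Ψ : O → ℝ) : S.avB (fun z => Φ z + Ψ z) = S.avB Φ + S.avB Ψ := by
  simp only [Sc.avB, sum_add_distrib, add_div]

theorem avB_mul (c : ℝ) (Φ : O → ℝ) : S.avB (fun z => c * Φ z) = c * S.avB Φ := by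
  simp only [Sc.avB, ← mul_sum, mul_div_assoc]

theorem avB_sum {κ : Type} (s : Finset κ) (Φ : κ → O → ℝ) :
    S.avB (fun z => ∑ k ∈ s, Φ k z) = ∑ k ∈ s, S.avB (Φ k) := by
  simp only [Sc.avB]; rw [sum_comm, sum_div]

theorem avB_one : S.avB (fun _ => 1) ≤ 1 := by
  rw [Sc.avB, sum_const, Sc.B, card_cbx S.F_pos, nsmul_eq_mul, mul_one, Nat.cast_pow]
  exact div_self_le_one _

theorem avB_sq {κ : Type} (T : Finset κ) (μ : ℝ) (K : O → ℝ) (x : κ → O → ℝ) :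
    S.avB (fun z => K z * (μ * ∑ i ∈ T, x i z) ^ 2) =
      μ ^ 2 * ∑ θ ∈ T ×ˢ T, S.avB fun z => K z * (x θ.1 z * x θ.2 z) := by
  rw [← avB_sum, ← avB_mul]
  refine congrArg _ (funext fun z => ?_)
  rw [← mul_sum, sum_product' T T fun i j => x i z * x j z, ← sum_mul_sum]
  ring

/-- the left half of the indices -/
def JL : Finset (Fin 12) := univ.map (Fin.castAddEmb (n := 6) 6)

/-- the right half of the indices -/
def JR : Finset (Fin 12) := univ.map (Fin.natAddEmb 6 (m := 6))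

theorem prod_JL (φ : ℤ → ℝ) (θ : O × O) (z : O) :
    ∏ t ∈ JL, φ (S.nn (jx t) (sd θ t * z)) = S.Fz φ (θ.1 * z) := by
  rw [JL, prod_map, Sc.Fz, Dat.Fz]
  refine prod_congr rfl fun i _ => ?_
  fin_cases i <;> rfl

theorem prod_JR (φ : ℤ → ℝ) (θ : O × O) (z : O) :
    ∏ t ∈ JR, φ (S.nn (jx t) (sd θ t * z)) = S.Fz φ (θ.2 * z) := by
  rw [JR, prod_map, Sc.Fz, Dat.Fz]
  refine prod_congr rfl fun i _ => ?_
  fin_cases i <;> rfl

theorem prod_all (φ : ℤ → ℝ) (θ : O × O) (z : O) :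
    ∏ t ∈ (univ : Finset (Fin 12)), φ (S.nn (jx t) (sd θ t * z)) =
      S.Fz φ (θ.1 * z) * S.Fz φ (θ.2 * z) := by
  have h : (univ : Finset (Fin 12)) = JL ∪ JR := by decide
  have h' : Disjoint JL JR := by decide
  rw [← prod_JL, ← prod_JR, ← prod_union h', h]

theorem avB_four (K a b : O → ℝ) (c : ℝ) :
    S.avB (fun z => K z * ((a z - c) * (b z - c))) =
      S.avB (fun z => K z * (a z * b z)) - c * S.avB (fun z => K z * a z) -
        c * S.avB (fun z => K z * b z) + c ^ 2 * S.avB fun z => K z * 1 := by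
  have h : (fun z => K z * ((a z - c) * (b z - c))) = fun z =>
      (K z * (a z * b z) + -c * (K z * a z)) + (-c * (K z * b z) + c ^ 2 * (K z * 1)) := by
    funext z; ring
  rw [h, avB_add, avB_add, avB_add, avB_mul, avB_mul, avB_mul]; ring

/-- the four terms of a nondegenerate pair -/
theorem pair (θ : O × O) (K : O → ℝ) (f g : ℤ → ℝ) {c C E : ℝ} (hc : 0 ≤ c) (hC : c ≤ C)
    (h : ∀ J : Finset (Fin 12),
      |S.avB (fun z => K z * ∏ t ∈ J, f (S.nn (jx t) (sd θ t * z))) -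
        S.avB fun z => ∏ t ∈ J, g (S.nn (jx t) (sd θ t * z))| ≤ E) :
    S.avB (fun z => K z * ((S.Fz f (θ.1 * z) - c) * (S.Fz f (θ.2 * z) - c))) ≤
      S.avB (fun z => 1 * ((S.Fz g (θ.1 * z) - c) * (S.Fz g (θ.2 * z) - c))) +
        (1 + C) ^ 2 * E := by
  have h1 := h univ
  have h2 := h JL
  have h3 := h JR
  have h4 := h ∅
  simp only [prod_all, prod_JL, prod_JR, prod_empty] at h1 h2 h3 h4
  rw [avB_four, avB_four]
  simp only [one_mul]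
  have hE : 0 ≤ E := (abs_nonneg _).trans h1
  have a1 := (abs_le.1 h1).2
  have a2 := mul_le_mul_of_nonneg_left (abs_le.1 h2).1 hc
  have a3 := mul_le_mul_of_nonneg_left (abs_le.1 h3).1 hc
  have a4 := mul_le_mul_of_nonneg_left (abs_le.1 h4).2 (sq_nonneg c)
  have a5 : (1 + c) ^ 2 * E ≤ (1 + C) ^ 2 * E := by gcongr
  nlinarith

theorem Fz_bd {φ : ℤ → ℝ} {M : ℝ} (h : ∀ x, 0 ≤ φ x ∧ φ x ≤ M) (z : O) :
    0 ≤ S.Fz φ z ∧ S.Fz φ z ≤ M ^ 6 := by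
  rw [Sc.Fz, Dat.Fz]
  refine ⟨prod_nonneg fun _ _ => (h _).1, ?_⟩
  refine (prod_le_prod (g := fun _ => M) (fun _ _ => (h _).1) fun _ _ => (h _).2).trans ?_
  simp

theorem abs_mul_le {a b c C M : ℝ} (ha : 0 ≤ a ∧ a ≤ M) (hb : 0 ≤ b ∧ b ≤ M) (hc : 0 ≤ c)
    (hC : c ≤ C) : |(a - c) * (b - c)| ≤ (M + C) ^ 2 := by
  have h1 : |a - c| ≤ M + C := abs_le.2 ⟨by linarith [ha.1, ha.2], by linarith [ha.1, ha.2]⟩
  have h2 : |b - c| ≤ M + C := abs_le.2 ⟨by linarith [hb.1, hb.2], by linarith [hb.1, hb.2]⟩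
  rw [abs_mul, sq]
  exact mul_le_mul h1 h2 (abs_nonneg _) ((abs_nonneg _).trans h1)

/-- the trivial bound for a degenerate pair -/
theorem triv (θ : O × O) (K : O → ℝ) (f g : ℤ → ℝ) {c C M : ℝ} (hc : 0 ≤ c) (hC : c ≤ C)
    (hK : ∀ z, 0 ≤ K z) (hK2 : S.avB K ≤ 2) (hf : ∀ x, 0 ≤ f x ∧ f x ≤ M)
    (hg : ∀ x, 0 ≤ g x ∧ g x ≤ 1) :
    S.avB (fun z => K z * ((S.Fz f (θ.1 * z) - c) * (S.Fz f (θ.2 * z) - c))) ≤
      S.avB (fun z => 1 * ((S.Fz g (θ.1 * z) - c) * (S.Fz g (θ.2 * z) - c))) +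
        (2 * (M ^ 6 + C) ^ 2 + (1 + C) ^ 2) := by
  have h1 : S.avB (fun z => K z * ((S.Fz f (θ.1 * z) - c) * (S.Fz f (θ.2 * z) - c))) ≤
      S.avB fun z => (M ^ 6 + C) ^ 2 * K z := by
    refine avB_mono S fun z => ?_
    rw [mul_comm ((M ^ 6 + C) ^ 2)]
    exact mul_le_mul_of_nonneg_left
      ((le_abs_self _).trans (abs_mul_le (Fz_bd S hf _) (Fz_bd S hf _) hc hC)) (hK z)
  have h2 : S.avB (fun _ => -(1 + C) ^ 2 * 1) ≤
      S.avB fun z => 1 * ((S.Fz g (θ.1 * z) - c) * (S.Fz g (θ.2 * z) - c)) := by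
    refine avB_mono S fun z => ?_
    have := (abs_le.1 (abs_mul_le (Fz_bd S hg (θ.1 * z)) (Fz_bd S hg (θ.2 * z)) hc hC)).1
    rw [one_pow] at this
    linarith
  rw [avB_mul] at h1 h2
  have h3 := mul_le_mul_of_nonneg_left hK2 (sq_nonneg (M ^ 6 + C))
  have h4 := mul_le_mul_of_nonneg_left (avB_one S) (sq_nonneg (1 + C))
  linarith

theorem err_le {e η ε' : ℝ} (he : 0 ≤ e) (hη : 0 < η) (hη1 : η ≤ 1) (h0 : 0 ≤ ε') (h1 : ε' ≤ 1) :
    (e + η / 2 + 3) * (ε' + if e + η / 2 ≤ η then 0 else 1) ≤ 4 * ε' + 10 / η * e := by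
  have h2 : 10 ≤ 10 / η := by rw [le_div_iff₀ hη]; linarith
  have h3 : 10 / η * η = 10 := div_mul_cancel₀ _ hη.ne'
  have h4 : e * ε' ≤ e := mul_le_of_le_one_right he h1
  have h5 : η * ε' ≤ ε' := mul_le_of_le_one_left h0 hη1
  have h6 : 10 * e ≤ 10 / η * e := mul_le_mul_of_nonneg_right h2 he
  split_ifs with h
  · nlinarith
  · have h7 : η / 2 ≤ e := by linarith [not_le.1 h]
    have h8 : 10 / η * (η / 2) ≤ 10 / η * e := mul_le_mul_of_nonneg_left h7 (by positivity)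
    nlinarith

theorem tail_le {L C ε M : ℝ} (hC : 0 ≤ C) (hε : 0 < ε) (hL : 1 ≤ L) (hM0 : 0 ≤ M)
    (hM : M ≤ L ^ 40) (h : 6 * (1 + C) ^ 2 / ε ≤ L) :
    (2 * (M ^ 6 + C) ^ 2 + (1 + C) ^ 2) * (1 / L ^ 600) ≤ ε / 2 := by
  have h1 : M ^ 6 ≤ L ^ 240 := by
    calc M ^ 6 ≤ (L ^ 40) ^ 6 := by gcongr
      _ = L ^ 240 := by rw [← pow_mul]
  have h2 : 1 ≤ L ^ 240 := one_le_pow₀ hL
  have h3 : M ^ 6 + C ≤ (1 + C) * L ^ 240 := by nlinarith
  have h4 : (M ^ 6 + C) ^ 2 ≤ ((1 + C) * L ^ 240) ^ 2 := by gcongr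
  have h5 : ((1 + C) * L ^ 240) ^ 2 = (1 + C) ^ 2 * L ^ 480 := by rw [mul_pow, ← pow_mul]
  have h6 : 1 ≤ L ^ 480 := one_le_pow₀ hL
  have h7 : (1 + C) ^ 2 ≤ (1 + C) ^ 2 * L ^ 480 := le_mul_of_one_le_right (sq_nonneg _) h6
  have h8 : L ^ 480 * L ≤ L ^ 600 := by
    rw [← pow_succ]; exact pow_le_pow_right₀ hL (by norm_num)
  rw [div_le_iff₀ hε] at h
  have h9 : 6 * (1 + C) ^ 2 * L ^ 480 ≤ L * ε * L ^ 480 := by gcongr
  have h10 : L ^ 480 * L * ε ≤ L ^ 600 * ε := by gcongr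
  rw [mul_one_div, div_le_iff₀ (by positivity)]
  generalize L ^ 480 = X at *
  generalize L ^ 600 = Y at *
  nlinarith

end TransAux

open TransAux in
theorem stTrans (hPair : StPair) (hLF : StLF) (hExp : StExp) (hDual : StDual) (hDeg : StDeg)
    (hMass : StMass) (hScale : StScale) : StTrans := by
  obtain ⟨CL, E₁, hCL, hLF⟩ := hLF
  refine ⟨E₁, fun d J C ε hε => ?_⟩
  obtain ⟨CD, hCD, hDual⟩ := hDual d J
  obtain ⟨CM, -, hMass⟩ := hMass d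
  obtain ⟨D, hD⟩ : ∃ D : ℝ, D = (1 + |C|) ^ 2 := ⟨_, rfl⟩
  have hD0 : 0 < D := by rw [hD]; positivity
  obtain ⟨η, hη, hη1, hPair⟩ := hPair (ε / (8 * D)) (by positivity)
  refine ⟨ε * η / (32 * D * CD), by positivity, fun P hP hJ hE => ?_⟩
  have e1 := hPair d P hP (min 1 (ε / (32 * D))) (by positivity)
  have e2 := hLF d P hP hE (η / 2) (by positivity)
  have e3 := hExp d P hP CL (ε * η / (80 * D)) hCL.le (by positivity)
  have e4 := hDual P hP hJ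
  have e5 := hDeg d P hP 600
  have e6 := hMass P hP
  have e7 := (show Ev d P _ from ⟨4, fun w hw => hScale.2.2.2 d P hP 0 w hw⟩)
  have e8 := Ev.of_eventually (d := d) (P := P)
    (Θ := fun _ ρ => (2 : ℝ) ≤ ρ ∧ 1 ≤ Real.log ρ ∧ 6 * D / ε ≤ Real.log ρ) 0
    fun _ _ => (ev_const 2).and ((ev_log 1).and (ev_log _))
  refine (((((((e1.and e2).and e3).and e4).and e5).and e6).and e7).and e8).mono ?_
  rintro S rfl rfl - ⟨⟨⟨⟨⟨⟨⟨k1, k2, k2'⟩, k3⟩, k4⟩, k5⟩, -, k6⟩, k7⟩, -, k8, k9, k10⟩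
    A g c hA hg hgs ht hc hC
  have hC' : c ≤ |C| := hC.trans (le_abs_self C)
  have hGG : Sg.GG (Sg.PP S.w S.R) S.R ≤ Real.log S.ρ ^ 40 :=
    k7.2.2.2.2.2.2.2.1 _ (filter_subset_filter _ (Ioc_subset_Ioc_left (Nat.zero_le _)))
  have hRN : S.R < S.N := by
    obtain ⟨b1, b2, b3, -⟩ := hP.big
    exact Nat.pow_lt_pow_right (by exact_mod_cast (by linarith : (1 : ℝ) < S.ρ)) (by omega)
  have hf : ∀ x, 0 ≤ S.ff A x ∧ S.ff A x ≤ S.nu x := fun x =>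
    ⟨ff_nonneg S A x, ff_le_nu S hA hRN x⟩
  have hbad := k4 (fun x => S.ff A x - g x) η _ hη (fun x hx => by
    by_cases h : x ∈ A
    · exact ⟨(hA x h).1, (hA x h).2.1⟩
    · refine hgs x fun h0 => hx ?_
      simp [Sc.ff, h, h0]) ht
  have r1 := avB_sq S S.Th S.mu (nuK S.w S.R) fun i z => S.Fz (S.ff A) (i.1 * i.2 * z) - c
  have r2 := avB_sq S S.Th S.mu (fun _ => 1) fun i z => S.Fz g (i.1 * i.2 * z) - c
  simp only [one_mul] at r2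
  rw [r1, r2]
  have hsub : S.T2 ⊆ S.Th ×ˢ S.Th := filter_subset _ _
  rw [← sum_sdiff hsub, ← sum_sdiff hsub]
  obtain ⟨ε', hε'⟩ : ∃ ε' : ℝ, ε' = min 1 (ε / (32 * D)) := ⟨_, rfl⟩
  rw [← hε'] at k1
  have q0 : 0 ≤ ε' := by rw [hε']; positivity
  have q1 : ε' ≤ 1 := hε' ▸ min_le_left _ _
  have q2 : ε' ≤ ε / (32 * D) := hε' ▸ min_le_right _ _
  have s1 := sum_le_sum (s := S.T2) fun θ hθ =>
    pair S (pr θ) (nuK S.w S.R) (S.ff A) g (E := ε / (4 * D) +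
      10 / η * etaP CL S.w S.R (S.d.Del (pr θ)) + 4 * S.badC (pr θ) (fun x => S.ff A x - g x) η)
      hc hC' fun J => by
        have u1 := k1 (pr θ) (mem_filter.1 hθ).2 _ (S.ff A) g J (k2' _ (mem_filter.1 hθ).2) hf hg
        have u2 := err_le (etaP_nonneg hCL.le S.w S.R (S.d.Del (pr θ))) hη hη1 q0 q1
        have u3 : ε / (8 * D) + 4 * (ε / (32 * D)) = ε / (4 * D) := by field_simp; ring
        linarith
  have s2 := sum_le_sum (s := (S.Th ×ˢ S.Th) \ S.T2) fun θ _ =>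
    triv S (pr θ) (nuK S.w S.R) (S.ff A) g hc hC' (nuK_nonneg _ _) k2
      (fun x => ⟨ff_nonneg S A x, ff_le_GG S A x⟩) hg
  simp only [one_mul, pr, sum_add_distrib, sum_const, nsmul_eq_mul, ← mul_sum, ← hD] at s1 s2
  have t1 := tail_le (abs_nonneg C) hε k9 (GG_nonneg (fun _ => PP_two) _) hGG (hD ▸ k10)
  rw [← hD] at t1
  have hm : 0 ≤ S.mu ^ 2 := sq_nonneg _
  have hmu : 0 ≤ S.mu * S.Th.card := by
    refine mul_nonneg (div_nonneg (mul_nonneg (zero_le_one.trans k7.2.2.2.1) (sq_nonneg _))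
      (mul_nonneg (mul_nonneg (sum_nonneg fun γ _ => ?_) (sq_nonneg _)) (sq_nonneg _)))
      (Nat.cast_nonneg _)
    have : (0 : ℝ) ≤ γ.norm := by exact_mod_cast norm_nonneg' γ
    positivity
  have m1 : S.mu ^ 2 * S.T2.card ≤ 1 := by
    have c1 : (S.T2.card : ℝ) ≤ (S.Th.card : ℝ) ^ 2 := by
      have := card_le_card hsub
      rw [card_product, ← sq] at this
      exact_mod_cast this
    calc S.mu ^ 2 * S.T2.card ≤ S.mu ^ 2 * (S.Th.card : ℝ) ^ 2 := by gcongr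
      _ = (S.mu * S.Th.card) ^ 2 := by ring
      _ ≤ 1 := pow_le_one₀ hmu k6
  simp only [pr] at k3 hbad
  have v1 := mul_le_mul_of_nonneg_left s1 hm
  have v2 := mul_le_mul_of_nonneg_left s2 hm
  obtain ⟨Z, hZ⟩ : ∃ Z : ℝ, Z = 2 * (Sg.GG (Sg.PP S.w S.R) S.R ^ 6 + |C|) ^ 2 + D := ⟨_, rfl⟩
  have hZ0 : 0 ≤ Z := by rw [hZ]; positivity
  have v3 := mul_le_mul_of_nonneg_left k5 hZ0
  have v4 := mul_le_mul_of_nonneg_left m1 (by positivity : 0 ≤ ε / 4)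
  have v5 := mul_le_mul_of_nonneg_left k3 (by positivity : 0 ≤ D * (10 / η))
  have v6 := mul_le_mul_of_nonneg_left hbad (by positivity : 0 ≤ 4 * D)
  have w1 : D * (10 / η) * (ε * η / (80 * D)) = ε / 8 := by field_simp; ring
  have w2 : 4 * D * (CD * (ε * η / (32 * D * CD)) / η) = ε / 8 := by field_simp; ring
  have w3 : D * (ε / (4 * D)) = ε / 4 := by field_simp
  rw [w1] at v5
  rw [w2] at v6
  rw [← hZ] at t1
  have v7 := v3.trans t1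
  rw [hZ] at v7
  have w4 : D * (ε / (4 * D)) * (S.mu ^ 2 * S.T2.card) = ε / 4 * (S.mu ^ 2 * S.T2.card) := by
    rw [w3]
  linarith

end Pool.Agent.Lib.MP_7d3fda_nt.Q3
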