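import Pool.Agent.Lib.MP_7d3fda_nt.Q3.Basic

open Finset Filter
open scoped Classical NumberTheorySymbols

noncomputable section

namespace Pool.Agent.Lib.MP_7d3fda_nt.Q3

open Pool.Agent.Lib.MP_4b8564_nt Pool.Agent.Lib.MP_4b8564_nt.GT
open Pool.Agent.Lib.MP_0a3467_an.Cv (Low)
open Pool.Agent.Lib.MP_0a3467_an

namespace UnifAux

/-- the factor of the primes that divide `Δ` -/
def gP (C : ℝ) (w R : ℕ) (Δ : ℤ) : ℝ :=
  ∏ p ∈ (Sg.PP w R).filter fun p : ℕ => (p : ℤ) ∣ Δ, (1 + C / (p : ℝ))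

variable {C : ℝ} {w R : ℕ}

theorem one_le_fac (hC : 0 ≤ C) (p : ℕ) : (1 : ℝ) ≤ 1 + C / (p : ℝ) :=
  le_add_of_nonneg_right (div_nonneg hC (Nat.cast_nonneg _))

theorem one_le_gP (hC : 0 ≤ C) (Δ : ℤ) : 1 ≤ gP C w R Δ :=
  one_le_prod fun p _ => one_le_fac hC p

theorem gP_mono (hC : 0 ≤ C) {Δ Δ' : ℤ} (h : Δ ∣ Δ') : gP C w R Δ ≤ gP C w R Δ' := by
  refine prod_le_prod_of_subset_of_one_le (fun p hp => ?_)
    (fun p _ => zero_le_one.trans (one_le_fac hC p)) fun p _ _ => one_le_fac hC p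
  rw [mem_filter] at hp ⊢
  exact ⟨hp.1, hp.2.trans h⟩

theorem gP_mul (hC : 0 ≤ C) (Δ Δ' : ℤ) : gP C w R (Δ * Δ') ≤ gP C w R Δ * gP C w R Δ' := by
  simp only [gP, prod_filter]
  rw [← prod_mul_distrib]
  refine prod_le_prod (fun p _ => ?_) fun p hp => ?_
  · have := one_le_fac hC p
    split_ifs <;> linarith
  · have h1 := one_le_fac hC p
    have hp' : Prime (p : ℤ) := Nat.prime_iff_prime_int.1 (mem_filter.1 hp).2
    by_cases h : (p : ℤ) ∣ Δ <;> by_cases h' : (p : ℤ) ∣ Δ'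
    · rw [if_pos (h.mul_right _), if_pos h, if_pos h']; nlinarith
    · rw [if_pos (h.mul_right _), if_pos h, if_neg h', mul_one]
    · rw [if_pos (h'.mul_left _), if_neg h, if_pos h', one_mul]
    · rw [if_neg (fun h2 => (hp'.dvd_or_dvd h2).elim h h'), if_neg h, if_neg h', mul_one]

theorem gP_small {e : ℕ} (he : 0 < e) (hw : e ≤ w) : gP C w R e = 1 := by
  rw [gP, filter_false_of_mem, prod_empty]
  intro p hp h
  have h1 := Nat.le_of_dvd he (Int.natCast_dvd_natCast.1 h)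
  have h2 := (mem_Ioc.1 (mem_filter.1 hp).1).1
  omega

theorem gP_one : gP C w R 1 = 1 := by
  rw [gP, filter_false_of_mem, prod_empty]
  intro p hp h
  exact (Nat.prime_iff_prime_int.1 (mem_filter.1 hp).2).not_dvd_one h

theorem etaP_eq (Δ : ℤ) : etaP C w R Δ = (etaP C w R 1 + 1) * gP C w R Δ - 1 := by
  have h : etaP C w R 1 = (∏ p ∈ Sg.PP w R, (1 + C / (p : ℝ) ^ 2)) * gP C w R 1 - 1 := rfl
  rw [h, gP_one, mul_one, sub_add_cancel]; rfl

theorem etaP_one_nonneg (hC : 0 ≤ C) : 0 ≤ etaP C w R 1 := by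
  have h : etaP C w R 1 = (∏ p ∈ Sg.PP w R, (1 + C / (p : ℝ) ^ 2)) * gP C w R 1 - 1 := rfl
  rw [h, gP_one, mul_one, sub_nonneg]
  exact one_le_prod fun p _ => le_add_of_nonneg_right (div_nonneg hC (by positivity))

theorem gP_le_etaP (hC : 0 ≤ C) (Δ : ℤ) : gP C w R Δ - 1 ≤ etaP C w R Δ := by
  rw [etaP_eq]
  nlinarith [one_le_gP (w := w) (R := R) hC Δ, etaP_one_nonneg (w := w) (R := R) hC]

/-- mixtures of functions that are structured along all multiples of one step -/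
def Mix (C : ℝ) (w R H : ℕ) (a : ℝ) (Y : ℕ) (M : ℝ) (ψ : ℤ → ℝ) : Prop :=
  ∃ (I : Type) (T : Finset I) (μ : I → ℝ) (B : I → ℕ) (D : I → ℤ → ℝ),
    (∀ i ∈ T, 0 ≤ μ i ∧ 0 < B i ∧ B i ≤ Y ∧ (∀ x, |D i x| ≤ 1) ∧
      ∀ B' : ℕ, B i ∣ B' → B' ≤ R → LowDir (fun _ : Fin 11 => (B' : ℤ)) H M (D i)) ∧
    ∑ i ∈ T, μ i ≤ 1 ∧ ∑ i ∈ T, μ i * (gP C w R (B i) - 1) ≤ a ∧
    ∀ x, ψ x = ∑ i ∈ T, μ i * D i x

variable {H : ℕ}

theorem mix_one : Mix C w R H 0 1 1 fun _ => 1 := by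
  refine ⟨Unit, univ, fun _ => 1, fun _ => 1, fun _ _ => 1, fun _ _ => ⟨zero_le_one, one_pos,
    le_rfl, fun _ => by simp, fun B' _ _ x => Cv.Low.const (by simp)⟩, by simp, ?_, by simp⟩
  simp [gP_one]

theorem mix_mul (hC : 0 ≤ C) {a a' M M' : ℝ} {Y Y' : ℕ} {ψ ψ' : ℤ → ℝ}
    (h : Mix C w R H a Y M ψ) (h' : Mix C w R H a' Y' M' ψ') :
    Mix C w R H ((1 + a) * (1 + a') - 1) (Y * Y') (M * M') fun x => ψ x * ψ' x := by
  obtain ⟨I, T, μ, B, D, h1, h2, h3, h4⟩ := h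
  obtain ⟨I', T', μ', B', D', h1', h2', h3', h4'⟩ := h'
  have s0 : 0 ≤ ∑ i ∈ T, μ i := sum_nonneg fun i hi => (h1 i hi).1
  have s0' : 0 ≤ ∑ i ∈ T', μ' i := sum_nonneg fun i hi => (h1' i hi).1
  have t0 : 0 ≤ ∑ i ∈ T, μ i * (gP C w R (B i) - 1) :=
    sum_nonneg fun i hi => mul_nonneg (h1 i hi).1 (sub_nonneg.2 (one_le_gP hC _))
  have t0' : 0 ≤ ∑ i ∈ T', μ' i * (gP C w R (B' i) - 1) :=
    sum_nonneg fun i hi => mul_nonneg (h1' i hi).1 (sub_nonneg.2 (one_le_gP hC _))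
  refine ⟨I × I', T ×ˢ T', fun i => μ i.1 * μ' i.2, fun i => B i.1 * B' i.2,
    fun i x => D i.1 x * D' i.2 x, fun i hi => ?_, ?_, ?_, fun x => ?_⟩
  · obtain ⟨a1, a2, a3, a4, a5⟩ := h1 i.1 (mem_product.1 hi).1
    obtain ⟨b1, b2, b3, b4, b5⟩ := h1' i.2 (mem_product.1 hi).2
    refine ⟨mul_nonneg a1 b1, Nat.mul_pos a2 b2, Nat.mul_le_mul a3 b3, fun x => ?_,
      fun Z hZ hZ' x => ?_⟩
    · rw [abs_mul]; exact mul_le_one₀ (a4 x) (abs_nonneg _) (b4 x)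
    · exact (a5 Z ((dvd_mul_right _ _).trans hZ) hZ' x).mul
        (b5 Z ((dvd_mul_left _ _).trans hZ) hZ' x)
  · rw [sum_product' (f := fun i j => μ i * μ' j), ← sum_mul_sum]
    exact mul_le_one₀ h2 s0' h2'
  · calc ∑ i ∈ T ×ˢ T', μ i.1 * μ' i.2 * (gP C w R ((B i.1 * B' i.2 : ℕ) : ℤ) - 1)
        ≤ ∑ i ∈ T ×ˢ T', (μ i.1 * (gP C w R (B i.1) - 1) * (μ' i.2 * (gP C w R (B' i.2) - 1)) +
            μ i.1 * (gP C w R (B i.1) - 1) * μ' i.2 +
            μ i.1 * (μ' i.2 * (gP C w R (B' i.2) - 1))) := by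
          refine sum_le_sum fun i hi => ?_
          have a1 := (h1 i.1 (mem_product.1 hi).1).1
          have b1 := (h1' i.2 (mem_product.1 hi).2).1
          have c1 := gP_mul (w := w) (R := R) hC (B i.1) (B' i.2)
          rw [Nat.cast_mul]
          have c2 := mul_le_mul_of_nonneg_left c1 (mul_nonneg a1 b1)
          nlinarith
      _ = (∑ i ∈ T, μ i * (gP C w R (B i) - 1)) * (∑ i ∈ T', μ' i * (gP C w R (B' i) - 1)) +
            (∑ i ∈ T, μ i * (gP C w R (B i) - 1)) * (∑ i ∈ T', μ' i) +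
            (∑ i ∈ T, μ i) * ∑ i ∈ T', μ' i * (gP C w R (B' i) - 1) := by
          rw [sum_add_distrib, sum_add_distrib, sum_mul_sum, sum_mul_sum, sum_mul_sum,
            sum_product, sum_product, sum_product]
      _ ≤ a * a' + a * 1 + 1 * a' := by
          have ha : 0 ≤ a := t0.trans h3
          gcongr
      _ = (1 + a) * (1 + a') - 1 := by ring
  · show ψ x * ψ' x = _
    rw [h4, h4', sum_mul_sum, sum_product]
    exact sum_congr rfl fun i _ => sum_congr rfl fun j _ => by ring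

theorem mix_prod (hC : 0 ≤ C) {a M : ℝ} {Y : ℕ} (k : ℕ) (ψ : Fin k → ℤ → ℝ)
    (h : ∀ i, Mix C w R H a Y M (ψ i)) :
    Mix C w R H ((1 + a) ^ k - 1) (Y ^ k) (M ^ k) fun x => ∏ i, ψ i x := by
  induction k with
  | zero => simpa using mix_one
  | succ k ih =>
    have h1 := mix_mul hC (h 0) (ih (fun i => ψ i.succ) fun i => h i.succ)
    have e : (1 + a) * (1 + ((1 + a) ^ k - 1)) - 1 = (1 + a) ^ (k + 1) - 1 := by ring
    rw [e, ← pow_succ', ← pow_succ'] at h1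
    simpa only [Fin.prod_univ_succ] using h1

theorem mix_chi {a M : ℝ} {Y e : ℕ} (he : 0 < e) (hw : e ≤ w) (hY : e ≤ Y) (ha : 0 ≤ a)
    (hM : 1 ≤ M) : Mix C w R H a Y M (chi e) := by
  have hb : ∀ x, |chi e x| ≤ 1 := fun x => by
    unfold chi; split_ifs <;> simp
  refine ⟨Unit, univ, fun _ => 1, fun _ => e, fun _ => chi e, fun _ _ => ⟨zero_le_one, he, hY, hb,
    fun B' hB _ x => ?_⟩, by simp, by simpa [gP_small he hw] using ha, by simp⟩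
  refine (Cv.Low.const (c := chi e x) ((hb x).trans hM)).congr fun t _ => ?_
  have h1 : (e : ℤ) ∣ ∑ r, (B' : ℤ) * t r :=
    dvd_sum fun r _ => (Int.natCast_dvd_natCast.2 hB).mul_right _
  simp only [chi, dvd_add_left h1]

theorem mix_tst {Θ : Type} {T : Finset Θ} {μ : Θ → ℝ} {b : Θ → Fin 11 → ℤ} {H₀ Bm : ℕ}
    {a M : ℝ} {ψ : ℤ → ℝ} (h : Tst T μ b H₀ M ψ) (h0 : ∀ θ ∈ T, 0 ≤ μ θ)
    (h1 : ∑ θ ∈ T, μ θ ≤ 1) (hb : ∀ θ ∈ T, ∀ r, b θ r ≠ 0 ∧ |b θ r| ≤ Bm) (hH : R * H ≤ H₀)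
    (ha : ∑ θ ∈ T, μ θ * (gP C w R ((∏ r, (b θ r).natAbs : ℕ) : ℤ) - 1) ≤ a) :
    Mix C w R H a (Bm ^ 11) M ψ := by
  obtain ⟨D, hD, rfl⟩ := h
  refine ⟨Θ, T, μ, fun θ => ∏ r, (b θ r).natAbs, D, fun θ hθ => ⟨h0 θ hθ, ?_, ?_, (hD θ hθ).1,
    fun B' hB hR x => ?_⟩, h1, ha, fun _ => rfl⟩
  · exact prod_pos fun r _ => Int.natAbs_pos.2 (hb θ hθ r).1
  · have h2 := prod_le_pow_card univ (fun r => (b θ r).natAbs) Bm fun r _ => by
      have := (hb θ hθ r).2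
      rw [Int.abs_eq_natAbs] at this
      exact_mod_cast this
    simpa using h2
  · have hd : ∀ r, b θ r ∣ (B' : ℤ) := fun r =>
      Int.natAbs_dvd.1 (Int.natCast_dvd_natCast.2
        ((dvd_prod_of_mem (fun r => (b θ r).natAbs) (mem_univ r)).trans hB))
    choose c hc using hd
    refine (low_comp ((hD θ hθ).2 x) (B' := Set.Icc (-(H : ℤ)) H) (fun r t => c r * t)
      fun r t ht => ?_).congr fun t _ => ?_
    · have e1 : |c r| ≤ R := by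
        have e2 : (B' : ℤ) = |b θ r| * |c r| := by rw [← abs_mul, ← hc r, Nat.abs_cast]
        have e3 := Int.one_le_abs (hb θ hθ r).1
        have e4 : (B' : ℤ) ≤ R := by exact_mod_cast hR
        nlinarith [abs_nonneg (c r)]
      have e5 : |t| ≤ H := abs_le.2 ht
      have e6 : |c r * t| ≤ H₀ := by
        rw [abs_mul]
        calc |c r| * |t| ≤ (R : ℤ) * H := mul_le_mul e1 e5 (abs_nonneg _) (Int.natCast_nonneg _)
          _ ≤ H₀ := by exact_mod_cast hH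
      exact abs_le.1 e6
    · show D θ _ = D θ _
      congr 2
      exact sum_congr rfl fun r _ => by rw [hc r, mul_assoc]

theorem mix_bound (hC : 0 ≤ C) {a M α β : ℝ} {Y N : ℕ} {ψ u : ℤ → ℝ}
    (h : Mix C w R H a Y M ψ) (hY : Y ≤ R) (hα : 0 ≤ α) (hβ : 0 ≤ β)
    (hu : ∀ (B : ℕ) (φ : ℤ → ℝ), 0 < B → B ≤ R → (∀ x, |φ x| ≤ 1) →
      LowDir (fun _ : Fin 11 => (B : ℤ)) H M φ →
      |avI N fun x => u x * φ x| ≤ α + β * etaP C w R B) :
    |avI N fun x => u x * ψ x| ≤ α + β * ((etaP C w R 1 + 1) * (1 + a) - 1) := by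
  obtain ⟨I, T, μ, B, D, h1, h2, h3, h4⟩ := h
  have e : (avI N fun x => u x * ψ x) = ∑ i ∈ T, μ i * avI N fun x => u x * D i x := by
    simp only [avI, h4, mul_sum, ← mul_div_assoc, ← sum_div]
    rw [sum_comm]
    congr 1
    exact sum_congr rfl fun i _ => sum_congr rfl fun x _ => by ring
  have e0 := etaP_one_nonneg (w := w) (R := R) hC
  rw [e]
  calc |∑ i ∈ T, μ i * avI N fun x => u x * D i x|
      ≤ ∑ i ∈ T, ((α + β * etaP C w R 1) * μ i +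
          β * (etaP C w R 1 + 1) * (μ i * (gP C w R (B i) - 1))) := by
        refine (abs_sum_le_sum_abs _ _).trans (sum_le_sum fun i hi => ?_)
        obtain ⟨a1, a2, a3, a4, a5⟩ := h1 i hi
        have a6 := hu (B i) (D i) a2 (a3.trans hY) a4 (a5 _ dvd_rfl (a3.trans hY))
        rw [abs_mul, abs_of_nonneg a1]
        refine (mul_le_mul_of_nonneg_left a6 a1).trans (le_of_eq ?_)
        rw [etaP_eq (B i : ℤ)]
        ring
    _ = (α + β * etaP C w R 1) * ∑ i ∈ T, μ i +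
          β * (etaP C w R 1 + 1) * ∑ i ∈ T, μ i * (gP C w R (B i) - 1) := by
        rw [sum_add_distrib, ← mul_sum, ← mul_sum]
    _ ≤ (α + β * etaP C w R 1) * 1 + β * (etaP C w R 1 + 1) * a := by gcongr
    _ = α + β * ((etaP C w R 1 + 1) * (1 + a) - 1) := by ring

theorem exists_pow_le (n : ℕ) {ε : ℝ} (hε : 0 < ε) : ∃ δ : ℝ, 0 < δ ∧ (1 + δ) ^ n ≤ 1 + ε := by
  have hl : 0 < Real.log (1 + ε) := Real.log_pos (by linarith)
  refine ⟨Real.log (1 + ε) / (n + 1), by positivity, ?_⟩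
  have h1 : 1 + Real.log (1 + ε) / (n + 1) ≤ Real.exp (Real.log (1 + ε) / (n + 1)) := by
    linarith [Real.add_one_le_exp (Real.log (1 + ε) / (n + 1))]
  calc (1 + Real.log (1 + ε) / (n + 1)) ^ n
      ≤ Real.exp (Real.log (1 + ε) / (n + 1)) ^ n := by gcongr
    _ = Real.exp (n * (Real.log (1 + ε) / (n + 1))) := (Real.exp_nat_mul _ _).symm
    _ ≤ Real.exp (Real.log (1 + ε)) := by
        refine Real.exp_le_exp.2 ?_
        rw [← mul_div_assoc, div_le_iff₀ (by positivity)]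
        nlinarith
    _ = 1 + ε := Real.exp_log (by linarith)

theorem choose_par {η M c : ℝ} (n : ℕ) (hη : 0 < η) (hM : 0 < M) (hc : 0 < c) :
    ∃ τ ε : ℝ, 0 < τ ∧ 0 < ε ∧ M * (τ + c * ε / τ ^ n) + ε + M * (c / τ ^ n) * ε ≤ η := by
  have hτ : 0 < η / (2 * M) := by positivity
  have hK : 0 < 2 * (M * (c / (η / (2 * M)) ^ n)) + 1 := by positivity
  refine ⟨η / (2 * M), η / 2 / (2 * (M * (c / (η / (2 * M)) ^ n)) + 1), hτ, by positivity, ?_⟩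
  generalize hK' : c / (η / (2 * M)) ^ n = K at hK ⊢
  have e : ∀ ε : ℝ, c * ε / (η / (2 * M)) ^ n = K * ε := fun ε => by rw [← hK']; ring
  rw [e]
  have e1 : η / 2 / (2 * (M * K) + 1) * (2 * (M * K) + 1) = η / 2 := div_mul_cancel₀ _ hK.ne'
  have e2 : M * (η / (2 * M)) = η / 2 := by field_simp
  refine le_of_eq ?_
  linear_combination e1 + e2

theorem sum_T3 (hC : 0 ≤ C) (S : Sc) :
    ∑ x ∈ S.T3, S.mu ^ 2 / 12 *
      (gP C S.w S.R ((∏ r, (S.d.bv (pr x.1, x.2) r).natAbs : ℕ) : ℤ) - 1) ≤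
      S.mu ^ 2 * ∑ θ ∈ S.T2, etaP C S.w S.R (S.d.Del (pr θ)) := by
  rw [Sc.T3, sum_product, mul_sum]
  refine sum_le_sum fun θ _ => ?_
  calc ∑ t : Fin 12, S.mu ^ 2 / 12 *
        (gP C S.w S.R ((∏ r, (S.d.bv (pr θ, t) r).natAbs : ℕ) : ℤ) - 1)
      ≤ ∑ _t : Fin 12, S.mu ^ 2 / 12 * etaP C S.w S.R (S.d.Del (pr θ)) := by
        refine sum_le_sum fun t _ => mul_le_mul_of_nonneg_left ?_ (by positivity)
        refine le_trans (sub_le_sub_right (gP_mono hC ?_) 1) (gP_le_etaP hC _)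
        have h1 : ((∏ r, (S.d.bv (pr θ, t) r).natAbs : ℕ) : ℤ) ∣ ∏ r, S.d.bv (pr θ, t) r := by
          rw [Nat.cast_prod]
          exact prod_dvd_prod_of_dvd _ _ fun r _ => Int.natAbs_dvd.2 dvd_rfl
        exact h1.trans (dvd_prod_of_mem (fun t => ∏ r, S.d.bv (pr θ, t) r) (mem_univ t))
    _ = S.mu ^ 2 * etaP C S.w S.R (S.d.Del (pr θ)) := by
        rw [sum_const, card_univ, Fintype.card_fin, nsmul_eq_mul]
        push_cast
        ring

end UnifAux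

open UnifAux in
theorem stUnif (hUnifA : StUnifA) (hExp : StExp) (_hMass : StMass) (hReach : StReach)
    (hEta : StEta) : StUnif := by
  obtain ⟨C, E₁, hC, hU⟩ := hUnifA
  refine ⟨E₁, fun d P hP hE m η hη hm => ?_⟩
  generalize hc : (2 : ℝ) ^ 2048 = c at hU
  generalize (2047 : ℕ) = n at hU
  have hc0 : 0 < c := hc ▸ pow_pos two_pos _
  have hM1 : (1 : ℝ) ≤ 3 ^ 11 := one_le_pow₀ (by norm_num)
  obtain ⟨τ, ε, hτ, hε, hfin⟩ := choose_par (M := ((3 : ℝ) ^ 11) ^ m) n hη (by positivity) hc0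
  obtain ⟨δ, hδ, hδε⟩ := exists_pow_le (m + 1) hε
  obtain ⟨w₀, hw₀⟩ := hEta C δ hC.le hδ
  refine ((((hU d P hP hE ε hε).and (hExp d P hP C δ hC.le hδ)).and (hReach d P hP 1 one_pos)).and
    (Ev.of_eventually (d := d) (P := P) (Θ := fun _ ρ => d.e ≤ ρ) (max w₀ d.e)
      fun _ _ => eventually_ge_atTop _)).mono ?_
  rintro S rfl rfl - ⟨⟨⟨h1, h2⟩, h3⟩, h4, h5⟩ k hk ψ hψ
  obtain ⟨b1, b2, b3, -⟩ := hP.big
  have hρ : 0 < S.ρ := S.d.he.trans_le h5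
  have hH : S.R * S.ρ ^ (S.P.E * S.P.A / 2) ≤ S.H := by
    rw [Sc.R, Sc.H, ← pow_add]
    exact Nat.pow_le_pow_right hρ (by omega)
  have hmix : ∀ i, Mix C S.w S.R (S.ρ ^ (S.P.E * S.P.A / 2)) δ (S.Bm ^ 11) (3 ^ 11) (ψ i) := by
    intro i
    rcases hψ i with h | h
    · refine mix_tst h h3.m0 h3.m1 (fun θ hθ r => ⟨fun e => ?_, (h3.sz θ hθ r).2⟩) hH
        ((sum_T3 hC.le S).trans h2)
      have e1 := (h3.sz θ hθ r).1
      have e2 := h3.bm0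
      rw [e, abs_zero] at e1
      omega
    · rw [h]
      refine mix_chi S.d.he (le_of_max_le_right h4) (h5.trans ?_) hδ.le hM1
      rw [Sc.Bm, ← pow_mul]
      exact Nat.le_self_pow (by omega) _
  have hY : (S.Bm ^ 11) ^ k ≤ S.R := by
    rw [Sc.Bm, Sc.R, ← pow_mul, ← pow_mul]
    refine Nat.pow_le_pow_right hρ (le_trans ?_ hm)
    calc (16 * S.P.a + 1) * (11 * k) ≤ (17 * S.P.a) * (11 * m) :=
          Nat.mul_le_mul (by omega) (by omega)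
      _ ≤ 400 * (m + 1) * S.P.a := by nlinarith
  have hMk : ((3 : ℝ) ^ 11) ^ k ≤ (3 ^ 11) ^ m := pow_le_pow_right₀ hM1 hk
  have hb := mix_bound hC.le (mix_prod hC.le k ψ hmix) hY (N := S.N) (u := fun x => S.nu x - 1)
    (α := (3 ^ 11) ^ m * (τ + c * ε / τ ^ n) + ε) (β := (3 ^ 11) ^ m * (c / τ ^ n))
    (by positivity) (by positivity) fun B φ a1 a2 a3 a4 => by
      refine (h1 B _ τ φ a1 a2 hτ a3 fun x => (a4 x).mono hMk).trans (le_of_eq ?_)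
      ring
  refine hb.trans (le_trans ?_ hfin)
  have e1 : etaP C S.w S.R 1 ≤ δ := hw₀ _ (le_of_max_le_left h4) _
  have e2 : (1 + δ) ^ k ≤ (1 + δ) ^ m := pow_le_pow_right₀ (by linarith) hk
  have e3 : (etaP C S.w S.R 1 + 1) * (1 + ((1 + δ) ^ k - 1)) - 1 ≤ ε := by
    have e4 : (etaP C S.w S.R 1 + 1) * (1 + δ) ^ k ≤ (1 + δ) * (1 + δ) ^ m :=
      mul_le_mul (by linarith) e2 (by positivity) (by linarith)
    rw [pow_succ'] at hδε
    have e5 : 1 + ((1 + δ) ^ k - 1) = (1 + δ) ^ k := by ring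
    rw [e5]
    linarith
  gcongr

end Pool.Agent.Lib.MP_7d3fda_nt.Q3
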