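import Pool.Agent.Lib.MP_7d3fda_nt.Q3.Dns
import Pool.Agent.Lib.MP_4b8564_nt.GT.LFcore

open Finset Filter
open scoped Classical NumberTheorySymbols

noncomputable section

namespace Pool.Agent.Lib.MP_7d3fda_nt.Q3

open Pool.Agent.Lib.MP_4b8564_nt Pool.Agent.Lib.MP_4b8564_nt.GT
open Pool.Agent.Lib.MP_0a3467_an.Cv (Low)
open Pool.Agent.Lib.MP_0a3467_an

namespace UnifAAux

theorem sum_Ico_eq (N : ℕ) (f : ℤ → ℝ) :
    ∑ x ∈ Ico (N : ℤ) (2 * N), f x = ∑ i ∈ range N, f (N + i) := by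
  symm
  refine sum_nbij' (fun i : ℕ => (N : ℤ) + i) (fun x : ℤ => (x - N).toNat) ?_ ?_ ?_ ?_ ?_
  · intro i hi
    have := mem_range.1 hi
    exact mem_Ico.2 ⟨by omega, by omega⟩
  · intro x hx
    have := mem_Ico.1 hx
    exact mem_range.2 (by omega)
  · intro i _
    simp
  · intro x hx
    have := mem_Ico.1 hx
    show (N : ℤ) + ((x - N).toNat : ℤ) = x
    omega
  · intro i _
    rfl

theorem abs_range (g : ℕ → ℝ) (K : ℝ) (hg : ∀ i, |g i| ≤ K) (n : ℕ) :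
    |∑ i ∈ range n, g i| ≤ n * K := by
  calc |∑ i ∈ range n, g i| ≤ ∑ i ∈ range n, |g i| := abs_sum_le_sum_abs _ _
    _ ≤ ∑ _i ∈ range n, K := sum_le_sum fun i _ => hg i
    _ = n * K := by simp

theorem shift (g : ℕ → ℝ) (K : ℝ) (hg : ∀ i, |g i| ≤ K) (N δ D : ℕ) (hD : δ ≤ D) :
    |∑ i ∈ range N, g (δ + i) - ∑ i ∈ range N, g i| ≤ 2 * D * K := by
  have h1 := sum_range_add g δ N
  have h2 := sum_range_add g N δ
  rw [add_comm N δ, h1] at h2
  have h3 : ∑ i ∈ range N, g (δ + i) - ∑ i ∈ range N, g i =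
      ∑ i ∈ range δ, g (N + i) - ∑ i ∈ range δ, g i := by linarith
  have h4 := abs_range g K hg δ
  have h5 := abs_range (fun i => g (N + i)) K (fun i => hg _) δ
  have hK : 0 ≤ K := (abs_nonneg _).trans (hg 0)
  have h6 : (δ : ℝ) * K ≤ D * K := mul_le_mul_of_nonneg_right (by exact_mod_cast hD) hK
  rw [h3]
  refine (abs_sub _ _).trans ?_
  linarith

/-- the box average at `y` -/
def Bx (s H B : ℕ) (u : ℤ → ℝ) (y : ℤ) : ℝ :=
  av fun t : Fin s → Fin H => av fun t' : Fin s → Fin H =>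
    ∏ ω : Finset (Fin s), u (y + ∑ r, (B : ℤ) * (((if r ∈ ω then t' r else t r : Fin H) : ℕ) : ℤ))

theorem cutY (hBox : StBoxCS) {s H B : ℕ} (hs : 0 < s) (hH : 0 < H) (u ψ : ℤ → ℝ) {M τ : ℝ}
    (hτ : 0 < τ) (hlow : LowDir (fun _ : Fin s => (B : ℤ)) H M ψ) (y : ℤ) :
    |av fun t : Fin s → Fin H => u (y + ∑ r, (B : ℤ) * ((t r : ℕ) : ℤ)) *
      ψ (y + ∑ r, (B : ℤ) * ((t r : ℕ) : ℤ))| ≤ M * (τ + Bx s H B u y / τ ^ (2 ^ s - 1)) := by
  have : Nonempty (Fin s) := ⟨⟨0, hs⟩⟩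
  have hc : (0 : ℝ) < (H : ℝ) ^ s := by positivity
  have h1 := low_comp (B' := (Set.univ : Set (Fin H))) (hlow y)
    (fun _ (a : Fin H) => ((a : ℕ) : ℤ)) (fun _ a _ => by
      have := a.2
      exact ⟨by omega, by omega⟩)
  have h2 : Cv.Cut (univ : Finset (Fin H))
      (fun t : Fin s → Fin H => u (y + ∑ r, (B : ℤ) * ((t r : ℕ) : ℤ)))
      (τ + Bx s H B u y / τ ^ (2 ^ s - 1)) := by
    intro F hF
    have h3 := hBox (Fin s) (Fin H) (fun _ => univ)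
      (fun t : Fin s → Fin H => u (y + ∑ r, (B : ℤ) * ((t r : ℕ) : ℤ))) F hF
    rw [Fintype.card_fin] at h3
    simp only [card_univ, Fintype.card_fin, prod_const, Fintype.piFinset_univ] at h3 ⊢
    rw [← div_le_iff₀ hc]
    refine le_of_pow_le (n := 2 ^ s) (by positivity) hτ (by positivity) ?_
    have h4 : 2 ≤ 2 ^ s := Nat.le_self_pow hs.ne' 2
    have h5 : ((H : ℝ) ^ s) ^ 2 ^ s = ((H : ℝ) ^ s) ^ (2 ^ s - 2) * ((H : ℝ) ^ s * (H : ℝ) ^ s) := by
      rw [← sq, ← pow_add, Nat.sub_add_cancel h4]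
    rw [div_pow, div_le_iff₀ (by positivity), h5]
    refine h3.trans (le_of_eq ?_)
    simp only [Bx, av, Fintype.card_fun, Fintype.card_fin, Nat.cast_pow, ← sum_div]
    field_simp
  have h6 := h1.cut h2 (Set.subset_univ _)
  simp only [card_univ, Fintype.card_fin, Fintype.piFinset_univ] at h6
  rw [av, Fintype.card_fun, Fintype.card_fin, Fintype.card_fin, Nat.cast_pow, abs_div,
    abs_of_pos hc, div_le_iff₀ hc, mul_assoc]
  exact h6

theorem core (hBox : StBoxCS) {s N H B : ℕ} (hs : 0 < s) (hN : 0 < N) (hH : 0 < H) (u ψ : ℤ → ℝ)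
    {K M τ η : ℝ} (hτ : 0 < τ) (hu : ∀ x, |u x| ≤ K) (hψ : ∀ x, |ψ x| ≤ 1)
    (hlow : LowDir (fun _ : Fin s => (B : ℤ)) H M ψ)
    (hbx : ∀ x : ℤ, (av fun a : Unit → Fin H => Bx s H B u (x + ((a () : ℕ) : ℤ))) ≤ η) :
    |avI N fun x => u x * ψ x| ≤
      M * (τ + η / τ ^ (2 ^ s - 1)) + 2 * ((H + s * (B * H) : ℕ) : ℝ) * K / N := by
  have : Nonempty (Fin H) := ⟨⟨0, hH⟩⟩
  have hM : 0 ≤ M := (hlow 0).nonneg
  have hN' : (0 : ℝ) < N := by exact_mod_cast hN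
  have hg : ∀ x, |u x * ψ x| ≤ K := fun x => by
    rw [abs_mul]
    exact (mul_le_of_le_one_right (abs_nonneg _) (hψ x)).trans (hu x)
  set g : ℕ → ℝ := fun i => u (N + i) * ψ (N + i) with hgd
  have h1 : |(av fun a : Unit → Fin H => av fun t : Fin s → Fin H =>
      ∑ i ∈ range N, g (((a () : ℕ) + ∑ r, B * (t r : ℕ)) + i)) - ∑ i ∈ range N, g i| ≤
      2 * ((H + s * (B * H) : ℕ) : ℝ) * K := by
    rw [← av_const (X := Unit → Fin H) (∑ i ∈ range N, g i), ← av_sub]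
    refine abs_av_le_of_le fun a => ?_
    rw [← av_const (X := Fin s → Fin H) (∑ i ∈ range N, g i), ← av_sub]
    refine abs_av_le_of_le fun t => ?_
    refine shift g K (fun i => hg _) N _ _ (add_le_add (a ()).2.le ?_)
    calc ∑ r, B * (t r : ℕ) ≤ ∑ _r : Fin s, B * H :=
          sum_le_sum fun r _ => Nat.mul_le_mul_left _ (t r).2.le
      _ = s * (B * H) := by simp
  have h2 : |av fun a : Unit → Fin H => av fun t : Fin s → Fin H =>
      ∑ i ∈ range N, g (((a () : ℕ) + ∑ r, B * (t r : ℕ)) + i)| ≤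
      N * (M * (τ + η / τ ^ (2 ^ s - 1))) := by
    simp only [av_sum]
    refine abs_range _ _ (fun i => ?_) N
    refine (abs_av_le _).trans ?_
    have h3 : ∀ a : Unit → Fin H,
        |av fun t : Fin s → Fin H => g (((a () : ℕ) + ∑ r, B * (t r : ℕ)) + i)| ≤
          M * τ + M / τ ^ (2 ^ s - 1) * Bx s H B u (((N : ℤ) + i) + ((a () : ℕ) : ℤ)) := by
      intro a
      have h4 := cutY hBox hs hH u ψ hτ hlow (((N : ℤ) + i) + ((a () : ℕ) : ℤ))
      have h5 : ∀ t : Fin s → Fin H,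
          (N : ℤ) + (((((a () : ℕ) + ∑ r, B * (t r : ℕ)) + i : ℕ)) : ℤ) =
            (((N : ℤ) + i) + ((a () : ℕ) : ℤ)) + ∑ r, (B : ℤ) * ((t r : ℕ) : ℤ) := by
        intro t
        push_cast
        ring
      simp only [hgd, h5]
      refine h4.trans (le_of_eq ?_)
      ring
    refine (av_mono h3).trans ?_
    rw [av_add, av_const, av_const_mul]
    have h6 := mul_le_mul_of_nonneg_left (hbx ((N : ℤ) + i))
      (by positivity : 0 ≤ M / τ ^ (2 ^ s - 1))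
    refine (add_le_add le_rfl h6).trans (le_of_eq ?_)
    ring
  rw [avI, sum_Ico_eq, abs_div, abs_of_pos hN', div_le_iff₀ hN', add_mul, div_mul_cancel₀ _ hN'.ne']
  have h7 := abs_sub_abs_le_abs_sub (∑ i ∈ range N, g i) (av fun a : Unit → Fin H =>
    av fun t : Fin s → Fin H => ∑ i ∈ range N, g (((a () : ℕ) + ∑ r, B * (t r : ℕ)) + i))
  rw [abs_sub_comm] at h7
  show |∑ i ∈ range N, g i| ≤ _
  linarith

theorem bet_nonneg (P : Finset ℕ) (hP : ∀ p ∈ P, p.Prime) {R : ℕ} (hR : 1 ≤ R) (E : ℕ → Prop) :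
    0 ≤ bet P R E :=
  div_nonneg (sq_nonneg _) (zero_le_one.trans (Sg.one_le_GG P (fun p hp => (hP p hp).two_le) R hR))

theorem bet_le (P : Finset ℕ) (hP : ∀ p ∈ P, p.Prime) {R : ℕ} (hR : 1 ≤ R) (E : ℕ → Prop) :
    bet P R E ≤ (R : ℝ) ^ 2 := by
  have h1 := Sg.one_le_GG P (fun p hp => (hP p hp).two_le) R hR
  have h2 : |∑ U ∈ Sg.fam P R, ∏ p ∈ U, if E p then (-1 : ℝ) else 1 / ((p : ℝ) - 1)| ≤ R := by
    refine (abs_sum_le_sum_abs _ _).trans ?_
    refine (sum_le_sum (g := fun _ => (1 : ℝ)) fun U hU => ?_).trans ?_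
    · rw [abs_prod]
      refine prod_le_one (fun _ _ => abs_nonneg _) fun p hp => ?_
      have h3 : (2 : ℝ) ≤ p := by
        exact_mod_cast (hP p ((Sg.ExpandAux.mem_fam.1 hU).1 hp)).two_le
      split_ifs
      · simp
      · rw [abs_of_nonneg (div_nonneg zero_le_one (by linarith)), div_le_one (by linarith)]
        linarith
    · rw [sum_const, nsmul_eq_mul, mul_one]
      exact_mod_cast LFcoreAux.card_fam P hP R
  rw [bet]
  refine (div_le_self (sq_nonneg _) h1).trans ?_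
  rw [← sq_abs]
  gcongr

theorem abs_nu {w R : ℕ} (hR : 1 ≤ R) (m : ℤ) : |nuZ w R m - 1| ≤ 2 * (R : ℝ) ^ 2 := by
  have hP : ∀ p ∈ Sg.PP w R, p.Prime := fun p hp => (mem_filter.1 hp).2
  have h1 := bet_nonneg _ hP hR fun p => (p : ℤ) ∣ m
  have h2 := bet_le _ hP hR fun p => (p : ℤ) ∣ m
  have h3 : (1 : ℝ) ≤ (R : ℝ) ^ 2 := one_le_pow₀ (by exact_mod_cast hR)
  rw [nuZ, abs_le]
  constructor <;> linarith

/-- expansion of a product of differences -/
theorem expand {X I : Type} [Fintype X] [Nonempty X] [Fintype I] [DecidableEq I] [Nonempty I]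
    (f : I → X → ℝ) (η : ℝ) (h : ∀ U : Finset I, |(av fun x => ∏ i ∈ U, f i x) - 1| ≤ η) :
    (av fun x => ∏ i, (f i x - 1)) ≤ 2 ^ Fintype.card I * η := by
  have h1 : ∀ g : I → ℝ, ∏ i, (g i - 1) =
      ∑ U ∈ (univ : Finset I).powerset, (∏ _i ∈ univ \ U, (-1 : ℝ)) * ∏ i ∈ U, g i := by
    intro g
    simp only [sub_eq_add_neg]
    rw [prod_add]
    exact sum_congr rfl fun U _ => mul_comm _ _
  have h2 := h1 fun _ => 1
  simp only [sub_self, prod_const_one, mul_one] at h2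
  rw [prod_const, card_univ, zero_pow Fintype.card_ne_zero] at h2
  have h3 : (av fun x => ∏ i, (f i x - 1)) = ∑ U ∈ (univ : Finset I).powerset,
      (∏ _i ∈ univ \ U, (-1 : ℝ)) * ((av fun x => ∏ i ∈ U, f i x) - 1) := by
    simp only [h1, av_sum, av_const_mul, mul_sub, sum_sub_distrib, mul_one, ← h2, sub_zero]
  rw [h3]
  refine (le_abs_self _).trans ((abs_sum_le_sum_abs _ _).trans ?_)
  refine (sum_le_sum (g := fun _ => η) fun U _ => ?_).trans (le_of_eq ?_)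
  · rw [abs_mul, prod_const, abs_pow, abs_neg, abs_one, one_pow, one_mul]
    exact h U
  · rw [sum_const, card_powerset, card_univ, nsmul_eq_mul]
    push_cast
    rfl

/-- the coefficients of the form of a vertex -/
def cf (s : ℕ) (W B : ℤ) (ω : Finset (Fin s)) : Unit ⊕ Fin s ⊕ Fin s → ℤ :=
  Sum.elim (fun _ => W)
    (Sum.elim (fun r => if r ∈ ω then 0 else W * B) fun r => if r ∈ ω then W * B else 0)

/-- the value at a vertex -/
def vx {s H : ℕ} (B : ℕ) (x : ℤ) (ω : Finset (Fin s)) (h : Unit ⊕ Fin s ⊕ Fin s → Fin H) : ℤ :=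
  x + ((h (Sum.inl ()) : ℕ) : ℤ) + ∑ r, (B : ℤ) *
    (((if r ∈ ω then h (Sum.inr (Sum.inr r)) else h (Sum.inr (Sum.inl r)) : Fin H) : ℕ) : ℤ)

theorem cf_eq {s H : ℕ} (W b : ℤ) (B : ℕ) (x : ℤ) (ω : Finset (Fin s))
    (h : Unit ⊕ Fin s ⊕ Fin s → Fin H) :
    W * vx B x ω h + b = W * x + b + ∑ v, cf s W B ω v * ((h v : ℕ) : ℤ) := by
  rw [Fintype.sum_sum_type, Fintype.sum_sum_type, ← sum_add_distrib, vx, mul_add, mul_add, mul_sum]
  have h1 : ∀ r : Fin s, W * ((B : ℤ) *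
      (((if r ∈ ω then h (Sum.inr (Sum.inr r)) else h (Sum.inr (Sum.inl r)) : Fin H) : ℕ) : ℤ)) =
      cf s W B ω (Sum.inr (Sum.inl r)) * ((h (Sum.inr (Sum.inl r)) : ℕ) : ℤ) +
        cf s W B ω (Sum.inr (Sum.inr r)) * ((h (Sum.inr (Sum.inr r)) : ℕ) : ℤ) := by
    intro r
    by_cases hr : r ∈ ω <;> simp [cf, hr, mul_assoc]
  simp only [h1]
  simp only [cf, Sum.elim_inl, Fintype.sum_unique]
  ring

theorem av_Bx {s H : ℕ} (B : ℕ) (u : ℤ → ℝ) (x : ℤ) :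
    (av fun a : Unit → Fin H => Bx s H B u (x + ((a () : ℕ) : ℤ))) =
      av fun h : Unit ⊕ Fin s ⊕ Fin s → Fin H => ∏ ω : Finset (Fin s), u (vx B x ω h) := by
  rw [av_sumElim]
  refine av_congr fun a => ?_
  rw [av_sumElim]
  rfl

theorem aff (hAff : StAff) (s : ℕ) : ∃ C : ℝ, 0 < C ∧ ∀ (w R H B : ℕ) (b x : ℤ), 4 ≤ w → 1 ≤ R →
    0 < H → (av fun a : Unit → Fin H =>
      Bx s H B (fun n => nuZ w R (w.factorial * n + b) - 1) (x + ((a () : ℕ) : ℤ))) ≤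
      2 ^ 2 ^ s * (etaP C w R B + 2 * (1 + (s + s) : ℕ) * (R : ℝ) ^ (6 * 2 ^ s) / H) := by
  obtain ⟨C, hC, h⟩ := hAff (2 ^ s)
  refine ⟨C, hC, fun w R H B b x hw hR hH => ?_⟩
  have : Nonempty (Fin H) := ⟨⟨0, hH⟩⟩
  have hc : Fintype.card (Finset (Fin s)) = 2 ^ s := by rw [Fintype.card_finset, Fintype.card_fin]
  rw [av_Bx, ← hc]
  refine expand (fun ω (h : Unit ⊕ Fin s ⊕ Fin s → Fin H) =>
    nuZ w R (w.factorial * vx B x ω h + b)) _ fun U => ?_
  have hW : ∀ p ∈ Sg.PP w R, ¬(p : ℤ) ∣ (w.factorial : ℤ) := by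
    intro p hp hd
    obtain ⟨h1, h2⟩ := mem_filter.1 hp
    have := h2.dvd_factorial.1 (Int.natCast_dvd_natCast.1 hd)
    have := (mem_Ioc.1 h1).1
    omega
  have h1 := h U (Unit ⊕ Fin s ⊕ Fin s) (by
      rw [Fintype.card_coe, ← hc]
      exact card_le_univ U) w R H (fun _ => Sg.PP w R)
    (fun _ ω => cf s w.factorial B ω.1) (fun _ _ => w.factorial * x + b) B hw hR hH
    (fun _ => Subset.rfl) (fun _ p hp => ⟨Sum.inl (), hW p hp⟩) (by
      intro ω ω' hne p hp _ hB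
      have hpr : Prime (p : ℤ) := Nat.prime_iff_prime_int.1 (mem_filter.1 hp).2
      have h2 : ¬(p : ℤ) ∣ (w.factorial : ℤ) * (w.factorial * B) := fun hd =>
        (hpr.dvd_or_dvd hd).elim (hW p hp) fun hd' => (hpr.dvd_or_dvd hd').elim (hW p hp) hB
      have h3 : ∃ r, ¬(r ∈ ω.1 ↔ r ∈ ω'.1) := by
        by_contra hcon
        push Not at hcon
        exact hne (Subtype.ext (Finset.ext hcon))
      obtain ⟨r, hr⟩ := h3
      refine ⟨Sum.inl (), Sum.inr (Sum.inr r), ?_⟩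
      by_cases h4 : r ∈ ω.1
      · have h5 : r ∉ ω'.1 := fun h5 => hr ⟨fun _ => h5, fun _ => h4⟩
        simp only [cf, Sum.elim_inl, Sum.elim_inr, h4, h5, if_true, if_false, mul_zero, zero_sub,
          dvd_neg]
        rwa [mul_comm]
      · have h5 : r ∈ ω'.1 := by
          by_contra h5
          exact hr ⟨fun h6 => absurd h6 h4, fun h6 => absurd h6 h5⟩
        simp only [cf, Sum.elim_inl, Sum.elim_inr, h4, h5, if_true, if_false, zero_mul, sub_zero]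
        exact h2)
  rw [Fintype.card_sum, Fintype.card_sum, Fintype.card_fin, Fintype.card_unit, ← hc] at h1
  refine le_of_eq_of_le ?_ h1
  congr 2
  refine av_congr fun h => ?_
  rw [← prod_coe_sort U]
  refine prod_congr rfl fun ω _ => ?_
  rw [cf_eq, nuZ]

theorem pow_small {ρ ε c : ℝ} {m n : ℕ} (hε : 0 < ε) (h1 : 1 ≤ ρ) (hc : c / ε ≤ ρ) (h : m + 1 ≤ n) :
    c * ρ ^ m / ρ ^ n ≤ ε := by
  have h2 : c ≤ ρ * ε := (div_le_iff₀ hε).1 hc
  rw [div_le_iff₀ (by positivity)]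
  calc c * ρ ^ m ≤ ρ * ε * ρ ^ m := by gcongr
    _ = ε * ρ ^ (m + 1) := by ring
    _ ≤ ε * ρ ^ n := by gcongr

end UnifAAux

open UnifAAux in
theorem stUnifA (hAff : StAff) (hBoxCS : StBoxCS) (_hEta : StEta) : StUnifA := by
  obtain ⟨C, hC, h⟩ := aff hAff 11
  refine ⟨C, 24580, hC, fun d P hP hE ε hε => ?_⟩
  refine (Ev.of_eventually (d := d) (P := P) (Θ := fun _ ρ => (1 : ℝ) ≤ ρ ∧ 48 / ε ≤ ρ) 4
    fun w _ => (ev_const 1).and (ev_const _)).mono ?_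
  rintro S rfl rfl - ⟨hw, hρ, hρε⟩ B M τ ψ hB hBR hτ hψ hlow
  have hρ' : 1 ≤ S.ρ := by exact_mod_cast hρ
  obtain ⟨ha, hA, -, -⟩ := hP.big
  have hEA : 24580 * S.P.A ≤ S.P.E * S.P.A := Nat.mul_le_mul_right _ hE
  have hR : 1 ≤ S.R := Nat.one_le_pow _ _ hρ'
  have hN : 0 < S.N := Nat.one_le_pow _ _ hρ'
  have hH : 0 < S.ρ ^ (S.P.E * S.P.A / 2) := Nat.one_le_pow _ _ hρ'
  have hM : 0 ≤ M := (hlow 0).nonneg
  have h1 := core hBoxCS (by norm_num) hN hH (fun x => S.nu x - 1) ψ hτ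
    (fun x => abs_nu hR _) hψ hlow fun x => h S.w S.R _ B S.b x hw hR hH
  have e1 : 2 ^ 11 = 2048 := by norm_num
  rw [e1] at h1
  refine h1.trans (add_le_add (mul_le_mul_of_nonneg_left (add_le_add le_rfl ?_) hM) ?_)
  · refine div_le_div_of_nonneg_right (mul_le_mul_of_nonneg_left (add_le_add le_rfl ?_)
      (pow_nonneg zero_le_two _)) (pow_nonneg hτ.le _)
    have h2 := pow_small (c := 48) (m := S.P.A * (6 * 2048)) (n := S.P.E * S.P.A / 2) hε hρ hρε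
      (by omega)
    refine le_trans ?_ h2
    rw [Sc.R, Nat.cast_pow, Nat.cast_pow, ← pow_mul]
    refine div_le_div_of_nonneg_right (mul_le_mul_of_nonneg_right ?_ (by positivity))
      (by positivity)
    norm_num
  · have h2 := pow_small (c := 48) (m := S.P.A + S.P.E * S.P.A / 2 + S.P.A * 2)
      (n := S.P.E * S.P.A) hε hρ hρε (by omega)
    refine le_trans ?_ h2
    have h3 : S.ρ ^ (S.P.E * S.P.A / 2) + 11 * (B * S.ρ ^ (S.P.E * S.P.A / 2)) ≤
        12 * (S.R * S.ρ ^ (S.P.E * S.P.A / 2)) := by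
      have h4 := Nat.mul_le_mul_right (S.ρ ^ (S.P.E * S.P.A / 2)) hBR
      have h5 := Nat.mul_le_mul_right (S.ρ ^ (S.P.E * S.P.A / 2)) hR
      omega
    have h6 : ((S.ρ ^ (S.P.E * S.P.A / 2) + 11 * (B * S.ρ ^ (S.P.E * S.P.A / 2)) : ℕ) : ℝ) ≤
        12 * ((S.ρ : ℝ) ^ S.P.A * (S.ρ : ℝ) ^ (S.P.E * S.P.A / 2)) := by
      rw [Sc.R] at h3
      exact_mod_cast h3
    rw [Sc.N, Sc.R, Nat.cast_pow, Nat.cast_pow]
    refine div_le_div_of_nonneg_right ?_ (by positivity)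
    refine (mul_le_mul_of_nonneg_right (mul_le_mul_of_nonneg_left h6 zero_le_two)
      (by positivity)).trans (le_of_eq ?_)
    rw [pow_add, pow_add, pow_mul]
    ring

end Pool.Agent.Lib.MP_7d3fda_nt.Q3
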