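import Pool.Agent.Lib.MP_7d3fda_nt.Q3.Basic
import Pool.Agent.Lib.MP_4b8564_nt.GT.VarnK

open Finset Filter
open scoped Classical NumberTheorySymbols

noncomputable section

namespace Pool.Agent.Lib.MP_7d3fda_nt.Q3

open Pool.Agent.Lib.MP_4b8564_nt Pool.Agent.Lib.MP_4b8564_nt.GT
open Pool.Agent.Lib.MP_0a3467_an.Cv (Low)
open Pool.Agent.Lib.MP_0a3467_an

namespace VarnAux

/-- the points where the first two forms lie in `[N, 2N)` -/
def win (d : Dat) (N : ℕ) : Set O :=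
  {u | (N : ℤ) ≤ d.lam 0 u ∧ d.lam 0 u < N + N ∧ (N : ℤ) ≤ d.lam 1 u ∧ d.lam 1 u < N + N}

theorem win_card (hPack : StPack) (d : Dat) : ∃ C : ℝ, ∀ N : ℕ, 0 < N →
    (win d N).Finite ∧ ((win d N).ncard : ℝ) ≤ C * (N : ℝ) ^ 2 := by
  obtain ⟨C, hC, h⟩ := hPack d
  refine ⟨4 * C, fun N hN => ?_⟩
  have h1 := h 0 1 1 0 1 N N N N one_pos one_ne_zero (by simp [isCoprime_one_right]) (by decide)
  have e : ∀ j (γ : O), d.nn 0 1 j γ = d.lam j γ := by
    intro j γ
    simp [Dat.nn]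
  have s1 : sz 1 = 1 := by simp [sz]
  simp only [e, Nat.cast_one, one_dvd, true_and, s1, Zsqrtd.norm_one, Int.cast_one,
    mul_one] at h1
  refine ⟨h1.1, h1.2.trans ?_⟩
  have hN1 : (1 : ℝ) ≤ N := by exact_mod_cast hN
  calc C * ((N : ℝ) + 1) * ((N : ℝ) + 1) ≤ C * (2 * N) * (2 * N) := by gcongr <;> linarith
    _ = 4 * C * (N : ℝ) ^ 2 := by ring

theorem supp_sub (d : Dat) {N : ℕ} {g : ℤ → ℝ} (hg : ∀ x, g x ≠ 0 → (N : ℤ) ≤ x ∧ x < 2 * N) :
    (Function.support fun u : O => ∏ j, g (d.lam j u)) ⊆ win d N := by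
  intro u hu
  have h := prod_ne_zero_iff.1 hu
  have h0 := hg _ (h 0 (mem_univ _))
  have h1 := hg _ (h 1 (mem_univ _))
  exact ⟨h0.1, by omega, h1.1, by omega⟩

/-- the point attached to a progression -/
def pt (d : Dat) {p : ℕ} (z : ZMod p × ZMod p) : O :=
  ⟨(z.1.val : ℤ) + d.C * (((z.1 + z.2).val : ℤ) - z.1.val),
    d.e * (((z.1 + z.2).val : ℤ) - z.1.val)⟩

theorem pt_inj (d : Dat) {p : ℕ} [NeZero p] : Function.Injective (pt d (p := p)) := by
  intro z z' h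
  have h1 := congrArg Zsqrtd.re h
  have h2 := congrArg Zsqrtd.im h
  simp only [pt] at h1 h2
  have he : (d.e : ℤ) ≠ 0 := by exact_mod_cast d.he.ne'
  have h3 := mul_left_cancel₀ he h2
  rw [h3] at h1
  have h4 : z.1 = z'.1 := ZMod.val_injective p (by omega)
  have h5 : z.1 + z.2 = z'.1 + z'.2 := ZMod.val_injective p (by omega)
  rw [h4] at h5
  exact Prod.ext h4 (add_left_cancel h5)

/-- the position of the form `j` in the progression -/
def ix (d : Dat) (j : Fin 6) : Fin (2 * d.C + 1) :=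
  ⟨(d.c j + d.C).toNat, by have := d.c_le j; have := le_abs_self (d.c j); omega⟩

theorem ix_cast (d : Dat) (j : Fin 6) : ((ix d j : ℕ) : ℤ) = d.c j + d.C := by
  have := d.c_le j
  have := neg_abs_le (d.c j)
  exact Int.toNat_of_nonneg (by omega)

theorem ix_inj (d : Dat) : Function.Injective (ix d) := by
  intro i j h
  have h1 := ix_cast d i
  rw [h, ix_cast] at h1
  exact d.hc (by omega)

theorem no_wrap {p M k n : ℕ} [NeZero p] (hp : (k + 1) * M < p) (hn : n ≤ k) {a t : ZMod p}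
    (h0 : a.val < M) (h1 : (a + t).val < M) (h2 : (a + n * t).val < M) :
    ((a + n * t).val : ℤ) = a.val + n * (((a + t).val : ℤ) - a.val) := by
  have hd : (p : ℤ) ∣ ((a + n * t).val : ℤ) - (a.val + n * (((a + t).val : ℤ) - a.val)) := by
    rw [← ZMod.intCast_zmod_eq_zero_iff_dvd]
    push_cast
    simp only [ZMod.natCast_val, ZMod.cast_id', id_eq]
    ring
  refine sub_eq_zero.1 (Int.eq_zero_of_abs_lt_dvd hd ?_)
  have hp' : ((k : ℤ) + 1) * M < p := by exact_mod_cast hp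
  have hn' : (n : ℤ) ≤ k := by exact_mod_cast hn
  have a0 : ((a.val : ℕ) : ℤ) < M := by exact_mod_cast h0
  have a1 : (((a + t).val : ℕ) : ℤ) < M := by exact_mod_cast h1
  have a2 : (((a + n * t).val : ℕ) : ℤ) < M := by exact_mod_cast h2
  have b0 := Int.natCast_nonneg a.val
  have b1 := Int.natCast_nonneg (a + t).val
  have b2 := Int.natCast_nonneg (a + n * t).val
  have bn := Int.natCast_nonneg n
  generalize ((a.val : ℕ) : ℤ) = x at *
  generalize (((a + t).val : ℕ) : ℤ) = y at *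
  generalize (((a + n * t).val : ℕ) : ℤ) = z at *
  have c1 : (n : ℤ) * (y - x) ≤ k * M := by nlinarith
  have c2 : (n : ℤ) * (x - y) ≤ k * M := by nlinarith
  rw [abs_lt]
  constructor <;> nlinarith

section

variable (d : Dat) {N p : ℕ} [NeZero p] {g : ℤ → ℝ} (h01 : ∀ x, 0 ≤ g x ∧ g x ≤ 1)
  (hg : ∀ x, g x ≠ 0 → (N : ℤ) ≤ x ∧ x < 2 * N)

omit [NeZero p] in
include hg in
theorem val_lt {m : ZMod p} (h : g (d.e * (m.val : ℤ)) ≠ 0) : m.val < 2 * N := by
  have h1 := (hg _ h).2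
  have he : (1 : ℤ) ≤ d.e := by exact_mod_cast d.he
  have h2 : (m.val : ℤ) < 2 * N := by nlinarith [Int.natCast_nonneg m.val]
  exact_mod_cast h2

include h01 hg

theorem term_le (hp : (2 * d.C + 1) * (2 * N) < p) (z : ZMod p × ZMod p) :
    ∏ j : Fin (2 * d.C + 1), g (d.e * ((z.1 + ((j : ℕ) : ZMod p) * z.2).val : ℤ)) ≤
      ∏ j, g (d.lam j (pt d z)) := by
  by_cases h : ∏ j : Fin (2 * d.C + 1), g (d.e * ((z.1 + ((j : ℕ) : ZMod p) * z.2).val : ℤ)) = 0
  · rw [h]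
    exact prod_nonneg fun _ _ => (h01 _).1
  have hv : ∀ j : Fin (2 * d.C + 1), (z.1 + ((j : ℕ) : ZMod p) * z.2).val < 2 * N :=
    fun j => val_lt d hg (prod_ne_zero_iff.1 h j (mem_univ _))
  have h3 := d.three_le_C
  have v0 : z.1.val < 2 * N := by simpa using hv ⟨0, by omega⟩
  have v1 : (z.1 + z.2).val < 2 * N := by simpa using hv ⟨1, by omega⟩
  have e : ∀ j, d.lam j (pt d z) = d.e * ((z.1 + ((ix d j : ℕ) : ZMod p) * z.2).val : ℤ) := by
    intro j
    rw [no_wrap hp (Nat.lt_succ_iff.1 (ix d j).2) v0 v1 (hv _), ix_cast]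
    simp only [Dat.lam, pt]
    ring
  simp only [e]
  rw [← prod_image (s := univ) (g := ix d)
    (f := fun j : Fin (2 * d.C + 1) => g (d.e * ((z.1 + ((j : ℕ) : ZMod p) * z.2).val : ℤ)))
    fun i _ j _ hij => ix_inj d hij]
  exact prod_le_prod_of_subset_of_le_one (subset_univ _) (fun _ _ => (h01 _).1)
    fun _ _ _ => (h01 _).2

theorem lam_le (hf : (win d N).Finite) (hp : (2 * d.C + 1) * (2 * N) < p) :
    (p : ℝ) ^ 2 * lam (2 * d.C + 1) p (fun m => g (d.e * (m.val : ℤ))) ≤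
      ∑ᶠ u : O, ∏ j, g (d.lam j u) := by
  have hp0 : (p : ℝ) ≠ 0 := by exact_mod_cast NeZero.ne p
  rw [lam, av, Fintype.card_prod, ZMod.card, Nat.cast_mul, ← sq, mul_div_cancel₀ _ (by positivity)]
  refine (sum_le_sum fun z _ => term_le d h01 hg hp z).trans ?_
  rw [← sum_image (s := univ) (g := pt d (p := p)) (f := fun u => ∏ j, g (d.lam j u))
    fun i _ j _ hij => pt_inj d hij,
    finsum_eq_sum_of_support_subset (s := univ.image (pt d (p := p)) ∪ hf.toFinset) _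
      fun u hu => by
        rw [coe_union, hf.coe_toFinset]
        exact Or.inr (supp_sub d hg hu)]
  exact sum_le_sum_of_subset_of_nonneg subset_union_left fun _ _ _ =>
    prod_nonneg fun _ _ => (h01 _).1

omit hg in
theorem sum_le (hp : 2 * N ≤ p) :
    ∑ x ∈ Ico (N : ℤ) (2 * N), g x * chi d.e x ≤ ∑ m : ZMod p, g (d.e * (m.val : ℤ)) := by
  have he : (1 : ℤ) ≤ d.e := by exact_mod_cast d.he
  rw [← sum_image (s := univ) (g := fun m : ZMod p => (d.e : ℤ) * (m.val : ℤ)) (f := g)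
    fun i _ j _ hij => ZMod.val_injective p (by
      have := mul_left_cancel₀ (by omega : (d.e : ℤ) ≠ 0) hij
      exact_mod_cast this)]
  simp only [chi, mul_ite, mul_one, mul_zero]
  rw [← sum_filter]
  refine sum_le_sum_of_subset_of_nonneg (fun x hx => ?_) fun _ _ _ => (h01 _).1
  obtain ⟨h1, n, rfl⟩ := mem_filter.1 hx
  obtain ⟨h2, h3⟩ := mem_Ico.1 h1
  have hn : 0 ≤ n := by
    by_contra h
    nlinarith [Int.natCast_nonneg N]
  have hn' : n < 2 * N := by nlinarith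
  refine mem_image.2 ⟨(n.toNat : ZMod p), mem_univ _, ?_⟩
  rw [ZMod.val_cast_of_lt (by omega), Int.toNat_of_nonneg hn]

end

end VarnAux

open VarnAux in
theorem stVarn (hPack : StPack) : StVarn := by
  intro d
  obtain ⟨C, hC⟩ := win_card hPack d
  refine ⟨⟨C, fun N g hN h1 hg => ?_⟩, fun δ hδ => ?_⟩
  · obtain ⟨hf, hc⟩ := hC N hN
    have hN0 : (0 : ℝ) < (N : ℝ) ^ 2 := by positivity
    rw [Dat.cc, abs_div, abs_of_pos hN0, div_le_iff₀ hN0,
      finsum_eq_sum_of_support_subset (s := hf.toFinset) _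
        (by rw [hf.coe_toFinset]; exact supp_sub d hg)]
    refine (abs_sum_le_sum_abs _ _).trans (le_trans ?_ hc)
    rw [Set.ncard_eq_toFinset_card _ hf, card_eq_sum_ones, Nat.cast_sum]
    refine sum_le_sum fun u _ => ?_
    rw [abs_prod, Nat.cast_one]
    exact prod_le_one (fun _ _ => abs_nonneg _) fun _ _ => h1 _
  · obtain ⟨c, hc, N₀, hV⟩ := varnK (2 * d.C + 1) (δ / (4 * (2 * d.C + 1 : ℕ))) (by positivity)
    refine ⟨c, hc, N₀ + 1, fun N hN g h01 hg hav => ?_⟩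
    have hN0 : 0 < N := by omega
    have hNR : (0 : ℝ) < N := by exact_mod_cast hN0
    obtain ⟨p, hp, h1, h2⟩ := Nat.exists_prime_lt_and_le_two_mul ((2 * d.C + 1) * (2 * N))
      (by positivity)
    have : NeZero p := ⟨hp.ne_zero⟩
    have hNp : 2 * N ≤ p := le_trans (Nat.le_mul_of_pos_left _ (by omega)) h1.le
    have hpR : (0 : ℝ) < p := by exact_mod_cast hp.pos
    have h3 : δ / (4 * (2 * d.C + 1 : ℕ)) ≤ av fun m : ZMod p => g (d.e * (m.val : ℤ)) := by
      have k1 := sum_le d (p := p) h01 hNp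
      rw [avI, le_div_iff₀ hNR] at hav
      have k2 : (p : ℝ) ≤ 2 * (((2 * d.C + 1 : ℕ) : ℝ) * (2 * N)) := by exact_mod_cast h2
      rw [av, ZMod.card, div_le_div_iff₀ (by positivity) hpR]
      calc δ * p ≤ δ * (2 * (((2 * d.C + 1 : ℕ) : ℝ) * (2 * N))) := by gcongr
        _ = δ * N * (4 * (2 * d.C + 1 : ℕ)) := by ring
        _ ≤ _ := by gcongr; exact hav.trans k1
    have h4 := hV p hp (by omega) _ (fun _ => (h01 _).1) (fun _ => (h01 _).2) h3
    have h5 := lam_le d h01 hg (hC N hN0).1 h1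
    have h6 : (N : ℝ) ≤ p := by exact_mod_cast (by omega : N ≤ p)
    rw [Dat.cc, le_div_iff₀ (by positivity)]
    calc c * (N : ℝ) ^ 2 ≤ c * (p : ℝ) ^ 2 := by gcongr
      _ = (p : ℝ) ^ 2 * c := mul_comm _ _
      _ ≤ _ := le_trans (by gcongr) h5

end Pool.Agent.Lib.MP_7d3fda_nt.Q3
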