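import Pool.Agent.Lib.MP_7d3fda_nt.Q3.Basic
import Pool.Agent.Lib.MP_232f4c_nt.OddWeil

open Finset Filter
open scoped Classical NumberTheorySymbols

noncomputable section

namespace Pool.Agent.Lib.MP_7d3fda_nt.Q3

open Pool.Agent.Lib.MP_4b8564_nt Pool.Agent.Lib.MP_4b8564_nt.GT
open Pool.Agent.Lib.MP_0a3467_an.Cv (Low)
open Pool.Agent.Lib.MP_0a3467_an

namespace WeilAux

lemma shift_sum {A K : Type} [AddGroup A] [Fintype A] [Fintype K] (f : A → ℝ) (v : K → A) :
    (Fintype.card K : ℝ) * ∑ p, f p = ∑ p, ∑ s, f (p + v s) := by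
  rw [Finset.sum_comm]
  have : ∀ s, ∑ p, f (p + v s) = ∑ p, f p := fun s =>
    Fintype.sum_equiv (Equiv.addRight (v s)) _ _ fun _ => rfl
  simp [this]

variable {K ι : Type} [Field K] [Fintype K] [DecidableEq K] [Fintype ι] [DecidableEq ι]

/-- the value at a vertex of the box -/
def vtx (α : K) (β : ι → K) (ω : Finset ι) (p : (ι → K) × (ι → K)) : K :=
  α + ∑ r, β r * (if r ∈ ω then p.2 r else p.1 r)

omit [Fintype K] [DecidableEq K] in
lemma vtx_add (α : K) (β : ι → K) (ω : Finset ι) (p q : (ι → K) × (ι → K)) :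
    vtx α β ω (p + q) = vtx α β ω p + ∑ r, β r * (if r ∈ ω then q.2 r else q.1 r) := by
  unfold vtx
  rw [add_assoc, ← Finset.sum_add_distrib]
  congr 1
  refine Finset.sum_congr rfl fun r _ => ?_
  split_ifs <;> simp [mul_add]

omit [Fintype K] [DecidableEq K] in
lemma sum_single (β : ι → K) (r0 : ι) (h0 : β r0 ≠ 0) (s : K) :
    ∑ r, β r * (Pi.single r0 (s / β r0) : ι → K) r = s := by
  rw [Finset.sum_eq_single r0]
  · simp; field_simp
  · intro r _ hr; simp [Pi.single_eq_of_ne hr]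
  · simp

lemma bad_count (α : K) (β : ι → K) (hβ : ∀ r, β r ≠ 0) (ω : Finset ι) (hω : ω ≠ ∅) :
    (Fintype.card K : ℝ) * ∑ p : (ι → K) × (ι → K),
      (if vtx α β ω p = vtx α β ∅ p then (1 : ℝ) else 0) =
      Fintype.card ((ι → K) × (ι → K)) := by
  obtain ⟨r0, hr0⟩ := Finset.nonempty_iff_ne_empty.2 hω
  rw [shift_sum _ fun s : K => ((0 : ι → K), (Pi.single r0 (s / β r0) : ι → K))]
  have h1 : ∀ (p : (ι → K) × (ι → K)) (s : K),
      vtx α β ω (p + ((0 : ι → K), (Pi.single r0 (s / β r0) : ι → K))) = vtx α β ω p + s := by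
    intro p s
    rw [vtx_add]
    congr 1
    refine Eq.trans (Finset.sum_congr rfl fun r _ => ?_) (sum_single β r0 (hβ r0) s)
    by_cases hr : r = r0
    · subst hr; simp [hr0]
    · simp [Pi.single_eq_of_ne hr]
  have h2 : ∀ (p : (ι → K) × (ι → K)) (s : K),
      vtx α β ∅ (p + ((0 : ι → K), (Pi.single r0 (s / β r0) : ι → K))) = vtx α β ∅ p := by
    intro p s
    rw [vtx_add]
    simp
  have h3 : ∀ a b : K, ∑ s : K, (if a + s = b then (1 : ℝ) else 0) = 1 := by
    intro a b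
    rw [Finset.sum_eq_single (b - a)]
    · simp
    · intro s _ hs
      rw [if_neg]
      intro h
      exact hs (by rw [← h]; ring)
    · simp
  simp only [h1, h2, h3]
  simp

omit [Fintype ι] [DecidableEq ι] in
lemma chi_le (x : K) : |((quadraticChar K x : ℤ) : ℝ)| ≤ 1 := by
  rcases quadraticChar_isQuadratic K x with h | h | h <;> rw [h] <;> simp

lemma box_bound [Nonempty ι] (h2 : ringChar K ≠ 2) (α : K) (β : ι → K) (hβ : ∀ r, β r ≠ 0) :
    (Fintype.card K : ℝ) * ∑ p : (ι → K) × (ι → K),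
      ∏ ω : Finset ι, ((quadraticChar K (vtx α β ω p) : ℤ) : ℝ) ≤
      Fintype.card ((ι → K) × (ι → K)) *
        (21 * Fintype.card (Finset ι) * Real.sqrt (Fintype.card K)) := by
  obtain ⟨r0⟩ := ‹Nonempty ι›
  rw [shift_sum _ fun s : K =>
    ((Pi.single r0 (s / β r0) : ι → K), (Pi.single r0 (s / β r0) : ι → K))]
  have h1 : ∀ (ω : Finset ι) (p : (ι → K) × (ι → K)) (s : K),
      vtx α β ω (p + ((Pi.single r0 (s / β r0) : ι → K), (Pi.single r0 (s / β r0) : ι → K))) =
        s + vtx α β ω p := by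
    intro ω p s
    rw [vtx_add, add_comm]
    congr 1
    simp only [ite_self]
    exact sum_single β r0 (hβ r0) s
  simp only [h1]
  have hq : (0 : ℝ) ≤ Fintype.card K := by positivity
  have hin : ∀ p : (ι → K) × (ι → K),
      ∑ s : K, ∏ ω : Finset ι, ((quadraticChar K (s + vtx α β ω p) : ℤ) : ℝ) ≤
        20 * Fintype.card (Finset ι) * Real.sqrt (Fintype.card K) +
          ∑ ω ∈ (univ : Finset (Finset ι)).erase ∅, (Fintype.card K : ℝ) *
            (if vtx α β ω p = vtx α β ∅ p then (1 : ℝ) else 0) := by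
    intro p
    have hnn : ∀ ω ∈ (univ : Finset (Finset ι)).erase ∅, 0 ≤ (Fintype.card K : ℝ) *
        (if vtx α β ω p = vtx α β ∅ p then (1 : ℝ) else 0) := by
      intro ω _
      split_ifs <;> positivity
    by_cases hb : ∀ ω ∈ (univ : Finset (Finset ι)), ω ≠ ∅ → vtx α β ω p ≠ vtx α β ∅ p
    · have := MP_232f4c_nt.OddWeil.weil_shifts h2 univ (fun ω => vtx α β ω p) ∅ (mem_univ _) hb
      rw [Finset.card_univ] at this
      exact ((le_abs_self _).trans this).trans (le_add_of_nonneg_right (Finset.sum_nonneg hnn))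
    · push Not at hb
      obtain ⟨ω, -, hω, he⟩ := hb
      have h5 := Finset.single_le_sum hnn (Finset.mem_erase.2 ⟨hω.ne_empty, mem_univ ω⟩)
      rw [if_pos he, mul_one] at h5
      have h6 : ∑ s : K, ∏ ω : Finset ι, ((quadraticChar K (s + vtx α β ω p) : ℤ) : ℝ) ≤
          ∑ _s : K, (1 : ℝ) := by
        refine Finset.sum_le_sum fun s _ => (le_abs_self _).trans ?_
        rw [Finset.abs_prod]
        exact Finset.prod_le_one (fun _ _ => abs_nonneg _) fun _ _ => chi_le _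
      simp only [Finset.sum_const, Finset.card_univ, nsmul_eq_mul, mul_one] at h6
      exact (h6.trans h5).trans (le_add_of_nonneg_left (by positivity))
  refine (Finset.sum_le_sum fun p _ => hin p).trans ?_
  rw [Finset.sum_add_distrib, Finset.sum_comm]
  have h7 : ∑ ω ∈ (univ : Finset (Finset ι)).erase ∅, ∑ p : (ι → K) × (ι → K),
      (Fintype.card K : ℝ) * (if vtx α β ω p = vtx α β ∅ p then (1 : ℝ) else 0) =
      ∑ _ω ∈ (univ : Finset (Finset ι)).erase ∅, (Fintype.card ((ι → K) × (ι → K)) : ℝ) := by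
    refine Finset.sum_congr rfl fun ω hω => ?_
    rw [← Finset.mul_sum]
    exact bad_count α β hβ ω (Finset.mem_erase.1 hω).1
  rw [h7]
  simp only [Finset.sum_const, Finset.card_univ, nsmul_eq_mul]
  have h8 : ((((univ : Finset (Finset ι)).erase ∅).card : ℕ) : ℝ) ≤ Fintype.card (Finset ι) := by
    exact_mod_cast Finset.card_le_univ _
  have h9 : (1 : ℝ) ≤ Real.sqrt (Fintype.card K) := by
    rw [Real.one_le_sqrt]
    exact_mod_cast Fintype.card_pos
  have hA : (0 : ℝ) ≤ Fintype.card ((ι → K) × (ι → K)) := by positivity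
  have hn : (0 : ℝ) ≤ Fintype.card (Finset ι) := by positivity
  generalize (Fintype.card ((ι → K) × (ι → K)) : ℝ) = A at *
  generalize (Fintype.card (Finset ι) : ℝ) = n at *
  generalize ((((univ : Finset (Finset ι)).erase ∅).card : ℕ) : ℝ) = m at *
  generalize Real.sqrt (Fintype.card K) = u at *
  have h10 : m * A ≤ n * u * A := by
    refine mul_le_mul_of_nonneg_right (h8.trans ?_) hA
    nlinarith
  nlinarith

lemma sum_range_zmod (g : ℕ) [NeZero g] (f : (ι → ZMod g) → ℝ) :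
    ∑ h ∈ Fintype.piFinset fun _ : ι => range g, f (fun r => ((h r : ℕ) : ZMod g)) = ∑ k, f k := by
  refine Finset.sum_nbij' (fun h r => ((h r : ℕ) : ZMod g)) (fun k r => (k r).val) ?_ ?_ ?_ ?_ ?_
  · intro h _; exact mem_univ _
  · intro k _
    simp only [Fintype.mem_piFinset, mem_range]
    exact fun r => ZMod.val_lt _
  · intro h hh
    funext r
    simp only [Fintype.mem_piFinset, mem_range] at hh
    exact ZMod.val_cast_of_lt (hh r)
  · intro k _
    funext r
    simp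
  · intro h _; rfl

lemma box_range (g : ℕ) [Fact g.Prime] (hg : 3 < g) (α : ZMod g) (β : Fin 12 → ZMod g)
    (hβ : ∀ r, β r ≠ 0) :
    ∑ h ∈ Fintype.piFinset fun _ : Fin 12 => range g,
      ∑ h' ∈ Fintype.piFinset fun _ : Fin 12 => range g, ∏ ω : Finset (Fin 12),
        ((quadraticChar (ZMod g) (α + ∑ r, β r *
          (((if r ∈ ω then h' r else h r : ℕ) : ℕ) : ZMod g)) : ℤ) : ℝ) ≤
      ((g : ℝ) ^ 12) ^ 2 * (21 * 4096 / Real.sqrt g) := by
  have h2 : ringChar (ZMod g) ≠ 2 := by rw [ZMod.ringChar_zmod_n]; omega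
  have h1 := box_bound h2 α β hβ
  rw [Fintype.sum_prod_type] at h1
  rw [← sum_range_zmod g fun k => ∑ k' : Fin 12 → ZMod g, ∏ ω : Finset (Fin 12),
    ((quadraticChar (ZMod g) (vtx α β ω (k, k')) : ℤ) : ℝ)] at h1
  have h3 : ∀ h : Fin 12 → ℕ, ∑ k' : Fin 12 → ZMod g, ∏ ω : Finset (Fin 12),
      ((quadraticChar (ZMod g) (vtx α β ω (fun r => ((h r : ℕ) : ZMod g), k')) : ℤ) : ℝ) =
      ∑ h' ∈ Fintype.piFinset fun _ : Fin 12 => range g, ∏ ω : Finset (Fin 12),
        ((quadraticChar (ZMod g) (α + ∑ r, β r *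
          (((if r ∈ ω then h' r else h r : ℕ) : ℕ) : ZMod g)) : ℤ) : ℝ) := by
    intro h
    rw [← sum_range_zmod g fun k' => ∏ ω : Finset (Fin 12),
      ((quadraticChar (ZMod g) (vtx α β ω (fun r => ((h r : ℕ) : ZMod g), k')) : ℤ) : ℝ)]
    refine Finset.sum_congr rfl fun h' _ => Finset.prod_congr rfl fun ω _ => ?_
    unfold vtx
    simp only [Nat.cast_ite]
  simp only [h3] at h1
  have c1 : (Fintype.card ((Fin 12 → ZMod g) × (Fin 12 → ZMod g)) : ℝ) = ((g : ℝ) ^ 12) ^ 2 := by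
    rw [Fintype.card_prod, Fintype.card_fun, ZMod.card, Fintype.card_fin]
    push_cast
    ring
  have c2 : (Fintype.card (Finset (Fin 12)) : ℝ) = 4096 := by
    rw [Fintype.card_finset, Fintype.card_fin]
    norm_num
  rw [c1, c2, ZMod.card] at h1
  have hg0 : (0 : ℝ) < g := by exact_mod_cast (by omega : 0 < g)
  have hs : 0 < Real.sqrt g := Real.sqrt_pos.2 hg0
  have hss : Real.sqrt g * Real.sqrt g = g := Real.mul_self_sqrt hg0.le
  refine le_of_mul_le_mul_left (h1.trans (le_of_eq ?_)) hg0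
  generalize ((g : ℝ) ^ 12) ^ 2 = A
  generalize Real.sqrt g = u at *
  rw [← hss]
  field_simp

lemma norm_cast_eq (g : ℕ) (t : ℤ) (ht : (g : ℤ) ∣ t ^ 2 + 3) (w : O) :
    ((w.norm : ℤ) : ZMod g) =
      ((w.re : ZMod g) + (t : ZMod g) * w.im) * ((w.re : ZMod g) - (t : ZMod g) * w.im) := by
  have h1 : ((t ^ 2 + 3 : ℤ) : ZMod g) = 0 := (ZMod.intCast_zmod_eq_zero_iff_dvd _ _).2 ht
  push_cast at h1
  rw [Zsqrtd.norm_def]
  push_cast
  linear_combination ((w.im : ZMod g) ^ 2) * h1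

lemma re_sum (z : O) (u : Fin 12 → O) (x : Fin 12 → ℕ) :
    (z + ∑ i, (x i : O) * u i).re = z.re + ∑ i, (x i : ℤ) * (u i).re ∧
      (z + ∑ i, (x i : O) * u i).im = z.im + ∑ i, (x i : ℤ) * (u i).im := by
  have h : ∀ s : Finset (Fin 12), (∑ i ∈ s, (x i : O) * u i).re = ∑ i ∈ s, (x i : ℤ) * (u i).re ∧
      (∑ i ∈ s, (x i : O) * u i).im = ∑ i ∈ s, (x i : ℤ) * (u i).im := by
    intro s
    induction s using Finset.induction_on with
    | empty => simp
    | insert a s ha ih => simp [Finset.sum_insert ha, ih.1, ih.2]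
  simp [(h univ).1, (h univ).2]

lemma jac_eq (g : ℕ) [Fact g.Prime] (t : ℤ) (ht : (g : ℤ) ∣ t ^ 2 + 3) (z : O) (u : Fin 12 → O)
    (x : Fin 12 → ℕ) :
    J((z + ∑ i, (x i : O) * u i).norm | g) =
      quadraticChar (ZMod g) (((z.re : ZMod g) + (t : ZMod g) * z.im) +
        ∑ r, (((u r).re : ZMod g) + (t : ZMod g) * (u r).im) * ((x r : ℕ) : ZMod g)) *
      quadraticChar (ZMod g) (((z.re : ZMod g) - (t : ZMod g) * z.im) +
        ∑ r, (((u r).re : ZMod g) - (t : ZMod g) * (u r).im) * ((x r : ℕ) : ZMod g)) := by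
  rw [← jacobiSym.legendreSym.to_jacobiSym, legendreSym, norm_cast_eq g t ht, map_mul,
    (re_sum z u x).1, (re_sum z u x).2]
  push_cast
  congr 2
  · rw [mul_add, Finset.mul_sum, add_add_add_comm, ← Finset.sum_add_distrib]
    congr 1
    exact Finset.sum_congr rfl fun r _ => by ring
  · rw [mul_add, Finset.mul_sum, add_sub_add_comm, ← Finset.sum_sub_distrib]
    congr 1
    exact Finset.sum_congr rfl fun r _ => by ring

lemma root_le {X G g : ℝ} (hG : 0 ≤ G) (hg : 0 < g)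
    (h : X ^ 4096 ≤ G ^ 4094 * (G ^ 2 * (21 * 4096 / Real.sqrt g))) :
    X ≤ 21 * 4096 / g ^ (1 / 8192 : ℝ) * G := by
  have hp : 0 < g ^ (1 / 8192 : ℝ) := Real.rpow_pos_of_pos hg _
  refine le_of_pow_le_pow_left₀ (n := 4096) (by norm_num) (by positivity) (h.trans ?_)
  have h1 : (g ^ (1 / 8192 : ℝ)) ^ 4096 = Real.sqrt g := by
    rw [← Real.rpow_natCast, ← Real.rpow_mul hg.le, Real.sqrt_eq_rpow]
    norm_num
  have hc : (1 : ℝ) ≤ 21 * 4096 := by norm_num
  generalize (21 * 4096 : ℝ) = c at *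
  rw [mul_pow, div_pow, h1, ← mul_assoc, ← pow_add, mul_comm]
  refine mul_le_mul_of_nonneg_right ?_ (pow_nonneg hG _)
  exact div_le_div_of_nonneg_right (le_self_pow₀ hc (by norm_num)) (Real.sqrt_nonneg _)

end WeilAux

open WeilAux in
theorem stWeil (hBoxCS : StBoxCS) : StWeil := by
  refine ⟨21 * 4096, fun g t u t₀ z hg h3 ht hu h0 F hF => ?_⟩
  have : Fact g.Prime := ⟨hg⟩
  simp only [jac_eq g t ht z u]
  set α : ZMod g := (z.re : ZMod g) + (t : ZMod g) * z.im
  set α' : ZMod g := (z.re : ZMod g) - (t : ZMod g) * z.im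
  set β : Fin 12 → ZMod g := fun r => ((u r).re : ZMod g) + (t : ZMod g) * (u r).im with hβd
  set β' : Fin 12 → ZMod g := fun r => ((u r).re : ZMod g) - (t : ZMod g) * (u r).im with hβd'
  have hβ : ∀ r, β r ≠ 0 := by
    intro r h
    apply hu r
    rw [← ZMod.intCast_zmod_eq_zero_iff_dvd]
    push_cast
    exact h
  have hβ' : β' t₀ = 0 := by
    have := (ZMod.intCast_zmod_eq_zero_iff_dvd _ _).2 h0
    push_cast at this
    exact this
  let V : (Fin 12 → ℕ) → ℝ := fun x =>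
    ((quadraticChar (ZMod g) (α + ∑ r, β r * ((x r : ℕ) : ZMod g)) : ℤ) : ℝ)
  let U : (Fin 12 → ℕ) → ℝ := fun x =>
    ((quadraticChar (ZMod g) (α' + ∑ r, β' r * ((x r : ℕ) : ZMod g)) : ℤ) : ℝ)
  have hU : ∀ h a, U (Function.update h t₀ a) = U h := by
    intro h a
    simp only [U]
    congr 3
    refine Finset.sum_congr rfl fun r _ => ?_
    by_cases hr : r = t₀
    · subst hr; simp [hβ']
    · rw [Function.update_of_ne hr]
  let F' : Fin 12 → (Fin 12 → ℕ) → ℝ := fun r h => (if r = t₀ then U h else 1) * F r h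
  have hF' : AdmI F' := by
    refine ⟨fun r h => ?_, fun r h a => ?_⟩
    · simp only [F']
      rw [abs_mul]
      refine mul_le_one₀ ?_ (abs_nonneg _) (hF.1 r h)
      split_ifs
      · exact chi_le _
      · simp
    · simp only [F']
      rw [hF.2 r h a]
      split_ifs with hr
      · subst hr; rw [hU]
      · rfl
  have h1 := hBoxCS (Fin 12) ℕ (fun _ => range g) V F' hF'
  have h2 := box_range g h3 α β hβ
  have hg0 : (0 : ℝ) < g := by exact_mod_cast (by omega : 0 < g)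
  have h4 : ∀ h, V h * ∏ r, F' r h = V h * U h * ∏ r, F r h := by
    intro h
    simp only [F']
    rw [Finset.prod_mul_distrib, Finset.prod_ite_eq' univ t₀ fun _ => U h]
    simp [mul_assoc]
  simp only [h4, Fintype.card_fin, card_range, Finset.prod_const, Finset.card_univ] at h1
  have h5 := h1.trans (mul_le_mul_of_nonneg_left h2 (by positivity))
  have h6 := root_le (by positivity) hg0 h5
  rw [card_range]
  push_cast
  exact h6

end Pool.Agent.Lib.MP_7d3fda_nt.Q3
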