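import Pool.Agent.Lib.MP_7d3fda_nt.Q3.Aff
import Pool.Agent.Lib.MP_7d3fda_nt.Q3.Avg
import Pool.Agent.Lib.MP_7d3fda_nt.Q3.Base
import Pool.Agent.Lib.MP_7d3fda_nt.Q3.Boost
import Pool.Agent.Lib.MP_7d3fda_nt.Q3.BoxCS
import Pool.Agent.Lib.MP_7d3fda_nt.Q3.Brun
import Pool.Agent.Lib.MP_7d3fda_nt.Q3.CStep
import Pool.Agent.Lib.MP_7d3fda_nt.Q3.Chain
import Pool.Agent.Lib.MP_7d3fda_nt.Q3.Conc
import Pool.Agent.Lib.MP_7d3fda_nt.Q3.CutR
import Pool.Agent.Lib.MP_7d3fda_nt.Q3.Deg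
import Pool.Agent.Lib.MP_7d3fda_nt.Q3.Dens
import Pool.Agent.Lib.MP_7d3fda_nt.Q3.Dual
import Pool.Agent.Lib.MP_7d3fda_nt.Q3.Eps
import Pool.Agent.Lib.MP_7d3fda_nt.Q3.Eta
import Pool.Agent.Lib.MP_7d3fda_nt.Q3.Exp
import Pool.Agent.Lib.MP_7d3fda_nt.Q3.Facts
import Pool.Agent.Lib.MP_7d3fda_nt.Q3.GDual
import Pool.Agent.Lib.MP_7d3fda_nt.Q3.GK
import Pool.Agent.Lib.MP_7d3fda_nt.Q3.Gv
import Pool.Agent.Lib.MP_7d3fda_nt.Q3.LF
import Pool.Agent.Lib.MP_7d3fda_nt.Q3.LowSum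
import Pool.Agent.Lib.MP_7d3fda_nt.Q3.Main
import Pool.Agent.Lib.MP_7d3fda_nt.Q3.Many
import Pool.Agent.Lib.MP_7d3fda_nt.Q3.Mass
import Pool.Agent.Lib.MP_7d3fda_nt.Q3.Model
import Pool.Agent.Lib.MP_7d3fda_nt.Q3.Osc
import Pool.Agent.Lib.MP_7d3fda_nt.Q3.OscX
import Pool.Agent.Lib.MP_7d3fda_nt.Q3.Pack
import Pool.Agent.Lib.MP_7d3fda_nt.Q3.Pair
import Pool.Agent.Lib.MP_7d3fda_nt.Q3.Pd
import Pool.Agent.Lib.MP_7d3fda_nt.Q3.Pool
import Pool.Agent.Lib.MP_7d3fda_nt.Q3.Prime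
import Pool.Agent.Lib.MP_7d3fda_nt.Q3.PsiLow
import Pool.Agent.Lib.MP_7d3fda_nt.Q3.Pull
import Pool.Agent.Lib.MP_7d3fda_nt.Q3.Push
import Pool.Agent.Lib.MP_7d3fda_nt.Q3.Reach
import Pool.Agent.Lib.MP_7d3fda_nt.Q3.Rep
import Pool.Agent.Lib.MP_7d3fda_nt.Q3.Scale
import Pool.Agent.Lib.MP_7d3fda_nt.Q3.Slf
import Pool.Agent.Lib.MP_7d3fda_nt.Q3.Sqf
import Pool.Agent.Lib.MP_7d3fda_nt.Q3.Step
import Pool.Agent.Lib.MP_7d3fda_nt.Q3.TBox
import Pool.Agent.Lib.MP_7d3fda_nt.Q3.Top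
import Pool.Agent.Lib.MP_7d3fda_nt.Q3.TopA
import Pool.Agent.Lib.MP_7d3fda_nt.Q3.TopB
import Pool.Agent.Lib.MP_7d3fda_nt.Q3.Trans
import Pool.Agent.Lib.MP_7d3fda_nt.Q3.Unif
import Pool.Agent.Lib.MP_7d3fda_nt.Q3.UnifA
import Pool.Agent.Lib.MP_7d3fda_nt.Q3.Varn
import Pool.Agent.Lib.MP_7d3fda_nt.Q3.Weil
import Pool.Agent.Lib.MP_7d3fda_nt.Q3.Adapt

namespace Pool.Agent.Lib.MP_7d3fda_nt.Q3

theorem many : StMany := by
  have hAvg := stAvg stBrun stScale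
  have hMass := stMass hAvg stBrun stSqf stScale
  have hDeg := stDeg hAvg hMass stScale
  have hExp := stExp hAvg hMass stEta stScale
  have hReach := stReach (stPd hAvg hMass stScale) hMass stScale
  have hModel := stModel stBoost (stConc (stCStep stBoxCS)) stGDual (stTBox stBoxCS)
  have hUnif := stUnif (stUnifA stAff stBoxCS stEta) hExp hMass hReach stEta
  have hTrans := stTrans (stPair stSlf stScale) (stLF stAff stEta stScale) hExp (stDual stScale)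
    hDeg hMass stScale
  have hLow := stLowSum stPack
  have hStep := stStep (stPull stGv (stPsiLow stPack) stPack) (stPush stGv hLow stPack) stPack
  have hTop := stTop (stTopA hLow (stCutR stBoxCS stBrun stEta stScale) stSqf stPack stScale)
    (stTopB hLow stGv stPack stScale)
  have hChain := stChain hStep (stBase stGv hLow stPack stScale) hTop stPack hMass
  exact stMany (stMain hModel hUnif hReach hTrans hChain (stVarn stPack) hMass)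
    (stOsc (stOscX (stWeil stBoxCS) stScale) (stEps stScale) hDeg hMass (stFacts stScale) stScale)
    stDens (stPrime stRep stGK) (stFacts stScale) stRep stScale

theorem many5 : R4.Many5 := many5_of many (stPool stRep)

end Pool.Agent.Lib.MP_7d3fda_nt.Q3
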