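import Pool.Agent.Lib.MP_7d3fda_nt.Q3.St
import Pool.Agent.Lib.MP_4b8564_nt.GT.Av
import Pool.Agent.Lib.MP_0a3467_an.Cv.LowL

open Finset Filter
open scoped Classical

noncomputable section

namespace Pool.Agent.Lib.MP_7d3fda_nt.Q3

open Pool.Agent.Lib.MP_4b8564_nt Pool.Agent.Lib.MP_4b8564_nt.GT

/-! Shared elementary lemmas. -/

section EvApi

variable {d : Dat} {P : Par} {w : ℕ} {Φ Ψ : Sc → Prop}

theorem Ev1.mono (h : Ev1 d P w Φ)
    (H : ∀ S : Sc, S.d = d → S.P = P → S.w = w → S.Ok → Φ S → Ψ S) : Ev1 d P w Ψ :=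
  Filter.Eventually.mono h fun _ h1 b w0 P0 ho => H _ rfl rfl rfl ho (h1 b w0 P0 ho)

theorem Ev1.and (h : Ev1 d P w Φ) (h' : Ev1 d P w Ψ) : Ev1 d P w fun S => Φ S ∧ Ψ S :=
  (Filter.Eventually.and h h').mono fun _ h1 b w0 P0 ho => ⟨h1.1 b w0 P0 ho, h1.2 b w0 P0 ho⟩

theorem Ev1.of_eventually {Θ : ℕ → Prop} (h : ∀ᶠ ρ in atTop, Θ ρ) : Ev1 d P w fun S => Θ S.ρ :=
  h.mono fun _ h1 _ _ _ _ => h1

theorem Ev.mono (h : Ev d P Φ) (H : ∀ S : Sc, S.d = d → S.P = P → S.Ok → Φ S → Ψ S) :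
    Ev d P Ψ := by
  obtain ⟨w₀, h⟩ := h
  exact ⟨w₀, fun w hw => (h w hw).mono fun S h1 h2 _ h4 h5 => H S h1 h2 h4 h5⟩

theorem Ev.and (h : Ev d P Φ) (h' : Ev d P Ψ) : Ev d P fun S => Φ S ∧ Ψ S := by
  obtain ⟨w₀, h⟩ := h
  obtain ⟨w₁, h'⟩ := h'
  exact ⟨max w₀ w₁, fun w hw => (h w (le_of_max_le_left hw)).and (h' w (le_of_max_le_right hw))⟩

/-- a condition on `w` alone, and then one on `w` and `ρ` -/
theorem Ev.of_eventually {Θ : ℕ → ℕ → Prop} (w₀ : ℕ) (h : ∀ w, w₀ ≤ w → ∀ᶠ ρ in atTop, Θ w ρ) :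
    Ev d P fun S => w₀ ≤ S.w ∧ Θ S.w S.ρ :=
  ⟨w₀, fun w hw => (h w hw).mono fun _ h1 _ _ _ _ => ⟨hw, h1⟩⟩

theorem Ev.forall_fin {ι : Type} [Finite ι] {Φ : ι → Sc → Prop} (h : ∀ i, Ev d P (Φ i)) :
    Ev d P fun S => ∀ i, Φ i S := by
  have := Fintype.ofFinite ι
  choose w₀ h using h
  refine ⟨univ.sup w₀, fun w hw => ?_⟩
  have h1 := Filter.eventually_all.2 fun i => h i w ((le_sup (mem_univ i)).trans hw)
  exact h1.mono fun _ h2 b w0 P0 ho i => h2 i b w0 P0 ho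

end EvApi

theorem ev_const (c : ℝ) : ∀ᶠ ρ : ℕ in atTop, c ≤ ρ :=
  tendsto_natCast_atTop_atTop.eventually_ge_atTop c

theorem ev_log (c : ℝ) : ∀ᶠ ρ : ℕ in atTop, c ≤ Real.log ρ :=
  (Real.tendsto_log_atTop.comp tendsto_natCast_atTop_atTop).eventually_ge_atTop c

theorem ev_log_pow (c : ℝ) (n : ℕ) : ∀ᶠ ρ : ℕ in atTop, c * Real.log ρ ^ n ≤ ρ := by
  have h := (Real.isLittleO_pow_log_id_atTop (n := n)).comp_tendsto
    (tendsto_natCast_atTop_atTop (R := ℝ))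
  have h1 := h.def (c := 1 / (|c| + 1)) (by positivity)
  refine h1.mono fun ρ hρ => ?_
  simp only [Function.comp, id, Real.norm_eq_abs, Nat.abs_cast] at hρ
  have h2 : 0 ≤ Real.log ρ ^ n := pow_nonneg (Real.log_natCast_nonneg ρ) n
  rw [abs_of_nonneg h2, one_div, inv_mul_eq_div, le_div_iff₀ (by positivity)] at hρ
  nlinarith [le_abs_self c]

/-- a linear form of a root bound -/
theorem le_of_pow_le {t B τ : ℝ} {n : ℕ} (hn : 0 < n) (hτ : 0 < τ) (ht : 0 ≤ t) (h : t ^ n ≤ B) :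
    t ≤ τ + B / τ ^ (n - 1) := by
  have hB : 0 ≤ B := (pow_nonneg ht n).trans h
  rcases le_or_gt t τ with h1 | h1
  · exact h1.trans (le_add_of_nonneg_right (by positivity))
  · have h2 : t * τ ^ (n - 1) ≤ B := by
      calc t * τ ^ (n - 1) ≤ t * t ^ (n - 1) := by gcongr
        _ = t ^ n := by rw [← pow_succ', Nat.sub_add_cancel hn]
        _ ≤ B := h
    have h3 : t ≤ B / τ ^ (n - 1) := (le_div_iff₀ (by positivity)).2 h2
    linarith

/-- coordinatewise substitution in a structured function -/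
theorem low_comp {s : ℕ} {H H' : Type} {B : Set H} {B' : Set H'} {M : ℝ} {G : (Fin s → H) → ℝ}
    (h : MP_0a3467_an.Cv.Low B M G) (φ : Fin s → H' → H) (hφ : ∀ r, ∀ a ∈ B', φ r a ∈ B) :
    MP_0a3467_an.Cv.Low B' M fun x : Fin s → H' => G fun r => φ r (x r) := by
  intro I S c pt b hpt hb
  refine h I S c (fun i r => φ r (pt i r)) b (fun i hi r => hφ r _ (hpt i hi r)) fun F hF => ?_
  refine hb (fun r x => F r fun r' => φ r' (x r')) ⟨fun r x => hF.1 r _, fun r x a => ?_⟩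
  refine Eq.trans ?_ (hF.2 r (fun r' => φ r' (x r')) (φ r a))
  refine congrArg (F r) ?_
  funext r'
  by_cases e : r' = r
  · subst e; simp
  · simp [Function.update_of_ne e]

/-! ### the order -/

theorem norm_eq (z : O) : z.norm = z.re ^ 2 + 3 * z.im ^ 2 := by
  rw [Zsqrtd.norm_def]; ring

theorem norm_nonneg' (z : O) : 0 ≤ z.norm := by rw [norm_eq]; positivity

theorem norm_pos' {z : O} (h : z ≠ 0) : 0 < z.norm :=
  (norm_nonneg' z).lt_of_ne fun h1 => h ((Zsqrtd.norm_eq_zero_iff (by norm_num) z).1 h1.symm)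

theorem mul_re' (x y : O) : (x * y).re = x.re * y.re - 3 * (x.im * y.im) := by
  rw [Zsqrtd.re_mul]; ring

theorem mul_im' (x y : O) : (x * y).im = x.re * y.im + x.im * y.re := by
  rw [Zsqrtd.im_mul]

theorem sz_cast (x : O) : (sz x : ℤ) = |x.re| + |x.im| := by simp [sz]

theorem norm_le_sz (x : O) : x.norm ≤ 3 * (sz x : ℤ) ^ 2 := by
  rw [norm_eq, sz_cast, ← sq_abs x.re, ← sq_abs x.im]
  nlinarith [abs_nonneg x.re, abs_nonneg x.im]

theorem sz_le_norm (x : O) : (sz x : ℤ) ^ 2 ≤ 2 * x.norm := by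
  rw [norm_eq, sz_cast, ← sq_abs x.re, ← sq_abs x.im]
  nlinarith [sq_nonneg (|x.re| - |x.im|), sq_nonneg |x.im|]

theorem sz_add (x y : O) : sz (x + y) ≤ sz x + sz y := by
  have h1 := Int.natAbs_add_le x.re y.re
  have h2 := Int.natAbs_add_le x.im y.im
  simp only [sz, Zsqrtd.re_add, Zsqrtd.im_add]; omega

theorem sz_star (x : O) : sz (star x) = sz x := by simp [sz]

theorem sz_mul (x y : O) : sz (x * y) ≤ 3 * sz x * sz y := by
  have h : (sz (x * y) : ℤ) ≤ 3 * sz x * sz y := by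
    rw [sz_cast, sz_cast, sz_cast, mul_re', mul_im']
    have h1 : |x.re * y.re - 3 * (x.im * y.im)| ≤ |x.re| * |y.re| + 3 * (|x.im| * |y.im|) := by
      refine (abs_sub _ _).trans ?_
      simp [abs_mul]
    have h2 : |x.re * y.im + x.im * y.re| ≤ |x.re| * |y.im| + |x.im| * |y.re| := by
      refine (abs_add_le _ _).trans ?_
      simp [abs_mul]
    have a1 := mul_nonneg (abs_nonneg x.re) (abs_nonneg y.re)
    have a2 := mul_nonneg (abs_nonneg x.re) (abs_nonneg y.im)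
    have a3 := mul_nonneg (abs_nonneg x.im) (abs_nonneg y.re)
    nlinarith
  exact_mod_cast h

theorem natCast_dvd_iff (F : ℕ) (z : O) : (F : O) ∣ z ↔ (F : ℤ) ∣ z.re ∧ (F : ℤ) ∣ z.im := by
  have := Zsqrtd.intCast_dvd (F : ℤ) z
  simpa using this

/-- cancellation of an element whose norm is coprime to the modulus -/
theorem dvd_of_mul {F : ℕ} {x z : O} (h : IsCoprime x.norm (F : ℤ)) (hz : (F : O) ∣ z * x) :
    (F : O) ∣ z := by
  obtain ⟨u, v, huv⟩ := h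
  have h1 : ((u * x.norm + v * F : ℤ) : O) = 1 := by rw [huv]; simp
  have h2 : z = (u : O) * star x * (z * x) + (F : O) * ((v : O) * z) := by
    have h3 : ((x.norm : ℤ) : O) = x * star x := Zsqrtd.norm_eq_mul_conj x
    push_cast at h1
    rw [h3] at h1
    linear_combination (-z) * h1
  rw [h2]
  exact dvd_add (hz.mul_left _) (dvd_mul_right _ _)

/-- solvability of a congruence -/
theorem exists_class {F : ℕ} {x : O} (h : IsCoprime x.norm (F : ℤ)) (b : O) :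
    ∃ a : O, (F : O) ∣ a * x - b := by
  obtain ⟨u, v, huv⟩ := h
  have h1 : ((u * x.norm + v * F : ℤ) : O) = 1 := by rw [huv]; simp
  have h3 : ((x.norm : ℤ) : O) = x * star x := Zsqrtd.norm_eq_mul_conj x
  push_cast at h1
  rw [h3] at h1
  exact ⟨(u : O) * star x * b, -((v : O) * b), by linear_combination b * h1⟩

theorem norm_congr {F : ℕ} {x y : O} (h : (F : O) ∣ x - y) : (F : ℤ) ∣ x.norm - y.norm := by
  obtain ⟨h1, h2⟩ := (natCast_dvd_iff F _).1 h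
  simp only [Zsqrtd.re_sub, Zsqrtd.im_sub] at h1 h2
  have : x.norm - y.norm = (x.re - y.re) * (x.re + y.re) + (x.im - y.im) * (3 * (x.im + y.im)) := by
    rw [norm_eq, norm_eq]; ring
  rw [this]
  exact dvd_add (h1.mul_right _) (h2.mul_right _)

/-! ### the pattern -/

namespace Dat

variable (d : Dat)

theorem c_le (j : Fin 6) : 2 * (d.e : ℤ) + |d.c j| ≤ d.C := by
  have h : (d.c j).natAbs ≤ ∑ j, (d.c j).natAbs :=
    single_le_sum (f := fun j => (d.c j).natAbs) (fun _ _ => Nat.zero_le _) (mem_univ j)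
  have h1 : 2 * d.e + (d.c j).natAbs ≤ d.C := by unfold Dat.C; omega
  have h2 : ((2 * d.e + (d.c j).natAbs : ℕ) : ℤ) ≤ d.C := by exact_mod_cast h1
  simpa using h2

theorem cc_le {i j : Fin 6} (h : i ≠ j) : 2 * (d.e : ℤ) + |d.c i| + |d.c j| ≤ d.C := by
  have h0 : ∑ k ∈ {i, j}, (d.c k).natAbs ≤ ∑ k, (d.c k).natAbs :=
    sum_le_sum_of_subset (subset_univ _)
  rw [sum_pair h] at h0
  have h1 : 2 * d.e + (d.c i).natAbs + (d.c j).natAbs ≤ d.C := by unfold Dat.C; omega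
  have h2 : ((2 * d.e + (d.c i).natAbs + (d.c j).natAbs : ℕ) : ℤ) ≤ d.C := by exact_mod_cast h1
  simpa using h2

theorem two_e_le : 2 * d.e ≤ d.C := Nat.le_add_right _ _

theorem three_le_C : 3 ≤ d.C := by
  have h := d.cc_le (i := 0) (j := 1) (by decide)
  have h1 : d.c 0 ≠ d.c 1 := fun h2 => absurd (d.hc h2) (by decide)
  have h3 := d.he
  have h4 : 1 ≤ |d.c 0| + |d.c 1| := by
    rcases eq_or_ne (d.c 0) 0 with h5 | h5
    · have := abs_pos.2 (h5 ▸ h1.symm : d.c 1 ≠ 0)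
      linarith [abs_nonneg (d.c 0)]
    · linarith [abs_pos.2 h5, abs_nonneg (d.c 1), Int.one_le_abs h5]
  omega

theorem lam_add (j : Fin 6) (x y : O) : d.lam j (x + y) = d.lam j x + d.lam j y := by
  simp only [lam, Zsqrtd.re_add, Zsqrtd.im_add]; ring

theorem lam_sub (j : Fin 6) (x y : O) : d.lam j (x - y) = d.lam j x - d.lam j y := by
  simp only [lam, Zsqrtd.re_sub, Zsqrtd.im_sub]; ring

theorem lam_intCast_mul (j : Fin 6) (n : ℤ) (x : O) : d.lam j ((n : O) * x) = n * d.lam j x := by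
  simp only [lam, mul_re', mul_im', Zsqrtd.re_intCast, Zsqrtd.im_intCast]; ring

theorem lam_natCast_mul (j : Fin 6) (n : ℕ) (x : O) : d.lam j ((n : O) * x) = n * d.lam j x := by
  simpa using d.lam_intCast_mul j n x

theorem lam_sum {ι : Type} (j : Fin 6) (s : Finset ι) (x : ι → O) :
    d.lam j (∑ i ∈ s, x i) = ∑ i ∈ s, d.lam j (x i) := by
  induction s using Finset.induction_on with
  | empty => simp [lam]
  | insert a s ha ih => rw [sum_insert ha, sum_insert ha, lam_add, ih]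

theorem lam_natCast (j : Fin 6) (n : ℕ) : d.lam j (n : O) = d.e * n := by simp [lam]

/-- the form `z ↦ lam j (γ z)` in coordinates -/
theorem lam_mul (j : Fin 6) (γ z : O) :
    d.lam j (γ * z) = d.lam j γ * z.re + d.lam j (γ * Zsqrtd.sqrtd) * z.im := by
  simp only [lam, mul_re', mul_im', Zsqrtd.re_sqrtd, Zsqrtd.im_sqrtd]; ring

theorem lam_ker (i j : Fin 6) : d.lam i (d.ker j) = d.e * (d.c i - d.c j) := by
  simp only [lam, ker]; ring

theorem lam_ker_sqrt (i j : Fin 6) :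
    d.lam i (d.ker j * Zsqrtd.sqrtd) = -(3 * d.e ^ 2 + d.c i * d.c j) := by
  simp only [lam, ker, mul_re', mul_im', Zsqrtd.re_sqrtd, Zsqrtd.im_sqrtd]; ring

theorem norm_ker (j : Fin 6) : (d.ker j).norm = 3 * d.e ^ 2 + d.c j ^ 2 := by
  rw [norm_eq]; simp only [ker]; ring

theorem norm_ker_le (j : Fin 6) : (d.ker j).norm ≤ (d.C : ℤ) ^ 2 := by
  rw [norm_ker, ← sq_abs (d.c j)]
  have h := d.c_le j
  have h1 := abs_nonneg (d.c j)
  have h2 : (0 : ℤ) ≤ d.e := Int.natCast_nonneg _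
  nlinarith [mul_nonneg h1 h2]

theorem norm_ker_pos (j : Fin 6) : 0 < (d.ker j).norm := by
  rw [norm_ker]
  have := d.he
  positivity

theorem sz_ker (j : Fin 6) : sz (d.ker j) ≤ d.C := by
  have h := d.c_le j
  have h1 : (sz (d.ker j) : ℤ) = |d.c j| + d.e := by rw [sz_cast]; simp [ker]
  omega

theorem abs_lam_le (j : Fin 6) (z : O) : |d.lam j z| ≤ d.C * (sz z : ℤ) := by
  have h := d.c_le j
  have h1 : |d.lam j z| ≤ d.e * |z.re| + |d.c j| * |z.im| := by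
    refine (abs_add_le _ _).trans ?_
    simp [abs_mul]
  have h2 : (0 : ℤ) ≤ d.e := Int.natCast_nonneg _
  rw [sz_cast]
  nlinarith [abs_nonneg z.re, abs_nonneg z.im, abs_nonneg (d.c j)]

/-- identity (I1) -/
theorem lam_sq (j : Fin 6) (γ : O) :
    3 * d.lam j γ ^ 2 + d.lam j (γ * Zsqrtd.sqrtd) ^ 2 = (d.ker j).norm * γ.norm := by
  rw [norm_ker, norm_eq]
  simp only [lam, mul_re', mul_im', Zsqrtd.re_sqrtd, Zsqrtd.im_sqrtd]; ring

/-- a common divisor of the coefficients of `z ↦ lam j (γ z)` -/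
theorem dvd_of_lam (j : Fin 6) (γ : O) {g : ℤ} (h1 : g ∣ d.lam j γ)
    (h2 : g ∣ d.lam j (γ * Zsqrtd.sqrtd)) :
    g ∣ (d.ker j).norm * γ.re ∧ g ∣ (d.ker j).norm * γ.im := by
  have e1 : (d.ker j).norm * γ.re = 3 * d.e * d.lam j γ + d.c j * d.lam j (γ * Zsqrtd.sqrtd) := by
    rw [norm_ker]
    simp only [lam, mul_re', mul_im', Zsqrtd.re_sqrtd, Zsqrtd.im_sqrtd]; ring
  have e2 : (d.ker j).norm * γ.im = d.c j * d.lam j γ - d.e * d.lam j (γ * Zsqrtd.sqrtd) := by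
    rw [norm_ker]
    simp only [lam, mul_re', mul_im', Zsqrtd.re_sqrtd, Zsqrtd.im_sqrtd]; ring
  rw [e1, e2]
  exact ⟨dvd_add (h1.mul_left _) (h2.mul_left _), dvd_sub (h1.mul_left _) (h2.mul_left _)⟩

/-- identity (I2) -/
theorem star_mul_ker (j : Fin 6) (γ : O) :
    star γ * d.ker j = ⟨-d.lam j (γ * Zsqrtd.sqrtd), d.lam j γ⟩ := by
  ext <;> simp only [lam, ker, mul_re', mul_im', Zsqrtd.re_sqrtd, Zsqrtd.im_sqrtd,
    Zsqrtd.re_star, Zsqrtd.im_star] <;> ring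

theorem lam_mul_star (i j : Fin 6) (γ : O) :
    d.lam i (γ * (star γ * d.ker j)) = γ.norm * (d.e * (d.c i - d.c j)) := by
  rw [← mul_assoc, ← Zsqrtd.norm_eq_mul_conj, lam_intCast_mul, lam_ker]

theorem bb_self (θ : O × O) (t : Fin 12) : d.bb θ t t = 0 := by
  rw [bb, dir, lam_mul_star]; simp

theorem nn_add {F : ℕ} (hF : 0 < F) (b : ℕ) (j : Fin 6) (z v : O) :
    d.nn b F j (z + (F : O) * v) = d.nn b F j z + d.lam j v := by
  have h : d.lam j (z + (F : O) * v) - d.e * b = d.lam j z - d.e * b + (F : ℤ) * d.lam j v := by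
    rw [lam_add, lam_natCast_mul]; ring
  rw [nn, h, Int.add_mul_ediv_left _ _ (by exact_mod_cast hF.ne'), nn]

theorem nn_base {F : ℕ} (hF : 0 < F) (b : ℕ) (j : Fin 6) (v : O) :
    d.nn b F j ((b : O) + (F : O) * v) = d.lam j v := by
  rw [d.nn_add hF, nn, lam_natCast]; simp

theorem lam_eq {F b : ℕ} (hF : 0 < F) (j : Fin 6) {z : O} (h : (F : O) ∣ z - b) :
    d.lam j z = d.e * b + F * d.nn b F j z := by
  obtain ⟨v, hv⟩ := h
  have h1 : z = (b : O) + (F : O) * v := by rw [← hv]; ring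
  rw [h1, d.nn_base hF, lam_add, lam_natCast, lam_natCast_mul]

end Dat

/-- a squarefree norm forces coprime coordinates -/
theorem not_dvd_both {γ : O} (h : Squarefree γ.norm.natAbs) {p : ℕ} (hp : p.Prime) :
    ¬((p : ℤ) ∣ γ.re ∧ (p : ℤ) ∣ γ.im) := by
  rintro ⟨⟨u, hu⟩, ⟨v, hv⟩⟩
  have h1 : ((p * p : ℕ) : ℤ) ∣ γ.norm := ⟨u ^ 2 + 3 * v ^ 2, by
    rw [norm_eq, hu, hv]; push_cast; ring⟩
  exact hp.one_lt.ne' (Nat.isUnit_iff.1 (h p (Int.natCast_dvd.1 h1)))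

/-! ### boxes -/

theorem em_add (h h' : ℕ × ℕ) : em (h + h') = em h + em h' := by
  ext <;> simp [em]

theorem em_sum {ι : Type} (s : Finset ι) (h : ι → ℕ × ℕ) :
    em (∑ i ∈ s, h i) = ∑ i ∈ s, em (h i) := by
  induction s using Finset.induction_on with
  | empty => ext <;> simp [em]
  | insert a s ha ih => rw [sum_insert ha, sum_insert ha, em_add, ih]

theorem cbx_inj {F : ℕ} (hF : 0 < F) (a : O) :
    Function.Injective fun h : ℕ × ℕ => a + (F : O) * em h := by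
  intro h h' e
  have e1 := congrArg Zsqrtd.re e
  have e2 := congrArg Zsqrtd.im e
  simp only [em, Zsqrtd.re_add, Zsqrtd.im_add, mul_re', mul_im', Zsqrtd.re_natCast,
    Zsqrtd.im_natCast, zero_mul, mul_zero, sub_zero, add_zero, add_right_inj] at e1 e2
  have hF' : (F : ℤ) ≠ 0 := by exact_mod_cast hF.ne'
  exact Prod.ext (by exact_mod_cast mul_left_cancel₀ hF' e1)
    (by exact_mod_cast mul_left_cancel₀ hF' e2)

theorem mem_cbx {F L : ℕ} {a z : O} :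
    z ∈ cbx F a L ↔ ∃ h : ℕ × ℕ, h.1 < L ∧ h.2 < L ∧ z = a + (F : O) * em h := by
  simp only [cbx, mem_image, mem_product, mem_range]
  exact ⟨fun ⟨h, ⟨h1, h2⟩, e⟩ => ⟨h, h1, h2, e.symm⟩, fun ⟨h, h1, h2, e⟩ => ⟨h, ⟨h1, h2⟩, e.symm⟩⟩

theorem sum_cbx {F : ℕ} (hF : 0 < F) (a : O) (L : ℕ) (Φ : O → ℝ) :
    ∑ z ∈ cbx F a L, Φ z = ∑ h ∈ range L ×ˢ range L, Φ (a + (F : O) * em h) :=
  sum_image fun _ _ _ _ e => cbx_inj hF a e

theorem card_cbx {F : ℕ} (hF : 0 < F) (a : O) (L : ℕ) : (cbx F a L).card = L ^ 2 := by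
  rw [cbx, card_image_of_injective _ (cbx_inj hF a), card_product, card_range, sq]

theorem bav_two (L : ℕ) (Φ : (Fin 2 → ℤ) → ℝ) :
    bav L Φ = (∑ h ∈ range L ×ˢ range L, Φ ![(h.1 : ℤ), (h.2 : ℤ)]) / (L : ℝ) ^ 2 := by
  rw [bav, ← av_equiv (finTwoArrowEquiv (Fin L)).symm, av, Fintype.sum_prod_type, sum_product,
    Fintype.card_prod, Fintype.card_fin, Nat.cast_mul, sq, sum_range]
  congr 1
  refine sum_congr rfl fun i _ => ?_
  rw [sum_range]
  refine sum_congr rfl fun j _ => congrArg Φ (funext fun v => ?_)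
  fin_cases v <;> rfl

theorem sum_cbx_bav {F : ℕ} (hF : 0 < F) (a : O) (L : ℕ) (Φ : O → ℝ) :
    (∑ z ∈ cbx F a L, Φ z) / (L : ℝ) ^ 2 = bav L fun h => Φ (a + (F : O) * emZ h) := by
  rw [sum_cbx hF, bav_two]; rfl

/-! ### scales -/

namespace Sc

variable (S : Sc)

theorem W_pos : 0 < S.W := Nat.factorial_pos _

theorem F_pos : 0 < S.F := Nat.mul_pos S.d.he (Nat.factorial_pos _)

theorem Q_pos : 0 < S.Q := Nat.mul_pos S.F_pos (Nat.factorial_pos _)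

theorem F_eq : S.F = S.d.e * S.W := rfl

theorem avB_eq (Φ : O → ℝ) : S.avB Φ = bav S.l fun h => Φ (S.w0 + (S.F : O) * emZ h) :=
  sum_cbx_bav S.F_pos _ _ _

theorem mem_B_congr {z : O} (h : z ∈ S.B) : (S.F : O) ∣ z - S.w0 := by
  obtain ⟨k, -, -, e⟩ := mem_cbx.1 h
  exact ⟨em k, by rw [e]; ring⟩

/-- primes above `w` do not divide `F` or `Q` once `e ≤ w` -/
theorem not_dvd_Q (he : S.d.e ≤ S.w) {p : ℕ} (hp : p.Prime) (hw : S.w < p) : ¬p ∣ S.Q := by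
  have h1 : ¬p ∣ S.w.factorial := fun h => absurd (hp.dvd_factorial.1 h) (by omega)
  have h2 : ¬p ∣ S.d.e := fun h => absurd (Nat.le_of_dvd S.d.he h) (by omega)
  intro h
  rcases (hp.dvd_mul).1 h with h | h
  · exact ((hp.dvd_mul).1 h).elim h2 h1
  · exact h1 h

theorem not_dvd_F (he : S.d.e ≤ S.w) {p : ℕ} (hp : p.Prime) (hw : S.w < p) : ¬p ∣ S.F :=
  fun h => S.not_dvd_Q he hp hw (h.mul_right _)

theorem dvd_F {p : ℕ} (hp : 0 < p) (hw : p ≤ S.w) : p ∣ S.F :=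
  (Nat.dvd_factorial hp hw).mul_left _

theorem nl_eq (θ : O × O) (z : O) (t : Fin 12) (x : Fin 12 → Fin S.H) :
    S.nl θ z t x = S.nn (jx t) (sd θ t * z) + ∑ i, ((x i : ℕ) : ℤ) * S.d.bb θ t i := by
  have h : sd θ t * S.pt θ z (fun i => x i) =
      sd θ t * z + (S.F : O) * ∑ i, ((x i : ℕ) : O) * (sd θ t * S.d.dir θ i) := by
    rw [pt, mul_add, mul_left_comm, mul_sum]
    exact congrArg _ (congrArg _ (sum_congr rfl fun i _ => by ring))
  rw [nl, h, nn, S.d.nn_add S.F_pos, S.d.lam_sum]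
  exact congrArg _ (sum_congr rfl fun i _ => S.d.lam_natCast_mul _ _ _)

end Sc

/-- the exponents are large -/
theorem Par.Ok.big {P : Par} {d : Dat} (h : P.Ok d) :
    8388608 ≤ P.a ∧ 8388608 * P.a ≤ P.A ∧ 16 * P.A ≤ P.E * P.A ∧ 16 ≤ P.J := by
  have h1 : 2 ^ 23 ≤ 2 ^ (P.s + 12) := Nat.pow_le_pow_right (by norm_num) (by have := h.hs; omega)
  have h2 := d.he
  have h3 := h.hJ
  exact ⟨h1.trans h.ha, (Nat.mul_le_mul_right _ h1).trans h.hA, Nat.mul_le_mul_right _ h.hE,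
    by omega⟩

theorem Sc.TG {S : Sc} (h : S.P.Ok S.d) : S.T * S.G = S.W * S.N := by
  obtain ⟨h1, h2, h3, -⟩ := h.big
  rw [Sc.T, Sc.G, Sc.N, mul_assoc, ← pow_add, Nat.sub_add_cancel (by omega)]

theorem Sc.l_le (S : Sc) : S.P.J * S.l ≤ S.ρ ^ (S.P.E * S.P.A - 8 * S.P.a) :=
  Nat.mul_div_le _ _

theorem Sc.le_l {S : Sc} (h : S.P.Ok S.d) (hρ : S.P.J ≤ S.ρ) :
    S.ρ ^ (S.P.E * S.P.A - 8 * S.P.a) ≤ 2 * S.P.J * S.l := by
  obtain ⟨h1, h2, h3, h4⟩ := h.big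
  have h5 : S.P.J ≤ S.ρ ^ (S.P.E * S.P.A - 8 * S.P.a) :=
    hρ.trans (Nat.le_self_pow (by omega) _)
  have h6 : 1 ≤ S.l := (Nat.le_div_iff_mul_le (by omega)).2 (by omega)
  have h7 := Nat.lt_mul_div_succ (S.ρ ^ (S.P.E * S.P.A - 8 * S.P.a)) (by omega : 0 < S.P.J)
  have h8 : S.P.J * (S.l + 1) ≤ S.P.J * (2 * S.l) := Nat.mul_le_mul_left _ (by omega)
  have h9 : S.P.J * (2 * S.l) = 2 * S.P.J * S.l := by ring
  unfold Sc.l at *
  omega

end Pool.Agent.Lib.MP_7d3fda_nt.Q3
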