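import Pool.Agent.Lib.MP_7d3fda_nt.R3.ADefs
import Pool.Agent.Lib.MP_0a3467_an.Cv.Defs

open Finset Filter
open scoped Classical NumberTheorySymbols

noncomputable section

namespace Pool.Agent.Lib.MP_7d3fda_nt.Q3

open Pool.Agent.Lib.MP_4b8564_nt Pool.Agent.Lib.MP_4b8564_nt.GT
open Pool.Agent.Lib.MP_0a3467_an.Cv (Low)

/-! Working definitions (none of them occurs in the final statement). -/

/-- the order -/
abbrev O : Type := ℤ√(-3)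

/-- truncation to the unit interval -/
def clip (t : ℝ) : ℝ := max 0 (min 1 t)

/-- average over `[N, 2N)` -/
def avI (N : ℕ) (φ : ℤ → ℝ) : ℝ := (∑ x ∈ Ico (N : ℤ) (2 * N), φ x) / N

/-- restriction to `[N, 2N)` -/
def cutI (N : ℕ) (φ : ℤ → ℝ) (x : ℤ) : ℝ := if (N : ℤ) ≤ x ∧ x < 2 * N then φ x else 0

/-- indicator of the multiples of `e` -/
def chi (e : ℕ) (x : ℤ) : ℝ := if (e : ℤ) ∣ x then 1 else 0

/-- bounded functions, the one with index `r` independent of the coordinate `r` -/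
def AdmI {ι H : Type} [DecidableEq ι] (F : ι → (ι → H) → ℝ) : Prop :=
  (∀ r h, |F r h| ≤ 1) ∧ ∀ r h a, F r (Function.update h r a) = F r h

/-- the box average along the directions `b` with lengths `L` -/
def boxN {ι : Type} [Fintype ι] [DecidableEq ι] (N : ℕ) (u : ℤ → ℝ) (b : ι → ℤ) (L : ι → ℕ) : ℝ :=
  (∑ᶠ x : ℤ, ∑ h ∈ Fintype.piFinset fun r => range (L r),
    ∑ h' ∈ Fintype.piFinset fun r => range (L r),
      ∏ ω : Finset ι, u (x + ∑ r, b r * ((if r ∈ ω then h' r else h r : ℕ) : ℤ))) /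
    (N * (∏ r, (L r : ℝ)) ^ 2)

/-- structured along the directions `b` -/
def LowDir {s : ℕ} (b : Fin s → ℤ) (H : ℕ) (M : ℝ) (φ : ℤ → ℝ) : Prop :=
  ∀ x : ℤ, Low (Set.Icc (-(H : ℤ)) H) M fun t : Fin s → ℤ => φ (x + ∑ r, b r * t r)

/-- averages of bounded functions that are structured along varying directions -/
def Tst {Θ : Type} {s : ℕ} (T : Finset Θ) (μ : Θ → ℝ) (b : Θ → Fin s → ℤ) (H : ℕ) (M : ℝ)
    (ψ : ℤ → ℝ) : Prop :=
  ∃ D : Θ → ℤ → ℝ, (∀ θ ∈ T, (∀ x, |D θ x| ≤ 1) ∧ LowDir (b θ) H M (D θ)) ∧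
    ψ = fun x => ∑ θ ∈ T, μ θ * D θ x

/-- size conditions of the concatenation -/
structure Reach {Θ : Type} {s : ℕ} (s' : ℕ) (κ : ℝ) (T : Finset Θ) (μ : Θ → ℝ)
    (b : Θ → Fin s → ℤ) (N H D Q lm bm Bm : ℕ) : Prop where
  m0 : ∀ θ ∈ T, 0 ≤ μ θ
  m1 : ∑ θ ∈ T, μ θ ≤ 1
  sz : ∀ θ ∈ T, ∀ r, (bm : ℤ) ≤ |b θ r| ∧ |b θ r| ≤ Bm
  bm0 : 0 < bm
  D0 : 0 < D
  Q0 : 0 < Q
  lm0 : 1 ≤ κ * lm
  h1 : lm ^ (s + 2) * (Q * D * lm ^ (s + 2) / bm + Bm + 1) ≤ H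
  h2 : (s' + 1) * Bm * H ≤ N
  h3 : (s' + 1) * Q * D * lm ^ (s + 2) ≤ N
  gc : ∀ r r', ∑ θ ∈ T, ∑ θ' ∈ T,
    (if Int.gcd (b θ r) (b θ' r') ∣ Q then 0 else μ θ * μ θ') ≤ κ

/-- the linear forms condition with an extra weight that depends on all coordinates -/
def LF2 {ι X : Type} [Fintype ι] [DecidableEq ι] [Fintype X] (ν₀ : (ι → X) → ℝ)
    (ν : ι → (ι → X) → ℝ) (η : ℝ) : Prop :=
  ∀ (U : Finset (Finset ι)) (T : Finset (ι × Finset ι)), (∀ t ∈ T, t.1 ∉ t.2) →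
    |av (fun z : (ι → X) × (ι → X) => (∏ S ∈ U, ν₀ (S.piecewise z.2 z.1)) *
      ∏ t ∈ T, ν t.1 (t.2.piecewise z.2 z.1)) - 1| ≤ η

/-! ### sieve weights -/

/-- the Selberg weight of a family of events -/
def bet (P : Finset ℕ) (R : ℕ) (E : ℕ → Prop) : ℝ :=
  (∑ U ∈ Sg.fam P R, ∏ p ∈ U, if E p then (-1 : ℝ) else 1 / ((p : ℝ) - 1)) ^ 2 / Sg.GG P R

/-- the majorant on the integers -/
def nuZ (w R : ℕ) (m : ℤ) : ℝ := bet (Sg.PP w R) R fun p => (p : ℤ) ∣ m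

/-- the primes with a square root of `-3` -/
def PS (w R : ℕ) : Finset ℕ := (Sg.PP w R).filter fun p => ∃ r : ℤ, (p : ℤ) ∣ r ^ 2 + 3

/-- a square root of `-3` -/
def rt (p : ℕ) : ℤ := if h : ∃ r : ℤ, (p : ℤ) ∣ r ^ 2 + 3 then h.choose else 0

/-- the majorant on the order -/
def nuK (w R : ℕ) (z : O) : ℝ :=
  bet (PS w R) R (fun p => (p : ℤ) ∣ z.re + rt p * z.im) *
    bet (PS w R) R fun p => (p : ℤ) ∣ z.re - rt p * z.im

/-- the error of the linear forms condition -/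
def etaP (C : ℝ) (w R : ℕ) (Δ : ℤ) : ℝ :=
  (∏ p ∈ Sg.PP w R, (1 + C / (p : ℝ) ^ 2)) *
    (∏ p ∈ (Sg.PP w R).filter fun p : ℕ => (p : ℤ) ∣ Δ, (1 + C / (p : ℝ))) - 1

/-- no prime in `(w, y]` divides the norm -/
def Rough (w y : ℕ) (γ : O) : Prop := ∀ p ∈ Sg.PP w y, ¬(p : ℤ) ∣ γ.norm

/-- the local density of the zeros of the norm -/
def rN (p : ℕ) : ℝ := bav p fun h : Fin 2 → ℤ => if (p : ℤ) ∣ h 0 ^ 2 + 3 * h 1 ^ 2 then 1 else 0

/-- the inverse density of the rough elements -/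
def SS (w y : ℕ) : ℝ := ∏ p ∈ Sg.PP w y, (1 - rN p)⁻¹

/-! ### geometry -/

/-- the pattern -/
structure Dat where
  /-- common denominator -/
  e : ℕ
  /-- slopes -/
  c : Fin 6 → ℤ
  /-- lower bound for the mass of the pool -/
  c0 : ℝ
  /-- spread of the pool -/
  C0 : ℝ
  he : 0 < e
  hc : Function.Injective c
  h0 : 0 < c0

/-- the size of the pattern -/
def Dat.C (d : Dat) : ℕ := 2 * d.e + ∑ j, (d.c j).natAbs

/-- the forms -/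
def Dat.lam (d : Dat) (j : Fin 6) (z : O) : ℤ := d.e * z.re + d.c j * z.im

/-- their kernels -/
def Dat.ker (d : Dat) (j : Fin 6) : O := ⟨-d.c j, d.e⟩

/-- the reduced values -/
def Dat.nn (d : Dat) (b F : ℕ) (j : Fin 6) (z : O) : ℤ := (d.lam j z - d.e * b) / F

/-- the product over the pattern -/
def Dat.Fz (d : Dat) (b F : ℕ) (φ : ℤ → ℝ) (z : O) : ℝ := ∏ j, φ (d.nn b F j z)

/-- the normalised count of patterns -/
def Dat.cc (d : Dat) (N : ℕ) (φ : ℤ → ℝ) : ℝ := (∑ᶠ u : O, ∏ j, φ (d.lam j u)) / (N : ℝ) ^ 2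

/-- the normalised count of patterns on the multiples of `x` -/
def Dat.Psi (d : Dat) (b F N : ℕ) (V : O → ℝ) (φ : ℤ → ℝ) (x : O) : ℝ :=
  (x.norm : ℝ) / (N : ℝ) ^ 2 *
    ∑ᶠ γ : O, if (F : O) ∣ γ * x - b then V γ * d.Fz b F φ (γ * x) else 0

/-- a pair of naturals as an element of the order -/
def em (h : ℕ × ℕ) : O := ⟨h.1, h.2⟩

/-- a pair of integers as an element of the order -/
def emZ (h : Fin 2 → ℤ) : O := ⟨h 0, h 1⟩

/-- a pool of known factors -/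
structure PoolOk (c0 C0 : ℝ) (y : ℕ) (P0 : Finset O) : Prop where
  sqf : ∀ γ ∈ P0, Squarefree γ.norm.natAbs
  pr : ∀ γ ∈ P0, ∀ p : ℕ, p.Prime → (p : ℤ) ∣ γ.norm → y < p
  le : ∀ γ ∈ P0, γ.norm ≤ (y : ℤ) ^ 32
  inj : Set.InjOn Zsqrtd.norm (P0 : Set O)
  low : c0 ≤ ∑ γ ∈ P0, 1 / (γ.norm : ℝ)
  spr : ∀ p : ℕ, p.Prime →
    ∑ γ ∈ P0.filter (fun γ => (p : ℤ) ∣ γ.norm), 1 / (γ.norm : ℝ) ≤ C0 / y

/-- the size of an element -/
def sz (x : O) : ℕ := x.re.natAbs + x.im.natAbs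

/-- the box `a + F [0, L)^2` -/
def cbx (F : ℕ) (a : O) (L : ℕ) : Finset O :=
  (range L ×ˢ range L).image fun h => a + (F : O) * em h

/-- coordinatewise quotient -/
def dv (k : ℕ) (z : O) : O := ⟨z.re / k, z.im / k⟩

/-- the side of an index -/
def sd (θ : O × O) (t : Fin 12) : O := if (t : ℕ) < 6 then θ.1 else θ.2

/-- the form of an index -/
def jx (t : Fin 12) : Fin 6 := ⟨(t : ℕ) % 6, Nat.mod_lt _ (by norm_num)⟩

/-- the direction that fixes the form `t` -/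
def Dat.dir (d : Dat) (θ : O × O) (t : Fin 12) : O := star (sd θ t) * d.ker (jx t)

/-- the step of the form `t` in the direction `i` -/
def Dat.bb (d : Dat) (θ : O × O) (t i : Fin 12) : ℤ := d.lam (jx t) (sd θ t * d.dir θ i)

/-- the eleven steps of the form `t` -/
def Dat.bv (d : Dat) (x : (O × O) × Fin 12) (r : Fin 11) : ℤ := d.bb x.1 x.2 (x.2.succAbove r)

/-- the product of all steps -/
def Dat.Del (d : Dat) (θ : O × O) : ℤ := ∏ t : Fin 12, ∏ r : Fin 11, d.bv (θ, t) r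

/-- the pair of products -/
def pr (θ : (O × O) × O × O) : O × O := (θ.1.1 * θ.1.2, θ.2.1 * θ.2.2)

/-! ### scales -/

/-- the exponents -/
structure Par where
  /-- order of the global structure minus one -/
  s : ℕ
  /-- `G = ρ ^ (8 a)` -/
  a : ℕ
  /-- `R = ρ ^ A` -/
  A : ℕ
  /-- `N = R ^ E` -/
  E : ℕ
  /-- inverse relative size of the box -/
  J : ℕ

/-- standing relations between the exponents -/
structure Par.Ok (P : Par) (d : Dat) : Prop where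
  hs : 11 ≤ P.s
  ha : 2 ^ (P.s + 12) ≤ P.a
  hA : 2 ^ (P.s + 12) * P.a ≤ P.A
  hE : 16 ≤ P.E
  hJ : 16 * d.e ≤ P.J

/-- all the data -/
structure Sc where
  /-- pattern -/
  d : Dat
  /-- exponents -/
  P : Par
  /-- sieve threshold -/
  w : ℕ
  /-- the large parameter -/
  ρ : ℕ
  /-- the class of the values -/
  b : ℕ
  /-- the corner of the box -/
  w0 : O
  /-- the pool -/
  P0 : Finset O

namespace Sc

variable (S : Sc)

/-- modulus of the values -/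
def W : ℕ := S.w.factorial
/-- modulus in the order -/
def F : ℕ := S.d.e * S.w.factorial
/-- step of the global structure -/
def Q : ℕ := S.F * S.w.factorial
/-- sieve level -/
def R : ℕ := S.ρ ^ S.P.A
/-- size of the reduced values -/
def N : ℕ := S.ρ ^ (S.P.E * S.P.A)
/-- size of the free factor -/
def G : ℕ := S.ρ ^ (8 * S.P.a)
/-- size of the prime factor -/
def T : ℕ := S.W * S.ρ ^ (S.P.E * S.P.A - 8 * S.P.a)
/-- side of the box -/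
def l : ℕ := S.ρ ^ (S.P.E * S.P.A - 8 * S.P.a) / S.P.J
/-- length of the local shifts -/
def H : ℕ := S.ρ ^ (S.P.E * S.P.A - 17 * S.P.a)
/-- range of the global structure -/
def D : ℕ := S.ρ ^ (S.P.E * S.P.A - 4 * S.P.a)
/-- lower bound for the steps -/
def bm : ℕ := S.ρ ^ (15 * S.P.a)
/-- upper bound for the steps -/
def Bm : ℕ := S.ρ ^ (16 * S.P.a + 1)
/-- order of the pure sieve -/
def k : ℕ := S.P.a * (Nat.log 2 (Nat.log 2 S.ρ) + 1)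
/-- roughness bound -/
def y : ℕ := Nat.nthRoot S.k S.ρ
/-- the box -/
def B : Finset O := cbx S.F S.w0 S.l
/-- average over the box -/
def avB (Φ : O → ℝ) : ℝ := (∑ z ∈ S.B, Φ z) / (S.l : ℝ) ^ 2
/-- the reduced values -/
def nn (j : Fin 6) (z : O) : ℤ := S.d.nn S.b S.F j z
/-- the product over the pattern -/
def Fz (φ : ℤ → ℝ) (z : O) : ℝ := S.d.Fz S.b S.F φ z
/-- admissible free factors -/
def Fr (γ : O) : Prop :=
  (S.F : O) ∣ γ * S.w0 - S.b ∧ Rough S.w S.y γ ∧ Squarefree γ.norm.natAbs ∧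
    (S.G : ℤ) ^ 2 ≤ 9 * (S.d.C : ℤ) ^ 2 * γ.norm ∧ γ.norm ≤ 400 * (S.d.C : ℤ) ^ 2 * (S.G : ℤ) ^ 2
/-- the free factors, as pairs (known part, unknown part) -/
def Th : Finset (O × O) :=
  (S.P0 ×ˢ cbx 1 ⟨-(20 * S.d.C * S.G : ℕ), -(20 * S.d.C * S.G : ℕ)⟩
    (40 * S.d.C * S.G + 1)).filter fun i => S.Fr (i.1 * i.2)
/-- the weight of a free factor -/
def mu : ℝ := SS S.w S.y * (S.F : ℝ) ^ 2 /
  ((∑ γ ∈ S.P0, 1 / (γ.norm : ℝ)) * (200 * S.d.C : ℝ) ^ 2 * (S.G : ℝ) ^ 2)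
/-- average over the pool -/
def pav (β : O → ℝ) : ℝ := (∑ γ ∈ S.P0, β γ / (γ.norm : ℝ)) / ∑ γ ∈ S.P0, 1 / (γ.norm : ℝ)
/-- nondegenerate pairs -/
def Gp (θ : O × O) : Prop :=
  S.Fr θ.1 ∧ S.Fr θ.2 ∧ IsCoprime θ.1.norm θ.2.norm ∧ ∀ t r, (S.bm : ℤ) ≤ |S.d.bv (θ, t) r|
/-- the set of nondegenerate pairs -/
def T2 : Finset ((O × O) × O × O) := (S.Th ×ˢ S.Th).filter fun θ => S.Gp (pr θ)
/-- the index set of the tests -/
def T3 : Finset (((O × O) × O × O) × Fin 12) := S.T2 ×ˢ univ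
/-- the tests -/
def Test (ψ : ℤ → ℝ) : Prop :=
  Tst S.T3 (fun _ => S.mu ^ 2 / 12) (fun x => S.d.bv (pr x.1, x.2)) S.H (3 ^ 11) ψ ∨
    ψ = chi S.d.e
/-- the weight of the indices whose step `r` is divisible by `q` -/
def Pd (q : ℕ) (r : Fin 11) : ℝ :=
  ∑ x ∈ S.T3, if (q : ℤ) ∣ S.d.bv (pr x.1, x.2) r then S.mu ^ 2 / 12 else 0
/-- a set of multipliers -/
def Mul (n : ℕ) (Rs : Finset ℕ) : Prop :=
  Rs.card = n ∧ (∀ r ∈ Rs, r ≡ 1 [MOD S.F * S.Q] ∧ S.ρ ≤ r ∧ r ≤ 2 * S.ρ) ∧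
    ∀ r ∈ Rs, ∀ r' ∈ Rs, r ≠ r' → r.Coprime r'
/-- a point of the local box -/
def pt (θ : O × O) (z : O) (x : Fin 12 → ℕ) : O := z + (S.F : O) * ∑ t, (x t : O) * S.d.dir θ t
/-- the reduced values on the local box -/
def nl (θ : O × O) (z : O) (t : Fin 12) (x : Fin 12 → Fin S.H) : ℤ :=
  S.nn (jx t) (sd θ t * S.pt θ z fun i => x i)
/-- the majorant of the primes of the order on the local box -/
def sys0 (θ : O × O) (z : O) (x : Fin 12 → Fin S.H) : ℝ := nuK S.w S.R (S.pt θ z fun i => x i)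
/-- the majorants of the values on the local box -/
def sys (θ : O × O) (z : O) (t : Fin 12) (x : Fin 12 → Fin S.H) : ℝ :=
  nuZ S.w S.R (S.W * S.nl θ z t x + S.b)
/-- the proportion of local boxes on which `h` has a large cut norm -/
def badC (θ : O × O) (h : ℤ → ℝ) (η : ℝ) : ℝ :=
  S.avB fun z => if ∀ t : Fin 12, Cut t (fun x => h (S.nl θ z t x)) η then 0 else 1
/-- the weighted count at `z` -/
def PsiM (φ : ℤ → ℝ) (z : O) : ℝ := S.mu * ∑ i ∈ S.Th, S.Fz φ (i.1 * i.2 * z)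
/-- the expected value of the weighted count -/
def cst (φ : ℤ → ℝ) : ℝ :=
  (S.d.e : ℝ) ^ 2 * (S.T : ℝ) ^ 2 / ((200 * S.d.C : ℝ) ^ 2 * (S.w0.norm : ℝ)) * S.d.cc S.N φ
/-- the variance at the scale `k` -/
def Kk (φ : ℤ → ℝ) (k : ℕ) : ℝ :=
  (k : ℝ) ^ 2 / (S.l : ℝ) ^ 2 * ∑ z ∈ S.B.filter fun z => (k : O) ∣ z,
    (S.d.Psi S.b S.F S.N (fun _ => 1) φ (dv k z) - S.d.cc S.N φ) ^ 2
/-- the number of steps of the chain -/
def n0 : ℕ := S.P.E * S.P.A - 8 * S.P.a - S.P.A / 2 ^ (S.P.s + 4)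
/-- structured functions -/
def Str (M : ℝ) (φ : ℤ → ℝ) : Prop :=
  (∀ x, |φ x| ≤ 1) ∧ LowDir (fun _ : Fin (S.P.s + 1) => (S.Q : ℤ)) S.D M φ
/-- the function on a set of almost primes -/
def ff (A : Finset ℤ) (n : ℤ) : ℝ := if n ∈ A then Sg.GG (Sg.PP S.w S.R) S.R else 0
/-- the majorant -/
def nu (n : ℤ) : ℝ := nuZ S.w S.R (S.W * n + S.b)
/-- sets of prime values -/
def Vals (A : Finset ℤ) : Prop :=
  ∀ n ∈ A, (S.N : ℤ) ≤ n ∧ n < 2 * S.N ∧ (S.W * n + S.b).natAbs.Prime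

/-- standing hypotheses on the class and the box -/
structure Ok : Prop where
  hb : S.b < S.F
  hbc : S.b.Coprime S.F
  hw : IsCoprime S.w0.norm (S.F : ℤ)
  lo : ∀ z ∈ S.B, (S.T : ℤ) ^ 2 ≤ 4 * z.norm ∧ z.norm ≤ 9 * (S.T : ℤ) ^ 2
  po : PoolOk S.d.c0 S.d.C0 S.y S.P0

end Sc

/-- for all large `ρ` -/
def Ev1 (d : Dat) (P : Par) (w : ℕ) (Φ : Sc → Prop) : Prop :=
  ∀ᶠ ρ : ℕ in atTop, ∀ (b : ℕ) (w0 : O) (P0 : Finset O),
    Sc.Ok ⟨d, P, w, ρ, b, w0, P0⟩ → Φ ⟨d, P, w, ρ, b, w0, P0⟩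

/-- for all large `w` and then all large `ρ` -/
def Ev (d : Dat) (P : Par) (Φ : Sc → Prop) : Prop :=
  ∃ w₀ : ℕ, ∀ w : ℕ, w₀ ≤ w → Ev1 d P w Φ

/-! ### symbols -/

/-- the rule that prescribes the last symbols -/
abbrev Rule : Type := O → ℕ → ℤ → (Fin 6 → ℕ → ℤ) → ℕ → ZMod 2

/-- the symbols of the new primes at the primes of `n` -/
def sym (p : Fin 6 → ℕ) (n : ℕ) (j : Fin 6) (l : ℕ) : ℤ :=
  if l ∈ n.primeFactors then J((p j : ℤ) | l) else 0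

/-- the symbols of `q` have the prescribed values -/
def Bits (ξ : Rule) (γ : O) (p : Fin 6 → ℕ) (n : ℕ) (q : ℤ) : Prop :=
  ∀ l ∈ n.primeFactors, J(q | l) = R3.sgn (ξ γ n J((p 1 : ℤ) | p 0) (sym p n) l)

namespace Sc

variable (S : Sc)

/-- the values -/
def mm (j : Fin 6) (z : O) : ℕ := (S.W * S.nn j z + S.b).natAbs

/-- a monomial -/
def Mon (A : Finset ℤ) (U : Finset ℕ) (ε : ℕ) (φ : Fin 6 → ℕ → ℝ) (γ z : O) : ℝ :=
  if ∀ j, S.nn j (γ * z) ∈ A then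
    (∏ g ∈ U, (J(z.norm | g) : ℝ)) * (J((S.mm 1 (γ * z) : ℤ) | S.mm 0 (γ * z)) : ℝ) ^ ε *
      ∏ j, φ j (S.mm j (γ * z))
  else 0

/-- cancellation in the correlation of two monomials -/
def Osc (n ε : ℕ) : Prop :=
  ∀ A, S.Vals A → ∀ θ, S.Gp θ → ∀ U φ U' φ', U ⊆ θ.1.norm.natAbs.primeFactors →
    U' ⊆ θ.2.norm.natAbs.primeFactors → U.Nonempty → (∀ j x, |φ j x| ≤ 1) →
    (∀ j x, |φ' j x| ≤ 1) →
    |S.avB fun z => S.Mon A U ε φ θ.1 z * S.Mon A U' ε φ' θ.2 z| ≤ 1 / Real.log S.ρ ^ n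

/-- sets of primes of the order in the box -/
def Prs (Pi : Finset O) : Prop := Pi ⊆ S.B ∧ ∀ z ∈ Pi, z.norm.natAbs.Prime

/-- all triples -/
def Al (A : Finset ℤ) (Pi : Finset O) : Finset ((O × O) × O) :=
  (S.Th ×ˢ Pi).filter fun x => ∀ j, S.nn j (x.1.1 * x.1.2 * x.2) ∈ A

/-- the good triples -/
def Gd (A : Finset ℤ) (Pi : Finset O) (ξ : Rule) : Finset ((O × O) × O) :=
  (S.Al A Pi).filter fun x => Bits ξ x.1.1 (fun j => S.mm j (x.1.1 * x.1.2 * x.2))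
    (x.1.1 * x.1.2).norm.natAbs x.2.norm

end Sc

/-- a good pair of integers -/
def GoodQ (d : Dat) (W₀ u : ℕ) (P0 : ℕ → Finset O) (ξ : Rule) (a s : ℤ) : Prop :=
  ∃ (p : Fin 6 → ℕ) (n q y : ℕ) (γ : O), γ ∈ P0 y ∧ γ ∣ (⟨a, d.e * s⟩ : O) ∧ γ.norm ∣ (n : ℤ) ∧
    Squarefree n ∧ s ≠ 0 ∧ (∀ j, (p j).Prime ∧ p j ≡ u [MOD W₀] ∧ (p j : ℤ) = a + d.c j * s) ∧
    q.Prime ∧ ¬q ∣ n ∧ (n : ℤ) * q = a ^ 2 + 3 * (d.e * s) ^ 2 ∧ Bits ξ γ p n q

end Pool.Agent.Lib.MP_7d3fda_nt.Q3
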