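import Pool.Agent.Lib.MP_7d3fda_nt.Q3.Dns

open Finset Filter
open scoped Classical NumberTheorySymbols

noncomputable section

namespace Pool.Agent.Lib.MP_7d3fda_nt.Q3

open Pool.Agent.Lib.MP_4b8564_nt Pool.Agent.Lib.MP_4b8564_nt.GT

/-! Degenerate pairs are rare. -/

namespace DegAux

theorem anti (d : Dat) (i j : Fin 6) (x y : O) :
    d.lam i (x * (star y * d.ker j)) = -d.lam j (y * (star x * d.ker i)) := by
  simp only [Dat.lam, Dat.ker, mul_re', mul_im', Zsqrtd.re_star, Zsqrtd.im_star]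
  ring

theorem gp_of {S : Sc} {θ : O × O} (h1 : S.Fr θ.1) (h2 : S.Fr θ.2)
    (hc : IsCoprime θ.1.norm θ.2.norm) (hb : ∀ γ, S.Fr γ → (S.bm : ℤ) ≤ γ.norm)
    (hx : ∀ j j', (S.bm : ℤ) ≤ |S.d.lam j (θ.1 * (star θ.2 * S.d.ker j'))|) : S.Gp θ := by
  have same : ∀ γ, S.Fr γ → ∀ j j', j ≠ j' →
      (S.bm : ℤ) ≤ |S.d.lam j (γ * (star γ * S.d.ker j'))| := by
    intro γ hγ j j' hj
    rw [S.d.lam_mul_star, abs_mul, abs_of_nonneg (norm_nonneg' γ)]
    refine (hb γ hγ).trans (le_mul_of_one_le_right (norm_nonneg' γ) (Int.one_le_abs ?_))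
    exact mul_ne_zero (by exact_mod_cast S.d.he.ne') (sub_ne_zero.2 fun e => hj (S.d.hc e))
  refine ⟨h1, h2, hc, fun t r => ?_⟩
  have hne : ((t.succAbove r : Fin 12) : ℕ) ≠ t := fun e => Fin.succAbove_ne t r (Fin.ext e)
  simp only [Dat.bv, Dat.bb, Dat.dir]
  generalize t.succAbove r = i at hne
  have ht := t.2
  have hi := i.2
  by_cases a : (t : ℕ) < 6 <;> by_cases b : (i : ℕ) < 6 <;> simp only [sd, a, b, if_true, if_false]
  · exact same _ h1 _ _ fun e => by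
      have := congrArg Fin.val e
      simp only [jx] at this
      omega
  · exact hx _ _
  · rw [anti, abs_neg]
    exact hx _ _
  · exact same _ h2 _ _ fun e => by
      have := congrArg Fin.val e
      simp only [jx] at this
      omega

theorem cross (d : Dat) (j : Fin 6) (u a : O) {F L G C : ℕ} (m : ℕ) (hL : 0 < L) (hG : 0 < G)
    (h : ((G : ℤ) ^ 2) ^ 2 ≤ 9 * (C : ℤ) ^ 2 * ((L : ℤ) ^ 2 * (F : ℤ) ^ 2 * u.norm)) :
    bav L (fun h : Fin 2 → ℤ => if |d.lam j (u * (a + (F : O) * emZ h))| < m then 1 else 0) ≤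
      12 * C * m / (G : ℝ) ^ 2 + 1 / L := by
  obtain ⟨A, hA⟩ : ∃ A, A = (F : ℤ) * d.lam j u := ⟨_, rfl⟩
  obtain ⟨B, hB⟩ : ∃ B, B = (F : ℤ) * d.lam j (u * Zsqrtd.sqrtd) := ⟨_, rfl⟩
  obtain ⟨c, hc⟩ : ∃ c : ℕ, c = max A.natAbs B.natAbs := ⟨_, rfl⟩
  have hAc : |A| ≤ c := by
    rw [← Int.natCast_natAbs]
    omega
  have hBc : |B| ≤ c := by
    rw [← Int.natCast_natAbs]
    omega
  have h1 : (F : ℤ) ^ 2 * u.norm ≤ 4 * (c : ℤ) ^ 2 := by
    have e : 3 * A ^ 2 + B ^ 2 = (F : ℤ) ^ 2 * ((d.ker j).norm * u.norm) := by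
      rw [← d.lam_sq, hA, hB]
      ring
    have h2 : u.norm ≤ (d.ker j).norm * u.norm :=
      le_mul_of_one_le_left (norm_nonneg' u) (d.norm_ker_pos j)
    have h3 : A ^ 2 ≤ (c : ℤ) ^ 2 := sq_le_sq' (abs_le.1 hAc).1 (abs_le.1 hAc).2
    have h4 : B ^ 2 ≤ (c : ℤ) ^ 2 := sq_le_sq' (abs_le.1 hBc).1 (abs_le.1 hBc).2
    have h5 := mul_le_mul_of_nonneg_left h2 (sq_nonneg (F : ℤ))
    linarith
  have h2 : (G : ℤ) ^ 2 ≤ 6 * C * L * c := by
    refine le_of_sq_le_sq (h.trans ?_) (by positivity)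
    have h3 := mul_le_mul_of_nonneg_left h1
      (show (0 : ℤ) ≤ 9 * (C : ℤ) ^ 2 * (L : ℤ) ^ 2 by positivity)
    linarith
  have hG' : (0 : ℤ) < (G : ℤ) ^ 2 := by positivity
  have hc0 : 0 < c := Nat.pos_of_ne_zero fun e => by
    rw [e, Nat.cast_zero, mul_zero] at h2
    linarith
  have h3 := bav_small hL (d.lam j u * a.re + d.lam j (u * Zsqrtd.sqrtd) * a.im) A B m c hc0
    (by
      rw [← Int.natCast_natAbs, ← Int.natCast_natAbs]
      omega)
  refine le_trans (le_of_eq (congrArg _ (funext fun h => ?_))) (h3.trans ?_)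
  · have e : d.lam j (u * (a + (F : O) * emZ h)) =
        d.lam j u * a.re + d.lam j (u * Zsqrtd.sqrtd) * a.im + A * h 0 + B * h 1 := by
      rw [d.lam_mul, hA, hB]
      simp only [emZ, Zsqrtd.re_add, Zsqrtd.im_add, mul_re', mul_im', Zsqrtd.re_natCast,
        Zsqrtd.im_natCast]
      ring
    rw [e]
  · have h4 : (G : ℝ) ^ 2 ≤ 6 * C * L * c := by exact_mod_cast h2
    have h5 : (0 : ℝ) < c := by exact_mod_cast hc0
    have h6 : (0 : ℝ) < L := by exact_mod_cast hL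
    have h7 : (0 : ℝ) < G := by exact_mod_cast hG
    rw [add_div, div_div]
    refine add_le_add ?_ le_rfl
    rw [div_le_div_iff₀ (by positivity) (by positivity)]
    have h8 := mul_le_mul_of_nonneg_left h4 (show (0 : ℝ) ≤ 2 * m by positivity)
    linarith

/-- the majorant of the indicator of degeneracy, the second element being fixed -/
def Ph (S : Sc) (g γ γ' : O) : ℝ :=
  ∑ p ∈ g.norm.natAbs.primeFactors,
      ((if (p : ℤ) ∣ γ.norm then 1 else 0) + if (p : ℤ) ∣ γ'.norm then 1 else 0) +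
    ∑ j : Fin 6 × Fin 6,
      if |S.d.lam j.1 (γ * (star g * S.d.ker j.2) * γ')| < S.bm then 1 else 0

theorem Ph_nonneg (S : Sc) (g γ γ' : O) : 0 ≤ Ph S g γ γ' := by
  unfold Ph
  positivity

theorem one_le_Ph {S : Sc} {g γ γ' : O} (h1 : S.Fr (γ * γ')) (h2 : S.Fr g) (hg : g ≠ 0)
    (hb : ∀ γ, S.Fr γ → (S.bm : ℤ) ≤ γ.norm) (h : ¬S.Gp (γ * γ', g)) : 1 ≤ Ph S g γ γ' := by
  unfold Ph
  by_cases hc : IsCoprime (γ * γ').norm g.norm
  · have h3 := mt (gp_of (θ := (γ * γ', g)) h1 h2 hc hb) h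
    push Not at h3
    obtain ⟨j, j', h3⟩ := h3
    refine le_add_of_nonneg_of_le (by positivity) (le_trans ?_
      (single_le_sum (f := fun j : Fin 6 × Fin 6 =>
        if |S.d.lam j.1 (γ * (star g * S.d.ker j.2) * γ')| < S.bm then (1 : ℝ) else 0)
        (fun _ _ => by positivity) (mem_univ (j, j'))))
    rw [if_pos (by rwa [mul_right_comm])]
  · rw [Int.isCoprime_iff_nat_coprime] at hc
    obtain ⟨p, hp, h3, h4⟩ := Nat.Prime.not_coprime_iff_dvd.1 hc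
    have hm : p ∈ g.norm.natAbs.primeFactors :=
      Nat.mem_primeFactors.2 ⟨hp, h4, Int.natAbs_ne_zero.2 (norm_pos' hg).ne'⟩
    refine le_add_of_le_of_nonneg (le_trans ?_
      (single_le_sum (f := fun p : ℕ =>
        (if (p : ℤ) ∣ γ.norm then (1 : ℝ) else 0) + if (p : ℤ) ∣ γ'.norm then 1 else 0)
        (fun _ _ => by positivity) hm)) (by positivity)
    have h5 : (p : ℤ) ∣ γ.norm * γ'.norm := by
      rw [← Zsqrtd.norm_mul]
      exact Int.natCast_dvd.2 h3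
    rcases (Nat.prime_iff_prime_int.1 hp).dvd_or_dvd h5 with h6 | h6
    · rw [if_pos h6]
      exact le_add_of_nonneg_right (by positivity)
    · rw [if_pos h6]
      exact le_add_of_nonneg_left (by positivity)

theorem bav_Ph {S : Sc} {g γ : O} (a : O) {L : ℕ} (hg : S.Fr g) (hy : 0 < S.y) (hyL : S.y ≤ L)
    (hF : IsCoprime g.norm (S.F : ℤ)) (hp : ∀ p : ℕ, p.Prime → (p : ℤ) ∣ g.norm → S.y < p)
    (hG : 0 < S.G) (hm : (S.bm : ℝ) / (S.G : ℝ) ^ 2 ≤ 1 / S.y)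
    (hL : (S.G : ℤ) ^ 2 ≤ (L : ℤ) ^ 2 * γ.norm * (S.F : ℤ) ^ 2) :
    bav L (fun h => Ph S g γ (a + (S.F : O) * emZ h)) ≤
      (∑ p ∈ g.norm.natAbs.primeFactors, if (p : ℤ) ∣ γ.norm then 1 else 0) +
        (4 * g.norm.natAbs.primeFactors.card + 36 * (12 * S.d.C + 1)) / S.y := by
  have hL0 : 0 < L := hy.trans_le hyL
  have hy' : (0 : ℝ) < S.y := by exact_mod_cast hy
  have h1 : (1 : ℝ) / L ≤ 1 / S.y := one_div_le_one_div_of_le hy' (by exact_mod_cast hyL)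
  unfold Ph
  rw [bav_add, bav_sum, bav_sum, add_div, ← add_assoc]
  refine add_le_add ?_ ?_
  · rw [mul_comm (4 : ℝ), mul_div_assoc, ← nsmul_eq_mul, ← sum_const, ← sum_add_distrib]
    refine sum_le_sum fun p hq => ?_
    obtain ⟨h2, h3, -⟩ := Nat.mem_primeFactors.1 hq
    have h4 : (p : ℤ) ∣ g.norm := Int.natCast_dvd.2 h3
    have h5 : ¬p ∣ S.F := fun h =>
      (Nat.prime_iff_prime_int.1 h2).not_isUnit (hF.isUnit_of_dvd' h4 (Int.natCast_dvd_natCast.2 h))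
    have h6 : (1 : ℝ) / p ≤ 1 / S.y :=
      one_div_le_one_div_of_le hy' (by exact_mod_cast (hp p h2 h4).le)
    rw [bav_add, bav_const hL0]
    refine add_le_add le_rfl ((bav_norm hL0 h2 h5 a).trans ?_)
    simp only [div_eq_mul_inv] at h1 h6 ⊢
    linarith
  · refine (sum_le_card_nsmul _ _ ((12 * S.d.C + 1) / S.y : ℝ) fun j _ => ?_).trans (le_of_eq ?_)
    · refine (cross S.d j.1 _ a (C := S.d.C) S.bm hL0 hG ?_).trans ?_
      · have h2 : g.norm ≤ (star g * S.d.ker j.2).norm := by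
          rw [Zsqrtd.norm_mul, Zsqrtd.norm_conj]
          exact le_mul_of_one_le_right (norm_nonneg' g) (S.d.norm_ker_pos _)
        have h3 := hg.2.2.2.1.trans (mul_le_mul_of_nonneg_left h2 (by positivity))
        rw [Zsqrtd.norm_mul, sq ((S.G : ℤ) ^ 2)]
        refine (mul_le_mul h3 hL (by positivity) (le_trans (by positivity) h3)).trans
          (le_of_eq ?_)
        ring
      · have h2 := mul_le_mul_of_nonneg_left hm (show (0 : ℝ) ≤ 12 * S.d.C by positivity)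
        simp only [div_eq_mul_inv] at h1 h2 ⊢
        linarith
    · simp only [card_univ, Fintype.card_prod, Fintype.card_fin, nsmul_eq_mul]
      push_cast
      ring

theorem pav_le {S : Sc} (hS : S.Ok) (Q : Finset ℕ) (hQ : ∀ p ∈ Q, p.Prime) (B : ℝ) :
    S.pav (fun γ => (∑ p ∈ Q, if (p : ℤ) ∣ γ.norm then 1 else 0) + B) ≤
      Q.card * (|S.d.C0| / S.d.c0 / S.y) + B := by
  have h0 := S.d.h0
  have h1 := hS.po.low
  have h2 := h0.trans_le h1
  have e : ∑ γ ∈ S.P0, ((∑ p ∈ Q, if (p : ℤ) ∣ γ.norm then (1 : ℝ) else 0) + B) / (γ.norm : ℝ) =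
      (∑ p ∈ Q, ∑ γ ∈ S.P0.filter (fun γ => (p : ℤ) ∣ γ.norm), 1 / (γ.norm : ℝ)) +
        B * ∑ γ ∈ S.P0, 1 / (γ.norm : ℝ) := by
    simp only [sum_filter]
    rw [sum_comm, mul_sum, ← sum_add_distrib]
    refine sum_congr rfl fun γ _ => ?_
    rw [add_div, sum_div, mul_one_div]
    congr 1
    refine sum_congr rfl fun p _ => ?_
    split_ifs <;> simp
  rw [Sc.pav, e, add_div, mul_div_assoc, div_self h2.ne', mul_one]
  refine add_le_add ?_ le_rfl
  have h3 : ∑ p ∈ Q, ∑ γ ∈ S.P0.filter (fun γ => (p : ℤ) ∣ γ.norm), 1 / (γ.norm : ℝ) ≤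
      Q.card * (|S.d.C0| / S.y) := by
    rw [← nsmul_eq_mul]
    exact sum_le_card_nsmul _ _ _ fun p hp => (hS.po.spr p (hQ p hp)).trans
      (div_le_div_of_nonneg_right (le_abs_self _) (by positivity))
  refine (div_le_div₀ (by positivity) h3 h0 h1).trans (le_of_eq ?_)
  ring

theorem fin {x y K c₁ c₂ s a : ℝ} {m n : ℕ} (hx : 1 ≤ x) (hy : x ^ (n + 41 + m) ≤ y)
    (hK : K ≤ a * x ^ m) (h1 : 0 ≤ c₁) (h2 : 0 ≤ c₂) (hs : s ≤ x ^ 40) (hK0 : 0 ≤ K)
    (hc : a * (c₁ + 4) + c₂ ≤ x) : s * (K * (c₁ / y) + (4 * K + c₂) / y) ≤ 1 / x ^ n := by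
  have hx0 : 0 < x := by linarith
  have hy0 : 0 < y := lt_of_lt_of_le (by positivity) hy
  have h3 : 1 ≤ x ^ m := one_le_pow₀ hx
  have h4 : K * (c₁ + 4) + c₂ ≤ x * x ^ m := by
    have h5 := mul_le_mul_of_nonneg_right hK (show 0 ≤ c₁ + 4 by linarith)
    have h6 := mul_le_mul_of_nonneg_right hc (show 0 ≤ x ^ m by positivity)
    have h7 := le_mul_of_one_le_right h2 h3
    linarith
  have e : K * (c₁ / y) + (4 * K + c₂) / y = (K * (c₁ + 4) + c₂) / y := by ring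
  rw [e]
  calc s * ((K * (c₁ + 4) + c₂) / y) ≤ x ^ 40 * (x * x ^ m / x ^ (n + 41 + m)) := by gcongr
    _ = 1 / x ^ n := by
      field_simp
      ring

end DegAux

open DegAux in
theorem stDeg (hAvg : StAvg) (hMass : StMass) (hScale : StScale) : StDeg := by
  intro d P hP n
  obtain ⟨CM, -, hM⟩ := hMass d
  obtain ⟨ha, -, -, -⟩ := hP.big
  have hSc : Ev d P _ := ⟨4, fun w hw => hScale.2.2.2 d P hP (n + 41 + 2 * P.a) w hw⟩
  have hE := Ev.of_eventually (d := d) (P := P) 0 fun _ _ =>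
    (ev_const (9 * (d.C : ℝ) ^ 2 + 1)).and ((ev_log 1).and
      (ev_log (34 * P.a * (|d.C0| / d.c0 + 4) + 36 * (12 * d.C + 1))))
  refine (((hAvg d P hP).and (hM P hP)).and (hSc.and hE)).mono ?_
  rintro S rfl rfl hS ⟨⟨hA, -, hm⟩, ⟨s1, -, s3, s4, s5, s6, -, -, s9⟩, -, e1, e2, e3⟩
  have hρ : 9 * S.d.C ^ 2 + 1 ≤ S.ρ := by exact_mod_cast e1
  have hρ0 : 0 < S.ρ := by omega
  have hy : 0 < S.y := by
    have : (0 : ℝ) < S.y := lt_of_lt_of_le (by positivity) s3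
    exact_mod_cast this
  have hk : S.k ≠ 0 := Nat.mul_ne_zero (by omega) (by omega)
  have hyρ : S.y ≤ S.ρ := (Nat.le_self_pow hk _).trans s1
  have hρa : S.ρ ≤ S.ρ ^ S.P.a := Nat.le_self_pow (by omega) _
  have hG : 0 < S.G := pow_pos hρ0 _
  have hGG : S.G ^ 2 = S.bm * S.ρ ^ S.P.a := by
    rw [Sc.G, Sc.bm, ← pow_mul, ← pow_add]
    congr 1
    ring
  have hb : ∀ γ, S.Fr γ → (S.bm : ℤ) ≤ γ.norm := by
    intro γ hγ
    have h1 := hγ.2.2.2.1
    have h2 : ((S.G : ℤ)) ^ 2 = S.bm * (S.ρ ^ S.P.a : ℕ) := by exact_mod_cast hGG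
    have h3 : 9 * (S.d.C : ℤ) ^ 2 + 1 ≤ (S.ρ ^ S.P.a : ℕ) := by exact_mod_cast hρ.trans hρa
    have h4 := mul_le_mul_of_nonneg_left h3 (show (0 : ℤ) ≤ S.bm by positivity)
    have h5 := norm_nonneg' γ
    refine le_of_mul_le_mul_right (a := 9 * (S.d.C : ℤ) ^ 2 + 1) ?_ (by positivity)
    linarith
  have hbm : (S.bm : ℝ) / (S.G : ℝ) ^ 2 ≤ 1 / S.y := by
    have h1 : (0 : ℝ) < S.G := by exact_mod_cast hG
    have h2 : (0 : ℝ) < S.y := by exact_mod_cast hy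
    rw [div_le_div_iff₀ (by positivity) h2, one_mul]
    exact_mod_cast hGG ▸ Nat.mul_le_mul_left _ (hyρ.trans hρa)
  have h0 := S.d.h0
  have hmu : 0 ≤ S.mu := by
    have h1 := h0.trans_le hS.po.low
    have h2 : 0 ≤ SS S.w S.y := by linarith
    unfold Sc.mu
    positivity
  have key : ∀ g, S.Fr g → S.mu * ∑ i ∈ S.Th, Ph S g i.1 i.2 ≤ 1 / Real.log S.ρ ^ n := by
    intro g hg
    obtain ⟨-, g2, g3, g4⟩ := s9 g hg
    have h1 := (hA (Ph S g) (fun γ =>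
      (∑ p ∈ g.norm.natAbs.primeFactors, if (p : ℤ) ∣ γ.norm then 1 else 0) +
        (4 * g.norm.natAbs.primeFactors.card + 36 * (12 * S.d.C + 1)) / S.y) (Ph_nonneg S g)
      fun γ => by positivity).1 fun γ _ a L _ h2 h3 =>
        bav_Ph a hg hy (hyρ.trans ((Nat.le_self_pow (by omega) _).trans h2)) g2 g3 hG hbm h3
    refine h1.trans ((mul_le_mul_of_nonneg_left (pav_le hS _
      (fun p hp => Nat.prime_of_mem_primeFactors hp) _) (by linarith)).trans ?_)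
    refine fin e2 s3 ?_ (by positivity) (by positivity) s5 (by positivity) e3
    have h2 : (g.norm.natAbs.primeFactors.card : ℝ) ≤ 34 * S.P.a * S.k := by exact_mod_cast g4
    have h3 : (S.k : ℝ) ≤ 2 ^ S.k := by exact_mod_cast Nat.lt_two_pow_self.le
    exact h2.trans (mul_le_mul_of_nonneg_left (h3.trans s6) (by positivity))
  have hc : ((((S.Th ×ˢ S.Th) \ S.T2).card : ℕ) : ℝ) ≤
      ∑ i' ∈ S.Th, ∑ i ∈ S.Th, Ph S (i'.1 * i'.2) i.1 i.2 := by
    rw [← sum_product_right', card_eq_sum_ones, Nat.cast_sum]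
    refine (sum_le_sum fun θ hθ => ?_).trans (sum_le_sum_of_subset_of_nonneg sdiff_subset
      fun _ _ _ => Ph_nonneg _ _ _ _)
    obtain ⟨h1, h2⟩ := mem_sdiff.1 hθ
    obtain ⟨h3, h4⟩ := mem_product.1 h1
    have h5 := (mem_filter.1 h4).2
    rw [Nat.cast_one]
    exact one_le_Ph (mem_filter.1 h3).2 h5 (s9 _ h5).1 hb fun h => h2 (mem_filter.2 ⟨h1, h⟩)
  calc S.mu ^ 2 * (((S.Th ×ˢ S.Th) \ S.T2).card : ℕ)
      ≤ S.mu ^ 2 * ∑ i' ∈ S.Th, ∑ i ∈ S.Th, Ph S (i'.1 * i'.2) i.1 i.2 :=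
        mul_le_mul_of_nonneg_left hc (by positivity)
    _ = S.mu * ∑ i' ∈ S.Th, S.mu * ∑ i ∈ S.Th, Ph S (i'.1 * i'.2) i.1 i.2 := by
        rw [← mul_sum]
        ring
    _ ≤ S.mu * (S.Th.card * (1 / Real.log S.ρ ^ n)) := by
        rw [← nsmul_eq_mul]
        exact mul_le_mul_of_nonneg_left
          (sum_le_card_nsmul _ _ _ fun i hi => key _ (mem_filter.1 hi).2) hmu
    _ ≤ 1 / Real.log S.ρ ^ n := by
        rw [← mul_assoc]
        exact mul_le_of_le_one_left (by positivity) hm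

end Pool.Agent.Lib.MP_7d3fda_nt.Q3
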