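import Pool.Agent.Lib.MP_7d3fda_nt.Q3.Basic
import Pool.Agent.Lib.MP_4b8564_nt.GT.Crt
import Pool.Agent.Lib.MP_4b8564_nt.GT.Box

open Finset Filter
open scoped Classical

noncomputable section

namespace Pool.Agent.Lib.MP_7d3fda_nt.Q3

open Pool.Agent.Lib.MP_4b8564_nt Pool.Agent.Lib.MP_4b8564_nt.GT

/-! Densities in boxes. -/

section Bav

variable {V : Type} [Fintype V] [DecidableEq V] {L : ℕ}

theorem bav_mono {F G : (V → ℤ) → ℝ} (h : ∀ x, F x ≤ G x) : bav L F ≤ bav L G :=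
  av_mono fun _ => h _

theorem bav_nonneg {F : (V → ℤ) → ℝ} (h : ∀ x, 0 ≤ F x) : 0 ≤ bav L F := av_nonneg fun _ => h _

theorem bav_add (F G : (V → ℤ) → ℝ) : bav L (fun x => F x + G x) = bav L F + bav L G := av_add _ _

theorem bav_sub (F G : (V → ℤ) → ℝ) : bav L (fun x => F x - G x) = bav L F - bav L G := av_sub _ _

theorem bav_const_mul (c : ℝ) (F : (V → ℤ) → ℝ) : bav L (fun x => c * F x) = c * bav L F :=
  av_const_mul _ _

theorem bav_sum {κ : Type} (s : Finset κ) (F : κ → (V → ℤ) → ℝ) :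
    bav L (fun x => ∑ k ∈ s, F k x) = ∑ k ∈ s, bav L (F k) := av_sum _ _

theorem bav_const (hL : 0 < L) (c : ℝ) : bav L (fun _ : V → ℤ => c) = c := by
  have : Nonempty (Fin L) := ⟨⟨0, hL⟩⟩
  exact av_const c

end Bav

/-- members of one residue class in an initial segment -/
theorem card_class (q L : ℕ) (A : Finset ℕ) (hA : A ⊆ range L)
    (h : ∀ x ∈ A, ∀ y ∈ A, (q : ℤ) ∣ (x : ℤ) - y) : (A.card : ℝ) ≤ (L : ℝ) / q + 1 := by
  have h1 : A.card ≤ (range (L / q + 1)).card := by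
    refine card_le_card_of_injOn (fun x => x / q) (fun x hx => ?_) fun x hx y hy e => ?_
    · have := mem_range.1 (hA hx)
      exact mem_coe.2 (mem_range.2 (Nat.lt_succ_of_le (Nat.div_le_div_right this.le)))
    · have h2 : x ≡ y [MOD q] := (Nat.modEq_iff_dvd.2 (h y hy x hx))
      have e' : x / q = y / q := e
      rw [← Nat.div_add_mod x q, ← Nat.div_add_mod y q, e', show x % q = y % q from h2]
  rw [card_range] at h1
  have h3 : ((L / q : ℕ) : ℝ) ≤ (L : ℝ) / q := Nat.cast_div_le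
  have h4 : (A.card : ℝ) ≤ ((L / q + 1 : ℕ) : ℝ) := by exact_mod_cast h1
  push_cast at h4
  linarith

/-- a bound for the rows of a box gives a bound for the density -/
theorem bav_rows {L : ℕ} (hL : 0 < L) (E : ℤ → ℤ → Prop) [∀ x y, Decidable (E x y)] (c : ℝ)
    (h : (∀ y : ℕ, (((range L).filter fun x : ℕ => E x y).card : ℝ) ≤ c) ∨
      ∀ x : ℕ, (((range L).filter fun y : ℕ => E x y).card : ℝ) ≤ c) :
    bav L (fun h : Fin 2 → ℤ => if E (h 0) (h 1) then 1 else 0) ≤ c / L := by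
  have hL' : (0 : ℝ) < L := by exact_mod_cast hL
  rw [bav_two, div_le_div_iff₀ (by positivity) hL']
  have key : ∑ h ∈ range L ×ˢ range L, (if E (h.1 : ℤ) (h.2 : ℤ) then (1 : ℝ) else 0) ≤ L * c := by
    rcases h with h | h
    · rw [sum_product_right]
      refine (sum_le_card_nsmul _ _ c fun y _ => ?_).trans (by simp)
      simpa [sum_boole] using h y
    · rw [sum_product]
      refine (sum_le_card_nsmul _ _ c fun x _ => ?_).trans (by simp)
      simpa [sum_boole] using h x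
  calc _ ≤ L * c * L := mul_le_mul_of_nonneg_right key hL'.le
    _ = _ := by ring

/-- zeros of an affine form modulo `q`, one coefficient having gcd at most `g` with `q` -/
theorem bav_lin_gcd {L q : ℕ} (hL : 0 < L) (hq : 0 < q) (k a₀ a₁ : ℤ) (g : ℕ)
    (h : Int.gcd a₀ q ≤ g ∨ Int.gcd a₁ q ≤ g) :
    bav L (fun h : Fin 2 → ℤ => if (q : ℤ) ∣ k + a₀ * h 0 + a₁ * h 1 then 1 else 0) ≤
      (g : ℝ) / q + 1 / L := by
  have hL' : (0 : ℝ) < L := by exact_mod_cast hL
  have hq' : (0 : ℝ) < q := by exact_mod_cast hq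
  have row : ∀ a r : ℤ, Int.gcd a q ≤ g →
      (((range L).filter fun x : ℕ => (q : ℤ) ∣ r + a * x).card : ℝ) ≤ L * g / q + 1 := by
    intro a r ha
    have hg : 0 < Int.gcd a q := Int.gcd_pos_of_ne_zero_right _ (by exact_mod_cast hq.ne')
    obtain ⟨q', hq1⟩ : Int.gcd a q ∣ q := Int.natCast_dvd_natCast.1 (Int.gcd_dvd_right a q)
    have hq2 : 0 < q' := Nat.pos_of_ne_zero fun h0 => by rw [h0, mul_zero] at hq1; omega
    refine (card_class q' L _ (filter_subset _ _) fun x hx y hy => ?_).trans ?_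
    · have h1 := dvd_sub (mem_filter.1 hx).2 (mem_filter.1 hy).2
      have h2 : r + a * x - (r + a * y) = a * ((x : ℤ) - y) := by ring
      rw [h2] at h1
      have h3 : (q : ℤ) ∣ (Int.gcd a q : ℤ) * ((x : ℤ) - y) := by
        rw [Int.gcd_eq_gcd_ab, add_mul]
        exact dvd_add (by rw [mul_right_comm]; exact h1.mul_right _)
          ((dvd_mul_right _ _).mul_right _)
      have h4 : (q : ℤ) = (Int.gcd a q : ℤ) * q' := by exact_mod_cast hq1
      have h5 : (Int.gcd a q : ℤ) * q' ∣ (Int.gcd a q : ℤ) * ((x : ℤ) - y) := h4 ▸ h3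
      exact (mul_dvd_mul_iff_left (by exact_mod_cast hg.ne')).1 h5
    · have h6 : (q : ℝ) ≤ g * q' := by
        have : q ≤ g * q' := hq1.le.trans (Nat.mul_le_mul_right _ ha)
        exact_mod_cast this
      have h7 : (0 : ℝ) < q' := by exact_mod_cast hq2
      have : (L : ℝ) / q' ≤ L * g / q := by
        rw [div_le_div_iff₀ h7 hq']; nlinarith
      linarith
  refine (bav_rows hL (fun x y => (q : ℤ) ∣ k + a₀ * x + a₁ * y) (L * g / q + 1) ?_).trans
    (le_of_eq (by field_simp))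
  rcases h with h | h
  · refine Or.inl fun y => le_of_eq_of_le ?_ (row a₀ (k + a₁ * y) h)
    congr 2; ext x; rw [mem_filter, mem_filter, add_right_comm]
  · exact Or.inr fun x => row a₁ (k + a₀ * x) h

/-- zeros of a nonconstant affine form modulo a prime -/
theorem bav_lin {L p : ℕ} (hL : 0 < L) (hp : p.Prime) (k a₀ a₁ : ℤ)
    (h : ¬((p : ℤ) ∣ a₀ ∧ (p : ℤ) ∣ a₁)) :
    bav L (fun h : Fin 2 → ℤ => if (p : ℤ) ∣ k + a₀ * h 0 + a₁ * h 1 then 1 else 0) ≤
      1 / p + 1 / L := by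
  have key : ∀ a : ℤ, ¬(p : ℤ) ∣ a → Int.gcd a p ≤ 1 := fun a ha =>
    le_of_eq (Int.isCoprime_iff_gcd_eq_one.1
      ((Nat.prime_iff_prime_int.1 hp).irreducible.coprime_iff_not_dvd.2 ha).symm)
  simpa using bav_lin_gcd hL hp.pos k a₀ a₁ 1 ((not_and_or.1 h).imp (key _) (key _))

/-- small values of an affine form -/
theorem bav_small {L : ℕ} (hL : 0 < L) (k a₀ a₁ : ℤ) (m c : ℕ) (hc : 0 < c)
    (h : (c : ℤ) ≤ |a₀| ∨ (c : ℤ) ≤ |a₁|) :
    bav L (fun h : Fin 2 → ℤ => if |k + a₀ * h 0 + a₁ * h 1| < m then 1 else 0) ≤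
      (2 * m / c + 1) / L := by
  have hc' : (0 : ℝ) < c := by exact_mod_cast hc
  have row : ∀ a r : ℤ, (c : ℤ) ≤ |a| →
      (((range L).filter fun x : ℕ => |r + a * x| < m).card : ℝ) ≤ 2 * m / c + 1 := by
    intro a r ha
    set A := (range L).filter fun x : ℕ => |r + a * x| < m with hA
    rcases A.eq_empty_or_nonempty with h0 | h0
    · rw [h0]; simp only [card_empty, Nat.cast_zero]; positivity
    have h1 : A ⊆ Icc (A.min' h0) (A.max' h0) := fun x hx =>
      mem_Icc.2 ⟨A.min'_le x hx, A.le_max' x hx⟩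
    have h2 := card_le_card h1
    rw [Nat.card_Icc] at h2
    have h3 := abs_lt.1 (mem_filter.1 (A.min'_mem h0)).2
    have h4 := abs_lt.1 (mem_filter.1 (A.max'_mem h0)).2
    have h5 : A.min' h0 ≤ A.max' h0 := A.min'_le_max' h0
    obtain ⟨t, ht⟩ := Nat.exists_eq_add_of_le h5
    rw [ht] at h2 h4
    push_cast at h4
    have h6 : (c : ℤ) * t ≤ 2 * m := by
      have h7 : |a * t| ≤ 2 * m := abs_le.2 ⟨by nlinarith, by nlinarith⟩
      rw [abs_mul, Nat.abs_cast] at h7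
      nlinarith [Int.natCast_nonneg t]
    have h8 : (t : ℝ) ≤ 2 * m / c := by
      rw [le_div_iff₀ hc']
      have : (c : ℝ) * t ≤ 2 * m := by exact_mod_cast h6
      linarith
    have h9 : (A.card : ℝ) ≤ ((t + 1 : ℕ) : ℝ) := by exact_mod_cast (by omega : A.card ≤ t + 1)
    push_cast at h9
    linarith
  refine bav_rows hL (fun x y => |k + a₀ * x + a₁ * y| < m) _ ?_
  rcases h with h | h
  · refine Or.inl fun y => le_of_eq_of_le ?_ (row a₀ (k + a₁ * y) h)
    congr 2; ext x; rw [mem_filter, mem_filter, add_right_comm]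
  · exact Or.inr fun x => row a₁ (k + a₀ * x) h

theorem norm_box (a : O) (F : ℕ) (h : Fin 2 → ℤ) :
    (a + (F : O) * emZ h).norm = (a.re + F * h 0) ^ 2 + 3 * (a.im + F * h 1) ^ 2 := by
  rw [norm_eq]; simp [emZ]

/-- zeros of the norm modulo a prime -/
theorem bav_norm {L p F : ℕ} (hL : 0 < L) (hp : p.Prime) (hF : ¬p ∣ F) (a : O) :
    bav L (fun h : Fin 2 → ℤ => if (p : ℤ) ∣ (a + (F : O) * emZ h).norm then 1 else 0) ≤
      2 / p + 2 / L := by
  have hL' : (0 : ℝ) < L := by exact_mod_cast hL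
  have hp' := Nat.prime_iff_prime_int.1 hp
  have hF' : ¬(p : ℤ) ∣ F := fun h => hF (Int.natCast_dvd_natCast.1 h)
  simp only [norm_box]
  refine (bav_rows hL (fun x y => (p : ℤ) ∣ (a.re + F * x) ^ 2 + 3 * (a.im + F * y) ^ 2)
    (2 * (L / p + 1)) (Or.inl fun y => ?_)).trans (le_of_eq (by field_simp))
  set A := (range L).filter fun x : ℕ =>
    (p : ℤ) ∣ (a.re + F * x) ^ 2 + 3 * (a.im + F * (y : ℕ)) ^ 2 with hA
  rcases A.eq_empty_or_nonempty with h0 | ⟨x₀, h0⟩
  · rw [h0]; simp only [card_empty, Nat.cast_zero]; positivity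
  have h1 := card_class p L (A.filter fun x : ℕ => (p : ℤ) ∣ (x : ℤ) - x₀)
    ((filter_subset _ _).trans (filter_subset _ _)) fun x hx z hz => by
      have := dvd_sub (mem_filter.1 hx).2 (mem_filter.1 hz).2
      simpa using this
  have h2 := card_class p L (A.filter fun x : ℕ => ¬(p : ℤ) ∣ (x : ℤ) - x₀)
    ((filter_subset _ _).trans (filter_subset _ _)) fun x hx z hz => by
      have key : ∀ u ∈ A.filter fun x : ℕ => ¬(p : ℤ) ∣ (x : ℤ) - x₀,
          (p : ℤ) ∣ 2 * a.re + F * (u + x₀) := fun u hu => by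
        have h3 := dvd_sub (mem_filter.1 (mem_filter.1 hu).1).2 (mem_filter.1 h0).2
        have h4 : (a.re + F * u) ^ 2 + 3 * (a.im + F * (y : ℕ)) ^ 2 -
            ((a.re + F * x₀) ^ 2 + 3 * (a.im + F * (y : ℕ)) ^ 2) =
            F * (((u : ℤ) - x₀) * (2 * a.re + F * (u + x₀))) := by ring
        rw [h4] at h3
        exact (hp'.dvd_or_dvd ((hp'.dvd_or_dvd h3).resolve_left hF')).resolve_left
          (mem_filter.1 hu).2
      have h5 := dvd_sub (key x hx) (key z hz)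
      have h6 : 2 * a.re + F * (x + x₀) - (2 * a.re + F * (z + x₀)) = F * ((x : ℤ) - z) := by ring
      rw [h6] at h5
      exact (hp'.dvd_or_dvd h5).resolve_left hF'
  have h7 := card_filter_add_card_filter_not (s := A) fun x : ℕ => (p : ℤ) ∣ (x : ℤ) - x₀
  have h8 : (A.card : ℝ) = ((A.filter fun x : ℕ => (p : ℤ) ∣ (x : ℤ) - x₀).card : ℝ) +
      (A.filter fun x : ℕ => ¬(p : ℤ) ∣ (x : ℤ) - x₀).card := by exact_mod_cast h7.symm
  linarith

/-- an affine change of variables with a unit multiplier preserves the mean over a period -/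
theorem bav_affine {V : Type} [Fintype V] [DecidableEq V] {q : ℕ} (hq : 0 < q) (F : ℤ)
    (hF : IsCoprime F (q : ℤ)) (a : V → ℤ) (Φ : (V → ℤ) → ℝ) (hΦ : Per q Φ) :
    bav q (fun h => Φ fun v => a v + F * h v) = bav q Φ := by
  have hq' : (q : ℤ) ≠ 0 := by exact_mod_cast hq.ne'
  let f : V → Fin q → Fin q := fun v x => ⟨((a v + F * (x : ℕ)) % q).toNat, by
    have h1 := Int.emod_nonneg (a v + F * (x : ℕ)) hq'
    have h2 := Int.emod_lt_of_pos (a v + F * (x : ℕ)) (by exact_mod_cast hq : (0 : ℤ) < q)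
    omega⟩
  have hf : ∀ v x, ((f v x : ℕ) : ℤ) = (a v + F * (x : ℕ)) % q := fun v x =>
    Int.toNat_of_nonneg (Int.emod_nonneg _ hq')
  have hinj : ∀ v, Function.Bijective (f v) := fun v =>
    Finite.injective_iff_bijective.1 fun x y e => by
      have h1 : (a v + F * (x : ℕ)) % q = (a v + F * (y : ℕ)) % q := by rw [← hf, ← hf, e]
      have h3 : (q : ℤ) ∣ F * ((y : ℕ) - (x : ℕ) : ℤ) := by
        have := Int.ModEq.dvd h1
        convert this using 1; ring
      have h4 : (x : ℕ) ≡ (y : ℕ) [MOD q] := Nat.modEq_iff_dvd.2 (hF.symm.dvd_of_dvd_mul_left h3)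
      exact Fin.ext (Nat.ModEq.eq_of_lt_of_lt h4 x.2 y.2)
  rw [bav, bav, ← av_equiv (Equiv.piCongrRight fun v => Equiv.ofBijective (f v) (hinj v))
    fun h : V → Fin q => Φ fun v => ((h v : ℕ) : ℤ)]
  refine av_congr fun h => hΦ _ _ fun v => ?_
  show (q : ℤ) ∣ a v + F * (h v : ℕ) - ((f v (h v) : ℕ) : ℤ)
  rw [hf]
  exact Int.dvd_self_sub_emod

/-- the local density of the zeros of the norm on a class -/
theorem bav_norm_eq {p F : ℕ} (hp : p.Prime) (hF : ¬p ∣ F) (a : O) :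
    bav p (fun h : Fin 2 → ℤ => if (p : ℤ) ∣ (a + (F : O) * emZ h).norm then 1 else 0) = rN p := by
  have hc : IsCoprime (F : ℤ) (p : ℤ) :=
    Nat.isCoprime_iff_coprime.2 ((Nat.Prime.coprime_iff_not_dvd hp).2 hF).symm
  rw [rN, ← bav_affine hp.pos F hc ![a.re, a.im]
    (fun h : Fin 2 → ℤ => if (p : ℤ) ∣ h 0 ^ 2 + 3 * h 1 ^ 2 then 1 else 0) fun x y h => ?_]
  · simp only [norm_box]; rfl
  · have h1 : (p : ℤ) ∣ x 0 ^ 2 + 3 * x 1 ^ 2 - (y 0 ^ 2 + 3 * y 1 ^ 2) := by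
      have : x 0 ^ 2 + 3 * x 1 ^ 2 - (y 0 ^ 2 + 3 * y 1 ^ 2) =
          (x 0 - y 0) * (x 0 + y 0) + (x 1 - y 1) * (3 * (x 1 + y 1)) := by ring
      rw [this]
      exact dvd_add ((h 0).mul_right _) ((h 1).mul_right _)
    exact if_congr (dvd_iff_dvd_of_dvd_sub h1) rfl rfl

end Pool.Agent.Lib.MP_7d3fda_nt.Q3
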