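import Pool.Agent.Lib.MP_7d3fda_nt.Q3.Basic

open Finset Filter
open scoped Classical NumberTheorySymbols

noncomputable section

namespace Pool.Agent.Lib.MP_7d3fda_nt.Q3

open Pool.Agent.Lib.MP_4b8564_nt Pool.Agent.Lib.MP_4b8564_nt.GT
open Pool.Agent.Lib.MP_0a3467_an.Cv (Low)
open Pool.Agent.Lib.MP_0a3467_an

/-! Structured sums against a uniform weight. -/

namespace LowSumAux

theorem lam_em_le (d : Dat) (j : Fin 6) (x : O) {H : ℕ} {h : ℕ × ℕ} (hh : h ∈ Cv.box H) :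
    |d.lam j (em h * x)| ≤ ((3 * d.C * sz x * H : ℕ) : ℤ) := by
  simp only [Cv.box, mem_product, mem_Ioc] at hh
  have h1 : (h.1 : ℤ) ≤ H := by exact_mod_cast hh.1.2
  have h2 : (h.2 : ℤ) ≤ H := by exact_mod_cast hh.2.2
  have h3 : (0 : ℤ) ≤ h.1 := Int.natCast_nonneg _
  have h4 : (0 : ℤ) ≤ h.2 := Int.natCast_nonneg _
  have he : (0 : ℤ) ≤ d.e := Int.natCast_nonneg _
  have hc := d.c_le j
  have e1 : d.lam j (em h * x) = h.1 * (d.e * x.re + d.c j * x.im) +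
      h.2 * (d.c j * x.re - 3 * (d.e * x.im)) := by
    simp only [Dat.lam, em, mul_re', mul_im']; ring
  have a1 : |d.e * x.re + d.c j * x.im| ≤ d.e * |x.re| + |d.c j| * |x.im| := by
    refine (abs_add_le _ _).trans ?_
    simp [abs_mul]
  have a2 : |d.c j * x.re - 3 * (d.e * x.im)| ≤ |d.c j| * |x.re| + 3 * (d.e * |x.im|) := by
    refine (abs_sub _ _).trans ?_
    simp [abs_mul]
  have a3 : |d.lam j (em h * x)| ≤ H * (d.e * |x.re| + |d.c j| * |x.im|) +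
      H * (|d.c j| * |x.re| + 3 * (d.e * |x.im|)) := by
    rw [e1]
    refine (abs_add_le _ _).trans ?_
    rw [abs_mul, abs_mul, abs_of_nonneg h3, abs_of_nonneg h4]
    gcongr
  have hr := abs_nonneg x.re
  have hi := abs_nonneg x.im
  have hcj := abs_nonneg (d.c j)
  have a4 : d.e * |x.re| + |d.c j| * |x.im| + (|d.c j| * |x.re| + 3 * (d.e * |x.im|)) ≤
      3 * d.C * (|x.re| + |x.im|) := by
    nlinarith [mul_nonneg he hr, mul_nonneg he hi, mul_nonneg hcj hr, mul_nonneg hcj hi]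
  push_cast
  rw [sz_cast]
  have hH : (0 : ℤ) ≤ H := Int.natCast_nonneg _
  nlinarith [mul_le_mul_of_nonneg_left a4 hH]

theorem shift_eq {s : ℕ} (F Q : ℕ) (γ x : O) (h : Fin s → ℕ × ℕ) :
    (γ + ((F * Q : ℕ) : O) * ∑ r, em (h r)) * x =
      γ * x + (F : O) * ∑ r, (Q : O) * (em (h r) * x) := by
  rw [← mul_sum, ← sum_mul]
  push_cast
  ring

theorem nn_shift (d : Dat) {s F : ℕ} (hF : 0 < F) (b Q : ℕ) (j : Fin 6) (γ x : O)
    (h : Fin s → ℕ × ℕ) :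
    d.nn b F j ((γ + ((F * Q : ℕ) : O) * ∑ r, em (h r)) * x) =
      d.nn b F j (γ * x) + ∑ r, (Q : ℤ) * d.lam j (em (h r) * x) := by
  rw [shift_eq, d.nn_add hF, d.lam_sum]
  simp only [d.lam_natCast_mul]

theorem dvd_shift {s : ℕ} (b F Q : ℕ) (γ x : O) (h : Fin s → ℕ × ℕ) :
    (F : O) ∣ (γ + ((F * Q : ℕ) : O) * ∑ r, em (h r)) * x - b ↔ (F : O) ∣ γ * x - b := by
  rw [shift_eq, add_sub_right_comm]
  exact dvd_add_left (dvd_mul_right _ _)

theorem shift_le (d : Dat) {s H : ℕ} (Q : ℕ) (j : Fin 6) (x : O) {h : Fin s → ℕ × ℕ}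
    (hh : ∀ r, h r ∈ Cv.box H) :
    |∑ r, (Q : ℤ) * d.lam j (em (h r) * x)| ≤ ((s * Q * (3 * d.C * sz x * H) : ℕ) : ℤ) := by
  refine (abs_sum_le_sum_abs _ _).trans ?_
  calc ∑ r, |(Q : ℤ) * d.lam j (em (h r) * x)|
      ≤ ∑ _r : Fin s, (Q : ℤ) * ((3 * d.C * sz x * H : ℕ) : ℤ) := by
        refine sum_le_sum fun r _ => ?_
        rw [abs_mul, Nat.abs_cast]
        exact mul_le_mul_of_nonneg_left (lam_em_le d j x (hh r)) (Int.natCast_nonneg _)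
    _ = _ := by
        rw [sum_const, card_univ, Fintype.card_fin, nsmul_eq_mul]
        push_cast
        ring

/-- the set of the packing statement -/
def Pk (d : Dat) (b F : ℕ) (x : O) (i j : Fin 6) (a₁ a₂ : ℤ) (l₁ l₂ : ℕ) : Set O :=
  {γ : O | (F : O) ∣ γ * x - b ∧ a₁ ≤ d.nn b F i (γ * x) ∧
    d.nn b F i (γ * x) < a₁ + l₁ ∧ a₂ ≤ d.nn b F j (γ * x) ∧ d.nn b F j (γ * x) < a₂ + l₂}

/-- the summand -/
def fn (d : Dat) (b F N : ℕ) (V : O → ℝ) (φ : ℤ → ℝ) (x γ : O) : ℝ :=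
  if (F : O) ∣ γ * x - b then V γ * d.Fz b F (cutI N φ) (γ * x) else 0

theorem fn_supp {d : Dat} {b F N : ℕ} {V : O → ℝ} {φ : ℤ → ℝ} {x γ : O}
    (h : fn d b F N V φ x γ ≠ 0) :
    (F : O) ∣ γ * x - b ∧ ∀ j, (N : ℤ) ≤ d.nn b F j (γ * x) ∧ d.nn b F j (γ * x) < 2 * N := by
  unfold fn at h
  split_ifs at h with h1
  · refine ⟨h1, fun j => ?_⟩
    have h2 := prod_ne_zero_iff.1 (right_ne_zero_of_mul h) j (mem_univ j)
    by_contra h3
    exact h2 (if_neg h3)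
  · exact (h rfl).elim

theorem fn_le {d : Dat} {b F N : ℕ} {V : O → ℝ} {φ : ℤ → ℝ} {Vm : ℝ} (hφ : ∀ n, |φ n| ≤ 1)
    (hV : ∀ γ, |V γ| ≤ Vm) (x γ : O) : |fn d b F N V φ x γ| ≤ Vm := by
  have h0 : 0 ≤ Vm := (abs_nonneg _).trans (hV 0)
  unfold fn
  split_ifs
  · rw [abs_mul, Dat.Fz, abs_prod]
    refine (mul_le_of_le_one_right (abs_nonneg _) ?_).trans (hV γ)
    refine prod_le_one (fun _ _ => abs_nonneg _) fun j _ => ?_
    unfold cutI
    split_ifs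
    · exact hφ _
    · simp
  · simpa using h0

/-- the interior points -/
theorem inner {d : Dat} {s b F N Q D H : ℕ} {M β : ℝ} {φ : ℤ → ℝ} {x : O} {V : O → ℝ}
    (hF : 0 < F) (hL : LowDir (fun _ : Fin (s + 1) => (Q : ℤ)) D M φ)
    (hD : 3 * d.C * sz x * H ≤ D) {γ : O}
    (hV : Cv.Cut (s := s + 1) (Cv.box H)
      (fun h => V (γ + ((F * Q : ℕ) : O) * ∑ r, em (h r))) β)
    (h1 : (F : O) ∣ γ * x - b)
    (h2 : ∀ j, (N : ℤ) + (((s + 1) * Q * (3 * d.C * sz x * H) : ℕ) : ℤ) ≤ d.nn b F j (γ * x) ∧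
      d.nn b F j (γ * x) < 2 * N - (((s + 1) * Q * (3 * d.C * sz x * H) : ℕ) : ℤ)) :
    |∑ h ∈ Fintype.piFinset fun _ : Fin (s + 1) => Cv.box H,
      fn d b F N V φ x (γ + ((F * Q : ℕ) : O) * ∑ r, em (h r))| ≤
      M ^ 6 * (β * ((Cv.box H).card : ℝ) ^ (s + 1)) := by
  have hj : ∀ j : Fin 6, Low (Cv.box H : Set (ℕ × ℕ)) M fun h : Fin (s + 1) → ℕ × ℕ =>
      φ (d.nn b F j (γ * x) + ∑ r, (Q : ℤ) * d.lam j (em (h r) * x)) := by
    intro j
    refine (hL (d.nn b F j (γ * x))).comp (fun a => d.lam j (em a * x)) fun a ha => ?_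
    have h3 := lam_em_le d j x (mem_coe.1 ha)
    have h4 : ((3 * d.C * sz x * H : ℕ) : ℤ) ≤ D := by exact_mod_cast hD
    exact abs_le.1 (h3.trans h4)
  have hp := (Cv.Low.prod univ fun j _ => hj j).cut hV subset_rfl
  rw [prod_const, card_univ, Fintype.card_fin] at hp
  refine le_of_eq_of_le (congrArg _ (sum_congr rfl fun h hh => ?_)) hp
  have hh' : ∀ r, h r ∈ Cv.box H := Fintype.mem_piFinset.1 hh
  rw [fn, if_pos ((dvd_shift b F Q γ x h).2 h1), Dat.Fz]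
  refine congrArg _ (prod_congr rfl fun j _ => ?_)
  rw [nn_shift d hF]
  have h5 := abs_le.1 (shift_le d Q j x hh')
  have h6 := h2 j
  exact if_pos ⟨by omega, by omega⟩

theorem succ_ne (j : Fin 6) : j ≠ j + 1 := by
  revert j
  decide

/-- the bound at one point -/
theorem point {d : Dat} {s b F N Q D H : ℕ} {M β Vm : ℝ} {φ : ℤ → ℝ} {x : O} {V : O → ℝ}
    (hF : 0 < F) (hM : 1 ≤ M) (hβ : 0 ≤ β) (hφ : ∀ n, |φ n| ≤ 1)
    (hL : LowDir (fun _ : Fin (s + 1) => (Q : ℤ)) D M φ)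
    (hD : 3 * d.C * sz x * H ≤ D) (hVm : ∀ γ, |V γ| ≤ Vm) {γ : O}
    (hV : Cv.Cut (s := s + 1) (Cv.box H)
      (fun h => V (γ + ((F * Q : ℕ) : O) * ∑ r, em (h r))) β)
    {Δ : ℕ} (hΔ : Δ = (s + 1) * Q * (3 * d.C * sz x * H)) :
    |∑ h ∈ Fintype.piFinset fun _ : Fin (s + 1) => Cv.box H,
      fn d b F N V φ x (γ + ((F * Q : ℕ) : O) * ∑ r, em (h r))| ≤
      ((Cv.box H).card : ℝ) ^ (s + 1) * (M ^ 6 * β + Vm * ∑ j : Fin 6,
        ((if γ ∈ Pk d b F x j (j + 1) (N - Δ) (N - Δ) (2 * Δ) (N + 2 * Δ) then 1 else 0) +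
          if γ ∈ Pk d b F x j (j + 1) (2 * N - Δ) (N - Δ) (2 * Δ) (N + 2 * Δ) then 1 else 0)) := by
  have h0 : 0 ≤ Vm := (abs_nonneg _).trans (hVm 0)
  have hK : (0 : ℝ) ≤ ((Cv.box H).card : ℝ) ^ (s + 1) := by positivity
  have hMb : 0 ≤ M ^ 6 * β := mul_nonneg (pow_nonneg (by linarith) _) hβ
  have hnn : ∀ j : Fin 6, (0 : ℝ) ≤
      (if γ ∈ Pk d b F x j (j + 1) (N - Δ) (N - Δ) (2 * Δ) (N + 2 * Δ) then 1 else 0) +
        if γ ∈ Pk d b F x j (j + 1) (2 * N - Δ) (N - Δ) (2 * Δ) (N + 2 * Δ) then 1 else 0 := by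
    intro j
    split_ifs <;> norm_num
  have hS := sum_nonneg fun j (_ : j ∈ (univ : Finset (Fin 6))) => hnn j
  by_cases hz : ∀ h ∈ Fintype.piFinset fun _ : Fin (s + 1) => Cv.box H,
      fn d b F N V φ x (γ + ((F * Q : ℕ) : O) * ∑ r, em (h r)) = 0
  · rw [sum_eq_zero hz, abs_zero]
    exact mul_nonneg hK (add_nonneg hMb (mul_nonneg h0 hS))
  push Not at hz
  obtain ⟨h₀, hh₀, hz⟩ := hz
  obtain ⟨h1, h2⟩ := fn_supp hz
  rw [dvd_shift] at h1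
  have h3 : ∀ j, (N : ℤ) - Δ ≤ d.nn b F j (γ * x) ∧ d.nn b F j (γ * x) < 2 * N + Δ := by
    intro j
    have h4 := h2 j
    rw [nn_shift d hF] at h4
    have h5 := abs_le.1 (shift_le d Q j x (Fintype.mem_piFinset.1 hh₀))
    rw [← hΔ] at h5
    omega
  by_cases hin : ∀ j, (N : ℤ) + Δ ≤ d.nn b F j (γ * x) ∧ d.nn b F j (γ * x) < 2 * N - Δ
  · refine (inner hF hL hD hV h1 (hΔ ▸ hin)).trans ?_
    have := mul_nonneg hK (mul_nonneg h0 hS)
    nlinarith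
  · obtain ⟨j, hj⟩ := not_forall.1 hin
    have h4 := h3 j
    have h5 := h3 (j + 1)
    have h6 : (1 : ℝ) ≤
        (if γ ∈ Pk d b F x j (j + 1) (N - Δ) (N - Δ) (2 * Δ) (N + 2 * Δ) then 1 else 0) +
          if γ ∈ Pk d b F x j (j + 1) (2 * N - Δ) (N - Δ) (2 * Δ) (N + 2 * Δ) then 1 else 0 := by
      by_cases hlt : d.nn b F j (γ * x) < N + Δ
      · rw [if_pos (show γ ∈ Pk d b F x j (j + 1) (N - Δ) (N - Δ) (2 * Δ) (N + 2 * Δ) from
          ⟨h1, h4.1, by push_cast; omega, h5.1, by push_cast; omega⟩)]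
        split_ifs <;> norm_num
      · rw [if_pos (show γ ∈ Pk d b F x j (j + 1) (2 * N - Δ) (N - Δ) (2 * Δ) (N + 2 * Δ) from
          ⟨h1, by omega, by push_cast; omega, h5.1, by push_cast; omega⟩)]
        split_ifs <;> norm_num
    have h7 := h6.trans (single_le_sum (fun j _ => hnn j) (mem_univ j))
    refine (abs_sum_le_sum_abs _ _).trans ?_
    refine (sum_le_sum fun h _ => fn_le hφ hVm x _).trans ?_
    rw [sum_const, Fintype.card_piFinset_const, nsmul_eq_mul, Nat.cast_pow]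
    refine mul_le_mul_of_nonneg_left ?_ hK
    nlinarith

theorem sum_ind_le {S : Finset O} {B : Set O} (hB : B.Finite) :
    ∑ γ ∈ S, (if γ ∈ B then (1 : ℝ) else 0) ≤ B.ncard := by
  rw [sum_boole, Set.ncard_eq_toFinset_card B hB]
  exact_mod_cast card_le_card fun γ hγ => hB.mem_toFinset.2 (mem_filter.1 hγ).2

end LowSumAux

open LowSumAux in
theorem stLowSum (hPack : StPack) : StLowSum := by
  intro d
  obtain ⟨C, hC, hP⟩ := hPack d
  refine ⟨96 * C, by positivity, ?_⟩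
  intro s b F N Q D H M β Vm φ x V hb hN hH hM hβ hφ hL hx hco hD hΔN hxN hVm hV
  obtain ⟨Δ, hΔ⟩ : ∃ Δ, Δ = (s + 1) * Q * (3 * d.C * sz x * H) := ⟨_, rfl⟩
  rw [← hΔ] at hΔN ⊢
  have hF : 0 < F := by omega
  have h0 : 0 ≤ Vm := (abs_nonneg _).trans (hVm 0)
  have hMb : 0 ≤ M ^ 6 * β := mul_nonneg (pow_nonneg (by linarith) _) hβ
  have hP' : ∀ (j : Fin 6) (a₁ a₂ : ℤ) (l₁ l₂ : ℕ), (Pk d b F x j (j + 1) a₁ a₂ l₁ l₂).Finite ∧
      ((Pk d b F x j (j + 1) a₁ a₂ l₁ l₂).ncard : ℝ) * (x.norm : ℝ) ≤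
        C * ((l₁ : ℝ) + sz x) * ((l₂ : ℝ) + sz x) :=
    fun j a₁ a₂ l₁ l₂ => hP b F x j (j + 1) a₁ a₂ l₁ l₂ hF hx hco (succ_ne j)
  obtain ⟨hfin, hcard⟩ := hP' 0 (N - Δ) (N - Δ) (N + 2 * Δ) (N + 2 * Δ)
  rw [Set.ncard_eq_toFinset_card _ hfin] at hcard
  set S₀ := hfin.toFinset with hS₀
  have hshift : ∀ h ∈ Fintype.piFinset fun _ : Fin (s + 1) => Cv.box H,
      ∑ᶠ γ, fn d b F N V φ x γ =
        ∑ γ ∈ S₀, fn d b F N V φ x (γ + ((F * Q : ℕ) : O) * ∑ r, em (h r)) := by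
    intro h hh
    rw [← finsum_comp_equiv (Equiv.addRight (((F * Q : ℕ) : O) * ∑ r, em (h r)))]
    refine finsum_eq_sum_of_support_subset _ fun γ hγ => ?_
    obtain ⟨h1, h2⟩ := fn_supp (Function.mem_support.1 hγ)
    simp only [Equiv.coe_addRight] at h1 h2
    rw [dvd_shift] at h1
    have h3 : ∀ j, (N : ℤ) - Δ ≤ d.nn b F j (γ * x) ∧ d.nn b F j (γ * x) < 2 * N + Δ := by
      intro j
      have h4 := h2 j
      rw [nn_shift d hF] at h4
      have h5 := abs_le.1 (shift_le d Q j x (Fintype.mem_piFinset.1 hh))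
      rw [← hΔ] at h5
      omega
    have h4 := h3 0
    have h5 := h3 (0 + 1)
    exact mem_coe.2 (hfin.mem_toFinset.2
      ⟨h1, h4.1, by omega, h5.1, by omega⟩)
  set K : ℝ := ((Cv.box H).card : ℝ) ^ (s + 1) with hK
  have hK0 : 0 < K := by
    have : 0 < (Cv.box H).card := by
      rw [Cv.box, card_product, Nat.card_Ioc]
      exact Nat.mul_pos hH hH
    positivity
  have hsum : K * ∑ᶠ γ, fn d b F N V φ x γ =
      ∑ γ ∈ S₀, ∑ h ∈ Fintype.piFinset fun _ : Fin (s + 1) => Cv.box H,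
        fn d b F N V φ x (γ + ((F * Q : ℕ) : O) * ∑ r, em (h r)) := by
    rw [sum_comm, ← sum_congr rfl hshift, sum_const, Fintype.card_piFinset_const, nsmul_eq_mul,
      Nat.cast_pow]
  have hnorm : (0 : ℝ) < (x.norm : ℝ) := by exact_mod_cast norm_pos' hx
  have hN' : (0 : ℝ) < N := by exact_mod_cast hN
  have hΔ' : (Δ : ℝ) ≤ N := by exact_mod_cast hΔN
  have hx' : (sz x : ℝ) ≤ N := by exact_mod_cast hxN
  have hΔ0 : (0 : ℝ) ≤ Δ := Nat.cast_nonneg _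
  have hx0 : (0 : ℝ) ≤ sz x := Nat.cast_nonneg _
  have hbd : ∀ (j : Fin 6) (a : ℤ), (∑ γ ∈ S₀,
      (if γ ∈ Pk d b F x j (j + 1) a (N - Δ) (2 * Δ) (N + 2 * Δ) then (1 : ℝ) else 0)) *
        (x.norm : ℝ) ≤ 8 * C * N * (Δ + sz x) := by
    intro j a
    obtain ⟨h1, h2⟩ := hP' j a (N - Δ) (2 * Δ) (N + 2 * Δ)
    refine ((mul_le_mul_of_nonneg_right (sum_ind_le h1) hnorm.le).trans h2).trans ?_
    push_cast
    calc C * (2 * Δ + sz x) * (N + 2 * Δ + sz x) ≤ C * (2 * (Δ + sz x)) * (4 * N) := by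
          gcongr <;> linarith
      _ = _ := by ring
  have hc : (S₀.card : ℝ) * (x.norm : ℝ) ≤ 16 * C * N ^ 2 := by
    refine hcard.trans ?_
    push_cast
    calc C * (N + 2 * Δ + sz x) * (N + 2 * Δ + sz x) ≤ C * (4 * N) * (4 * N) := by
          gcongr <;> linarith
      _ = _ := by ring
  have hmain : |∑ᶠ γ, fn d b F N V φ x γ| * (x.norm : ℝ) ≤
      16 * C * N ^ 2 * (M ^ 6 * β) + Vm * (96 * C * N * (Δ + sz x)) := by
    have h1 : K * |∑ᶠ γ, fn d b F N V φ x γ| ≤ K * ∑ γ ∈ S₀, (M ^ 6 * β + Vm * ∑ j : Fin 6,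
        ((if γ ∈ Pk d b F x j (j + 1) (N - Δ) (N - Δ) (2 * Δ) (N + 2 * Δ) then 1 else 0) +
          if γ ∈ Pk d b F x j (j + 1) (2 * N - Δ) (N - Δ) (2 * Δ) (N + 2 * Δ) then 1 else 0)) := by
      rw [← abs_of_pos hK0, ← abs_mul, hsum, abs_of_pos hK0, mul_sum]
      exact (abs_sum_le_sum_abs _ _).trans
        (sum_le_sum fun γ _ => point hF hM hβ hφ hL hD hVm (hV γ) hΔ)
    have h2 := le_of_mul_le_mul_left h1 hK0
    rw [sum_add_distrib, sum_const, nsmul_eq_mul, ← mul_sum, sum_comm] at h2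
    refine (mul_le_mul_of_nonneg_right h2 hnorm.le).trans ?_
    rw [add_mul, mul_right_comm, mul_assoc Vm]
    refine add_le_add (mul_le_mul_of_nonneg_right hc hMb) (mul_le_mul_of_nonneg_left ?_ h0)
    rw [sum_mul]
    calc _ ≤ ∑ _j : Fin 6, (8 * C * N * (Δ + sz x) + 8 * C * N * (Δ + sz x) : ℝ) := by
          refine sum_le_sum fun j _ => ?_
          rw [sum_add_distrib, add_mul]
          exact add_le_add (hbd j _) (hbd j _)
      _ = _ := by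
          rw [sum_const, card_univ, Fintype.card_fin, nsmul_eq_mul]
          push_cast
          ring
  have hPsi : d.Psi b F N V (cutI N φ) x = (x.norm : ℝ) / (N : ℝ) ^ 2 * ∑ᶠ γ, fn d b F N V φ x γ :=
    rfl
  rw [hPsi, abs_mul, abs_of_pos (by positivity), div_mul_eq_mul_div, mul_comm,
    div_le_iff₀ (by positivity)]
  refine hmain.trans ?_
  push_cast
  have e : 96 * C * (M ^ 6 * β + Vm * (Δ + sz x) / N) * N ^ 2 =
      96 * C * N ^ 2 * (M ^ 6 * β) + Vm * (96 * C * N * (Δ + sz x)) := by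
    field_simp
  rw [e]
  have : 0 ≤ C * N ^ 2 * (M ^ 6 * β) := by positivity
  nlinarith

end Pool.Agent.Lib.MP_7d3fda_nt.Q3
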