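import Pool.Agent.Lib.MP_7d3fda_nt.Q3.Dns
import Pool.Agent.Lib.MP_458f0b_nt.Pois.PNTa

open Finset Filter
open scoped Classical NumberTheorySymbols

noncomputable section

namespace Pool.Agent.Lib.MP_7d3fda_nt.Q3

open Pool.Agent.Lib.MP_4b8564_nt Pool.Agent.Lib.MP_4b8564_nt.GT

/-! A box with many points of prime norm. -/

namespace PrimeAux

/-- the mean over a multiple of the period -/
theorem bav_dvd {M F : ℕ} (hF : 0 < F) (hMF : M ∣ F) (Φ : (Fin 2 → ℤ) → ℝ) (hΦ : Per M Φ)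
    (h1 : ∀ x, |Φ x| ≤ 1) : bav F Φ ≤ bav M Φ := by
  have hM : 0 < M := Nat.pos_of_dvd_of_pos hMF hF
  have hΦF : Per F Φ := fun x y h => hΦ x y fun v => (Int.natCast_dvd_natCast.2 hMF).trans (h v)
  refine le_of_forall_pos_le_add fun ε hε => ?_
  obtain ⟨L, hL⟩ := exists_nat_gt ((4 * F + 4 * M : ℝ) / ε)
  have hL0 : (0 : ℝ) < L := lt_of_le_of_lt (by positivity) hL
  have hL1 : 0 < L := by exact_mod_cast hL0
  have a1 := abs_le.1 (bav_per F L hF hL1 Φ hΦF h1)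
  have a2 := abs_le.1 (bav_per M L hM hL1 Φ hΦ h1)
  rw [div_lt_iff₀ hε] at hL
  have a3 : (2 * (Fintype.card (Fin 2) : ℝ) * F / L) + 2 * (Fintype.card (Fin 2) : ℝ) * M / L ≤ ε := by
    rw [← add_div, div_le_iff₀ hL0, Fintype.card_fin]
    push_cast
    linarith
  linarith [a1.1, a2.2]

/-- the indicator of the points whose norm is prime to `p` -/
def ind (p : ℕ) (h : Fin 2 → ℤ) : ℝ := if (p : ℤ) ∣ h 0 ^ 2 + 3 * h 1 ^ 2 then 0 else 1

theorem ind_per (p : ℕ) : Per p (ind p) := fun x y h => by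
  have h1 : (p : ℤ) ∣ x 0 ^ 2 + 3 * x 1 ^ 2 - (y 0 ^ 2 + 3 * y 1 ^ 2) := by
    have : x 0 ^ 2 + 3 * x 1 ^ 2 - (y 0 ^ 2 + 3 * y 1 ^ 2) =
        (x 0 - y 0) * (x 0 + y 0) + (x 1 - y 1) * (3 * (x 1 + y 1)) := by ring
    rw [this]
    exact dvd_add ((h 0).mul_right _) ((h 1).mul_right _)
  exact if_congr (dvd_iff_dvd_of_dvd_sub h1) rfl rfl

/-- the local density at a split prime -/
theorem bav_ind {p : ℕ} (hp : p.Prime) (h3 : p % 3 = 1) (z : O) (hz : z.norm = p) :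
    bav p (ind p) ≤ (1 - 1 / (p : ℝ)) ^ 2 := by
  have := Fact.mk hp
  have hp0 : (0 : ℝ) < p := by exact_mod_cast hp.pos
  rw [norm_eq] at hz
  have hab : (z.re : ZMod p) ^ 2 + 3 * (z.im : ZMod p) ^ 2 = 0 := by
    have := congrArg (Int.cast : ℤ → ZMod p) hz
    simpa using this
  have h3' : (3 : ZMod p) ≠ 0 := fun h => by
    have h4 : p ∣ 3 := (ZMod.natCast_eq_zero_iff 3 p).1 (by exact_mod_cast h)
    have := (Nat.prime_dvd_prime_iff_eq hp Nat.prime_three).1 h4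
    omega
  have h2' : (2 : ZMod p) ≠ 0 := fun h => by
    have h4 : p ∣ 2 := (ZMod.natCast_eq_zero_iff 2 p).1 (by exact_mod_cast h)
    have := (Nat.prime_dvd_prime_iff_eq hp Nat.prime_two).1 h4
    omega
  have hb : (z.im : ZMod p) ≠ 0 := fun h => by
    have ha : (z.re : ZMod p) = 0 := by
      rw [h] at hab
      simpa using hab
    obtain ⟨a, ha⟩ := (ZMod.intCast_zmod_eq_zero_iff_dvd _ _).1 ha
    obtain ⟨b, hb⟩ := (ZMod.intCast_zmod_eq_zero_iff_dvd _ _).1 h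
    rw [ha, hb] at hz
    have h5 : (p : ℤ) * (p * (a ^ 2 + 3 * b ^ 2)) = p * 1 := by linear_combination hz
    have h6 := mul_left_cancel₀ (by exact_mod_cast hp.ne_zero) h5
    have h7 : (p : ℤ) ∣ 1 := ⟨_, h6.symm⟩
    exact hp.one_lt.ne' (by exact_mod_cast Int.natCast_dvd_natCast.1 h7 |> Nat.dvd_one.1)
  have ha : (z.re : ZMod p) ≠ 0 := fun h => by
    rw [h] at hab
    exact mul_ne_zero h3' (pow_ne_zero 2 hb) (by simpa using hab)
  set A := (range p ×ˢ range p).filter fun h : ℕ × ℕ =>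
    ¬(p : ℤ) ∣ (h.1 : ℤ) ^ 2 + 3 * (h.2 : ℤ) ^ 2 with hA
  have hc : A.card ≤ ((univ.erase (0 : ZMod p)) ×ˢ (univ.erase (0 : ZMod p))).card := by
    refine card_le_card_of_injOn (fun h => ((z.im : ZMod p) * h.1 - z.re * h.2,
      (z.im : ZMod p) * h.1 + z.re * h.2)) (fun h hh => ?_) fun h hh k hk e => ?_
    · have h1 := (mem_filter.1 hh).2
      rw [← ZMod.intCast_zmod_eq_zero_iff_dvd] at h1
      push_cast at h1
      have h2 : ((z.im : ZMod p) * h.1 - z.re * h.2) * ((z.im : ZMod p) * h.1 + z.re * h.2) ≠ 0 := by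
        have : ((z.im : ZMod p) * h.1 - z.re * h.2) * ((z.im : ZMod p) * h.1 + z.re * h.2) =
            (z.im : ZMod p) ^ 2 * ((h.1 : ZMod p) ^ 2 + 3 * (h.2 : ZMod p) ^ 2) := by
          linear_combination (-(h.2 : ZMod p) ^ 2) * hab
        rw [this]
        exact mul_ne_zero (pow_ne_zero 2 hb) h1
      simp only [coe_product, Set.mem_prod, mem_coe, mem_erase, mem_univ, and_true]
      exact ⟨left_ne_zero_of_mul h2, right_ne_zero_of_mul h2⟩
    · obtain ⟨e1, e2⟩ := Prod.ext_iff.1 e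
      simp only at e1 e2
      have f1 : (2 * (z.im : ZMod p)) * h.1 = (2 * (z.im : ZMod p)) * k.1 := by
        linear_combination e1 + e2
      have f2 : (2 * (z.re : ZMod p)) * h.2 = (2 * (z.re : ZMod p)) * k.2 := by
        linear_combination e2 - e1
      have g1 := (ZMod.natCast_eq_natCast_iff _ _ _).1 (mul_left_cancel₀ (mul_ne_zero h2' hb) f1)
      have g2 := (ZMod.natCast_eq_natCast_iff _ _ _).1 (mul_left_cancel₀ (mul_ne_zero h2' ha) f2)
      have m1 := mem_product.1 (mem_filter.1 hh).1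
      have m2 := mem_product.1 (mem_filter.1 hk).1
      exact Prod.ext (g1.eq_of_lt_of_lt (mem_range.1 m1.1) (mem_range.1 m2.1))
        (g2.eq_of_lt_of_lt (mem_range.1 m1.2) (mem_range.1 m2.2))
  rw [card_product, card_erase_of_mem (mem_univ _), card_univ, ZMod.card] at hc
  have hc' : (A.card : ℝ) ≤ ((p : ℝ) - 1) * (p - 1) := by
    have : (A.card : ℝ) ≤ (((p - 1) * (p - 1) : ℕ) : ℝ) := by exact_mod_cast hc
    rwa [Nat.cast_mul, Nat.cast_sub hp.one_le, Nat.cast_one] at this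
  have hs : ∑ h ∈ range p ×ˢ range p, ind p ![(h.1 : ℤ), (h.2 : ℤ)] = A.card := by
    rw [hA, card_filter]
    push_cast
    refine sum_congr rfl fun h _ => ?_
    rw [ite_not]
    exact if_congr Iff.rfl rfl rfl
  rw [bav_two, hs, div_le_iff₀ (by positivity)]
  calc _ ≤ _ := hc'
    _ = _ := by field_simp

/-- the number of admissible classes -/
theorem card_cls (hRep : StRep) {F : ℕ} (hF : 0 < F) (P : Finset ℕ)
    (hP : ∀ p ∈ P, p.Prime ∧ p % 3 = 1 ∧ p ∣ F) :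
    (((range F ×ˢ range F).filter fun h : ℕ × ℕ =>
      ∀ p ∈ P, ¬p ∣ h.1 ^ 2 + 3 * h.2 ^ 2).card : ℝ) ≤
      (F : ℝ) ^ 2 * ∏ p ∈ P, (1 - 1 / (p : ℝ)) ^ 2 := by
  have hF' : (0 : ℝ) < F := by exact_mod_cast hF
  have hd : ∏ p ∈ P, p ∣ F :=
    Finset.prod_primes_dvd F (fun p hp => (hP p hp).1.prime) fun p hp => (hP p hp).2.2
  have h0 : ∀ p x, 0 ≤ ind p x := fun p x => by unfold ind; split_ifs <;> norm_num
  have h1 : ∀ p x, ind p x ≤ 1 := fun p x => by unfold ind; split_ifs <;> norm_num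
  have h2 := bav_dvd hF hd (fun h => ∏ p ∈ P, ind p h)
    (CrtAux.per_prod P ind fun p _ => ind_per p) fun x => by
      rw [abs_of_nonneg (prod_nonneg fun p _ => h0 p x)]
      exact prod_le_one (fun p _ => h0 p x) fun p _ => h1 p x
  rw [bav_crt P (fun p hp => (hP p hp).1) ind fun p _ => ind_per p, bav_two,
    div_le_iff₀ (by positivity)] at h2
  have h3 : ∏ p ∈ P, bav p (ind p) ≤ ∏ p ∈ P, (1 - 1 / (p : ℝ)) ^ 2 :=
    prod_le_prod (fun p _ => bav_nonneg (h0 p)) fun p hp => by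
      obtain ⟨z, hz⟩ := (hRep p (hP p hp).1).1 (hP p hp).2.1
      exact bav_ind (hP p hp).1 (hP p hp).2.1 z hz
  rw [card_filter]
  push_cast
  calc _ ≤ ∑ h ∈ range F ×ˢ range F, ∏ p ∈ P, ind p ![(h.1 : ℤ), (h.2 : ℤ)] := by
        refine sum_le_sum fun h _ => ?_
        split_ifs with hh
        · refine le_of_eq (prod_eq_one fun p hp => ?_).symm
          refine if_neg fun hd => hh p hp ?_
          simp only [Matrix.cons_val_zero, Matrix.cons_val_one] at hd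
          exact_mod_cast hd
        · exact prod_nonneg fun p _ => h0 p _
    _ ≤ _ := h2
    _ ≤ _ := by rw [mul_comm]; exact mul_le_mul_of_nonneg_left h3 (by positivity)

/-- the points of prime norm in an annulus -/
def pts (T : ℕ) : Finset (ℕ × ℕ) :=
  (range (2 * T + 1) ×ˢ range (2 * T + 1)).filter fun h =>
    (h.1 ^ 2 + 3 * h.2 ^ 2).Prime ∧ T ^ 2 < h.1 ^ 2 + 3 * h.2 ^ 2 ∧ h.1 ^ 2 + 3 * h.2 ^ 2 ≤ 4 * T ^ 2

theorem card_pts (hRep : StRep) : ∃ T₀ : ℕ, ∀ T : ℕ, T₀ ≤ T →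
    (T : ℝ) ^ 2 ≤ 3 * Real.log T * (pts T).card := by
  obtain ⟨X₀, hX⟩ := eventually_atTop.1 (Pool.Agent.Lib.MP_458f0b_nt.Pois.pnt_unif 3 (by norm_num)
    1 (by norm_num) (1 / 16) (by norm_num))
  refine ⟨X₀ + 4, fun T hT => ?_⟩
  have hT4 : 4 ≤ T := by omega
  have hX0 : X₀ ≤ 4 * T ^ 2 := by nlinarith
  have a1 := (abs_le.1 (hX _ hX0 (4 * T ^ 2) le_rfl)).1
  have a2 := (abs_le.1 (hX _ hX0 (T ^ 2) (by omega))).2
  set S1 := (Icc 1 (4 * T ^ 2)).filter fun p => p.Prime ∧ 4 * T ^ 2 < p ^ 2 ∧ p ≡ 1 [MOD 3]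
  set S2 := (Icc 1 (T ^ 2)).filter fun p => p.Prime ∧ 4 * T ^ 2 < p ^ 2 ∧ p ≡ 1 [MOD 3]
  have hsub : S1 ⊆ S2 ∪ (pts T).image fun h => h.1 ^ 2 + 3 * h.2 ^ 2 := fun p hp => by
    obtain ⟨h1, h2⟩ := mem_filter.1 hp
    obtain ⟨h3, h4⟩ := mem_Icc.1 h1
    by_cases h5 : p ≤ T ^ 2
    · exact mem_union_left _ (mem_filter.2 ⟨mem_Icc.2 ⟨h3, h5⟩, h2⟩)
    obtain ⟨z, hz⟩ := (hRep p h2.1).1 h2.2.2
    have h6 : z.re.natAbs ^ 2 + 3 * z.im.natAbs ^ 2 = p := by
      rw [norm_eq] at hz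
      zify
      rwa [sq_abs, sq_abs]
    refine mem_union_right _ (mem_image.2 ⟨(z.re.natAbs, z.im.natAbs), mem_filter.2
      ⟨mem_product.2 ⟨mem_range.2 ?_, mem_range.2 ?_⟩, ?_⟩, h6⟩)
    · by_contra h7
      have : 2 * T + 1 ≤ z.re.natAbs := by simpa using h7
      nlinarith
    · by_contra h7
      have : 2 * T + 1 ≤ z.im.natAbs := by simpa using h7
      nlinarith
    · simp only [h6]
      exact ⟨h2.1, by omega, h4⟩
  have hc : (S1.card : ℝ) ≤ S2.card + (pts T).card := by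
    exact_mod_cast (card_le_card hsub).trans ((card_union_le _ _).trans
      (Nat.add_le_add_left card_image_le _))
  have hT' : (4 : ℝ) ≤ T := by exact_mod_cast hT4
  have hl0 : 0 ≤ Real.log ((4 * T ^ 2 : ℕ) : ℝ) := Real.log_natCast_nonneg _
  have hl : Real.log ((4 * T ^ 2 : ℕ) : ℝ) ≤ 3 * Real.log T := by
    have : Real.log ((T : ℝ) ^ 3) = 3 * Real.log T := by rw [Real.log_pow]; norm_num
    rw [← this]
    refine Real.log_le_log (by positivity) ?_
    push_cast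
    nlinarith
  have ht : ((Nat.totient 3 : ℕ) : ℝ) = 2 := by
    rw [Nat.totient_prime Nat.prime_three]; norm_num
  rw [ht] at a1 a2
  have b1 := mul_le_mul_of_nonneg_left hc hl0
  have b2 := mul_le_mul_of_nonneg_right hl (Nat.cast_nonneg (α := ℝ) (pts T).card)
  generalize Real.log ((4 * T ^ 2 : ℕ) : ℝ) = Lg at *
  push_cast at a1 a2
  nlinarith

/-- digits of a coordinate -/
theorem digit (F l x : ℕ) : x = x % F + F * l * (x / (F * l)) + F * (x / F % l) := by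
  have h1 := Nat.mod_add_div x F
  have h2 := Nat.mod_add_div (x / F) l
  rw [← Nat.div_div_eq_div_mul]
  calc x = x % F + F * (x / F) := h1.symm
    _ = x % F + F * (x / F % l + l * (x / F / l)) := by rw [h2]
    _ = _ := by ring

/-- the corner of the box attached to a class and a cell -/
def corner (F l : ℕ) (b : (ℕ × ℕ) × ℕ × ℕ) : O := em (b.1.1 + F * l * b.2.1, b.1.2 + F * l * b.2.2)

/-- the class and the cell of a point -/
def key (F l : ℕ) (h : ℕ × ℕ) : (ℕ × ℕ) × ℕ × ℕ :=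
  ((h.1 % F, h.2 % F), h.1 / (F * l), h.2 / (F * l))

theorem em_eq (F l : ℕ) (h : ℕ × ℕ) :
    em h = corner F l (key F l h) + (F : O) * em (h.1 / F % l, h.2 / F % l) := by
  have h1 := digit F l h.1
  have h2 := digit F l h.2
  ext
  · simp only [em, corner, key, Zsqrtd.re_add, Zsqrtd.re_mul, Zsqrtd.re_natCast, Zsqrtd.im_natCast]
    zify at h1
    push_cast
    linarith
  · simp only [em, corner, key, Zsqrtd.im_add, Zsqrtd.im_mul, Zsqrtd.re_natCast, Zsqrtd.im_natCast]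
    zify at h2
    push_cast
    linarith

theorem norm_em (h : ℕ × ℕ) : (em h).norm = ((h.1 ^ 2 + 3 * h.2 ^ 2 : ℕ) : ℤ) := by
  rw [norm_eq]; simp [em]

/-- norms near a point of the annulus -/
theorem near {T D x y s t : ℤ} (hT : 0 ≤ T) (hD : 16 * D ≤ T) (hx : 0 ≤ x) (hy : 0 ≤ y)
    (h1 : T ^ 2 ≤ x ^ 2 + 3 * y ^ 2) (h2 : x ^ 2 + 3 * y ^ 2 ≤ 4 * T ^ 2) (hs : |s| ≤ D)
    (ht : |t| ≤ D) : T ^ 2 ≤ 4 * ((x + s) ^ 2 + 3 * (y + t) ^ 2) ∧
      (x + s) ^ 2 + 3 * (y + t) ^ 2 ≤ 9 * T ^ 2 := by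
  have hD0 : 0 ≤ D := (abs_nonneg _).trans hs
  have h3 : x + 3 * y ≤ 4 * T := by
    by_contra h
    push Not at h
    nlinarith [sq_nonneg (x - y)]
  obtain ⟨s1, s2⟩ := abs_le.1 hs
  obtain ⟨t1, t2⟩ := abs_le.1 ht
  have h4 : D * (x + 3 * y) ≤ D * (4 * T) := mul_le_mul_of_nonneg_left h3 hD0
  have h5 : 16 * D * T ≤ T * T := mul_le_mul_of_nonneg_right hD hT
  have h6 : 16 * D * D ≤ T * D := mul_le_mul_of_nonneg_right hD hD0
  have h7 : s ^ 2 ≤ D ^ 2 := sq_le_sq' s1 s2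
  have h8 : t ^ 2 ≤ D ^ 2 := sq_le_sq' t1 t2
  have h9 : 0 ≤ D * T := mul_nonneg hD0 hT
  have k1 := mul_le_mul_of_nonneg_left s1 hx
  have k2 := mul_le_mul_of_nonneg_left s2 hx
  have k3 := mul_le_mul_of_nonneg_left t1 hy
  have k4 := mul_le_mul_of_nonneg_left t2 hy
  constructor <;> nlinarith [sq_nonneg s, sq_nonneg t]

end PrimeAux

open PrimeAux in
theorem stPrime (hRep : StRep) (hGK : StGK) : StPrime := by
  obtain ⟨c, hc, hG⟩ := hGK
  obtain ⟨T₀, hT₀⟩ := card_pts hRep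
  refine ⟨c / 27, by positivity, fun w e hw he => ⟨T₀ + 2, fun T l R hT hl hFl hR => ?_⟩⟩
  set F := e * w.factorial with hFd
  have hF : 0 < F := Nat.mul_pos he (Nat.factorial_pos w)
  have hFT : F ≤ T ^ 2 := by nlinarith
  have hZ := hT₀ T (by omega)
  have hT' : (2 : ℝ) ≤ T := by exact_mod_cast (by omega : 2 ≤ T)
  have hlog : 0 ≤ Real.log T := Real.log_natCast_nonneg _
  have hne : (pts T).Nonempty := by
    rw [← card_pos]
    by_contra h
    have h0 : (pts T).card = 0 := by omega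
    rw [h0] at hZ
    simp only [Nat.cast_zero, mul_zero] at hZ
    nlinarith
  obtain ⟨h₀, hh₀, hmax⟩ := exists_max_image (pts T)
    (fun h => ((pts T).filter fun k => key F l k = key F l h).card) hne
  set Fb := (pts T).filter fun k => key F l k = key F l h₀ with hFb
  have hcnt : (pts T).card ≤ Fb.card * ((pts T).image (key F l)).card :=
    card_le_mul_card_image _ _ fun b hb => by
      obtain ⟨h, hh, rfl⟩ := mem_image.1 hb
      exact hmax h hh
  set P := (Sg.PP 0 w).filter (fun p => p % 3 = 1) with hP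
  have hPF : ∀ p ∈ P, p.Prime ∧ p % 3 = 1 ∧ p ∣ F := fun p hp => by
    obtain ⟨h1, h2⟩ := mem_filter.1 hp
    obtain ⟨h3, h4⟩ := mem_filter.1 h1
    exact ⟨h4, h2, ((h4.dvd_factorial).2 (mem_Ioc.1 h3).2).mul_left _⟩
  set C := (range F ×ˢ range F).filter fun h : ℕ × ℕ => ∀ p ∈ P, ¬p ∣ h.1 ^ 2 + 3 * h.2 ^ 2
    with hC
  set K := 2 * T / (F * l) + 1 with hK
  have hcop : ∀ h ∈ pts T, IsCoprime (em h).norm (F : ℤ) := fun h hh => by
    obtain ⟨-, h1, h2, -⟩ := mem_filter.1 hh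
    rw [norm_em, Nat.isCoprime_iff_coprime]
    exact (Nat.coprime_of_lt_prime hF.ne' (by omega) h1)
  have himg : (pts T).image (key F l) ⊆ C ×ˢ (range K ×ˢ range K) := fun b hb => by
    obtain ⟨h, hh, rfl⟩ := mem_image.1 hb
    obtain ⟨h1, h2⟩ := mem_product.1 (mem_filter.1 hh).1
    refine mem_product.2 ⟨mem_filter.2 ⟨mem_product.2 ⟨mem_range.2 (Nat.mod_lt _ hF),
      mem_range.2 (Nat.mod_lt _ hF)⟩, fun p hp hd => ?_⟩, mem_product.2 ⟨mem_range.2 ?_,
      mem_range.2 ?_⟩⟩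
    · obtain ⟨p1, -, p3⟩ := hPF p hp
      have h3 : (h.1 % F) ^ 2 + 3 * (h.2 % F) ^ 2 ≡ h.1 ^ 2 + 3 * h.2 ^ 2 [MOD F] :=
        ((Nat.mod_modEq _ _).pow 2).add (((Nat.mod_modEq _ _).pow 2).mul_left 3)
      have h4 : p ∣ h.1 ^ 2 + 3 * h.2 ^ 2 := ((h3.of_dvd p3).dvd_iff dvd_rfl).1 hd
      have h5 := hcop h hh
      rw [norm_em, Nat.isCoprime_iff_coprime] at h5
      exact p1.one_lt.ne' (Nat.eq_one_of_dvd_coprimes h5 h4 p3)
    · exact Nat.lt_succ_of_le (Nat.div_le_div_right (Nat.lt_succ_iff.1 (mem_range.1 h1)))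
    · exact Nat.lt_succ_of_le (Nat.div_le_div_right (Nat.lt_succ_iff.1 (mem_range.1 h2)))
  have hinj : Function.Injective em := fun h k e => by
    have e1 := congrArg Zsqrtd.re e
    have e2 := congrArg Zsqrtd.im e
    simp only [em, Nat.cast_inj] at e1 e2
    exact Prod.ext e1 e2
  have e₀ := em_eq F l h₀
  refine ⟨corner F l (key F l h₀), Fb.image em, ?_, fun z hz => ?_, fun z hz => ?_,
    fun z hz => ?_, ?_⟩
  · obtain ⟨k, hk⟩ : (F : ℤ) ∣ (corner F l (key F l h₀)).norm - (em h₀).norm :=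
      norm_congr ⟨-em (h₀.1 / F % l, h₀.2 / F % l), by rw [e₀]; ring⟩
    rw [sub_eq_iff_eq_add'.1 hk]
    exact (hcop h₀ hh₀).add_mul_left_left k
  · obtain ⟨h, h1, h2, rfl⟩ := mem_cbx.1 hz
    obtain ⟨-, -, h3, h4⟩ := mem_filter.1 hh₀
    have hb : ∀ i j : ℕ, i < l → j < l → |(F : ℤ) * i - F * j| ≤ F * l := fun i j hi hj => by
      have : (i : ℤ) < l := by exact_mod_cast hi
      have : (j : ℤ) < l := by exact_mod_cast hj
      rw [← mul_sub, abs_mul, Nat.abs_cast]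
      exact mul_le_mul_of_nonneg_left (abs_le.2 ⟨by omega, by omega⟩) (by positivity)
    have := near (T := T) (D := F * l) (x := h₀.1) (y := h₀.2) (by positivity)
      (by have : ((16 * F * l : ℕ) : ℤ) ≤ T := by exact_mod_cast hFl
          push_cast at this; linarith)
      (by positivity) (by positivity) (by exact_mod_cast h3.le) (by exact_mod_cast h4)
      (hb _ _ h1 (Nat.mod_lt (h₀.1 / F) hl)) (hb _ _ h2 (Nat.mod_lt (h₀.2 / F) hl))
    have e1 := congrArg Zsqrtd.re e₀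
    have e2 := congrArg Zsqrtd.im e₀
    have e3 : ∀ k : ℕ × ℕ, (corner F l (key F l h₀) + (F : O) * em k).re =
        (corner F l (key F l h₀)).re + F * k.1 := fun k => by simp [em]
    have e4 : ∀ k : ℕ × ℕ, (corner F l (key F l h₀) + (F : O) * em k).im =
        (corner F l (key F l h₀)).im + F * k.2 := fun k => by simp [em]
    rw [e3] at e1
    rw [e4] at e2
    rw [norm_eq, e3, e4]
    have f1 : (corner F l (key F l h₀)).re + F * h.1 =
        h₀.1 + ((F : ℤ) * h.1 - F * (h₀.1 / F % l : ℕ)) := by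
      have : (em h₀).re = h₀.1 := rfl
      linarith
    have f2 : (corner F l (key F l h₀)).im + F * h.2 =
        h₀.2 + ((F : ℤ) * h.2 - F * (h₀.2 / F % l : ℕ)) := by
      have : (em h₀).im = h₀.2 := rfl
      linarith
    rw [f1, f2]
    exact this
  · obtain ⟨h, hh, rfl⟩ := mem_image.1 hz
    refine mem_cbx.2 ⟨(h.1 / F % l, h.2 / F % l), Nat.mod_lt _ hl, Nat.mod_lt _ hl, ?_⟩
    rw [← (mem_filter.1 hh).2]
    exact em_eq F l h
  · obtain ⟨h, hh, rfl⟩ := mem_image.1 hz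
    rw [norm_em, Int.natAbs_natCast]
    exact (mem_filter.1 (mem_filter.1 hh).1).2.1
  · rw [card_image_of_injective _ hinj]
    have hcl := card_cls hRep hF P hPF
    have hG' := hG w R hw hR
    set Pr := ∏ p ∈ P, (1 - 1 / (p : ℝ)) ^ 2 with hPr
    have hPr0 : 0 ≤ Pr := prod_nonneg fun p _ => sq_nonneg _
    have hF' : (0 : ℝ) < F := by exact_mod_cast hF
    have hl' : (0 : ℝ) < l := by exact_mod_cast hl
    have hK' : (K : ℝ) * (F * l) ≤ 3 * T := by
      have h1 : K * (F * l) ≤ 3 * T := by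
        have := Nat.div_mul_le_self (2 * T) (F * l)
        rw [hK, add_mul, one_mul]
        nlinarith
      exact_mod_cast h1
    have h2 : ((pts T).card : ℝ) ≤ Fb.card * (C.card * (K * K)) := by
      have := hcnt.trans (Nat.mul_le_mul_left _ (card_le_card himg))
      rw [card_product, card_product, card_range] at this
      exact_mod_cast this
    have h3 : ((pts T).card : ℝ) * l ^ 2 ≤ Fb.card * Pr * (9 * T ^ 2) := by
      have h4 : ((K : ℝ) * (F * l)) ^ 2 ≤ (3 * T) ^ 2 := pow_le_pow_left₀ (by positivity) hK' 2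
      calc _ ≤ (Fb.card : ℝ) * (((F : ℝ) ^ 2 * Pr) * (K * K)) * l ^ 2 := by gcongr; exact h2.trans (by gcongr)
        _ = Fb.card * Pr * ((K : ℝ) * (F * l)) ^ 2 := by ring
        _ ≤ Fb.card * Pr * (3 * T) ^ 2 := by gcongr
        _ = _ := by ring
    have h5 : (l : ℝ) ^ 2 ≤ 27 * (Real.log T * Fb.card * Pr) := by
      have h6 : (T : ℝ) ^ 2 * l ^ 2 ≤ (T : ℝ) ^ 2 * (27 * (Real.log T * Fb.card * Pr)) :=
        calc _ ≤ 3 * Real.log T * (pts T).card * l ^ 2 := by gcongr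
          _ = 3 * Real.log T * ((pts T).card * l ^ 2) := by ring
          _ ≤ 3 * Real.log T * (Fb.card * Pr * (9 * T ^ 2)) := by gcongr
          _ = _ := by ring
      exact le_of_mul_le_mul_left h6 (by positivity)
    have hR0 : 0 ≤ Real.log R := Real.log_natCast_nonneg _
    calc c / 27 * (l : ℝ) ^ 2 * Real.log R
        ≤ c / 27 * (27 * (Real.log T * Fb.card * Pr)) * Real.log R := by gcongr
      _ = c * Real.log R * Pr * Fb.card * Real.log T := by ring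
      _ ≤ _ := by gcongr

end Pool.Agent.Lib.MP_7d3fda_nt.Q3
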