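import Pool.Agent.Lib.MP_7d3fda_nt.Q3.Defs

open Finset Filter
open scoped Classical NumberTheorySymbols

noncomputable section

namespace Pool.Agent.Lib.MP_7d3fda_nt.Q3

open Pool.Agent.Lib.MP_4b8564_nt Pool.Agent.Lib.MP_4b8564_nt.GT
open Pool.Agent.Lib.MP_0a3467_an.Cv (Low)
open Pool.Agent.Lib.MP_0a3467_an

/-! The intermediate statements. -/

/-- Cauchy-Schwarz over a box -/
def StBoxCS : Prop :=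
  ∀ (ι H : Type) [Fintype ι] [DecidableEq ι] [Nonempty ι] (S : ι → Finset H) (V : (ι → H) → ℝ)
    (F : ι → (ι → H) → ℝ), AdmI F →
    |∑ h ∈ Fintype.piFinset S, V h * ∏ r, F r h| ^ 2 ^ Fintype.card ι ≤
      (∏ r, ((S r).card : ℝ)) ^ (2 ^ Fintype.card ι - 2) *
        ∑ h ∈ Fintype.piFinset S, ∑ h' ∈ Fintype.piFinset S,
          ∏ ω : Finset ι, V fun r => if r ∈ ω then h' r else h r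

/-- boosting -/
def StBoost : Prop :=
  ∀ ε : ℝ, 0 < ε → ∃ (m : ℕ) (η : ℝ), 0 < η ∧
    ∀ (X : Type) [Fintype X] [Nonempty X] (F : Set (X → ℝ)) (ν f : X → ℝ),
      (∀ φ ∈ F, ∀ x, |φ x| ≤ 1) → (∀ x, 0 ≤ f x ∧ f x ≤ ν x) →
      (∀ k ≤ m, ∀ D : Fin k → X → ℝ, (∀ i, D i ∈ F) →
        |av fun x => (ν x - 1) * ∏ i, D i x| ≤ η) →
      ∃ k ≤ m, ∃ (D : Fin k → X → ℝ) (σ : Fin k → ℝ), (∀ i, D i ∈ F) ∧ (∀ i, |σ i| ≤ 1) ∧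
        ∀ φ ∈ F, |av fun x => (f x - clip (∑ i, σ i * D i x)) * φ x| ≤ ε

/-- one step of the concatenation -/
def StCStep : Prop :=
  ∀ (ι Θ : Type) [Fintype ι] [DecidableEq ι] (r₀ : ι) (T : Finset Θ) (μ : Θ → ℝ) (b : Θ → ι → ℤ)
    (L L' : ι → ℕ) (N Q D' lm : ℕ) (good : Θ → Θ → Prop) (u : ℤ → ℝ) (τ : ℝ),
    (∀ θ ∈ T, 0 ≤ μ θ) → ∑ θ ∈ T, μ θ ≤ 1 → (∀ x, |u x| ≤ 1) →
    (∀ x, u x ≠ 0 → (N : ℤ) ≤ x ∧ x < 2 * N) → 0 < N → 0 < lm → 0 < D' → 0 < τ →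
    (∀ r, 0 < L' r ∧ L' r * lm ≤ L r) →
    (∀ θ ∈ T, ∀ θ' ∈ T, good θ θ' → ∀ r, ∀ m : ℕ, m < D' → ∃ t t' : ℤ,
      b θ r₀ * t + b θ' r * t' = Q * m ∧ |t| * lm ≤ L r₀ ∧ |t'| * lm ≤ L r) →
    (∀ θ ∈ T, ∑ r, |b θ r| * L' r + Fintype.card ι * Q * D' ≤ 2 * N) →
    (∑ θ ∈ T, μ θ * boxN N u (b θ) L) ^ 2 ≤
      (∑ θ ∈ T, ∑ θ' ∈ T, if good θ θ' then 0 else μ θ * μ θ') + 8 * Fintype.card ι / lm +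
        5 * (τ + (∑ θ ∈ T, μ θ * boxN N u
          (Sum.elim (fun r : {r // r ≠ r₀} => b θ r) fun _ : ι => (Q : ℤ))
          (Sum.elim (fun r : {r // r ≠ r₀} => L' r) fun _ : ι => D')) /
            τ ^ (2 ^ (2 * Fintype.card ι - 1) - 1))

/-- concatenation -/
def StConc : Prop :=
  ∀ s : ℕ, 2 ≤ s → ∃ s₀ : ℕ, s ≤ s₀ ∧ ∀ ε : ℝ, 0 < ε → ∃ κ : ℝ, 0 < κ ∧
    ∀ (Θ : Type) (T : Finset Θ) (μ : Θ → ℝ) (b : Θ → Fin s → ℤ) (N H D Q lm bm Bm : ℕ)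
      (u : ℤ → ℝ), Reach (s₀ + 1) κ T μ b N H D Q lm bm Bm → (∀ x, |u x| ≤ 1) →
      (∀ x, u x ≠ 0 → (N : ℤ) ≤ x ∧ x < 2 * N) →
      boxN N u (fun _ : Fin (s₀ + 1) => (Q : ℤ)) (fun _ => D) ≤ κ →
      ∑ θ ∈ T, μ θ * boxN N u (b θ) (fun _ => H) ≤ ε

/-- the dual function of a box average -/
def StGDual : Prop :=
  ∀ (s N H : ℕ) (b : Fin s → ℤ) (u : ℤ → ℝ), 2 ≤ s → 0 < H → (∀ x, |u x| ≤ 1) →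
    (∀ x, u x ≠ 0 → (N : ℤ) ≤ x ∧ x < 2 * N) → ∃ φ : ℤ → ℝ, (∀ x, |φ x| ≤ 1) ∧
      LowDir b H (3 ^ s) φ ∧ boxN N u b (fun _ => H) = avI N fun x => u x * φ x

/-- structured functions are controlled by box averages -/
def StTBox : Prop :=
  ∀ (s N H : ℕ) (b : Fin s → ℤ) (u φ : ℤ → ℝ) (M τ : ℝ), 1 ≤ s → 0 < H → 0 < N → 0 < τ →
    ∑ r, |b r| * H ≤ N → (∀ x, u x ≠ 0 → (N : ℤ) ≤ x ∧ x < 2 * N) → LowDir b H M φ →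
    |avI N fun x => u x * φ x| ≤ M * (3 * τ + boxN N u b (fun _ => H) / τ ^ (2 ^ s - 1))

/-- the structured dense model -/
def StModel : Prop :=
  ∀ s : ℕ, 2 ≤ s → ∃ s₀ : ℕ, s ≤ s₀ ∧ ∀ M₀ ε : ℝ, 1 ≤ M₀ → 0 < ε →
    ∃ (m : ℕ) (η κ : ℝ), 0 < η ∧ 0 < κ ∧ ∀ ε' : ℝ, 0 < ε' → ∃ M : ℝ, 1 ≤ M ∧
      ∀ (Θ : Type) (T : Finset Θ) (μ : Θ → ℝ) (b : Θ → Fin s → ℤ) (N H D Q lm bm Bm e : ℕ)
        (ν f : ℤ → ℝ), Reach (s₀ + 1) κ T μ b N H D Q lm bm Bm → e ∣ Q →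
        (∀ x, 0 ≤ f x ∧ f x ≤ ν x) →
        (∀ k ≤ m, ∀ ψ : Fin k → ℤ → ℝ, (∀ i, Tst T μ b H M₀ (ψ i) ∨ ψ i = chi e) →
          |avI N fun x => (ν x - 1) * ∏ i, ψ i x| ≤ η) →
        ∃ g φ : ℤ → ℝ, (∀ x, 0 ≤ g x ∧ g x ≤ 1) ∧ (∀ x, g x ≠ 0 → (N : ℤ) ≤ x ∧ x < 2 * N) ∧
          (∀ x, |φ x| ≤ 1) ∧ LowDir (fun _ : Fin (s₀ + 1) => (Q : ℤ)) D M φ ∧
          (∀ x, (N : ℤ) ≤ x → x < 2 * N → |g x - φ x| ≤ ε') ∧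
          ∀ ψ, Tst T μ b H M₀ ψ ∨ ψ = chi e → |avI N fun x => (f x - g x) * ψ x| ≤ ε

/-- the linear forms condition for affine forms that depend on the prime -/
def StAff : Prop :=
  ∀ n : ℕ, ∃ C : ℝ, 0 < C ∧ ∀ (I V : Type) [Fintype I] [DecidableEq I] [Fintype V] [DecidableEq V],
    Fintype.card I ≤ n → ∀ (w R L : ℕ) (P : I → Finset ℕ) (a : ℕ → I → V → ℤ) (k : ℕ → I → ℤ)
      (Δ : ℤ), 4 ≤ w → 1 ≤ R → 0 < L → (∀ s, P s ⊆ Sg.PP w R) →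
      (∀ s, ∀ p ∈ P s, ∃ v, ¬(p : ℤ) ∣ a p s v) →
      (∀ s s', s ≠ s' → ∀ p ∈ P s, p ∈ P s' → ¬(p : ℤ) ∣ Δ →
        ∃ u v, ¬(p : ℤ) ∣ a p s u * a p s' v - a p s v * a p s' u) →
      |bav L (fun h : V → ℤ => ∏ s, bet (P s) R fun p => (p : ℤ) ∣ k p s + ∑ v, a p s v * h v) - 1|
        ≤ etaP C w R Δ + 2 * Fintype.card V * (R : ℝ) ^ (6 * n) / L

/-- the tail of the Euler product -/
def StEta : Prop :=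
  ∀ C ε : ℝ, 0 ≤ C → 0 < ε → ∃ w₀ : ℕ, ∀ w, w₀ ≤ w → ∀ R, etaP C w R 1 ≤ ε

/-- the pure sieve -/
def StBrun : Prop :=
  ∀ (V : Type) [Fintype V] [DecidableEq V] (P : Finset ℕ) (E : ℕ → (V → ℤ) → Prop)
    (Φ : (V → ℤ) → ℝ) (d y k L : ℕ) (M : ℝ), (∀ p ∈ P, p.Prime ∧ p ≤ y ∧ ¬p ∣ d) → 0 < d →
    1 ≤ y → 0 < L → (∀ p ∈ P, Per p fun h => if E p h then 1 else 0) → Per d Φ →
    (∀ h, |Φ h| ≤ M) → 8 * ∑ p ∈ P, bav p (fun h => if E p h then 1 else 0) ≤ k →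
    |bav L (fun h => (if ∀ p ∈ P, ¬E p h then 1 else 0) * Φ h) -
      (∏ p ∈ P, (1 - bav p fun h => if E p h then 1 else 0)) * bav d Φ| ≤
      M * (3 * (1 / 2) ^ k + 8 * (k + 2) * Fintype.card V * (y : ℝ) ^ (2 * k + 2) * d / L)

/-- elementary facts on the scales -/
def StScale : Prop :=
  (∀ p : ℕ, p.Prime → 0 ≤ rN p ∧ rN p ≤ 2 / p) ∧
  (∀ y : ℕ, ∑ p ∈ Sg.PP 0 y, 1 / (p : ℝ) ≤ 5 * (Nat.log 2 (Nat.log 2 y) + 1 : ℕ)) ∧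
  (∀ a Y : ℕ, 0 < a → ∀ᶠ ρ : ℕ in atTop,
    Y ≤ Nat.nthRoot (a * (Nat.log 2 (Nat.log 2 ρ) + 1)) ρ) ∧
  ∀ (d : Dat) (P : Par), P.Ok d → ∀ n w : ℕ, 4 ≤ w → Ev1 d P w fun S =>
    S.y ^ S.k ≤ S.ρ ∧ S.ρ ≤ S.y ^ (2 * S.k) ∧ Real.log S.ρ ^ n ≤ S.y ∧ 1 ≤ SS S.w S.y ∧
      SS S.w S.y ≤ Real.log S.ρ ^ 40 ∧ (2 : ℝ) ^ S.k ≤ Real.log S.ρ ^ (2 * P.a) ∧
      Real.log S.ρ ^ P.a ≤ (2 : ℝ) ^ S.k ∧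
      (∀ Q ⊆ Sg.PP 0 S.R, Sg.GG Q S.R ≤ Real.log S.ρ ^ 40) ∧
      ∀ γ, S.Fr γ → γ ≠ 0 ∧ IsCoprime γ.norm (S.F : ℤ) ∧
        (∀ p : ℕ, p.Prime → (p : ℤ) ∣ γ.norm → S.y < p) ∧
        γ.norm.natAbs.primeFactors.card ≤ 34 * P.a * S.k

/-- norms with a large square factor are rare -/
def StSqf : Prop :=
  ∃ C : ℝ, ∀ (X y : ℕ) (Z : Finset O), 1 ≤ X → 3 ≤ y →
    (∀ γ ∈ Z, γ ≠ 0 ∧ |γ.re| ≤ X ∧ |γ.im| ≤ X ∧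
      ∃ p : ℕ, p.Prime ∧ y < p ∧ (p : ℤ) ^ 2 ∣ γ.norm) → (Z.card : ℝ) ≤ C * (X : ℝ) ^ 2 / y

/-- upper bounds for weighted sums over the free factors -/
def StAvg : Prop :=
  ∀ (d : Dat) (P : Par), P.Ok d → Ev d P fun S => ∀ (Φ : O → O → ℝ) (β : O → ℝ),
    (∀ γ γ', 0 ≤ Φ γ γ') → (∀ γ, 0 ≤ β γ) →
    ((∀ γ ∈ S.P0, ∀ (a : O) (L : ℕ), (S.F : O) ∣ γ * a * S.w0 - S.b → S.ρ ^ (7 * P.a) ≤ L →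
        (S.G : ℤ) ^ 2 ≤ (L : ℤ) ^ 2 * γ.norm * (S.F : ℤ) ^ 2 →
        bav L (fun h => Φ γ (a + (S.F : O) * emZ h)) ≤ β γ) →
      S.mu * ∑ i ∈ S.Th, Φ i.1 i.2 ≤ SS S.w S.y * S.pav β) ∧
    ∀ (q : ℕ) (M : ℝ), 0 < q → q ≤ S.ρ → (∀ γ γ', Φ γ γ' ≤ M) →
      (∀ γ ∈ S.P0, ∀ a : O, (S.F : O) ∣ γ * a * S.w0 - S.b →
        Per q (fun h => Φ γ (a + (S.F : O) * emZ h)) ∧
        bav q (fun h => (if ∀ p ∈ Sg.PP S.w S.y, p ∣ q → ¬(p : ℤ) ∣ (a + (S.F : O) * emZ h).norm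
          then 1 else 0) * Φ γ (a + (S.F : O) * emZ h)) ≤
          β γ * ∏ p ∈ (Sg.PP S.w S.y).filter (· ∣ q), (1 - rN p)) →
      S.mu * ∑ i ∈ S.Th, Φ i.1 i.2 ≤ S.pav β / 2 + M / Real.log S.ρ ^ 300

/-- the total mass of the free factors -/
def StMass : Prop :=
  ∀ d : Dat, ∃ C : ℝ, 0 < C ∧ ∀ P : Par, P.Ok d → Ev d P fun S =>
    1 ≤ C * (S.mu * S.Th.card) ∧ S.mu * S.Th.card ≤ 1

/-- degenerate pairs are rare -/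
def StDeg : Prop :=
  ∀ (d : Dat) (P : Par), P.Ok d → ∀ n : ℕ, Ev d P fun S =>
    S.mu ^ 2 * ((S.Th ×ˢ S.Th) \ S.T2).card ≤ 1 / Real.log S.ρ ^ n

/-- small prime factors of the steps -/
def StExp : Prop :=
  ∀ (d : Dat) (P : Par), P.Ok d → ∀ C ε : ℝ, 0 ≤ C → 0 < ε → Ev d P fun S =>
    S.mu ^ 2 * ∑ θ ∈ S.T2, etaP C S.w S.R (d.Del (pr θ)) ≤ ε

/-- divisibility of the steps -/
def StPd : Prop :=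
  ∀ d : Dat, ∃ C : ℝ, 0 < C ∧ ∀ P : Par, P.Ok d → Ev d P fun S => ∀ (r : Fin 11) (p : ℕ),
    p.Prime → (p ≤ S.w → S.Pd (p ^ (S.Q.factorization p + 1)) r ≤ C / S.w) ∧
      (S.w < p → p ≤ S.y → S.Pd p r ≤ 2 / p + 1 / Real.log S.ρ ^ 300) ∧
      (Real.log S.ρ ^ 100 ≤ p → S.Pd p r ≤ C / Real.log S.ρ ^ 60)

/-- the hypotheses of the concatenation hold -/
def StReach : Prop :=
  ∀ (d : Dat) (P : Par), P.Ok d → ∀ κ : ℝ, 0 < κ → Ev d P fun S =>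
    Reach (P.s + 1) κ S.T3 (fun _ => S.mu ^ 2 / 12) (fun x => d.bv (pr x.1, x.2)) S.N S.H S.D S.Q
      S.ρ S.bm S.Bm

/-- the linear forms condition of the local systems -/
def StLF : Prop :=
  ∃ (C : ℝ) (E₁ : ℕ), 0 < C ∧ ∀ (d : Dat) (P : Par), P.Ok d → E₁ ≤ P.E → ∀ ε : ℝ, 0 < ε →
    Ev d P fun S => S.avB (nuK S.w S.R) ≤ 2 ∧
      ∀ θ, S.Gp θ → ∀ z : O, LF2 (S.sys0 θ z) (S.sys θ z) (etaP C S.w S.R (d.Del θ) + ε)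

/-- the majorant is orthogonal to functions structured along one direction -/
def StUnifA : Prop :=
  ∃ (C : ℝ) (E₁ : ℕ), 0 < C ∧ ∀ (d : Dat) (P : Par), P.Ok d → E₁ ≤ P.E → ∀ ε : ℝ, 0 < ε →
    Ev d P fun S => ∀ (B : ℕ) (M τ : ℝ) (ψ : ℤ → ℝ), 0 < B → B ≤ S.R → 0 < τ → (∀ x, |ψ x| ≤ 1) →
      LowDir (fun _ : Fin 11 => (B : ℤ)) (S.ρ ^ (P.E * P.A / 2)) M ψ →
      |avI S.N fun x => (S.nu x - 1) * ψ x| ≤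
        M * (τ + 2 ^ 2048 * (etaP C S.w S.R B + ε) / τ ^ 2047) + ε

/-- the majorant is orthogonal to products of tests -/
def StUnif : Prop :=
  ∃ E₁ : ℕ, ∀ (d : Dat) (P : Par), P.Ok d → E₁ ≤ P.E → ∀ (m : ℕ) (η : ℝ), 0 < η →
    400 * (m + 1) * P.a ≤ P.A → Ev d P fun S => ∀ k ≤ m, ∀ ψ : Fin k → ℤ → ℝ,
      (∀ i, S.Test (ψ i)) → |avI S.N fun x => (S.nu x - 1) * ∏ i, ψ i x| ≤ η

/-- the dual functions are tests -/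
def StDual : Prop :=
  ∀ (d : Dat) (J : ℕ), ∃ C : ℝ, 0 < C ∧ ∀ P : Par, P.Ok d → P.J = J → Ev d P fun S =>
    ∀ (h : ℤ → ℝ) (η ε : ℝ), 0 < η → (∀ x, h x ≠ 0 → (S.N : ℤ) ≤ x ∧ x < 2 * S.N) →
      (∀ ψ, S.Test ψ → |avI S.N fun x => h x * ψ x| ≤ ε) →
      S.mu ^ 2 * ∑ θ ∈ S.T2, S.badC (pr θ) h η ≤ C * ε / η

/-- removal of the extra weight -/
def StSlf : Prop :=
  ∀ (ι : Type) [Fintype ι] [DecidableEq ι] (ε : ℝ), 0 < ε → ∃ η : ℝ, 0 < η ∧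
    ∀ (X : Type) [Fintype X] [Nonempty X] (ν₀ : (ι → X) → ℝ) (ν g : ι → (ι → X) → ℝ),
      (∀ j, Indep j (ν j)) → (∀ j, Indep j (g j)) → (∀ j x, 0 ≤ g j x ∧ g j x ≤ ν j x) →
      LF2 ν₀ ν η → |av fun x => (ν₀ x - 1) * ∏ j, g j x| ≤ ε

/-- transfer for one pair -/
def StPair : Prop :=
  ∀ ε : ℝ, 0 < ε → ∃ η : ℝ, 0 < η ∧ η ≤ 1 ∧ ∀ (d : Dat) (P : Par), P.Ok d → ∀ ε' : ℝ, 0 < ε' →
    Ev d P fun S => ∀ θ, S.Gp θ → ∀ (Λ : ℝ) (f g : ℤ → ℝ) (J : Finset (Fin 12)),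
      (∀ z, LF2 (S.sys0 θ z) (S.sys θ z) Λ) → (∀ x, 0 ≤ f x ∧ f x ≤ S.nu x) →
      (∀ x, 0 ≤ g x ∧ g x ≤ 1) →
      |S.avB (fun z => nuK S.w S.R z * ∏ t ∈ J, f (S.nn (jx t) (sd θ t * z))) -
        S.avB fun z => ∏ t ∈ J, g (S.nn (jx t) (sd θ t * z))| ≤
        ε + (Λ + 3) * (ε' + if Λ ≤ η then 0 else 1) + 4 * S.badC θ (fun x => f x - g x) η

/-- transfer to the dense model -/
def StTrans : Prop :=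
  ∃ E₁ : ℕ, ∀ (d : Dat) (J : ℕ) (C ε : ℝ), 0 < ε → ∃ ε₂ : ℝ, 0 < ε₂ ∧
    ∀ P : Par, P.Ok d → P.J = J → E₁ ≤ P.E → Ev d P fun S =>
      ∀ (A : Finset ℤ) (g : ℤ → ℝ) (c : ℝ), S.Vals A → (∀ x, 0 ≤ g x ∧ g x ≤ 1) →
        (∀ x, g x ≠ 0 → (S.N : ℤ) ≤ x ∧ x < 2 * S.N) →
        (∀ ψ, S.Test ψ → |avI S.N fun x => (S.ff A x - g x) * ψ x| ≤ ε₂) → 0 ≤ c → c ≤ C →
        S.avB (fun z => nuK S.w S.R z *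
            (S.mu * ∑ i ∈ S.Th, (S.Fz (S.ff A) (i.1 * i.2 * z) - c)) ^ 2) ≤
          S.avB (fun z => (S.mu * ∑ i ∈ S.Th, (S.Fz g (i.1 * i.2 * z) - c)) ^ 2) + ε

/-- packing -/
def StPack : Prop :=
  ∀ d : Dat, ∃ C : ℝ, 0 < C ∧ ∀ (b F : ℕ) (x : O) (i j : Fin 6) (a₁ a₂ : ℤ) (l₁ l₂ : ℕ),
    0 < F → x ≠ 0 → IsCoprime x.norm (F : ℤ) → i ≠ j →
    Set.Finite {γ : O | (F : O) ∣ γ * x - b ∧ a₁ ≤ d.nn b F i (γ * x) ∧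
      d.nn b F i (γ * x) < a₁ + l₁ ∧ a₂ ≤ d.nn b F j (γ * x) ∧ d.nn b F j (γ * x) < a₂ + l₂} ∧
    (Set.ncard {γ : O | (F : O) ∣ γ * x - b ∧ a₁ ≤ d.nn b F i (γ * x) ∧
      d.nn b F i (γ * x) < a₁ + l₁ ∧ a₂ ≤ d.nn b F j (γ * x) ∧ d.nn b F j (γ * x) < a₂ + l₂} : ℝ) *
        (x.norm : ℝ) ≤ C * ((l₁ : ℝ) + sz x) * ((l₂ : ℝ) + sz x)

/-- divisibility weights have small cut norm -/
def StGv : Prop :=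
  ∀ (s : ℕ) (T : Finset O) (π σ : O → ℝ) (Q Y H : ℕ) (δ : ℝ) (a : O), (∀ x ∈ T, 0 ≤ π x) →
    ∑ x ∈ T, π x ≤ 1 → (∀ x ∈ T, |σ x| ≤ 1) →
    (∀ x ∈ T, x ≠ 0 ∧ x.norm ≤ Y ∧ IsCoprime x.norm (Q : ℤ)) → 0 < δ → δ ≤ 1 →
    4 ^ s * Cv.bad T π (fun x => x.norm.natAbs) ≤ δ ^ 2 ^ s → (Y : ℝ) ^ 2 ^ s ≤ δ ^ 2 ^ s * H →
    Cv.Cut (s := s + 1) (Cv.box H) (fun h => ∑ x ∈ T, π x * (σ x *
      ((if x ∣ a + (Q : O) * ∑ r, em (h r) then (x.norm : ℝ) else 0) - 1))) (10 * δ)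

/-- structured sums against a uniform weight -/
def StLowSum : Prop :=
  ∀ d : Dat, ∃ C : ℝ, 0 < C ∧ ∀ (s b F N Q D H : ℕ) (M β Vm : ℝ) (φ : ℤ → ℝ) (x : O) (V : O → ℝ),
    b < F → 0 < N → 0 < H → 1 ≤ M → 0 ≤ β → (∀ n, |φ n| ≤ 1) →
    LowDir (fun _ : Fin (s + 1) => (Q : ℤ)) D M φ → x ≠ 0 → IsCoprime x.norm (F : ℤ) →
    3 * d.C * sz x * H ≤ D → (s + 1) * Q * (3 * d.C * sz x * H) ≤ N → sz x ≤ N →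
    (∀ γ, |V γ| ≤ Vm) →
    (∀ γ, Cv.Cut (s := s + 1) (Cv.box H)
      (fun h => V (γ + ((F * Q : ℕ) : O) * ∑ r, em (h r))) β) →
    |d.Psi b F N V (cutI N φ) x| ≤
      C * (M ^ 6 * β + Vm * (((s + 1) * Q * (3 * d.C * sz x * H) + sz x : ℕ) : ℝ) / N)

/-- the count on the multiples of `x` is structured in `x` -/
def StPsiLow : Prop :=
  ∀ d : Dat, ∃ C : ℕ, 0 < C ∧ ∀ (s b F N Q D H Γ : ℕ) (M : ℝ) (φ : ℤ → ℝ) (x : O),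
    b < F → 0 < N → 1 ≤ M → (∀ n, |φ n| ≤ 1) →
    LowDir (fun _ : Fin (s + 1) => (Q : ℤ)) D M φ → x ≠ 0 → IsCoprime x.norm (F : ℤ) →
    sz x ≤ N → C * F * N ≤ Γ * sz x → 3 * d.C * Γ * H ≤ D → (s + 1) * Q * (3 * d.C * Γ * H) ≤ N →
    8 * (s + 1) * F * Q * H ≤ sz x →
    ∃ A : (Fin (s + 1) → ℕ × ℕ) → ℝ, Low (Cv.box H : Set (ℕ × ℕ)) (C * M ^ 6) A ∧
      ∀ h : Fin (s + 1) → ℕ × ℕ, (∀ r, h r ∈ Cv.box H) →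
        |d.Psi b F N (fun _ => 1) (cutI N φ) (x + ((F * Q : ℕ) : O) * ∑ r, em (h r)) - A h| ≤
          C * ((((s + 1) * F * Q * H : ℕ) : ℝ) / sz x +
            (((s + 1) * Q * (3 * d.C * Γ * H) + sz x : ℕ) : ℝ) / N)

/-- the rough weight has small cut norm -/
def StCutR : Prop :=
  ∀ (d : Dat) (P : Par), P.Ok d → ∀ ε : ℝ, 0 < ε → Ev d P fun S => ∀ x : O,
    Cv.Cut (s := P.s + 1) (Cv.box (S.ρ ^ P.a)) (fun h =>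
      (if Rough S.w S.y (x + ((S.F * S.Q : ℕ) : O) * ∑ r, em (h r)) then SS S.w S.y else 0) - 1) ε

/-- restriction of the variance to multiples -/
def StPull : Prop :=
  ∀ (d : Dat) (P : Par), P.Ok d → ∀ M ε : ℝ, 1 ≤ M → 0 < ε → ∃ n₀ : ℕ, ∀ n, n₀ ≤ n →
    Ev d P fun S => ∀ φ, S.Str M φ → ∀ k : ℕ, k ≡ 1 [MOD S.F] → 1 ≤ k → k ≤ (2 * S.ρ) ^ S.n0 →
      ∀ Rs : Finset ℕ, S.Mul n Rs → S.Kk (cutI S.N φ) k ≤ ε +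
        (∑ r ∈ Rs, ((k * r : ℕ) : ℝ) ^ 2 / (S.l : ℝ) ^ 2 *
          ∑ z ∈ S.B.filter fun z => ((k * r : ℕ) : O) ∣ z,
            (d.Psi S.b S.F S.N (fun _ => 1) (cutI S.N φ) (dv k z) -
              d.cc S.N (cutI S.N φ)) ^ 2) / n

/-- the count is almost invariant under most multipliers -/
def StPush : Prop :=
  ∀ (d : Dat) (P : Par), P.Ok d → ∀ M ε : ℝ, 1 ≤ M → 0 < ε → ∃ n₀ : ℕ, ∀ n, n₀ ≤ n →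
    Ev d P fun S => ∀ φ, S.Str M φ → ∀ Rs : Finset ℕ, S.Mul n Rs → ∀ x : O, x ≠ 0 →
      IsCoprime x.norm (S.F : ℤ) → sz x ≤ S.T →
      ∑ r ∈ Rs, |d.Psi S.b S.F S.N (fun _ => 1) (cutI S.N φ) ((r : O) * x) -
        d.Psi S.b S.F S.N (fun _ => 1) (cutI S.N φ) x| ≤ ε * n

/-- one step of the chain -/
def StStep : Prop :=
  ∀ (d : Dat) (P : Par), P.Ok d → ∀ M ε : ℝ, 1 ≤ M → 0 < ε → Ev d P fun S =>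
    ∀ φ, S.Str M φ → ∀ k : ℕ, k ≡ 1 [MOD S.F] → 1 ≤ k → k ≤ (2 * S.ρ) ^ S.n0 →
      ∃ r : ℕ, r ≡ 1 [MOD S.F] ∧ S.ρ ≤ r ∧ r ≤ 2 * S.ρ ∧
        S.Kk (cutI S.N φ) k ≤ 2 * S.Kk (cutI S.N φ) (k * r) + ε

/-- the end of the chain -/
def StBase : Prop :=
  ∀ (d : Dat) (P : Par), P.Ok d → ∀ M ε : ℝ, 1 ≤ M → 0 < ε → Ev d P fun S =>
    ∀ φ, S.Str M φ → ∀ k : ℕ, k ≡ 1 [MOD S.F] → S.ρ ^ S.n0 ≤ k → k ≤ (2 * S.ρ) ^ S.n0 →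
      S.Kk (cutI S.N φ) k ≤ ε

/-- removal of the sieve conditions -/
def StTopA : Prop :=
  ∀ (d : Dat) (P : Par), P.Ok d → ∀ M ε : ℝ, 1 ≤ M → 0 < ε → Ev d P fun S =>
    ∀ φ, S.Str M φ → ∀ z ∈ S.B, |S.PsiM (cutI S.N φ) z -
      (d.e : ℝ) ^ 2 * (S.T : ℝ) ^ 2 / ((200 * d.C : ℝ) ^ 2 * (z.norm : ℝ)) *
        S.pav fun γ => d.Psi S.b S.F S.N (fun _ => 1) (cutI S.N φ) (γ * z)| ≤ ε

/-- removal of the pool -/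
def StTopB : Prop :=
  ∀ (d : Dat) (P : Par), P.Ok d → ∀ M ε : ℝ, 1 ≤ M → 0 < ε → Ev d P fun S =>
    ∀ φ, S.Str M φ → ∀ z ∈ S.B,
      |(S.pav fun γ => d.Psi S.b S.F S.N (fun _ => 1) (cutI S.N φ) (γ * z)) -
        d.Psi S.b S.F S.N (fun _ => 1) (cutI S.N φ) z| ≤ ε

/-- the start of the chain -/
def StTop : Prop :=
  ∀ (d : Dat) (P : Par), P.Ok d → ∀ M ε : ℝ, 1 ≤ M → 0 < ε → Ev d P fun S =>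
    ∀ φ, S.Str M φ → ∀ z ∈ S.B, |S.PsiM (cutI S.N φ) z -
      (d.e : ℝ) ^ 2 * (S.T : ℝ) ^ 2 / ((200 * d.C : ℝ) ^ 2 * (z.norm : ℝ)) *
        d.Psi S.b S.F S.N (fun _ => 1) (cutI S.N φ) z| ≤ ε

/-- the variance of the model is small -/
def StChain : Prop :=
  ∀ d : Dat, ∃ C : ℝ, 0 < C ∧ ∀ P : Par, P.Ok d → ∀ M ε : ℝ, 1 ≤ M → 0 < ε → Ev d P fun S =>
    ∀ (ε' : ℝ) (g φ : ℤ → ℝ), 0 ≤ ε' → ε' ≤ 1 → (∀ x, 0 ≤ g x ∧ g x ≤ 1) →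
      (∀ x, g x ≠ 0 → (S.N : ℤ) ≤ x ∧ x < 2 * S.N) → S.Str M φ →
      (∀ x, (S.N : ℤ) ≤ x → x < 2 * S.N → |g x - φ x| ≤ ε') →
      S.avB (fun z => (S.PsiM g z - S.cst g) ^ 2) ≤ ε + C * (1 / P.J + ε')

/-- patterns in dense functions -/
def StVarn : Prop :=
  ∀ d : Dat, (∃ C : ℝ, ∀ (N : ℕ) (g : ℤ → ℝ), 0 < N → (∀ x, |g x| ≤ 1) →
    (∀ x, g x ≠ 0 → (N : ℤ) ≤ x ∧ x < 2 * N) → |d.cc N g| ≤ C) ∧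
    ∀ δ : ℝ, 0 < δ → ∃ c : ℝ, 0 < c ∧ ∃ N₀ : ℕ, ∀ N : ℕ, N₀ ≤ N → ∀ g : ℤ → ℝ,
      (∀ x, 0 ≤ g x ∧ g x ≤ 1) → (∀ x, g x ≠ 0 → (N : ℤ) ≤ x ∧ x < 2 * N) →
      δ ≤ avI N (fun x => g x * chi d.e x) → c ≤ d.cc N g

/-- the main term -/
def StMain : Prop :=
  ∃ E₁ : ℕ, ∀ (d : Dat) (E : ℕ) (δ : ℝ), E₁ ≤ E → 0 < δ → ∃ κ : ℝ, 0 < κ ∧ ∃ P : Par,
    P.Ok d ∧ P.E = E ∧ Ev d P fun S => ∀ (A : Finset ℤ) (Pi : Finset O), S.Vals A →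
      (∀ n ∈ A, (d.e : ℤ) ∣ n) → S.Prs Pi → δ * S.N ≤ Sg.GG (Sg.PP S.w S.R) S.R * A.card →
      δ * (S.l : ℝ) ^ 2 ≤ Sg.GG (PS S.w S.R) S.R ^ 2 * Pi.card →
      κ * (S.l : ℝ) ^ 2 ≤ Sg.GG (PS S.w S.R) S.R ^ 2 * Sg.GG (Sg.PP S.w S.R) S.R ^ 6 *
        (S.mu * (S.Al A Pi).card)

/-- primes that are norms -/
def StRep : Prop :=
  ∀ q : ℕ, q.Prime → (q % 3 = 1 → ∃ z : O, z.norm = q) ∧
    ∀ Z : Finset O, (∀ z ∈ Z, z.norm = q) → Z.card ≤ 4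

/-- the Selberg sum over the split primes -/
def StGK : Prop :=
  ∃ c : ℝ, 0 < c ∧ ∀ w R : ℕ, 3 ≤ w → 1 ≤ R →
    c * Real.log R * ∏ p ∈ (Sg.PP 0 w).filter (fun p => p % 3 = 1), (1 - 1 / (p : ℝ)) ^ 2 ≤
      Sg.GG (PS w R) R ^ 2

/-- a box with many primes -/
def StPrime : Prop :=
  ∃ δ : ℝ, 0 < δ ∧ ∀ w e : ℕ, 3 ≤ w → 0 < e → ∃ T₀ : ℕ, ∀ T l R : ℕ, T₀ ≤ T → 1 ≤ l →
    16 * (e * w.factorial) * l ≤ T → 1 ≤ R → ∃ (a : O) (Pi : Finset O),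
      IsCoprime a.norm ((e * w.factorial : ℕ) : ℤ) ∧
      (∀ z ∈ cbx (e * w.factorial) a l, (T : ℤ) ^ 2 ≤ 4 * z.norm ∧ z.norm ≤ 9 * (T : ℤ) ^ 2) ∧
      Pi ⊆ cbx (e * w.factorial) a l ∧ (∀ z ∈ Pi, z.norm.natAbs.Prime) ∧
      δ * (l : ℝ) ^ 2 * Real.log R ≤ Sg.GG (PS w R) R ^ 2 * Pi.card * Real.log T

/-- a class with many primes -/
def StDens : Prop :=
  ∀ W₀ e u : ℕ, 0 < W₀ → 0 < e → u.Coprime W₀ → ∃ C : ℝ, 0 < C ∧ ∀ W : ℕ, 1 ≤ W →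
    ∃ N₀ : ℕ, ∀ N : ℕ, N₀ ≤ N → ∃ (b : ℕ) (A : Finset ℤ), b < e * W ∧ b.Coprime (e * W) ∧
      (∀ n ∈ A, (N : ℤ) ≤ n ∧ n < 2 * N ∧ (e : ℤ) ∣ n ∧ (W * n + b).natAbs.Prime ∧
        (W * n + b).natAbs ≡ u [MOD W₀]) ∧
      (W : ℝ) * N ≤ C * Nat.totient W * A.card * Real.log N

/-- the quadratic character of the norm has small cut norm -/
def StWeil : Prop :=
  ∃ C : ℝ, ∀ (g : ℕ) (t : ℤ) (u : Fin 12 → O) (t₀ : Fin 12) (z : O), g.Prime → 3 < g →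
    (g : ℤ) ∣ t ^ 2 + 3 → (∀ i, ¬(g : ℤ) ∣ (u i).re + t * (u i).im) →
    (g : ℤ) ∣ (u t₀).re - t * (u t₀).im →
    Cv.Cut (s := 12) (range g) (fun x => (J((z + ∑ i, (x i : O) * u i).norm | g) : ℝ))
      (C / (g : ℝ) ^ (1 / 8192 : ℝ))

/-- cancellation from a free prime -/
def StOscX : Prop :=
  ∀ (d : Dat) (P : Par), P.Ok d → ∀ n : ℕ, Ev d P fun S => S.Osc n 0

/-- removal of the global symbol -/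
def StEps : Prop :=
  ∀ (d : Dat) (P : Par), P.Ok d → ∀ n : ℕ, Ev d P fun S => S.Osc (n + 1) 0 → S.Osc n 1

/-- arithmetic of the triples -/
def StFacts : Prop :=
  ∀ (d : Dat) (P : Par), P.Ok d → Ev d P fun S => ∀ (A : Finset ℤ) (Pi : Finset O), S.Vals A →
    S.Prs Pi → ∀ x ∈ S.Al A Pi, ∀ z, z = x.1.1 * x.1.2 * x.2 →
      z.im = d.e * (z.im / d.e) ∧ z.im / d.e ≠ 0 ∧
      (∀ j, (S.mm j z : ℤ) = z.re + d.c j * (z.im / d.e)) ∧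
      (Function.Injective fun j => S.mm j z) ∧ (x.1.1 * x.1.2).norm < x.2.norm ∧
      (∀ j, (x.1.1 * x.1.2).norm < S.mm j z) ∧ |z.re| ≤ 2 * d.C * S.W * S.N ∧
      |z.im| ≤ 2 * d.C * S.W * S.N

/-- a positive proportion of the triples is good -/
def StOsc : Prop :=
  ∀ (d : Dat) (P : Par), P.Ok d → ∀ n : ℕ, Ev d P fun S =>
    ∀ (A : Finset ℤ) (Pi : Finset O) (ξ : Rule), S.Vals A → S.Prs Pi →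
      S.mu * (S.Al A Pi).card - (S.l : ℝ) ^ 2 / Real.log S.ρ ^ n ≤
        2 ^ (34 * P.a * S.k) * (S.mu * (S.Gd A Pi ξ).card)

/-- the analytic theorem -/
def StMany : Prop :=
  ∀ (d : Dat) (W₀ u : ℕ), 0 < W₀ → u.Coprime W₀ → ∀ P0 : ℕ → Finset O,
    (∀ᶠ y in atTop, PoolOk d.c0 d.C0 y (P0 y)) → ∀ ξ : Rule,
    ∃ (K : ℕ) (κ : ℝ), 0 < κ ∧ ∃ T₀ : ℝ, ∀ T : ℝ, T₀ ≤ T → ∃ Z : Finset (ℤ × ℤ),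
      (∀ z ∈ Z, GoodQ d W₀ u P0 ξ z.1 z.2 ∧ |(z.1 : ℝ)| ≤ T ∧ |(z.2 : ℝ)| ≤ T) ∧
      κ * T ^ 2 / Real.log T ^ K ≤ Z.card

/-- a pool of products of four primes -/
def StPool : Prop :=
  ∀ (W₀ : ℕ) (v : Fin 4 → ℕ) (P : Fin 4 → ℤ → ℤ → Prop), 0 < W₀ → 3 ∣ W₀ →
    (∀ i, (v i).Coprime W₀ ∧ v i % 3 = 1) →
    (∀ i (g : ℕ) (x y : ℤ), g.Prime → g ≡ v i [MOD W₀] → (g : ℤ) = x ^ 2 + 3 * y ^ 2 →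
      P i x y ∨ P i x (-y)) →
    ∃ c0 C0 : ℝ, 0 < c0 ∧ ∃ P0 : ℕ → Finset O, (∀ᶠ y in atTop, PoolOk c0 C0 y (P0 y)) ∧
      ∀ y, ∀ γ ∈ P0 y, ∃ g : Fin 4 → ℕ, Function.Injective g ∧ ∀ i, (g i).Prime ∧
        g i ≡ v i [MOD W₀] ∧ ∃ x y' : ℤ, (g i : ℤ) = x ^ 2 + 3 * y' ^ 2 ∧ P i x y' ∧
          (⟨x, y'⟩ : O) ∣ γ

end Pool.Agent.Lib.MP_7d3fda_nt.Q3
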