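import Pool.Agent.Lib.MP_7d3fda_nt.Q3.Basic

open Finset Filter
open scoped Classical NumberTheorySymbols

noncomputable section

namespace Pool.Agent.Lib.MP_7d3fda_nt.Q3

open Pool.Agent.Lib.MP_4b8564_nt Pool.Agent.Lib.MP_4b8564_nt.GT
open Pool.Agent.Lib.MP_0a3467_an.Cv (Low)
open Pool.Agent.Lib.MP_0a3467_an

theorem kap_le (S : Sc) (h : S.Ok) {z : O} (hz : z ∈ S.B) :
    0 ≤ (S.d.e : ℝ) ^ 2 * (S.T : ℝ) ^ 2 / ((200 * S.d.C : ℝ) ^ 2 * (z.norm : ℝ)) ∧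
      (S.d.e : ℝ) ^ 2 * (S.T : ℝ) ^ 2 / ((200 * S.d.C : ℝ) ^ 2 * (z.norm : ℝ)) ≤ 1 := by
  have h0 : (0 : ℝ) ≤ z.norm := by exact_mod_cast norm_nonneg' z
  have h1 : (S.T : ℝ) ^ 2 ≤ 4 * z.norm := by exact_mod_cast (h.lo z hz).1
  have h2 : 2 * (S.d.e : ℝ) ≤ S.d.C := by exact_mod_cast S.d.two_e_le
  have h3 : (0 : ℝ) ≤ S.d.e := Nat.cast_nonneg _
  refine ⟨by positivity, div_le_one_of_le₀ ?_ (by positivity)⟩
  have h4 : 4 * (S.d.e : ℝ) ^ 2 ≤ (200 * S.d.C : ℝ) ^ 2 := by nlinarith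
  calc (S.d.e : ℝ) ^ 2 * (S.T : ℝ) ^ 2 ≤ (S.d.e : ℝ) ^ 2 * (4 * z.norm) := by gcongr
    _ = 4 * (S.d.e : ℝ) ^ 2 * z.norm := by ring
    _ ≤ _ := by gcongr

theorem stTop (hA : StTopA) (hB : StTopB) : StTop := by
  intro d P hP M ε hM hε
  refine ((hA d P hP M (ε / 2) hM (by positivity)).and
    (hB d P hP M (ε / 2) hM (by positivity))).mono ?_
  rintro S rfl rfl hok ⟨h1, h2⟩ φ hφ z hz
  obtain ⟨k0, k1⟩ := kap_le S hok hz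
  have h3 := h1 φ hφ z hz
  have h4 := h2 φ hφ z hz
  generalize (S.d.e : ℝ) ^ 2 * (S.T : ℝ) ^ 2 / ((200 * S.d.C : ℝ) ^ 2 * (z.norm : ℝ)) = κ at *
  generalize S.PsiM (cutI S.N φ) z = X at *
  generalize (S.pav fun γ => S.d.Psi S.b S.F S.N (fun _ => 1) (cutI S.N φ) (γ * z)) = Y at *
  generalize S.d.Psi S.b S.F S.N (fun _ => 1) (cutI S.N φ) z = Z at *
  have h5 : |κ * (Y - Z)| ≤ ε / 2 := by
    rw [abs_mul, abs_of_nonneg k0]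
    nlinarith [abs_nonneg (Y - Z)]
  have h6 : X - κ * Z = (X - κ * Y) + κ * (Y - Z) := by ring
  rw [h6]
  exact (abs_add_le _ _).trans (by linarith)

end Pool.Agent.Lib.MP_7d3fda_nt.Q3
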